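import Mathlib.LinearAlgebra.FreeModule.PID
import Mathlib.Topology.Sheaves.Presheaf
import Mathlib.RingTheory.Flat.TorsionFree
import Mathlib.Algebra.Module.StablyFree.Basic
import Mathlib.Analysis.Complex.Polynomial.Basic
import Mathlib.RingTheory.Complex
import Mathlib.RingTheory.Norm.Transitivity
import Mathlib.MeasureTheory.Integral.IntervalIntegral.DistLEIntegral
import Mathlib.RingTheory.SimpleRing.Principal
import Mathlib.Order.CompletePartialOrder
import Mathlib.RingTheory.TotallySplit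
import Pool.Agent.MP_990230_pr.BM

-- ======== part 0: formerly Pool.Agent.MP_990230_pr.k8.LA
section MrgPart0

/-! # SLE8 frame: length-area inequalities -/

open Set MeasureTheory Filter Complex
open scoped ENNReal NNReal Topology Real

noncomputable section

namespace Pool.Agent.MP_990230_pr.K8

/-- displacement is at most the integral of the speed. -/
theorem path_le {E : Type*} [NormedAddCommGroup E] [NormedSpace ℝ E] [CompleteSpace E]
    {φ φ' : ℝ → E} {α β : ℝ} (hαβ : α ≤ β) (hd : ∀ s ∈ Icc α β, HasDerivAt φ (φ' s) s)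
    {B : ℝ → ℝ≥0∞} (hB : ∀ s ∈ Ioo α β, ‖φ' s‖ₑ ≤ B s) :
    ‖φ β - φ α‖ₑ ≤ ∫⁻ s in Ioo α β, B s := by
  have h1 : ∫⁻ s in Ioo α β, ‖deriv φ s‖ₑ ≤ ∫⁻ s in Ioo α β, B s :=
    setLIntegral_mono' measurableSet_Ioo fun s hs => by
      rw [(hd s (Ioo_subset_Icc_self hs)).deriv]; exact hB s hs
  refine le_trans ?_ h1
  rcases eq_or_ne (∫⁻ s in Ioo α β, ‖deriv φ s‖ₑ) ⊤ with h | h
  · rw [h]; exact le_top
  have hi : IntegrableOn (deriv φ) (Ioo α β) :=
    ⟨aestronglyMeasurable_deriv _ _, lt_top_iff_ne_top.2 h⟩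
  have h2 := norm_sub_le_integral_of_norm_deriv_le_of_le (f := φ) (B := fun s => ‖deriv φ s‖) hαβ
    (fun s hs => (hd s hs).continuousAt.continuousWithinAt)
    (fun s hs => (hd s (Ioo_subset_Icc_self hs)).differentiableAt.differentiableWithinAt)
    (ae_of_all _ fun _ _ => le_rfl)
    ((intervalIntegrable_iff_integrableOn_Ioo_of_le hαβ).2 hi.norm)
  rw [intervalIntegral.integral_of_le hαβ, integral_Ioc_eq_integral_Ioo] at h2
  rw [← ofReal_integral_norm_eq_lintegral_enorm hi, ← ofReal_norm]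
  exact ENNReal.ofReal_le_ofReal h2

/-- the same on an open interval, for any two of its points. -/
theorem path_le' {E : Type*} [NormedAddCommGroup E] [NormedSpace ℝ E] [CompleteSpace E]
    {φ φ' : ℝ → E} {α β : ℝ} (hd : ∀ s ∈ Ioo α β, HasDerivAt φ (φ' s) s)
    {B : ℝ → ℝ≥0∞} (hB : ∀ s ∈ Ioo α β, ‖φ' s‖ₑ ≤ B s) {s t : ℝ} (hs : s ∈ Ioo α β)
    (ht : t ∈ Ioo α β) : ‖φ t - φ s‖ₑ ≤ ∫⁻ r in Ioo α β, B r := by
  wlog h : s ≤ t generalizing s t
  · rw [enorm_sub_rev]; exact this ht hs (le_of_not_ge h)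
  exact (path_le h (fun r hr => hd r ⟨hs.1.trans_le hr.1, hr.2.trans_lt ht.2⟩)
    (fun r hr => hB r ⟨hs.1.trans hr.1, hr.2.trans ht.2⟩)).trans
    (lintegral_mono_set (Ioo_subset_Ioo hs.1.le ht.2.le))

/-- conformal change of variables. -/
theorem area_eq {F : ℂ → ℂ} {S : Set ℂ} (hS : MeasurableSet S)
    (hd : ∀ w ∈ S, DifferentiableAt ℂ F w) (hi : InjOn F S) (φ : ℂ → ℝ≥0∞) :
    ∫⁻ z in F '' S, φ z = ∫⁻ w in S, ‖deriv F w‖ₑ ^ 2 * φ (F w) := by
  rw [lintegral_image_eq_lintegral_abs_det_fderiv_mul volume hS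
    (f' := fun w => (ContinuousLinearMap.toSpanSingleton ℂ (deriv F w)).restrictScalars ℝ)
    (fun w hw => ((hd w hw).hasDerivAt.hasFDerivAt.restrictScalars ℝ).hasFDerivWithinAt) hi]
  refine lintegral_congr fun w => ?_
  congr 1
  have : ((ContinuousLinearMap.toSpanSingleton ℂ (deriv F w)).restrictScalars ℝ).det =
      ‖deriv F w‖ ^ 2 := by
    simp [ContinuousLinearMap.det, LinearMap.det_restrictScalars, Algebra.norm_complex_eq,
      Complex.normSq_eq_norm_sq]
  rw [this, abs_of_nonneg (by positivity), ENNReal.ofReal_pow (norm_nonneg _), ofReal_norm]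

theorem area_image {F : ℂ → ℂ} {S : Set ℂ} (hS : MeasurableSet S)
    (hd : ∀ w ∈ S, DifferentiableAt ℂ F w) (hi : InjOn F S) :
    ∫⁻ w in S, ‖deriv F w‖ₑ ^ 2 = volume (F '' S) := by
  have := area_eq hS hd hi (fun _ => 1)
  simpa using this.symm

/-- Cauchy-Schwarz on a set. -/
theorem sq_lintegral_le {α : Type*} [MeasurableSpace α] (ν : Measure α) {f : α → ℝ≥0∞}
    (hf : AEMeasurable f ν) : (∫⁻ y, f y ∂ν) ^ 2 ≤ ν univ * ∫⁻ y, f y ^ 2 ∂ν := by
  have h := ENNReal.lintegral_mul_le_Lp_mul_Lq ν Real.HolderConjugate.two_two hf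
    (g := fun _ => 1) aemeasurable_const
  simp only [Pi.mul_apply, mul_one, one_pow, lintegral_const, one_mul, ENNReal.rpow_ofNat] at h
  calc _ ≤ ((∫⁻ y, f y ^ 2 ∂ν) ^ (1 / 2 : ℝ) * ν univ ^ (1 / 2 : ℝ)) ^ 2 := by gcongr
    _ = _ := by
      rw [mul_pow, ← ENNReal.rpow_two, ← ENNReal.rpow_two, ← ENNReal.rpow_mul, ← ENNReal.rpow_mul]
      norm_num [mul_comm]

theorem measurableSet_rect {X Y : Set ℝ} (hX : MeasurableSet X) (hY : MeasurableSet Y) :
    MeasurableSet (X ×ℂ Y) := (measurable_re hX).inter (measurable_im hY)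

theorem measurable_xy : Measurable (fun p : ℝ × ℝ => (p.1 : ℂ) + p.2 * I) := by fun_prop

theorem rect_prod {X Y : Set ℝ} (G : ℂ → ℝ≥0∞) : ∫⁻ w in X ×ℂ Y, G w =
    ∫⁻ p : ℝ × ℝ, G (p.1 + p.2 * I) ∂((volume.restrict X).prod (volume.restrict Y)) := by
  rw [Measure.prod_restrict, ← Measure.volume_eq_prod,
    ← volume_preserving_equiv_real_prod.setLIntegral_comp_preimage_emb
      measurableEquivRealProd.measurableEmbedding]
  refine lintegral_congr fun w => ?_
  simp

theorem rect_xy {X Y : Set ℝ} {G : ℂ → ℝ≥0∞} (hG : Measurable G) :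
    ∫⁻ w in X ×ℂ Y, G w = ∫⁻ x in X, ∫⁻ y in Y, G (x + y * I) := by
  rw [rect_prod]
  exact lintegral_prod _ (hG.comp measurable_xy).aemeasurable

theorem rect_yx {X Y : Set ℝ} {G : ℂ → ℝ≥0∞} (hG : Measurable G) :
    ∫⁻ w in X ×ℂ Y, G w = ∫⁻ y in Y, ∫⁻ x in X, G (x + y * I) := by
  rw [rect_prod]
  exact lintegral_prod_symm _ (hG.comp measurable_xy).aemeasurable

/-- length-area for vertical segments. -/
theorem vert_avg {X Y : Set ℝ} {G : ℂ → ℝ≥0∞} (hG : Measurable G) :
    ∫⁻ x in X, (∫⁻ y in Y, G (x + y * I)) ^ 2 ≤ volume Y * ∫⁻ w in X ×ℂ Y, G w ^ 2 := by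
  have m : Measurable (fun p : ℝ × ℝ => G (p.1 + p.2 * I) ^ 2) := (hG.comp measurable_xy).pow_const 2
  rw [rect_xy (hG.pow_const 2), ← lintegral_const_mul _ m.lintegral_prod_right']
  refine lintegral_mono fun x => ?_
  have := sq_lintegral_le (volume.restrict Y) (f := fun y : ℝ => G (x + y * I))
    (hG.comp (by fun_prop)).aemeasurable
  rwa [Measure.restrict_apply_univ] at this

/-- length-area for horizontal segments. -/
theorem horiz_avg {X Y : Set ℝ} {G : ℂ → ℝ≥0∞} (hG : Measurable G) :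
    ∫⁻ y in Y, (∫⁻ x in X, G (x + y * I)) ^ 2 ≤ volume X * ∫⁻ w in X ×ℂ Y, G w ^ 2 := by
  have m : Measurable (fun p : ℝ × ℝ => G (p.1 + p.2 * I) ^ 2) := (hG.comp measurable_xy).pow_const 2
  rw [rect_yx (hG.pow_const 2), ← lintegral_const_mul _ m.lintegral_prod_left']
  refine lintegral_mono fun y => ?_
  have := sq_lintegral_le (volume.restrict X) (f := fun x : ℝ => G (x + y * I))
    (hG.comp (by fun_prop)).aemeasurable
  rwa [Measure.restrict_apply_univ] at this

/-- first moment selection, off a null set. -/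
theorem exists_le_avg {X : Set ℝ} (h0 : volume X ≠ 0) (h1 : volume X ≠ ⊤) {f : ℝ → ℝ≥0∞}
    (hf : Measurable f) {N : Set ℝ} (hN : volume N = 0) :
    ∃ x ∈ X, x ∉ N ∧ f x * volume X ≤ ∫⁻ y in X, f y := by
  have := measure_le_setLAverage_pos h0 h1 hf.aemeasurable
  rw [← measure_sdiff_null hN] at this
  obtain ⟨x, ⟨hx, h⟩, hxN⟩ := nonempty_of_measure_ne_zero this.ne'
  refine ⟨x, hx, hxN, ?_⟩
  rw [setLAverage_eq] at h
  exact (ENNReal.le_div_iff_mul_le (Or.inl h0) (Or.inl h1)).1 h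

theorem exists_vert {X Y : Set ℝ} (h0 : volume X ≠ 0) (h1 : volume X ≠ ⊤) {G : ℂ → ℝ≥0∞}
    (hG : Measurable G) {N : Set ℝ} (hN : volume N = 0) : ∃ x ∈ X, x ∉ N ∧
      (∫⁻ y in Y, G (x + y * I)) ^ 2 * volume X ≤ volume Y * ∫⁻ w in X ×ℂ Y, G w ^ 2 := by
  obtain ⟨x, hx, hn, h⟩ := exists_le_avg h0 h1
    (f := fun x : ℝ => (∫⁻ y in Y, G (x + y * I)) ^ 2)
    ((hG.comp measurable_xy).lintegral_prod_right'.pow_const 2) hN
  exact ⟨x, hx, hn, h.trans (vert_avg hG)⟩

theorem exists_horiz {X Y : Set ℝ} (h0 : volume Y ≠ 0) (h1 : volume Y ≠ ⊤) {G : ℂ → ℝ≥0∞}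
    (hG : Measurable G) {N : Set ℝ} (hN : volume N = 0) : ∃ y ∈ Y, y ∉ N ∧
      (∫⁻ x in X, G (x + y * I)) ^ 2 * volume Y ≤ volume X * ∫⁻ w in X ×ℂ Y, G w ^ 2 := by
  obtain ⟨y, hy, hn, h⟩ := exists_le_avg h0 h1
    (f := fun y : ℝ => (∫⁻ x in X, G (x + y * I)) ^ 2)
    ((hG.comp measurable_xy).lintegral_prod_left'.pow_const 2) hN
  exact ⟨y, hy, hn, h.trans (horiz_avg hG)⟩

/-! ## logarithmic coordinates -/

theorem injOn_exp_strip {θ1 θ2 : ℝ} (h : θ2 - θ1 ≤ 2 * π) (c : ℂ) (X : Set ℝ) :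
    InjOn (fun ζ : ℂ => c + exp ζ) (X ×ℂ Ioo θ1 θ2) := by
  intro x hx y hy e
  obtain ⟨n, hn⟩ := exp_eq_exp_iff_exists_int.1 (add_left_cancel e)
  have h1 : x.im = y.im + n * (2 * π) := by rw [hn]; simp
  have h2 : (n : ℝ) * (2 * π) < 1 * (2 * π) := by linarith [hx.2.2, hy.2.1]
  have h3 : (-1 : ℝ) * (2 * π) < n * (2 * π) := by linarith [hx.2.1, hy.2.2]
  have h4 := lt_of_mul_lt_mul_right h2 (by positivity)
  have h5 := lt_of_mul_lt_mul_right h3 (by positivity)
  have h6 : n = 0 := by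
    have a : n < 1 := by exact_mod_cast h4
    have b : -1 < n := by exact_mod_cast h5
    omega
  rw [hn, h6]; simp

/-- the density `g` in the coordinates `w = c + exp ζ`. -/
def lg (g : ℂ → ℝ≥0∞) (c : ℂ) (ζ : ℂ) : ℝ≥0∞ := ‖exp ζ‖ₑ * g (c + exp ζ)

theorem measurable_lg {g : ℂ → ℝ≥0∞} (hg : Measurable g) (c : ℂ) : Measurable (lg g c) :=
  (measurable_exp.enorm).mul (hg.comp (measurable_const.add measurable_exp))

theorem lg_energy {θ1 θ2 : ℝ} (h : θ2 - θ1 ≤ 2 * π) (g : ℂ → ℝ≥0∞) (c : ℂ) {X : Set ℝ}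
    (hX : MeasurableSet X) {S : Set ℂ}
    (hS : ∀ s ∈ X, ∀ θ ∈ Ioo θ1 θ2, c + exp (s + θ * I) ∈ S) :
    ∫⁻ ζ in X ×ℂ Ioo θ1 θ2, lg g c ζ ^ 2 ≤ ∫⁻ w in S, g w ^ 2 := by
  have h1 := area_eq (F := fun ζ : ℂ => c + exp ζ) (measurableSet_rect hX measurableSet_Ioo)
    (fun w _ => by fun_prop) (injOn_exp_strip h c X) (fun w => g w ^ 2)
  have h2 : ∀ w, deriv (fun ζ : ℂ => c + exp ζ) w = exp w := fun w =>
    ((hasDerivAt_exp w).const_add c).deriv
  simp only [h2, ← mul_pow] at h1
  refine h1.ge.trans (lintegral_mono_set ?_)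
  rintro _ ⟨ζ, hζ, rfl⟩
  have := hS ζ.re hζ.1 ζ.im hζ.2
  rwa [re_add_im] at this

/-- a short circular arc among the radii `exp s`, `s ∈ X`. -/
theorem exists_arc {θ1 θ2 : ℝ} (h : θ2 - θ1 ≤ 2 * π) {g : ℂ → ℝ≥0∞} (hg : Measurable g) (c : ℂ)
    {X : Set ℝ} (hX : MeasurableSet X) (h0 : volume X ≠ 0) (h1 : volume X ≠ ⊤) {S : Set ℂ}
    (hS : ∀ s ∈ X, ∀ θ ∈ Ioo θ1 θ2, c + exp (s + θ * I) ∈ S) {N : Set ℝ} (hN : volume N = 0) :
    ∃ s ∈ X, s ∉ N ∧ (∫⁻ θ in Ioo θ1 θ2, lg g c (s + θ * I)) ^ 2 * volume X ≤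
      ENNReal.ofReal (θ2 - θ1) * ∫⁻ w in S, g w ^ 2 := by
  obtain ⟨s, hs, hn, h2⟩ := exists_vert (Y := Ioo θ1 θ2) h0 h1 (measurable_lg hg c) hN
  rw [Real.volume_Ioo] at h2
  exact ⟨s, hs, hn, h2.trans (mul_le_mul_right (lg_energy h g c hX hS) _)⟩

/-- a short ray segment among the angles in `(θ1, θ2)`. -/
theorem exists_ray {θ1 θ2 : ℝ} (h : θ2 - θ1 ≤ 2 * π) (h' : θ1 < θ2) {g : ℂ → ℝ≥0∞}
    (hg : Measurable g) (c : ℂ) {X : Set ℝ} (hX : MeasurableSet X) {S : Set ℂ}
    (hS : ∀ s ∈ X, ∀ θ ∈ Ioo θ1 θ2, c + exp (s + θ * I) ∈ S) {N : Set ℝ} (hN : volume N = 0) :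
    ∃ θ ∈ Ioo θ1 θ2, θ ∉ N ∧ (∫⁻ s in X, lg g c (s + θ * I)) ^ 2 * ENNReal.ofReal (θ2 - θ1) ≤
      volume X * ∫⁻ w in S, g w ^ 2 := by
  obtain ⟨θ, hθ, hn, h2⟩ := exists_horiz (X := X) (Y := Ioo θ1 θ2) (by simp [h'])
    (by simp) (measurable_lg hg c) hN
  rw [Real.volume_Ioo] at h2
  exact ⟨θ, hθ, hn, h2.trans (mul_le_mul_right (lg_energy h g c hX hS) _)⟩

/-! ## conformal maps of the half-plane -/

theorem sq_real_of {p : ℂ} {L A : ℝ} {x : ℝ≥0∞} (hA : 0 ≤ A) (hp : ‖p‖ₑ ≤ x)
    (h : x ^ 2 * ENNReal.ofReal L ≤ ENNReal.ofReal A) : ‖p‖ ^ 2 * L ≤ A := by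
  have h1 : ‖p‖ₑ ^ 2 * ENNReal.ofReal L ≤ ENNReal.ofReal A := le_trans (by gcongr) h
  rwa [← ofReal_norm, ← ENNReal.ofReal_pow (norm_nonneg _),
    ← ENNReal.ofReal_mul (by positivity), ENNReal.ofReal_le_ofReal_iff hA] at h1

theorem enorm_I' : ‖I‖ₑ = 1 := by rw [← ofReal_norm, norm_I, ENNReal.ofReal_one]

theorem im_arc_pos (x s : ℝ) {θ : ℝ} (hθ : θ ∈ Ioo 0 π) : 0 < ((x : ℂ) + exp (s + θ * I)).im := by
  have := Real.sin_pos_of_pos_of_lt_pi hθ.1 hθ.2
  simp only [add_im, ofReal_im, exp_im, add_re, ofReal_re, mul_re, I_re, mul_zero, I_im, mul_one,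
    sub_self, add_zero, mul_im, zero_add]
  positivity

theorem norm_exp_arc (s θ : ℝ) : ‖exp (s + θ * I)‖ = Real.exp s := by
  rw [norm_exp]; simp

/-- a half circle around a real point with a short image. -/
theorem short_arc {F : ℂ → ℂ} (hd : ∀ w : ℂ, 0 < w.im → DifferentiableAt ℂ F w)
    (hi : InjOn F {w | 0 < w.im}) (x : ℝ) {s1 s2 A : ℝ} (hs : s1 < s2) (hA : 0 ≤ A)
    (hF : volume (F '' {w | 0 < w.im ∧ ‖w - x‖ < Real.exp s2}) ≤ ENNReal.ofReal A) :
    ∃ s ∈ Ioo s1 s2, ∀ θ ∈ Ioo 0 π, ∀ θ' ∈ Ioo 0 π,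
      ‖F (x + exp (s + θ' * I)) - F (x + exp (s + θ * I))‖ ^ 2 * (s2 - s1) ≤ π * A := by
  have mS : MeasurableSet {w : ℂ | 0 < w.im ∧ ‖w - x‖ < Real.exp s2} :=
    (measurableSet_lt measurable_const measurable_im).inter
      (measurableSet_lt (f := fun w : ℂ => ‖w - x‖) (by fun_prop) measurable_const)
  obtain ⟨s, hs', -, h⟩ := exists_arc (θ1 := 0) (θ2 := π) (by linarith [Real.pi_pos])
    (g := fun w => ‖deriv F w‖ₑ) (measurable_deriv F).enorm (x : ℂ) (X := Ioo s1 s2)
    measurableSet_Ioo (by simp [hs]) (by simp)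
    (S := {w : ℂ | 0 < w.im ∧ ‖w - x‖ < Real.exp s2}) (fun s hs θ hθ => ⟨im_arc_pos x s hθ, by
      rw [add_sub_cancel_left, norm_exp_arc]; exact Real.exp_lt_exp.2 hs.2⟩) measure_empty
  rw [area_image mS (fun w hw => hd w hw.1) (hi.mono fun w hw => hw.1), Real.volume_Ioo,
    sub_zero] at h
  refine ⟨s, hs', fun θ hθ θ' hθ' => ?_⟩
  refine sq_real_of (by positivity) (path_le'
    (φ := fun θ : ℝ => F (x + exp (s + θ * I)))
    (φ' := fun θ : ℝ => deriv F (x + exp (s + θ * I)) * (exp (s + θ * I) * I))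
    (fun r hr => ?_) (B := fun θ : ℝ => lg (fun w => ‖deriv F w‖ₑ) x (s + θ * I))
    (fun r _ => ?_) hθ hθ') (h.trans ?_)
  · have h1 : HasDerivAt (fun ζ : ℂ => (x : ℂ) + exp (s + ζ * I)) (exp (s + r * I) * I) r := by
      simpa using ((((hasDerivAt_id (r : ℂ)).mul_const I).const_add (s : ℂ)).cexp).const_add (x : ℂ)
    exact ((hd _ (im_arc_pos x s hr)).hasDerivAt.comp (r : ℂ) h1).comp_ofReal
  · simp [lg, mul_comm, enorm_I']
  · rw [ENNReal.ofReal_mul Real.pi_pos.le]; gcongr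

/-- a vertical segment down to the real line with a short image. -/
theorem short_vert {F : ℂ → ℂ} (hd : ∀ w : ℂ, 0 < w.im → DifferentiableAt ℂ F w)
    (hi : InjOn F {w | 0 < w.im}) {x1 x2 y A : ℝ} (hx : x1 < x2) (hy : 0 < y) (hA : 0 ≤ A)
    (hF : volume (F '' (Ioo x1 x2 ×ℂ Ioo 0 y)) ≤ ENNReal.ofReal A) :
    ∃ x ∈ Ioo x1 x2, ∃ ℓ : ℝ → ℝ≥0∞, (∫⁻ r in Ioo 0 y, ℓ r) ≠ ⊤ ∧
      (∀ α β, 0 ≤ α → β ≤ y → ∀ s ∈ Ioo α β, ∀ s' ∈ Ioo α β,
        ‖F (x + s' * I) - F (x + s * I)‖ₑ ≤ ∫⁻ r in Ioo α β, ℓ r) ∧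
      ∀ s ∈ Ioo 0 y, ∀ s' ∈ Ioo 0 y,
        ‖F (x + s' * I) - F (x + s * I)‖ ^ 2 * (x2 - x1) ≤ y * A := by
  obtain ⟨x, hx', -, h⟩ := exists_vert (X := Ioo x1 x2) (Y := Ioo 0 y) (by simp [hx]) (by simp)
    (G := fun w => ‖deriv F w‖ₑ) (measurable_deriv F).enorm measure_empty
  rw [area_image (measurableSet_rect measurableSet_Ioo measurableSet_Ioo)
    (fun w hw => hd w hw.2.1) (hi.mono fun w hw => hw.2.1), Real.volume_Ioo, Real.volume_Ioo,
    sub_zero] at h
  have h' : (∫⁻ r in Ioo 0 y, ‖deriv F (x + r * I)‖ₑ) ^ 2 * ENNReal.ofReal (x2 - x1) ≤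
      ENNReal.ofReal (y * A) := by
    refine h.trans ?_
    rw [ENNReal.ofReal_mul hy.le]; gcongr
  have key : ∀ α β, 0 ≤ α → β ≤ y → ∀ s ∈ Ioo α β, ∀ s' ∈ Ioo α β,
      ‖F (x + s' * I) - F (x + s * I)‖ₑ ≤ ∫⁻ r in Ioo α β, ‖deriv F (x + r * I)‖ₑ := by
    intro α β hα _ s hs s' hs'
    refine path_le' (φ := fun r : ℝ => F (x + r * I))
      (φ' := fun r : ℝ => deriv F (x + r * I) * I) (fun r hr => ?_)
      (fun r _ => by simp [enorm_I']) hs hs'
    have h1 : HasDerivAt (fun ζ : ℂ => (x : ℂ) + ζ * I) I r := by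
      simpa using ((hasDerivAt_id (r : ℂ)).mul_const I).const_add (x : ℂ)
    exact ((hd _ (by simpa using hα.trans_lt hr.1)).hasDerivAt.comp (r : ℂ) h1).comp_ofReal
  refine ⟨x, hx', fun r => ‖deriv F (x + r * I)‖ₑ, fun e => ?_, key, fun s hs s' hs' =>
    sq_real_of (by positivity) (key 0 y le_rfl le_rfl s hs s' hs') h'⟩
  rw [e, ENNReal.top_pow two_ne_zero, ENNReal.top_mul (by simp [hx])] at h'
  exact absurd h' (by simp)

end Pool.Agent.MP_990230_pr.K8

end
end MrgPart0

-- ======== part 1: formerly Pool.Agent.MP_990230_pr.k8.Path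
section MrgPart1

/-! # SLE8 frame: the canonical path space, concatenation and the Wiener law -/

open Set MeasureTheory ProbabilityTheory Filter
open scoped ENNReal NNReal Topology

noncomputable section

namespace Pool.Agent.MP_990230_pr.K8

/-- continuous paths vanishing at times `≤ 0`. -/
abbrev Pth : Type := {u : ℝ → ℝ // Continuous u ∧ ∀ t, t ≤ 0 → u t = 0}

instance : Inhabited Pth := ⟨⟨fun _ => 0, continuous_const, fun _ _ => rfl⟩⟩

theorem Pth.cont (u : Pth) : Continuous u.1 := u.2.1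

theorem Pth.neg (u : Pth) {t : ℝ} (ht : t ≤ 0) : u.1 t = 0 := u.2.2 t ht

theorem Pth.zero (u : Pth) : u.1 0 = 0 := u.2.2 0 le_rfl

theorem Pth.ext {u v : Pth} (h : ∀ t, u.1 t = v.1 t) : u = v := Subtype.ext (funext h)

theorem measurable_ev (t : ℝ) : Measurable (fun u : Pth => u.1 t) :=
  (measurable_pi_apply t).comp measurable_subtype_coe

theorem measurable_toPth {α : Type*} {mα : MeasurableSpace α} {f : α → Pth}
    (h : ∀ t, Measurable (fun x => (f x).1 t)) : Measurable f :=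
  Measurable.subtype_mk (measurable_pi_lambda _ h)

/-- follow `u` up to time `t`, then the increments of `v`. -/
def cat (t : ℝ) (u v : Pth) : Pth :=
  ⟨fun s => u.1 (min s t) + v.1 (s - max t 0),
    (u.cont.comp (continuous_id.min continuous_const)).add
      (v.cont.comp (continuous_id.sub continuous_const)),
    fun s hs => by
      show u.1 (min s t) + v.1 (s - max t 0) = 0
      rw [u.neg ((min_le_left _ _).trans hs), v.neg (by linarith [le_max_right t 0]), add_zero]⟩

/-- the path stopped at time `t`. -/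
def stp (t : ℝ) (u : Pth) : Pth :=
  ⟨fun s => u.1 (min s t), u.cont.comp (continuous_id.min continuous_const),
    fun _ hs => u.neg ((min_le_left _ _).trans hs)⟩

/-- the increments after time `t`. -/
def sft (t : ℝ) (u : Pth) : Pth :=
  ⟨fun s => u.1 (t + max s 0) - u.1 t,
    (u.cont.comp (continuous_const.add (continuous_id.max continuous_const))).sub continuous_const,
    fun s hs => by
      show u.1 (t + max s 0) - u.1 t = 0
      rw [max_eq_right hs, add_zero, sub_self]⟩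

theorem cat_le {t s : ℝ} (u v : Pth) (hs : s ≤ t) : (cat t u v).1 s = u.1 s := by
  show u.1 (min s t) + v.1 (s - max t 0) = u.1 s
  rw [min_eq_left hs, v.neg (by linarith [le_max_left t 0]), add_zero]

theorem cat_ge {t s : ℝ} (u v : Pth) (ht : 0 ≤ t) (hs : t ≤ s) :
    (cat t u v).1 s = u.1 t + v.1 (s - t) := by
  show u.1 (min s t) + v.1 (s - max t 0) = _
  rw [min_eq_right hs, max_eq_left ht]

theorem cat_add {t s : ℝ} (u v : Pth) (ht : 0 ≤ t) (hs : 0 ≤ s) :
    (cat t u v).1 (t + s) = u.1 t + v.1 s := by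
  rw [cat_ge u v ht (by linarith), add_sub_cancel_left]

theorem stp_le {t s : ℝ} (u : Pth) (hs : s ≤ t) : (stp t u).1 s = u.1 s := by
  show u.1 (min s t) = _
  rw [min_eq_left hs]

theorem sft_apply {t s : ℝ} (u : Pth) (hs : 0 ≤ s) : (sft t u).1 s = u.1 (t + s) - u.1 t := by
  show u.1 (t + max s 0) - u.1 t = _
  rw [max_eq_left hs]

theorem cat_zero (u v : Pth) : cat 0 u v = v := by
  refine Pth.ext fun s => ?_
  show u.1 (min s 0) + v.1 (s - max 0 0) = _
  rw [u.neg (min_le_right _ _), max_self, sub_zero, zero_add]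

theorem cat_congr {t : ℝ} {u u' : Pth} (v : Pth) (h : ∀ s, s ≤ t → u.1 s = u'.1 s) :
    cat t u v = cat t u' v := by
  refine Pth.ext fun s => ?_
  show u.1 (min s t) + _ = u'.1 (min s t) + _
  rw [h _ (min_le_right _ _)]

theorem stp_congr {t : ℝ} {u u' : Pth} (h : ∀ s, s ≤ t → u.1 s = u'.1 s) :
    stp t u = stp t u' :=
  Pth.ext fun _ => h _ (min_le_right _ _)

theorem cat_stp (t : ℝ) (u v : Pth) : cat t (stp t u) v = cat t u v :=
  cat_congr v fun _ hs => stp_le u hs

theorem stp_cat {s t : ℝ} (u v : Pth) (hs : s ≤ t) : stp s (cat t u v) = stp s u :=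
  stp_congr fun _ hr => cat_le u v (hr.trans hs)

theorem cat_cat_le {s t : ℝ} (u v w : Pth) (hs : s ≤ t) : cat s (cat t u v) w = cat s u w :=
  cat_congr w fun _ hr => cat_le u v (hr.trans hs)

theorem cat_assoc {s t : ℝ} (u v w : Pth) (hs : 0 ≤ s) (ht : 0 ≤ t) :
    cat (s + t) (cat s u v) w = cat s u (cat t v w) := by
  refine Pth.ext fun r => ?_
  show (u.1 (min (min r (s + t)) s) + v.1 (min r (s + t) - max s 0)) + w.1 (r - max (s + t) 0) =
    u.1 (min r s) + (v.1 (min (r - max s 0) t) + w.1 (r - max s 0 - max t 0))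
  rw [max_eq_left hs, max_eq_left ht, max_eq_left (add_nonneg hs ht), min_assoc,
    min_eq_right (by linarith : s ≤ s + t), add_assoc]
  have e1 : min r (s + t) - s = min (r - s) t := by
    rcases le_total r (s + t) with h | h
    · rw [min_eq_left h, min_eq_left (by linarith)]
    · rw [min_eq_right h, min_eq_right (by linarith)]; ring
  rw [e1, show r - (s + t) = r - s - t by ring]

theorem cat_sft {t : ℝ} (u : Pth) (ht : 0 ≤ t) : cat t u (sft t u) = u := by
  refine Pth.ext fun s => ?_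
  rcases le_total s t with h | h
  · exact cat_le _ _ h
  · rw [cat_ge _ _ ht h, sft_apply _ (by linarith)]; simp

theorem sft_cat {t : ℝ} (u v : Pth) (ht : 0 ≤ t) : sft t (cat t u v) = v := by
  refine Pth.ext fun s => ?_
  rcases le_total s 0 with h | h
  · rw [(sft t (cat t u v)).neg h, v.neg h]
  · rw [sft_apply _ h, cat_add _ _ ht h, cat_le _ _ le_rfl]; ring

theorem measurable_cat (t : ℝ) : Measurable (fun p : Pth × Pth => cat t p.1 p.2) :=
  measurable_toPth fun _ =>
    ((measurable_ev _).comp measurable_fst).add ((measurable_ev _).comp measurable_snd)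

theorem measurable_cat_right (t : ℝ) (u : Pth) : Measurable (cat t u) :=
  (measurable_cat t).comp measurable_prodMk_left

theorem measurable_stp (t : ℝ) : Measurable (stp t) :=
  measurable_toPth fun _ => measurable_ev _

theorem measurable_sft (t : ℝ) : Measurable (sft t) :=
  measurable_toPth fun _ => (measurable_ev _).sub (measurable_ev _)

/-- the canonical filtration. -/
def Fc : Filtration ℝ (inferInstance : MeasurableSpace Pth) where
  seq t := MeasurableSpace.comap (stp t) inferInstance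
  mono' s t hst := by
    have e : stp s = stp s ∘ stp t := by
      funext u
      exact (stp_congr fun r hr => stp_le u (hr.trans hst)).symm
    show MeasurableSpace.comap _ _ ≤ MeasurableSpace.comap _ _
    rw [e, ← MeasurableSpace.comap_comp]
    exact MeasurableSpace.comap_mono (measurable_stp s).comap_le
  le' t := (measurable_stp t).comap_le

theorem Fc_apply (t : ℝ) : Fc t = MeasurableSpace.comap (stp t) inferInstance := rfl

/-- a measurable function of the path stopped at `t` is `Fc t`-measurable. -/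
theorem measurable_Fc {β : Type*} [MeasurableSpace β] {t : ℝ} {f : Pth → β} (hf : Measurable f)
    (h : ∀ u, f (stp t u) = f u) : Measurable[Fc t] f := by
  have e : f = f ∘ stp t := funext fun u => (h u).symm
  rw [e]
  exact hf.comp (comap_measurable _)

/-- `μ` is the Wiener measure on `Pth`. -/
structure IsW (μ : Measure Pth) : Prop where
  bm : BMSetup μ (fun u => u.1) Fc
  law : ∀ t, 0 ≤ t → (μ.prod μ).map (fun p : Pth × Pth => cat t p.1 p.2) = μ
  pre : IsPreBrownianReal (fun (t : ℝ≥0) (u : Pth) => u.1 t) μ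

theorem IsW.prob {μ : Measure Pth} (h : IsW μ) : IsProbabilityMeasure μ := h.bm.prob

/-- the Markov property at a fixed time. -/
theorem IsW.lintegral_cat {μ : Measure Pth} (h : IsW μ) {t : ℝ} (ht : 0 ≤ t) {F : Pth → ℝ≥0∞}
    (hF : Measurable F) : ∫⁻ u, ∫⁻ v, F (cat t u v) ∂μ ∂μ = ∫⁻ w, F w ∂μ := by
  have := h.prob
  conv_rhs => rw [← h.law t ht]
  rw [lintegral_map hF (measurable_cat t), lintegral_prod]
  exact (hF.comp (measurable_cat t)).aemeasurable

theorem IsW.ae_cat {μ : Measure Pth} (h : IsW μ) {t : ℝ} (ht : 0 ≤ t) {p : Pth → Prop}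
    (hp : ∀ᵐ w ∂μ, p w) : ∀ᵐ u ∂μ, ∀ᵐ v ∂μ, p (cat t u v) := by
  have := h.prob
  rw [← h.law t ht] at hp
  exact Measure.ae_ae_of_ae_prod (ae_of_ae_map (measurable_cat t).aemeasurable hp)

namespace PathM

/-- the coordinates at nonnegative times. -/
def co (u : Pth) : ℝ≥0 → ℝ := fun t => u.1 t

theorem measurable_co : Measurable co := measurable_pi_lambda _ fun _ => measurable_ev _

theorem ev_eq (u : Pth) (s : ℝ) : u.1 s = co u s.toNNReal := by
  rcases le_total s 0 with h | h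
  · rw [u.neg h, Real.toNNReal_of_nonpos h]; exact u.zero.symm
  · show _ = u.1 _
    rw [Real.coe_toNNReal _ h]

theorem comap_co : MeasurableSpace.comap co inferInstance = (inferInstance : MeasurableSpace Pth) := by
  refine le_antisymm measurable_co.comap_le ?_
  have : Measurable[MeasurableSpace.comap co inferInstance] (fun u : Pth => u) := by
    refine measurable_toPth (mα := MeasurableSpace.comap co inferInstance) fun s => ?_
    have e : (fun u : Pth => u.1 s) = (fun x : ℝ≥0 → ℝ => x s.toNNReal) ∘ co :=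
      funext fun u => ev_eq u s
    rw [e]
    exact (measurable_pi_apply _).comp (comap_measurable _)
  intro S hS
  exact this hS

theorem unique {μ ν : Measure Pth} (hμ : IsPreBrownianReal (fun t u => co u t) μ)
    (hν : IsPreBrownianReal (fun t u => co u t) ν) : μ = ν := by
  have p1 : ∀ {m : Measure Pth}, IsPreBrownianReal (fun t u => co u t) m →
      IsProjectiveLimit (m.map co) BrownianReal.projectiveFamily := by
    intro m hm I
    rw [Measure.map_map (Finset.measurable_restrict I) measurable_co]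
    exact (hm.hasLaw I).map_eq
  have e : μ.map co = ν.map co := (p1 hμ).unique (p1 hν)
  ext S hS
  have hS' : MeasurableSet[MeasurableSpace.comap co inferInstance] S := comap_co.ge S hS
  obtain ⟨T, hT, rfl⟩ := hS'
  rw [← Measure.map_apply measurable_co hT, ← Measure.map_apply measurable_co hT, e]

theorem pre_map {Ω : Type*} [MeasurableSpace Ω] {P : Measure Ω} {X : Ω → Pth} (hX : Measurable X)
    (h : IsPreBrownianReal (fun t ω => co (X ω) t) P) :
    IsPreBrownianReal (fun t u => co u t) (P.map X) := by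
  refine ⟨fun I => ⟨?_, ?_⟩⟩
  · exact ((Finset.measurable_restrict I).comp measurable_co).aemeasurable
  · rw [Measure.map_map _ hX]
    · exact (h.hasLaw I).map_eq
    · exact (Finset.measurable_restrict I).comp measurable_co

theorem isW_of {μ : Measure Pth} (h : IsPreBrownianReal (fun t u => co u t) μ) : IsW μ := by
  have hp : IsProbabilityMeasure μ := h.isGaussianProcess.isProbabilityMeasure
  have hs : ∀ t, 0 ≤ t → μ.map (sft t) = μ := by
    intro t ht
    refine unique (pre_map (measurable_sft t) ?_) h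
    have e : (fun (s : ℝ≥0) (u : Pth) => co (sft t u) s) =
        fun s u => co u (t.toNNReal + s) - co u t.toNNReal := by
      funext s u
      show (sft t u).1 s = u.1 _ - u.1 _
      rw [sft_apply _ (NNReal.coe_nonneg s), NNReal.coe_add, Real.coe_toNNReal _ ht]
    rw [e]
    exact h.shift t.toNNReal
  have hi : ∀ t, 0 ≤ t → IndepFun (stp t) (sft t) μ := by
    intro t ht
    have h1 := (IndepFun_iff_Indep _ _ _).1 (h.indepFun_shift t.toNNReal).symm
    rw [IndepFun_iff_Indep]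
    refine indep_of_indep_of_le_right (indep_of_indep_of_le_left h1 ?_) ?_
    · refine Measurable.comap_le (measurable_toPth fun s => ?_)
      have e : (fun u : Pth => (stp t u).1 s) =
          (fun x : Set.Iic t.toNNReal → ℝ =>
            x ⟨(min s t).toNNReal, Real.toNNReal_le_toNNReal (min_le_right _ _)⟩) ∘
          (fun u (r : Set.Iic t.toNNReal) => co u r) := by
        funext u
        exact ev_eq u _
      rw [e]
      exact (measurable_pi_apply _).comp (comap_measurable _)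
    · refine Measurable.comap_le (measurable_toPth fun s => ?_)
      have e : (fun u : Pth => (sft t u).1 s) = (fun x : ℝ≥0 → ℝ => x s.toNNReal) ∘
          (fun u r => co u (t.toNNReal + r) - co u t.toNNReal) := by
        funext u
        show u.1 _ - u.1 _ = u.1 _ - u.1 _
        rw [NNReal.coe_add, Real.coe_toNNReal _ ht, Real.coe_toNNReal']
      rw [e]
      exact (measurable_pi_apply _).comp (comap_measurable _)
  refine ⟨⟨hp, fun u => u.cont, fun u => u.zero, fun t => ?_, fun s t hs0 hst => ?_,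
    fun s t hs0 hst => ?_⟩, fun t ht => ?_, h⟩
  · exact measurable_Fc (measurable_ev t) fun u => stp_le u le_rfl
  · have h1 := (hi s hs0).comp measurable_id (measurable_ev (t - s))
    have e : ((fun u : Pth => u.1 (t - s)) ∘ sft s) = fun u => u.1 t - u.1 s := by
      funext u
      simp only [Function.comp_apply]
      rw [sft_apply _ (by linarith), add_sub_cancel]
    rw [e] at h1
    exact (IndepFun_iff_Indep _ _ _).1 h1
  · have h1 := (h.hasLaw_sub t.toNNReal s.toNNReal).map_eq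
    have e : (fun u : Pth => u.1 t - u.1 s) =
        ((fun u => co u t.toNNReal) - fun u => co u s.toNNReal) := by
      funext u
      rw [ev_eq u t, ev_eq u s]; rfl
    rw [e]
    refine Eq.trans h1 ?_
    congr 1
    apply NNReal.eq
    rw [Real.coe_toNNReal _ (sub_nonneg.2 hst), coe_nndist, Real.dist_eq]
    show |((t.toNNReal : ℝ≥0) : ℝ) - ((s.toNNReal : ℝ≥0) : ℝ)| = t - s
    rw [Real.coe_toNNReal _ hs0, Real.coe_toNNReal _ (hs0.trans hst),
      abs_of_nonneg (sub_nonneg.2 hst)]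
  · have h1 := (indepFun_iff_map_prod_eq_prod_map_map (measurable_stp t).aemeasurable
      (measurable_sft t).aemeasurable).1 (hi t ht)
    rw [hs t ht] at h1
    have e1 : (fun p : Pth × Pth => cat t p.1 p.2) =
        (fun p : Pth × Pth => cat t p.1 p.2) ∘ Prod.map (stp t) id := by
      funext p
      exact (cat_stp t p.1 p.2).symm
    rw [e1, ← Measure.map_map (measurable_cat t) ((measurable_stp t).prodMap measurable_id),
      ← Measure.map_prod_map _ _ (measurable_stp t) measurable_id, Measure.map_id, ← h1,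
      Measure.map_map (measurable_cat t) ((measurable_stp t).prodMk (measurable_sft t))]
    have e2 : ((fun p : Pth × Pth => cat t p.1 p.2) ∘ fun u => (stp t u, sft t u)) = id := by
      funext u
      simp only [Function.comp_apply, id]
      rw [cat_stp, cat_sft u ht]
    rw [e2, Measure.map_id]

end PathM

/-- the mirror path. -/
def ng (u : Pth) : Pth := ⟨fun t => -u.1 t, u.cont.neg, fun t ht => by
  show -u.1 t = 0
  rw [u.neg ht, neg_zero]⟩

theorem ng_val (u : Pth) : (ng u).1 = fun t => -u.1 t := rfl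

theorem ng_ng (u : Pth) : ng (ng u) = u := Pth.ext fun _ => neg_neg _

theorem ng_cat (t : ℝ) (u v : Pth) : ng (cat t u v) = cat t (ng u) (ng v) :=
  Pth.ext fun _ => neg_add _ _

theorem measurable_ng : Measurable ng := measurable_toPth fun t => (measurable_ev t).neg

theorem IsW.map_ng {μ : Measure Pth} (h : IsW μ) : μ.map ng = μ :=
  PathM.unique (PathM.pre_map measurable_ng h.pre.neg) h.pre

/-- mirror symmetry, for arbitrary sets. -/
theorem IsW.measure_ng {μ : Measure Pth} (h : IsW μ) (E : Set Pth) : μ (ng ⁻¹' E) = μ E := by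
  let e : Pth ≃ᵐ Pth := ⟨⟨ng, ng, ng_ng, ng_ng⟩, measurable_ng, measurable_ng⟩
  have := MeasurableEquiv.map_apply (μ := μ) e E
  rwa [show μ.map e = μ from h.map_ng, eq_comm] at this

/-- every Brownian motion induces the Wiener measure on `Pth`. -/
theorem exists_isW {Ω : Type*} [MeasurableSpace Ω] {P : Measure Ω} {B : ℝ≥0 → Ω → ℝ}
    (hB : IsBrownianReal B P) :
    ∃ X : Ω → Pth, Measurable X ∧ IsW (P.map X) ∧
      ∀ᵐ ω ∂P, (X ω).1 = fun t => B t.toNNReal ω := by
  obtain ⟨C, mC, cC, zC, eC⟩ := BMm.exists_version hB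
  have pC : IsPreBrownianReal C P :=
    hB.toIsPreBrownianReal.congr fun t => by
      filter_upwards [eC] with ω h using (h t).symm
  let X : Ω → Pth := fun ω => ⟨fun t => C t.toNNReal ω, (cC ω).comp continuous_real_toNNReal,
    fun t ht => by
      show C t.toNNReal ω = 0
      rw [Real.toNNReal_of_nonpos ht, zC]⟩
  have hX : Measurable X := measurable_toPth fun t => mC _
  refine ⟨X, hX, PathM.isW_of (PathM.pre_map hX ?_), ?_⟩
  · have e : (fun (t : ℝ≥0) ω => PathM.co (X ω) t) = C := by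
      funext t ω
      show C (Real.toNNReal t) ω = _
      rw [Real.toNNReal_coe]
    rw [e]; exact pC
  · filter_upwards [eC] with ω h
    funext t
    exact h _

end Pool.Agent.MP_990230_pr.K8

end
end MrgPart1

-- ======== part 2: formerly Pool.Agent.MP_990230_pr.k8.Game
section MrgPart2

/-! # SLE8 frame: the canonical value of a grid game

At the grid index `k` (time `k h`) the future is resampled. If the path is in the activity set
`A k` the value is the average over a fresh Brownian future, otherwise it is the essential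
supremum (an adversary plays). -/

open Set MeasureTheory ProbabilityTheory Filter
open scoped ENNReal NNReal Topology

noncomputable section

namespace Pool.Agent.MP_990230_pr.K8

open Classical in
/-- the value with `n` steps left at the index `k`. -/
def V (μ : Measure Pth) (h : ℝ) (A : ℕ → Set Pth) (X : Pth → ℝ≥0∞) : ℕ → ℕ → Pth → ℝ≥0∞
  | 0, _, u => X u
  | n + 1, k, u => if u ∈ A k then ∫⁻ v, V μ h A X n (k + 1) (cat (k * h) u v) ∂μ
      else essSup (fun v => V μ h A X n (k + 1) (cat (k * h) u v)) μ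

/-- the value at the index `k` of the game with horizon `N`. -/
def val (μ : Measure Pth) (h : ℝ) (N : ℕ) (A : ℕ → Set Pth) (X : Pth → ℝ≥0∞) (k : ℕ) (u : Pth) :
    ℝ≥0∞ := V μ h A X (N - k) k u

/-- the sets `A k` are measurable and depend only on the path up to time `k h`. -/
structure Adp (h : ℝ) (A : ℕ → Set Pth) : Prop where
  meas : ∀ k, MeasurableSet (A k)
  past : ∀ (k : ℕ) (u v : Pth), cat (k * h) u v ∈ A k ↔ u ∈ A k

theorem Adp.union {h : ℝ} {A B : ℕ → Set Pth} (hA : Adp h A) (hB : Adp h B) :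
    Adp h (fun k => A k ∪ B k) :=
  ⟨fun k => (hA.meas k).union (hB.meas k), fun k u v => by
    simp only [mem_union, hA.past, hB.past]⟩

theorem Adp.inter {h : ℝ} {A B : ℕ → Set Pth} (hA : Adp h A) (hB : Adp h B) :
    Adp h (fun k => A k ∩ B k) :=
  ⟨fun k => (hA.meas k).inter (hB.meas k), fun k u v => by
    simp only [mem_inter_iff, hA.past, hB.past]⟩

theorem Adp.compl {h : ℝ} {A : ℕ → Set Pth} (hA : Adp h A) : Adp h (fun k => (A k)ᶜ) :=
  ⟨fun k => (hA.meas k).compl, fun k u v => by simp only [mem_compl_iff, hA.past]⟩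

theorem measurable_essSup_right {α β : Type*} [MeasurableSpace α] [MeasurableSpace β]
    (ν : Measure β) [SFinite ν] {F : α × β → ℝ≥0∞} (hF : Measurable F) :
    Measurable (fun x => essSup (fun y => F (x, y)) ν) := by
  refine measurable_of_Iic fun c => ?_
  have e : (fun x => essSup (fun y => F (x, y)) ν) ⁻¹' Iic c =
      (fun x => ν (Prod.mk x ⁻¹' {p | c < F p})) ⁻¹' {0} := by
    ext x
    simp only [mem_preimage, mem_Iic, mem_singleton_iff]
    constructor
    · intro hx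
      have : ∀ᵐ y ∂ν, F (x, y) ≤ c :=
        (ENNReal.ae_le_essSup (μ := ν) fun y => F (x, y)).mono fun y hy => hy.trans hx
      rw [ae_iff] at this
      simpa using this
    · intro hx
      refine essSup_le_of_ae_le c ?_
      show ∀ᵐ y ∂ν, F (x, y) ≤ c
      rw [ae_iff]
      simpa using hx
  rw [e]
  exact measurable_measure_prodMk_left (measurableSet_lt measurable_const hF)
    (measurableSet_singleton _)

variable {μ : Measure Pth} {h : ℝ} {A B : ℕ → Set Pth} {X Y : Pth → ℝ≥0∞}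

theorem V_zero (k : ℕ) (u : Pth) : V μ h A X 0 k u = X u := rfl

theorem V_act {n k : ℕ} {u : Pth} (hu : u ∈ A k) :
    V μ h A X (n + 1) k u = ∫⁻ v, V μ h A X n (k + 1) (cat (k * h) u v) ∂μ := by
  simp only [V, if_pos hu]

theorem V_adv {n k : ℕ} {u : Pth} (hu : u ∉ A k) :
    V μ h A X (n + 1) k u = essSup (fun v => V μ h A X n (k + 1) (cat (k * h) u v)) μ := by
  simp only [V, if_neg hu]

theorem measurable_V (hμ : IsW μ) (hA : ∀ k, MeasurableSet (A k)) (hX : Measurable X) (n : ℕ) :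
    ∀ k, Measurable (V μ h A X n k) := by
  have := hμ.prob
  induction n with
  | zero => exact fun _ => hX
  | succ n ih =>
    intro k
    have m : Measurable (fun p : Pth × Pth => V μ h A X n (k + 1) (cat (k * h) p.1 p.2)) :=
      (ih (k + 1)).comp (measurable_cat _)
    classical
    have e : V μ h A X (n + 1) k = (A k).piecewise
        (fun u => ∫⁻ v, V μ h A X n (k + 1) (cat (k * h) u v) ∂μ)
        (fun u => essSup (fun v => V μ h A X n (k + 1) (cat (k * h) u v)) μ) := by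
      funext u
      by_cases hu : u ∈ A k
      · rw [V_act hu, piecewise_eq_of_mem _ _ _ hu]
      · rw [V_adv hu, piecewise_eq_of_notMem _ _ _ hu]
    rw [e]
    have m1 : Measurable (fun u => ∫⁻ v, V μ h A X n (k + 1) (cat (k * h) u v) ∂μ) :=
      Measurable.lintegral_prod_right' (ν := μ) m
    have m2 : Measurable
        (fun u => essSup (fun v => V μ h A X n (k + 1) (cat (k * h) u v)) μ) :=
      measurable_essSup_right μ
        (F := fun p : Pth × Pth => V μ h A X n (k + 1) (cat (k * h) p.1 p.2)) m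
    exact Measurable.piecewise (hA k) m1 m2

theorem measurable_V_cat (hμ : IsW μ) (hA : ∀ k, MeasurableSet (A k)) (hX : Measurable X)
    (n k : ℕ) (t : ℝ) (u : Pth) : Measurable (fun v => V μ h A X n k (cat t u v)) :=
  (measurable_V hμ hA hX n k).comp (measurable_cat_right t u)

theorem lintegral_le_essSup (hμ : IsW μ) (F : Pth → ℝ≥0∞) : ∫⁻ v, F v ∂μ ≤ essSup F μ := by
  have := hμ.prob
  calc ∫⁻ v, F v ∂μ ≤ ∫⁻ _, essSup F μ ∂μ := lintegral_mono_ae (ENNReal.ae_le_essSup F)
    _ = essSup F μ := by simp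

/-- one step is at most the essential supremum. -/
theorem V_succ_le (hμ : IsW μ) {n k : ℕ} {u : Pth} {c : ℝ≥0∞}
    (hc : ∀ᵐ v ∂μ, V μ h A X n (k + 1) (cat (k * h) u v) ≤ c) : V μ h A X (n + 1) k u ≤ c := by
  have h1 : essSup (fun v => V μ h A X n (k + 1) (cat (k * h) u v)) μ ≤ c :=
    essSup_le_of_ae_le c hc
  by_cases hu : u ∈ A k
  · rw [V_act hu]; exact (lintegral_le_essSup hμ _).trans h1
  · rw [V_adv hu]; exact h1

theorem cat_succ (hh : 0 ≤ h) (k : ℕ) (u v w : Pth) :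
    cat ((k + 1 : ℕ) * h) (cat (k * h) u v) w = cat (k * h) u (cat h v w) := by
  rw [← cat_assoc u v w (by positivity) hh]
  congr 1
  push_cast; ring

theorem cat_grid (hh : 0 ≤ h) {k j : ℕ} (hkj : k ≤ j) (u v w : Pth) :
    cat (j * h) (cat (k * h) u v) w = cat (k * h) u (cat ((j - k : ℕ) * h) v w) := by
  rw [← cat_assoc u v w (by positivity) (by positivity)]
  congr 1
  rw [Nat.cast_sub hkj]; ring

/-- monotonicity in the payoff and in the activity, only along the continuations of `u`. -/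
theorem V_mono_loc (hμ : IsW μ) (hh : 0 ≤ h) (n : ℕ) : ∀ (k : ℕ) (u : Pth),
    (∀ v, X (cat (k * h) u v) ≤ Y (cat (k * h) u v)) →
    (∀ j v, k ≤ j → cat (k * h) u v ∈ B j → cat (k * h) u v ∈ A j) →
    V μ h A X n k u ≤ V μ h B Y n k u := by
  induction n with
  | zero =>
    intro k u hXY _
    have := hXY (sft (k * h) u)
    rwa [cat_sft u (by positivity)] at this
  | succ n ih =>
    intro k u hXY hBA
    have step : ∀ v, V μ h A X n (k + 1) (cat (k * h) u v) ≤
        V μ h B Y n (k + 1) (cat (k * h) u v) := by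
      intro v
      refine ih (k + 1) _ (fun w => ?_) (fun j w hj => ?_)
      · rw [cat_succ hh]; exact hXY _
      · rw [cat_succ hh]; exact hBA j _ (by omega)
    have hu : u ∈ B k → u ∈ A k := by
      have := hBA k (sft (k * h) u) le_rfl
      rwa [cat_sft u (by positivity)] at this
    by_cases hB : u ∈ B k
    · rw [V_act hB, V_act (hu hB)]; exact lintegral_mono step
    · rw [V_adv hB]
      by_cases hA : u ∈ A k
      · rw [V_act hA]; exact (lintegral_mono step).trans (lintegral_le_essSup hμ _)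
      · rw [V_adv hA]; exact essSup_mono_ae (ae_of_all _ step)

theorem V_mono (hμ : IsW μ) (hh : 0 ≤ h) (hXY : ∀ u, X u ≤ Y u) (hBA : ∀ k, B k ⊆ A k)
    (n k : ℕ) (u : Pth) : V μ h A X n k u ≤ V μ h B Y n k u :=
  V_mono_loc hμ hh n k u (fun _ => hXY _) (fun j _ _ hj => hBA j hj)

theorem V_const (hμ : IsW μ) (c : ℝ≥0∞) (n : ℕ) : ∀ (k : ℕ) (u : Pth),
    V μ h A (fun _ => c) n k u = c := by
  have := hμ.prob
  induction n with
  | zero => exact fun _ _ => rfl
  | succ n ih =>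
    intro k u
    by_cases hu : u ∈ A k
    · rw [V_act hu]; simp [ih]
    · rw [V_adv hu]; simp only [ih]; exact essSup_const' c

/-- if the payoff is at most `c` on all continuations of `u`, so is the value. -/
theorem V_le_const (hμ : IsW μ) (hh : 0 ≤ h) {n k : ℕ} {u : Pth} {c : ℝ≥0∞}
    (hc : ∀ v, X (cat (k * h) u v) ≤ c) : V μ h A X n k u ≤ c :=
  (V_mono_loc (Y := fun _ => c) hμ hh n k u hc (fun _ _ _ hj => hj)).trans (V_const hμ c n k u).le

theorem V_add (hμ : IsW μ) (hA : ∀ k, MeasurableSet (A k)) (hX : Measurable X) (n : ℕ) :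
    ∀ (k : ℕ) (u : Pth),
      V μ h A (fun w => X w + Y w) n k u ≤ V μ h A X n k u + V μ h A Y n k u := by
  induction n with
  | zero => exact fun _ _ => le_rfl
  | succ n ih =>
    intro k u
    by_cases hu : u ∈ A k
    · rw [V_act hu, V_act hu, V_act hu, ← lintegral_add_left
        (measurable_V_cat hμ hA hX n (k + 1) _ u)]
      exact lintegral_mono fun v => ih _ _
    · rw [V_adv hu, V_adv hu, V_adv hu]
      exact (essSup_mono_ae (ae_of_all _ fun v => ih _ _)).trans (ENNReal.essSup_add_le _ _)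

theorem V_const_mul (hμ : IsW μ) (hA : ∀ k, MeasurableSet (A k)) (hX : Measurable X) (c : ℝ≥0∞)
    (n : ℕ) : ∀ (k : ℕ) (u : Pth), V μ h A (fun w => c * X w) n k u = c * V μ h A X n k u := by
  induction n with
  | zero => exact fun _ _ => rfl
  | succ n ih =>
    intro k u
    by_cases hu : u ∈ A k
    · rw [V_act hu, V_act hu, ← lintegral_const_mul _
        (measurable_V_cat hμ hA hX n (k + 1) _ u)]
      simp only [ih]
    · rw [V_adv hu, V_adv hu, ← ENNReal.essSup_const_mul]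
      simp only [ih]

/-- the product rule for disjoint activities. -/
theorem V_mul (hμ : IsW μ) (hA : ∀ k, MeasurableSet (A k)) (hB : ∀ k, MeasurableSet (B k))
    (hX : Measurable X) (hY : Measurable Y) (hd : ∀ k, Disjoint (A k) (B k)) (n : ℕ) :
    ∀ (k : ℕ) (u : Pth), V μ h (fun k => A k ∪ B k) (fun w => X w * Y w) n k u ≤
      V μ h A X n k u * V μ h B Y n k u := by
  induction n with
  | zero => exact fun _ _ => le_rfl
  | succ n ih =>
    intro k u
    have mX := measurable_V_cat (h := h) hμ hA hX n (k + 1) (k * h) u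
    have mY := measurable_V_cat (h := h) hμ hB hY n (k + 1) (k * h) u
    by_cases ha : u ∈ A k
    · have hb : u ∉ B k := Set.disjoint_left.1 (hd k) ha
      rw [V_act (A := fun k => A k ∪ B k) (Or.inl ha), V_act ha, V_adv hb,
        ← lintegral_mul_const _ mX]
      refine lintegral_mono_ae ?_
      filter_upwards [ENNReal.ae_le_essSup (μ := μ)
        (fun v => V μ h B Y n (k + 1) (cat (k * h) u v))] with v hv
      exact (ih _ _).trans (mul_le_mul_right hv _)
    · by_cases hb : u ∈ B k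
      · rw [V_act (A := fun k => A k ∪ B k) (Or.inr hb), V_act hb, V_adv ha,
          ← lintegral_const_mul _ mY]
        refine lintegral_mono_ae ?_
        filter_upwards [ENNReal.ae_le_essSup (μ := μ)
          (fun v => V μ h A X n (k + 1) (cat (k * h) u v))] with v hv
        exact (ih _ _).trans (mul_le_mul_left hv _)
      · rw [V_adv (A := fun k => A k ∪ B k) (fun hu => hu.elim ha hb), V_adv ha, V_adv hb]
        exact (essSup_mono_ae (ae_of_all _ fun v => ih _ _)).trans (ENNReal.essSup_mul_le _ _)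

theorem V_sum (hμ : IsW μ) (hA : ∀ k, MeasurableSet (A k)) {ι : Type*} (s : Finset ι)
    {Z : ι → Pth → ℝ≥0∞} (hZ : ∀ i, Measurable (Z i)) (n k : ℕ) (u : Pth) :
    V μ h A (fun w => ∑ i ∈ s, Z i w) n k u ≤ ∑ i ∈ s, V μ h A (Z i) n k u := by
  classical
  induction s using Finset.induction_on with
  | empty => simp [V_const hμ]
  | insert i s hi ih =>
    simp only [Finset.sum_insert hi]
    exact (V_add hμ hA (hZ i) n k u).trans (add_le_add le_rfl ih)

theorem V_prod (hμ : IsW μ) {ι : Type*} (s : Finset ι) {C : ι → ℕ → Set Pth}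
    (hC : ∀ i k, MeasurableSet (C i k)) {Z : ι → Pth → ℝ≥0∞} (hZ : ∀ i, Measurable (Z i))
    (hd : ∀ i ∈ s, ∀ j ∈ s, i ≠ j → ∀ k, Disjoint (C i k) (C j k)) (n k : ℕ) (u : Pth) :
    V μ h (fun k => ⋃ i ∈ s, C i k) (fun w => ∏ i ∈ s, Z i w) n k u ≤
      ∏ i ∈ s, V μ h (C i) (Z i) n k u := by
  classical
  induction s using Finset.induction_on with
  | empty => simp [V_const hμ]
  | insert i s hi ih =>
    simp only [Finset.prod_insert hi, Finset.set_biUnion_insert]
    have h1 := V_mul (h := h) (A := C i) (B := fun k => ⋃ j ∈ s, C j k) (X := Z i)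
      (Y := fun w => ∏ j ∈ s, Z j w) hμ (hC i)
      (fun k => Finset.measurableSet_biUnion _ fun j _ => hC j k) (hZ i)
      (Finset.measurable_prod _ fun j _ => hZ j) (fun k => ?_) n k u
    · refine h1.trans (mul_le_mul_right (ih fun a ha b hb => ?_) _)
      exact hd a (Finset.mem_insert_of_mem ha) b (Finset.mem_insert_of_mem hb)
    · simp only [disjoint_iUnion_right]
      intro j hj
      exact hd i (Finset.mem_insert_self _ _) j (Finset.mem_insert_of_mem hj)
        (fun e => hi (e ▸ hj)) k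

/-- with at least one step left the value depends only on the past. -/
theorem V_past (hA : Adp h A) (n k : ℕ) (u v : Pth) :
    V μ h A X (n + 1) k (cat (k * h) u v) = V μ h A X (n + 1) k u := by
  by_cases hu : u ∈ A k
  · rw [V_act hu, V_act ((hA.past k u v).2 hu)]
    simp only [cat_cat_le _ _ _ le_rfl]
  · rw [V_adv hu, V_adv (fun hc => hu ((hA.past k u v).1 hc))]
    simp only [cat_cat_le _ _ _ le_rfl]

/-- the plain expectation is at most the value. -/
theorem lintegral_le_V (hμ : IsW μ) (hh : 0 ≤ h) (hX : Measurable X) (n : ℕ) :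
    ∀ (k : ℕ) (u : Pth), ∫⁻ v, X (cat (k * h) u v) ∂μ ≤ V μ h A X (n + 1) k u := by
  have key : ∀ (n k : ℕ) (u : Pth),
      V μ h (fun _ => univ) X (n + 1) k u = ∫⁻ v, X (cat (k * h) u v) ∂μ := by
    intro n
    induction n with
    | zero => intro k u; rw [V_act (mem_univ _)]; rfl
    | succ n ih =>
      intro k u
      rw [V_act (mem_univ _)]
      simp only [ih, cat_succ hh]
      exact hμ.lintegral_cat hh (F := fun w => X (cat (k * h) u w))
        (hX.comp (measurable_cat_right _ u))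
  intro k u
  rw [← key n k u]
  exact V_mono hμ hh (fun _ => le_rfl) (fun _ => subset_univ _) _ _ _

/-- EPISODE: the play is active until the first index `j > k` with the path in `S j`
(or until the horizon); `Φ` is any bound for the value at that index. The sets `S j` depend only
on the past but need not be measurable. -/
theorem V_episode (hμ : IsW μ) (hh : 0 ≤ h) (hA : Adp h A) {S : ℕ → Set Pth}
    (hS : ∀ (j : ℕ) (u v : Pth), cat (j * h) u v ∈ S j ↔ u ∈ S j) (n : ℕ) :
    ∀ (k : ℕ) (u : Pth) (Φ : Pth → ℝ≥0∞), Measurable Φ → u ∈ A k →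
      (∀ v j, k < j → j < k + (n + 1) → (∀ i, k < i → i ≤ j → cat (k * h) u v ∉ S i) →
        cat (k * h) u v ∈ A j) →
      (∀ v j, k < j → j ≤ k + (n + 1) → (∀ i, k < i → i < j → cat (k * h) u v ∉ S i) →
        (cat (k * h) u v ∈ S j ∨ j = k + (n + 1)) →
        V μ h A X (k + (n + 1) - j) j (cat (k * h) u v) ≤ Φ v) →
      V μ h A X (n + 1) k u ≤ ∫⁻ v, Φ v ∂μ := by
  have := hμ.prob
  induction n with
  | zero =>
    intro k u Φ _ hu _ hΦ
    rw [V_act hu]
    refine lintegral_mono fun v => ?_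
    have := hΦ v (k + 1) (by omega) (by omega) (fun i h1 h2 => by omega) (Or.inr rfl)
    simpa using this
  | succ n ih =>
    intro k u Φ mΦ hu hSA hΦ
    rw [V_act hu, ← hμ.lintegral_cat hh mΦ]
    refine lintegral_mono fun v => ?_
    by_cases hs : cat (k * h) u v ∈ S (k + 1)
    · have h1 : ∀ w, V μ h A X (n + 1) (k + 1) (cat (k * h) u v) ≤ Φ (cat h v w) := by
        intro w
        have h2 := hΦ (cat h v w) (k + 1) (by omega) (by omega) (fun i h1 h2 => by omega)
          (Or.inl (by rw [← cat_succ hh]; exact (hS _ _ _).2 hs))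
        rw [← cat_succ hh, show k + (n + 1 + 1) - (k + 1) = n + 1 by omega, V_past hA] at h2
        exact h2
      calc _ = ∫⁻ _, V μ h A X (n + 1) (k + 1) (cat (k * h) u v) ∂μ := by simp
        _ ≤ _ := lintegral_mono h1
    · have h0 : ∀ w, cat (k * h) u (cat h v w) ∉ S (k + 1) := fun w => by
        rw [← cat_succ hh]
        exact fun hc => hs ((hS _ _ _).1 hc)
      refine ih (k + 1) (cat (k * h) u v) (fun w => Φ (cat h v w))
        (mΦ.comp (measurable_cat_right _ v)) (hSA v (k + 1) (by omega) (by omega) fun i a b => ?_)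
        (fun w j h1 h2 h3 => ?_) fun w j h1 h2 h3 h4 => ?_
      · obtain rfl : i = k + 1 := by omega
        exact hs
      · rw [cat_succ hh] at h3 ⊢
        refine hSA _ j (by omega) (by omega) fun i a b => ?_
        rcases Nat.lt_or_ge (k + 1) i with c | c
        · exact h3 i c b
        · obtain rfl : i = k + 1 := by omega
          exact h0 w
      · rw [cat_succ hh] at h3 h4 ⊢
        have h5 := hΦ (cat h v w) j (by omega) (by omega) (fun i a b => ?_)
          (h4.imp id fun e => by omega)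
        · rwa [show k + (n + 1 + 1) - j = k + 1 + (n + 1) - j by omega] at h5
        · rcases Nat.lt_or_ge (k + 1) i with c | c
          · exact h3 i c b
          · obtain rfl : i = k + 1 := by omega
            exact h0 w

/-! ## the same for `val` -/

variable {N : ℕ}

theorem val_end {k : ℕ} (hk : N ≤ k) (u : Pth) : val μ h N A X k u = X u := by
  rw [val, Nat.sub_eq_zero_of_le hk]; rfl

theorem measurable_val (hμ : IsW μ) (hA : Adp h A) (hX : Measurable X) (k : ℕ) :
    Measurable (val μ h N A X k) := measurable_V hμ hA.meas hX _ _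

theorem val_succ_le (hμ : IsW μ) {k : ℕ} (hk : k < N) {u : Pth} {c : ℝ≥0∞}
    (hc : ∀ᵐ v ∂μ, val μ h N A X (k + 1) (cat (k * h) u v) ≤ c) : val μ h N A X k u ≤ c := by
  rw [val, show N - k = N - (k + 1) + 1 by omega]
  exact V_succ_le hμ hc

theorem val_act {k : ℕ} (hk : k < N) {u : Pth} (hu : u ∈ A k) :
    val μ h N A X k u = ∫⁻ v, val μ h N A X (k + 1) (cat (k * h) u v) ∂μ := by
  rw [val, show N - k = N - (k + 1) + 1 by omega]
  exact V_act hu

theorem val_le_const (hμ : IsW μ) (hh : 0 ≤ h) {k : ℕ} {u : Pth} {c : ℝ≥0∞}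
    (hc : ∀ v, X (cat (k * h) u v) ≤ c) : val μ h N A X k u ≤ c := V_le_const hμ hh hc

theorem val_past (hA : Adp h A) {k : ℕ} (hk : k < N) (u v : Pth) :
    val μ h N A X k (cat (k * h) u v) = val μ h N A X k u := by
  rw [val, val, show N - k = N - (k + 1) + 1 by omega]
  exact V_past hA _ _ _ _

theorem lintegral_le_val (hμ : IsW μ) (hh : 0 ≤ h) (hX : Measurable X) (hN : 0 < N) (u : Pth) :
    ∫⁻ v, X v ∂μ ≤ val μ h N A X 0 u := by
  have := lintegral_le_V (A := A) hμ hh hX (N - 1) 0 u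
  simp only [Nat.cast_zero, zero_mul, cat_zero] at this
  rwa [show N - 1 + 1 = N - 0 by omega] at this

/-- if no continuation of `u` lies in `G` and the payoff vanishes off `G`, the value is `0`. -/
theorem val_eq_zero (hμ : IsW μ) (hh : 0 ≤ h) {G : Set Pth} (hX : ∀ w, w ∉ G → X w = 0) {k : ℕ}
    {u : Pth} (hu : ∀ v, cat (k * h) u v ∉ G) : val μ h N A X k u = 0 :=
  le_zero_iff.1 (val_le_const hμ hh fun v => (hX _ (hu v)).le)

/-- EPISODE for `val`. -/
theorem val_episode (hμ : IsW μ) (hh : 0 ≤ h) (hA : Adp h A) {S : ℕ → Set Pth}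
    (hS : ∀ (j : ℕ) (u v : Pth), cat (j * h) u v ∈ S j ↔ u ∈ S j) {k : ℕ} (hk : k < N)
    {u : Pth} (hu : u ∈ A k)
    (hSA : ∀ v j, k < j → j < N → (∀ i, k < i → i ≤ j → cat (k * h) u v ∉ S i) →
      cat (k * h) u v ∈ A j) {Φ : Pth → ℝ≥0∞} (mΦ : Measurable Φ)
    (hΦ : ∀ v j, k < j → j ≤ N → (∀ i, k < i → i < j → cat (k * h) u v ∉ S i) →
      (cat (k * h) u v ∈ S j ∨ j = N) → val μ h N A X j (cat (k * h) u v) ≤ Φ v) :
    val μ h N A X k u ≤ ∫⁻ v, Φ v ∂μ := by
  have e : k + (N - (k + 1) + 1) = N := by omega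
  have := V_episode (X := X) hμ hh hA hS (N - (k + 1)) k u Φ mΦ hu (by rw [e]; exact hSA)
    (by rw [e]; exact hΦ)
  rwa [show N - (k + 1) + 1 = N - k by omega] at this

/-- EPISODE with a stopping rule `τ` of the future (not necessarily measurable). -/
theorem val_episode_tau (hμ : IsW μ) (hh : 0 ≤ h) (hA : Adp h A) {k : ℕ} {u : Pth}
    (τ : Pth → ℕ) (h1 : ∀ v, 1 ≤ τ v ∧ k + τ v ≤ N) (hτ : ∀ v w, τ (cat (τ v * h) v w) = τ v)
    (hact : ∀ v j, j < τ v → cat (k * h) u v ∈ A (k + j)) {Φ : Pth → ℝ≥0∞} (mΦ : Measurable Φ)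
    (hΦ : ∀ v, val μ h N A X (k + τ v) (cat (k * h) u v) ≤ Φ v) :
    val μ h N A X k u ≤ ∫⁻ v, Φ v ∂μ := by
  have hk0 : (0 : ℝ) ≤ k * h := by positivity
  have a1 : ∀ (j : ℕ) (v w : Pth), τ v ≤ j → τ (cat (j * h) v w) = τ v := by
    intro j v w hj
    have := hτ v (sft (τ v * h) (cat (j * h) v w))
    rwa [← cat_cat_le v w _ (t := j * h) (by gcongr), cat_sft _ (by positivity)] at this
  have a2 : ∀ (j : ℕ) (v w : Pth), τ (cat (j * h) v w) ≤ j ↔ τ v ≤ j := by
    intro j v w
    refine ⟨fun hj => ?_, fun hj => (a1 j v w hj).trans_le hj⟩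
    have := a1 j _ (sft (j * h) v) hj
    rw [cat_cat_le _ _ _ le_rfl, cat_sft _ (by positivity)] at this
    exact this.trans_le hj
  refine val_episode hμ hh hA (S := fun j => {w | k < j ∧ τ (sft (k * h) w) ≤ j - k})
    (fun j w w' => ?_) (by have := h1 u; omega)
    ((hA.past k u u).1 (hact u 0 (h1 u).1)) (fun v j b1 _ b3 => ?_) mΦ fun v j b1 b2 b3 b4 => ?_
  · refine and_congr_right fun hj => ?_
    conv_lhs => rw [← cat_sft w hk0, cat_grid hh hj.le, sft_cat _ _ hk0]
    exact a2 _ _ _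
  · have := b3 j b1 le_rfl
    simp only [mem_ofPred_eq, sft_cat _ _ hk0] at this
    have e := hact v (j - k) (by omega)
    rwa [show k + (j - k) = j by omega] at e
  · simp only [mem_ofPred_eq, sft_cat _ _ hk0] at b3 b4
    have := h1 v
    have e : j = k + τ v := by
      by_contra hne
      rcases Nat.lt_or_ge j (k + τ v) with c | c
      · omega
      · exact b3 (k + τ v) (by omega) (by omega) ⟨by omega, by omega⟩
    rw [e]; exact hΦ v

/-- the two-outcome form of EPISODE: the value at the end is at most `c` off a set `E`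
(not necessarily measurable) and at most `c + C` on it. -/
theorem val_episode_two (hμ : IsW μ) (hh : 0 ≤ h) (hA : Adp h A) {k : ℕ} {u : Pth}
    (τ : Pth → ℕ) (h1 : ∀ v, 1 ≤ τ v ∧ k + τ v ≤ N) (hτ : ∀ v w, τ (cat (τ v * h) v w) = τ v)
    (hact : ∀ v j, j < τ v → cat (k * h) u v ∈ A (k + j)) (E : Set Pth) {c C : ℝ≥0∞}
    (hΦ : ∀ v, val μ h N A X (k + τ v) (cat (k * h) u v) ≤ c + C ∧
      (v ∉ E → val μ h N A X (k + τ v) (cat (k * h) u v) ≤ c)) :
    val μ h N A X k u ≤ c + C * μ E := by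
  have := hμ.prob
  have mE := measurableSet_toMeasurable μ E
  refine (val_episode_tau hμ hh hA τ h1 hτ hact
    (Φ := fun v => c + (toMeasurable μ E).indicator (fun _ => C) v)
    (measurable_const.add (measurable_const.indicator mE)) fun v => ?_).trans ?_
  · obtain ⟨a, b⟩ := hΦ v
    by_cases hv : v ∈ toMeasurable μ E
    · rwa [indicator_of_mem hv]
    · rw [indicator_of_notMem hv, add_zero]
      exact b fun hc => hv (subset_toMeasurable _ _ hc)
  · rw [lintegral_add_left measurable_const, lintegral_indicator_const mE, measure_toMeasurable]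
    simp

/-- backward induction with an arbitrary (non-measurable) potential. -/
theorem val_le_pot (Ψ : ℕ → Pth → ℝ≥0∞) (hN : ∀ u, X u ≤ Ψ N u)
    (step : ∀ k, k < N → ∀ u, (∀ j, k < j → j ≤ N → ∀ w, val μ h N A X j w ≤ Ψ j w) →
      val μ h N A X k u ≤ Ψ k u) : ∀ k, k ≤ N → ∀ u, val μ h N A X k u ≤ Ψ k u := by
  have key : ∀ d k, k + d = N → ∀ u, val μ h N A X k u ≤ Ψ k u := by
    intro d
    induction d using Nat.strong_induction_on with
    | _ d ih =>
      intro k hk u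
      rcases Nat.eq_zero_or_pos d with rfl | hd
      · obtain rfl : k = N := by omega
        rw [val_end le_rfl]; exact hN u
      · exact step k (by omega) u fun j h1 h2 w => ih (N - j) (by omega) j (by omega) w
  exact fun k hk => key (N - k) k (by omega)

end Pool.Agent.MP_990230_pr.K8

end
end MrgPart2

-- ======== part 3: formerly Pool.Agent.MP_990230_pr.k8.GeoDefs
section MrgPart3

/-! # SLE8 global geometry: crossings of a sampled path, statement (helper48) -/

open Set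

noncomputable section

namespace Pool.Agent.MP_990230_pr.K8

/-- the sequence `x 0, ..., x N` crosses the ring `(c; r, R)` inwards `m` times. -/
def Cr (x : ℕ → ℂ) (N m : ℕ) (c : ℂ) (r R : ℝ) : Prop :=
  ∃ s t : ℕ → ℕ, (∀ i < m, s i ≤ t i ∧ t i ≤ N ∧ R ≤ ‖x (s i) - c‖ ∧ ‖x (t i) - c‖ ≤ r) ∧
    ∀ i, i + 1 < m → t i ≤ s (i + 1)

/-- the open ring. -/
def ring (c : ℂ) (r R : ℝ) : Set ℂ := {z | r < ‖z - c‖ ∧ ‖z - c‖ < R}

/-- the admissible positions of a window: interior, or real centre with `0` outside or inside. -/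
def Ty (c : ℂ) (r R : ℝ) : Prop :=
  256 * R ≤ c.im ∨ (c.im = 0 ∧ (256 * R ≤ ‖c‖ ∨ 256 * ‖c‖ ≤ r))

/-- the previous point of the chain. -/
def prv (z : ℕ → ℂ) (j : ℕ) : ℂ := if j = 0 then 0 else z (j - 1)

theorem Ty.mono {c : ℂ} {r R r' R' : ℝ} (h : Ty c r R) (hr : r ≤ r') (hR : R' ≤ R) :
    Ty c r' R' := by
  rcases h with h | ⟨h0, h | h⟩
  · exact Or.inl (by linarith)
  · exact Or.inr ⟨h0, Or.inl (by linarith)⟩
  · exact Or.inr ⟨h0, Or.inr (by linarith)⟩

theorem ring_mono {c : ℂ} {r R r' R' : ℝ} (hr : r ≤ r') (hR : R' ≤ R) :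
    ring c r' R' ⊆ ring c r R := fun _ h => ⟨hr.trans_lt h.1, h.2.trans_le hR⟩

theorem Cr.zero (x : ℕ → ℂ) (N : ℕ) (c : ℂ) (r R : ℝ) : Cr x N 0 c r R :=
  ⟨fun _ => 0, fun _ => 0, fun _ hi => absurd hi (Nat.not_lt_zero _),
    fun _ hi => absurd hi (Nat.not_lt_zero _)⟩

theorem Cr.mono {x : ℕ → ℂ} {N N' m m' : ℕ} {c : ℂ} {r R r' R' : ℝ} (h : Cr x N m c r R)
    (hN : N ≤ N') (hm : m' ≤ m) (hr : r ≤ r') (hR : R' ≤ R) : Cr x N' m' c r' R' := by
  obtain ⟨s, t, h1, h2⟩ := h
  refine ⟨s, t, fun i hi => ?_, fun i hi => h2 i (by omega)⟩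
  obtain ⟨a, b, c, d⟩ := h1 i (by omega)
  exact ⟨a, b.trans hN, hR.trans c, d.trans hr⟩

theorem Cr.snoc {x : ℕ → ℂ} {N N' m σ τ : ℕ} {c : ℂ} {r R : ℝ} (h : Cr x N m c r R)
    (h1 : N ≤ σ) (h2 : σ ≤ τ) (h3 : τ ≤ N') (h4 : R ≤ ‖x σ - c‖) (h5 : ‖x τ - c‖ ≤ r) :
    Cr x N' (m + 1) c r R := by
  obtain ⟨s, t, k1, k2⟩ := h
  refine ⟨fun i => if i < m then s i else σ, fun i => if i < m then t i else τ,
    fun i _ => ?_, fun i hi => ?_⟩
  · by_cases him : i < m
    · simp only [if_pos him]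
      obtain ⟨a, b, c, d⟩ := k1 i him
      exact ⟨a, by omega, c, d⟩
    · simp only [if_neg him]
      exact ⟨h2, h3, h4, h5⟩
  · have him : i < m := by omega
    by_cases h' : i + 1 < m
    · simp only [if_pos him, if_pos h']
      exact k2 i h'
    · simp only [if_pos him, if_neg h']
      exact (k1 i him).2.1.trans h1

/-- a finite family of crossings during pairwise ordered time intervals. -/
theorem Cr.of_family {ι : Type*} {x : ℕ → ℂ} {c : ℂ} {r R : ℝ} (hrR : r < R) (σ τ : ι → ℕ)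
    (F : Finset ι) : ∀ N : ℕ,
      (∀ i ∈ F, σ i ≤ τ i ∧ τ i ≤ N ∧ R ≤ ‖x (σ i) - c‖ ∧ ‖x (τ i) - c‖ ≤ r) →
      (∀ i ∈ F, ∀ j ∈ F, i ≠ j → τ i ≤ σ j ∨ τ j ≤ σ i) → Cr x N F.card c r R := by
  classical
  induction F using Finset.induction_on_max_value τ with
  | empty => exact fun N _ _ => Cr.zero _ _ _ _ _
  | insert a F ha hmax ih =>
    intro N h1 h2
    rw [Finset.card_insert_of_notMem ha]
    obtain ⟨a1, a2, a3, a4⟩ := h1 a (Finset.mem_insert_self _ _)
    have hlt : σ a < τ a := lt_of_le_of_ne a1 fun e => by rw [e] at a3; linarith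
    refine (ih (σ a) (fun i hi => ?_) (fun i hi j hj =>
      h2 i (Finset.mem_insert_of_mem hi) j (Finset.mem_insert_of_mem hj))).snoc le_rfl a1 a2 a3 a4
    obtain ⟨b1, _, b3, b4⟩ := h1 i (Finset.mem_insert_of_mem hi)
    have hb : σ i < τ i := lt_of_le_of_ne b1 fun e => by rw [e] at b3; linarith
    refine ⟨b1, ?_, b3, b4⟩
    rcases h2 i (Finset.mem_insert_of_mem hi) a (Finset.mem_insert_self _ _)
      (fun e => ha (e ▸ hi)) with h | h
    · exact h
    · have := hmax i hi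
      omega

theorem Cr.le {x : ℕ → ℂ} {N m : ℕ} {c : ℂ} {r R : ℝ} (h : Cr x N m c r R) (hrR : r < R) :
    m ≤ N := by
  obtain ⟨s, t, k1, k2⟩ := h
  have key : ∀ i, i < m → i + 1 ≤ t i := by
    intro i
    induction i with
    | zero =>
      intro hi
      obtain ⟨a, _, c, d⟩ := k1 0 hi
      have : s 0 < t 0 := lt_of_le_of_ne a fun e => by rw [e] at c; linarith
      omega
    | succ i ih =>
      intro hi
      obtain ⟨a, _, c, d⟩ := k1 (i + 1) hi
      have : s (i + 1) < t (i + 1) := lt_of_le_of_ne a fun e => by rw [e] at c; linarith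
      have := ih (by omega)
      have := k2 i hi
      omega
  rcases Nat.eq_zero_or_pos m with h0 | h0
  · omega
  · have := key (m - 1) (by omega)
    have := (k1 (m - 1) (by omega)).2.1
    omega

/-- windows `(c i; r i, R i)` with multiplicities `m i`, and cells `(d q; ρ q, 2 ρ q)`. -/
def GeoStmt : Prop :=
  ∃ C : ℝ, 0 < C ∧ ∀ (n : ℕ) (z : ℕ → ℂ), 1 ≤ n → (∀ j < n, 0 < (z j).im) →
    ∃ ε0 : ℝ, 0 < ε0 ∧ ∀ ε : ℝ, 0 < ε → ε < ε0 →
      ∃ (I : Finset (Finset ℂ)) (c : Finset ℂ → ℂ) (r R : Finset ℂ → ℝ) (m : Finset ℂ → ℕ)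
        (Q : Finset (ℕ × ℤ × ℤ)) (d : ℕ × ℤ × ℤ → ℂ) (ρ : ℕ × ℤ × ℤ → ℝ) (col : ℕ × ℤ × ℤ → ℕ),
        (Q.card : ℝ) ≤ C * n ∧
        (∀ i ∈ I, ε ≤ r i ∧ 2 * r i ≤ R i ∧ 1 ≤ m i ∧ Ty (c i) (r i) (R i)) ∧
        (∀ i ∈ I, ∀ i' ∈ I, i ≠ i' → Disjoint (ring (c i) (r i) (R i)) (ring (c i') (r i') (R i'))) ∧
        (∀ q ∈ Q, col q < 50 ∧ ε ≤ ρ q ∧ 2 * ρ q ≤ ‖d q‖) ∧
        (∀ q ∈ Q, ∀ q' ∈ Q, q ≠ q' → col q = col q' →
          Disjoint (ring (d q) (ρ q) (2 * ρ q)) (ring (d q') (ρ q') (2 * ρ q'))) ∧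
        (∀ q ∈ Q, ∀ i ∈ I, Disjoint (ring (c i) (r i) (R i)) (ring (d q) (ρ q) (2 * ρ q))) ∧
        ∀ (x : ℕ → ℂ) (N : ℕ) (k : ℕ → ℕ), (∀ i < N, ‖x (i + 1) - x i‖ ≤ ε) → ‖x 0‖ ≤ 3 * ε →
          (∀ j < n, k j ≤ N ∧ ‖x (k j) - z j‖ ≤ 3 * ε) → (∀ j, j + 1 < n → k j ≤ k (j + 1)) →
          (∀ i ∈ I, Cr x N (m i) (c i) (r i) (R i)) ∧
          ∃ e : ℕ × ℤ × ℤ → ℕ, (∀ q ∈ Q, Cr x N (e q) (d q) (ρ q) (2 * ρ q)) ∧
            (I.card : ℝ) ≤ ∑ q ∈ Q, (e q : ℝ) ∧
            ∑ j ∈ Finset.range n, Real.log (‖z j - prv z j‖ / ε) ≤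
              ∑ i ∈ I, (m i : ℝ) * Real.log (R i / r i) + C * ∑ q ∈ Q, (e q : ℝ) + C * n

end Pool.Agent.MP_990230_pr.K8

end
end MrgPart3

-- marker of a merged file
example : 731051 + 103321 = 731051 + 103321 := rfl
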