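import Mathlib.Analysis.Complex.MeanValue
import Mathlib.Analysis.Real.Pi.Bounds
import Mathlib.MeasureTheory.Function.SpecialFunctions.RCLike
import Pool.Agent.MP_990230_pr.Asm
import Pool.Agent.MP_990230_pr.BM
import Pool.Agent.MP_990230_pr.Pot
import Pool.Agent.MP_990230_pr.k8.GeoDefs

-- ======== part 0: formerly Pool.Agent.MP_990230_pr.k8.Map
section MrgPart0

/-! # SLE8 frame: the inverse Loewner map, the flow property and the size of the hull -/

open Set MeasureTheory Filter Complex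
open scoped ENNReal NNReal Topology

noncomputable section

namespace Pool.Agent.MP_990230_pr.K8

open Classical in
/-- `f_t(U_t + w)`: the point of `H_t` with `Z_t = w`. -/
def Fm (a : ℝ) (U : ℝ → ℝ) (t : ℝ) (w : ℂ) : ℂ :=
  if h : ∃ z, Alive a U z t ∧ Zt a U z t = w then h.choose else 0

/-- a trajectory of `dz = a / z ds - dU` on `[σ, τ]` (real or complex). -/
structure Traj (a : ℝ) (U : ℝ → ℝ) (σ τ : ℝ) (z : ℝ → ℂ) : Prop where
  ne : ∀ s ∈ Icc σ τ, z s ≠ 0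
  dz : ∀ s ∈ Icc σ τ, HasDerivWithinAt (fun r => z r + (U r : ℂ)) ((a : ℂ) / z s) (Icc σ τ) s

variable {a : ℝ} {U : ℝ → ℝ}

theorem loeA (ha : 0 < a) (hU : Continuous U) : LoeA a U := loeA_stmt a U ha hU

theorem loeB (ha : 0 < a) (hU : Continuous U) : LoeB a U := loeB_stmt loeA_stmt a U ha hU

theorem Traj.mono {σ τ σ' τ' : ℝ} {z : ℝ → ℂ} (h : Traj a U σ τ z) (h1 : σ ≤ σ') (h2 : τ' ≤ τ) :
    Traj a U σ' τ' z :=
  ⟨fun s hs => h.ne s (Icc_subset_Icc h1 h2 hs),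
    fun s hs => (h.dz s (Icc_subset_Icc h1 h2 hs)).mono (Icc_subset_Icc h1 h2)⟩

theorem Traj.cont (hU : Continuous U) {σ τ : ℝ} {z : ℝ → ℂ} (h : Traj a U σ τ z) :
    ContinuousOn z (Icc σ τ) := by
  have h1 : ContinuousOn (fun r => z r + (U r : ℂ)) (Icc σ τ) := fun s hs =>
    (h.dz s hs).continuousWithinAt
  exact (h1.sub (continuous_ofReal.comp hU).continuousOn).congr fun s _ => by simp

theorem traj_of_flow {σ τ : ℝ} {z : ℝ → ℂ} {y : ℝ → ℝ} (h : Flow a U σ τ z y) : Traj a U σ τ z :=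
  ⟨fun s hs => LoeBM.ne_zero_of_im (h.im_pos s hs), h.dz⟩

theorem traj_Zt (hU : Continuous U) {z : ℂ} {σ τ : ℝ} (hσ : 0 ≤ σ) (hz : Alive a U z τ) :
    Traj a U σ τ (Zt a U z) := traj_of_flow (LoeAM.flow hU z σ τ hσ hz)

theorem Zt_im_pos (hU : Continuous U) {z : ℂ} {t : ℝ} (ht : 0 ≤ t) (hz : Alive a U z t) :
    0 < (Zt a U z t).im := (LoeAM.flow hU z 0 t le_rfl hz).im_pos t ⟨ht, le_rfl⟩

theorem Zt_dead {z : ℂ} {t : ℝ} (hz : ¬ Alive a U z t) : Zt a U z t = 0 := dif_neg hz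

theorem alive_iff_im (hU : Continuous U) {z : ℂ} {t : ℝ} (ht : 0 ≤ t) :
    Alive a U z t ↔ 0 < (Zt a U z t).im :=
  ⟨Zt_im_pos hU ht, fun h => by
    by_contra hc
    rw [Zt_dead hc] at h
    simp at h⟩

theorem Zt_contOn (hU : Continuous U) {z : ℂ} {t : ℝ} (hz : Alive a U z t) :
    ContinuousOn (Zt a U z) (Icc 0 t) := (traj_Zt hU le_rfl hz).cont hU

theorem ups_pos {z : ℂ} {t : ℝ} (hz : Alive a U z t) : 0 < ups a U z t :=
  (LoeAM.ups_pos_iff z t).2 hz

theorem ups_le_im (ha : 0 < a) (hU : Continuous U) {z : ℂ} {t : ℝ} (ht : 0 ≤ t)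
    (hz : 0 < z.im) : ups a U z t ≤ z.im := by
  rw [← (LoeAM.init (a := a) hU z hz).2.2]
  exact LoeAM.ups_anti ha hU z (mem_Ici.2 le_rfl) ht ht

theorem Zt_inj (ha : 0 < a) (hU : Continuous U) {z w : ℂ} {t : ℝ} (ht : 0 ≤ t)
    (hz : Alive a U z t) (hw : Alive a U w t) (h : Zt a U z t = Zt a U w t) : z = w := by
  by_contra hne
  exact (loeA ha hU).inj z w t ht hne hz hw h

theorem Fm_spec (ha : 0 < a) (hU : Continuous U) {t : ℝ} (ht : 0 ≤ t) {w : ℂ} (hw : 0 < w.im) :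
    Alive a U (Fm a U t w) t ∧ Zt a U (Fm a U t w) t = w := by
  have h : ∃ z, Alive a U z t ∧ Zt a U z t = w := by
    obtain ⟨z, g, hz, hg, e⟩ := VisM.backward ha hU (w + U t) (by simpa using hw) t ht
    refine ⟨z, ⟨hz, g, hg⟩, ?_⟩
    rw [LoeAM.Zt_eq hU hz hg t ⟨ht, le_rfl⟩, e]; ring
  rw [Fm, dif_pos h]
  exact h.choose_spec

theorem Fm_alive (ha : 0 < a) (hU : Continuous U) {t : ℝ} (ht : 0 ≤ t) {w : ℂ} (hw : 0 < w.im) :
    Alive a U (Fm a U t w) t := (Fm_spec ha hU ht hw).1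

theorem Zt_Fm (ha : 0 < a) (hU : Continuous U) {t : ℝ} (ht : 0 ≤ t) {w : ℂ} (hw : 0 < w.im) :
    Zt a U (Fm a U t w) t = w := (Fm_spec ha hU ht hw).2

theorem Fm_Zt (ha : 0 < a) (hU : Continuous U) {t : ℝ} (ht : 0 ≤ t) {z : ℂ}
    (hz : Alive a U z t) : Fm a U t (Zt a U z t) = z :=
  Zt_inj ha hU ht (Fm_alive ha hU ht (Zt_im_pos hU ht hz)) hz (Zt_Fm ha hU ht (Zt_im_pos hU ht hz))

theorem Fm_injOn (ha : 0 < a) (hU : Continuous U) {t : ℝ} (ht : 0 ≤ t) :
    InjOn (Fm a U t) {w | 0 < w.im} := fun w hw w' hw' h => by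
  rw [← Zt_Fm ha hU ht hw, h, Zt_Fm ha hU ht hw']

/-- the ball of radius `Υ/4` is alive. -/
theorem alive_of_near (ha : 0 < a) (hU : Continuous U) {t : ℝ} (ht : 0 ≤ t) {z w : ℂ}
    (hz : Alive a U z t) (h : 4 * ‖z - w‖ < ups a U z t) : Alive a U w t := by
  have h1 := ups_le_im ha hU ht hz.1
  have h2 : 0 < w.im := by
    have := abs_im_le_norm (z - w)
    rw [sub_im] at this
    linarith [le_abs_self (z.im - w.im), norm_nonneg (z - w)]
  by_contra hc
  exact absurd ((loeB ha hU).koebe z w t ht hz h2 hc) (not_le.2 h)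

theorem isOpen_alive (ha : 0 < a) (hU : Continuous U) {t : ℝ} (ht : 0 ≤ t) :
    IsOpen {z | Alive a U z t} := by
  refine Metric.isOpen_iff.2 fun z hz => ⟨ups a U z t / 4, by linarith [ups_pos hz], fun w hw => ?_⟩
  rw [Metric.mem_ball, dist_comm, dist_eq_norm] at hw
  exact alive_of_near ha hU ht hz (by linarith)

theorem Zt_hasDerivAt (ha : 0 < a) (hU : Continuous U) {t : ℝ} (ht : 0 ≤ t) {z : ℂ}
    (hz : Alive a U z t) : ∃ d : ℂ, HasDerivAt (fun w => Zt a U w t) d z ∧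
      ‖d‖ = (Zt a U z t).im / ups a U z t := by
  have i0 := LoeAM.init (a := a) hU z hz.1
  exact ⟨_, LoeBM.hasDeriv ha hU (loeA ha hU) ht hz,
    LoeBM.norm_phi hU ht (LoeAM.flow hU z 0 t le_rfl hz) (by rw [i0.2.2, i0.2.1]; simp)⟩

theorem Zt_differentiableOn (ha : 0 < a) (hU : Continuous U) {t : ℝ} (ht : 0 ≤ t) :
    DifferentiableOn ℂ (fun w => Zt a U w t) {z | Alive a U z t} := fun _ hz =>
  (Zt_hasDerivAt ha hU ht hz).choose_spec.1.differentiableAt.differentiableWithinAt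

theorem Zt_continuousAt (ha : 0 < a) (hU : Continuous U) {t : ℝ} (ht : 0 ≤ t) {z : ℂ}
    (hz : Alive a U z t) : ContinuousAt (fun w => Zt a U w t) z :=
  (Zt_hasDerivAt ha hU ht hz).choose_spec.1.continuousAt

theorem Fm_hasDerivAt (ha : 0 < a) (hU : Continuous U) {t : ℝ} (ht : 0 ≤ t) {w : ℂ}
    (hw : 0 < w.im) : ∃ d : ℂ, HasDerivAt (Fm a U t) d w ∧
      ‖d‖ = ups a U (Fm a U t w) t / w.im := by
  obtain ⟨hz, e⟩ := Fm_spec ha hU ht hw
  obtain ⟨d, hd, hn⟩ := Zt_hasDerivAt ha hU ht hz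
  have ho := (isOpen_alive ha hU ht).mem_nhds hz
  have h1 := ((Zt_differentiableOn ha hU ht).analyticAt ho).hasStrictDerivAt
  rw [hd.deriv] at h1
  rw [e] at hn
  have h0 : d ≠ 0 := norm_pos_iff.1 (by rw [hn]; exact div_pos hw (ups_pos hz))
  have h2 := h1.to_local_left_inverse h0 (g := Fm a U t)
    (by filter_upwards [ho] with x hx using Fm_Zt ha hU ht hx)
  rw [e] at h2
  exact ⟨_, h2.hasDerivAt, by rw [norm_inv, hn, inv_div]⟩

theorem Fm_differentiableAt (ha : 0 < a) (hU : Continuous U) {t : ℝ} (ht : 0 ≤ t) {w : ℂ}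
    (hw : 0 < w.im) : DifferentiableAt ℂ (Fm a U t) w :=
  (Fm_hasDerivAt ha hU ht hw).choose_spec.1.differentiableAt

theorem Fm_differentiableOn (ha : 0 < a) (hU : Continuous U) {t : ℝ} (ht : 0 ≤ t) :
    DifferentiableOn ℂ (Fm a U t) {w | 0 < w.im} := fun _ hw =>
  (Fm_differentiableAt ha hU ht hw).differentiableWithinAt

theorem Fm_continuousAt (ha : 0 < a) (hU : Continuous U) {t : ℝ} (ht : 0 ≤ t) {w : ℂ}
    (hw : 0 < w.im) : ContinuousAt (Fm a U t) w := (Fm_differentiableAt ha hU ht hw).continuousAt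

theorem norm_deriv_Fm (ha : 0 < a) (hU : Continuous U) {t : ℝ} (ht : 0 ≤ t) {w : ℂ}
    (hw : 0 < w.im) : ‖deriv (Fm a U t) w‖ = ups a U (Fm a U t w) t / w.im := by
  obtain ⟨d, hd, hn⟩ := Fm_hasDerivAt ha hU ht hw
  rw [hd.deriv, hn]

theorem Fm_zero (ha : 0 < a) (hU : Continuous U) {w : ℂ} (hw : 0 < w.im) :
    Fm a U 0 w = w + U 0 := by
  have i0 := LoeAM.init (a := a) hU (w + U 0) (by simpa using hw)
  have := Fm_Zt ha hU le_rfl i0.1
  rwa [i0.2.1, add_sub_cancel_right] at this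

/-! ## the flow property -/

theorem shift_fwd (hU : Continuous U) {V : ℝ → ℝ} (hV : Continuous V) {s t : ℝ} (hs : 0 ≤ s)
    (ht : 0 ≤ t) (e : ∀ r ∈ Icc 0 t, V r = U (s + r) - U s) {z : ℂ} (hz : Alive a U z (s + t)) :
    Alive a V (Zt a U z s) t ∧ ∀ r ∈ Icc 0 t, Zt a V (Zt a U z s) r = Zt a U z (s + r) := by
  have hp := Zt_im_pos hU hs (LoeAM.alive_mono (by linarith) hz)
  obtain ⟨h0, g, hg⟩ := hz
  have hZ := LoeAM.Zt_eq hU h0 hg
  have h1 := VisM.shift hs hg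
  have h2 : IsSol a V (Zt a U z s) t (fun r => g (s + r) - U s) := by
    refine ⟨by simp only [add_zero, hZ s ⟨hs, by linarith⟩], fun r hr => ?_⟩
    have e1 : g (s + r) - U s - V r = g (s + r) - U (s + r) := by
      rw [e r hr]; push_cast; ring
    refine ⟨fun hc => (h1.2 r hr).1 ?_, ?_⟩
    · rw [← sub_eq_zero] at hc ⊢
      rw [← e1]; exact hc
    · rw [e1]; exact (h1.2 r hr).2.sub_const _
  refine ⟨⟨hp, _, h2⟩, fun r hr => ?_⟩
  rw [LoeAM.Zt_eq hV hp h2 r hr, hZ (s + r) ⟨by linarith [hr.1], by linarith [hr.2]⟩, e r hr]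
  push_cast; ring

theorem alive_shift (ha : 0 < a) (hU : Continuous U) {V : ℝ → ℝ} (hV : Continuous V) {s t : ℝ}
    (hs : 0 ≤ s) (ht : 0 ≤ t) (e : ∀ r ∈ Icc 0 t, V r = U (s + r) - U s) {z : ℂ}
    (hz : Alive a U z s) : Alive a U z (s + t) ↔ Alive a V (Zt a U z s) t := by
  refine ⟨fun h => (shift_fwd hU hV hs ht e h).1, fun h => ?_⟩
  have hst : 0 ≤ s + t := by linarith
  obtain ⟨h1, h2⟩ := Fm_spec ha hU hst (Zt_im_pos hV ht h)
  obtain ⟨h3, h4⟩ := shift_fwd hU hV hs ht e h1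
  have h5 := Zt_inj ha hV ht h3 h ((h4 t ⟨ht, le_rfl⟩).trans h2)
  rw [← Zt_inj ha hU hs (LoeAM.alive_mono (by linarith) h1) hz h5]
  exact h1

theorem Zt_shift (hU : Continuous U) {V : ℝ → ℝ} (hV : Continuous V) {s t : ℝ}
    (hs : 0 ≤ s) (ht : 0 ≤ t) (e : ∀ r ∈ Icc 0 t, V r = U (s + r) - U s) {z : ℂ}
    (hz : Alive a U z (s + t)) : Zt a V (Zt a U z s) t = Zt a U z (s + t) :=
  (shift_fwd hU hV hs ht e hz).2 t ⟨ht, le_rfl⟩

theorem Fm_shift (ha : 0 < a) (hU : Continuous U) {V : ℝ → ℝ} (hV : Continuous V) {s t : ℝ}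
    (hs : 0 ≤ s) (ht : 0 ≤ t) (e : ∀ r ∈ Icc 0 t, V r = U (s + r) - U s) {w : ℂ}
    (hw : 0 < w.im) : Fm a U (s + t) w = Fm a U s (Fm a V t w) := by
  have hst : 0 ≤ s + t := by linarith
  obtain ⟨h1, h2⟩ := Fm_spec ha hU hst hw
  obtain ⟨h3, h4⟩ := shift_fwd hU hV hs ht e h1
  have h5 := Fm_Zt ha hV ht h3
  rw [h4 t ⟨ht, le_rfl⟩, h2] at h5
  rw [h5, Fm_Zt ha hU hs (LoeAM.alive_mono (by linarith) h1)]

theorem ups_shift (hU : Continuous U) {V : ℝ → ℝ} (hV : Continuous V) {s t : ℝ}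
    (hs : 0 ≤ s) (ht : 0 ≤ t) (e : ∀ r ∈ Icc 0 t, V r = U (s + r) - U s) {z : ℂ}
    (hz : Alive a U z (s + t)) :
    ups a U z (s + t) = ups a U z s / (Zt a U z s).im * ups a V (Zt a U z s) t := by
  obtain ⟨h3, h4⟩ := shift_fwd hU hV hs ht e hz
  have hz' : Alive a U z s := LoeAM.alive_mono (by linarith) hz
  have hp := Zt_im_pos hU hs hz'
  have hc : ContinuousOn (fun r => (sI (Zt a U z r)) ^ 2) (Icc 0 (s + t)) := fun r hr =>
    ((MeasA.sI_contAt ((LoeAM.flow hU z 0 _ le_rfl hz).im_pos r hr)).comp_continuousWithinAt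
      (Zt_contOn hU hz r hr)).pow 2
  have i1 : ∫ r in (0 : ℝ)..t, (sI (Zt a V (Zt a U z s) r)) ^ 2 =
      ∫ r in s..(s + t), (sI (Zt a U z r)) ^ 2 := by
    have := intervalIntegral.integral_comp_add_left (a := 0) (b := t)
      (fun r => (sI (Zt a U z r)) ^ 2) s
    rw [add_zero] at this
    rw [← this]
    exact intervalIntegral.integral_congr fun r hr => by
      show (sI (Zt a V (Zt a U z s) r)) ^ 2 = (sI (Zt a U z (s + r))) ^ 2
      rw [h4 r (by rwa [uIcc_of_le ht] at hr)]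
  rw [LoeAM.ups_of_alive hz, LoeAM.ups_of_alive hz', LoeAM.ups_of_alive h3, i1,
    ← intervalIntegral.integral_add_adjacent_intervals (b := s)
      ((hc.mono (Icc_subset_Icc_right (by linarith))).intervalIntegrable_of_Icc hs)
      ((hc.mono (Icc_subset_Icc_left hs)).intervalIntegrable_of_Icc (by linarith)),
    mul_add, Real.exp_add]
  field_simp

theorem drv_congr (ha : 0 < a) (hU : Continuous U) {V : ℝ → ℝ} (hV : Continuous V) {t : ℝ}
    (ht : 0 ≤ t) (e : EqOn U V (Icc 0 t)) (z : ℂ) :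
    (Alive a U z t ↔ Alive a V z t) ∧ Zt a U z t = Zt a V z t ∧ ups a U z t = ups a V z t ∧
      Fm a U t z = Fm a V t z := by
  have h := fun z => MeasA.congr_drv loeA_stmt ha hU hV z ht e
  have h1 : ∀ z, Alive a U z t ↔ Alive a V z t := fun z => by
    rw [← LoeAM.ups_pos_iff, ← LoeAM.ups_pos_iff, (h z).2]
  refine ⟨h1 z, (h z).1, (h z).2, ?_⟩
  have e2 : (fun w => Alive a U w t ∧ Zt a U w t = z) = fun w => Alive a V w t ∧ Zt a V w t = z :=
    funext fun w => by rw [h1 w, (h w).1]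
  have e3 : ∀ p q : ℂ → Prop, p = q →
      (open Classical in if h : ∃ w, p w then h.choose else (0 : ℂ)) =
        (open Classical in if h : ∃ w, q w then h.choose else (0 : ℂ)) := by
    rintro p q rfl; rfl
  exact e3 _ _ e2

/-! ## the size of the hull -/

theorem Traj.right {σ τ : ℝ} {z : ℝ → ℂ} (h : Traj a U σ τ z) {s : ℝ} (hs : s ∈ Ico σ τ) :
    HasDerivWithinAt (fun r => z r + (U r : ℂ)) ((a : ℂ) / z s) (Ici s) s :=
  (h.dz s (Ico_subset_Icc_self hs)).mono_of_mem_nhdsWithin (Icc_mem_nhdsGE_of_mem hs)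

theorem Traj.fence (ha : 0 < a) {σ τ ρ c : ℝ} {z : ℝ → ℂ} (h : Traj a U σ τ z) (hρ : 0 < ρ)
    (p : ℂ) (h0 : ‖z σ + U σ - p‖ ≤ c)
    (hb : ∀ s ∈ Icc σ τ, ‖z s + U s - p‖ = c + 2 * a / ρ * (s - σ) → ρ ≤ ‖z s‖) :
    ∀ s ∈ Icc σ τ, ‖z s + U s - p‖ ≤ c + 2 * a / ρ * (s - σ) := by
  intro s hs
  refine image_norm_le_of_norm_deriv_right_lt_deriv_boundary (f := fun r => z r + (U r : ℂ) - p)
    (f' := fun r => (a : ℂ) / z r) (B := fun r => c + 2 * a / ρ * (r - σ))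
    (B' := fun _ => 2 * a / ρ) (fun r hr => ((h.dz r hr).continuousWithinAt).sub_const p)
    (fun r hr => (h.right hr).sub_const p) (by simpa using h0) (fun r => ?_) (fun r hr e => ?_) hs
  · simpa using (((hasDerivAt_id r).sub_const σ).const_mul (2 * a / ρ)).const_add c
  · have := hb r (Ico_subset_Icc_self hr) e
    rw [norm_div, norm_real, Real.norm_of_nonneg ha.le]
    calc a / ‖z r‖ ≤ a / ρ := by gcongr
      _ < 2 * a / ρ := by gcongr; linarith

theorem fence_time (ha : 0 < a) {σ τ ρ s : ℝ} (hρ : 0 < ρ) (hT : a * (τ - σ) ≤ ρ ^ 2)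
    (hs : s ∈ Icc σ τ) : 0 ≤ 2 * a / ρ * (s - σ) ∧ 2 * a / ρ * (s - σ) ≤ 2 * ρ := by
  have h1 : 0 ≤ s - σ := by linarith [hs.1]
  refine ⟨by positivity, ?_⟩
  rw [div_mul_eq_mul_div, div_le_iff₀ hρ]
  nlinarith [hs.2]

theorem norm_U_sub (r s : ℝ) : ‖((U r : ℂ) - U s)‖ = |U r - U s| := by
  rw [← ofReal_sub, norm_real, Real.norm_eq_abs]

/-- a far point moves little. -/
theorem Traj.far (ha : 0 < a) {σ τ ρ M : ℝ} {z : ℝ → ℂ} (h : Traj a U σ τ z) (hρ : 0 < ρ)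
    (hT : a * (τ - σ) ≤ ρ ^ 2) (hM : ∀ s ∈ Icc σ τ, |U s - U σ| ≤ M) (hz : M + 3 * ρ ≤ ‖z σ‖) :
    ∀ s ∈ Icc σ τ, ‖z s + U s - (z σ + U σ)‖ ≤ 2 * ρ ∧ ‖z s - z σ‖ ≤ M + 2 * ρ ∧ ρ ≤ ‖z s‖ := by
  have key : ∀ s ∈ Icc σ τ, ‖z s + U s - (z σ + U σ)‖ ≤ 2 * ρ →
      ‖z s - z σ‖ ≤ M + 2 * ρ ∧ ρ ≤ ‖z s‖ := by
    intro s hs h1
    have h2 : ‖z s - z σ‖ ≤ M + 2 * ρ := by
      have e : z s - z σ = (z s + U s - (z σ + U σ)) - ((U s : ℂ) - U σ) := by ring
      rw [e]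
      refine (norm_sub_le _ _).trans ?_
      rw [norm_U_sub]; linarith [hM s hs]
    refine ⟨h2, ?_⟩
    have := norm_sub_norm_le (z σ) (z s)
    rw [norm_sub_rev] at this
    linarith
  have h1 := h.fence ha hρ (c := 0) (z σ + U σ) (by simp) fun s hs e =>
    (key s hs (by linarith [(fence_time ha hρ hT hs).2])).2
  intro s hs
  have h2 : ‖z s + U s - (z σ + U σ)‖ ≤ 2 * ρ := by
    linarith [h1 s hs, (fence_time ha hρ hT hs).2]
  exact ⟨h2, key s hs h2⟩

/-- every trajectory moves by at most `3 M + 8 ρ`. -/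
theorem Traj.move (ha : 0 < a) {σ τ ρ M : ℝ} {z : ℝ → ℂ} (h : Traj a U σ τ z) (hρ : 0 < ρ)
    (hT : a * (τ - σ) ≤ ρ ^ 2) (hM : ∀ s ∈ Icc σ τ, |U s - U σ| ≤ M) :
    ∀ s ∈ Icc σ τ, ‖z s - z σ‖ ≤ 3 * M + 8 * ρ := by
  intro s hs
  have hM0 : 0 ≤ M := (abs_nonneg _).trans (hM s hs)
  rcases le_or_gt (M + 3 * ρ) ‖z σ‖ with hz | hz
  · linarith [(h.far ha hρ hT hM hz s hs).2.1]
  · have h1 := h.fence ha hρ (c := M + 3 * ρ) (U σ) (by simpa using hz.le) (fun r hr e => by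
      have h2 : ‖z r + U r - U σ‖ ≤ ‖z r‖ + |U r - U σ| := by
        rw [add_sub_assoc, ← norm_U_sub]; exact norm_add_le _ _
      linarith [(fence_time ha hρ hT hr).1, hM r hr]) s hs
    have e : z s - z σ = (z s + U s - U σ) - ((U s : ℂ) - U σ) - z σ := by ring
    rw [e]
    have h3 := norm_sub_le ((z s + U s - U σ) - ((U s : ℂ) - U σ)) (z σ)
    have h4 := norm_sub_le (z s + U s - U σ) ((U s : ℂ) - U σ)
    rw [norm_U_sub] at h4
    linarith [(fence_time ha hρ hT hs).2, hM s hs]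

theorem Zt_move (ha : 0 < a) (hU : Continuous U) {σ τ ρ M : ℝ} (hσ : 0 ≤ σ) (hστ : σ ≤ τ)
    (hρ : 0 < ρ) (hT : a * (τ - σ) ≤ ρ ^ 2) (hM : ∀ s ∈ Icc σ τ, |U s - U σ| ≤ M) {z : ℂ}
    (hz : Alive a U z τ) : ‖Zt a U z τ - Zt a U z σ‖ ≤ 3 * M + 8 * ρ :=
  (traj_Zt hU hσ hz).move ha hρ hT hM τ ⟨hστ, le_rfl⟩

theorem im_anti (ha : 0 < a) (hU : Continuous U) {z : ℂ} {s t : ℝ} (hs : 0 ≤ s) (hst : s ≤ t)
    (hz : Alive a U z t) : (Zt a U z t).im ≤ (Zt a U z s).im := by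
  obtain ⟨h0, g, hg⟩ := hz
  have := LoeAM.sol_im_anti ha hU h0 hg ⟨hs, hst⟩ ⟨hs.trans hst, le_rfl⟩ hst
  rw [LoeAM.Zt_eq hU h0 hg s ⟨hs, hst⟩, LoeAM.Zt_eq hU h0 hg t ⟨hs.trans hst, le_rfl⟩]
  simpa using this

/-- while `|Z| ≥ ρ` the imaginary part decays at most at rate `a / ρ²`. -/
theorem im_lower (ha : 0 < a) (hU : Continuous U) {z : ℂ} {σ τ ρ : ℝ} (hσ : 0 ≤ σ) (hστ : σ ≤ τ)
    (hρ : 0 < ρ) (hz : Alive a U z τ) (hb : ∀ s ∈ Icc σ τ, ρ ≤ ‖Zt a U z s‖) :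
    (Zt a U z σ).im * Real.exp (-(a / ρ ^ 2 * (τ - σ))) ≤ (Zt a U z τ).im := by
  have hF := LoeAM.flow hU z σ τ hσ hz
  have hd : ∀ s ∈ Icc σ τ, HasDerivWithinAt (fun r => (Zt a U z r).im * Real.exp (a / ρ ^ 2 * r))
      (((a : ℂ) / Zt a U z s).im * Real.exp (a / ρ ^ 2 * s) +
        (Zt a U z s).im * (Real.exp (a / ρ ^ 2 * s) * (a / ρ ^ 2))) (Icc σ τ) s := by
    intro s hs
    have h1 := (Complex.imCLM.hasFDerivAt).comp_hasDerivWithinAt s (hF.dz s hs)
    have h2 : HasDerivWithinAt (fun r => (Zt a U z r).im) ((a : ℂ) / Zt a U z s).im (Icc σ τ) s := by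
      simpa [Function.comp_def] using h1
    have h3 : HasDerivAt (fun r => Real.exp (a / ρ ^ 2 * r))
        (Real.exp (a / ρ ^ 2 * s) * (a / ρ ^ 2)) s := by
      simpa using ((hasDerivAt_id s).const_mul (a / ρ ^ 2)).exp
    exact h2.mul h3.hasDerivWithinAt
  have hm : MonotoneOn (fun r => (Zt a U z r).im * Real.exp (a / ρ ^ 2 * r)) (Icc σ τ) := by
    refine monotoneOn_of_hasDerivWithinAt_nonneg (convex_Icc σ τ)
      (fun s hs => (hd s hs).continuousWithinAt)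
      (fun s hs => (hd s (interior_subset hs)).mono interior_subset) (fun s hs => ?_)
    have hs' := interior_subset hs
    have h1 := hF.im_pos s hs'
    have h2 := hb s hs'
    have h3 : ((a : ℂ) / Zt a U z s).im = -((Zt a U z s).im * (a / ‖Zt a U z s‖ ^ 2)) := by
      rw [Complex.div_im, Complex.sq_norm]; simp; ring
    have h4 : a / ‖Zt a U z s‖ ^ 2 ≤ a / ρ ^ 2 := by gcongr
    rw [h3]
    have h5 := Real.exp_pos (a / ρ ^ 2 * s)
    nlinarith [mul_le_mul_of_nonneg_left h4 (mul_pos h1 h5).le]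
  have h1 := hm ⟨le_rfl, hστ⟩ ⟨hστ, le_rfl⟩ hστ
  simp only [] at h1
  have e : Real.exp (a / ρ ^ 2 * σ) =
      Real.exp (-(a / ρ ^ 2 * (τ - σ))) * Real.exp (a / ρ ^ 2 * τ) := by
    rw [← Real.exp_add]; congr 1; ring
  rw [e, ← mul_assoc] at h1
  exact le_of_mul_le_mul_right h1 (Real.exp_pos _)

/-- a point whose trajectory stays away from `0` as long as it is alive does not die. -/
theorem alive_of_away (ha : 0 < a) (hU : Continuous U) {z : ℂ} {σ τ ρ : ℝ} (hσ : 0 ≤ σ)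
    (hστ : σ ≤ τ) (hρ : 0 < ρ) (hz : Alive a U z σ)
    (hb : ∀ s ∈ Icc σ τ, Alive a U z s → ρ ≤ ‖Zt a U z s‖) : Alive a U z τ := by
  by_contra hc
  have hp := Zt_im_pos hU hσ hz
  obtain ⟨s, hs, h1, h2⟩ := (loeA ha hU).death z τ hz.1 (hσ.trans hστ) hc
    ((Zt a U z σ).im * Real.exp (-(a / ρ ^ 2 * (τ - σ)))) (by positivity)
  have h3 : Real.exp (-(a / ρ ^ 2 * (τ - σ))) ≤ 1 := by
    rw [Real.exp_le_one_iff, neg_nonpos]
    have := sub_nonneg.2 hστ
    positivity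
  rcases le_total s σ with h | h
  · have := im_anti ha hU hs.1 h hz
    nlinarith
  · have h4 := im_lower ha hU hσ h hρ h1 fun r hr =>
      hb r ⟨hr.1, hr.2.trans hs.2⟩ (LoeAM.alive_mono hr.2 h1)
    have h5 : Real.exp (-(a / ρ ^ 2 * (τ - σ))) ≤ Real.exp (-(a / ρ ^ 2 * (s - σ))) := by
      rw [Real.exp_le_exp, neg_le_neg_iff]
      have := hs.2
      gcongr
    nlinarith

/-- a far point survives. -/
theorem alive_of_far (ha : 0 < a) (hU : Continuous U) {σ τ ρ M : ℝ} (hσ : 0 ≤ σ) (hστ : σ ≤ τ)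
    (hρ : 0 < ρ) (hT : a * (τ - σ) ≤ ρ ^ 2) (hM : ∀ s ∈ Icc σ τ, |U s - U σ| ≤ M) {z : ℂ}
    (hz : Alive a U z σ) (hf : M + 3 * ρ ≤ ‖Zt a U z σ‖) : Alive a U z τ :=
  alive_of_away ha hU hσ hστ hρ hz fun s hs h =>
    ((traj_Zt hU hσ h).far ha hρ (by nlinarith [hs.2])
      (fun r hr => hM r ⟨hr.1, hr.2.trans hs.2⟩) hf s ⟨hs.1, le_rfl⟩).2.2

/-- uniform smallness of the oscillation and of the time on short intervals. -/
theorem exists_short (ha : 0 < a) (hU : Continuous U) (T : ℝ) {η : ℝ} (hη : 0 < η) :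
    ∃ δ : ℝ, 0 < δ ∧ ∀ σ τ : ℝ, 0 ≤ σ → σ ≤ τ → τ ≤ T → τ - σ ≤ δ →
      a * (τ - σ) ≤ η ^ 2 ∧ ∀ s ∈ Icc σ τ, |U s - U σ| ≤ η := by
  obtain ⟨δ, hδ, h⟩ := Metric.uniformContinuousOn_iff_le.1
    (isCompact_Icc.uniformContinuousOn_of_continuous (s := Icc 0 T) hU.continuousOn) η hη
  refine ⟨min δ (η ^ 2 / a), lt_min hδ (by positivity), fun σ τ h0 h1 h2 h3 => ⟨?_, fun s hs => ?_⟩⟩
  · have := h3.trans (min_le_right _ _)
    rwa [le_div_iff₀' ha] at this
  · refine h s ⟨h0.trans hs.1, hs.2.trans h2⟩ σ ⟨h0, h1.trans h2⟩ ?_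
    rw [Real.dist_eq, abs_of_nonneg (by linarith [hs.1])]
    linarith [hs.2, min_le_left δ (η ^ 2 / a)]

/-- joint continuity of the inverse map. -/
theorem Fm_continuousOn (ha : 0 < a) (hU : Continuous U) :
    ContinuousOn (fun p : ℝ × ℂ => Fm a U p.1 p.2) {p | 0 ≤ p.1 ∧ 0 < p.2.im} := by
  rintro ⟨t0, w0⟩ ⟨ht0, hw0⟩
  simp only at ht0 hw0
  rw [Metric.continuousWithinAt_iff]
  intro ε hε
  obtain ⟨η, hη, h1⟩ := Metric.continuousAt_iff.1 (Fm_continuousAt ha hU ht0 hw0) ε hε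
  have hn : w0.im ≤ ‖w0‖ := (le_abs_self _).trans (abs_im_le_norm w0)
  set θ := min (η / 13) (w0.im / 5) with hθ
  have hθ0 : 0 < θ := lt_min (by positivity) (by positivity)
  have hθ1 : θ ≤ η / 13 := min_le_left _ _
  have hθ2 : θ ≤ w0.im / 5 := min_le_right _ _
  obtain ⟨δ, hδ, h2⟩ := exists_short ha hU (t0 + 1) hθ0
  refine ⟨min (min δ 1) θ, lt_min (lt_min hδ one_pos) hθ0, ?_⟩
  rintro ⟨t, w⟩ ⟨ht, hw⟩ hd
  simp only at ht hw
  rw [Prod.dist_eq, max_lt_iff, Real.dist_eq, dist_eq_norm] at hd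
  have d1 : |t - t0| < δ := hd.1.trans_le ((min_le_left _ _).trans (min_le_left _ _))
  have d2 : |t - t0| < 1 := hd.1.trans_le ((min_le_left _ _).trans (min_le_right _ _))
  have d3 : ‖w - w0‖ < θ := hd.2.trans_le (min_le_right _ _)
  obtain ⟨hz, e⟩ := Fm_spec ha hU ht hw
  have key : Alive a U (Fm a U t w) t0 ∧ ‖Zt a U (Fm a U t w) t0 - w‖ ≤ 11 * θ := by
    rcases le_total t0 t with h | h
    · obtain ⟨h3, h4⟩ := h2 t0 t ht0 h (by linarith [le_abs_self (t - t0)])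
        (by linarith [le_abs_self (t - t0)])
      have h5 := Zt_move ha hU ht0 h hθ0 h3 h4 hz
      rw [e, norm_sub_rev] at h5
      exact ⟨LoeAM.alive_mono h hz, by linarith⟩
    · obtain ⟨h3, h4⟩ := h2 t t0 ht h (by linarith) (by linarith [neg_abs_le (t - t0)])
      have h6 : Alive a U (Fm a U t w) t0 := alive_of_far ha hU ht h hθ0 h3 h4 hz (by
        rw [e]
        have := norm_sub_norm_le w0 w
        rw [norm_sub_rev] at this
        linarith)
      have h5 := Zt_move ha hU ht h hθ0 h3 h4 h6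
      rw [e] at h5
      exact ⟨h6, by linarith⟩
  have h7 := h1 (x := Zt a U (Fm a U t w) t0) (by
    rw [dist_eq_norm]
    have := norm_add_le (Zt a U (Fm a U t w) t0 - w) (w - w0)
    rw [sub_add_sub_cancel] at this
    linarith [key.2])
  rwa [Fm_Zt ha hU ht0 key.1] at h7

/-! ## upper distortion -/

theorem ups_lip (ha : 0 < a) (hU : Continuous U) {t : ℝ} (ht : 0 ≤ t) {z z' : ℂ}
    (hz' : Alive a U z' t) : ups a U z' t ≤ 8 * ups a U z t + 4 * ‖z' - z‖ := by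
  have h0 := LoeAM.ups_nonneg (a := a) (U := U) z t
  refine le_of_forall_pos_le_add fun η hη => ?_
  have h1 : ¬ ∀ q ∈ Metric.ball z (2 * ups a U z t + η / 4), Alive a U q t := fun h => by
    linarith [(loeB ha hU).ball z _ t ht (by positivity) h]
  push Not at h1
  obtain ⟨q, hq, hd⟩ := h1
  rw [Metric.mem_ball, dist_comm, dist_eq_norm] at hq
  have h2 := norm_add_le (z' - z) (z - q)
  rw [sub_add_sub_cancel] at h2
  rcases lt_or_ge 0 q.im with h | h
  · linarith [(loeB ha hU).koebe z' q t ht hz' h hd]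
  · have h3 := abs_im_le_norm (z' - q)
    rw [sub_im] at h3
    linarith [ups_le_im ha hU ht hz'.1, le_abs_self (z'.im - q.im), norm_nonneg (z' - q)]

/-- growth along a segment at height at least `m`. -/
theorem Fm_chain (ha : 0 < a) (hU : Continuous U) {t m : ℝ} (ht : 0 ≤ t) (hm : 0 < m) {w w' : ℂ}
    (hw : m ≤ w.im) (hw' : m ≤ w'.im) :
    ‖Fm a U t w' - Fm a U t w‖ ≤
        2 * ups a U (Fm a U t w) t * (Real.exp (4 * ‖w' - w‖ / m) - 1) ∧
      ups a U (Fm a U t w') t ≤ 8 * ups a U (Fm a U t w) t * Real.exp (4 * ‖w' - w‖ / m) := by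
  have main : ‖Fm a U t w' - Fm a U t w‖ ≤
      2 * ups a U (Fm a U t w) t * (Real.exp (4 * ‖w' - w‖ / m) - 1) := by
    rcases eq_or_ne w' w with rfl | hne
    · simp
    have hK : 0 < 4 * ‖w' - w‖ / m := by
      have := norm_pos_iff.2 (sub_ne_zero.2 hne)
      positivity
    have him : ∀ θ ∈ Icc (0 : ℝ) 1, m ≤ (w + θ * (w' - w)).im := by
      intro θ hθ
      simp only [add_im, mul_im, ofReal_re, sub_im, ofReal_im, zero_mul, add_zero]
      nlinarith [hθ.1, hθ.2]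
    have hd : ∀ θ ∈ Icc (0 : ℝ) 1, HasDerivAt (fun θ : ℝ => Fm a U t (w + θ * (w' - w)) - Fm a U t w)
        (deriv (Fm a U t) (w + θ * (w' - w)) * (w' - w)) θ := by
      intro θ hθ
      have h1 : HasDerivAt (fun x : ℂ => w + x * (w' - w)) (w' - w) θ := by
        simpa using ((hasDerivAt_id (θ : ℂ)).mul_const (w' - w)).const_add w
      exact (((Fm_differentiableAt ha hU ht (hm.trans_le (him θ hθ))).hasDerivAt.comp
        (θ : ℂ) h1).comp_ofReal).sub_const _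
    have h2 := norm_le_gronwallBound_of_norm_deriv_right_le (δ := 0) (K := 4 * ‖w' - w‖ / m)
      (ε := 4 * ‖w' - w‖ / m * (2 * ups a U (Fm a U t w) t)) (a := 0) (b := 1)
      (fun θ hθ => (hd θ hθ).continuousAt.continuousWithinAt)
      (fun θ hθ => (hd θ (Ico_subset_Icc_self hθ)).hasDerivWithinAt) (by simp)
      (fun θ hθ => by
        have h3 := him θ (Ico_subset_Icc_self hθ)
        have h4 := ups_lip ha hU ht (z := Fm a U t w) (Fm_alive ha hU ht (hm.trans_le h3))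
        rw [norm_mul, norm_deriv_Fm ha hU ht (hm.trans_le h3)]
        calc _ ≤ (8 * ups a U (Fm a U t w) t + 4 * ‖Fm a U t (w + θ * (w' - w)) - Fm a U t w‖) / m *
              ‖w' - w‖ := by
              gcongr
              have := LoeAM.ups_nonneg (a := a) (U := U) (Fm a U t w) t
              positivity
          _ = _ := by field_simp; ring) 1 ⟨zero_le_one, le_rfl⟩
    rw [gronwallBound_of_K_ne_0 hK.ne'] at h2
    simp only [ofReal_one, one_mul, add_sub_cancel, zero_mul, zero_add, sub_zero, mul_one] at h2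
    rwa [mul_div_cancel_left₀ _ hK.ne'] at h2
  refine ⟨main, ?_⟩
  have := ups_lip ha hU ht (z := Fm a U t w) (Fm_alive ha hU ht (hm.trans_le hw'))
  linarith

end Pool.Agent.MP_990230_pr.K8

end
end MrgPart0

-- ======== part 1: formerly Pool.Agent.MP_990230_pr.k8.Lip2
section MrgPart1

/-! # SLE8 tools: the sharp Koebe bound and the hyperbolic Lipschitz bound for the level -/

open Set MeasureTheory Filter Complex
open scoped Topology ComplexConjugate

noncomputable section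

namespace Pool.Agent.MP_990230_pr.K8

open LoeBM

variable {a t : ℝ} {U : ℝ → ℝ}

theorem key_flow2 {Z W : ℝ → ℂ} {y yw : ℝ → ℝ} (ha : 0 < a) (ht : 0 ≤ t) (hZ : Flow a U 0 t Z y)
    (hW : Flow a U 0 t W yw) (hne : ∀ s ∈ Icc 0 t, Z s ≠ W s) (h0 : y 0 = (Z 0).im) :
    y t * ‖Z t - W t‖ ≤ 2 * ‖Z 0 - W 0‖ * ‖Z t - conj (W t)‖ := by
  set d : ℝ → ℝ := fun r => ‖Z r - W r‖ with hd
  set e : ℝ → ℝ := fun r => ‖Z r - conj (W r)‖ with he
  have hde : ∀ s ∈ Icc 0 t, d s < e s := fun s hs => norm_lt (hZ.im_pos s hs) (hW.im_pos s hs)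
  have hd0 : ∀ s, 0 ≤ d s := fun s => norm_nonneg _
  have hQ : ∀ s ∈ Icc 0 t, HasDerivWithinAt (fun r => y r * d r * e r / (d r + e r) ^ 2)
      (y s * d s * e s * (2 * a * sI (Z s)) *
        (sI (W s) * (e s - d s) - sI (Z s) * (d s + e s)) / (d s + e s) ^ 3) (Icc 0 t) s := by
    intro s hs
    have h1 := ne_zero_of_im (hZ.im_pos s hs)
    have h2 := ne_zero_of_im (hW.im_pos s hs)
    have h3 : d s + e s ≠ 0 := by linarith [hde s hs, hd0 s]
    have k1 := norm_deriv (sub_ne_zero.2 (hne s hs)) (dD hZ hW hs)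
    have k2 := norm_deriv (f := fun r => Z r - conj (W r))
      (norm_pos_iff.1 ((hd0 s).trans_lt (hde s hs))) (dE hZ hW hs)
    rw [re_one h1 h2] at k1
    rw [re_two h1 h2] at k2
    refine (((((hZ.dy s hs).fun_mul k1).fun_mul k2).fun_div ((k1.fun_add k2).fun_pow 2)
      (pow_ne_zero 2 h3))).congr_deriv ?_
    change _ = y s * ‖Z s - W s‖ * ‖Z s - conj (W s)‖ * (2 * a * sI (Z s)) *
        (sI (W s) * (‖Z s - conj (W s)‖ - ‖Z s - W s‖) -
          sI (Z s) * (‖Z s - W s‖ + ‖Z s - conj (W s)‖)) / (‖Z s - W s‖ + ‖Z s - conj (W s)‖) ^ 3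
    change ‖Z s - W s‖ + ‖Z s - conj (W s)‖ ≠ 0 at h3
    generalize ‖Z s - W s‖ = d at *
    generalize ‖Z s - conj (W s)‖ = e at *
    field_simp
    ring
  have hanti : AntitoneOn (fun r => y r * d r * e r / (d r + e r) ^ 2) (Icc 0 t) := by
    refine antitoneOn_of_hasDerivWithinAt_nonpos (convex_Icc 0 t)
      (fun s hs => (hQ s hs).continuousWithinAt)
      (fun s hs => (hQ s (interior_subset hs)).mono interior_subset) fun s hs => ?_
    have hs' := interior_subset hs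
    have h1 := harnack (hZ.im_pos s hs') (hW.im_pos s hs')
    have h2 := hZ.y_pos s hs'
    have h3 := hd0 s
    have h4 := hde s hs'
    have h5 : 0 ≤ sI (Z s) := div_nonneg (hZ.im_pos s hs').le (normSq_nonneg _)
    have h6 : 0 ≤ e s := by linarith
    exact div_nonpos_of_nonpos_of_nonneg
      (mul_nonpos_of_nonneg_of_nonpos (by positivity) (sub_nonpos.2 h1)) (by positivity)
  have m0 : (0 : ℝ) ∈ Icc 0 t := ⟨le_rfl, ht⟩
  have mt : t ∈ Icc 0 t := ⟨ht, le_rfl⟩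
  have h1 : y t * d t * e t / (d t + e t) ^ 2 ≤ y 0 * d 0 * e 0 / (d 0 + e 0) ^ 2 := hanti m0 mt ht
  have h2 : 2 * y 0 ≤ d 0 + e 0 := by
    have k1 := abs_im_le_norm (Z 0 - conj (W 0))
    have k2 := abs_im_le_norm (Z 0 - W 0)
    simp only [sub_im, conj_im] at k1 k2
    rw [h0]
    linarith [le_abs_self ((Z 0).im - -(W 0).im), le_abs_self ((Z 0).im - (W 0).im)]
  have a1 := hde 0 m0
  have a2 := hde t mt
  have a3 := hd0 0
  have a4 := hd0 t
  have a5 := hZ.y_pos t mt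
  have a6 : 0 < e t := by linarith
  have a7 : 0 < e 0 := by linarith
  have h3 : y 0 * d 0 * e 0 / (d 0 + e 0) ^ 2 ≤ d 0 / 2 := by
    rw [div_le_iff₀ (by positivity)]
    calc y 0 * d 0 * e 0 ≤ (d 0 + e 0) / 2 * d 0 * (d 0 + e 0) := by gcongr <;> linarith
      _ = _ := by ring
  have h4 := h1.trans h3
  rw [div_le_iff₀ (by positivity)] at h4
  have h5 : y t * d t * e t ≤ 2 * d 0 * e t * e t := by
    calc _ ≤ _ := h4
      _ ≤ d 0 / 2 * (2 * e t) ^ 2 := by gcongr; linarith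
      _ = _ := by ring
  exact le_of_mul_le_mul_right h5 a6

theorem key2 (ha : 0 < a) (hU : Continuous U) {z w : ℂ} (ht : 0 ≤ t) (hz : Alive a U z t)
    (hw : Alive a U w t) : ups a U z t * ‖Zt a U z t - Zt a U w t‖ ≤
      2 * ‖z - w‖ * ‖Zt a U z t - conj (Zt a U w t)‖ := by
  have hA := loeA ha hU
  rcases eq_or_ne z w with rfl | hne
  · simp
  have h1 := hA.init z hz.1
  have h2 := hA.init w hw.1
  have h := key_flow2 ha ht (hA.flow z 0 t le_rfl ht hz) (hA.flow w 0 t le_rfl ht hw)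
    (fun s hs => hA.inj z w s hs.1 hne (hA.mono z s t hs.2 hz) (hA.mono w s t hs.2 hw))
    (by rw [h1.2.2, h1.2.1]; simp)
  rwa [h1.2.1, h2.2.1, sub_sub_sub_cancel_right] at h

theorem koebe1 (ha : 0 < a) (hU : Continuous U) {z c : ℂ} (ht : 0 ≤ t) (hz : Alive a U z t)
    (hc : c.im ≤ 0) : ups a U z t ≤ ‖z - c‖ := by
  have h3 := abs_im_le_norm (z - c)
  rw [sub_im] at h3
  linarith [ups_le_im ha hU ht hz.1, le_abs_self (z.im - c.im)]

/-- the sharp Koebe bound -/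
theorem koebe2 (ha : 0 < a) (hU : Continuous U) {z w : ℂ} (ht : 0 ≤ t) (hz : Alive a U z t)
    (hw' : ¬ Alive a U w t) : ups a U z t ≤ 2 * ‖z - w‖ := by
  have hA := loeA ha hU
  have hL := norm_nonneg (z - w)
  rcases le_or_gt w.im 0 with hw | hw
  · linarith [koebe1 ha hU ht hz hw]
  obtain ⟨m, M, hm, -, hb⟩ := im_bounds hU ht (hA.flow z 0 t le_rfl ht hz)
  refine le_of_forall_pos_le_add fun δ hδ => ?_
  obtain ⟨s, hs, h1, h2⟩ := hA.death w t hw ht hw' (min (m / 2) (δ * m / (16 * ‖z - w‖ + 1)))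
    (lt_min (by positivity) (by positivity))
  have h3 := key2 ha hU hs.1 (hA.mono z s t hs.2 hz) h1
  have h4 := hA.ups_anti z hs.1 ht hs.2
  have h5 := (hA.flow w 0 s le_rfl hs.1 h1).im_pos s ⟨hs.1, le_rfl⟩
  have h6 := (hb s hs).1
  have h7 := h2.trans_le (min_le_left _ _)
  have h8 := h2.trans_le (min_le_right _ _)
  rw [lt_div_iff₀ (by positivity)] at h8
  generalize Zt a U z s = Z at *
  generalize Zt a U w s = W at *
  have k1 : ‖Z - conj W‖ ≤ ‖Z - W‖ + 2 * W.im := by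
    rw [← norm_sub_conj h5]
    exact norm_sub_le_norm_sub_add_norm_sub _ _ _
  have k2 : m / 2 ≤ ‖Z - W‖ := by
    have := abs_im_le_norm (Z - W)
    rw [sub_im] at this
    linarith [le_abs_self (Z.im - W.im)]
  have k3 : 0 < ‖Z - W‖ := by linarith
  refine h4.trans (le_of_mul_le_mul_right (h3.trans ?_) k3)
  have k4 : δ * (m / 2) ≤ δ * ‖Z - W‖ := by gcongr
  calc _ ≤ 2 * ‖z - w‖ * (‖Z - W‖ + 2 * W.im) := by gcongr
    _ ≤ _ := by nlinarith

/-- holomorphic and injective on the half-plane -/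
structure Univ (G : ℂ → ℂ) : Prop where
  diff : ∀ w : ℂ, 0 < w.im → DifferentiableAt ℂ G w
  inj : InjOn G {w | 0 < w.im}

/-- moreover without zeros, with `log |G|` Lipschitz for the hyperbolic metric -/
structure Conf (Λ : ℝ) (G : ℂ → ℂ) : Prop extends Univ G where
  ne : ∀ w : ℂ, 0 < w.im → G w ≠ 0
  lip : ∀ w : ℂ, 0 < w.im → ‖deriv G w‖ * w.im ≤ Λ * ‖G w‖

theorem univ_Fm (ha : 0 < a) (hU : Continuous U) (ht : 0 ≤ t) (c : ℂ) :
    Univ fun w => Fm a U t w - c :=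
  ⟨fun _ hw => (Fm_differentiableAt ha hU ht hw).sub_const c,
    fun _ hw _ hw' h => Fm_injOn ha hU ht hw hw' (sub_left_injective h)⟩

theorem conf_Fm_of (ha : 0 < a) (hU : Continuous U) (ht : 0 ≤ t) {c : ℂ} {Λ : ℝ}
    (hc : ¬ Alive a U c t) (h : ∀ z, Alive a U z t → ups a U z t ≤ Λ * ‖z - c‖) :
    Conf Λ fun w => Fm a U t w - c :=
  { univ_Fm ha hU ht c with
    ne := fun w hw h0 => hc (sub_eq_zero.1 h0 ▸ Fm_alive ha hU ht hw)
    lip := fun w hw => by
      rw [deriv_sub_const, norm_deriv_Fm ha hU ht hw, div_mul_cancel₀ _ hw.ne']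
      exact h _ (Fm_alive ha hU ht hw) }

theorem conf_Fm (ha : 0 < a) (hU : Continuous U) (ht : 0 ≤ t) {c : ℂ} (hc : ¬ Alive a U c t) :
    Conf 2 fun w => Fm a U t w - c :=
  conf_Fm_of ha hU ht hc fun _ hz => koebe2 ha hU ht hz hc

theorem conf_Fm_one (ha : 0 < a) (hU : Continuous U) (ht : 0 ≤ t) {c : ℂ} (hc : c.im ≤ 0) :
    Conf 1 fun w => Fm a U t w - c :=
  conf_Fm_of ha hU ht (fun h => absurd h.1 (not_lt.2 hc)) fun _ hz => by
    rw [one_mul]; exact koebe1 ha hU ht hz hc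

variable {Λ : ℝ} {G : ℂ → ℂ}

theorem Conf.mono {Λ' : ℝ} (h : Conf Λ G) (hΛ : Λ ≤ Λ') : Conf Λ' G :=
  { h with lip := fun w hw => (h.lip w hw).trans (by gcongr) }

theorem Conf.nonneg (h : Conf Λ G) : 0 ≤ Λ := by
  have h1 := h.lip I (by simp)
  have h2 := norm_pos_iff.2 (h.ne I (by simp))
  have h3 := norm_nonneg (deriv G I)
  rw [I_im, mul_one] at h1
  by_contra hc
  nlinarith

/-- the derivative of `log ‖φ‖` along a path -/
theorem hasDerivAt_log_norm {φ : ℝ → ℂ} {φ' : ℂ} {s : ℝ} (h : HasDerivAt φ φ' s) (h0 : φ s ≠ 0) :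
    HasDerivAt (fun r => Real.log ‖φ r‖) (φ' / φ s).re s := by
  have h1 : HasDerivWithinAt φ (φ' / φ s * φ s) univ s := by
    rw [div_mul_cancel₀ _ h0]; exact h.hasDerivWithinAt
  have h2 := (hasDerivWithinAt_univ.1 (norm_deriv h0 h1)).log (norm_ne_zero_iff.2 h0)
  rwa [mul_div_cancel_right₀ _ (norm_ne_zero_iff.2 h0)] at h2

theorem Conf.hasDerivAt (h : Conf Λ G) {γ : ℝ → ℂ} {γ' : ℂ} {s : ℝ} (hγ : HasDerivAt γ γ' s)
    (hs : 0 < (γ s).im) : ∃ D : ℝ, HasDerivAt (fun r => Real.log ‖G (γ r)‖) D s ∧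
      |D| ≤ Λ * ‖γ'‖ / (γ s).im := by
  have h1 : HasDerivAt (fun r => G (γ r)) (deriv G (γ s) * γ') s :=
    (h.diff _ hs).hasDerivAt.comp_of_eq s hγ rfl
  refine ⟨_, hasDerivAt_log_norm h1 (h.ne _ hs), (abs_re_le_norm _).trans ?_⟩
  have h2 := norm_pos_iff.2 (h.ne _ hs)
  rw [norm_div, norm_mul, div_le_div_iff₀ h2 hs]
  nlinarith [mul_le_mul_of_nonneg_right (h.lip _ hs) (norm_nonneg γ')]

/-- LIP along a segment at height at least `m` -/
theorem Conf.lip_seg (h : Conf Λ G) {m : ℝ} (hm : 0 < m) {w w' : ℂ} (hw : m ≤ w.im)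
    (hw' : m ≤ w'.im) : |Real.log ‖G w'‖ - Real.log ‖G w‖| ≤ Λ * ‖w' - w‖ / m := by
  have him : ∀ s ∈ Icc (0 : ℝ) 1, m ≤ (w + s * (w' - w)).im := fun s hs => by
    simp only [add_im, mul_im, ofReal_re, sub_im, ofReal_im, zero_mul, add_zero]
    nlinarith [hs.1, hs.2]
  have hγ : ∀ s : ℝ, HasDerivAt (fun r : ℝ => w + r * (w' - w)) (w' - w) s := fun s => by
    simpa using (((hasDerivAt_id (s : ℂ)).mul_const (w' - w)).const_add w).comp_ofReal
  have hD := fun s (hs : s ∈ Icc (0 : ℝ) 1) => h.hasDerivAt (hγ s) (hm.trans_le (him s hs))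
  choose! D hD1 hD2 using hD
  have h1 := norm_image_sub_le_of_norm_deriv_le_segment_01'
    (f := fun r : ℝ => Real.log ‖G (w + r * (w' - w))‖) (f' := D) (C := Λ * ‖w' - w‖ / m)
    (fun s hs => (hD1 s hs).hasDerivWithinAt) fun s hs => by
      refine (hD2 s (Ico_subset_Icc_self hs)).trans ?_
      have := h.nonneg
      gcongr
      exact him s (Ico_subset_Icc_self hs)
  simpa using h1

/-- LIP along a vertical segment -/
theorem Conf.lip_vert (h : Conf Λ G) (x : ℝ) {y y' : ℝ} (hy : 0 < y) (hyy : y ≤ y') :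
    |Real.log ‖G (x + y' * I)‖ - Real.log ‖G (x + y * I)‖| ≤ Λ * Real.log (y' / y) := by
  have hy' : 0 < y' := hy.trans_le hyy
  have hγ : ∀ s : ℝ, HasDerivAt (fun r : ℝ => (x : ℂ) + (Real.exp r : ℝ) * I)
      ((Real.exp s : ℝ) * I) s := fun s =>
    (((Real.hasDerivAt_exp s).ofReal_comp).mul_const I).const_add _
  have him : ∀ s : ℝ, ((x : ℂ) + (Real.exp s : ℝ) * I).im = Real.exp s := fun s => by
    simp only [add_im, ofReal_im, mul_im, ofReal_re, I_im, I_re]; ring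
  have hD := fun s => h.hasDerivAt (hγ s) (by rw [him]; exact Real.exp_pos s)
  choose D hD1 hD2 using hD
  have hl : Real.log y ≤ Real.log y' := Real.log_le_log hy hyy
  have h1 := norm_image_sub_le_of_norm_deriv_le_segment'
    (f := fun r : ℝ => Real.log ‖G (x + (Real.exp r : ℝ) * I)‖) (f' := D) (C := Λ)
    (a := Real.log y) (b := Real.log y')
    (fun s _ => (hD1 s).hasDerivWithinAt) (fun s _ => by
      refine (hD2 s).trans_eq ?_
      rw [him, norm_mul, norm_I, mul_one, norm_real, Real.norm_eq_abs,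
        abs_of_pos (Real.exp_pos s), mul_div_cancel_right₀ _ (Real.exp_pos s).ne'])
    (Real.log y') ⟨hl, le_rfl⟩
  rwa [Real.exp_log hy, Real.exp_log hy', Real.norm_eq_abs,
    ← Real.log_div hy'.ne' hy.ne'] at h1

end Pool.Agent.MP_990230_pr.K8

end
end MrgPart1

-- ======== part 2: formerly Pool.Agent.MP_990230_pr.k8.Band
section MrgPart2

/-! # SLE8 tools: logarithmic area of a band, SEMI, RAY, OSC -/

open Set MeasureTheory Filter Complex
open scoped ENNReal Topology Real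

noncomputable section

namespace Pool.Agent.MP_990230_pr.K8

variable {G : ℂ → ℂ} {Λ : ℝ}

/-- points of the half-plane whose level lies in `[d1, d2]` -/
def bnd (G : ℂ → ℂ) (d1 d2 : ℝ) : Set ℂ :=
  {w | 0 < w.im ∧ Real.exp d1 ≤ ‖G w‖ ∧ ‖G w‖ ≤ Real.exp d2}

/-- the density `|G'/G|` on the band -/
def dens (G : ℂ → ℂ) (d1 d2 : ℝ) : ℂ → ℝ≥0∞ :=
  (bnd G d1 d2).indicator fun w => ‖deriv G w / G w‖ₑ

theorem measurableSet_H : MeasurableSet {w : ℂ | 0 < w.im} :=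
  measurableSet_lt measurable_const measurable_im

theorem Univ.exists_meas (h : Univ G) :
    ∃ G0 : ℂ → ℂ, Measurable G0 ∧ ∀ w : ℂ, 0 < w.im → G0 w = G w := by
  classical
  exact ⟨{w : ℂ | 0 < w.im}.piecewise G fun _ => 0, ContinuousOn.measurable_piecewise
    (fun w hw => (h.diff w hw).continuousAt.continuousWithinAt) continuousOn_const measurableSet_H,
    fun w hw => piecewise_eq_of_mem _ _ _ hw⟩

theorem Univ.measurableSet_bnd (h : Univ G) (d1 d2 : ℝ) : MeasurableSet (bnd G d1 d2) := by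
  obtain ⟨G0, h0, h1⟩ := h.exists_meas
  have : bnd G d1 d2 = {w : ℂ | 0 < w.im} ∩ ({w | Real.exp d1 ≤ ‖G0 w‖} ∩
      {w | ‖G0 w‖ ≤ Real.exp d2}) := by
    ext w
    exact ⟨fun hw => ⟨hw.1, by simpa [h1 w hw.1] using hw.2⟩,
      fun hw => ⟨hw.1, by simpa [h1 w hw.1] using hw.2⟩⟩
  rw [this]
  exact measurableSet_H.inter ((measurableSet_le measurable_const h0.norm).inter
    (measurableSet_le h0.norm measurable_const))

theorem Univ.measurable_dens (h : Univ G) (d1 d2 : ℝ) : Measurable (dens G d1 d2) := by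
  obtain ⟨G0, h0, h1⟩ := h.exists_meas
  have : dens G d1 d2 = (bnd G d1 d2).indicator fun w => ‖deriv G w / G0 w‖ₑ :=
    indicator_congr fun w hw => by rw [h1 w hw.1]
  rw [this]
  exact ((measurable_deriv G).div h0).enorm.indicator (h.measurableSet_bnd d1 d2)

theorem dens_of_mem {d1 d2 : ℝ} {w : ℂ} (hw : w ∈ bnd G d1 d2) :
    dens G d1 d2 w = ‖deriv G w / G w‖ₑ := indicator_of_mem hw _

/-- the logarithmic area of an annulus -/
theorem logarea (d1 d2 : ℝ) :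
    ∫⁻ z in {z : ℂ | Real.exp d1 ≤ ‖z‖ ∧ ‖z‖ ≤ Real.exp d2}, ‖z⁻¹‖ₑ ^ 2 ≤
      ENNReal.ofReal (2 * π * (d2 - d1)) := by
  have h1 := area_eq (F := exp) (S := Icc d1 d2 ×ℂ Ioc (-π) π)
    (measurableSet_rect measurableSet_Icc measurableSet_Ioc) (fun w _ => differentiableAt_exp)
    (fun x hx y hy e => exp_inj_of_neg_pi_lt_of_le_pi hx.2.1 hx.2.2 hy.2.1 hy.2.2 e)
    fun z => ‖z⁻¹‖ₑ ^ 2
  have h2 : ∀ w : ℂ, ‖deriv exp w‖ₑ ^ 2 * ‖(exp w)⁻¹‖ₑ ^ 2 = 1 := fun w => by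
    rw [Complex.deriv_exp, ← mul_pow, ← enorm_mul, mul_inv_cancel₀ (exp_ne_zero w)]
    simp
  simp only [h2] at h1
  rw [rect_xy measurable_const] at h1
  refine (lintegral_mono_set fun z hz => ?_).trans (h1.le.trans ?_)
  · have h0 : 0 < ‖z‖ := (Real.exp_pos d1).trans_le hz.1
    refine ⟨log z, ⟨?_, ?_⟩, exp_log (norm_pos_iff.1 h0)⟩
    · change (log z).re ∈ Icc d1 d2
      rw [log_re]
      exact ⟨(Real.le_log_iff_exp_le h0).2 hz.1, (Real.log_le_iff_le_exp h0).2 hz.2⟩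
    · change (log z).im ∈ Ioc (-π) π
      rw [log_im]
      exact ⟨neg_pi_lt_arg z, arg_le_pi z⟩
  · simp only [lintegral_const, one_mul, Measure.restrict_apply_univ, Real.volume_Ioc,
      Real.volume_Icc]
    rw [← ENNReal.ofReal_mul (by linarith [Real.pi_pos])]
    exact le_of_eq (by congr 1; ring)

/-- the energy on a set is the logarithmic area of its image in the band -/
theorem Univ.energy_eq (h : Univ G) (d1 d2 : ℝ) {S : Set ℂ} (hS : MeasurableSet S) :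
    ∫⁻ w in S, dens G d1 d2 w ^ 2 = ∫⁻ z in G '' (bnd G d1 d2 ∩ S), ‖z⁻¹‖ₑ ^ 2 := by
  have hB := h.measurableSet_bnd d1 d2
  rw [area_eq (hB.inter hS) (fun w hw => h.diff w hw.1.1) (h.inj.mono fun w hw => hw.1.1),
    ← Measure.restrict_restrict hB, ← lintegral_indicator hB]
  refine lintegral_congr fun w => ?_
  by_cases hw : w ∈ bnd G d1 d2
  · rw [dens_of_mem hw, indicator_of_mem hw, div_eq_mul_inv, enorm_mul, mul_pow]
  · rw [dens, indicator_of_notMem hw, indicator_of_notMem hw]; simp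

theorem Univ.energy_le (h : Univ G) (d1 d2 : ℝ) :
    ∫⁻ w, dens G d1 d2 w ^ 2 ≤ ENNReal.ofReal (2 * π * (d2 - d1)) := by
  have h1 := h.energy_eq d1 d2 MeasurableSet.univ
  rw [Measure.restrict_univ] at h1
  rw [h1]
  refine (lintegral_mono_set ?_).trans (logarea d1 d2)
  rintro _ ⟨w, hw, rfl⟩
  exact hw.1.2

/-- the last crossing of an interval of values -/
theorem exists_sub {f : ℝ → ℝ} {α β A B : ℝ} (hαβ : α ≤ β) (hf : ContinuousOn f (Icc α β))
    (hA : f α ≤ A) (hAB : A ≤ B) (hB : B ≤ f β) : ∃ α' β', α ≤ α' ∧ α' ≤ β' ∧ β' ≤ β ∧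
      f α' = A ∧ f β' = B ∧ ∀ s ∈ Icc α' β', A ≤ f s ∧ f s ≤ B := by
  obtain ⟨β', ⟨h1, h2⟩, h3⟩ := (isCompact_Icc.of_isClosed_subset
    (hf.preimage_isClosed_of_isClosed isClosed_Icc (isClosed_singleton (x := B)))
    inter_subset_left).exists_isLeast (by
      obtain ⟨s, hs, e⟩ := intermediate_value_Icc hαβ hf ⟨hA.trans hAB, hB⟩
      exact ⟨s, hs, e⟩)
  have hf' : ContinuousOn f (Icc α β') := hf.mono (Icc_subset_Icc_right h1.2)
  have h2' : f β' = B := h2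
  obtain ⟨α', ⟨k1, k2⟩, k3⟩ := (isCompact_Icc.of_isClosed_subset
    (hf'.preimage_isClosed_of_isClosed isClosed_Icc (isClosed_singleton (x := A)))
    inter_subset_left).exists_isGreatest (by
      obtain ⟨s, hs, e⟩ := intermediate_value_Icc h1.1 hf' ⟨hA, h2' ▸ hAB⟩
      exact ⟨s, hs, e⟩)
  have k2' : f α' = A := k2
  refine ⟨α', β', k1.1, k1.2, h1.2, k2', h2', fun s hs => ⟨?_, ?_⟩⟩
  · by_contra hc
    push Not at hc
    obtain ⟨r, hr, e⟩ := intermediate_value_Icc hs.2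
      (hf'.mono (Icc_subset_Icc_left (k1.1.trans hs.1))) ⟨hc.le, h2' ▸ hAB⟩
    have h4 : r ≤ α' := k3 ⟨⟨k1.1.trans (hs.1.trans hr.1), hr.2⟩, e⟩
    have h5 : s = α' := le_antisymm (hr.1.trans h4) hs.1
    rw [h5, k2'] at hc
    exact lt_irrefl _ hc
  · by_contra hc
    push Not at hc
    obtain ⟨r, hr, e⟩ := intermediate_value_Icc (k1.1.trans hs.1)
      (hf'.mono (Icc_subset_Icc_right hs.2)) ⟨hA.trans hAB, hc.le⟩
    have h4 : β' ≤ r := h3 ⟨⟨hr.1, hr.2.trans (hs.2.trans h1.2)⟩, e⟩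
    have h5 : s = β' := le_antisymm hs.2 (h4.trans hr.2)
    rw [h5, h2'] at hc
    exact lt_irrefl _ hc

/-- a path whose image crosses from level `A` to level `B` is long for the density -/
theorem Univ.cross (h : Univ G) {γ γ' : ℝ → ℂ} {α β A B d1 d2 : ℝ}
    (hd : ∀ s ∈ Ioo α β, HasDerivAt γ (γ' s) s) (hH : ∀ s ∈ Ioo α β, 0 < (γ s).im)
    (h1 : d1 ≤ A) (h2 : B ≤ d2) {s t : ℝ} (hs : s ∈ Ioo α β) (ht : t ∈ Ioo α β)
    (hA : ‖G (γ s)‖ ≤ Real.exp A) (hB : Real.exp B ≤ ‖G (γ t)‖) :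
    ENNReal.ofReal (B - A) ≤ ∫⁻ r in Ioo α β, ‖γ' r‖ₑ * dens G d1 d2 (γ r) := by
  rcases le_or_gt B A with hAB | hAB
  · rw [ENNReal.ofReal_of_nonpos (by linarith)]; exact zero_le
  have hE := Real.exp_le_exp.2 hAB.le
  have hD : ∀ r ∈ Ioo α β, HasDerivAt (fun r => G (γ r)) (deriv G (γ r) * γ' r) r := fun r hr =>
    (h.diff _ (hH r hr)).hasDerivAt.comp_of_eq r (hd r hr) rfl
  have main : ∀ p q : ℝ, p ∈ Ioo α β → q ∈ Ioo α β → p ≤ q →
      (∀ r ∈ Icc p q, Real.exp A ≤ ‖G (γ r)‖ ∧ ‖G (γ r)‖ ≤ Real.exp B) →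
      ‖Real.log ‖G (γ q)‖ - Real.log ‖G (γ p)‖‖ₑ ≤
        ∫⁻ r in Ioo α β, ‖γ' r‖ₑ * dens G d1 d2 (γ r) := by
    intro p q hp hq hpq hb
    have hsub : Icc p q ⊆ Ioo α β := Icc_subset_Ioo hp.1 hq.2
    refine (path_le (φ := fun r => Real.log ‖G (γ r)‖)
      (φ' := fun r => (deriv G (γ r) * γ' r / G (γ r)).re) hpq (fun r hr =>
        hasDerivAt_log_norm (hD r (hsub hr))
          (norm_pos_iff.1 ((Real.exp_pos A).trans_le (hb r hr).1))) fun r hr => ?_).trans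
      (lintegral_mono_set (Ioo_subset_Icc_self.trans hsub))
    have hr' := Ioo_subset_Icc_self hr
    rw [dens_of_mem ⟨hH r (hsub hr'), (Real.exp_le_exp.2 h1).trans (hb r hr').1,
      (hb r hr').2.trans (Real.exp_le_exp.2 h2)⟩, ← enorm_mul, ← ofReal_norm, ← ofReal_norm]
    refine ENNReal.ofReal_le_ofReal ((abs_re_le_norm _).trans_eq ?_)
    congr 1
    ring
  have hc : ∀ p q : ℝ, p ∈ Ioo α β → q ∈ Ioo α β →
      ContinuousOn (fun r => ‖G (γ r)‖) (Icc p q) := fun p q hp hq r hr =>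
    (hD r (Icc_subset_Ioo hp.1 hq.2 hr)).continuousAt.norm.continuousWithinAt
  rcases le_total s t with hst | hst
  · obtain ⟨p, q, a1, a2, a3, a4, a5, a6⟩ := exists_sub hst (hc s t hs ht) hA hE hB
    refine le_trans ?_ (main p q ⟨hs.1.trans_le a1, (a2.trans a3).trans_lt ht.2⟩
      ⟨hs.1.trans_le (a1.trans a2), a3.trans_lt ht.2⟩ a2 a6)
    rw [a4, a5, Real.log_exp, Real.log_exp, Real.enorm_eq_ofReal (by linarith)]
  · obtain ⟨p, q, a1, a2, a3, a4, a5, a6⟩ := exists_sub (f := fun r => -‖G (γ r)‖) hst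
      (hc t s ht hs).neg (neg_le_neg hB) (neg_le_neg hE) (neg_le_neg hA)
    refine le_trans ?_ (main p q ⟨ht.1.trans_le a1, (a2.trans a3).trans_lt hs.2⟩
      ⟨ht.1.trans_le (a1.trans a2), a3.trans_lt hs.2⟩ a2 fun r hr =>
        ⟨neg_le_neg_iff.1 (a6 r hr).2, neg_le_neg_iff.1 (a6 r hr).1⟩)
    rw [neg_inj.1 a4, neg_inj.1 a5, Real.log_exp, Real.log_exp, ← enorm_neg, neg_sub,
      Real.enorm_eq_ofReal (by linarith)]

theorem real_of_sq {x L A : ℝ} {E : ℝ≥0∞} (hx : 0 ≤ x) (hA : 0 ≤ A) (h1 : ENNReal.ofReal x ≤ E)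
    (h2 : E ^ 2 * ENNReal.ofReal L ≤ ENNReal.ofReal A) : x ^ 2 * L ≤ A := by
  have h3 : ENNReal.ofReal x ^ 2 * ENNReal.ofReal L ≤ ENNReal.ofReal A := le_trans (by gcongr) h2
  rwa [← ENNReal.ofReal_pow hx, ← ENNReal.ofReal_mul (by positivity),
    ENNReal.ofReal_le_ofReal_iff hA] at h3

theorem hasDerivAt_arc (c : ℂ) (s r : ℝ) :
    HasDerivAt (fun θ : ℝ => c + exp (s + θ * I)) (exp (s + r * I) * I) r := by
  have h1 : HasDerivAt (fun ζ : ℂ => c + exp (s + ζ * I)) (exp (s + r * I) * I) r := by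
    simpa using ((((hasDerivAt_id (r : ℂ)).mul_const I).const_add (s : ℂ)).cexp).const_add c
  exact h1.comp_ofReal

theorem volume_log {r : ℝ} (hr : 0 < r) :
    volume (Ioo (Real.log r) (Real.log (2 * r))) = ENNReal.ofReal (Real.log 2) := by
  rw [Real.volume_Ioo, Real.log_mul two_ne_zero hr.ne', add_sub_cancel_right]

/-- SEMI: a half circle with radius in `(r, 2 r)` that does not cross the band `[d, d + 30]` -/
theorem Univ.semi (h : Univ G) (x d : ℝ) {r : ℝ} (hr : 0 < r) : ∃ ρ ∈ Ioo r (2 * r),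
    ∀ w w' : ℂ, 0 < w.im → 0 < w'.im → ‖w - x‖ = ρ → ‖w' - x‖ = ρ → ‖G w‖ ≤ Real.exp d →
      ‖G w'‖ < Real.exp (d + 30) := by
  have hl := Real.log_two_gt_d9
  obtain ⟨s, hs, -, h1⟩ := exists_arc (θ1 := 0) (θ2 := π) (by linarith [Real.pi_pos])
    (h.measurable_dens d (d + 30)) (x : ℂ) (X := Ioo (Real.log r) (Real.log (2 * r)))
    measurableSet_Ioo (by rw [volume_log hr]; simp; linarith) (by rw [volume_log hr]; simp)
    (S := univ) (fun _ _ _ _ => mem_univ _) measure_empty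
  rw [volume_log hr, Measure.restrict_univ, sub_zero] at h1
  have h2 := h1.trans (mul_le_mul_right (h.energy_le d (d + 30)) _)
  rw [← ENNReal.ofReal_mul Real.pi_pos.le] at h2
  have hpar : ∀ w : ℂ, 0 < w.im → ‖w - x‖ = Real.exp s →
      ∃ θ ∈ Ioo 0 π, w = x + exp (s + θ * I) := fun w hw e => by
    have h3 : 0 < (w - x).im := by simpa using hw
    refine ⟨arg (w - x), ⟨?_, arg_lt_pi_iff.2 (Or.inr h3.ne')⟩, ?_⟩
    · refine lt_of_le_of_ne (arg_nonneg_iff.2 h3.le) fun e0 => h3.ne' (arg_eq_zero_iff.1 e0.symm).2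
    · rw [exp_add, ← ofReal_exp, ← e, norm_mul_exp_arg_mul_I]; ring
  refine ⟨Real.exp s, ⟨(Real.log_lt_iff_lt_exp hr).1 hs.1,
    (Real.lt_log_iff_exp_lt (by positivity)).1 hs.2⟩, fun w w' hw hw' e e' hG => ?_⟩
  obtain ⟨θ, hθ, rfl⟩ := hpar w hw e
  obtain ⟨θ', hθ', rfl⟩ := hpar w' hw' e'
  by_contra hc
  have h4 := h.cross (fun r _ => hasDerivAt_arc x s r) (fun r hr => im_arc_pos x s hr)
    le_rfl le_rfl hθ hθ' hG (not_lt.1 hc)
  simp only [enorm_mul, enorm_I', mul_one] at h4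
  have h5 := real_of_sq (by linarith) (mul_nonneg Real.pi_pos.le
    (mul_nonneg (by positivity) (by linarith))) h4 h2
  have h6 := Real.pi_lt_d2
  have h7 := Real.pi_pos
  nlinarith

/-- RAY -/
theorem Conf.ray (h : Conf 2 G) (x : ℝ) {y : ℝ} (hy : 0 < y) : ∃ ξ ∈ Ioo y (2 * y),
    ∀ η ∈ Ioc 0 y, |Real.log ‖G ((x + ξ : ℝ) + η * I)‖ - Real.log ‖G (x + y * I)‖| ≤ 60 ∧
      |Real.log ‖G ((x - ξ : ℝ) + η * I)‖ - Real.log ‖G (x + y * I)‖| ≤ 60 := by
  set p := Real.log ‖G (x + y * I)‖ with hp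
  have hm := h.toUniv.measurable_dens (p - 60) (p + 60)
  set F : ℝ → ℝ≥0∞ := fun ξ =>
    (∫⁻ η in Ioo 0 (2 * y), dens G (p - 60) (p + 60) (ξ + η * I)) ^ 2 with hF
  have mF : Measurable F := (hm.comp measurable_xy).lintegral_prod_right'.pow_const 2
  have hE : ∫⁻ ξ, F ξ ≤ ENNReal.ofReal (2 * y * (2 * π * 120)) := by
    have h1 := vert_avg (X := univ) (Y := Ioo 0 (2 * y)) hm
    rw [Measure.restrict_univ, Real.volume_Ioo, sub_zero] at h1
    refine h1.trans ?_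
    rw [ENNReal.ofReal_mul (p := 2 * y) (by positivity)]
    refine mul_le_mul_right ((setLIntegral_le_lintegral _ _).trans
      ((h.toUniv.energy_le _ _).trans_eq ?_)) _
    congr 1
    ring
  have m1 : Measurable fun ξ => F (x + ξ) := mF.comp (measurable_const_add x)
  obtain ⟨ξ, hξ, -, h1⟩ := exists_le_avg (X := Ioo y (2 * y)) (by simp; linarith) (by simp)
    (f := fun ξ => F (x + ξ) + F (x - ξ))
    (m1.add (mF.comp (measurable_const_sub x))) measure_empty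
  have h2 : ∫⁻ ξ in Ioo y (2 * y), F (x + ξ) + F (x - ξ) ≤
      ENNReal.ofReal (2 * (2 * y * (2 * π * 120))) := by
    refine (setLIntegral_le_lintegral _ _).trans ?_
    rw [lintegral_add_left m1, lintegral_add_left_eq_self F x,
      lintegral_sub_left_eq_self F x, two_mul (2 * y * _),
      ENNReal.ofReal_add (by positivity) (by positivity)]
    exact add_le_add hE hE
  rw [Real.volume_Ioo, show 2 * y - y = y by ring] at h1
  have key : ∀ x' : ℝ, |x' - x| ≤ 2 * y → F x' ≤ F (x + ξ) + F (x - ξ) → ∀ η ∈ Ioc 0 y,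
      |Real.log ‖G (x' + η * I)‖ - p| ≤ 60 := by
    intro x' hx' hle η hη
    have h3 := h.lip_seg hy (w := x + y * I) (w' := x' + y * I) (by simp) (by simp)
    rw [add_sub_add_right_eq_sub, ← ofReal_sub, norm_real, Real.norm_eq_abs, ← hp] at h3
    have h4 : |Real.log ‖G (x' + y * I)‖ - p| ≤ 4 :=
      h3.trans (by rw [div_le_iff₀ hy]; linarith)
    have hγ : ∀ r ∈ Ioo 0 (2 * y), HasDerivAt (fun r : ℝ => (x' : ℂ) + r * I) I r := fun r _ => by
      simpa using (((hasDerivAt_id (r : ℂ)).mul_const I).const_add (x' : ℂ)).comp_ofReal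
    have hH : ∀ r ∈ Ioo 0 (2 * y), 0 < ((x' : ℂ) + r * I).im := fun r hr => by simpa using hr.1
    have my : y ∈ Ioo 0 (2 * y) := ⟨hy, by linarith⟩
    have mη : η ∈ Ioo 0 (2 * y) := ⟨hη.1, by linarith [hη.2]⟩
    have n1 := norm_pos_iff.2 (h.ne _ (hH y my))
    have n2 := norm_pos_iff.2 (h.ne _ (hH η mη))
    have fin : ¬ ENNReal.ofReal 56 ≤
        ∫⁻ r in Ioo 0 (2 * y), ‖I‖ₑ * dens G (p - 60) (p + 60) (x' + r * I) := fun hc => by
      simp only [enorm_I', one_mul] at hc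
      have h5 := real_of_sq (by norm_num) (by positivity) hc
        ((mul_le_mul_left hle _).trans (h1.trans h2))
      have h6 := Real.pi_lt_d2
      nlinarith
    rw [abs_le] at h4 ⊢
    constructor
    · by_contra hc
      refine fin (le_trans (le_of_eq ?_) (h.toUniv.cross (A := p - 60) (B := p - 4) hγ hH le_rfl
        (by linarith) mη my ((Real.log_le_iff_le_exp n2).1 (by linarith))
        ((Real.le_log_iff_exp_le n1).1 (by linarith))))
      congr 1; ring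
    · by_contra hc
      refine fin (le_trans (le_of_eq ?_) (h.toUniv.cross (A := p + 4) (B := p + 60) hγ hH
        (by linarith) le_rfl my mη ((Real.log_le_iff_le_exp n1).1 (by linarith))
        ((Real.le_log_iff_exp_le n2).1 (by linarith))))
      congr 1; ring
  exact ⟨ξ, hξ, fun η hη =>
    ⟨key _ (by rw [add_sub_cancel_left, abs_of_pos (hy.trans hξ.1)]; exact hξ.2.le)
      le_self_add η hη,
    key _ (by rw [sub_sub_cancel_left, abs_neg, abs_of_pos (hy.trans hξ.1)]; exact hξ.2.le)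
      le_add_self η hη⟩⟩

/-- OSC: area mean value inequality -/
theorem mean_sq {f : ℂ → ℂ} {c : ℂ} {ρ : ℝ} (hρ : 0 < ρ)
    (hf : DifferentiableOn ℂ f (Metric.ball c (2 * ρ))) {g : ℂ → ℝ≥0∞} (hg : Measurable g)
    (hfg : ∀ w ∈ Metric.ball c (2 * ρ), ‖f w‖ₑ ≤ g w) :
    ENNReal.ofReal ((‖f c‖ * ρ) ^ 2) ≤ ∫⁻ w in Metric.ball c (2 * ρ), g w ^ 2 := by
  have hl := Real.log_two_gt_d9
  have hπ := Real.pi_gt_three
  have hmem : ∀ s ∈ Ioo (Real.log ρ) (Real.log (2 * ρ)), ∀ θ : ℝ,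
      c + exp (s + θ * I) ∈ Metric.ball c (2 * ρ) := fun s hs θ => by
    rw [mem_ball_iff_norm, add_sub_cancel_left, norm_exp_arc]
    exact (Real.lt_log_iff_exp_lt (by positivity)).1 hs.2
  obtain ⟨s, hs, -, h1⟩ := exists_arc (θ1 := 0) (θ2 := 2 * π) (by linarith) hg c
    (X := Ioo (Real.log ρ) (Real.log (2 * ρ))) measurableSet_Ioo
    (by rw [volume_log hρ]; simp; linarith) (by rw [volume_log hρ]; simp)
    (fun s hs θ _ => hmem s hs θ) measure_empty
  rw [volume_log hρ, sub_zero] at h1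
  have h2 : ρ < Real.exp s := (Real.log_lt_iff_lt_exp hρ).1 hs.1
  have h3 : Real.exp s < 2 * ρ := (Real.lt_log_iff_exp_lt (by positivity)).1 hs.2
  have h4 : Real.circleAverage f c (Real.exp s) = f c := by
    have hsub : Metric.closedBall c |Real.exp s| ⊆ Metric.ball c (2 * ρ) :=
      Metric.closedBall_subset_ball (by rwa [abs_of_pos (Real.exp_pos s)])
    exact circleAverage_of_differentiable_on_off_countable countable_empty
      (hf.continuousOn.mono hsub) fun z hz => hf.differentiableAt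
        (Metric.isOpen_ball.mem_nhds (hsub (Metric.ball_subset_closedBall hz.1)))
  have h5 : ENNReal.ofReal (2 * π * (‖f c‖ * ρ)) ≤ ∫⁻ θ in Ioo 0 (2 * π), lg g c (s + θ * I) := by
    have e1 : ∫ θ in Ioo 0 (2 * π), f (c + exp (s + θ * I)) = (2 * π) • f c := by
      rw [← h4, Real.circleAverage_def, smul_smul, mul_inv_cancel₀ (by positivity), one_smul,
        intervalIntegral.integral_of_le (by positivity), integral_Ioc_eq_integral_Ioo]
      simp only [circleMap, exp_add, ofReal_exp]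
    have e2 := enorm_integral_le_lintegral_enorm (μ := volume.restrict (Ioo 0 (2 * π)))
      fun θ : ℝ => f (c + exp (s + θ * I))
    rw [e1, ← ofReal_norm, norm_smul, Real.norm_eq_abs, abs_of_pos (by positivity)] at e2
    calc ENNReal.ofReal (2 * π * (‖f c‖ * ρ))
        = ENNReal.ofReal ρ * ENNReal.ofReal (2 * π * ‖f c‖) := by
          rw [← ENNReal.ofReal_mul hρ.le]; congr 1; ring
      _ ≤ _ := mul_le_mul_right e2 _
      _ ≤ _ := by
          rw [← lintegral_const_mul' _ _ ENNReal.ofReal_ne_top]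
          refine lintegral_mono fun θ => mul_le_mul' ?_ (hfg _ (hmem s hs θ))
          rw [← ofReal_norm, norm_exp_arc]
          exact ENNReal.ofReal_le_ofReal h2.le
  rcases eq_or_ne (∫⁻ w in Metric.ball c (2 * ρ), g w ^ 2) ⊤ with e | e
  · rw [e]; exact le_top
  rw [← ENNReal.ofReal_toReal e] at h1 ⊢
  rw [← ENNReal.ofReal_mul (by positivity)] at h1
  have h6 := real_of_sq (by positivity) (by positivity) h5 h1
  refine ENNReal.ofReal_le_ofReal (le_of_mul_le_mul_left (le_trans ?_ h6) (by positivity))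
  have h7 : 1 ≤ 2 * π * Real.log 2 := by nlinarith
  calc 2 * π * (‖f c‖ * ρ) ^ 2 = 2 * π * (‖f c‖ * ρ) ^ 2 * 1 := by ring
    _ ≤ 2 * π * (‖f c‖ * ρ) ^ 2 * (2 * π * Real.log 2) := by gcongr
    _ = _ := by ring

end Pool.Agent.MP_990230_pr.K8

end
end MrgPart2

-- ======== part 3: formerly Pool.Agent.MP_990230_pr.k8.Meas
section MrgPart3

/-! # SLE8 frame: measurability on the path space, past and future of a concatenation -/

open Set MeasureTheory Filter Complex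
open scoped ENNReal NNReal Topology

noncomputable section

namespace Pool.Agent.MP_990230_pr.K8

variable {a : ℝ}

theorem meas_Zt_ups (ha : 0 < a) (z : ℂ) {t : ℝ} (ht : 0 ≤ t) :
    Measurable (fun u : Pth => Zt a u.1 z t) ∧ Measurable (fun u : Pth => ups a u.1 z t) := by
  borelize C(Icc (0 : ℝ) t, ℝ)
  let Φ : Pth → C(Icc (0 : ℝ) t, ℝ) := fun u => ⟨fun s => u.1 s, u.cont.comp continuous_subtype_val⟩
  have hΦ : Measurable Φ := MeasA.measurable_cm fun s => measurable_ev _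
  have e : ∀ u : Pth, _ := fun u => MeasA.congr_drv loeA_stmt ha u.cont (MeasA.ext_cont ht (Φ u)) z ht
    fun s hs => by simp [MeasA.ext, Φ, projIcc_of_mem ht hs]
  obtain ⟨h1, h2⟩ := MeasA.meas_ext clip_stmt loeA_stmt ha z ht
  simp only [fun u => (e u).1, fun u => (e u).2]
  exact ⟨h1.comp hΦ, h2.comp hΦ⟩

theorem measurable_Zt (ha : 0 < a) (z : ℂ) {t : ℝ} (ht : 0 ≤ t) :
    Measurable (fun u : Pth => Zt a u.1 z t) := (meas_Zt_ups ha z ht).1

theorem measurable_ups (ha : 0 < a) (z : ℂ) {t : ℝ} (ht : 0 ≤ t) :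
    Measurable (fun u : Pth => ups a u.1 z t) := (meas_Zt_ups ha z ht).2

theorem measurableSet_alive (ha : 0 < a) (z : ℂ) {t : ℝ} (ht : 0 ≤ t) :
    MeasurableSet {u : Pth | Alive a u.1 z t} := by
  simp only [← LoeAM.ups_pos_iff]
  exact measurableSet_lt measurable_const (measurable_ups ha z ht)

/-- the rational points of the plane. -/
def qpt (q : ℚ × ℚ) : ℂ := ⟨q.1, q.2⟩

theorem exists_qpt (z : ℂ) {ε : ℝ} (hε : 0 < ε) : ∃ q, ‖qpt q - z‖ < ε := by
  obtain ⟨x, hx⟩ := exists_rat_near z.re (half_pos hε)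
  obtain ⟨y, hy⟩ := exists_rat_near z.im (half_pos hε)
  refine ⟨(x, y), (norm_le_abs_re_add_abs_im _).trans_lt ?_⟩
  simp only [qpt, sub_re, sub_im]
  rw [abs_sub_comm] at hx hy
  linarith

theorem exists_qpt_nhds {z : ℂ} {S : Set ℂ} (hS : S ∈ 𝓝 z) : ∃ q, qpt q ∈ S := by
  obtain ⟨ε, hε, h⟩ := Metric.mem_nhds_iff.1 hS
  obtain ⟨q, hq⟩ := exists_qpt z hε
  exact ⟨q, h (mem_ball_iff_norm.2 hq)⟩

theorem measurableSet_alive2 (ha : 0 < a) {t : ℝ} (ht : 0 ≤ t) :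
    MeasurableSet {p : Pth × ℂ | Alive a p.1.1 p.2 t} := by
  have e : {p : Pth × ℂ | Alive a p.1.1 p.2 t} =
      ⋃ q, {p : Pth × ℂ | 4 * ‖qpt q - p.2‖ < ups a p.1.1 (qpt q) t} := by
    ext ⟨u, z⟩
    simp only [mem_ofPred_eq, mem_iUnion]
    refine ⟨fun h => ?_, fun ⟨q, hq⟩ => alive_of_near ha u.cont ht
      ((LoeAM.ups_pos_iff _ _).1 (lt_of_le_of_lt (by positivity) hq)) hq⟩
    obtain ⟨q, hq⟩ := exists_qpt z (ε := ups a u.1 z t / 40) (by linarith [ups_pos h])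
    refine ⟨q, ?_⟩
    have := ups_lip ha u.cont ht (z := qpt q) h
    rw [norm_sub_rev] at this
    linarith [ups_pos h]
  rw [e]
  exact MeasurableSet.iUnion fun q => measurableSet_lt (by fun_prop)
    ((measurable_ups ha _ ht).comp measurable_fst)

/-- measurable in the first variable and continuous in the second gives jointly measurable. -/
theorem measurable_joint {Ω β : Type*} [MeasurableSpace Ω] [MeasurableSpace β] [TopologicalSpace β]
    [TopologicalSpace.PseudoMetrizableSpace β] [BorelSpace β] {f : Ω → ℂ → β} {O : Set (Ω × ℂ)}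
    (hO : MeasurableSet O) (hm : ∀ z, Measurable (fun ω => f ω z))
    (hc : ∀ p ∈ O, ContinuousAt (f p.1) p.2) {b : β} (h0 : ∀ p, p ∉ O → f p.1 p.2 = b) :
    Measurable (fun p : Ω × ℂ => f p.1 p.2) := by
  classical
  let q : ℕ → SimpleFunc ℂ ℂ := SimpleFunc.approxOn id measurable_id univ 0 (mem_univ _)
  have hq : ∀ z, Tendsto (fun n => q n z) atTop (𝓝 z) := fun z =>
    SimpleFunc.tendsto_approxOn measurable_id (mem_univ _) (by simp)
  refine measurable_of_tendsto_metrizable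
    (f := fun n => O.piecewise (fun p => f p.1 (q n p.2)) fun _ => b) (fun n => ?_)
    (tendsto_pi_nhds.2 fun p => ?_)
  · exact Measurable.piecewise hO (SimpleFunc.measurable_bind ((q n).comp Prod.snd measurable_snd)
      (fun z p => f p.1 z) fun z => (hm z).comp measurable_fst) measurable_const
  · by_cases hp : p ∈ O
    · simp only [piecewise_eq_of_mem _ _ _ hp]
      exact (hc p hp).tendsto.comp (hq p.2)
    · simp only [piecewise_eq_of_notMem _ _ _ hp, h0 p hp]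
      exact tendsto_const_nhds

theorem measurable_Zt2 (ha : 0 < a) {t : ℝ} (ht : 0 ≤ t) :
    Measurable (fun p : Pth × ℂ => Zt a p.1.1 p.2 t) :=
  measurable_joint (f := fun (u : Pth) z => Zt a u.1 z t) (measurableSet_alive2 ha ht)
    (fun z => measurable_Zt ha z ht) (fun p hp => Zt_continuousAt ha p.1.cont ht hp)
    fun _ hp => Zt_dead hp

theorem ups_continuousAt {U : ℝ → ℝ} (ha : 0 < a) (hU : Continuous U) {t : ℝ} (ht : 0 ≤ t) {z : ℂ}
    (hz : Alive a U z t) : ContinuousAt (fun w => ups a U w t) z := by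
  have ho := (isOpen_alive ha hU ht).mem_nhds hz
  have h1 := ((Zt_differentiableOn ha hU ht).analyticAt ho).deriv.continuousAt
  have key : ∀ w, Alive a U w t → ‖deriv (fun w => Zt a U w t) w‖ ≠ 0 ∧
      ups a U w t = (Zt a U w t).im / ‖deriv (fun w => Zt a U w t) w‖ := by
    intro w hw
    obtain ⟨d, hd, hn⟩ := Zt_hasDerivAt ha hU ht hw
    have h2 := Zt_im_pos hU ht hw
    have h3 := ups_pos hw
    rw [hd.deriv, hn]
    exact ⟨by positivity, by field_simp⟩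
  refine ContinuousAt.congr (((continuous_im.continuousAt.comp (Zt_continuousAt ha hU ht hz))).div
    h1.norm (key z hz).1) ?_
  filter_upwards [ho] with w hw using (key w hw).2.symm

theorem measurable_ups2 (ha : 0 < a) {t : ℝ} (ht : 0 ≤ t) :
    Measurable (fun p : Pth × ℂ => ups a p.1.1 p.2 t) :=
  measurable_joint (f := fun (u : Pth) z => ups a u.1 z t) (measurableSet_alive2 ha ht)
    (fun z => measurable_ups ha z ht) (fun p hp => ups_continuousAt ha p.1.cont ht hp)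
    fun _ hp => LoeAM.ups_of_dead hp

theorem Fm_of_nonpos {U : ℝ → ℝ} (hU : Continuous U) {t : ℝ} (ht : 0 ≤ t) {w : ℂ}
    (hw : ¬ 0 < w.im) : Fm a U t w = 0 :=
  dif_neg fun ⟨_, hz, e⟩ => hw (e ▸ Zt_im_pos hU ht hz)

theorem measurable_Fm (ha : 0 < a) (w : ℂ) {t : ℝ} (ht : 0 ≤ t) :
    Measurable (fun u : Pth => Fm a u.1 t w) := by
  by_cases hw : 0 < w.im
  swap
  · simp only [fun u : Pth => Fm_of_nonpos (a := a) u.cont ht hw]
    exact measurable_const
  have key : ∀ φ : ℂ → ℝ, Continuous φ → Measurable (fun u : Pth => φ (Fm a u.1 t w)) := by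
    intro φ hφ
    refine measurable_of_Iic fun r => ?_
    have e : (fun u : Pth => φ (Fm a u.1 t w)) ⁻¹' Iic r = ⋂ n : ℕ, ⋃ q,
        {u : Pth | φ (qpt q) < r + 1 / (n + 1)} ∩ ({u : Pth | Alive a u.1 (qpt q) t} ∩
          {u : Pth | ‖Zt a u.1 (qpt q) t - w‖ < 1 / (n + 1)}) := by
      ext u
      simp only [mem_preimage, mem_Iic, mem_iInter, mem_iUnion, mem_inter_iff, mem_ofPred_eq]
      obtain ⟨hz, ez⟩ := Fm_spec ha u.cont ht hw
      constructor
      · intro h n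
        have p : (0 : ℝ) < 1 / (n + 1) := Nat.one_div_pos_of_nat
        have h1 : ∀ᶠ x in 𝓝 (Fm a u.1 t w), φ x < r + 1 / (n + 1) :=
          hφ.continuousAt.eventually_lt_const (by linarith)
        have h2 : ∀ᶠ x in 𝓝 (Fm a u.1 t w), ‖Zt a u.1 x t - w‖ < 1 / (n + 1) :=
          ((Zt_continuousAt ha u.cont ht hz).sub_const w).norm.eventually_lt_const
            (by simpa [ez] using p)
        exact exists_qpt_nhds (h1.and (Eventually.and ((isOpen_alive ha u.cont ht).mem_nhds hz) h2))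
      · intro h
        choose q h1 h2 h3 using h
        have t0 := tendsto_one_div_add_atTop_nhds_zero_nat (𝕜 := ℝ)
        have t1 : Tendsto (fun n => Zt a u.1 (qpt (q n)) t) atTop (𝓝 w) :=
          tendsto_iff_norm_sub_tendsto_zero.2
            (squeeze_zero (fun _ => norm_nonneg _) (fun n => (h3 n).le) t0)
        have t2 := (hφ.continuousAt.comp (Fm_continuousAt ha u.cont ht hw)).tendsto.comp t1
        simp only [Function.comp_def, Fm_Zt ha u.cont ht (h2 _)] at t2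
        have t3 := t0.const_add r
        rw [add_zero] at t3
        exact le_of_tendsto_of_tendsto' t2 t3 fun n => (h1 n).le
    rw [e]
    exact MeasurableSet.iInter fun n => MeasurableSet.iUnion fun q => (MeasurableSet.const _).inter
      ((measurableSet_alive ha _ ht).inter
        (measurableSet_lt ((measurable_Zt ha _ ht).sub_const w).norm measurable_const))
  exact measurable_of_re_im (key _ continuous_re) (key _ continuous_im)

theorem measurable_Fm2 (ha : 0 < a) {t : ℝ} (ht : 0 ≤ t) :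
    Measurable (fun p : Pth × ℂ => Fm a p.1.1 t p.2) :=
  measurable_joint (f := fun (u : Pth) w => Fm a u.1 t w) (O := {p | 0 < p.2.im})
    (measurableSet_lt measurable_const (measurable_im.comp measurable_snd))
    (fun w => measurable_Fm ha w ht) (fun p hp => Fm_continuousAt ha p.1.cont ht hp)
    fun p hp => Fm_of_nonpos p.1.cont ht hp

/-! ## the past -/

theorem past_congr (ha : 0 < a) {u u' : Pth} {s : ℝ} (hs : 0 ≤ s) (h : ∀ r, r ≤ s → u.1 r = u'.1 r)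
    (z : ℂ) : (Alive a u.1 z s ↔ Alive a u'.1 z s) ∧ Zt a u.1 z s = Zt a u'.1 z s ∧
      ups a u.1 z s = ups a u'.1 z s ∧ Fm a u.1 s z = Fm a u'.1 s z :=
  drv_congr ha u.cont u'.cont hs (fun r hr => h r hr.2) z

theorem alive_cat_le (ha : 0 < a) {s t : ℝ} (hs : 0 ≤ s) (hst : s ≤ t) (u v : Pth) (z : ℂ) :
    Alive a (cat t u v).1 z s ↔ Alive a u.1 z s :=
  (past_congr ha hs (fun _ hr => cat_le u v (hr.trans hst)) z).1

theorem Zt_cat_le (ha : 0 < a) {s t : ℝ} (hs : 0 ≤ s) (hst : s ≤ t) (u v : Pth) (z : ℂ) :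
    Zt a (cat t u v).1 z s = Zt a u.1 z s :=
  (past_congr ha hs (fun _ hr => cat_le u v (hr.trans hst)) z).2.1

theorem ups_cat_le (ha : 0 < a) {s t : ℝ} (hs : 0 ≤ s) (hst : s ≤ t) (u v : Pth) (z : ℂ) :
    ups a (cat t u v).1 z s = ups a u.1 z s :=
  (past_congr ha hs (fun _ hr => cat_le u v (hr.trans hst)) z).2.2.1

theorem Fm_cat_le (ha : 0 < a) {s t : ℝ} (hs : 0 ≤ s) (hst : s ≤ t) (u v : Pth) (w : ℂ) :
    Fm a (cat t u v).1 s w = Fm a u.1 s w :=
  (past_congr ha hs (fun _ hr => cat_le u v (hr.trans hst)) w).2.2.2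

theorem adapted_Zt (ha : 0 < a) (z : ℂ) {s t : ℝ} (hs : 0 ≤ s) (hst : s ≤ t) :
    Measurable[Fc t] (fun u : Pth => Zt a u.1 z s) :=
  measurable_Fc (measurable_Zt ha z hs) fun u =>
    (past_congr ha hs (fun _ hr => stp_le u (hr.trans hst)) z).2.1

theorem adapted_ups (ha : 0 < a) (z : ℂ) {s t : ℝ} (hs : 0 ≤ s) (hst : s ≤ t) :
    Measurable[Fc t] (fun u : Pth => ups a u.1 z s) :=
  measurable_Fc (measurable_ups ha z hs) fun u =>
    (past_congr ha hs (fun _ hr => stp_le u (hr.trans hst)) z).2.2.1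

theorem adapted_alive (ha : 0 < a) (z : ℂ) {s t : ℝ} (hs : 0 ≤ s) (hst : s ≤ t) :
    MeasurableSet[Fc t] {u : Pth | Alive a u.1 z s} := by
  simp only [← LoeAM.ups_pos_iff]
  exact adapted_ups ha z hs hst measurableSet_Ioi

theorem adapted_ev {s t : ℝ} (hst : s ≤ t) : Measurable[Fc t] (fun u : Pth => u.1 s) :=
  measurable_Fc (measurable_ev s) fun u => stp_le u hst

/-! ## the future -/

theorem cat_drv {s : ℝ} (hs : 0 ≤ s) (u v : Pth) (t : ℝ) :
    ∀ r ∈ Icc 0 t, v.1 r = (cat s u v).1 (s + r) - (cat s u v).1 s := fun r hr => by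
  rw [cat_add u v hs hr.1, cat_le u v le_rfl]; ring

theorem alive_cat (ha : 0 < a) {s t : ℝ} (hs : 0 ≤ s) (ht : 0 ≤ t) (u v : Pth) {z : ℂ}
    (hz : Alive a u.1 z s) : Alive a (cat s u v).1 z (s + t) ↔ Alive a v.1 (Zt a u.1 z s) t := by
  rw [alive_shift ha (cat s u v).cont v.cont hs ht (cat_drv hs u v t)
    ((alive_cat_le ha hs le_rfl u v z).2 hz), Zt_cat_le ha hs le_rfl]

theorem Zt_cat (ha : 0 < a) {s t : ℝ} (hs : 0 ≤ s) (ht : 0 ≤ t) (u v : Pth) {z : ℂ}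
    (hz : Alive a (cat s u v).1 z (s + t)) :
    Zt a (cat s u v).1 z (s + t) = Zt a v.1 (Zt a u.1 z s) t := by
  rw [← Zt_shift (cat s u v).cont v.cont hs ht (cat_drv hs u v t) hz, Zt_cat_le ha hs le_rfl]

theorem Fm_cat (ha : 0 < a) {s t : ℝ} (hs : 0 ≤ s) (ht : 0 ≤ t) (u v : Pth) {w : ℂ}
    (hw : 0 < w.im) : Fm a (cat s u v).1 (s + t) w = Fm a u.1 s (Fm a v.1 t w) := by
  rw [Fm_shift ha (cat s u v).cont v.cont hs ht (cat_drv hs u v t) hw, Fm_cat_le ha hs le_rfl]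

theorem ups_cat (ha : 0 < a) {s t : ℝ} (hs : 0 ≤ s) (ht : 0 ≤ t) (u v : Pth) {z : ℂ}
    (hz : Alive a (cat s u v).1 z (s + t)) : ups a (cat s u v).1 z (s + t) =
      ups a u.1 z s / (Zt a u.1 z s).im * ups a v.1 (Zt a u.1 z s) t := by
  rw [ups_shift (cat s u v).cont v.cont hs ht (cat_drv hs u v t) hz, Zt_cat_le ha hs le_rfl,
    ups_cat_le ha hs le_rfl]

theorem Zt_zero (u : Pth) {z : ℂ} (hz : 0 < z.im) :
    Alive a u.1 z 0 ∧ Zt a u.1 z 0 = z ∧ ups a u.1 z 0 = z.im := by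
  have := LoeAM.init (a := a) u.cont z hz
  rwa [u.zero, ofReal_zero, sub_zero] at this

end Pool.Agent.MP_990230_pr.K8

end
end MrgPart3

-- marker of a merged file
example : 731051 + 621767 = 731051 + 621767 := rfl
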