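import Pool.Agent.MP_990230_pr.k8.SH2
import Pool.Agent.MP_990230_pr.Asm
import Mathlib.Order.Interval.Finset.Box
import Pool.Agent.MP_990230_pr.k8.GeoDefs
import Pool.Agent.MP_990230_pr.k8.Meas

-- ======== part 0: formerly Pool.Agent.MP_990230_pr.k8.AP
section MrgPart0

-- ======== part 0: formerly Pool.Agent.MP_990230_pr.k8.Gen
section MrgPart0

/-! # SLE8 frame: generator calculus for adapted processes on the path space -/

open Set MeasureTheory Filter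
open scoped ENNReal NNReal Topology

noncomputable section

namespace Pool.Agent.MP_990230_pr.K8

/-- adapted real processes. -/
def Ad (f : Pth → ℝ → ℝ) : Prop := ∀ t, 0 ≤ t → Measurable[Fc t] (fun u => f u t)

/-- while `Ok` holds, `dN = A dU + L dt` in the sense of the pathwise second-order expansion. -/
def Gen (Ok : Pth → ℝ → Prop) (N A L : Pth → ℝ → ℝ) : Prop :=
  Ad N ∧ Ad A ∧ ∃ B D : Pth → ℝ → ℝ, Ad B ∧ ∀ u t, 0 ≤ t → Ok u t →
    Ito u.1 0 t (N u) (A u) (B u) (D u) ∧ ∀ s ∈ Icc 0 t, D u s + B u s / 2 = L u s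

theorem SR (u : Pth) (t : ℝ) : StepRules u.1 0 t := step_stmt u.1 0 t u.cont.continuousOn

theorem Ad.const (c : ℝ) : Ad (fun _ _ => c) := fun _ _ => measurable_const

theorem Ad.time : Ad (fun _ t => t) := fun _ _ => measurable_const

theorem Ad.drv : Ad (fun u t => u.1 t) := fun _ _ => adapted_ev le_rfl

theorem Ad.add {f g : Pth → ℝ → ℝ} (hf : Ad f) (hg : Ad g) : Ad (fun u t => f u t + g u t) :=
  fun t ht => (hf t ht).add (hg t ht)

theorem Ad.mul {f g : Pth → ℝ → ℝ} (hf : Ad f) (hg : Ad g) : Ad (fun u t => f u t * g u t) :=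
  fun t ht => (hf t ht).mul (hg t ht)

theorem Ad.comp {f : Pth → ℝ → ℝ} (hf : Ad f) {φ : ℝ → ℝ} (hφ : Measurable φ) :
    Ad (fun u t => φ (f u t)) := fun t ht => hφ.comp (hf t ht)

theorem Ad.Z {a : ℝ} (ha : 0 < a) (z : ℂ) {φ : ℂ → ℝ} (hφ : Measurable φ) :
    Ad (fun u t => φ (Zt a u.1 z t)) := fun _ ht => hφ.comp (adapted_Zt ha z ht le_rfl)

theorem Ad.ups {a : ℝ} (ha : 0 < a) (z : ℂ) : Ad (fun u t => ups a u.1 z t) :=
  fun _ ht => adapted_ups ha z ht le_rfl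

theorem Ad.X (a x : ℝ) : Ad (fun u t => Xt a u.1 x t) := fun _ ht => adapted_Xt a x ht le_rfl

@[fun_prop] theorem meas_pR : Measurable pR :=
  Complex.measurable_re.div Complex.continuous_normSq.measurable

@[fun_prop] theorem meas_sI : Measurable sI :=
  Complex.measurable_im.div Complex.continuous_normSq.measurable

@[fun_prop] theorem meas_sinA : Measurable sinA := Complex.measurable_im.div measurable_norm

variable {Ok Ok' : Pth → ℝ → Prop} {N A L N' A' L' : Pth → ℝ → ℝ}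

theorem Gen.weaken (h : Gen Ok N A L) (hO : ∀ u t, 0 ≤ t → Ok' u t → Ok u t) : Gen Ok' N A L := by
  obtain ⟨h1, h2, B, D, h3, h4⟩ := h
  exact ⟨h1, h2, B, D, h3, fun u t ht hu => h4 u t ht (hO u t ht hu)⟩

theorem Gen.cont (h : Gen Ok N A L) (u : Pth) (t : ℝ) (ht : 0 ≤ t) (hu : Ok u t) :
    ContinuousOn (N u) (Icc 0 t) := by
  obtain ⟨-, -, B, D, -, h4⟩ := h
  exact (h4 u t ht hu).1.1.cont

theorem Gen.congr (h : Gen Ok N A L) (hN : Ad N') (hA : Ad A')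
    (e : ∀ u t, 0 ≤ t → Ok u t → ∀ s ∈ Icc 0 t, N u s = N' u s ∧ A u s = A' u s ∧ L u s = L' u s) :
    Gen Ok N' A' L' := by
  obtain ⟨-, -, B, D, h3, h4⟩ := h
  refine ⟨hN, hA, B, D, h3, fun u t ht hu => ⟨(SR u t).ito_congr _ _ _ _ _ _ _ _ (h4 u t ht hu).1
    (fun s hs => (e u t ht hu s hs).1) (fun s hs => (e u t ht hu s hs).2.1) (fun _ _ => rfl)
    (fun _ _ => rfl), fun s hs => ((h4 u t ht hu).2 s hs).trans (e u t ht hu s hs).2.2⟩⟩

theorem Gen.const (c : ℝ) : Gen Ok (fun _ _ => c) (fun _ _ => 0) (fun _ _ => 0) :=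
  ⟨Ad.const _, Ad.const _, fun _ _ => 0, fun _ _ => 0, Ad.const _,
    fun u t _ _ => ⟨(SR u t).const c, fun _ _ => by simp⟩⟩

theorem Gen.drv : Gen Ok (fun u t => u.1 t) (fun _ _ => 1) (fun _ _ => 0) :=
  ⟨Ad.drv, Ad.const _, fun _ _ => 0, fun _ _ => 0, Ad.const _,
    fun u t _ _ => ⟨(SR u t).drv, fun _ _ => by simp⟩⟩

/-- a process of finite variation with a continuous derivative. -/
theorem Gen.of_deriv (hN : Ad N) (h : ∀ u t, 0 ≤ t → Ok u t →
    (∀ s ∈ Icc 0 t, HasDerivWithinAt (N u) (L u s) (Icc 0 t) s) ∧ ContinuousOn (L u) (Icc 0 t)) :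
    Gen Ok N (fun _ _ => 0) L :=
  ⟨hN, Ad.const _, fun _ _ => 0, L, Ad.const _, fun u t ht hu =>
    ⟨(SR u t).of_deriv _ _ (h u t ht hu).1 (h u t ht hu).2, fun _ _ => by simp⟩⟩

theorem Gen.time : Gen Ok (fun _ t => t) (fun _ _ => 0) (fun _ _ => 1) :=
  Gen.of_deriv Ad.time fun _ _ _ _ => ⟨fun _ _ => hasDerivWithinAt_id _ _, continuousOn_const⟩

theorem Gen.add (h : Gen Ok N A L) (h' : Gen Ok N' A' L') :
    Gen Ok (fun u t => N u t + N' u t) (fun u t => A u t + A' u t) (fun u t => L u t + L' u t) := by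
  obtain ⟨h1, h2, B, D, h3, h4⟩ := h
  obtain ⟨k1, k2, B', D', k3, k4⟩ := h'
  refine ⟨h1.add k1, h2.add k2, fun u t => B u t + B' u t, fun u t => D u t + D' u t, h3.add k3,
    fun u t ht hu => ⟨(SR u t).ito_add _ _ _ _ _ _ _ _ (h4 u t ht hu).1 (k4 u t ht hu).1,
      fun s hs => ?_⟩⟩
  linarith [(h4 u t ht hu).2 s hs, (k4 u t ht hu).2 s hs]

theorem Gen.smul (c : ℝ) (h : Gen Ok N A L) :
    Gen Ok (fun u t => c * N u t) (fun u t => c * A u t) (fun u t => c * L u t) := by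
  obtain ⟨h1, h2, B, D, h3, h4⟩ := h
  refine ⟨(Ad.const c).mul h1, (Ad.const c).mul h2, fun u t => c * B u t, fun u t => c * D u t,
    (Ad.const c).mul h3, fun u t ht hu => ⟨(SR u t).ito_smul c _ _ _ _ (h4 u t ht hu).1,
      fun s hs => ?_⟩⟩
  simp only [← (h4 u t ht hu).2 s hs]; ring

theorem Gen.mul (h : Gen Ok N A L) (h' : Gen Ok N' A' L') :
    Gen Ok (fun u t => N u t * N' u t) (fun u t => A u t * N' u t + N u t * A' u t)
      (fun u t => L u t * N' u t + N u t * L' u t + A u t * A' u t) := by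
  obtain ⟨h1, h2, B, D, h3, h4⟩ := h
  obtain ⟨k1, k2, B', D', k3, k4⟩ := h'
  refine ⟨h1.mul k1, (h2.mul k1).add (h1.mul k2),
    fun u t => B u t * N' u t + 2 * A u t * A' u t + N u t * B' u t,
    fun u t => D u t * N' u t + N u t * D' u t,
    ((h3.mul k1).add (((Ad.const 2).mul h2).mul k2)).add (h1.mul k3),
    fun u t ht hu => ⟨(SR u t).ito_mul _ _ _ _ _ _ _ _ (h4 u t ht hu).1 (k4 u t ht hu).1,
      fun s hs => ?_⟩⟩
  simp only [← (h4 u t ht hu).2 s hs, ← (k4 u t ht hu).2 s hs]; ring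

theorem Gen.comp (h : Gen Ok N A L) {φ φ1 φ2 : ℝ → ℝ} {S : Set ℝ} (m : Measurable φ)
    (m1 : Measurable φ1) (m2 : Measurable φ2) (hS : IsOpen S) (hS' : S.OrdConnected)
    (hN : ∀ u t, 0 ≤ t → Ok u t → MapsTo (N u) (Icc 0 t) S) (d1 : ∀ x ∈ S, HasDerivAt φ (φ1 x) x)
    (d2 : ∀ x ∈ S, HasDerivAt φ1 (φ2 x) x) (c2 : ContinuousOn φ2 S) :
    Gen Ok (fun u t => φ (N u t)) (fun u t => φ1 (N u t) * A u t)
      (fun u t => φ1 (N u t) * L u t + φ2 (N u t) * A u t ^ 2 / 2) := by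
  obtain ⟨h1, h2, B, D, h3, h4⟩ := h
  refine ⟨h1.comp m, (h1.comp m1).mul h2, fun u t => φ1 (N u t) * B u t + φ2 (N u t) * A u t ^ 2,
    fun u t => φ1 (N u t) * D u t,
    ((h1.comp m1).mul h3).add ((h1.comp m2).mul (h2.comp (φ := fun x => x ^ 2) (by fun_prop))),
    fun u t ht hu => ⟨(SR u t).ito_comp _ _ _ _ φ φ1 φ2 S (h4 u t ht hu).1 hS hS' (hN u t ht hu)
      d1 d2 c2, fun s hs => ?_⟩⟩
  simp only [← (h4 u t ht hu).2 s hs]; ring

theorem Gen.exp (h : Gen Ok N A L) : Gen Ok (fun u t => Real.exp (N u t))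
    (fun u t => Real.exp (N u t) * A u t)
    (fun u t => Real.exp (N u t) * L u t + Real.exp (N u t) * A u t ^ 2 / 2) :=
  h.comp (S := univ) Real.measurable_exp Real.measurable_exp Real.measurable_exp isOpen_univ
    ordConnected_univ (fun _ _ _ _ => mapsTo_univ _ _) (fun x _ => Real.hasDerivAt_exp x)
    (fun x _ => Real.hasDerivAt_exp x) Real.continuous_exp.continuousOn

theorem Gen.log (h : Gen Ok N A L) (hN : ∀ u t, 0 ≤ t → Ok u t → ∀ s ∈ Icc 0 t, 0 < N u s) :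
    Gen Ok (fun u t => Real.log (N u t)) (fun u t => (N u t)⁻¹ * A u t)
      (fun u t => (N u t)⁻¹ * L u t + -(N u t ^ 2)⁻¹ * A u t ^ 2 / 2) :=
  h.comp (S := Ioi 0) (φ1 := fun x => x⁻¹) (φ2 := fun x => -(x ^ 2)⁻¹) Real.measurable_log
    (by fun_prop) (by fun_prop) isOpen_Ioi ordConnected_Ioi hN
    (fun _ hx => Real.hasDerivAt_log (ne_of_gt hx)) (fun _ hx => hasDerivAt_inv (ne_of_gt hx))
    ((continuousOn_id.pow 2).inv₀ fun _ hx => pow_ne_zero 2 (ne_of_gt hx)).neg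

/-- the maximal inequality for a nonnegative process with nonpositive generator. -/
theorem Gen.max {μ : Measure Pth} (hμ : IsW μ) (hO : Watch Ok) (h : Gen Ok N A L)
    (hL : ∀ u t, 0 ≤ t → Ok u t → 0 ≤ N u t ∧ L u t ≤ 0) {c lam : ℝ}
    (h0 : ∀ u, Ok u 0 → N u 0 ≤ c) (hl : 0 < lam) :
    μ {u | ∃ t, 0 ≤ t ∧ Ok u t ∧ lam < N u t} ≤ ENNReal.ofReal (c / lam) := by
  obtain ⟨h1, h2, B, D, h3, h4⟩ := h
  refine max_ineq hμ hO (fun t ht => ⟨h1 t ht, h2 t ht, h3 t ht⟩) (fun u t ht hu =>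
    ⟨D u, (h4 u t ht hu).1.1, fun s hs => ?_⟩) h0 hl
  have := hL u s hs.1 (hO.mono u s t hs.1 hs.2 hu)
  exact ⟨this.1, ((h4 u t ht hu).2 s hs).trans_le this.2⟩

/-- the same when the generator is nonpositive only while `N < 2 lam`. -/
theorem Gen.max_stop {μ : Measure Pth} (hμ : IsW μ) (hO : Watch Ok) (h : Gen Ok N A L) {c lam : ℝ}
    (hL : ∀ u t, 0 ≤ t → Ok u t → 0 ≤ N u t ∧ (N u t < 2 * lam → L u t ≤ 0))
    (h0 : ∀ u, Ok u 0 → N u 0 ≤ c) (hl : 0 < lam) :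
    μ {u | ∃ t, 0 ≤ t ∧ Ok u t ∧ lam < N u t} ≤ ENNReal.ofReal (c / lam) := by
  have := hμ.prob
  rcases le_or_gt lam c with hc | hc
  · exact prob_le_one.trans (ENNReal.one_le_ofReal.2 ((one_le_div hl).2 hc))
  have hO' := hO.pos (φ := fun u t => 2 * lam - N u t)
    (fun t ht => measurable_const.sub (h.1 t ht))
    (fun u t ht hu => continuousOn_const.sub (h.cont u t ht hu))
  refine le_trans (measure_mono ?_) (Gen.max hμ hO' (h.weaken fun _ _ _ hu => hu.1)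
    (fun u t ht hu => ⟨(hL u t ht hu.1).1, (hL u t ht hu.1).2 (by linarith [hu.2 t ⟨ht, le_rfl⟩])⟩)
    (fun u hu => h0 u hu.1) hl)
  rintro u ⟨t, ht, hu, h1⟩
  by_cases hall : ∀ s ∈ Icc 0 t, 0 < 2 * lam - N u s
  · exact ⟨t, ht, ⟨hu, hall⟩, h1⟩
  push Not at hall
  obtain ⟨s1, hs1, h2⟩ := hall
  have hc' := h.cont u t ht hu
  have k1 : IsClosed (Icc 0 t ∩ N u ⁻¹' Ici (3 / 2 * lam)) :=
    hc'.preimage_isClosed_of_isClosed isClosed_Icc isClosed_Ici
  obtain ⟨s0, hs0, hmin⟩ := (isCompact_Icc.of_isClosed_subset k1 inter_subset_left).exists_isLeast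
    ⟨s1, hs1, show 3 / 2 * lam ≤ N u s1 by linarith⟩
  have k2 : 3 / 2 * lam ≤ N u s0 := hs0.2
  refine ⟨s0, hs0.1.1, ⟨hO.mono u _ _ hs0.1.1 hs0.1.2 hu, fun s hs => ?_⟩, by linarith⟩
  by_contra hn
  have k3 := h0 u (hO.mono u 0 t le_rfl ht hu)
  obtain ⟨r, hr, e⟩ := intermediate_value_Icc hs.1
    (hc'.mono (Icc_subset_Icc_right (hs.2.trans hs0.1.2)))
    (show 3 / 2 * lam ∈ Icc (N u 0) (N u s) from ⟨by linarith, by linarith⟩)
  have k4 : s0 ≤ r := hmin ⟨⟨hr.1, hr.2.trans (hs.2.trans hs0.1.2)⟩, le_of_eq e.symm⟩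
  rw [le_antisymm hr.2 (hs.2.trans k4)] at e
  linarith

/-! ## the basic Loewner quantities -/

variable {a : ℝ}

theorem JR (a : ℝ) (u : Pth) {z : ℂ} {t : ℝ} (h : Alive a u.1 z t) :
    JetRules a u.1 0 t (Zt a u.1 z) (ups a u.1 z) :=
  jet_stmt step_stmt a u.1 0 t _ _ u.cont.continuousOn (LoeAM.flow u.cont z 0 t le_rfl h)

theorem gen_logNorm (ha : 0 < a) (z : ℂ) : Gen (fun u t => Alive a u.1 z t)
    (fun u t => Real.log ‖Zt a u.1 z t‖) (fun u t => -pR (Zt a u.1 z t))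
    (fun u t => (a - 1 / 2) * (pR (Zt a u.1 z t) ^ 2 - sI (Zt a u.1 z t) ^ 2)) :=
  ⟨Ad.Z ha z (φ := fun Z => Real.log ‖Z‖) (by fun_prop), Ad.Z ha z (φ := fun Z => -pR Z) (by fun_prop),
    _, _, Ad.Z ha z (φ := fun Z => -(pR Z ^ 2 - sI Z ^ 2)) (by fun_prop),
    fun u _ _ h => ⟨(JR a u h).logNorm, fun _ _ => by ring⟩⟩

theorem gen_logIm (ha : 0 < a) (z : ℂ) : Gen (fun u t => Alive a u.1 z t)
    (fun u t => Real.log (Zt a u.1 z t).im) (fun _ _ => 0)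
    (fun u t => -a * (pR (Zt a u.1 z t) ^ 2 + sI (Zt a u.1 z t) ^ 2)) :=
  ⟨Ad.Z ha z (φ := fun Z => Real.log Z.im) (by fun_prop), Ad.const _, _, _, Ad.const 0,
    fun u _ _ h => ⟨(JR a u h).logIm, fun _ _ => by ring⟩⟩

theorem gen_logUps (ha : 0 < a) (z : ℂ) : Gen (fun u t => Alive a u.1 z t)
    (fun u t => Real.log (ups a u.1 z t)) (fun _ _ => 0)
    (fun u t => -(2 * a) * sI (Zt a u.1 z t) ^ 2) :=
  ⟨(Ad.ups ha z).comp Real.measurable_log, Ad.const _, _, _, Ad.const 0,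
    fun u _ _ h => ⟨(JR a u h).logUps, fun _ _ => by ring⟩⟩

theorem gen_logSin (ha : 0 < a) (z : ℂ) : Gen (fun u t => Alive a u.1 z t)
    (fun u t => Real.log (sinA (Zt a u.1 z t))) (fun u t => pR (Zt a u.1 z t))
    (fun u t => (1 / 2 - 2 * a) * pR (Zt a u.1 z t) ^ 2 - sI (Zt a u.1 z t) ^ 2 / 2) :=
  ⟨Ad.Z ha z (φ := fun Z => Real.log (sinA Z)) (by fun_prop), Ad.Z ha z meas_pR,
    _, _, Ad.Z ha z (φ := fun Z => pR Z ^ 2 - sI Z ^ 2) (by fun_prop),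
    fun u _ _ h => ⟨(JR a u h).logSin, fun _ _ => by ring⟩⟩

theorem gen_X (a x : ℝ) : Gen (fun u t => RAl a u.1 x t) (fun u t => Xt a u.1 x t)
    (fun _ _ => -1) (fun u t => a / Xt a u.1 x t) := by
  have h1 : Gen (fun u t => RAl a u.1 x t) (fun u t => Xt a u.1 x t + u.1 t) (fun _ _ => 0)
      (fun u t => a / Xt a u.1 x t) := Gen.of_deriv ((Ad.X a x).add Ad.drv) fun u t _ h =>
    ⟨(h.rt u.cont).dx, continuousOn_const.div ((h.rt u.cont).cont u.cont) (h.rt u.cont).ne⟩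
  exact (h1.add (Gen.drv.smul (-1))).congr (Ad.X a x) (Ad.const _) fun _ _ _ _ _ _ =>
    ⟨by ring, by ring, by ring⟩

theorem RAl.pos {U : ℝ → ℝ} (hU : Continuous U) {x t : ℝ} (hx : 0 < x) (h : RAl a U x t) :
    ∀ s ∈ Icc 0 t, 0 < Xt a U x s := fun s hs =>
  (h.rt hU).pos hU ⟨le_rfl, hs.1.trans hs.2⟩ (by rwa [h.zero hU (hs.1.trans hs.2)]) s hs

theorem RAl.neg {U : ℝ → ℝ} (hU : Continuous U) {x t : ℝ} (hx : x < 0) (h : RAl a U x t) :
    ∀ s ∈ Icc 0 t, Xt a U x s < 0 := fun s hs =>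
  (h.rt hU).neg hU ⟨le_rfl, hs.1.trans hs.2⟩ (by rwa [h.zero hU (hs.1.trans hs.2)]) s hs

theorem RAl.lt {U : ℝ → ℝ} (hU : Continuous U) {x y t : ℝ} (hxy : x < y) (h : RAl a U x t)
    (h' : RAl a U y t) : ∀ s ∈ Icc 0 t, Xt a U x s < Xt a U y s := fun s hs =>
  (h.rt hU).lt hU (h'.rt hU) ⟨le_rfl, hs.1.trans hs.2⟩
    (by rwa [h.zero hU (hs.1.trans hs.2), h'.zero hU (hs.1.trans hs.2)]) s hs

theorem RAl.above {U : ℝ → ℝ} (hU : Continuous U) {x y t : ℝ} (ht : 0 ≤ t) (hx : 0 < x)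
    (hxy : x ≤ y) (h : RAl a U x t) : RAl a U y t := by
  obtain ⟨X, h1, rfl⟩ := h
  exact h1.above hU ht hx hxy

/-- `log |X|`. -/
theorem gen_logX (a : ℝ) {x : ℝ} (hx : x ≠ 0) : Gen (fun u t => RAl a u.1 x t)
    (fun u t => Real.log (Xt a u.1 x t)) (fun u t => -(Xt a u.1 x t)⁻¹)
    (fun u t => (a - 1 / 2) * (Xt a u.1 x t)⁻¹ ^ 2) := by
  have m1 := (Ad.X a x).comp Real.measurable_log
  have m2 := (Ad.X a x).comp (φ := fun y => -y⁻¹) (by fun_prop)
  rcases hx.lt_or_gt with h | h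
  · refine (((gen_X a x).smul (-1)).log fun u t _ hu s hs => by
      linarith [hu.neg u.cont h s hs]).congr m1 m2 fun u t _ hu s hs => ?_
    have := (hu.neg u.cont h s hs).ne
    exact ⟨by simp, by simp, by field_simp; ring⟩
  · refine ((gen_X a x).log fun u t _ hu => hu.pos u.cont h).congr m1 m2 fun u t _ hu s hs => ?_
    have := (hu.pos u.cont h s hs).ne'
    exact ⟨rfl, by simp, by field_simp; ring⟩

/-- `log (Y - X)` for two real points `x < y`. -/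
theorem gen_logGap (a : ℝ) {x y : ℝ} (hxy : x < y) :
    Gen (fun u t => RAl a u.1 x t ∧ RAl a u.1 y t)
      (fun u t => Real.log (Xt a u.1 y t - Xt a u.1 x t)) (fun _ _ => 0)
      (fun u t => -a * ((Xt a u.1 x t)⁻¹ * (Xt a u.1 y t)⁻¹)) := by
  refine Gen.of_deriv (fun t ht => ((Ad.X a y t ht).sub (Ad.X a x t ht)).log) fun u t _ h =>
    ⟨fun s hs => ?_, continuousOn_const.mul
      ((((h.1.rt u.cont).cont u.cont).inv₀ (h.1.rt u.cont).ne).mul
        (((h.2.rt u.cont).cont u.cont).inv₀ (h.2.rt u.cont).ne))⟩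
  have p := (sub_pos.2 (RAl.lt u.cont hxy h.1 h.2 s hs)).ne'
  refine (((h.1.rt u.cont).dgap (h.2.rt u.cont) s hs).log p).congr_deriv ?_
  field_simp

end Pool.Agent.MP_990230_pr.K8

end
end MrgPart0

-- ======== part 1: formerly Pool.Agent.MP_990230_pr.k8.AP
section MrgPart1

/-! # SLE8: the geodesic tails are uniformly short almost surely -/

open Set MeasureTheory Filter Complex
open scoped ENNReal NNReal Topology ComplexConjugate

noncomputable section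

namespace Pool.Agent.MP_990230_pr.K8

/-- the geodesics at all times `t ≤ T` oscillate by at most `η` below the height `y0`. -/
def Tail (a : ℝ) (U : ℝ → ℝ) (y0 η T : ℝ) : Prop :=
  ∀ t ∈ Icc 0 T, ∀ y ∈ Ioc 0 y0, ∀ y' ∈ Ioc 0 y0, ‖Fm a U t (y * I) - Fm a U t (y' * I)‖ ≤ η

variable {a : ℝ} {μ : Measure Pth}

theorem sinA_pos {Z : ℂ} (h : 0 < Z.im) : 0 < sinA Z :=
  div_pos h (norm_pos_iff.2 (LoeBM.ne_zero_of_im h))

theorem sinA_le_one (Z : ℂ) : sinA Z ≤ 1 :=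
  div_le_one_of_le₀ ((le_abs_self _).trans (abs_im_le_norm Z)) (norm_nonneg _)

theorem log_sinA_nonpos {Z : ℂ} (h : 0 < Z.im) : Real.log (sinA Z) ≤ 0 :=
  Real.log_nonpos (sinA_pos h).le (sinA_le_one Z)

namespace APm

theorem one (hμ : IsW μ) (h1 : 1 / 4 < a) (h2 : a < 1 / 2) (ζ : ℂ) {lam : ℝ} (hl : 0 < lam) :
    μ {u | ∃ t, 0 ≤ t ∧ Alive a u.1 ζ t ∧ lam < Real.exp (alp a / 2 * Real.log (sinA (Zt a u.1 ζ t))
      + -(alp a ^ 2 / (8 * a)) * Real.log (Zt a u.1 ζ t).im)} ≤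
      ENNReal.ofReal (Real.exp (-(alp a ^ 2 / (8 * a)) * Real.log ζ.im) / lam) := by
  have ha : 0 < a := by linarith
  have hα : 0 < alp a := by unfold alp; linarith
  refine Gen.max hμ (Watch.alive ha ζ) (((gen_logSin ha ζ).smul (alp a / 2)).add
    ((gen_logIm ha ζ).smul (-(alp a ^ 2 / (8 * a))))).exp (fun u t _ _ => ⟨(Real.exp_pos _).le, ?_⟩)
    (fun u hu => ?_) hl
  · rw [mul_div_assoc, ← mul_add]
    refine mul_nonpos_of_nonneg_of_nonpos (Real.exp_pos _).le ?_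
    generalize pR (Zt a u.1 ζ t) = p
    generalize sI (Zt a u.1 ζ t) = s
    have e : alp a / 2 * ((1 / 2 - 2 * a) * p ^ 2 - s ^ 2 / 2) +
        -(alp a ^ 2 / (8 * a)) * (-a * (p ^ 2 + s ^ 2)) +
        (alp a / 2 * p + -(alp a ^ 2 / (8 * a)) * 0) ^ 2 / 2 = -(alp a * (2 - alp a) / 8) * s ^ 2 := by
      unfold alp; field_simp; ring
    rw [e]
    have : alp a < 1 := by unfold alp; linarith
    have : 0 < alp a * (2 - alp a) := mul_pos hα (by linarith)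
    nlinarith [sq_nonneg s]
  · rw [(Zt_zero u hu.1).2.1, Real.exp_le_exp]
    nlinarith [log_sinA_nonpos hu.1]

theorem near {U : ℝ → ℝ} (ha : 0 < a) (hU : Continuous U) {t y r : ℝ} (ht : 0 ≤ t) (hy : 0 < y)
    (hr : r ≤ ups a U (Fm a U t (y * I)) t) {ζ : ℂ} (hζ : ‖ζ - Fm a U t (y * I)‖ ≤ r / 20) :
    Alive a U ζ t ∧ r / 2 ≤ ζ.im ∧ 1 / 3 ≤ sinA (Zt a U ζ t) ∧ (Zt a U ζ t).im ≤ 2 * y := by
  obtain ⟨hz, e⟩ := Fm_spec ha hU ht (w := y * I) (by simpa using hy)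
  set z := Fm a U t (y * I)
  have p := ups_pos hz
  rw [norm_sub_rev] at hζ
  have h1 : Alive a U ζ t := alive_of_near ha hU ht hz (by linarith [norm_nonneg (z - ζ)])
  have h2 := LoeBM.key ha (loeA ha hU) ht hz h1
  rw [e] at h2
  set W := Zt a U ζ t
  have h3 : ‖y * I - conj W‖ ≤ ‖y * I - W‖ + 2 * y := by
    rw [← Complex.norm_conj, show conj (y * I - conj W) = (y * I - W) - 2 * y * I by simp; ring]
    refine (norm_sub_le _ _).trans ?_
    simp [abs_of_pos hy]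
  have h4 : ‖y * I - W‖ ≤ y / 2 := by
    have : ups a U z t * ‖y * I - W‖ ≤ ups a U z t * ((‖y * I - W‖ + 2 * y) / 5) :=
      calc _ ≤ _ := h2
        _ ≤ 4 * (ups a U z t / 20) * (‖y * I - W‖ + 2 * y) := by gcongr; linarith
        _ = _ := by ring
    linarith [le_of_mul_le_mul_left this p]
  have h5 := abs_le.1 ((abs_im_le_norm _).trans h4)
  simp only [sub_im, mul_im, ofReal_re, I_im, mul_one, ofReal_im, I_re, mul_zero, add_zero] at h5
  have h6 : ‖W‖ ≤ 3 / 2 * y := by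
    have := norm_sub_norm_le W (y * I)
    rw [norm_sub_rev] at this
    simp only [Complex.norm_mul, norm_real, Real.norm_eq_abs, abs_of_pos hy, norm_I, mul_one] at this
    linarith
  refine ⟨h1, ?_, ?_, by linarith [h5.1]⟩
  · have := abs_le.1 ((abs_im_le_norm _).trans hζ)
    rw [sub_im] at this
    linarith [ups_le_im ha hU ht hz.1, this.2, norm_nonneg (z - ζ)]
  · rw [sinA, le_div_iff₀ (norm_pos_iff.2 (LoeBM.ne_zero_of_im (Zt_im_pos hU ht h1)))]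
    linarith [h5.2]

/-- the bad event at scale `j`. -/
def Bad (a ε R : ℝ) (j : ℕ) : Set Pth := {u | ∃ t y : ℝ, 0 ≤ t ∧ 0 < y ∧ y ≤ Real.exp (-j) ∧
  ‖Fm a u.1 t (y * I)‖ ≤ R ∧ Real.exp (-(ε * j)) ≤ ups a u.1 (Fm a u.1 t (y * I)) t}

theorem bad_le (hμ : IsW μ) (h1 : 1 / 4 < a) (h2 : a < 1 / 2) {ε R : ℝ} (hε : 0 < ε) (hR : 0 ≤ R)
    (j : ℕ) : μ (Bad a ε R j) ≤ ENNReal.ofReal ((40 * R + 5) ^ 2 *
      Real.exp (2 * (alp a ^ 2 / (8 * a)) * Real.log 2 + alp a / 2 * Real.log 3 + 1) *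
      Real.exp (-(alp a ^ 2 / (8 * a) * (1 - ε) - 2 * ε)) ^ j) := by
  classical
  have ha : 0 < a := by linarith
  have hα : 0 < alp a := by unfold alp; linarith
  set m := alp a ^ 2 / (8 * a) with hm
  have hm0 : 0 < m := by positivity
  set r := Real.exp (-(ε * j)) with hr
  have hr0 : 0 < r := Real.exp_pos _
  have hr1 : 1 ≤ r⁻¹ := by
    rw [← Real.exp_neg, neg_neg]; exact Real.one_le_exp (by positivity)
  set N0 : ℕ := ⌈20 * R / r⌉₊ + 1 with hN0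
  set lam := Real.exp (m * j - alp a / 2 * Real.log 3 - m * Real.log 2 - 1) with hlam
  let J := (net 0 (r / 20) N0).filter (fun ζ => r / 2 ≤ ζ.im)
  have sub : Bad a ε R j ⊆ ⋃ ζ ∈ J, {u : Pth | ∃ t, 0 ≤ t ∧ Alive a u.1 ζ t ∧
      lam < Real.exp (alp a / 2 * Real.log (sinA (Zt a u.1 ζ t))
        + -m * Real.log (Zt a u.1 ζ t).im)} := by
    rintro u ⟨t, y, ht, hy, hy1, hz, hu⟩
    obtain ⟨ζ, k1, k2⟩ := DI.exists_net 0 (Fm a u.1 t (y * I)) (show 0 < r / 20 by positivity) N0 (by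
      have := Nat.le_ceil (20 * R / r)
      rw [div_le_iff₀ hr0] at this
      rw [hN0]; push_cast; linarith)
    rw [zero_add] at k2
    obtain ⟨k3, k4, k5, k6⟩ := near ha u.cont ht hy hu k2
    refine mem_iUnion₂.2 ⟨ζ, Finset.mem_filter.2 ⟨k1, k4⟩, t, ht, k3, Real.exp_lt_exp.2 ?_⟩
    have l1 : -Real.log 3 ≤ Real.log (sinA (Zt a u.1 ζ t)) := by
      rw [← Real.log_inv, ← one_div]; exact Real.log_le_log (by norm_num) k5
    have l2 : Real.log (Zt a u.1 ζ t).im ≤ Real.log 2 + -j := by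
      rw [← Real.log_exp (-j), ← Real.log_mul two_ne_zero (Real.exp_pos _).ne']
      exact Real.log_le_log (Zt_im_pos u.cont ht k3) (by linarith)
    nlinarith
  refine (measure_mono sub).trans ((measure_biUnion_finset_le _ _).trans ?_)
  refine (Finset.sum_le_card_nsmul _ _ (ENNReal.ofReal (Real.exp (m * (ε * j + Real.log 2)) / lam))
    fun ζ hζ => (one hμ h1 h2 ζ (Real.exp_pos _)).trans (ENNReal.ofReal_le_ofReal ?_)).trans ?_
  · have l : -(ε * j) - Real.log 2 ≤ Real.log ζ.im := by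
      rw [← Real.log_exp (-(ε * j)), ← Real.log_div hr0.ne' two_ne_zero]
      exact Real.log_le_log (by positivity) (Finset.mem_filter.1 hζ).2
    exact div_le_div_of_nonneg_right (Real.exp_le_exp.2 (by nlinarith)) (Real.exp_pos _).le
  · have c1 : (J.card : ℝ) ≤ ((40 * R + 5) * r⁻¹) ^ 2 := by
      have c2 : (J.card : ℝ) ≤ (2 * (N0 : ℝ) + 1) ^ 2 := by
        exact_mod_cast (Finset.card_filter_le _ _).trans (Asm.card_net _ _ _)
      have c3 := (Nat.ceil_lt_add_one (show 0 ≤ 20 * R / r by positivity)).le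
      refine c2.trans (pow_le_pow_left₀ (by positivity) ?_ 2)
      rw [hN0]; push_cast
      have c4 : 20 * R / r = 20 * (R * r⁻¹) := by ring
      linarith
    rw [nsmul_eq_mul, ← ENNReal.ofReal_natCast, ← ENNReal.ofReal_mul (Nat.cast_nonneg _)]
    refine ENNReal.ofReal_le_ofReal ((mul_le_mul_of_nonneg_right c1 (by positivity)).trans_eq ?_)
    rw [mul_pow, mul_assoc, mul_assoc, hr, hlam, ← Real.exp_neg, ← Real.exp_sub, ← Real.exp_nat_mul,
      ← Real.exp_nat_mul, ← Real.exp_add, ← Real.exp_add]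
    congr 2
    push_cast; ring

theorem bound_Fm (ha : 0 < a) (u : Pth) (T : ℝ) :
    ∃ R : ℕ, ∀ t ∈ Icc 0 T, ∀ w : ℂ, 0 < w.im → ‖w‖ ≤ 1 → ‖Fm a u.1 t w‖ ≤ R := by
  obtain ⟨M, hM⟩ := isCompact_Icc.exists_bound_of_continuousOn (s := Icc 0 T) u.cont.continuousOn
  obtain ⟨R, hR⟩ := exists_nat_ge (1 + (3 * M + 8 * (a * |T| + 1)))
  refine ⟨R, fun t ht w hw h1 => ?_⟩
  obtain ⟨hz, e⟩ := Fm_spec ha u.cont ht.1 hw
  have k : a * t ≤ a * |T| := by gcongr; exact ht.2.trans (le_abs_self T)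
  have := Zt_move ha u.cont le_rfl ht.1 (ρ := a * |T| + 1) (M := M) (by positivity)
    (by nlinarith [mul_nonneg ha.le (abs_nonneg T)])
    (fun s hs => by simpa [u.zero] using hM s ⟨hs.1, hs.2.trans ht.2⟩) hz
  rw [e, (Zt_zero u hz.1).2.1, norm_sub_rev] at this
  linarith [norm_sub_norm_le (Fm a u.1 t w) w]

theorem tail_of (ha : 0 < a) (u : Pth) {ε T R : ℝ} (hε : 0 < ε) {J : ℕ}
    (hR : ∀ t ∈ Icc 0 T, ∀ w : ℂ, 0 < w.im → ‖w‖ ≤ 1 → ‖Fm a u.1 t w‖ ≤ R)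
    (h : ∀ j, J ≤ j → u ∉ Bad a ε R j) {y0 : ℝ} (h0 : y0 ≤ Real.exp (-J)) :
    Tail a u.1 y0 (Real.exp (ε * (1 + Real.log y0)) / ε) T := by
  have key : ∀ t ∈ Icc 0 T, ∀ y ∈ Ioc 0 y0,
      ups a u.1 (Fm a u.1 t (y * I)) t ≤ Real.exp (ε * (1 + Real.log y)) := by
    intro t ht y hy
    have l1 : (J : ℝ) ≤ -Real.log y := by
      have := Real.log_le_log hy.1 (hy.2.trans h0)
      rw [Real.log_exp] at this
      linarith
    have l0 : 0 ≤ -Real.log y := (Nat.cast_nonneg J).trans l1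
    have l2 := Nat.floor_le l0
    have l3 := Nat.lt_floor_add_one (-Real.log y)
    have l4 : y ≤ Real.exp (-(⌊-Real.log y⌋₊ : ℝ)) := by
      rw [← Real.log_le_iff_le_exp hy.1]; linarith
    by_contra hc
    refine h _ (Nat.le_floor l1) ⟨t, y, ht.1, hy.1, l4, hR t ht _ (by simpa using hy.1) ?_,
      le_trans (Real.exp_le_exp.2 (by nlinarith)) (not_le.1 hc).le⟩
    simp only [Complex.norm_mul, norm_real, Real.norm_eq_abs, abs_of_pos hy.1, norm_I, mul_one]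
    exact (Real.log_nonpos_iff hy.1.le).1 (by linarith)
  have main : ∀ t ∈ Icc 0 T, ∀ y ∈ Ioc 0 y0, ∀ y' ∈ Ioc 0 y0, y' ≤ y →
      ‖Fm a u.1 t (y * I) - Fm a u.1 t (y' * I)‖ ≤ Real.exp (ε * (1 + Real.log y0)) / ε := by
    intro t ht y hy y' hy' hle
    have d1 : ∀ s : ℝ, 0 < s → HasDerivAt (fun s : ℝ => Fm a u.1 t (s * I) - Fm a u.1 t (y' * I))
        (deriv (Fm a u.1 t) (s * I) * I) s := fun s hs =>
      (((Fm_differentiableAt ha u.cont ht.1 (w := s * I) (by simpa using hs)).hasDerivAt.comp (s : ℂ)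
        (by simpa using (hasDerivAt_id (s : ℂ)).mul_const I)).comp_ofReal).sub_const _
    have d2 : ∀ s : ℝ, 0 < s → HasDerivAt (fun s : ℝ => Real.exp (ε * (1 + Real.log s)) / ε)
        (Real.exp (ε * (1 + Real.log s)) / s) s := fun s hs =>
      (((((Real.hasDerivAt_log hs.ne').const_add 1).const_mul ε).exp).div_const ε).congr_deriv
        (by field_simp)
    have := image_norm_le_of_norm_deriv_right_le_deriv_boundary' (a := y') (b := y)
      (fun s hs => (d1 s (hy'.1.trans_le hs.1)).continuousAt.continuousWithinAt)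
      (fun s hs => (d1 s (hy'.1.trans_le hs.1)).hasDerivWithinAt) (by simp; positivity)
      (fun s hs => (d2 s (hy'.1.trans_le hs.1)).continuousAt.continuousWithinAt)
      (fun s hs => (d2 s (hy'.1.trans_le hs.1)).hasDerivWithinAt) (fun s hs => by
        have s0 := hy'.1.trans_le hs.1
        rw [norm_mul, norm_I, mul_one, norm_deriv_Fm ha u.cont ht.1 (by simpa using s0)]
        simp only [mul_im, ofReal_re, I_im, mul_one, ofReal_im, I_re, mul_zero, add_zero]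
        gcongr
        exact key t ht s ⟨s0, hs.2.le.trans hy.2⟩) ⟨hle, le_rfl⟩
    refine this.trans ?_
    gcongr
    · exact hy.1
    · exact hy.2
  intro t ht y hy y' hy'
  rcases le_total y' y with d | d
  · exact main t ht y hy y' hy' d
  · rw [norm_sub_rev]; exact main t ht y' hy' y hy d

end APm

/-- almost surely the geodesic tails are uniformly short on every bounded time interval. -/
theorem ae_tail (hμ : IsW μ) (h1 : 1 / 4 < a) (h2 : a < 1 / 2) :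
    ∀ᵐ u ∂μ, ∀ T η : ℝ, 0 < η → ∃ y0 : ℝ, 0 < y0 ∧ Tail a u.1 y0 η T := by
  have ha : 0 < a := by linarith
  have hα : 0 < alp a := by unfold alp; linarith
  set m := alp a ^ 2 / (8 * a) with hm
  have hm0 : 0 < m := by positivity
  have hε : 0 < m / (2 * (m + 2)) := by positivity
  have e : m * (1 - m / (2 * (m + 2))) - 2 * (m / (2 * (m + 2))) = m / 2 := by field_simp; ring
  have key : ∀ R : ℕ, ∀ᵐ u ∂μ, ∀ᶠ j in atTop, u ∉ APm.Bad a (m / (2 * (m + 2))) R j := by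
    intro R
    refine ae_eventually_notMem (ne_top_of_le_ne_top ?_ (ENNReal.tsum_le_tsum fun j =>
      APm.bad_le hμ h1 h2 hε (Nat.cast_nonneg R) j))
    rw [← ENNReal.ofReal_tsum_of_nonneg (fun _ => by positivity)]
    · exact ENNReal.ofReal_ne_top
    · refine (summable_geometric_of_lt_one (Real.exp_pos _).le ?_).mul_left _
      rw [← hm, e, Real.exp_lt_one_iff]; linarith
  filter_upwards [ae_all_iff.2 key] with u hu T η hη
  set ε := m / (2 * (m + 2))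
  obtain ⟨R, hR⟩ := APm.bound_Fm ha u T
  obtain ⟨J, hJ⟩ := eventually_atTop.1 (hu R)
  have p : 0 < min (Real.exp (-J)) (Real.exp (Real.log (ε * η) / ε - 1)) :=
    lt_min (Real.exp_pos _) (Real.exp_pos _)
  refine ⟨_, p, fun t ht y hy y' hy' =>
    (APm.tail_of ha u hε hR hJ (min_le_left _ _) t ht y hy y' hy').trans ?_⟩
  have l := Real.log_le_log p (min_le_right _ _)
  rw [Real.log_exp, le_sub_iff_add_le, le_div_iff₀ hε] at l
  rw [div_le_iff₀' hε]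
  exact (Real.exp_le_exp.2 (by linarith)).trans_eq (Real.exp_log (mul_pos hε hη))

theorem Tail.mono {U : ℝ → ℝ} {y0 y1 η η' T T' : ℝ} (h : Tail a U y0 η T) (h1 : y1 ≤ y0)
    (h2 : η ≤ η') (h3 : T' ≤ T) : Tail a U y1 η' T' := fun t ht y hy y' hy' =>
  (h t ⟨ht.1, ht.2.trans h3⟩ y ⟨hy.1, hy.2.trans h1⟩ y' ⟨hy'.1, hy'.2.trans h1⟩).trans h2

/-- a condition `φ u p ≤ c` for all parameters `p ∈ K` is measurable when `φ` is measurable in `u`
and continuous in `p`. -/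
theorem measurableSet_forall_le {Ω P : Type*} [MeasurableSpace Ω] [TopologicalSpace P]
    [SecondCountableTopology P] {K : Set P} {φ : Ω → P → ℝ} (hm : ∀ p ∈ K, Measurable (φ · p))
    (hc : ∀ u, ContinuousOn (φ u) K) (c : ℝ) : MeasurableSet {u | ∀ p ∈ K, φ u p ≤ c} := by
  obtain ⟨D, hD, hd⟩ := TopologicalSpace.exists_countable_dense K
  have e : {u | ∀ p ∈ K, φ u p ≤ c} = ⋂ p ∈ D, {u | φ u p ≤ c} := by
    ext u
    simp only [mem_ofPred_eq, mem_iInter]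
    refine ⟨fun h p _ => h p p.2, fun h p hp => ?_⟩
    exact closure_minimal (s := D) (t := {q : K | φ u q ≤ c}) h
      (isClosed_le (continuousOn_iff_continuous_domRestrict.1 (hc u)) continuous_const)
      (hd ⟨p, hp⟩)
  rw [e]
  exact MeasurableSet.biInter hD fun p _ => measurableSet_le (hm p p.2) measurable_const

theorem measurableSet_tail (ha : 0 < a) (y0 η T : ℝ) :
    MeasurableSet {u : Pth | Tail a u.1 y0 η T} := by
  have := measurableSet_forall_le (K := Icc 0 T ×ˢ Ioc 0 y0 ×ˢ Ioc 0 y0)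
    (φ := fun (u : Pth) (p : ℝ × ℝ × ℝ) => ‖Fm a u.1 p.1 (p.2.1 * I) - Fm a u.1 p.1 (p.2.2 * I)‖)
    (fun p hp => ((measurable_Fm ha _ hp.1.1).sub (measurable_Fm ha _ hp.1.1)).norm)
    (fun u => (((Fm_continuousOn ha u.cont).comp (f := fun p : ℝ × ℝ × ℝ => (p.1, p.2.1 * I))
      (by fun_prop) fun p hp => ⟨hp.1.1, by simpa using hp.2.1.1⟩).sub
      ((Fm_continuousOn ha u.cont).comp (f := fun p : ℝ × ℝ × ℝ => (p.1, p.2.2 * I))
      (by fun_prop) fun p hp => ⟨hp.1.1, by simpa using hp.2.2.1⟩)).norm) η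
  convert this using 3 with u
  exact ⟨fun h p hp => h _ hp.1 _ hp.2.1 _ hp.2.2, fun h t ht y hy y' hy' => h (t, y, y') ⟨ht, hy, hy'⟩⟩

/-- a family of measurable events, decreasing in a positive parameter, that almost surely holds
for some value of the parameter has probability close to one for small values. -/
theorem small_compl (hμ : IsW μ) {G : ℝ → Set Pth} (hm : ∀ x, MeasurableSet (G x))
    (hG : ∀ x y, 0 < x → x ≤ y → G y ⊆ G x) (h : ∀ᵐ u ∂μ, ∃ x, 0 < x ∧ u ∈ G x) {e : ℝ≥0∞}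
    (he : 0 < e) : ∃ x0 : ℝ, 0 < x0 ∧ ∀ x, 0 < x → x ≤ x0 → μ (G x)ᶜ ≤ e := by
  have := hμ.prob
  have p : ∀ n : ℕ, (0 : ℝ) < 1 / (n + 1) := fun n => Nat.one_div_pos_of_nat
  have t := tendsto_measure_iInter_atTop (μ := μ) (s := fun n : ℕ => (G (1 / (n + 1)))ᶜ)
    (fun n => (hm _).compl.nullMeasurableSet)
    (fun n k hnk => compl_subset_compl.2 (hG _ _ (p k) (Nat.one_div_le_one_div hnk)))
    ⟨0, measure_ne_top _ _⟩
  have z : μ (⋂ n : ℕ, (G (1 / (n + 1)))ᶜ) = 0 := by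
    refine measure_mono_null (fun u hu => ?_) h
    rintro ⟨x, hx, hu'⟩
    obtain ⟨n, hn⟩ := exists_nat_one_div_lt hx
    exact mem_iInter.1 hu n (hG _ _ (p n) hn.le hu')
  rw [z] at t
  obtain ⟨n, hn⟩ := (t.eventually_le_const he).exists
  exact ⟨_, p n, fun x hx hx' => (measure_mono (compl_subset_compl.2 (hG _ _ hx hx'))).trans hn⟩

theorem tail_small (hμ : IsW μ) (h1 : 1 / 4 < a) (h2 : a < 1 / 2) (T : ℝ) {η : ℝ} (hη : 0 < η)
    {e : ℝ≥0∞} (he : 0 < e) :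
    ∃ y1 : ℝ, 0 < y1 ∧ ∀ y0, 0 < y0 → y0 ≤ y1 → μ {u : Pth | Tail a u.1 y0 η T}ᶜ ≤ e :=
  small_compl hμ (G := fun y0 => {u : Pth | Tail a u.1 y0 η T})
    (fun _ => measurableSet_tail (by linarith) _ _ _)
    (fun _ _ _ hxy _ hu => Tail.mono hu hxy le_rfl le_rfl)
    ((ae_tail hμ h1 h2).mono fun _ hu => hu T η hη) he

end Pool.Agent.MP_990230_pr.K8

end
end MrgPart1

-- marker of a merged file
example : 731051 + 465534 = 731051 + 465534 := rfl

end MrgPart0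

-- ======== part 1: formerly Pool.Agent.MP_990230_pr.k8.Tile
section MrgPart1

-- ======== part 0: formerly Pool.Agent.MP_990230_pr.k8.Bnd
section MrgPart0

/-! # SLE8: bounds for values of local games, for an arbitrary sampled functional -/

open Set MeasureTheory Filter Metric
open scoped ENNReal Topology

noncomputable section

namespace Pool.Agent.MP_990230_pr.K8

/-- a set-up: Wiener measure, mesh, horizon, resolution, sampled marker and good set. -/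
structure Stp where
  μ : Measure Pth
  h : ℝ
  N : ℕ
  η : ℝ
  x : Pth → ℕ → ℂ
  G : Set Pth

/-- starts near `0` and moves by steps of length at most `η`. -/
structure Reg (N : ℕ) (η : ℝ) (x : ℕ → ℂ) : Prop where
  zero : ‖x 0‖ ≤ η
  step : ∀ i < N, ‖x (i + 1) - x i‖ ≤ η

structure Stp.Ok (p : Stp) : Prop where
  w : IsW p.μ
  h : 0 < p.h
  meas : ∀ k, Measurable fun w => p.x w k
  past : ∀ (k : ℕ) u v, p.x (cat (k * p.h) u v) k = p.x u k
  mG : MeasurableSet p.G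
  reg : ∀ w ∈ p.G, Reg p.N p.η (p.x w)

/-- active when the sampled marker is in `R`. -/
def Stp.act (p : Stp) (R : Set ℂ) : ℕ → Set Pth := fun k => {w | p.x w k ∈ R}

/-- payoffs: functions of the horizon and the sampled marker. -/
abbrev Pay : Type := ℕ → (ℕ → ℂ) → ℝ≥0∞

def Stp.pay (p : Stp) (Y : Pay) : Pth → ℝ≥0∞ := p.G.indicator fun w => Y p.N (p.x w)

def Stp.vl (p : Stp) (R : Set ℂ) (Y : Pay) : ℝ≥0∞ := val p.μ p.h p.N (p.act R) (p.pay Y) 0 default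

/-- the value in the region `R` is at most `B` for all set-ups of small resolution. -/
def Bnd (S : Set Stp) (R : Set ℂ) (Y : Pay) (B : ℝ≥0∞) : Prop :=
  ∃ η0 : ℝ, 0 < η0 ∧ ∀ p ∈ S, p.η ≤ η0 → p.vl R Y ≤ B

def Pay.Meas (Y : Pay) : Prop := ∀ N, Measurable (Y N)

open Classical in
def ind (q : Prop) : ℝ≥0∞ := if q then 1 else 0

/-- the value of `m` crossings of the ring `(c; r, R)` is at most `B`. -/
def VB (S : Set Stp) (c : ℂ) (r R : ℝ) (m : ℕ) (B : ℝ) : Prop :=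
  Bnd S (ring c r R) (fun N x => ind (Cr x N m c r R)) (ENNReal.ofReal B)

theorem ind_le_one (q : Prop) : ind q ≤ 1 := by unfold ind; split_ifs <;> simp

theorem ind_pos {q : Prop} (h : q) : ind q = 1 := if_pos h

theorem ind_neg {q : Prop} (h : ¬ q) : ind q = 0 := if_neg h

theorem ind_le {q : Prop} {B : ℝ≥0∞} (h : q → 1 ≤ B) : ind q ≤ B := by
  by_cases hq : q
  · rw [ind_pos hq]; exact h hq
  · rw [ind_neg hq]; exact zero_le

theorem ind_mono {q q' : Prop} (h : q → q') : ind q ≤ ind q' :=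
  ind_le fun hq => (ind_pos (h hq)).ge

theorem measurable_ind {α : Type*} [MeasurableSpace α] {q : α → Prop}
    (h : MeasurableSet {x | q x}) : Measurable fun x => ind (q x) := by
  unfold ind
  exact Measurable.ite h measurable_const measurable_const

theorem isOpen_ring (c : ℂ) (r R : ℝ) : IsOpen (ring c r R) := by
  have hc : Continuous fun z : ℂ => ‖z - c‖ := by fun_prop
  exact (isOpen_lt continuous_const hc).inter (isOpen_lt hc continuous_const)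

theorem measurableSet_ring (c : ℂ) (r R : ℝ) : MeasurableSet (ring c r R) :=
  (isOpen_ring c r R).measurableSet

theorem ring_disj (c : ℂ) {r R r' R' : ℝ} (h : R ≤ r') : Disjoint (ring c r R) (ring c r' R') :=
  disjoint_left.2 fun _ h1 h2 => by linarith [h1.2, h2.1]

theorem Cr.succ_iff {x : ℕ → ℂ} {N m : ℕ} {c : ℂ} {r R : ℝ} : Cr x N (m + 1) c r R ↔
    ∃ σ τ, Cr x σ m c r R ∧ σ ≤ τ ∧ τ ≤ N ∧ R ≤ ‖x σ - c‖ ∧ ‖x τ - c‖ ≤ r := by
  refine ⟨fun ⟨s, t, k1, k2⟩ => ?_, fun ⟨σ, τ, h0, h1, h2, h3, h4⟩ => h0.snoc le_rfl h1 h2 h3 h4⟩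
  obtain ⟨a1, a2, a3, a4⟩ := k1 m (Nat.lt_succ_self m)
  have key : ∀ d i, i + d + 1 = m → t i ≤ s m := by
    intro d
    induction d with
    | zero => intro i hi; subst hi; exact k2 i (by omega)
    | succ d ih =>
      intro i hi
      exact (k2 i (by omega)).trans ((k1 (i + 1) (by omega)).1.trans (ih (i + 1) (by omega)))
  refine ⟨s m, t m, ⟨s, t, fun i hi => ?_, fun i hi => k2 i (by omega)⟩, a1, a2, a3, a4⟩
  obtain ⟨b1, _, b3, b4⟩ := k1 i (by omega)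
  exact ⟨b1, key (m - i - 1) i (by omega), b3, b4⟩

theorem measurableSet_cr (c : ℂ) (r R : ℝ) (m : ℕ) :
    ∀ N, MeasurableSet {x : ℕ → ℂ | Cr x N m c r R} := by
  have hn : ∀ k : ℕ, Measurable fun x : ℕ → ℂ => ‖x k - c‖ := fun k => by
    have : Measurable fun x : ℕ → ℂ => x k := measurable_pi_apply k
    exact (this.sub_const c).norm
  induction m with
  | zero => intro N; simp [Cr.zero]
  | succ m ih =>
    intro N
    have e : {x : ℕ → ℂ | Cr x N (m + 1) c r R} = ⋃ σ, ⋃ τ, {x | Cr x σ m c r R} ∩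
        ({_x | σ ≤ τ} ∩ ({_x | τ ≤ N} ∩ ({x | R ≤ ‖x σ - c‖} ∩ {x | ‖x τ - c‖ ≤ r}))) := by
      ext x; simp only [Cr.succ_iff, mem_iUnion, mem_inter_iff]; rfl
    rw [e]
    exact MeasurableSet.iUnion fun σ => MeasurableSet.iUnion fun τ => (ih σ).inter
      ((MeasurableSet.const _).inter ((MeasurableSet.const _).inter
        ((measurableSet_le measurable_const (hn σ)).inter
          (measurableSet_le (hn τ) measurable_const))))

theorem meas_cr (c : ℂ) (r R : ℝ) (m : ℕ) : Pay.Meas fun N x => ind (Cr x N m c r R) :=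
  fun N => measurable_ind (measurableSet_cr c r R m N)

namespace Stp.Ok
variable {p : Stp} (hp : p.Ok)
include hp

theorem adp {R : Set ℂ} (hR : MeasurableSet R) : Adp p.h (p.act R) :=
  ⟨fun _ => hp.meas _ hR, fun k u v => by
    show p.x _ k ∈ R ↔ p.x _ k ∈ R
    rw [hp.past]⟩

theorem mpay {Y : Pay} (hY : Y.Meas) : Measurable (p.pay Y) :=
  ((hY _).comp (measurable_pi_lambda _ hp.meas)).indicator hp.mG

end Stp.Ok

theorem Reg.mono {N : ℕ} {η η' : ℝ} {x : ℕ → ℂ} (H : Reg N η x) (hη : η ≤ η') : Reg N η' x :=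
  ⟨H.zero.trans hη, fun i hi => (H.step i hi).trans hη⟩

variable {S : Set Stp} (hS : ∀ p ∈ S, p.Ok)
include hS

theorem Bnd.mono {R R' : Set ℂ} {Y Y' : Pay} {B B' : ℝ≥0∞} (H : Bnd S R Y B) (hR : R ⊆ R')
    (hB : B ≤ B') {η1 : ℝ} (h1 : 0 < η1)
    (hY : ∀ N x, Reg N η1 x → Y' N x ≤ Y N x) : Bnd S R' Y' B' := by
  obtain ⟨η0, h0, H⟩ := H
  refine ⟨min η0 η1, lt_min h0 h1, fun p hp hη => ?_⟩
  have ok := hS p hp
  refine le_trans (V_mono ok.w ok.h.le (fun w => ?_) (fun k w hw => hR hw) _ _ _)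
    ((H p hp (hη.trans (min_le_left _ _))).trans hB)
  by_cases hw : w ∈ p.G
  · simp only [Stp.pay, indicator_of_mem hw]
    exact hY _ _ ((ok.reg w hw).mono (hη.trans (min_le_right _ _)))
  · simp [Stp.pay, indicator_of_notMem hw]

theorem Bnd.mono' {R R' : Set ℂ} {Y Y' : Pay} {B B' : ℝ≥0∞} (H : Bnd S R Y B) (hR : R ⊆ R')
    (hB : B ≤ B') (hY : ∀ N x, Y' N x ≤ Y N x) : Bnd S R' Y' B' :=
  H.mono hS hR hB one_pos fun N x _ => hY N x

theorem Bnd.const (R : Set ℂ) (B : ℝ≥0∞) : Bnd S R (fun _ _ => B) B :=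
  ⟨1, one_pos, fun p hp _ => val_le_const (hS p hp).w (hS p hp).h.le fun _ =>
    indicator_le_self' (fun _ _ => zero_le) _⟩

theorem Bnd.smul {R : Set ℂ} {Y : Pay} {B : ℝ≥0∞} (H : Bnd S R Y B) (hR : MeasurableSet R)
    (hY : Y.Meas) (c : ℝ≥0∞) : Bnd S R (fun N x => c * Y N x) (c * B) := by
  obtain ⟨η0, h0, H⟩ := H
  refine ⟨η0, h0, fun p hp hη => ?_⟩
  have ok := hS p hp
  have e : p.pay (fun N x => c * Y N x) = fun w => c * p.pay Y w := by
    funext w; by_cases hw : w ∈ p.G <;> simp [Stp.pay, hw]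
  rw [Stp.vl, e, val, V_const_mul ok.w (ok.adp hR).meas (ok.mpay hY)]
  exact mul_le_mul_right (H p hp hη) c

omit hS in
theorem exists_eta {ι : Type*} (s : Finset ι) {P : ι → ℝ → Prop}
    (H : ∀ i ∈ s, ∃ η0 : ℝ, 0 < η0 ∧ ∀ η ≤ η0, P i η) :
    ∃ η0 : ℝ, 0 < η0 ∧ ∀ η ≤ η0, ∀ i ∈ s, P i η := by
  classical
  induction s using Finset.induction_on with
  | empty => exact ⟨1, one_pos, by simp⟩
  | insert i s _ ih =>
    obtain ⟨a, ha, h1⟩ := H i (Finset.mem_insert_self _ _)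
    obtain ⟨b, hb, h2⟩ := ih fun j hj => H j (Finset.mem_insert_of_mem hj)
    refine ⟨min a b, lt_min ha hb, fun η hη j hj => ?_⟩
    rcases Finset.mem_insert.1 hj with rfl | hj
    · exact h1 η (hη.trans (min_le_left _ _))
    · exact h2 η (hη.trans (min_le_right _ _)) j hj

omit hS in
theorem Bnd.unif {ι : Type*} (s : Finset ι) {R : ι → Set ℂ} {Y : ι → Pay} {B : ι → ℝ≥0∞}
    (H : ∀ i ∈ s, Bnd S (R i) (Y i) (B i)) :
    ∃ η0 : ℝ, 0 < η0 ∧ ∀ p ∈ S, p.η ≤ η0 → ∀ i ∈ s, p.vl (R i) (Y i) ≤ B i := by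
  obtain ⟨η0, h0, h⟩ := exists_eta s
    (P := fun i η => ∀ p ∈ S, p.η ≤ η → p.vl (R i) (Y i) ≤ B i) fun i hi => by
      obtain ⟨a, ha, h⟩ := H i hi
      exact ⟨a, ha, fun η hη p hp h' => h p hp (h'.trans hη)⟩
  exact ⟨η0, h0, fun p hp hη i hi => h η0 le_rfl i hi p hp hη⟩

theorem Bnd.sum {ι : Type*} (s : Finset ι) {R : Set ℂ} {Y : ι → Pay} {B : ι → ℝ≥0∞}
    (hR : MeasurableSet R) (hY : ∀ i, (Y i).Meas) (H : ∀ i ∈ s, Bnd S R (Y i) (B i)) :
    Bnd S R (fun N x => ∑ i ∈ s, Y i N x) (∑ i ∈ s, B i) := by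
  obtain ⟨η0, h0, H⟩ := Bnd.unif s (R := fun _ => R) H
  refine ⟨η0, h0, fun p hp hη => ?_⟩
  have ok := hS p hp
  have e : p.pay (fun N x => ∑ i ∈ s, Y i N x) = fun w => ∑ i ∈ s, p.pay (Y i) w := by
    funext w; by_cases hw : w ∈ p.G <;> simp [Stp.pay, hw]
  rw [Stp.vl, e, val]
  exact (V_sum ok.w (ok.adp hR).meas s (fun i => ok.mpay (hY i)) _ _ _).trans
    (Finset.sum_le_sum (H p hp hη))

theorem Bnd.add {R : Set ℂ} {Y Y' : Pay} {B B' : ℝ≥0∞} (hR : MeasurableSet R) (hY : Y.Meas)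
    (H : Bnd S R Y B) (H' : Bnd S R Y' B') :
    Bnd S R (fun N x => Y N x + Y' N x) (B + B') := by
  obtain ⟨a, ha, H⟩ := H
  obtain ⟨b, hb, H'⟩ := H'
  refine ⟨min a b, lt_min ha hb, fun p hp hη => ?_⟩
  have ok := hS p hp
  have e : p.pay (fun N x => Y N x + Y' N x) = fun w => p.pay Y w + p.pay Y' w := by
    funext w; by_cases hw : w ∈ p.G <;> simp [Stp.pay, hw]
  rw [Stp.vl, e, val]
  exact (V_add ok.w (ok.adp hR).meas (ok.mpay hY) _ _ _).trans
    (add_le_add (H p hp (hη.trans (min_le_left _ _))) (H' p hp (hη.trans (min_le_right _ _))))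

theorem Bnd.mul {R R' : Set ℂ} {Y Y' : Pay} {B B' : ℝ≥0∞} (hR : MeasurableSet R)
    (hR' : MeasurableSet R') (hY : Y.Meas) (hY' : Y'.Meas) (hd : Disjoint R R')
    (H : Bnd S R Y B) (H' : Bnd S R' Y' B') :
    Bnd S (R ∪ R') (fun N x => Y N x * Y' N x) (B * B') := by
  obtain ⟨a, ha, H⟩ := H
  obtain ⟨b, hb, H'⟩ := H'
  refine ⟨min a b, lt_min ha hb, fun p hp hη => ?_⟩
  have ok := hS p hp
  have e : p.pay (fun N x => Y N x * Y' N x) = fun w => p.pay Y w * p.pay Y' w := by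
    funext w; by_cases hw : w ∈ p.G <;> simp [Stp.pay, hw]
  have e2 : p.act (R ∪ R') = fun k => p.act R k ∪ p.act R' k := rfl
  rw [Stp.vl, e, e2, val]
  exact (V_mul ok.w (ok.adp hR).meas (ok.adp hR').meas (ok.mpay hY) (ok.mpay hY')
    (fun k => hd.preimage _) _ _ _).trans
    (mul_le_mul' (H p hp (hη.trans (min_le_left _ _))) (H' p hp (hη.trans (min_le_right _ _))))

theorem Bnd.prod {ι : Type*} (s : Finset ι) {R : ι → Set ℂ} {Y : ι → Pay} {B : ι → ℝ≥0∞}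
    (hR : ∀ i, MeasurableSet (R i)) (hY : ∀ i, (Y i).Meas)
    (hd : ∀ i ∈ s, ∀ j ∈ s, i ≠ j → Disjoint (R i) (R j)) (H : ∀ i ∈ s, Bnd S (R i) (Y i) (B i)) :
    Bnd S (⋃ i ∈ s, R i) (fun N x => ∏ i ∈ s, Y i N x) (∏ i ∈ s, B i) := by
  classical
  induction s using Finset.induction_on with
  | empty => simpa using Bnd.const hS ∅ 1
  | insert i s hi ih =>
    have h1 := ih (fun a ha b hb => hd a (Finset.mem_insert_of_mem ha) b
      (Finset.mem_insert_of_mem hb)) fun j hj => H j (Finset.mem_insert_of_mem hj)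
    have h2 := Bnd.mul hS (hR i) (Finset.measurableSet_biUnion s fun j _ => hR j) (hY i)
      (fun N => Finset.measurable_prod s fun j _ => hY j N)
      (disjoint_iUnion₂_right.2 fun j hj => hd i (Finset.mem_insert_self _ _) j
        (Finset.mem_insert_of_mem hj) fun e => hi (e ▸ hj)) (H i (Finset.mem_insert_self _ _)) h1
    simpa only [Finset.prod_insert hi, Finset.set_biUnion_insert] using h2

end Pool.Agent.MP_990230_pr.K8

end
end MrgPart0

-- ======== part 1: formerly Pool.Agent.MP_990230_pr.k8.Top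
section MrgPart1

/-! # SLE8: the statements of the top layer (crossing estimates for a class of set-ups) -/

open Set

noncomputable section

namespace Pool.Agent.MP_990230_pr.K8

/-- exponential tail for the number of crossings, for one modulus. -/
def CR0 (S : Set Stp) : Prop :=
  ∃ Λ lam C : ℝ, 2 ≤ Λ ∧ 0 < lam ∧ 0 < C ∧ ∀ (c : ℂ) (r : ℝ) (m : ℕ), 0 < r → Λ * r ≤ ‖c‖ →
    VB S c r (Λ * r) m (C * Real.exp (-(lam * m)))

/-- every exponential rate for rings of ratio two. -/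
def Rows (S : Set Stp) : Prop :=
  ∀ lam : ℝ, ∃ C : ℝ, 1 ≤ C ∧ ∀ (c : ℂ) (r : ℝ) (m : ℕ), 0 < r → (0 : ℂ) ∉ ring c r (2 * r) →
    VB S c r (2 * r) m (C * Real.exp (-(lam * m)))

/-- `m` crossings of `L` layers of width `w`, no layer being crossed `m + 1` times. -/
def Clean (x : ℕ → ℂ) (N m : ℕ) (c : ℂ) (r w : ℝ) (L : ℕ) : Prop :=
  Cr x N m c r (r * Real.exp (L * w)) ∧
    ∀ j < L, ¬ Cr x N (m + 1) c (r * Real.exp ((j : ℕ) * w)) (r * Real.exp ((j + 1 : ℕ) * w))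

/-- the clean estimate, with a gain in the exponent. -/
def CleanSt (S : Set Stp) (del : ℝ) : Prop :=
  ∀ m : ℕ, 1 ≤ m → ∃ σ C w0 : ℝ, 0 < σ ∧ ∀ w : ℝ, w0 ≤ w → ∀ (L : ℕ) (c : ℂ) (r : ℝ), 0 < r →
    Ty c r (r * Real.exp (L * w)) → (2 ≤ m ∨ c.im = 0) →
    Bnd S (ring c r (r * Real.exp (L * w))) (fun N x => ind (Clean x N m c r w L))
      (ENNReal.ofReal (Real.exp (C * w - (del * m + σ) * (L * w))))

/-- one crossing of an interior ring whose outer layer is crossed only once: sharp exponent. -/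
def M1St (S : Set Stp) (del : ℝ) : Prop :=
  ∃ w0 : ℝ, ∀ w : ℝ, w0 ≤ w → ∃ C : ℝ, 0 < C ∧ ∀ (c : ℂ) (r R : ℝ), 0 < r → r * Real.exp w ≤ R →
    256 * R ≤ c.im →
    Bnd S (ring c r R) (fun N x => ind (Cr x N 1 c r R ∧ ¬ Cr x N 2 c (R * Real.exp (-w)) R))
      (ENNReal.ofReal (C * (r / R) ^ del))

/-- the sharp estimate for all admissible windows. -/
def SHSt (S : Set Stp) (del : ℝ) : Prop :=
  ∃ K : ℝ, 1 ≤ K ∧ ∀ (c : ℂ) (r R : ℝ) (m : ℕ), 0 < r → 2 * r ≤ R → 1 ≤ m → Ty c r R →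
    VB S c r R m (K * (r / R) ^ (del * m))

/-- ordered visits of the `3 ε` neighbourhoods of `z 0, ..., z (n - 1)`. -/
def Vst (x : ℕ → ℂ) (N n : ℕ) (z : ℕ → ℂ) (ε : ℝ) : Prop :=
  ∃ k : ℕ → ℕ, (∀ j < n, k j ≤ N ∧ ‖x (k j) - z j‖ ≤ 3 * ε) ∧ ∀ j, j + 1 < n → k j ≤ k (j + 1)

/-- the global estimate (always active: the value is the probability). -/
def GlobSt (S : Set Stp) (del : ℝ) : Prop :=
  ∃ C : ℝ, 0 < C ∧ ∀ (n : ℕ) (z : ℕ → ℂ), 1 ≤ n → (∀ j < n, 0 < (z j).im) →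
    (∀ j < n, z j ≠ prv z j) → ∃ ε0 : ℝ, 0 < ε0 ∧ ∀ ε : ℝ, 0 < ε → ε < ε0 →
      Bnd S univ (fun N x => ind (Vst x N n z ε))
        (ENNReal.ofReal (C ^ n * ∏ j ∈ Finset.range n, (ε / ‖z j - prv z j‖) ^ del))

end Pool.Agent.MP_990230_pr.K8

end
end MrgPart1

-- ======== part 2: formerly Pool.Agent.MP_990230_pr.k8.Acc
section MrgPart2

/-! # SLE8 tools: the marker sees every dying point (LIND, ACC, FRESH), visits (helper48) -/

open Set MeasureTheory Filter Complex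
open scoped Topology Real

noncomputable section

namespace Pool.Agent.MP_990230_pr.K8

variable {a : ℝ} {U : ℝ → ℝ}

theorem Fm_bound (ha : 0 < a) (hU : Continuous U) {u : ℝ} (hu : 0 ≤ u) :
    ∃ K : ℝ, ∀ w : ℂ, 0 < w.im → ‖Fm a U u w‖ ≤ ‖w‖ + K := by
  obtain ⟨M, hM⟩ := isCompact_Icc.exists_bound_of_continuousOn
    (f := fun s => U s - U 0) (s := Icc 0 u) (hU.sub continuous_const).continuousOn
  refine ⟨3 * M + 8 * (a * u + 1) + |U 0|, fun w hw => ?_⟩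
  have h0 : 0 ≤ a * u := mul_nonneg ha.le hu
  have hz := Fm_alive ha hU hu hw
  have h1 := Zt_move ha hU le_rfl hu (show 0 < a * u + 1 by linarith) (by nlinarith) hM hz
  rw [Zt_Fm ha hU hu hw, ((loeA ha hU).init _ hz.1).2.1] at h1
  have h2 : ‖Fm a U u w‖ ≤ ‖w‖ + ‖w - (Fm a U u w - U 0)‖ + ‖(U 0 : ℂ)‖ := by
    calc ‖Fm a U u w‖ = ‖w - (w - (Fm a U u w - U 0)) + U 0‖ := by congr 1; ring
      _ ≤ _ := (norm_add_le _ _).trans (by gcongr; exact norm_sub_le _ _)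
  rw [norm_real, Real.norm_eq_abs] at h2
  linarith

/-- LIND: a connected set of living points whose images accumulate at `0` comes close to the
marker. -/
theorem lind_near (ha : 0 < a) (hU : Continuous U) {u y0 η : ℝ} (hu : 0 ≤ u) (hy : 0 < y0)
    (hη : 0 < η) (hT : ∀ y ∈ Ioc 0 y0, ‖Fm a U u (y * I) - Fm a U u (y0 * I)‖ ≤ η) {S : Set ℂ}
    (hS : IsPreconnected S) (hA : ∀ q ∈ S, Alive a U q u)
    (h0 : ∀ ε : ℝ, 0 < ε → ∃ q ∈ S, ‖Zt a U q u‖ ≤ ε) :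
    ∃ q ∈ S, ‖q - Fm a U u (y0 * I)‖ ≤ 2 * η := by
  obtain ⟨K, hK⟩ := Fm_bound ha hU hu
  obtain ⟨z0, hz0, _⟩ := h0 1 one_pos
  have p0 : 0 < ‖Zt a U z0 u‖ := norm_pos_iff.2 fun e => by
    have := Zt_im_pos hU hu (hA z0 hz0)
    rw [e] at this
    simp at this
  have pm : 0 < min ‖Zt a U z0 u‖ y0 := lt_min p0 hy
  have fin : volume (Metric.closedBall (0 : ℂ) (y0 + K)) ≠ ⊤ :=
    (isCompact_closedBall _ _).measure_lt_top.ne
  have hA0 : 0 ≤ (volume (Metric.closedBall (0 : ℂ) (y0 + K))).toReal := ENNReal.toReal_nonneg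
  have hvol : volume (Fm a U u '' {w | 0 < w.im ∧ ‖w - (0 : ℝ)‖ <
      Real.exp (Real.log (min ‖Zt a U z0 u‖ y0))}) ≤
      ENNReal.ofReal (volume (Metric.closedBall (0 : ℂ) (y0 + K))).toReal := by
    rw [ENNReal.ofReal_toReal fin]
    refine measure_mono ?_
    rintro _ ⟨w, ⟨h1, h2⟩, rfl⟩
    rw [Real.exp_log pm, ofReal_zero, sub_zero] at h2
    have := hK w h1
    have := min_le_right ‖Zt a U z0 u‖ y0
    rw [mem_closedBall_zero_iff]
    linarith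
  generalize (volume (Metric.closedBall (0 : ℂ) (y0 + K))).toReal = A at hA0 hvol
  have hq : 0 ≤ π * A / η ^ 2 := by positivity
  obtain ⟨s, hs, harc⟩ := short_arc (fun w hw => Fm_differentiableAt ha hU hu hw)
    (Fm_injOn ha hU hu) 0 (show Real.log (min ‖Zt a U z0 u‖ y0) - (π * A / η ^ 2 + 1) <
      Real.log (min ‖Zt a U z0 u‖ y0) by linarith) hA0 hvol
  have e1 : Real.exp s < min ‖Zt a U z0 u‖ y0 := by
    rw [← Real.exp_log pm]; exact Real.exp_lt_exp.2 hs.2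
  obtain ⟨z1, hz1, k1⟩ := h0 _ (Real.exp_pos s)
  have cont : ContinuousOn (fun q => ‖Zt a U q u‖) S := fun q hq =>
    (Zt_continuousAt ha hU hu (hA q hq)).norm.continuousWithinAt
  obtain ⟨q, hqS, hq1⟩ := hS.intermediate_value hz1 hz0 cont
    ⟨k1, (e1.trans_le (min_le_left _ _)).le⟩
  have hq1 : ‖Zt a U q u‖ = Real.exp s := hq1
  have qi := Zt_im_pos hU hu (hA q hqS)
  have hθ : arg (Zt a U q u) ∈ Ioo 0 π := by
    refine ⟨lt_of_le_of_ne (arg_nonneg_iff.2 qi.le) fun e => ?_,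
      lt_of_le_of_ne (arg_le_pi _) fun e => ?_⟩
    · exact qi.ne' (arg_eq_zero_iff.1 e.symm).2
    · exact qi.ne' (arg_eq_pi_iff.1 e).2
  have e2 : ((0 : ℝ) : ℂ) + exp (s + (arg (Zt a U q u) : ℝ) * I) = Zt a U q u := by
    rw [ofReal_zero, zero_add, exp_add, ← ofReal_exp, ← hq1]
    exact norm_mul_exp_arg_mul_I _
  have e3 : ((0 : ℝ) : ℂ) + exp (s + (π / 2 : ℝ) * I) = (Real.exp s : ℝ) * I := by
    rw [ofReal_zero, zero_add, exp_add, ← ofReal_exp]
    congr 1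
    push_cast
    exact exp_pi_div_two_mul_I
  have k2 := harc (π / 2) ⟨by positivity, by linarith [Real.pi_pos]⟩ _ hθ
  rw [e2, e3, Fm_Zt ha hU hu (hA q hqS)] at k2
  have k3 : ‖q - Fm a U u ((Real.exp s : ℝ) * I)‖ ≤ η := by
    by_contra hc
    rw [not_le] at hc
    have b1 : η ^ 2 ≤ ‖q - Fm a U u ((Real.exp s : ℝ) * I)‖ ^ 2 := by gcongr
    have b2 : η ^ 2 * (π * A / η ^ 2 + 1) = π * A + η ^ 2 := by field_simp
    have b3 := mul_le_mul_of_nonneg_right b1 (show 0 ≤ π * A / η ^ 2 + 1 by linarith)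
    have b4 : 0 < η ^ 2 := by positivity
    rw [sub_sub_cancel] at k2
    linarith
  have k4 := hT (Real.exp s) ⟨Real.exp_pos s, (e1.trans_le (min_le_right _ _)).le⟩
  have k5 := norm_sub_le_norm_sub_add_norm_sub q (Fm a U u ((Real.exp s : ℝ) * I))
    (Fm a U u (y0 * I))
  exact ⟨q, hqS, by linarith⟩

/-- a point alive at `s` and dead at `t` dies at a time `u`; living neighbours are near `0`. -/
theorem death_time (ha : 0 < a) (hU : Continuous U) {s t : ℝ} (hs : 0 ≤ s) (hst : s ≤ t) {p : ℂ}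
    (h1 : Alive a U p s) (h2 : ¬ Alive a U p t) : ∃ u ∈ Icc s t, ∀ ε : ℝ, 0 < ε →
      ∃ V ∈ 𝓝 p, ∀ q ∈ V, Alive a U q u → ‖Zt a U q u‖ ≤ ε := by
  have hA := loeA ha hU
  have ne : {r | r ∈ Icc s t ∧ ¬ Alive a U p r}.Nonempty := ⟨t, ⟨hst, le_rfl⟩, h2⟩
  have bd : BddBelow {r | r ∈ Icc s t ∧ ¬ Alive a U p r} := ⟨s, fun r hr => hr.1.1⟩
  have u1 : s ≤ sInf {r | r ∈ Icc s t ∧ ¬ Alive a U p r} := le_csInf ne fun r hr => hr.1.1
  have u2 : sInf {r | r ∈ Icc s t ∧ ¬ Alive a U p r} ≤ t := csInf_le bd ⟨⟨hst, le_rfl⟩, h2⟩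
  have u3 : ∀ r, s ≤ r → r < sInf {r | r ∈ Icc s t ∧ ¬ Alive a U p r} → Alive a U p r := by
    intro r a1 a2
    by_contra hc
    exact absurd (csInf_le bd ⟨⟨a1, a2.le.trans u2⟩, hc⟩) (not_le.2 a2)
  have u4 : ¬ Alive a U p (sInf {r | r ∈ Icc s t ∧ ¬ Alive a U p r}) := by
    intro hc
    obtain ⟨t', a1, a2⟩ := hA.extend p _ (hs.trans u1) hc
    exact absurd (le_csInf ne fun r hr => not_lt.1 fun h => hr.2 (hA.mono p r t' h.le a2))
      (not_le.2 a1)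
  generalize sInf {r | r ∈ Icc s t ∧ ¬ Alive a U p r} = u at u1 u2 u3 u4
  refine ⟨u, ⟨u1, u2⟩, fun ε hε => ?_⟩
  have u5 : s < u := lt_of_le_of_ne u1 fun e => u4 (e ▸ h1)
  obtain ⟨δ, hδ, hsh⟩ := exists_short ha hU t (show 0 < ε / 13 by linarith)
  have m1 : s ≤ max s (u - δ) := le_max_left _ _
  have m2 : max s (u - δ) < u := max_lt u5 (by linarith)
  have m3 : u - δ ≤ max s (u - δ) := le_max_right _ _
  obtain ⟨r, hr, r1, r2⟩ : ∃ r ∈ Icc (max s (u - δ)) u, Alive a U p r ∧ ‖Zt a U p r‖ < ε / 13 := by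
    by_contra hc
    push Not at hc
    exact u4 (alive_of_away ha hU (hs.trans m1) m2.le (show 0 < ε / 13 by linarith)
      (u3 _ m1 m2) hc)
  have r0 : 0 ≤ r := hs.trans (m1.trans hr.1)
  obtain ⟨b1, b2⟩ := hsh r u r0 hr.2 u2 (by linarith [hr.1])
  refine ⟨_, (Zt_continuousAt ha hU r0 r1).norm.eventually_lt_const r2, fun q hq hq' => ?_⟩
  have hq : ‖Zt a U q r‖ < ε / 13 := hq
  have c1 := Zt_move ha hU r0 hr.2 (show 0 < ε / 13 by linarith) b1 b2 hq'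
  have c2 := norm_le_norm_add_norm_sub' (Zt a U q u) (Zt a U q r)
  linarith

/-- ACC: if a segment alive at `s` has one end alive and one end dead at `t`, a marker comes
close to it. -/
theorem acc_seg (ha : 0 < a) (hU : Continuous U) {s t y0 η : ℝ} (hs : 0 ≤ s) (hst : s ≤ t)
    (hy : 0 < y0) (hη : 0 < η)
    (hT : ∀ u ∈ Icc s t, ∀ y ∈ Ioc 0 y0, ‖Fm a U u (y * I) - Fm a U u (y0 * I)‖ ≤ η) {z w : ℂ}
    (hz : Alive a U z t) (hw : ¬ Alive a U w t) (h : ∀ q ∈ segment ℝ z w, Alive a U q s) :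
    ∃ u ∈ Icc s t, ∃ q ∈ segment ℝ z w, ‖q - Fm a U u (y0 * I)‖ ≤ 2 * η := by
  have hc : Continuous fun θ : ℝ => z + θ • (w - z) := by fun_prop
  have seg : ∀ θ ∈ Icc (0 : ℝ) 1, z + θ • (w - z) ∈ segment ℝ z w := fun θ hθ => by
    rw [segment_eq_image']; exact ⟨θ, hθ, rfl⟩
  have cl : IsClosed {θ : ℝ | ¬ Alive a U (z + θ • (w - z)) t} :=
    ((isOpen_alive ha hU (hs.trans hst)).preimage hc).isClosed_compl
  obtain ⟨θ, ⟨θ1, θ2⟩, hmin⟩ := (isCompact_Icc.inter_right cl).exists_isLeast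
    (⟨1, ⟨zero_le_one, le_rfl⟩, by simpa using hw⟩ :
      (Icc (0 : ℝ) 1 ∩ {θ : ℝ | ¬ Alive a U (z + θ • (w - z)) t}).Nonempty)
  have θ0 : 0 < θ := lt_of_le_of_ne θ1.1 fun e => θ2 (by rw [← e]; simpa using hz)
  have al : ∀ x ∈ Ico 0 θ, Alive a U (z + x • (w - z)) t := fun x hx => by
    by_contra hd
    exact absurd (hmin ⟨⟨hx.1, hx.2.le.trans θ1.2⟩, hd⟩) (not_le.2 hx.2)
  obtain ⟨u, hu, hV⟩ := death_time ha hU hs hst (h _ (seg θ θ1)) θ2
  have al' : ∀ q ∈ (fun θ : ℝ => z + θ • (w - z)) '' Ico 0 θ, Alive a U q u := by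
    rintro _ ⟨x, hx, rfl⟩
    exact (loeA ha hU).mono _ _ _ hu.2 (al x hx)
  obtain ⟨q, ⟨x, hx, rfl⟩, hq⟩ := lind_near ha hU (hs.trans hu.1) hy hη (hT u hu)
    (isPreconnected_Ico.image _ hc.continuousOn) al' fun ε hε => by
      obtain ⟨V, hV1, hV2⟩ := hV ε hε
      have m : θ ∈ closure (Ico 0 θ) := by rw [closure_Ico θ0.ne]; exact ⟨θ0.le, le_rfl⟩
      obtain ⟨x, x1, x2⟩ := mem_closure_iff_nhds.1 m _ (hc.continuousAt.preimage_mem_nhds hV1)
      exact ⟨_, ⟨x, x2, rfl⟩, hV2 _ x1 (al' _ ⟨x, x2, rfl⟩)⟩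
  exact ⟨u, hu, _, seg x ⟨hx.1, hx.2.le.trans θ1.2⟩, hq⟩

/-- FRESH: a disc which the markers avoid lives or dies as a whole. -/
theorem fresh_ball (ha : 0 < a) (hU : Continuous U) {s t y0 η ρ ρ' : ℝ} (hs : 0 ≤ s) (hst : s ≤ t)
    (hy : 0 < y0) (hη : 0 < η)
    (hT : ∀ u ∈ Icc s t, ∀ y ∈ Ioc 0 y0, ‖Fm a U u (y * I) - Fm a U u (y0 * I)‖ ≤ η) {c : ℂ}
    (hρ : ρ' + 2 * η ≤ ρ) (hm : ∀ u ∈ Icc s t, ρ ≤ ‖Fm a U u (y0 * I) - c‖)
    (h : ∀ q ∈ Metric.ball c ρ', Alive a U q s) {z : ℂ} (hz : z ∈ Metric.ball c ρ')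
    (hz' : Alive a U z t) : ∀ w ∈ Metric.ball c ρ', Alive a U w t := by
  intro w hw
  by_contra hd
  have sub := (convex_ball c ρ').segment_subset hz hw
  obtain ⟨u, hu, q, q1, q2⟩ := acc_seg ha hU hs hst hy hη hT hz' hd fun q hq => h q (sub hq)
  have b1 := mem_ball_iff_norm.1 (sub q1)
  have b2 := hm u hu
  have b3 := norm_sub_le_norm_sub_add_norm_sub (Fm a U u (y0 * I)) q c
  rw [norm_sub_rev (Fm a U u (y0 * I)) q] at b3
  linarith

/-- there is a dead point near the marker. -/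
theorem dead_near (ha : 0 < a) (hU : Continuous U) {u y0 η : ℝ} (hu : 0 ≤ u) (hy : 0 < y0)
    (hT : ∀ y ∈ Ioc 0 y0, ‖Fm a U u (y * I) - Fm a U u (y0 * I)‖ ≤ η) :
    ∃ w, ¬ Alive a U w u ∧ ‖w - Fm a U u (y0 * I)‖ ≤ η := by
  by_contra hc
  push Not at hc
  have al : ∀ w ∈ Metric.closedBall (Fm a U u (y0 * I)) η, Alive a U w u := fun w hw => by
    by_contra hd
    exact absurd (mem_closedBall_iff_norm.1 hw) (not_le.2 (hc w hd))
  obtain ⟨w, hw, hmin⟩ := (isCompact_closedBall (Fm a U u (y0 * I)) η).exists_isMinOn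
    ⟨_, mem_closedBall_iff_norm.2 (hT y0 ⟨hy, le_rfl⟩)⟩ (f := fun w => (Zt a U w u).im)
    fun w hw => (continuous_im.continuousAt.comp
      (Zt_continuousAt ha hU hu (al w hw))).continuousWithinAt
  have p := Zt_im_pos hU hu (al w hw)
  have pm : 0 < min y0 ((Zt a U w u).im / 2) := lt_min hy (by linarith)
  have k : (Zt a U w u).im ≤ (Zt a U (Fm a U u ((min y0 ((Zt a U w u).im / 2) : ℝ) * I)) u).im :=
    hmin (mem_closedBall_iff_norm.2 (hT _ ⟨pm, min_le_left _ _⟩))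
  rw [Zt_Fm ha hU hu (by simpa using pm)] at k
  have := min_le_right y0 ((Zt a U w u).im / 2)
  simp only [mul_im, ofReal_re, I_im, mul_one, ofReal_im, I_re, mul_zero, add_zero] at k
  linarith

theorem first_level {f : ℝ → ℝ} {σ t A : ℝ} (hσ : σ ≤ t) (hf : ContinuousOn f (Icc σ t))
    (h1 : A ≤ f σ) (h2 : f t ≤ A) : ∃ t' ∈ Icc σ t, f t' = A ∧ ∀ s ∈ Icc σ t', A ≤ f s := by
  have cp : IsCompact (Icc σ t ∩ f ⁻¹' {A}) :=
    isCompact_Icc.of_isClosed_subset (hf.preimage_isClosed_of_isClosed isClosed_Icc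
      isClosed_singleton) inter_subset_left
  obtain ⟨s0, s1, s2⟩ := intermediate_value_Icc' hσ hf ⟨h2, h1⟩
  obtain ⟨t', ⟨t1, t2⟩, hmin⟩ := cp.exists_isLeast ⟨s0, s1, s2⟩
  refine ⟨t', t1, t2, fun s hs => not_lt.1 fun hlt => ?_⟩
  obtain ⟨s', b1, b2⟩ := intermediate_value_Icc' hs.1
    (hf.mono (Icc_subset_Icc_right (hs.2.trans t1.2))) ⟨hlt.le, h1⟩
  have b3 : t' ≤ s' := hmin ⟨⟨b1.1, b1.2.trans (hs.2.trans t1.2)⟩, b2⟩
  have b4 : s = t' := le_antisymm hs.2 (b3.trans b1.2)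
  have t2 : f t' = A := t2
  rw [b4] at hlt
  linarith

theorem marker_cont (ha : 0 < a) (hU : Continuous U) {y0 : ℝ} (hy : 0 < y0) :
    ContinuousOn (fun t => Fm a U t (y0 * I)) (Ici 0) :=
  (Fm_continuousOn ha hU).comp (f := fun t : ℝ => (t, (y0 : ℂ) * I)) (by fun_prop)
    fun t ht => ⟨ht, by simpa using hy⟩

/-- a marker entering a fresh disc makes the conformal radius of its centre small. -/
theorem one_det (ha : 0 < a) (hU : Continuous U) {σ t y0 η r R : ℝ} (hσ : 0 ≤ σ) (hσt : σ ≤ t)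
    (hy : 0 < y0) (hη : 0 < η)
    (hT : ∀ u ∈ Icc 0 t, ∀ y ∈ Ioc 0 y0, ‖Fm a U u (y * I) - Fm a U u (y0 * I)‖ ≤ η) {c : ℂ}
    (h1 : η ≤ r) (h2 : 4 * r ≤ R) (h3 : R ≤ c.im)
    (hm : ∀ u ∈ Icc 0 σ, R ≤ ‖Fm a U u (y0 * I) - c‖) (ht : ‖Fm a U t (y0 * I) - c‖ ≤ r) :
    R ≤ 4 * ups a U c σ ∧ ∃ t' ∈ Icc σ t, Alive a U c t' ∧ ups a U c t' ≤ 10 * r := by
  have hA := loeA ha hU
  have hz := Fm_alive ha hU (hσ.trans hσt) (show 0 < ((y0 : ℂ) * I).im by simpa using hy)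
  have f1 : ∀ w ∈ Metric.ball c (R / 2), Alive a U w σ :=
    fresh_ball ha hU le_rfl hσ hy hη (fun u hu => hT u ⟨hu.1, hu.2.trans hσt⟩) (by linarith) hm
      (fun q hq => by
        have b1 := mem_ball_iff_norm.1 hq
        have b2 := (abs_le.1 (abs_im_le_norm (q - c))).1
        rw [sub_im] at b2
        exact (hA.init q (by linarith)).1)
      (mem_ball_iff_norm.2 (by linarith)) (hA.mono _ _ _ hσt hz)
  refine ⟨by linarith [(loeB ha hU).ball c (R / 2) σ hσ (by linarith) f1], ?_⟩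
  obtain ⟨t', t1, t2, t3⟩ := first_level (f := fun s => ‖Fm a U s (y0 * I) - c‖) (A := 4 * r) hσt
    (((marker_cont ha hU hy).mono fun s hs => hσ.trans hs.1).sub continuousOn_const).norm
    (h2.trans (hm σ ⟨hσ, le_rfl⟩)) (by show ‖Fm a U t (y0 * I) - c‖ ≤ _; linarith)
  have t2 : ‖Fm a U t' (y0 * I) - c‖ = 4 * r := t2
  have f2 : Alive a U c t' :=
    fresh_ball ha hU hσ t1.1 hy hη (fun u hu => hT u ⟨hσ.trans hu.1, hu.2.trans t1.2⟩)
      (ρ' := 2 * r) (by linarith) t3 (fun q hq => f1 q (Metric.ball_subset_ball (by linarith) hq))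
      (mem_ball_iff_norm.2 (by linarith)) (hA.mono _ _ _ t1.2 hz) c
      (Metric.mem_ball_self (by linarith))
  obtain ⟨w, w1, w2⟩ := dead_near ha hU (hσ.trans t1.1) hy (hT t' ⟨hσ.trans t1.1, t1.2⟩)
  have b1 := koebe2 ha hU (hσ.trans t1.1) f2 w1
  have b2 := norm_sub_le_norm_sub_add_norm_sub w (Fm a U t' (y0 * I)) c
  rw [norm_sub_rev c w] at b1
  exact ⟨t', t1, f2, by linarith⟩

/-- just after any time the curve visits the living domain. -/
theorem gen_fresh (ha : 0 < a) (hU : Continuous U) {γ : ℝ → ℂ} (hγ : Generated a U γ) {τ τ' : ℝ}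
    (h0 : 0 ≤ τ) (h1 : τ < τ') : ∃ s ∈ Ioc τ τ', Alive a U (γ s) τ := by
  by_contra hc
  push Not at hc
  obtain ⟨z, z1, z2⟩ := grow_stmt clip_stmt loeA_stmt (loeB_stmt loeA_stmt) a U ha hU τ τ' h0 h1
  have e1 := hγ.2.2 τ h0
  have e2 := hγ.2.2 τ' (h0.trans h1.le)
  have m1 : z ∈ unbComp ({z : ℂ | 0 < z.im} \ γ '' Ioc 0 τ) := e1 ▸ z1
  refine z2 (show z ∈ {z | Alive a U z τ'} from e2 ▸ ?_)
  have sub : connectedComponentIn ({z : ℂ | 0 < z.im} \ γ '' Ioc 0 τ) z ⊆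
      {z : ℂ | 0 < z.im} \ γ '' Ioc 0 τ' := by
    intro q hq
    have q1 := connectedComponentIn_subset _ _ hq
    have q2 : Alive a U q τ := show q ∈ {z | Alive a U z τ} from e1 ▸
      ⟨q1, by rw [← connectedComponentIn_eq hq]; exact m1.2⟩
    refine ⟨q1.1, ?_⟩
    rintro ⟨s, hs, rfl⟩
    rcases le_or_gt s τ with h | h
    · exact q1.2 ⟨s, ⟨hs.1, h⟩, rfl⟩
    · exact hc s ⟨h, hs.2⟩ q2
  have m2 := mem_connectedComponentIn m1.1
  exact ⟨sub m2, fun hb => m1.2 (hb.subset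
    (isPreconnected_connectedComponentIn.subset_connectedComponentIn m2 sub))⟩

/-- a marker visits the neighbourhood of `z` just before the curve does. -/
theorem visit_marker (ha : 0 < a) (hU : Continuous U) {γ : ℝ → ℂ} (hγ : Generated a U γ)
    {y0 η ε s : ℝ} (hy : 0 < y0) (hη : 0 < η) (hε : 0 < ε) {z : ℂ} (hz : ε < z.im)
    (hv : visit γ z ε < ⊤) (hs : 0 ≤ s) (hsτ : s < (visit γ z ε).toReal)
    (hT : ∀ u ∈ Icc s (visit γ z ε).toReal, ∀ y ∈ Ioc 0 y0,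
      ‖Fm a U u (y * I) - Fm a U u (y0 * I)‖ ≤ η) :
    ∃ u ∈ Icc s (visit γ z ε).toReal, ‖Fm a U u (y0 * I) - z‖ ≤ ε + 3 * η := by
  obtain ⟨v1, v2⟩ := vis_stmt loeA_stmt
    (grow_stmt clip_stmt loeA_stmt (loeB_stmt loeA_stmt)) a U γ ha hU hγ
  obtain ⟨τ0, τ1, τ2, τ3⟩ := v2 z ε hε hz hv
  generalize (visit γ z ε).toReal = τ at hsτ hT τ0 τ1 τ2 τ3
  obtain ⟨s0, hs0, hmin⟩ := isCompact_Icc.exists_isMinOn (nonempty_Icc.2 hs)
    (f := fun r => ‖γ r - z‖) ((hγ.1.mono Icc_subset_Ici_self).sub continuousOn_const).norm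
  have r1 : ε < min ‖γ s0 - z‖ z.im := lt_min (τ2 s0 ⟨hs0.1, hs0.2.trans_lt hsτ⟩) hz
  have al := τ3 s ⟨hs, hsτ⟩ _ (min_le_right ‖γ s0 - z‖ z.im)
    fun r hr => (min_le_left _ _).trans (hmin hr)
  generalize min ‖γ s0 - z‖ z.im = ρ at r1 al
  have pm : 0 < min η (ρ - ε) := lt_min hη (by linarith)
  obtain ⟨δ, hδ, hnear⟩ := Metric.continuousWithinAt_iff.1 (hγ.1 τ τ0.le) _ pm
  obtain ⟨t', t1, t2⟩ := gen_fresh ha hU hγ τ0.le (show τ < τ + δ / 2 by linarith)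
  have n1 := hnear (show t' ∈ Ici (0 : ℝ) from τ0.le.trans t1.1.le) (by
    rw [Real.dist_eq, abs_of_nonneg (by linarith [t1.1])]; linarith [t1.2])
  have sub : segment ℝ (γ t') (γ τ) ⊆ Metric.ball (γ τ) (min η (ρ - ε)) :=
    (convex_ball _ _).segment_subset n1 (Metric.mem_ball_self pm)
  have cl : ∀ q ∈ segment ℝ (γ t') (γ τ), ‖q - z‖ < ε + min η (ρ - ε) := fun q hq => by
    have b1 := mem_ball_iff_norm.1 (sub hq)
    have b2 := norm_sub_le_norm_sub_add_norm_sub q (γ τ) z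
    linarith
  obtain ⟨u, hu, q, q1, q2⟩ := acc_seg ha hU hs hsτ.le hy hη hT t2 (v1 τ τ τ0 le_rfl) fun q hq =>
    al q (mem_ball_iff_norm.2 (by linarith [cl q hq, min_le_right η (ρ - ε)]))
  have b1 := cl q q1
  have b2 := norm_sub_le_norm_sub_add_norm_sub (Fm a U u (y0 * I)) q z
  rw [norm_sub_rev (Fm a U u (y0 * I)) q] at b2
  exact ⟨u, hu, by linarith [min_le_left η (ρ - ε)]⟩

end Pool.Agent.MP_990230_pr.K8

end
end MrgPart2

-- ======== part 3: formerly Pool.Agent.MP_990230_pr.k8.Tile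
section MrgPart3

/-! # SLE8: rewards of cells, colours, and every exponential rate for rings of ratio two -/

open Set MeasureTheory
open scoped ENNReal

noncomputable section

namespace Pool.Agent.MP_990230_pr.K8

/-- the reward of a cell. -/
def rew (β : ℝ) (M : ℕ) (d : ℂ) (ρ R : ℝ) : Pay := fun N x =>
  ∑ k ∈ Finset.range (M + 1), ENNReal.ofReal (Real.exp (β * k)) * ind (Cr x N k d ρ R)

theorem meas_rew (β : ℝ) (M : ℕ) (d : ℂ) (ρ R : ℝ) : (rew β M d ρ R).Meas :=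
  fun N => Finset.measurable_sum _ fun k _ => (meas_cr d ρ R k N).const_mul _

theorem le_rew {β : ℝ} {M N e : ℕ} {d : ℂ} {ρ R : ℝ} {x : ℕ → ℂ} (h : Cr x N e d ρ R)
    (he : e ≤ M) : ENNReal.ofReal (Real.exp (β * e)) ≤ rew β M d ρ R N x := by
  have := Finset.single_le_sum (s := Finset.range (M + 1))
    (f := fun k : ℕ => ENNReal.ofReal (Real.exp (β * k)) * ind (Cr x N k d ρ R))
    (fun _ _ => zero_le) (Finset.mem_range.2 (Nat.lt_succ_of_le he))
  rw [ind_pos h, mul_one] at this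
  exact this

/-- sum over the colours of the product of the payoffs of one colour. -/
def Zc {ι κ : Type*} [DecidableEq κ] (Q : Finset ι) (J : Finset κ) (col : ι → κ) (Y : ι → Pay) :
    Pay := fun N x => ∑ j ∈ J, ∏ q ∈ Q.filter (fun q => col q = j), Y q N x

theorem meas_Zc {ι κ : Type*} [DecidableEq κ] (Q : Finset ι) (J : Finset κ) (col : ι → κ)
    {Y : ι → Pay} (hY : ∀ q, (Y q).Meas) : (Zc Q J col Y).Meas :=
  fun N => Finset.measurable_sum _ fun _ _ => Finset.measurable_prod _ fun q _ => hY q N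

theorem le_Zc {ι κ : Type*} [DecidableEq κ] {Q : Finset ι} {J : Finset κ} {col : ι → κ}
    {Y : ι → Pay} (hcol : ∀ q ∈ Q, col q ∈ J) (hJ : J.Nonempty) (f : ι → ℝ) {N : ℕ} {x : ℕ → ℂ}
    (h : ∀ q ∈ Q, ENNReal.ofReal (Real.exp (f q)) ≤ Y q N x) :
    ENNReal.ofReal (Real.exp ((∑ q ∈ Q, f q) / J.card)) ≤ Zc Q J col Y N x := by
  have hc : (0 : ℝ) < J.card := by exact_mod_cast hJ.card_pos
  obtain ⟨j, hj, h1⟩ := Finset.exists_le_of_sum_le hJ
    (f := fun _ => (∑ q ∈ Q, f q) / J.card)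
    (g := fun j => ∑ q ∈ Q.filter (fun q => col q = j), f q) (by
      rw [Finset.sum_fiberwise_of_maps_to hcol, Finset.sum_const, nsmul_eq_mul]
      exact le_of_eq (by field_simp))
  refine le_trans ?_ (Finset.single_le_sum
    (f := fun j => ∏ q ∈ Q.filter (fun q => col q = j), Y q N x) (fun _ _ => zero_le) hj)
  refine (ENNReal.ofReal_le_ofReal (Real.exp_le_exp.2 h1)).trans ?_
  rw [Real.exp_sum, ENNReal.ofReal_prod_of_nonneg fun _ _ => (Real.exp_pos _).le]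
  exact Finset.prod_le_prod' fun q hq => h q (Finset.mem_filter.1 hq).1

theorem cr_chain {m : ℕ} {s t : ℕ → ℕ} (k1 : ∀ i < m, s i ≤ t i)
    (k2 : ∀ i, i + 1 < m → t i ≤ s (i + 1)) {i j : ℕ} (hij : i < j) (hj : j < m) : t i ≤ s j := by
  induction j with
  | zero => omega
  | succ j ih =>
    rcases Nat.lt_succ_iff_lt_or_eq.1 hij with h | h
    · exact (ih h (by omega)).trans ((k1 j (by omega)).trans (k2 j hj))
    · exact h ▸ k2 j hj

theorem ivt_disc {f : ℕ → ℝ} {σ τ : ℕ} {a s : ℝ} (hst : σ ≤ τ)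
    (hf : ∀ i, σ ≤ i → i < τ → f i - s ≤ f (i + 1)) (h1 : a < f σ) (h2 : f τ ≤ a) :
    ∃ k, σ ≤ k ∧ k ≤ τ ∧ f k ≤ a ∧ a - s ≤ f k := by
  classical
  have ex : ∃ k, σ ≤ k ∧ f k ≤ a := ⟨τ, hst, h2⟩
  obtain ⟨a1, a2⟩ := Nat.find_spec ex
  have a3 : Nat.find ex ≤ τ := Nat.find_min' ex ⟨hst, h2⟩
  have a4 : σ < Nat.find ex := lt_of_le_of_ne a1 fun e => by rw [← e] at a2; linarith
  refine ⟨_, a1, a3, a2, ?_⟩
  obtain ⟨i, hi⟩ : ∃ i, Nat.find ex = i + 1 := ⟨Nat.find ex - 1, by omega⟩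
  have a5 : ¬ (σ ≤ i ∧ f i ≤ a) := Nat.find_min ex (by omega)
  have a6 := hf i (by omega) (by omega)
  rw [hi]
  have : a < f i := not_le.1 fun h => a5 ⟨by omega, h⟩
  linarith

/-- the lattice point with index `g`. -/
def lat (c : ℂ) (s : ℝ) (g : ℤ × ℤ) : ℂ := c + ⟨s * g.1, s * g.2⟩

open Classical in
/-- the lattice points near the middle circle. -/
def cells (c : ℂ) (s mid : ℝ) (M : ℕ) : Finset (ℤ × ℤ) :=
  (Finset.Icc (-(M : ℤ)) M ×ˢ Finset.Icc (-(M : ℤ)) M).filter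
    fun g => |‖lat c s g - c‖ - mid| ≤ 2 * s

theorem exists_lat (c : ℂ) {s mid : ℝ} {M : ℕ} (hs : 0 < s) (hM : mid + s ≤ M * s) {z : ℂ}
    (h1 : ‖z - c‖ ≤ mid) (h2 : mid - s ≤ ‖z - c‖) :
    ∃ g ∈ cells c s mid M, ‖z - lat c s g‖ ≤ s := by
  have key : ∀ u : ℝ, |u| ≤ mid → |u - s * (round (u / s) : ℤ)| ≤ s / 2 ∧
      round (u / s) ∈ Finset.Icc (-(M : ℤ)) M := by
    intro u hu
    have a1 := abs_sub_round (u / s)
    have a2 : |u - s * (round (u / s) : ℤ)| ≤ s / 2 := by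
      have e : u - s * (round (u / s) : ℤ) = s * (u / s - (round (u / s) : ℤ)) := by field_simp
      rw [e, abs_mul, abs_of_pos hs]; nlinarith
    refine ⟨a2, Finset.mem_Icc.2 ?_⟩
    have a3 := abs_le.1 a2
    have a4 := abs_le.1 hu
    constructor
    · have : (-(M : ℝ)) ≤ (round (u / s) : ℤ) := by
        by_contra hc
        nlinarith [not_le.1 hc]
      exact_mod_cast this
    · have : ((round (u / s) : ℤ) : ℝ) ≤ M := by
        by_contra hc
        nlinarith [not_le.1 hc]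
      exact_mod_cast this
  obtain ⟨b1, b2⟩ := key (z - c).re ((Complex.abs_re_le_norm _).trans h1)
  obtain ⟨b3, b4⟩ := key (z - c).im ((Complex.abs_im_le_norm _).trans h1)
  have hn : ‖z - lat c s (round ((z - c).re / s), round ((z - c).im / s))‖ ≤ s := by
    refine (Complex.norm_le_abs_re_add_abs_im _).trans ?_
    simp only [lat, Complex.sub_re, Complex.add_re, Complex.sub_im, Complex.add_im] at b1 b3 ⊢
    rw [← sub_sub, ← sub_sub]
    linarith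
  refine ⟨_, Finset.mem_filter.2 ⟨Finset.mem_product.2 ⟨b2, b4⟩, ?_⟩, hn⟩
  set d := lat c s (round ((z - c).re / s), round ((z - c).im / s))
  have t1 := abs_norm_sub_norm_le (z - c) (d - c)
  rw [show z - c - (d - c) = z - d by ring] at t1
  have := abs_le.1 (t1.trans hn)
  rw [abs_le]; constructor <;> linarith [this.1, this.2]

theorem ball_sub_ring {c z : ℂ} {s r1 r2 Λ : ℝ} {M : ℕ} {g : ℤ × ℤ}
    (hw : 2 * (Λ + 2) * s ≤ r2 - r1) (hg : g ∈ cells c s ((r1 + r2) / 2) M)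
    (hz : ‖z - lat c s g‖ < Λ * s) : z ∈ ring c r1 r2 := by
  have a1 := abs_le.1 (Finset.mem_filter.1 hg).2
  have t1 := abs_norm_sub_norm_le (z - c) (lat c s g - c)
  rw [show z - c - (lat c s g - c) = z - lat c s g by ring] at t1
  have := abs_lt.1 (t1.trans_lt hz)
  constructor <;> nlinarith [this.1, this.2, a1.1, a1.2]

theorem lat_far (c : ℂ) {s : ℝ} (hs : 0 < s) {K : ℕ} {g g' : ℤ × ℤ} (hne : g ≠ g')
    (h : (g.1 % K, g.2 % K) = (g'.1 % K, g'.2 % K)) : K * s ≤ ‖lat c s g - lat c s g'‖ := by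
  have key : ∀ a b : ℤ, a ≠ b → a % K = b % K → (K : ℝ) * s ≤ |s * a - s * b| := by
    intro a b hab e
    have h1 : (K : ℤ) ≤ |a - b| :=
      Int.le_of_dvd (abs_pos.2 (sub_ne_zero.2 hab))
        ((dvd_abs _ _).2 (Int.dvd_of_emod_eq_zero (Int.emod_eq_emod_iff_emod_sub_eq_zero.1 e)))
    have h2 : (K : ℝ) ≤ |(a : ℝ) - b| := by exact_mod_cast h1
    rw [← mul_sub, abs_mul, abs_of_pos hs]; nlinarith
  simp only [Prod.mk.injEq] at h
  by_cases h1 : g.1 = g'.1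
  · have h2 : g.2 ≠ g'.2 := fun e => hne (Prod.ext h1 e)
    refine (key _ _ h2 h.2).trans (le_trans (le_of_eq ?_) (Complex.abs_im_le_norm _))
    simp [lat]
  · refine (key _ _ h1 h.1).trans (le_trans (le_of_eq ?_) (Complex.abs_re_le_norm _))
    simp [lat]

/-- crossings of a thin ring are crossings of cells. -/
theorem thin_geo {x : ℕ → ℂ} {N m M : ℕ} {c : ℂ} {s r1 r2 Λ : ℝ} (hs : 0 < s) (hΛ : 2 ≤ Λ)
    (hw : 2 * (Λ + 2) * s ≤ r2 - r1) (hM : r2 ≤ M * s) (hx : Reg N s x) (H : Cr x N m c r1 r2) :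
    ∃ e : ℤ × ℤ → ℕ, (∀ g, Cr x N (e g) (lat c s g) s (Λ * s) ∧ e g ≤ m) ∧
      ∑ g ∈ cells c s ((r1 + r2) / 2) M, e g = m := by
  classical
  obtain ⟨σ, τ, k1, k2⟩ := H
  have ex : ∀ i, ∃ (k : ℕ) (g : ℤ × ℤ), i < m → σ i ≤ k ∧ k ≤ τ i ∧
      g ∈ cells c s ((r1 + r2) / 2) M ∧ ‖x k - lat c s g‖ ≤ s := by
    intro i
    by_cases hi : i < m
    · obtain ⟨a1, a2, a3, a4⟩ := k1 i hi
      obtain ⟨k, b1, b2, b3, b4⟩ := ivt_disc (f := fun k => ‖x k - c‖) (a := (r1 + r2) / 2) (s := s)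
        a1 (fun j _ hj => by
          have t1 := norm_sub_norm_le (x j - c) (x (j + 1) - c)
          rw [show x j - c - (x (j + 1) - c) = -(x (j + 1) - x j) by ring, norm_neg] at t1
          linarith [hx.step j (by omega)]) (by nlinarith) (by nlinarith)
      obtain ⟨g, c1, c2⟩ := exists_lat c (M := M) hs (by nlinarith) b3 b4
      exact ⟨k, g, fun _ => ⟨b1, b2, c1, c2⟩⟩
    · exact ⟨0, 0, fun h => absurd h hi⟩
  choose k g hk using ex
  refine ⟨fun q => ((Finset.range m).filter fun i => g i = q).card, fun q => ⟨?_, ?_⟩, ?_⟩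
  · refine Cr.of_family (by nlinarith) σ k _ N (fun i hi => ?_) fun i hi j hj hij => ?_
    · obtain ⟨hi', rfl⟩ := Finset.mem_filter.1 hi
      have hi := Finset.mem_range.1 hi'
      obtain ⟨a1, a2, a3, a4⟩ := hk i hi
      refine ⟨a1, a2.trans (k1 i hi).2.1, not_lt.1 fun h => ?_, a4⟩
      exact absurd (ball_sub_ring hw a3 h).2 (not_lt.2 (k1 i hi).2.2.1)
    · have hi := Finset.mem_range.1 (Finset.mem_filter.1 hi).1
      have hj := Finset.mem_range.1 (Finset.mem_filter.1 hj).1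
      rcases lt_or_gt_of_ne hij with h | h
      · exact Or.inl ((hk i hi).2.1.trans (cr_chain (fun i hi => (k1 i hi).1) k2 h hj))
      · exact Or.inr ((hk j hj).2.1.trans (cr_chain (fun i hi => (k1 i hi).1) k2 h hi))
  · exact (Finset.card_filter_le _ _).trans (Finset.card_range m).le
  · rw [← Finset.card_eq_sum_card_fiberwise fun i hi => (hk i (Finset.mem_range.1 hi)).2.2.1,
      Finset.card_range]

variable {S : Set Stp} (hS : ∀ p ∈ S, p.Ok)
include hS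

theorem bnd_rew {β C : ℝ} (hβ : 0 < β) (hC : 0 ≤ C) {d : ℂ} {ρ R : ℝ} (M : ℕ)
    (H : ∀ k : ℕ, VB S d ρ R k (C * Real.exp (-(2 * β * k)))) :
    Bnd S (ring d ρ R) (rew β M d ρ R) (ENNReal.ofReal (C / (1 - Real.exp (-β)))) := by
  have h1 := Bnd.sum hS (Finset.range (M + 1)) (measurableSet_ring d ρ R)
    (Y := fun k N x => ENNReal.ofReal (Real.exp (β * k)) * ind (Cr x N k d ρ R))
    (fun k N => (meas_cr d ρ R k N).const_mul _)
    fun k _ => Bnd.smul hS (H k) (measurableSet_ring d ρ R) (meas_cr d ρ R k) _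
  refine h1.mono' hS subset_rfl ?_ fun _ _ => le_rfl
  have q1 : Real.exp (-β) < 1 := Real.exp_lt_one_iff.2 (by linarith)
  have e : ∀ k : ℕ, ENNReal.ofReal (Real.exp (β * k)) *
      ENNReal.ofReal (C * Real.exp (-(2 * β * k))) = ENNReal.ofReal (C * Real.exp (-β) ^ k) := by
    intro k
    rw [← ENNReal.ofReal_mul (Real.exp_pos _).le, ← Real.exp_nat_mul, mul_left_comm,
      ← Real.exp_add]
    congr 3; ring
  simp only [e]
  rw [← ENNReal.ofReal_sum_of_nonneg fun _ _ => by positivity, ← Finset.mul_sum]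
  refine ENNReal.ofReal_le_ofReal ?_
  rw [div_eq_mul_inv, ← tsum_geometric_of_lt_one (Real.exp_pos _).le q1]
  exact mul_le_mul_of_nonneg_left ((summable_geometric_of_lt_one (Real.exp_pos _).le q1).sum_le_tsum
    _ fun _ _ => by positivity) hC

theorem bnd_Zc {ι κ : Type*} [DecidableEq κ] (Q : Finset ι) (J : Finset κ) (col : ι → κ)
    {Y : ι → Pay} {Rg : Set ℂ} (mR : MeasurableSet Rg) {R : ι → Set ℂ}
    (hR : ∀ q, MeasurableSet (R q)) (hY : ∀ q, (Y q).Meas) (sub : ∀ q ∈ Q, R q ⊆ Rg)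
    (hd : ∀ q ∈ Q, ∀ q' ∈ Q, q ≠ q' → col q = col q' → Disjoint (R q) (R q')) {D : ℝ≥0∞}
    (hD : 1 ≤ D) (H : ∀ q ∈ Q, Bnd S (R q) (Y q) D) :
    Bnd S Rg (Zc Q J col Y) (J.card * D ^ Q.card) := by
  have h1 := Bnd.sum hS J mR (B := fun _ => D ^ Q.card)
    (Y := fun j N x => ∏ q ∈ Q.filter (fun q => col q = j), Y q N x)
    (fun j N => Finset.measurable_prod _ fun q _ => hY q N) fun j _ => by
      have := Bnd.prod hS (Q.filter fun q => col q = j) (B := fun _ => D) hR hY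
        (fun q hq q' hq' hne => hd q (Finset.mem_filter.1 hq).1 q' (Finset.mem_filter.1 hq').1 hne
          ((Finset.mem_filter.1 hq).2.trans (Finset.mem_filter.1 hq').2.symm))
        fun q hq => H q (Finset.mem_filter.1 hq).1
      refine this.mono' hS (iUnion₂_subset fun q hq => sub q (Finset.mem_filter.1 hq).1) ?_
        fun _ _ => le_rfl
      rw [Finset.prod_const]
      exact pow_le_pow_right₀ hD (Finset.card_filter_le _ _)
  rw [Finset.sum_const, nsmul_eq_mul] at h1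
  exact h1

/-- product over concentric layers. -/
theorem bnd_layers {c : ℂ} {ρ : ℕ → ℝ} (hρ : Monotone ρ) (n : ℕ) (m : ℕ → ℕ) {B : ℕ → ℝ}
    (hB : ∀ j, 0 ≤ B j) (H : ∀ j < n, VB S c (ρ j) (ρ (j + 1)) (m j) (B j)) {r R : ℝ}
    (hr : r ≤ ρ 0) (hR : ρ n ≤ R) :
    Bnd S (ring c r R) (fun N x => ind (∀ j < n, Cr x N (m j) c (ρ j) (ρ (j + 1))))
      (ENNReal.ofReal (∏ j ∈ Finset.range n, B j)) := by
  have := Bnd.prod hS (Finset.range n) (R := fun j => ring c (ρ j) (ρ (j + 1)))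
    (fun j => measurableSet_ring _ _ _) (fun j => meas_cr c (ρ j) (ρ (j + 1)) (m j))
    (fun i _ j _ hij => by
      rcases lt_or_gt_of_ne hij with h | h
      · exact ring_disj c (hρ h)
      · exact (ring_disj c (hρ h)).symm)
    fun j hj => H j (Finset.mem_range.1 hj)
  refine this.mono' hS (iUnion₂_subset fun j hj => ring_mono (hr.trans (hρ (Nat.zero_le j)))
    ((hρ (Finset.mem_range.1 hj)).trans hR)) ?_ fun N x => ind_le fun h => ?_
  · rw [ENNReal.ofReal_prod_of_nonneg fun j _ => hB j]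
  · rw [Finset.prod_eq_one fun j hj => ind_pos (h j (Finset.mem_range.1 hj))]

theorem VB.layers {c : ℂ} {ρ : ℕ → ℝ} (hρ : Monotone ρ) (n m : ℕ) {B : ℝ} (hB : 0 ≤ B)
    (H : ∀ j < n, VB S c (ρ j) (ρ (j + 1)) m B) {r R : ℝ} (hr : r ≤ ρ 0) (hR : ρ n ≤ R) :
    VB S c r R m (B ^ n) := by
  have := bnd_layers hS hρ n (fun _ => m) (B := fun _ => B) (fun _ => hB) H hr hR
  rw [Finset.prod_const, Finset.card_range] at this
  exact this.mono' hS subset_rfl le_rfl fun N x => ind_mono fun h j hj =>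
    h.mono le_rfl le_rfl (hr.trans (hρ (Nat.zero_le j))) ((hρ hj).trans hR)

theorem VB.mono {c : ℂ} {r R r' R' B B' : ℝ} {m m' : ℕ} (H : VB S c r' R' m' B') (hr : r ≤ r')
    (hR : R' ≤ R) (hm : m' ≤ m) (hB : B' ≤ B) : VB S c r R m B :=
  Bnd.mono' hS H (ring_mono hr hR) (ENNReal.ofReal_le_ofReal hB)
    fun _ _ => ind_mono fun h => h.mono le_rfl hm hr hR

theorem VB.one (c : ℂ) (r R : ℝ) (m : ℕ) {B : ℝ} (hB : 1 ≤ B) : VB S c r R m B :=
  (Bnd.const hS _ 1).mono' hS subset_rfl (ENNReal.one_le_ofReal.2 hB) fun _ _ => ind_le_one _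

theorem thin {Λ β D : ℝ} (hΛ : 2 ≤ Λ) (hD : 1 ≤ D)
    (H : ∀ (d : ℂ) (ρ : ℝ) (M : ℕ), 0 < ρ → Λ * ρ ≤ ‖d‖ →
      Bnd S (ring d ρ (Λ * ρ)) (rew β M d ρ (Λ * ρ)) (ENNReal.ofReal D))
    {K M : ℕ} (hK : 2 * Λ ≤ K) {c : ℂ} {s r1 r2 : ℝ} (hs : 0 < s) (hw : 2 * (Λ + 2) * s ≤ r2 - r1)
    (hM : r2 ≤ M * s) (h0 : (0 : ℂ) ∉ ring c r1 r2) (m : ℕ) :
    VB S c r1 r2 m ((K : ℝ) ^ 2 * D ^ ((2 * M + 1) ^ 2) * Real.exp (-(β * m / (K : ℝ) ^ 2))) := by
  have hK0 : 0 < K := by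
    have : (0 : ℝ) < K := by linarith
    exact_mod_cast this
  set J : Finset (ℤ × ℤ) := Finset.Ico (0 : ℤ) K ×ˢ Finset.Ico (0 : ℤ) K with hJ
  have cJ : J.card = K ^ 2 := by simp [hJ, Finset.card_product, sq]
  set Q := cells c s ((r1 + r2) / 2) M with hQ
  have cQ : Q.card ≤ (2 * M + 1) ^ 2 := by
    refine (Finset.card_filter_le _ _).trans (le_of_eq ?_)
    rw [Finset.card_product, Int.card_Icc, sq]
    congr 1 <;> omega
  have h1 := bnd_Zc hS Q J (fun g => (g.1 % K, g.2 % K)) (measurableSet_ring c r1 r2)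
    (Y := fun g => rew β m (lat c s g) s (Λ * s)) (R := fun g => ring (lat c s g) s (Λ * s))
    (fun _ => measurableSet_ring _ _ _) (fun _ => meas_rew _ _ _ _ _)
    (fun g hg z hz => ball_sub_ring hw hg hz.2)
    (fun g _ g' _ hne e => disjoint_left.2 fun z a1 a2 => by
      have t1 := lat_far c hs hne e
      have t2 := norm_sub_le (z - lat c s g') (z - lat c s g)
      rw [show z - lat c s g' - (z - lat c s g) = lat c s g - lat c s g' by ring] at t2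
      nlinarith [a1.2, a2.2])
    (ENNReal.one_le_ofReal.2 hD) fun g hg => H _ _ _ hs (not_lt.1 fun h =>
      h0 (ball_sub_ring hw hg (by simpa using h)))
  have h2 := h1.smul hS (measurableSet_ring c r1 r2) (meas_Zc _ _ _ fun _ => meas_rew _ _ _ _ _)
    (ENNReal.ofReal (Real.exp (-(β * m / (K : ℝ) ^ 2))))
  refine h2.mono hS subset_rfl ?_ hs fun N x hx => ind_le fun h => ?_
  · rw [mul_comm, ENNReal.ofReal_mul (by positivity), ENNReal.ofReal_mul (by positivity),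
      ENNReal.ofReal_pow (by linarith : 0 ≤ D), cJ]
    refine mul_le_mul_left (mul_le_mul' (le_of_eq ?_)
      (pow_le_pow_right₀ (ENNReal.one_le_ofReal.2 hD) cQ)) _
    rw [← Nat.cast_pow, ENNReal.ofReal_natCast]
  · obtain ⟨e, e1, e2⟩ := thin_geo hs hΛ hw hM hx h
    have hKZ : (0 : ℤ) < K := by exact_mod_cast hK0
    have h3 := le_Zc (Q := Q) (J := J) (col := fun g => (g.1 % K, g.2 % K))
      (Y := fun g => rew β m (lat c s g) s (Λ * s))
      (fun g _ => Finset.mem_product.2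
        ⟨Finset.mem_Ico.2 ⟨Int.emod_nonneg _ hKZ.ne', Int.emod_lt_of_pos _ hKZ⟩,
          Finset.mem_Ico.2 ⟨Int.emod_nonneg _ hKZ.ne', Int.emod_lt_of_pos _ hKZ⟩⟩)
      (Finset.card_pos.1 (by rw [cJ]; positivity)) (fun g => β * e g) (N := N) (x := x)
      fun g _ => le_rew (e1 g).1 (e1 g).2
    rw [← Finset.mul_sum, ← Nat.cast_sum, e2, cJ, Nat.cast_pow] at h3
    refine le_trans (le_of_eq ?_) (mul_le_mul_right h3 _)
    rw [← ENNReal.ofReal_mul (Real.exp_pos _).le, ← Real.exp_add]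
    simp

/-- ROWS. -/
theorem rows (H : CR0 S) : Rows S := by
  obtain ⟨Λ, lam0, C0, hΛ, hl, hC, H⟩ := H
  intro lam
  set β := lam0 / 2 with hβ
  have hβ0 : 0 < β := by positivity
  set D := max 1 (C0 / (1 - Real.exp (-β)))
  have hD : 1 ≤ D := le_max_left _ _
  have H1 : ∀ (d : ℂ) (ρ : ℝ) (M : ℕ), 0 < ρ → Λ * ρ ≤ ‖d‖ →
      Bnd S (ring d ρ (Λ * ρ)) (rew β M d ρ (Λ * ρ)) (ENNReal.ofReal D) := fun d ρ M h1 h2 =>
    (bnd_rew hS hβ0 hC.le M fun k => by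
      rw [show 2 * β = lam0 by rw [hβ]; ring]; exact H d ρ k h1 h2).mono' hS subset_rfl
      (ENNReal.ofReal_le_ofReal (le_max_right _ _)) fun _ _ => le_rfl
  obtain ⟨K, hK⟩ := exists_nat_ge (2 * Λ)
  have hK1 : (1 : ℝ) ≤ K := by linarith
  obtain ⟨J, hJ⟩ := exists_nat_gt (max 0 (lam * (K : ℝ) ^ 2 / β))
  have hJ0 : (0 : ℝ) < J := (le_max_left _ _).trans_lt hJ
  have hJ1 : lam ≤ J * (β / (K : ℝ) ^ 2) := by
    have := ((le_max_right _ _).trans_lt hJ).le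
    rw [div_le_iff₀ hβ0] at this
    rw [← mul_div_assoc, le_div_iff₀ (by positivity)]
    exact this
  obtain ⟨M, hM⟩ := exists_nat_ge (4 * J * (Λ + 2))
  have hA : 1 ≤ (K : ℝ) ^ 2 * D ^ ((2 * M + 1) ^ 2) :=
    one_le_mul_of_one_le_of_one_le (one_le_pow₀ hK1) (one_le_pow₀ hD)
  refine ⟨((K : ℝ) ^ 2 * D ^ ((2 * M + 1) ^ 2)) ^ J, one_le_pow₀ hA, fun c r m hr h0 => ?_⟩
  have hs : 0 < r / (2 * J * (Λ + 2)) := by positivity
  have mono : Monotone fun j : ℕ => r * (1 + j / J) := fun i j hij => by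
    have : (i : ℝ) ≤ j := by exact_mod_cast hij
    show r * (1 + i / J) ≤ r * (1 + j / J)
    gcongr
  have e0 : r ≤ r * (1 + (0 : ℕ) / J) := by simp
  have eJ : r * (1 + (J : ℕ) / J) ≤ 2 * r := by rw [div_self hJ0.ne']; linarith
  have h1 := VB.layers hS mono J m (by positivity) (fun j hj => thin hS hΛ hD H1 hK (M := M) hs
    (c := c) (le_of_eq (by push_cast; field_simp; ring))
    (((mono hj).trans eJ).trans (by
      rw [← mul_div_assoc, le_div_iff₀ (by positivity)]; nlinarith))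
    (fun h => h0 (ring_mono (e0.trans (mono (Nat.zero_le j))) ((mono hj).trans eJ) h)) m) e0 eJ
  refine h1.mono hS le_rfl le_rfl le_rfl ?_
  rw [mul_pow, ← Real.exp_nat_mul]
  refine mul_le_mul_of_nonneg_left (Real.exp_le_exp.2 ?_) (by positivity)
  have : lam * m ≤ J * (β / (K : ℝ) ^ 2) * m := mul_le_mul_of_nonneg_right hJ1 (Nat.cast_nonneg m)
  have e : (J : ℝ) * -(β * m / (K : ℝ) ^ 2) = -(J * (β / (K : ℝ) ^ 2) * m) := by ring
  linarith

end Pool.Agent.MP_990230_pr.K8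

end
end MrgPart3

-- marker of a merged file
example : 731051 + 449763 = 731051 + 449763 := rfl

end MrgPart1

-- marker of a merged file
example : 731051 + 449763 = 731051 + 449763 := rfl
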