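import Pool.Agent.MP_990230_pr.k8.Meas
import Pool.Agent.MP_990230_pr.CE
import Pool.Agent.MP_990230_pr.Pot
import Pool.Agent.MP_990230_pr.PotN

-- ======== part 0: formerly Pool.Agent.MP_990230_pr.k8.Mir
section MrgPart0

-- ======== part 0: formerly Pool.Agent.MP_990230_pr.k8.Sol
section MrgPart0

/-! # SLE8 frame: existence, uniqueness, stability and time reversal of trajectories
(any coefficient `b`, any real or complex starting point) -/

open Set MeasureTheory Filter Complex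
open scoped ENNReal NNReal Topology ComplexConjugate

noncomputable section

namespace Pool.Agent.MP_990230_pr.K8

/-- `1 / ζ`, cut off at radius `μ`. -/
def rc (μ : ℝ) (ζ : ℂ) : ℂ := conj ζ / ((max ‖ζ‖ μ : ℝ) : ℂ) ^ 2

theorem rc_eq {μ : ℝ} {ζ : ℂ} (h : μ ≤ ‖ζ‖) : rc μ ζ = ζ⁻¹ := by
  rw [rc, max_eq_left h, Complex.inv_def, normSq_eq_norm_sq]
  push_cast
  rw [div_eq_mul_inv]

theorem rc_bound {μ : ℝ} (hμ : 0 < μ) (ζ : ℂ) : ‖rc μ ζ‖ ≤ 1 / μ := by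
  have h1 : μ ≤ max ‖ζ‖ μ := le_max_right _ _
  have h2 : ‖ζ‖ ≤ max ‖ζ‖ μ := le_max_left _ _
  have h3 : 0 < max ‖ζ‖ μ := hμ.trans_le h1
  rw [rc, norm_div, norm_pow, norm_real, Real.norm_of_nonneg h3.le, Complex.norm_conj,
    div_le_div_iff₀ (by positivity) hμ]
  nlinarith [norm_nonneg ζ]

theorem rc_lip {μ : ℝ} (hμ : 0 < μ) (x y : ℂ) : ‖rc μ x - rc μ y‖ ≤ 3 / μ ^ 2 * ‖x - y‖ := by
  set p := max ‖x‖ μ with hp
  set q := max ‖y‖ μ with hq
  have p1 : μ ≤ p := le_max_right _ _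
  have q1 : μ ≤ q := le_max_right _ _
  have q2 : ‖y‖ ≤ q := le_max_left _ _
  have p0 : 0 < p := hμ.trans_le p1
  have q0 : 0 < q := hμ.trans_le q1
  have h1 : |q - p| ≤ ‖x - y‖ := by
    refine (abs_max_sub_max_le_abs _ _ _).trans ?_
    rw [abs_sub_comm]; exact abs_norm_sub_norm_le x y
  have e : rc μ x - rc μ y =
      conj (x - y) / (p : ℂ) ^ 2 + conj y * (((q - p) * (p + q) / (p ^ 2 * q ^ 2) : ℝ) : ℂ) := by
    have a : (p : ℂ) ≠ 0 := ofReal_ne_zero.2 p0.ne'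
    have b : (q : ℂ) ≠ 0 := ofReal_ne_zero.2 q0.ne'
    rw [rc, rc, ← hp, ← hq, map_sub]
    push_cast
    field_simp
    ring
  rw [e]
  refine (norm_add_le _ _).trans ?_
  rw [norm_div, norm_mul, norm_pow, Complex.norm_conj, Complex.norm_conj, norm_real, norm_real,
    Real.norm_of_nonneg p0.le, Real.norm_eq_abs, abs_div, abs_mul, abs_of_pos (add_pos p0 q0),
    abs_of_pos (by positivity : 0 < p ^ 2 * q ^ 2)]
  have h2 : ‖x - y‖ / p ^ 2 ≤ ‖x - y‖ / μ ^ 2 := by gcongr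
  have h3 : ‖y‖ * (|q - p| * (p + q) / (p ^ 2 * q ^ 2)) ≤
      q * (‖x - y‖ * (p + q) / (p ^ 2 * q ^ 2)) := by gcongr
  have h4 : q * (‖x - y‖ * (p + q) / (p ^ 2 * q ^ 2)) = ‖x - y‖ / (p * q) + ‖x - y‖ / p ^ 2 := by
    field_simp
  have h5 : ‖x - y‖ / (p * q) ≤ ‖x - y‖ / μ ^ 2 := by rw [sq]; gcongr
  have h6 : 3 / μ ^ 2 * ‖x - y‖ = 3 * (‖x - y‖ / μ ^ 2) := by ring
  linarith

theorem rc_cont {μ : ℝ} (hμ : 0 < μ) : Continuous (rc μ) :=
  (LipschitzWith.of_dist_le_mul (K := ⟨3 / μ ^ 2, by positivity⟩) fun x y => by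
    rw [dist_eq_norm, dist_eq_norm]
    exact rc_lip hμ x y).continuous

/-- a trajectory of the cut-off field. -/
def CTraj (b : ℝ) (U : ℝ → ℝ) (μ σ τ : ℝ) (z : ℝ → ℂ) : Prop :=
  ∀ s ∈ Icc σ τ, HasDerivWithinAt (fun r => z r + (U r : ℂ)) (b * rc μ (z s)) (Icc σ τ) s

variable {b : ℝ} {U V : ℝ → ℝ} {μ σ τ : ℝ} {z z' : ℝ → ℂ}

theorem rc_field (hμ : 0 < μ) (b v : ℝ) :
    LipschitzWith ⟨|b| * (3 / μ ^ 2), by positivity⟩ (fun x : ℂ => b * rc μ (x - v)) :=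
  LipschitzWith.of_dist_le_mul fun x y => by
    have := rc_lip hμ (x - v) (y - v)
    rw [sub_sub_sub_cancel_right] at this
    rw [dist_eq_norm, dist_eq_norm, ← mul_sub, norm_mul, norm_real, Real.norm_eq_abs]
    show _ ≤ |b| * (3 / μ ^ 2) * _
    rw [mul_assoc]; gcongr

theorem ct_exists (hU : Continuous U) (hμ : 0 < μ) (hστ : σ ≤ τ) (b : ℝ) (z0 : ℂ) :
    ∃ z, CTraj b U μ σ τ z ∧ z σ = z0 := by
  have hpl : IsPicardLindelof (fun t (x : ℂ) => (b : ℂ) * rc μ (x - U t))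
      (tmin := σ) (tmax := τ) ⟨σ, left_mem_Icc.2 hστ⟩ (z0 + U σ)
      (Real.toNNReal (|b| * (1 / μ) * (τ - σ))) 0 (Real.toNNReal (|b| * (1 / μ)))
      ⟨|b| * (3 / μ ^ 2), by positivity⟩ := by
    have h0 := sub_nonneg.2 hστ
    refine ⟨fun t _ => (rc_field hμ b (U t)).lipschitzOnWith, fun x _ => ?_, fun t _ x _ => ?_, ?_⟩
    · exact (continuous_const.mul ((rc_cont hμ).comp
        (continuous_const.sub (continuous_ofReal.comp hU)))).continuousOn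
    · rw [Real.coe_toNNReal _ (by positivity), norm_mul, norm_real, Real.norm_eq_abs]
      gcongr; exact rc_bound hμ _
    · rw [Real.coe_toNNReal _ (by positivity), Real.coe_toNNReal _ (by positivity)]
      simp [hστ]
  obtain ⟨α, h0, h1⟩ := hpl.exists_eq_forall_mem_Icc_hasDerivWithinAt₀
  refine ⟨fun s => α s - U s, fun s hs => ?_, by simp [show α σ = _ from h0]⟩
  simpa using h1 s hs

theorem CTraj.mono {τ' : ℝ} (h : CTraj b U μ σ τ z) (h2 : τ' ≤ τ) : CTraj b U μ σ τ' z :=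
  fun s hs => (h s (Icc_subset_Icc_right h2 hs)).mono (Icc_subset_Icc_right h2)

theorem CTraj.cont (hU : Continuous U) (h : CTraj b U μ σ τ z) : ContinuousOn z (Icc σ τ) := by
  have h1 : ContinuousOn (fun r => z r + (U r : ℂ)) (Icc σ τ) := fun s hs =>
    (h s hs).continuousWithinAt
  exact (h1.sub (continuous_ofReal.comp hU).continuousOn).congr fun s _ => by simp

theorem CTraj.traj (hμ : 0 < μ) (h : CTraj b U μ σ τ z) (hb : ∀ s ∈ Icc σ τ, μ ≤ ‖z s‖) :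
    Traj b U σ τ z :=
  ⟨fun s hs => norm_pos_iff.1 (hμ.trans_le (hb s hs)), fun s hs => by
    have := h s hs
    rwa [rc_eq (hb s hs), ← div_eq_mul_inv] at this⟩

theorem Traj.ct (_hμ : 0 < μ) (h : Traj b U σ τ z) (hb : ∀ s ∈ Icc σ τ, μ ≤ ‖z s‖) :
    CTraj b U μ σ τ z := fun s hs => by
  rw [rc_eq (hb s hs), ← div_eq_mul_inv]; exact h.dz s hs

theorem Traj.away (hU : Continuous U) (h : Traj b U σ τ z) :
    ∃ μ : ℝ, 0 < μ ∧ ∀ s ∈ Icc σ τ, μ ≤ ‖z s‖ := by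
  rcases lt_or_ge τ σ with hτ | hτ
  · exact ⟨1, one_pos, fun s hs => absurd (hs.1.trans hs.2) (not_le.2 hτ)⟩
  obtain ⟨s0, hs0, hmin⟩ := isCompact_Icc.exists_isMinOn (nonempty_Icc.2 hτ) (h.cont hU).norm
  exact ⟨_, norm_pos_iff.2 (h.ne s0 hs0), fun s hs => hmin hs⟩

theorem ct_near (hμ : 0 < μ) (h : CTraj b U μ σ τ z) (h' : CTraj b V μ σ τ z') {δ δ' : ℝ}
    (hV : ∀ s ∈ Icc σ τ, |V s - U s| ≤ δ) (h0 : ‖z σ + U σ - (z' σ + V σ)‖ ≤ δ') :
    ∀ s ∈ Icc σ τ, ‖z s + U s - (z' s + V s)‖ ≤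
      gronwallBound δ' (|b| * (3 / μ ^ 2)) (|b| * (3 / μ ^ 2) * δ) (s - σ) := by
  have hI : ∀ s ∈ Ico σ τ, Icc σ τ ∈ 𝓝[Ici s] s := fun s hs => Icc_mem_nhdsGE_of_mem hs
  have key := dist_le_of_approx_trajectories_ODE (εf := 0) (εg := |b| * (3 / μ ^ 2) * δ) (δ := δ')
    (v := fun s x => (b : ℂ) * rc μ (x - U s)) (fun s => rc_field hμ b (U s))
    (fun s hs => (h s hs).continuousWithinAt)
    (fun s hs => (h s (Ico_subset_Icc_self hs)).mono_of_mem_nhdsWithin (hI s hs))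
    (fun s _ => by simp) (fun s hs => (h' s hs).continuousWithinAt)
    (fun s hs => (h' s (Ico_subset_Icc_self hs)).mono_of_mem_nhdsWithin (hI s hs))
    (fun s hs => by
      have := rc_lip hμ (z' s) (z' s + V s - U s)
      rw [show z' s - (z' s + V s - U s) = -((V s : ℂ) - U s) by ring, norm_neg, ← ofReal_sub,
        norm_real, Real.norm_eq_abs] at this
      rw [dist_eq_norm, ← mul_sub, norm_mul, norm_real, Real.norm_eq_abs, mul_assoc]
      gcongr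
      exact this.trans (by gcongr; exact hV s (Ico_subset_Icc_self hs)))
    (by rwa [dist_eq_norm])
  intro s hs
  have := key s hs
  rwa [dist_eq_norm, zero_add] at this

theorem CTraj.uniq (hμ : 0 < μ) (h : CTraj b U μ σ τ z) (h' : CTraj b U μ σ τ z')
    (e : z σ = z' σ) : EqOn z z' (Icc σ τ) := by
  intro s hs
  have := ct_near hμ h h' (δ := 0) (δ' := 0) (fun _ _ => by simp) (by simp [e]) s hs
  rw [mul_zero, gronwallBound_ε0_δ0] at this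
  simpa [sub_eq_zero] using this

theorem Traj.uniq (hU : Continuous U) (h : Traj b U σ τ z) (h' : Traj b U σ τ z')
    (e : z σ = z' σ) : EqOn z z' (Icc σ τ) := by
  obtain ⟨m, hm, h1⟩ := h.away hU
  obtain ⟨m', hm', h2⟩ := h'.away hU
  exact (h.ct (lt_min hm hm') fun s hs => (min_le_left _ _).trans (h1 s hs)).uniq (lt_min hm hm')
    (h'.ct (lt_min hm hm') fun s hs => (min_le_right _ _).trans (h2 s hs)) e

theorem Traj.congr (h : Traj b U σ τ z) (e : EqOn z z' (Icc σ τ)) (eU : EqOn U V (Icc σ τ)) :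
    Traj b V σ τ z' :=
  ⟨fun s hs => e hs ▸ h.ne s hs, fun s hs => by
    rw [← e hs]
    exact (h.dz s hs).congr_of_mem (fun r hr => by rw [e hr, eU hr]) hs⟩

/-- either the trajectory exists up to `τ` or it comes `ε`-close to `0`. -/
theorem traj_or_small (hU : Continuous U) (hστ : σ ≤ τ) (b : ℝ) {z0 : ℂ} (h0 : z0 ≠ 0) {ε : ℝ}
    (hε : 0 < ε) : (∃ z, Traj b U σ τ z ∧ z σ = z0) ∨
      ∃ s ∈ Icc σ τ, ∃ z, Traj b U σ s z ∧ z σ = z0 ∧ ‖z s‖ ≤ ε := by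
  have hμ : 0 < min ε ‖z0‖ := lt_min hε (norm_pos_iff.2 h0)
  obtain ⟨z, hz, e⟩ := ct_exists hU hμ hστ b z0
  by_cases hall : ∀ s ∈ Icc σ τ, min ε ‖z0‖ ≤ ‖z s‖
  · exact Or.inl ⟨z, hz.traj hμ hall, e⟩
  right
  push Not at hall
  obtain ⟨s1, hs1, hlt⟩ := hall
  have hc := (hz.cont hU).norm
  have k1 : IsClosed (Icc σ τ ∩ (fun s => ‖z s‖) ⁻¹' Iic (min ε ‖z0‖)) :=
    hc.preimage_isClosed_of_isClosed isClosed_Icc isClosed_Iic
  obtain ⟨s0, hs0, hmin⟩ := (isCompact_Icc.of_isClosed_subset k1 inter_subset_left).exists_isLeast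
    ⟨s1, hs1, hlt.le⟩
  refine ⟨s0, hs0.1, z, (hz.mono hs0.1.2).traj hμ fun s hs => ?_, e,
    le_trans hs0.2 (min_le_left _ _)⟩
  by_contra hcon
  push Not at hcon
  obtain ⟨r, hr, hre⟩ := intermediate_value_Icc' hs.1
    (hc.mono (Icc_subset_Icc_right (hs.2.trans hs0.1.2)))
    (show min ε ‖z0‖ ∈ Icc ‖z s‖ ‖z σ‖ from ⟨hcon.le, by rw [e]; exact min_le_right _ _⟩)
  have h4 : s0 ≤ r := hmin ⟨⟨hr.1, hr.2.trans (hs.2.trans hs0.1.2)⟩, le_of_eq hre⟩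
  have h5 : r = s := le_antisymm hr.2 (hs.2.trans h4)
  rw [h5] at hre
  exact hcon.ne hre

theorem traj_point (hU : Continuous U) (b σ : ℝ) {z0 : ℂ} (h0 : z0 ≠ 0) :
    ∃ z, Traj b U σ σ z ∧ z σ = z0 := by
  rcases traj_or_small hU (le_refl σ) b h0 one_pos with h | ⟨s, hs, z, h1, h2, -⟩
  · exact h
  · exact ⟨z, le_antisymm hs.2 hs.1 ▸ h1, h2⟩

theorem Traj.extend (hU : Continuous U) (hστ : σ ≤ τ) (h : Traj b U σ τ z) :
    ∃ τ', τ < τ' ∧ ∃ z', Traj b U σ τ' z' ∧ EqOn z' z (Icc σ τ) := by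
  obtain ⟨m, hm, h1⟩ := h.away hU
  have hμ := half_pos hm
  obtain ⟨y, hy, e⟩ := ct_exists hU hμ (show σ ≤ τ + 1 by linarith) b (z σ)
  have h2 : EqOn y z (Icc σ τ) := (hy.mono (by linarith)).uniq hμ
    (h.ct hμ fun s hs => by linarith [h1 s hs]) e
  have h3 : ∀ᶠ x in 𝓝[>] τ, m / 2 < ‖y x‖ :=
    (((hy.cont hU).norm τ ⟨hστ, by linarith⟩).mono_of_mem_nhdsWithin
      (Icc_mem_nhdsGT_of_mem ⟨hστ, by linarith⟩)).eventually_const_lt
      (by show m / 2 < ‖y τ‖; rw [h2 ⟨hστ, le_rfl⟩]; linarith [h1 τ ⟨hστ, le_rfl⟩])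
  obtain ⟨r, hr, h4⟩ := (mem_nhdsGT_iff_exists_Ioo_subset).1
    (h3.and (Ioo_mem_nhdsGT (show τ < τ + 1 by linarith)))
  obtain ⟨t2, a2, b2⟩ := exists_between (show τ < r from hr)
  refine ⟨t2, a2, y, (hy.mono (h4 ⟨a2, b2⟩).2.2.le).traj hμ fun s hs => ?_, h2⟩
  rcases le_or_gt s τ with d | d
  · rw [h2 ⟨hs.1, d⟩]; linarith [h1 s ⟨hs.1, d⟩]
  · exact (h4 ⟨d, hs.2.trans_lt b2⟩).1.le

/-- stability under perturbation of the driver and of the starting point. -/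
theorem Traj.stable (hU : Continuous U) (hστ : σ ≤ τ) (h : Traj b U σ τ z) {ε : ℝ} (hε : 0 < ε) :
    ∃ δ : ℝ, 0 < δ ∧ ∀ (V : ℝ → ℝ) (z0 : ℂ), Continuous V → (∀ s ∈ Icc σ τ, |V s - U s| ≤ δ) →
      ‖z0 - z σ‖ ≤ δ → ∃ z', Traj b V σ τ z' ∧ z' σ = z0 ∧ ∀ s ∈ Icc σ τ, ‖z' s - z s‖ ≤ ε := by
  obtain ⟨m, hm, h1⟩ := h.away hU
  have hμ := half_pos hm
  set K := |b| * (3 / (m / 2) ^ 2) with hK
  have hK0 : 0 ≤ K := by positivity
  have e1 : ∀ᶠ δ : ℝ in 𝓝 0, gronwallBound (2 * δ) K (K * δ) (τ - σ) + δ < min (m / 2) ε := by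
    refine ContinuousAt.eventually_lt (Continuous.continuousAt ?_) continuousAt_const
      (by simp [gronwallBound_ε0_δ0, hm, hε])
    unfold gronwallBound
    split_ifs <;> fun_prop
  obtain ⟨δ, hδ1, hδ⟩ := ((e1.filter_mono nhdsWithin_le_nhds).and
    (self_mem_nhdsWithin (a := (0 : ℝ)) (s := Ioi 0))).exists
  have hδ : 0 < δ := hδ
  refine ⟨δ, hδ, fun V z0 hV hVU h0 => ?_⟩
  obtain ⟨y, hy, e⟩ := ct_exists hV hμ hστ b z0
  have nU : ∀ s ∈ Icc σ τ, ‖(V s : ℂ) - U s‖ ≤ δ := fun s hs => by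
    rw [← ofReal_sub, norm_real, Real.norm_eq_abs]; exact hVU s hs
  have key := ct_near hμ (h.ct hμ fun s hs => by linarith [h1 s hs]) hy (δ' := 2 * δ) hVU (by
    rw [e, show z σ + U σ - (z0 + V σ) = -((z0 - z σ) + ((V σ : ℂ) - U σ)) by ring, norm_neg]
    linarith [norm_add_le (z0 - z σ) ((V σ : ℂ) - U σ), nU σ ⟨le_rfl, hστ⟩])
  have k2 : ∀ s ∈ Icc σ τ, ‖y s - z s‖ < min (m / 2) ε := fun s hs => by
    have h2 := gronwallBound_mono (δ := 2 * δ) (K := K) (ε := K * δ) (by positivity) (by positivity)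
      hK0 (show s - σ ≤ τ - σ by linarith [hs.2])
    rw [show y s - z s = -((z s + U s - (y s + V s)) + ((V s : ℂ) - U s)) by ring, norm_neg]
    linarith [norm_add_le (z s + U s - (y s + V s)) ((V s : ℂ) - U s), nU s hs, key s hs]
  refine ⟨y, hy.traj hμ fun s hs => ?_, e, fun s hs => ((k2 s hs).trans_le (min_le_right _ _)).le⟩
  have := norm_sub_norm_le (z s) (y s)
  rw [norm_sub_rev] at this
  linarith [(k2 s hs).trans_le (min_le_left _ _), h1 s hs]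

/-! ## time reversal -/

theorem Traj.rev (c : ℝ) (h : Traj b U σ τ z) :
    Traj (-b) (fun r => U (c - r)) (c - τ) (c - σ) (fun r => z (c - r)) := by
  have m : MapsTo (fun r : ℝ => c - r) (Icc (c - τ) (c - σ)) (Icc σ τ) := fun r hr =>
    ⟨by linarith [hr.2], by linarith [hr.1]⟩
  refine ⟨fun s hs => h.ne _ (m hs), fun s hs => ?_⟩
  have h3 := HasDerivWithinAt.scomp s (h := fun r : ℝ => c - r) (h.dz _ (m hs))
    ((hasDerivAt_id s).const_sub c).hasDerivWithinAt m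
  refine HasDerivWithinAt.congr_deriv h3 ?_
  push_cast
  simp [neg_div]

theorem Traj.rev' {y : ℝ → ℂ} (h : Traj (-b) (fun r => U (0 - r)) (0 - τ) (0 - σ) y) :
    Traj b U σ τ (fun r => y (0 - r)) := by
  simpa using h.rev 0

theorem cont_rev (hU : Continuous U) : Continuous (fun r => U (0 - r)) := by fun_prop

theorem Traj.uniq_left (hU : Continuous U) (h : Traj b U σ τ z) (h' : Traj b U σ τ z')
    (e : z τ = z' τ) : EqOn z z' (Icc σ τ) := fun s hs => by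
  have := (h.rev 0).uniq (cont_rev hU) (h'.rev 0) (by simpa using e)
    (show 0 - s ∈ _ from ⟨by linarith [hs.2], by linarith [hs.1]⟩)
  simpa using this

theorem Traj.uniq_at (hU : Continuous U) (h : Traj b U σ τ z) (h' : Traj b U σ τ z') {r : ℝ}
    (hr : r ∈ Icc σ τ) (e : z r = z' r) : EqOn z z' (Icc σ τ) := fun s hs => by
  rcases le_total s r with d | d
  · exact (h.mono le_rfl hr.2).uniq_left hU (h'.mono le_rfl hr.2) e ⟨hs.1, d⟩
  · exact (h.mono hr.1 le_rfl).uniq hU (h'.mono hr.1 le_rfl) e ⟨d, hs.2⟩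

theorem back_or_small (hU : Continuous U) (hστ : σ ≤ τ) (b : ℝ) {w : ℂ} (h0 : w ≠ 0) {ε : ℝ}
    (hε : 0 < ε) : (∃ z, Traj b U σ τ z ∧ z τ = w) ∨
      ∃ s ∈ Icc σ τ, ∃ z, Traj b U s τ z ∧ z τ = w ∧ ‖z s‖ ≤ ε := by
  rcases traj_or_small (cont_rev hU) (show 0 - τ ≤ 0 - σ by linarith) (-b) h0 hε with
    ⟨y, h1, h2⟩ | ⟨s, hs, y, h1, h2, h3⟩
  · exact Or.inl ⟨_, h1.rev', h2⟩
  · obtain ⟨s, rfl⟩ : ∃ s', s = 0 - s' := ⟨-s, by ring⟩
    exact Or.inr ⟨s, ⟨by linarith [hs.2], by linarith [hs.1]⟩, _, h1.rev', h2, h3⟩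

theorem Traj.extend_left (hU : Continuous U) (hστ : σ ≤ τ) (h : Traj b U σ τ z) :
    ∃ σ', σ' < σ ∧ ∃ z', Traj b U σ' τ z' ∧ EqOn z' z (Icc σ τ) := by
  obtain ⟨t, ht, y, h1, h2⟩ := (h.rev 0).extend (cont_rev hU) (by linarith)
  obtain ⟨t, rfl⟩ : ∃ s', t = 0 - s' := ⟨-t, by ring⟩
  refine ⟨t, by linarith, _, h1.rev', fun s hs => ?_⟩
  simpa using h2 (show 0 - s ∈ _ from ⟨by linarith [hs.2], by linarith [hs.1]⟩)

theorem Traj.stable_left (hU : Continuous U) (hστ : σ ≤ τ) (h : Traj b U σ τ z) {ε : ℝ}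
    (hε : 0 < ε) : ∃ δ : ℝ, 0 < δ ∧ ∀ w : ℂ, ‖w - z τ‖ ≤ δ →
      ∃ z', Traj b U σ τ z' ∧ z' τ = w ∧ ∀ s ∈ Icc σ τ, ‖z' s - z s‖ ≤ ε := by
  obtain ⟨δ, hδ, h1⟩ := (h.rev 0).stable (cont_rev hU) (by linarith) hε
  refine ⟨δ, hδ, fun w hw => ?_⟩
  obtain ⟨y, h2, h3, h4⟩ := h1 _ w (cont_rev hU) (fun _ _ => by simpa using hδ.le)
    (by simpa using hw)
  refine ⟨_, h2.rev', h3, fun s hs => ?_⟩
  simpa using h4 (0 - s) ⟨by linarith [hs.2], by linarith [hs.1]⟩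

/-- two trajectories that meet can be glued. -/
theorem Traj.glue {r : ℝ} (h1 : σ ≤ r) (h2 : r ≤ τ) (h : Traj b U σ r z)
    (h' : Traj b U r τ z') (e : z r = z' r) :
    ∃ y, Traj b U σ τ y ∧ EqOn y z (Icc σ r) ∧ EqOn y z' (Icc r τ) := by
  classical
  let y : ℝ → ℂ := fun s => if s ≤ r then z s else z' s
  have a1 : EqOn y z (Icc σ r) := fun s hs => if_pos hs.2
  have a2 : EqOn y z' (Icc r τ) := fun s hs => by
    rcases hs.1.eq_or_lt with rfl | d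
    · exact (if_pos le_rfl).trans e
    · exact if_neg (not_le.2 d)
  have t1 := h.congr a1.symm (V := U) (fun _ _ => rfl)
  have t2 := h'.congr a2.symm (V := U) (fun _ _ => rfl)
  refine ⟨y, ⟨fun s hs => ?_, fun s hs => ?_⟩, a1, a2⟩
  · rcases le_total s r with d | d
    · exact t1.ne s ⟨hs.1, d⟩
    · exact t2.ne s ⟨d, hs.2⟩
  · rw [← Icc_union_Icc_eq_Icc h1 h2]
    refine HasDerivWithinAt.union ?_ ?_
    · by_cases d : s ≤ r
      · exact t1.dz s ⟨hs.1, d⟩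
      · exact HasFDerivWithinAt.of_notMem_closure (by rw [closure_Icc]; exact fun c => d c.2)
    · by_cases d : r ≤ s
      · exact t2.dz s ⟨d, hs.2⟩
      · exact HasFDerivWithinAt.of_notMem_closure (by rw [closure_Icc]; exact fun c => d c.1)

theorem Traj.conj (h : Traj b U σ τ z) : Traj b U σ τ (fun s => conj (z s)) :=
  ⟨fun s hs => by simpa using h.ne s hs, fun s hs => by simpa using (h.dz s hs).star⟩

theorem Traj.im_zero (hU : Continuous U) (h : Traj b U σ τ z) {r : ℝ} (hr : r ∈ Icc σ τ)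
    (e : (z r).im = 0) : ∀ s ∈ Icc σ τ, (z s).im = 0 := fun _ hs =>
  conj_eq_iff_im.1 (h.conj.uniq_at hU h hr (conj_eq_iff_im.2 e) hs)

theorem Traj.im_pos (hU : Continuous U) (h : Traj b U σ τ z) {r : ℝ} (hr : r ∈ Icc σ τ)
    (e : 0 < (z r).im) : ∀ s ∈ Icc σ τ, 0 < (z s).im := by
  intro s hs
  by_contra hc
  obtain ⟨q, hq, e0⟩ := isPreconnected_Icc.intermediate_value hs hr
    (continuous_im.comp_continuousOn (h.cont hU)) (show (0 : ℝ) ∈ _ from ⟨not_lt.1 hc, e.le⟩)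
  exact e.ne' (h.im_zero hU hq e0 r hr)

/-- the mirror image `z ↦ - conj z`, `U ↦ - U`. -/
theorem Traj.mirror (h : Traj b U σ τ z) :
    Traj b (fun r => -U r) σ τ (fun s => -(starRingEnd ℂ) (z s)) :=
  ⟨fun s hs => by simpa using h.ne s hs, fun s hs => by
    have := (h.conj.dz s hs).neg
    simp only [ofReal_neg, div_neg]
    exact this.congr_of_mem (fun r _ => by simp [add_comm]) hs⟩

/-! ## the link with `Alive`, `Zt`, `Fm` -/

variable {a : ℝ}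

theorem alive_of_traj (ha : 0 < a) (hU : Continuous U) (hσ : 0 ≤ σ) (hστ : σ ≤ τ) {p : ℂ}
    (hp : Alive a U p σ) (h : Traj a U σ τ z) (e : z σ = Zt a U p σ) :
    Alive a U p τ ∧ EqOn (Zt a U p) z (Icc σ τ) := by
  obtain ⟨m, hm, h1⟩ := h.away hU
  have h2 : Alive a U p τ := alive_of_away ha hU hσ hστ hm hp fun s hs hal => by
    rw [(traj_Zt hU hσ hal).uniq hU (h.mono le_rfl hs.2) e.symm ⟨hs.1, le_rfl⟩]
    exact h1 s hs
  exact ⟨h2, (traj_Zt hU hσ h2).uniq hU h e.symm⟩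

theorem Zt_Fm_traj (ha : 0 < a) (hU : Continuous U) (hσ : 0 ≤ σ) (hστ : σ ≤ τ)
    (h : Traj a U σ τ z) (hw : 0 < (z τ).im) :
    EqOn (Zt a U (Fm a U τ (z τ))) z (Icc σ τ) :=
  (traj_Zt hU hσ (Fm_alive ha hU (hσ.trans hστ) hw)).uniq_left hU h
    (Zt_Fm ha hU (hσ.trans hστ) hw)

end Pool.Agent.MP_990230_pr.K8

end
end MrgPart0

-- ======== part 1: formerly Pool.Agent.MP_990230_pr.k8.Max
section MrgPart1

/-! # SLE8 frame: the maximal inequality for pathwise supersolutions -/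

open Set MeasureTheory Filter
open scoped ENNReal NNReal Topology

noncomputable section

namespace Pool.Agent.MP_990230_pr.K8

/-- `Ok u t`: the path is still watched at time `t`. An adapted, decreasing, right-open family. -/
structure Watch (Ok : Pth → ℝ → Prop) : Prop where
  meas : ∀ t, 0 ≤ t → MeasurableSet[Fc t] {u | Ok u t}
  mono : ∀ u s t, 0 ≤ s → s ≤ t → Ok u t → Ok u s
  opn : ∀ u t, 0 ≤ t → Ok u t → ∃ t', t < t' ∧ Ok u t'

theorem Watch.triv : Watch (fun _ _ => True) :=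
  ⟨fun _ _ => by simp, fun _ _ _ _ _ _ => trivial, fun _ t _ _ => ⟨t + 1, by linarith, trivial⟩⟩

theorem Watch.and {O1 O2 : Pth → ℝ → Prop} (h1 : Watch O1) (h2 : Watch O2) :
    Watch (fun u t => O1 u t ∧ O2 u t) := by
  refine ⟨fun t ht => (h1.meas t ht).inter (h2.meas t ht),
    fun u s t a b c => ⟨h1.mono u s t a b c.1, h2.mono u s t a b c.2⟩, fun u t ht c => ?_⟩
  obtain ⟨t1, a1, b1⟩ := h1.opn u t ht c.1
  obtain ⟨t2, a2, b2⟩ := h2.opn u t ht c.2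
  have := lt_min a1 a2
  exact ⟨min t1 t2, this, h1.mono u _ _ (ht.trans this.le) (min_le_left _ _) b1,
    h2.mono u _ _ (ht.trans this.le) (min_le_right _ _) b2⟩

theorem Watch.alive {a : ℝ} (ha : 0 < a) (z : ℂ) : Watch (fun u t => Alive a u.1 z t) :=
  ⟨fun _ ht => adapted_alive ha z ht le_rfl, fun _ _ _ _ h h' => LoeAM.alive_mono h h',
    fun u t ht h => LoeAM.extend ha u.cont z t ht h⟩

theorem Watch.time (T : ℝ) : Watch (fun _ t => t < T) :=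
  ⟨fun _ _ => MeasurableSet.const _, fun _ _ _ _ h h' => h.trans_lt h',
    fun _ _ _ h => exists_between h⟩

theorem exists_rat_left {f : ℝ → ℝ} {t s c : ℝ} (hf : ContinuousOn f (Icc 0 t)) (hs : s ∈ Icc 0 t)
    (h : c < f s) : ∃ q : ℚ, (q : ℝ) ∈ Icc 0 s ∧ c < f q := by
  rcases hs.1.eq_or_lt with e | h0
  · exact ⟨0, by simp [← e], by simpa [← e] using h⟩
  have h1 : ∀ᶠ x in 𝓝[<] s, c < f x :=
    (((hf s hs).mono_of_mem_nhdsWithin (Icc_mem_nhdsLT_of_mem ⟨h0, hs.2⟩)).eventually_const_lt h)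
  obtain ⟨r, hr, h2⟩ := (mem_nhdsLT_iff_exists_Ioo_subset).1 (h1.and (Ioo_mem_nhdsLT h0))
  obtain ⟨q, a, b⟩ := exists_rat_btwn (show r < s from hr)
  exact ⟨q, ⟨(h2 ⟨a, b⟩).2.1.le, b.le⟩, (h2 ⟨a, b⟩).1⟩

/-- add the constraint that an adapted continuous quantity stays positive. -/
theorem Watch.pos {Ok : Pth → ℝ → Prop} (h : Watch Ok) {φ : Pth → ℝ → ℝ}
    (hm : ∀ t, 0 ≤ t → Measurable[Fc t] (fun u => φ u t))
    (hc : ∀ u t, 0 ≤ t → Ok u t → ContinuousOn (φ u) (Icc 0 t)) :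
    Watch (fun u t => Ok u t ∧ ∀ s ∈ Icc 0 t, 0 < φ u s) := by
  refine ⟨fun t ht => ?_, fun u s t a b c => ⟨h.mono u s t a b c.1,
    fun r hr => c.2 r ⟨hr.1, hr.2.trans b⟩⟩, fun u t ht c => ?_⟩
  · have e : {u | Ok u t ∧ ∀ s ∈ Icc 0 t, 0 < φ u s} = {u | Ok u t} ∩ ⋃ n : ℕ,
        ⋂ q : ℚ, ⋂ _ : (q : ℝ) ∈ Icc 0 t, {u | 1 / ((n : ℝ) + 1) ≤ φ u q} := by
      ext u
      simp only [mem_ofPred_eq, mem_inter_iff, mem_iUnion, mem_iInter]
      refine and_congr_right fun hu => ⟨fun c => ?_, fun ⟨n, hn⟩ s hs => ?_⟩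
      · obtain ⟨s0, h0, h1⟩ := isCompact_Icc.exists_isMinOn (nonempty_Icc.2 ht) (hc u t ht hu)
        obtain ⟨n, hn⟩ := exists_nat_one_div_lt (c s0 h0)
        exact ⟨n, fun q hq => hn.le.trans (h1 hq)⟩
      · have p : (0 : ℝ) < 1 / (n + 1) := Nat.one_div_pos_of_nat
        by_contra hle
        obtain ⟨q, a, b⟩ := exists_rat_left (f := fun s => -φ u s) (c := -(1 / (n + 1)))
          (hc u t ht hu).neg hs (by linarith)
        linarith [hn q ⟨a.1, a.2.trans hs.2⟩]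
    rw [e]
    exact (h.meas t ht).inter (MeasurableSet.iUnion fun n => MeasurableSet.iInter fun q =>
      MeasurableSet.iInter fun hq => ((hm q hq.1).mono (Fc.mono hq.2) le_rfl) measurableSet_Ici)
  · obtain ⟨t1, a1, b1⟩ := h.opn u t ht c.1
    have h1 : ∀ᶠ x in 𝓝[>] t, 0 < φ u x :=
      ((hc u t1 (ht.trans a1.le) b1 t ⟨ht, a1.le⟩).mono_of_mem_nhdsWithin
        (Icc_mem_nhdsGT_of_mem ⟨ht, a1⟩)).eventually_const_lt (c.2 t ⟨ht, le_rfl⟩)
    obtain ⟨r, hr, h2⟩ := (mem_nhdsGT_iff_exists_Ioo_subset).1 (h1.and (Ioo_mem_nhdsGT a1))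
    obtain ⟨t2, a2, b2⟩ := exists_between (show t < r from hr)
    refine ⟨t2, a2, h.mono u _ _ (ht.trans a2.le) (h2 ⟨a2, b2⟩).2.2.le b1, fun s hs => ?_⟩
    rcases le_or_gt s t with d | d
    · exact c.2 s ⟨hs.1, d⟩
    · exact (h2 ⟨d, hs.2.trans_lt b2⟩).1

theorem Watch.measurableSet {Ok : Pth → ℝ → Prop} (h : Watch Ok) {N : Pth → ℝ → ℝ}
    (hm : ∀ t, 0 ≤ t → Measurable[Fc t] (fun u => N u t))
    (hc : ∀ u t, 0 ≤ t → Ok u t → ContinuousOn (N u) (Icc 0 t)) (lam : ℝ) :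
    MeasurableSet {u | ∃ t, 0 ≤ t ∧ Ok u t ∧ lam < N u t} := by
  have e : {u | ∃ t, 0 ≤ t ∧ Ok u t ∧ lam < N u t} =
      ⋃ q : ℚ, ⋃ _ : (0 : ℝ) ≤ q, {u | Ok u q} ∩ {u | lam < N u q} := by
    ext u
    simp only [mem_ofPred_eq, mem_inter_iff, mem_iUnion]
    refine ⟨fun ⟨t, a, b, c⟩ => ?_, fun ⟨q, a, b, c⟩ => ⟨q, a, b, c⟩⟩
    obtain ⟨q, d, e⟩ := exists_rat_left (hc u t a b) ⟨a, le_rfl⟩ c
    exact ⟨q, d.1, h.mono u _ _ d.1 d.2 b, e⟩
  rw [e]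
  exact MeasurableSet.iUnion fun q => MeasurableSet.iUnion fun hq =>
    (Fc.le q _ (h.meas q hq)).inter (Fc.le q _ (hm q hq measurableSet_Ioi))

/-- the maximal inequality. -/
theorem max_ineq {μ : Measure Pth} (hμ : IsW μ) {Ok : Pth → ℝ → Prop} (h : Watch Ok)
    {N A B : Pth → ℝ → ℝ}
    (hm : ∀ t, 0 ≤ t → Measurable[Fc t] (fun u => N u t) ∧ Measurable[Fc t] (fun u => A u t) ∧
      Measurable[Fc t] (fun u => B u t))
    (hstep : ∀ u t, 0 ≤ t → Ok u t → ∃ D : ℝ → ℝ, UStep u.1 0 t (N u) (A u) (B u) D ∧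
      ∀ s ∈ Icc 0 t, 0 ≤ N u s ∧ D s + B u s / 2 ≤ 0)
    {c lam : ℝ} (h0 : ∀ u, Ok u 0 → N u 0 ≤ c) (hl : 0 < lam) :
    μ {u | ∃ t, 0 ≤ t ∧ Ok u t ∧ lam < N u t} ≤ ENNReal.ofReal (c / lam) := by
  have := hμ.prob
  have hc : ∀ u t, 0 ≤ t → Ok u t → ContinuousOn (N u) (Icc 0 t) := fun u t a b =>
    (hstep u t a b).choose_spec.1.cont
  have mG := h.measurableSet (fun t ht => (hm t ht).1) hc lam
  set G := {u | ∃ t, 0 ≤ t ∧ Ok u t ∧ lam < N u t} with hG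
  let τ : Pth → ℝ := fun u => sInf {t | 0 ≤ t ∧ Ok u t ∧ lam ≤ N u t}
  have hτ : ∀ u ∈ G, 0 ≤ τ u ∧ Ok u (τ u) ∧ lam ≤ N u (τ u) := by
    rintro u ⟨t, a, b, c⟩
    have k1 : IsClosed (Icc 0 t ∩ N u ⁻¹' Ici lam) :=
      (hc u t a b).preimage_isClosed_of_isClosed isClosed_Icc isClosed_Ici
    have k2 := k1.csInf_mem ⟨t, ⟨a, le_rfl⟩, c.le⟩ ⟨0, fun x hx => hx.1.1⟩
    have k3 : τ u = sInf (Icc 0 t ∩ N u ⁻¹' Ici lam) := by
      refine le_antisymm (csInf_le ⟨0, fun x hx => hx.1⟩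
        ⟨k2.1.1, h.mono u _ _ k2.1.1 k2.1.2 b, k2.2⟩) (le_csInf ⟨t, a, b, c.le⟩ fun x hx => ?_)
      rcases le_total x t with d | d
      · exact csInf_le ⟨0, fun x hx => hx.1.1⟩ ⟨⟨hx.1, d⟩, hx.2.2⟩
      · exact k2.1.2.trans d
    rw [k3]
    exact ⟨k2.1.1, h.mono u _ _ k2.1.1 k2.1.2 b, k2.2⟩
  have key := gl_stmt Pth μ (fun u => u.1) Fc hμ.bm N A B (fun _ => 0) τ {u | Ok u 0} G
    (fun t => ⋂ n : ℕ, ⋃ q : ℚ, ⋃ _ : (q : ℝ) ∈ Icc 0 t,
      {u | Ok u q} ∩ {u | lam - 1 / ((n : ℝ) + 1) < N u q}) hm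
    (fun t ht => by
      simp only [ht, and_true]
      exact Fc.mono ht _ (h.meas 0 le_rfl))
    (fun t _ => MeasurableSet.iInter fun n => MeasurableSet.iUnion fun q =>
      MeasurableSet.iUnion fun hq => Fc.mono hq.2 _
        ((h.meas q hq.1).inter ((hm q hq.1).1 measurableSet_Ioi)))
    (fun u hu => ⟨le_rfl, by
      obtain ⟨t', a, b⟩ := h.opn u 0 le_rfl hu
      exact (hc u t' a.le b 0 ⟨le_rfl, a.le⟩).mono_of_mem_nhdsWithin (Icc_mem_nhdsGE a)⟩)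
    (fun u ⟨t, a, b, _⟩ => h.mono u 0 t le_rfl a b)
    (fun u hu => by
      obtain ⟨a, b, c⟩ := hτ u hu
      refine ⟨a, fun t ht => ?_, ?_⟩
      · simp only [mem_iInter, mem_iUnion, mem_inter_iff, mem_ofPred_eq]
        constructor
        · intro k
          by_contra hlt
          push Not at hlt
          obtain ⟨s0, s1, s2⟩ := isCompact_Icc.exists_isMaxOn (nonempty_Icc.2 ht)
            ((hc u _ a b).mono (Icc_subset_Icc_right hlt.le))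
          have s3 : lam ≤ N u s0 := by
            by_contra hn
            obtain ⟨n, hn'⟩ := exists_nat_one_div_lt (sub_pos.2 (not_le.1 hn))
            obtain ⟨q, q1, -, q3⟩ := k n
            linarith [show N u q ≤ N u s0 from s2 q1]
          have : τ u ≤ s0 := csInf_le ⟨0, fun x hx => hx.1⟩
            ⟨s1.1, h.mono u _ _ s1.1 (s1.2.trans hlt.le) b, s3⟩
          linarith [s1.2]
        · intro k n
          have p : (0 : ℝ) < 1 / (n + 1) := Nat.one_div_pos_of_nat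
          obtain ⟨q, d, e⟩ := exists_rat_left (c := lam - 1 / (n + 1)) (hc u _ a b) ⟨a, le_rfl⟩
            (by linarith)
          exact ⟨q, ⟨d.1, d.2.trans k⟩, h.mono u _ _ d.1 d.2 b, e⟩
      · obtain ⟨t', d, e⟩ := h.opn u _ a b
        obtain ⟨D, f, g⟩ := hstep u t' (a.trans d.le) e
        exact ⟨t', d, D, f, fun s hs => (g s hs).1, fun s hs => (g s ⟨hs.1, hs.2.le.trans d.le⟩).2⟩)
  have l1 : ENNReal.ofReal lam * μ G ≤
      ∫⁻ u, G.indicator (fun u => ENNReal.ofReal (N u (τ u))) u ∂μ := by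
    rw [← lintegral_indicator_const mG]
    exact lintegral_mono fun u => indicator_le_indicator' fun hu =>
      ENNReal.ofReal_le_ofReal (hτ u hu).2.2
  have l2 : ∫⁻ u, {u | Ok u 0}.indicator (fun u => ENNReal.ofReal (N u 0)) u ∂μ ≤
      ENNReal.ofReal c := by
    refine (lintegral_mono (g := fun _ => ENNReal.ofReal c) fun u => ?_).trans (by simp)
    by_cases hu : Ok u 0
    · rw [indicator_of_mem (show u ∈ {u | Ok u 0} from hu)]
      exact ENNReal.ofReal_le_ofReal (h0 u hu)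
    · rw [indicator_of_notMem (show u ∉ {u | Ok u 0} from hu)]
      exact zero_le
  rw [ENNReal.ofReal_div_of_pos hl, ENNReal.le_div_iff_mul_le (Or.inl (by simpa using hl))
    (Or.inl ENNReal.ofReal_ne_top), mul_comm]
  exact l1.trans (key.trans l2)

end Pool.Agent.MP_990230_pr.K8

end
end MrgPart1

-- ======== part 2: formerly Pool.Agent.MP_990230_pr.k8.Real
section MrgPart2

/-! # SLE8 frame: real trajectories -/

open Set MeasureTheory Filter Complex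
open scoped ENNReal NNReal Topology ComplexConjugate

noncomputable section

namespace Pool.Agent.MP_990230_pr.K8

/-- a real trajectory on `[σ, τ]`. -/
def RT (a : ℝ) (U : ℝ → ℝ) (σ τ : ℝ) (X : ℝ → ℝ) : Prop := Traj a U σ τ (fun s => (X s : ℂ))

/-- the real number `x` is the image at time `t` of a real point alive on `[s, t]`. -/
def Back (a : ℝ) (U : ℝ → ℝ) (s t x : ℝ) : Prop := ∃ X, RT a U s t X ∧ X t = x

/-- the real point at position `x` at time `0` is alive at time `t`. -/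
def RAl (a : ℝ) (U : ℝ → ℝ) (x t : ℝ) : Prop := ∃ X, RT a U 0 t X ∧ X 0 = x

open Classical in
/-- its position at time `t` (and `0` if it is dead). -/
def Xt (a : ℝ) (U : ℝ → ℝ) (x t : ℝ) : ℝ := if h : RAl a U x t then h.choose t else 0

variable {a b : ℝ} {U V : ℝ → ℝ} {σ τ : ℝ} {X X' : ℝ → ℝ} {z : ℝ → ℂ}

theorem RT.ne (h : RT b U σ τ X) : ∀ s ∈ Icc σ τ, X s ≠ 0 := fun s hs =>
  ofReal_ne_zero.1 (Traj.ne h s hs)

theorem RT.dx (h : RT b U σ τ X) :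
    ∀ s ∈ Icc σ τ, HasDerivWithinAt (fun r => X r + U r) (b / X s) (Icc σ τ) s := fun s hs => by
  have := (Complex.reCLM.hasFDerivAt).comp_hasDerivWithinAt s (Traj.dz h s hs)
  rw [← ofReal_div] at this
  simpa [Function.comp_def] using this

theorem RT.mono {σ' τ' : ℝ} (h : RT b U σ τ X) (h1 : σ ≤ σ') (h2 : τ' ≤ τ) : RT b U σ' τ' X :=
  Traj.mono h h1 h2

theorem RT.cont (hU : Continuous U) (h : RT b U σ τ X) : ContinuousOn X (Icc σ τ) :=
  (continuous_re.comp_continuousOn (Traj.cont hU h)).congr fun _ _ => by simp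

theorem RT.congr (h : RT b U σ τ X) (e : EqOn X X' (Icc σ τ)) (eU : EqOn U V (Icc σ τ)) :
    RT b V σ τ X' := Traj.congr h (fun _ hs => congrArg _ (e hs)) eU

theorem Traj.rt (hU : Continuous U) (h : Traj b U σ τ z) {r : ℝ} (hr : r ∈ Icc σ τ)
    (e : (z r).im = 0) : RT b U σ τ (fun s => (z s).re) :=
  h.congr (fun s hs => Complex.ext (by simp) (by simpa using h.im_zero hU hr e s hs)) fun _ _ => rfl

theorem RT.uniq_at (hU : Continuous U) (h : RT b U σ τ X) (h' : RT b U σ τ X') {r : ℝ}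
    (hr : r ∈ Icc σ τ) (e : X r = X' r) : EqOn X X' (Icc σ τ) := fun _ hs =>
  ofReal_injective (Traj.uniq_at hU h h' hr (congrArg _ e) hs)

theorem RT.mirror (h : RT b U σ τ X) : RT b (fun r => -U r) σ τ (fun s => -X s) :=
  (Traj.mirror h).congr (fun _ _ => by simp) fun _ _ => rfl

theorem RT.mirror' (h : RT b (fun r => -U r) σ τ X) : RT b U σ τ (fun s => -X s) := by
  simpa using h.mirror

theorem pos_of_ne {f : ℝ → ℝ} (hc : ContinuousOn f (Icc σ τ)) (hn : ∀ s ∈ Icc σ τ, f s ≠ 0)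
    {r : ℝ} (hr : r ∈ Icc σ τ) (e : 0 < f r) : ∀ s ∈ Icc σ τ, 0 < f s := by
  intro s hs
  by_contra h
  obtain ⟨q, hq, e0⟩ := isPreconnected_Icc.intermediate_value hs hr hc
    (show (0 : ℝ) ∈ _ from ⟨not_lt.1 h, e.le⟩)
  exact hn q hq e0

theorem RT.pos (hU : Continuous U) (h : RT b U σ τ X) {r : ℝ} (hr : r ∈ Icc σ τ) (e : 0 < X r) :
    ∀ s ∈ Icc σ τ, 0 < X s := pos_of_ne (h.cont hU) h.ne hr e

theorem RT.neg (hU : Continuous U) (h : RT b U σ τ X) {r : ℝ} (hr : r ∈ Icc σ τ) (e : X r < 0) :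
    ∀ s ∈ Icc σ τ, X s < 0 := fun s hs =>
  neg_pos.1 (h.mirror.pos hU.neg hr (neg_pos.2 e) s hs)

/-- real trajectories keep their order. -/
theorem RT.lt (hU : Continuous U) (h : RT b U σ τ X) (h' : RT b U σ τ X') {r : ℝ}
    (hr : r ∈ Icc σ τ) (e : X r < X' r) : ∀ s ∈ Icc σ τ, X s < X' s := fun s hs =>
  sub_pos.1 (pos_of_ne (f := fun s => X' s - X s) ((h'.cont hU).sub (h.cont hU))
    (fun _ hq e0 => e.ne (h.uniq_at hU h' hq (sub_eq_zero.1 e0).symm hr)) hr (sub_pos.2 e) s hs)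

theorem RT.le (hU : Continuous U) (h : RT b U σ τ X) (h' : RT b U σ τ X') {r : ℝ}
    (hr : r ∈ Icc σ τ) (e : X r ≤ X' r) : ∀ s ∈ Icc σ τ, X s ≤ X' s := fun s hs =>
  e.eq_or_lt.elim (fun e => (h.uniq_at hU h' hr e hs).le) fun e => (h.lt hU h' hr e s hs).le

theorem RT.away (hU : Continuous U) (h : RT b U σ τ X) :
    ∃ μ : ℝ, 0 < μ ∧ ∀ s ∈ Icc σ τ, μ ≤ |X s| := by
  simpa using Traj.away hU h

theorem rt_or_small (hU : Continuous U) (hστ : σ ≤ τ) (b : ℝ) {x : ℝ} (h0 : x ≠ 0) {ε : ℝ}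
    (hε : 0 < ε) : (∃ X, RT b U σ τ X ∧ X σ = x) ∨
      ∃ s ∈ Icc σ τ, ∃ X, RT b U σ s X ∧ X σ = x ∧ |X s| ≤ ε := by
  rcases traj_or_small hU hστ b (ofReal_ne_zero.2 h0) hε with ⟨z, h1, h2⟩ | ⟨s, hs, z, h1, h2, h3⟩
  · exact Or.inl ⟨_, h1.rt hU ⟨le_rfl, hστ⟩ (by simp [h2]), by simp [h2]⟩
  · exact Or.inr ⟨s, hs, _, h1.rt hU ⟨le_rfl, hs.1⟩ (by simp [h2]), by simp [h2],
      (abs_re_le_norm _).trans h3⟩

theorem rback_or_small (hU : Continuous U) (hστ : σ ≤ τ) (b : ℝ) {x : ℝ} (h0 : x ≠ 0) {ε : ℝ}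
    (hε : 0 < ε) : Back b U σ τ x ∨ ∃ s ∈ Icc σ τ, ∃ X, RT b U s τ X ∧ X τ = x ∧ |X s| ≤ ε := by
  rcases back_or_small hU hστ b (ofReal_ne_zero.2 h0) hε with ⟨z, h1, h2⟩ | ⟨s, hs, z, h1, h2, h3⟩
  · exact Or.inl ⟨_, h1.rt hU ⟨hστ, le_rfl⟩ (by simp [h2]), by simp [h2]⟩
  · exact Or.inr ⟨s, hs, _, h1.rt hU ⟨hs.2, le_rfl⟩ (by simp [h2]), by simp [h2],
      (abs_re_le_norm _).trans h3⟩

theorem RT.extend (hU : Continuous U) (hστ : σ ≤ τ) (h : RT b U σ τ X) :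
    ∃ τ', τ < τ' ∧ ∃ X', RT b U σ τ' X' ∧ EqOn X' X (Icc σ τ) := by
  obtain ⟨t, ht, z, h1, h2⟩ := Traj.extend hU hστ h
  exact ⟨t, ht, _, h1.rt hU ⟨le_rfl, hστ.trans ht.le⟩ (by simp [h2 ⟨le_rfl, hστ⟩]),
    fun s hs => by simp [h2 hs]⟩

theorem RT.extend_left (hU : Continuous U) (hστ : σ ≤ τ) (h : RT b U σ τ X) :
    ∃ σ', σ' < σ ∧ ∃ X', RT b U σ' τ X' ∧ EqOn X' X (Icc σ τ) := by
  obtain ⟨t, ht, z, h1, h2⟩ := Traj.extend_left hU hστ h
  exact ⟨t, ht, _, h1.rt hU ⟨ht.le.trans hστ, le_rfl⟩ (by simp [h2 ⟨hστ, le_rfl⟩]),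
    fun s hs => by simp [h2 hs]⟩

theorem RT.glue {r : ℝ} (h1 : σ ≤ r) (h2 : r ≤ τ) (h : RT b U σ r X) (h' : RT b U r τ X')
    (e : X r = X' r) : ∃ Y, RT b U σ τ Y ∧ EqOn Y X (Icc σ r) ∧ EqOn Y X' (Icc r τ) := by
  obtain ⟨y, a1, a2, a3⟩ := Traj.glue h1 h2 h h' (congrArg _ e)
  refine ⟨fun s => (y s).re, a1.congr (fun s hs => ?_) fun _ _ => rfl, fun s hs => by simp [a2 hs],
    fun s hs => by simp [a3 hs]⟩
  rcases le_total s r with d | d
  · simp [a2 ⟨hs.1, d⟩]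
  · simp [a3 ⟨d, hs.2⟩]

/-- a real point farther from the driver than a surviving point survives. -/
theorem RT.above (hU : Continuous U) (hστ : σ ≤ τ) (h : RT b U σ τ X) (h0 : 0 < X σ) {x : ℝ}
    (hx : X σ ≤ x) : ∃ X', RT b U σ τ X' ∧ X' σ = x := by
  obtain ⟨m, hm, h1⟩ := h.away hU
  rcases rt_or_small hU hστ b (h0.trans_le hx).ne' (half_pos hm) with h2 | ⟨s, hs, Y, h2, e, h3⟩
  · exact h2
  · have h4 := (h.mono le_rfl hs.2).le hU h2 ⟨le_rfl, hs.1⟩ (e ▸ hx) s ⟨hs.1, le_rfl⟩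
    have h5 := h1 s hs
    rw [abs_of_pos (h.pos hU ⟨le_rfl, hστ⟩ h0 s hs)] at h5
    linarith [le_abs_self (Y s)]

theorem RT.below (hU : Continuous U) (hστ : σ ≤ τ) (h : RT b U σ τ X) (h0 : X σ < 0) {x : ℝ}
    (hx : x ≤ X σ) : ∃ X', RT b U σ τ X' ∧ X' σ = x := by
  obtain ⟨Y, h1, h2⟩ := h.mirror.above hU.neg hστ (neg_pos.2 h0) (neg_le_neg hx)
  exact ⟨_, h1.mirror', by simp [h2]⟩

theorem Back.mirror {x : ℝ} (h : Back b U σ τ x) : Back b (fun r => -U r) σ τ (-x) := by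
  obtain ⟨X, h1, h2⟩ := h
  exact ⟨_, h1.mirror, by simp [h2]⟩

theorem Back.mirror' {x : ℝ} (h : Back b (fun r => -U r) σ τ (-x)) : Back b U σ τ x := by
  simpa using h.mirror

theorem Back.later {x σ' : ℝ} (h : Back b U σ τ x) (h1 : σ ≤ σ') : Back b U σ' τ x := by
  obtain ⟨X, h2, h3⟩ := h
  exact ⟨X, h2.mono h1 le_rfl, h3⟩

theorem back_self (hU : Continuous U) (b τ : ℝ) {x : ℝ} (hx : x ≠ 0) : Back b U τ τ x := by
  rcases rback_or_small hU (le_refl τ) b hx one_pos with h | ⟨s, hs, X, h1, h2, -⟩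
  · exact h
  · exact ⟨X, le_antisymm hs.2 hs.1 ▸ h1, h2⟩

theorem Back.above (hU : Continuous U) (hστ : σ ≤ τ) {x x' : ℝ} (h : Back b U σ τ x) (h0 : 0 < x)
    (hx : x ≤ x') : Back b U σ τ x' := by
  obtain ⟨X, h, rfl⟩ := h
  obtain ⟨m, hm, h1⟩ := h.away hU
  rcases rback_or_small hU hστ b (h0.trans_le hx).ne' (half_pos hm) with h2 | ⟨s, hs, Y, h2, e, h3⟩
  · exact h2
  · have h4 := (h.mono hs.1 le_rfl).le hU h2 ⟨hs.2, le_rfl⟩ (e ▸ hx) s ⟨le_rfl, hs.2⟩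
    have h5 := h1 s hs
    rw [abs_of_pos (h.pos hU ⟨hστ, le_rfl⟩ h0 s hs)] at h5
    linarith [le_abs_self (Y s)]

theorem Back.below (hU : Continuous U) (hστ : σ ≤ τ) {x x' : ℝ} (h : Back b U σ τ x) (h0 : x < 0)
    (hx : x' ≤ x) : Back b U σ τ x' :=
  (h.mirror.above hU.neg hστ (neg_pos.2 h0) (neg_le_neg hx)).mirror'

/-! ## gaps and displacement -/

theorem RT.dgap (h : RT b U σ τ X) (h' : RT b U σ τ X') : ∀ s ∈ Icc σ τ,
    HasDerivWithinAt (fun r => X' r - X r) (-b / (X s * X' s) * (X' s - X s)) (Icc σ τ) s := by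
  intro s hs
  have h1 := (h'.dx s hs).fun_sub (h.dx s hs)
  simp only [add_sub_add_right_eq_sub] at h1
  refine h1.congr_deriv ?_
  have := h.ne s hs
  have := h'.ne s hs
  field_simp
  ring

theorem mono_of_deriv {f f' : ℝ → ℝ} (hd : ∀ s ∈ Icc σ τ, HasDerivWithinAt f (f' s) (Icc σ τ) s)
    (h : ∀ s ∈ Icc σ τ, 0 ≤ f' s) : MonotoneOn f (Icc σ τ) :=
  monotoneOn_of_hasDerivWithinAt_nonneg (convex_Icc σ τ) (fun s hs => (hd s hs).continuousWithinAt)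
    (fun s hs => (hd s (interior_subset hs)).mono interior_subset)
    fun s hs => h s (interior_subset hs)

theorem anti_of_deriv {f f' : ℝ → ℝ} (hd : ∀ s ∈ Icc σ τ, HasDerivWithinAt f (f' s) (Icc σ τ) s)
    (h : ∀ s ∈ Icc σ τ, f' s ≤ 0) : AntitoneOn f (Icc σ τ) :=
  antitoneOn_of_hasDerivWithinAt_nonpos (convex_Icc σ τ) (fun s hs => (hd s hs).continuousWithinAt)
    (fun s hs => (hd s (interior_subset hs)).mono interior_subset)
    fun s hs => h s (interior_subset hs)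

/-- the gap of two points on the same side decreases. -/
theorem RT.gap_anti (ha : 0 < a) (h : RT a U σ τ X) (h' : RT a U σ τ X')
    (h1 : ∀ s ∈ Icc σ τ, 0 < X s * X' s) (h2 : ∀ s ∈ Icc σ τ, X s ≤ X' s) :
    AntitoneOn (fun r => X' r - X r) (Icc σ τ) :=
  anti_of_deriv (h.dgap h') fun s hs => mul_nonpos_of_nonpos_of_nonneg
    (div_nonpos_of_nonpos_of_nonneg (by linarith) (h1 s hs).le) (sub_nonneg.2 (h2 s hs))

/-- the gap of two points on opposite sides increases. -/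
theorem RT.gap_mono (ha : 0 < a) (h : RT a U σ τ X) (h' : RT a U σ τ X')
    (h1 : ∀ s ∈ Icc σ τ, X s < 0) (h2 : ∀ s ∈ Icc σ τ, 0 < X' s) :
    MonotoneOn (fun r => X' r - X r) (Icc σ τ) :=
  mono_of_deriv (h.dgap h') fun s hs => mul_nonneg
    (div_nonneg_of_nonpos (by linarith) (mul_neg_of_neg_of_pos (h1 s hs) (h2 s hs)).le)
    (by linarith [h1 s hs, h2 s hs])

theorem RT.add_mono (ha : 0 < a) (h : RT a U σ τ X) (h1 : ∀ s ∈ Icc σ τ, 0 < X s) :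
    MonotoneOn (fun r => X r + U r) (Icc σ τ) :=
  mono_of_deriv h.dx fun s hs => (div_pos ha (h1 s hs)).le

theorem RT.add_anti (ha : 0 < a) (h : RT a U σ τ X) (h1 : ∀ s ∈ Icc σ τ, X s < 0) :
    AntitoneOn (fun r => X r + U r) (Icc σ τ) :=
  anti_of_deriv h.dx fun s hs => (div_neg_of_pos_of_neg ha (h1 s hs)).le

/-- DISP: two survivors on opposite sides bound the elapsed time and the oscillation. -/
theorem disp (ha : 0 < a) (hU : Continuous U) (hστ : σ ≤ τ) {x x' : ℝ} (hx : x < 0) (hx' : 0 < x')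
    (h : Back a U σ τ x) (h' : Back a U σ τ x') :
    4 * a * (τ - σ) ≤ (x' - x) ^ 2 ∧ ∀ r ∈ Icc σ τ, ∀ s ∈ Icc σ τ, |U r - U s| ≤ x' - x := by
  obtain ⟨A, hA, rfl⟩ := h
  obtain ⟨B, hB, rfl⟩ := h'
  have eτ : τ ∈ Icc σ τ := ⟨hστ, le_rfl⟩
  have eσ : σ ∈ Icc σ τ := ⟨le_rfl, hστ⟩
  have a1 := hA.neg hU eτ hx
  have b1 := hB.pos hU eτ hx'
  have g1 : ∀ s ∈ Icc σ τ, B s - A s ≤ B τ - A τ := fun s hs => hA.gap_mono ha hB a1 b1 hs eτ hs.2
  have G0 : 0 < B τ - A τ := by linarith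
  constructor
  · have m := mono_of_deriv (f := fun r => B r - A r - 4 * a / (B τ - A τ) * r)
      (fun s hs => (hA.dgap hB s hs).fun_sub
        (((hasDerivAt_id s).const_mul (4 * a / (B τ - A τ))).hasDerivWithinAt)) (fun s hs => by
        have p := a1 s hs
        have q := b1 s hs
        have g := g1 s hs
        have e : -a / (A s * B s) * (B s - A s) = a * (B s - A s) / (-A s * B s) := by
          have := p.ne
          field_simp
        have r0 : 0 < -A s * B s := mul_pos (neg_pos.2 p) q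
        rw [e, mul_one, sub_nonneg, div_le_div_iff₀ G0 r0]
        have k : 4 * (-A s * B s) ≤ (B s - A s) * (B τ - A τ) := by
          nlinarith [sq_nonneg (B s + A s)]
        nlinarith) eσ eτ hστ
    simp only [] at m
    have k : 4 * a / (B τ - A τ) * (τ - σ) ≤ B τ - A τ := by
      linarith [a1 σ eσ, b1 σ eσ]
    rw [div_mul_eq_mul_div, div_le_iff₀ G0] at k
    rw [sq]; exact k
  · have key : ∀ r ∈ Icc σ τ, ∀ s ∈ Icc σ τ, s ≤ r → |U r - U s| ≤ B τ - A τ := by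
      intro r hr s hs hsr
      have p := hB.add_mono ha b1 hs hr hsr
      have q := hA.add_anti ha a1 hs hr hsr
      simp only [] at p q
      rw [abs_le]
      constructor <;> linarith [g1 r hr, a1 r hr, b1 r hr, a1 s hs, b1 s hs]
    intro r hr s hs
    rcases le_total s r with d | d
    · exact key r hr s hs d
    · rw [abs_sub_comm]; exact key s hs r hr d

theorem rt_of_far (ha : 0 < a) (hU : Continuous U) {ρ M x : ℝ} (hστ : σ ≤ τ) (hρ : 0 < ρ)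
    (hT : a * (τ - σ) ≤ ρ ^ 2) (hM : ∀ s ∈ Icc σ τ, |U s - U σ| ≤ M) (hx : M + 3 * ρ ≤ |x|) :
    ∃ X, RT a U σ τ X ∧ X σ = x := by
  have hM0 : 0 ≤ M := (abs_nonneg _).trans (hM σ ⟨le_rfl, hστ⟩)
  rcases rt_or_small hU hστ a (abs_pos.1 (by linarith : 0 < |x|)) (half_pos hρ) with
    h | ⟨s, hs, X, h1, h2, h3⟩
  · exact h
  · have := (Traj.far ha h1 hρ (by nlinarith [hs.2]) (fun r hr => hM r ⟨hr.1, hr.2.trans hs.2⟩)
      (by simpa [h2] using hx) s ⟨hs.1, le_rfl⟩).2.2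
    rw [norm_real, Real.norm_eq_abs] at this
    linarith

theorem back_of_far (ha : 0 < a) (hU : Continuous U) {ρ M x : ℝ} (hστ : σ ≤ τ) (hρ : 0 < ρ)
    (hT : a * (τ - σ) ≤ ρ ^ 2) (hM : ∀ s ∈ Icc σ τ, |U s - U σ| ≤ M) (hx : 6 * M + 9 * ρ ≤ |x|) :
    Back a U σ τ x := by
  have hM0 : 0 ≤ M := (abs_nonneg _).trans (hM σ ⟨le_rfl, hστ⟩)
  rcases rback_or_small hU hστ a (abs_pos.1 (by linarith : 0 < |x|)) (half_pos hρ) with
    h | ⟨s, hs, X, h1, h2, h3⟩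
  · exact h
  · have := Traj.move ha h1 hρ (M := 2 * M) (by nlinarith [hs.1]) (fun r hr => by
      linarith [abs_sub_le (U r) (U σ) (U s), hM r ⟨hs.1.trans hr.1, hr.2⟩, hM s hs,
        abs_sub_comm (U σ) (U s)]) τ ⟨hs.2, le_rfl⟩
    rw [← ofReal_sub, norm_real, Real.norm_eq_abs, h2] at this
    linarith [abs_sub_abs_le_abs_sub x (X s)]

/-! ## barriers -/

theorem Traj.dre (h : Traj b U σ τ z) : ∀ s ∈ Icc σ τ,
    HasDerivWithinAt (fun r => (z r).re + U r) (b * (z s).re / normSq (z s)) (Icc σ τ) s := by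
  intro s hs
  have := (Complex.reCLM.hasFDerivAt).comp_hasDerivWithinAt s (h.dz s hs)
  simpa [Function.comp_def, Complex.div_re] using this

theorem barrier_aux (ha : 0 < a) {x : ℝ} {w : ℂ} (hx : 0 < x) (hw : w.im ≠ 0) (e : w.re = x) :
    a * w.re / normSq w < a / x := by
  have : 0 < w.im * w.im := mul_self_pos.2 hw
  rw [normSq_apply, e, div_lt_div_iff₀ (by positivity) hx]
  nlinarith

/-- BARRIER: `Re W ≤ X` is preserved forward by a positive real trajectory. -/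
theorem barrier_le (ha : 0 < a) (h : Traj a U σ τ z) (hX : RT a U σ τ X)
    (h1 : ∀ s ∈ Icc σ τ, 0 < X s) (h2 : ∀ s ∈ Icc σ τ, (z s).im ≠ 0) (h0 : (z σ).re ≤ X σ) :
    ∀ s ∈ Icc σ τ, (z s).re ≤ X s := by
  intro s hs
  have := image_le_of_deriv_right_lt_deriv_boundary' (f := fun r => (z r).re + U r)
    (B := fun r => X r + U r) (fun r hr => (h.dre r hr).continuousWithinAt)
    (fun r hr => (h.dre r (Ico_subset_Icc_self hr)).mono_of_mem_nhdsWithin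
      (Icc_mem_nhdsGE_of_mem hr)) (by simpa using h0) (fun r hr => (hX.dx r hr).continuousWithinAt)
    (fun r hr => (hX.dx r (Ico_subset_Icc_self hr)).mono_of_mem_nhdsWithin
      (Icc_mem_nhdsGE_of_mem hr))
    (fun r hr e => barrier_aux ha (h1 r (Ico_subset_Icc_self hr)) (h2 r (Ico_subset_Icc_self hr))
      (add_right_cancel e)) hs
  simpa using this

theorem barrier_lt (ha : 0 < a) (h : Traj a U σ τ z) (hX : RT a U σ τ X)
    (h1 : ∀ s ∈ Icc σ τ, 0 < X s) (h2 : ∀ s ∈ Icc σ τ, (z s).im ≠ 0) (h0 : (z σ).re ≤ X σ) :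
    ∀ s ∈ Ioc σ τ, (z s).re < X s := by
  intro s hs
  have hs' := Ioc_subset_Icc_self hs
  have k := barrier_le ha h hX h1 h2 h0
  refine (k s hs').lt_of_ne fun e => ?_
  have d := ((hX.dx s hs').fun_sub (h.dre s hs')).mono_of_mem_nhdsWithin (Icc_mem_nhdsLT_of_mem hs)
  rw [hasDerivWithinAt_iff_tendsto_slope' (show s ∉ Iio s from lt_irrefl s)] at d
  refine absurd (le_of_tendsto d ?_) (not_le.2 (sub_pos.2 (barrier_aux ha (h1 s hs') (h2 s hs') e)))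
  filter_upwards [Icc_mem_nhdsLT_of_mem hs, self_mem_nhdsWithin] with r hr hr'
  rw [slope_def_field]
  exact div_nonpos_of_nonneg_of_nonpos (by linarith [k r hr]) (sub_nonpos.2 (le_of_lt hr'))

/-- the mirror form: `X ≤ Re W` is preserved forward by a negative real trajectory. -/
theorem barrier_ge (ha : 0 < a) (h : Traj a U σ τ z) (hX : RT a U σ τ X)
    (h1 : ∀ s ∈ Icc σ τ, X s < 0) (h2 : ∀ s ∈ Icc σ τ, (z s).im ≠ 0) (h0 : X σ ≤ (z σ).re) :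
    (∀ s ∈ Icc σ τ, X s ≤ (z s).re) ∧ ∀ s ∈ Ioc σ τ, X s < (z s).re := by
  have a1 : ∀ s ∈ Icc σ τ, 0 < -X s := fun s hs => neg_pos.2 (h1 s hs)
  have a2 : ∀ s ∈ Icc σ τ, (-(starRingEnd ℂ) (z s)).im ≠ 0 := fun s hs => by simpa using h2 s hs
  have a3 : (-(starRingEnd ℂ) (z σ)).re ≤ -X σ := by simpa using h0
  exact ⟨fun s hs => by simpa using barrier_le ha h.mirror hX.mirror a1 a2 a3 s hs,
    fun s hs => by simpa using barrier_lt ha h.mirror hX.mirror a1 a2 a3 s hs⟩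

/-! ## continuity at real points -/

/-- points close to a surviving real point survive and stay close. -/
theorem RT.fwd_cont (ha : 0 < a) (hU : Continuous U) (hσ : 0 ≤ σ) (hστ : σ ≤ τ)
    (h : RT a U σ τ X) {ε : ℝ} (hε : 0 < ε) : ∃ δ : ℝ, 0 < δ ∧ ∀ p, Alive a U p σ →
      ‖Zt a U p σ - X σ‖ ≤ δ → Alive a U p τ ∧ ∀ s ∈ Icc σ τ, ‖Zt a U p s - X s‖ ≤ ε := by
  obtain ⟨δ, hδ, h1⟩ := Traj.stable hU hστ h hε
  refine ⟨δ, hδ, fun p hp hd => ?_⟩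
  obtain ⟨y, h2, h3, h4⟩ := h1 U _ hU (fun _ _ => by simpa using hδ.le) hd
  obtain ⟨h5, h6⟩ := alive_of_traj ha hU hσ hστ hp h2 h3
  exact ⟨h5, fun s hs => h6 hs ▸ h4 s hs⟩

/-- BACKCONT. -/
theorem RT.back_cont (ha : 0 < a) (hU : Continuous U) (hσ : 0 ≤ σ) (hστ : σ ≤ τ)
    (h : RT a U σ τ X) {ε : ℝ} (hε : 0 < ε) : ∃ δ : ℝ, 0 < δ ∧ ∀ w : ℂ, 0 < w.im →
      ‖w - X τ‖ ≤ δ → ∀ s ∈ Icc σ τ, ‖Zt a U (Fm a U τ w) s - X s‖ ≤ ε := by
  obtain ⟨δ, hδ, h1⟩ := Traj.stable_left hU hστ h hε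
  refine ⟨δ, hδ, fun w hw hd s hs => ?_⟩
  obtain ⟨y, h2, rfl, h4⟩ := h1 w hd
  rw [Zt_Fm_traj ha hU hσ hστ h2 hw hs]
  exact h4 s hs

/-- HIT: the backward trajectory of `x` reaches `0` at a time `u`. -/
theorem hit_time (ha : 0 < a) (hU : Continuous U) (hσ : 0 ≤ σ) (hστ : σ ≤ τ) {x : ℝ} (hx : x ≠ 0)
    (h : ¬ Back a U σ τ x) : ∃ u ∈ Ico σ τ, (∀ s, Back a U s τ x ↔ u < s) ∧
      ∀ ε : ℝ, 0 < ε → ∃ δ : ℝ, 0 < δ ∧ ∀ w : ℂ, 0 < w.im → ‖w - x‖ ≤ δ →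
        ‖Zt a U (Fm a U τ w) u‖ ≤ ε := by
  have bd : ∀ s, Back a U s τ x → σ ≤ s := fun s hs => by
    by_contra hc
    exact h (hs.later (le_of_not_ge hc))
  have ne : {s | Back a U s τ x}.Nonempty := ⟨τ, back_self hU a τ hx⟩
  set u := sInf {s | Back a U s τ x} with hu
  have u1 : σ ≤ u := le_csInf ne bd
  have u2 : u ≤ τ := csInf_le ⟨σ, bd⟩ (back_self hU a τ hx)
  have u3 : ¬ Back a U u τ x := fun ⟨X, h1, h2⟩ => by
    obtain ⟨s, hs, Y, h3, h4⟩ := h1.extend_left hU u2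
    exact absurd (csInf_le ⟨σ, bd⟩ (show s ∈ {s | Back a U s τ x} from
      ⟨Y, h3, (h4 ⟨u2, le_rfl⟩).trans h2⟩)) (not_le.2 hs)
  have u4 : ∀ s, Back a U s τ x ↔ u < s := fun s =>
    ⟨fun hs => (csInf_le ⟨σ, bd⟩ hs).lt_of_ne fun e => u3 (hu ▸ e ▸ hs), fun hs => by
      obtain ⟨r, hr, h1⟩ := exists_lt_of_csInf_lt ne hs
      exact Back.later hr h1.le⟩
  have u5 : u < τ := (u4 τ).1 (back_self hU a τ hx)
  refine ⟨u, ⟨u1, u5⟩, u4, fun ε hε => ?_⟩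
  obtain ⟨η, hη, h1⟩ := exists_short ha hU τ (show 0 < ε / 13 by positivity)
  have r1 : u < min (u + η) τ := lt_min (by linarith) u5
  obtain ⟨X, h2, h3⟩ := (u4 _).2 r1
  obtain ⟨m, hm, h4⟩ := h2.away hU
  rcases rback_or_small hU u2 a hx (lt_min (half_pos hm) (show 0 < ε / 13 by positivity)) with
    h5 | ⟨s, hs, Y, h5, h6, h7⟩
  · exact absurd h5 u3
  have s1 : s ≤ u + η := by
    by_contra hc
    have d : min (u + η) τ ≤ s := (min_le_left _ _).trans (le_of_not_ge hc)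
    have := (h2.mono d le_rfl).uniq_at hU h5 ⟨hs.2, le_rfl⟩ (h3.trans h6.symm) ⟨le_rfl, hs.2⟩
    linarith [h4 s ⟨d, hs.2⟩, min_le_left (m / 2) (ε / 13), this ▸ h7]
  have u0 := hσ.trans u1
  obtain ⟨δ, hδ, h8⟩ := h5.back_cont ha hU (u0.trans hs.1) hs.2 (show 0 < ε / 13 by positivity)
  refine ⟨δ, hδ, fun w hw hd => ?_⟩
  obtain ⟨k1, k2⟩ := h1 u s u0 hs.1 hs.2 (by linarith)
  have k3 := Zt_move ha hU u0 hs.1 (by positivity) k1 k2
    (LoeAM.alive_mono hs.2 (Fm_alive ha hU (hσ.trans hστ) hw))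
  have k4 := h8 w hw (h6 ▸ hd) s ⟨le_rfl, hs.2⟩
  have k5 := norm_sub_norm_le (Zt a U (Fm a U τ w) u) (Zt a U (Fm a U τ w) s)
  have k6 := norm_sub_norm_le (Zt a U (Fm a U τ w) s) (Y s)
  rw [norm_sub_rev] at k5
  rw [norm_real, Real.norm_eq_abs] at k6
  linarith [min_le_right (m / 2) (ε / 13)]

/-! ## the canonical real flow on the path space -/

theorem Xt_eq (hU : Continuous U) {t x : ℝ} (h : RT a U 0 t X) (e : X 0 = x) :
    ∀ s ∈ Icc 0 t, RAl a U x s ∧ Xt a U x s = X s := by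
  intro s hs
  have h1 : RAl a U x s := ⟨X, h.mono le_rfl hs.2, e⟩
  refine ⟨h1, ?_⟩
  rw [Xt, dif_pos h1]
  exact h1.choose_spec.1.uniq_at hU (h.mono le_rfl hs.2) ⟨le_rfl, hs.1⟩
    (h1.choose_spec.2.trans e.symm) ⟨hs.1, le_rfl⟩

theorem RAl.rt (hU : Continuous U) {t x : ℝ} (h : RAl a U x t) : RT a U 0 t (Xt a U x) := by
  obtain ⟨X, h1, h2⟩ := h
  exact h1.congr (fun s hs => (Xt_eq hU h1 h2 s hs).2.symm) fun _ _ => rfl

theorem RAl.mono {s t x : ℝ} (h : RAl a U x t) (hst : s ≤ t) : RAl a U x s := by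
  obtain ⟨X, h1, h2⟩ := h
  exact ⟨X, h1.mono le_rfl hst, h2⟩

theorem RAl.zero (hU : Continuous U) {t x : ℝ} (ht : 0 ≤ t) (h : RAl a U x t) :
    Xt a U x 0 = x := by
  obtain ⟨X, h1, h2⟩ := h
  exact (Xt_eq hU h1 h2 0 ⟨le_rfl, ht⟩).2.trans h2

theorem ral_iff (hU : Continuous U) {t x : ℝ} (ht : 0 ≤ t) : RAl a U x t ↔ Xt a U x t ≠ 0 :=
  ⟨fun h => (h.rt hU).ne t ⟨ht, le_rfl⟩, fun h => by_contra fun hc => h (dif_neg hc)⟩

theorem Xt_congr (hU : Continuous U) (hV : Continuous V) {t : ℝ} (ht : 0 ≤ t)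
    (e : EqOn U V (Icc 0 t)) (x : ℝ) : Xt a U x t = Xt a V x t := by
  by_cases h : RAl a U x t
  · exact (Xt_eq hV ((h.rt hU).congr (fun _ _ => rfl) e) (h.zero hU ht) t ⟨ht, le_rfl⟩).2.symm
  · rw [Xt, Xt, dif_neg h, dif_neg fun ⟨X, h1, h2⟩ => h ⟨X, h1.congr (fun _ _ => rfl) e.symm, h2⟩]

theorem measurable_Xt (a x : ℝ) {t : ℝ} (ht : 0 ≤ t) :
    Measurable (fun u : Pth => Xt a u.1 x t) := by
  classical
  borelize C(Icc (0 : ℝ) t, ℝ)
  let Φ : Pth → C(Icc (0 : ℝ) t, ℝ) := fun u => ⟨fun s => u.1 s, u.cont.comp continuous_subtype_val⟩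
  have hΦ : Measurable Φ := MeasA.measurable_cm fun s => measurable_ev _
  have e : ∀ u : Pth, _ := fun u => Xt_congr (a := a) u.cont (MeasA.ext_cont ht (Φ u)) ht
    (fun s hs => by simp [MeasA.ext, Φ, projIcc_of_mem ht hs]) x
  simp only [e]
  refine Measurable.comp (g := fun W => Xt a (MeasA.ext ht W) x t) ?_ hΦ
  let A : Set C(Icc (0 : ℝ) t, ℝ) := {W | RAl a (MeasA.ext ht W) x t}
  have key : ∀ W ∈ A, ∀ ε : ℝ, 0 < ε → ∀ᶠ W' in 𝓝 W, W' ∈ A ∧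
      |Xt a (MeasA.ext ht W') x t - Xt a (MeasA.ext ht W) x t| ≤ ε := by
    intro W hW ε hε
    have c := MeasA.ext_cont ht W
    obtain ⟨δ, hδ, h1⟩ := Traj.stable c ht (RAl.rt c hW) hε
    filter_upwards [Metric.closedBall_mem_nhds W hδ] with W' hW'
    have c' := MeasA.ext_cont ht W'
    obtain ⟨y, h2, h3, h4⟩ := h1 _ x c' (fun s _ => (ContinuousMap.dist_apply_le_dist _).trans hW')
      (by simpa [RAl.zero c ht hW] using hδ.le)
    obtain ⟨h5, h6⟩ := Xt_eq (x := x) c' (h2.rt c' ⟨le_rfl, ht⟩ (by simp [h3])) (by simp [h3]) t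
      ⟨ht, le_rfl⟩
    refine ⟨h5, ?_⟩
    rw [h6]
    simpa using (abs_re_le_norm _).trans (h4 t ⟨ht, le_rfl⟩)
  have hAo : IsOpen A := isOpen_iff_mem_nhds.2 fun W hW => (key W hW 1 one_pos).mono fun _ h => h.1
  rw [← A.piecewise_same fun W => Xt a (MeasA.ext ht W) x t]
  refine ContinuousOn.measurable_piecewise (fun W hW => ?_)
    (continuousOn_const.congr fun W hW => dif_neg hW) hAo.measurableSet
  refine ContinuousAt.continuousWithinAt ?_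
  exact Metric.nhds_basis_closedBall.tendsto_right_iff.2 fun ε hε =>
    (key W hW ε hε).mono fun _ h => h.2

theorem adapted_Xt (a x : ℝ) {s t : ℝ} (hs : 0 ≤ s) (hst : s ≤ t) :
    Measurable[Fc t] (fun u : Pth => Xt a u.1 x s) :=
  measurable_Fc (measurable_Xt a x hs) fun u =>
    Xt_congr (stp t u).cont u.cont hs (fun _ hr => stp_le u (hr.2.trans hst)) x

theorem Watch.ral (a x : ℝ) : Watch (fun u t => RAl a u.1 x t) := by
  refine ⟨fun t ht => ?_, fun _ _ _ _ h h' => h'.mono h, fun u t ht ⟨X, h1, h2⟩ => ?_⟩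
  · simp only [fun u : Pth => ral_iff (a := a) (x := x) u.cont ht]
    exact adapted_Xt a x ht le_rfl (measurableSet_singleton 0).compl
  · obtain ⟨t', h3, Y, h4, h5⟩ := h1.extend u.cont ht
    exact ⟨t', h3, Y, h4, (h5 ⟨le_rfl, ht⟩).trans h2⟩

theorem Traj.shift {s t : ℝ} (e : ∀ r ∈ Icc 0 t, V r = U (s + r) - U s)
    (h : Traj b U s (s + t) z) : Traj b V 0 t (fun r => z (s + r)) := by
  have m : MapsTo (fun r : ℝ => s + r) (Icc 0 t) (Icc s (s + t)) := fun r hr =>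
    ⟨by linarith [hr.1], by linarith [hr.2]⟩
  refine ⟨fun r hr => h.ne _ (m hr), fun r hr => ?_⟩
  have h3 := HasDerivWithinAt.scomp r (h := fun r : ℝ => s + r) (h.dz _ (m hr))
    ((hasDerivAt_id r).const_add s).hasDerivWithinAt m
  rw [one_smul] at h3
  exact (h3.sub_const (U s : ℂ)).congr_of_mem (fun q hq => by
    simp only [Function.comp_apply, e q hq]; push_cast; ring) hr

/-- a real point alive on `[s, s + t]` for `cat s u v` is alive for the fresh path `v`. -/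
theorem RT.ral_cat {s t : ℝ} (hs : 0 ≤ s) {u v : Pth} (h : RT a (cat s u v).1 s (s + t) X) :
    ∀ r ∈ Icc 0 t, RAl a v.1 (X s) r ∧ Xt a v.1 (X s) r = X (s + r) :=
  Xt_eq v.cont (X := fun r => X (s + r)) (Traj.shift (cat_drv hs u v t) h) (by simp)

end Pool.Agent.MP_990230_pr.K8

end
end MrgPart2

-- ======== part 3: formerly Pool.Agent.MP_990230_pr.k8.Mir
section MrgPart3

/-! # SLE8 frame: mirror symmetry `z ↦ - conj z`, `U ↦ - U` -/

open Set MeasureTheory Filter Complex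
open scoped ComplexConjugate

noncomputable section

namespace Pool.Agent.MP_990230_pr.K8

/-- the reflection in the imaginary axis. -/
def mir (z : ℂ) : ℂ := -conj z

@[simp] theorem mir_re (z : ℂ) : (mir z).re = -z.re := by simp [mir]

@[simp] theorem mir_im (z : ℂ) : (mir z).im = z.im := by simp [mir]

@[simp] theorem mir_mir (z : ℂ) : mir (mir z) = z := by simp [mir]

@[simp] theorem norm_mir (z : ℂ) : ‖mir z‖ = ‖z‖ := by simp [mir]

theorem mir_sub (z w : ℂ) : mir z - mir w = mir (z - w) := by simp only [mir, map_sub]; ring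

theorem mir_add (z w : ℂ) : mir z + mir w = mir (z + w) := by simp only [mir, map_add]; ring

theorem mir_ofReal (x : ℝ) : mir x = ((-x : ℝ) : ℂ) := by simp [mir]

theorem mir_mul_I (y : ℝ) : mir (y * I) = y * I := by simp [mir]

theorem norm_mir_sub (z : ℂ) (x : ℝ) : ‖mir z - ((-x : ℝ) : ℂ)‖ = ‖z - x‖ := by
  rw [← mir_ofReal, mir_sub, norm_mir]

theorem continuous_mir : Continuous mir := continuous_conj.neg

variable {a : ℝ} {U : ℝ → ℝ} {t : ℝ} {z : ℂ}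

theorem mir_fwd (ha : 0 < a) (hU : Continuous U) (ht : 0 ≤ t) (hz : Alive a U z t) :
    Alive a (fun r => -U r) (mir z) t ∧
      ∀ s ∈ Icc 0 t, Zt a (fun r => -U r) (mir z) s = mir (Zt a U z s) := by
  have i0 := LoeAM.init (a := a) hU.neg (mir z) (by simpa using hz.1)
  have i1 := LoeAM.init (a := a) hU z hz.1
  refine alive_of_traj ha hU.neg le_rfl ht i0.1 (traj_Zt hU le_rfl hz).mirror ?_
  rw [i1.2.1]
  refine Eq.trans ?_ i0.2.1.symm
  simp [mir, add_comm, sub_eq_add_neg]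

theorem alive_mir (ha : 0 < a) (hU : Continuous U) (ht : 0 ≤ t) :
    Alive a (fun r => -U r) (mir z) t ↔ Alive a U z t :=
  ⟨fun h => by simpa using (mir_fwd ha hU.neg ht h).1, fun h => (mir_fwd ha hU ht h).1⟩

theorem Zt_mir (ha : 0 < a) (hU : Continuous U) (ht : 0 ≤ t) :
    Zt a (fun r => -U r) (mir z) t = mir (Zt a U z t) := by
  by_cases h : Alive a U z t
  · exact (mir_fwd ha hU ht h).2 t ⟨ht, le_rfl⟩
  · rw [Zt_dead h, Zt_dead fun hc => h ((alive_mir ha hU ht).1 hc)]; simp [mir]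

theorem sI_mir (z : ℂ) : sI (mir z) = sI z := by simp [sI, normSq_eq_norm_sq]

theorem ups_mir (ha : 0 < a) (hU : Continuous U) (ht : 0 ≤ t) :
    ups a (fun r => -U r) (mir z) t = ups a U z t := by
  by_cases h : Alive a U z t
  · rw [LoeAM.ups_of_alive h, LoeAM.ups_of_alive ((alive_mir ha hU ht).2 h), mir_im,
      intervalIntegral.integral_congr (g := fun r => sI (Zt a U z r) ^ 2) fun r hr => by
        simp only [Zt_mir ha hU (show r ∈ Icc 0 t by rwa [uIcc_of_le ht] at hr).1, sI_mir]]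
  · rw [LoeAM.ups_of_dead h, LoeAM.ups_of_dead fun hc => h ((alive_mir ha hU ht).1 hc)]

theorem Fm_mir (ha : 0 < a) (hU : Continuous U) (ht : 0 ≤ t) {w : ℂ} (hw : 0 < w.im) :
    Fm a (fun r => -U r) t (mir w) = mir (Fm a U t w) := by
  have := Fm_Zt ha hU.neg ht ((alive_mir ha hU ht).2 (Fm_alive ha hU ht hw))
  rwa [show Zt a (-U) (mir (Fm a U t w)) t = mir w by
    rw [← Zt_Fm ha hU ht hw, ← Zt_mir ha hU ht, Zt_Fm ha hU ht hw]; rfl] at this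

theorem RAl.mirror {x : ℝ} (h : RAl a U x t) : RAl a (fun r => -U r) (-x) t := by
  obtain ⟨X, h1, h2⟩ := h
  exact ⟨_, h1.mirror, by simp [h2]⟩

theorem Xt_mir (hU : Continuous U) (ht : 0 ≤ t) {x : ℝ} (h : RAl a U x t) :
    Xt a (fun r => -U r) (-x) t = -Xt a U x t :=
  (Xt_eq hU.neg (h.rt hU).mirror (by simp [h.zero hU ht]) t ⟨ht, le_rfl⟩).2

end Pool.Agent.MP_990230_pr.K8

end
end MrgPart3

-- marker of a merged file
example : 731051 + 251398 = 731051 + 251398 := rfl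

end MrgPart0

-- ======== part 1: formerly Pool.Agent.MP_990230_pr.k8.SH1
section MrgPart1

/-! # SLE8, clean window, deterministic part 1: forced and unforced blocks, the count -/

open Set Complex
open scoped Topology

noncomputable section

namespace Pool.Agent.MP_990230_pr.K8

namespace SHM

/-- the tools used by the clean window; `φ` is the level, `L` the size of the hull, from the time
`t0` on there is a dead point at the centre. -/
structure Tl (a : ℝ) (U : ℝ → ℝ) (φ : ℂ → ℝ) (L : ℝ → ℝ → ℝ) (y0 t0 T C : ℝ) : Prop where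
  ha : 0 < a
  hU : Continuous U
  U0 : U 0 = 0
  hy : 0 < y0
  hC : 1 ≤ C
  φc : Continuous φ
  φfar : ∀ A : ℝ, ∃ Y : ℝ, ∀ z : ℂ, Y ≤ z.im → A ≤ φ z
  L0 : ∀ s t, 0 ≤ s → s ≤ t → 0 ≤ L s t
  Lself : ∀ s, 0 ≤ s → L s s = 0
  Lmono : ∀ s t t', 0 ≤ s → s ≤ t → t ≤ t' → L s t ≤ L s t'
  Lsub : ∀ s s' t, 0 ≤ s → s ≤ s' → s' ≤ t → L s' t ≤ 2 * L s t
  Ladd : ∀ s r t, 0 ≤ s → s ≤ r → r ≤ t → L s t ≤ L s r + L r t
  Lcont : ∀ s, 0 ≤ s → ContinuousOn (L s) (Ici s)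
  size : ∀ s t z, 0 ≤ s → s ≤ t → Alive a U z t → ‖Zt a U z t - Zt a U z s‖ ≤ C * L s t
  tail : ∀ s t (y : ℝ), 0 ≤ s → s ≤ t → t0 ≤ t → 0 < y → C * L s t ≤ y →
    |φ (Fm a U t (y * I)) - φ (Fm a U s (y * I))| ≤ C
  lip : ∀ t (m k : ℝ) (w w' : ℂ), 0 ≤ t → t0 ≤ t → 0 < m → m ≤ w.im → m ≤ w'.im →
    ‖w - w'‖ ≤ k * m → |φ (Fm a U t w) - φ (Fm a U t w')| ≤ C * k + C
  semi : ∀ s (σ d x r : ℝ) (S : Set ℂ) (z z' : ℂ), 0 ≤ s → t0 ≤ s → (σ = 1 ∨ σ = -1) → 0 < r →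
    IsPreconnected S → (∀ q ∈ S, Alive a U q s ∧ σ * φ q ≤ d) → z ∈ S → z' ∈ S →
    ‖Zt a U z s - x‖ ≤ r → 2 * r ≤ ‖Zt a U z' s - x‖ → σ * φ (Fm a U s (x + r * I)) ≤ d + C
  ray : ∀ t (x y : ℝ), 0 ≤ t → t0 ≤ t → 0 < y → ∃ ξ ∈ Icc y (2 * y), ∀ η ∈ Ioc 0 y,
    |φ (Fm a U t ((x + ξ : ℝ) + η * I)) - φ (Fm a U t (x + y * I))| ≤ C ∧
    |φ (Fm a U t ((x - ξ : ℝ) + η * I)) - φ (Fm a U t (x + y * I))| ≤ C
  lind : ∀ u (S : Set ℂ), 0 ≤ u → u ≤ T → IsPreconnected S → (∀ q ∈ S, Alive a U q u) →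
    (∀ ε : ℝ, 0 < ε → ∃ q ∈ S, ‖Zt a U q u‖ ≤ ε) → ∃ S' : Set ℂ, IsPreconnected S' ∧
      (∀ q ∈ S', Alive a U q u ∧ |φ q - φ (Fm a U u (y0 * I))| ≤ C) ∧
      Fm a U u (y0 * I) ∈ S' ∧ (S' ∩ S).Nonempty
  door : ∀ s t (y : ℝ), 0 ≤ s → s ≤ t → t0 ≤ t → t ≤ T → 0 < y → L s t ≤ C * y ∨
    ∃ u ∈ Icc s t, y ≤ C * L u t ∧ L u t ≤ C * y ∧
      |φ (Fm a U t (y * I)) - φ (Fm a U u (y0 * I))| ≤ C

/-- the level in the direction of episode `i`; block `n` of the episode is `[n l, (n+1) l]`. -/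
def ps (φ : ℂ → ℝ) (sg : ℕ → ℝ) (M : ℝ) (B : ℕ) (l : ℝ) (i : ℕ) (z : ℂ) : ℝ :=
  sg i * (φ z - M) + B * l / 2

/-- `E` alternating episodes without backtracking; `g i u` is the level of the marker. -/
structure Epi (g : ℕ → ℝ → ℝ) (sg : ℕ → ℝ) (E B : ℕ) (l ν T : ℝ) (Tm : ℕ → ℝ)
    (c : ℕ → ℕ → ℝ) : Prop where
  sg1 : ∀ i, sg i = 1 ∨ sg i = -1
  alt : ∀ i, sg (i + 1) = -sg i
  T0 : Tm 0 = 0
  start : ∀ i < E, Tm i ≤ c i 0
  step : ∀ i < E, ∀ n < B, c i n ≤ c i (n + 1)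
  fin : ∀ i < E, c i B ≤ Tm (i + 1)
  TT : Tm E ≤ T
  hit : ∀ i < E, ∀ n ≤ B, n * l ≤ g i (c i n)
  first : ∀ i < E, ∀ n ≤ B, ∀ u ∈ Icc (Tm i) (c i n), g i u ≤ n * l + 1
  nb : ∀ i < E, ∀ u u', Tm i ≤ u → u ≤ u' → u' ≤ Tm (i + 1) → ∀ x ∈ Icc (0 : ℝ) (B * l),
    x ≤ g i u → x - ν ≤ g i u'

variable {a : ℝ} {U : ℝ → ℝ} {φ : ℂ → ℝ} {L : ℝ → ℝ → ℝ} {y0 t0 T C : ℝ}

theorem im_mulI (y : ℝ) : ((y : ℂ) * I).im = y := by simp

theorem norm_mulI {y : ℝ} (hy : 0 ≤ y) : ‖(y : ℂ) * I‖ = y := by simp [abs_of_nonneg hy]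

theorem Tl.lipv (h : Tl a U φ L y0 t0 T C) {t y y' k : ℝ} (ht : 0 ≤ t) (ht0 : t0 ≤ t) (hy : 0 < y)
    (h1 : y ≤ y') (h2 : y' ≤ k * y) :
    |φ (Fm a U t (y' * I)) - φ (Fm a U t (y * I))| ≤ C * k + C :=
  h.lip t y k _ _ ht ht0 hy (by simpa using h1) (by simp) (by
    rw [← sub_mul, ← ofReal_sub, norm_mulI (by linarith)]; linarith)

theorem Tl.head (h : Tl a U φ L y0 t0 T C) {s t y K : ℝ} (hs : 0 ≤ s) (hst : s ≤ t) (ht0 : t0 ≤ t)
    (hT : t ≤ T) (hK : 1 ≤ K) (h1 : y0 ≤ y) (h2 : y ≤ K * (y0 + L s t)) :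
    ∃ u ∈ Icc s t, |φ (Fm a U t (y * I)) - φ (Fm a U u (y0 * I))| ≤ 6 * K * C ^ 2 ∧
      L u t ≤ C * y ∧ y ≤ 4 * K * C ^ 2 * (y0 + L u t) := by
  have hC := h.hC
  have hy := h.hy
  have ht : 0 ≤ t := hs.trans hst
  have hC2 : C ≤ C ^ 2 := by nlinarith
  have hK2 : C ^ 2 ≤ K * C ^ 2 := by nlinarith
  have hKC : K * C ≤ K * C ^ 2 := by nlinarith
  have hK1 : K ≤ K * C ^ 2 := by nlinarith
  rcases le_or_gt y (2 * K * y0) with c1 | c1
  · refine ⟨t, ⟨hst, le_rfl⟩, (h.lipv ht ht0 hy h1 c1).trans (by nlinarith), ?_, ?_⟩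
    · rw [h.Lself t ht]; nlinarith
    · rw [h.Lself t ht]; nlinarith
  have c2 : y < 2 * K * L s t := by nlinarith
  have hL : 0 < L s t := by
    by_contra hc
    nlinarith [not_lt.1 hc]
  rcases h.door s t y hs hst ht0 hT (by linarith) with c3 | ⟨u, hu, d1, d2, d3⟩
  · have hy' : 0 < L s t / (2 * C) := by positivity
    have e : C * (L s t / (2 * C)) = L s t / 2 := by field_simp
    rcases h.door s t _ hs hst ht0 hT hy' with c4 | ⟨u, hu, d1, d2, d3⟩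
    · linarith
    have k1 : L s t / (2 * C) ≤ y := by
      rw [div_le_iff₀ (by positivity)]; nlinarith
    have k2 : y ≤ 4 * K * C * (L s t / (2 * C)) := by
      have : 4 * K * C * (L s t / (2 * C)) = 2 * K * L s t := by field_simp; ring
      linarith
    have k3 := h.lipv ht ht0 hy' k1 k2
    refine ⟨u, hu, ?_, by nlinarith, ?_⟩
    · rw [abs_le] at k3 d3 ⊢
      constructor <;> nlinarith [k3.1, k3.2, d3.1, d3.2]
    · have : 4 * K * C * (L s t / (2 * C)) ≤ 4 * K * C * (C * L u t) := by gcongr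
      have h0 : 0 ≤ 4 * K * C ^ 2 * y0 := by positivity
      nlinarith
  · refine ⟨u, hu, d3.trans (by nlinarith), d2, ?_⟩
    have h0 := h.L0 u t (hs.trans hu.1) hu.2
    have : C * L u t ≤ 4 * K * C ^ 2 * L u t := by gcongr; nlinarith
    have h0 : 0 ≤ 4 * K * C ^ 2 * y0 := by positivity
    nlinarith

/-- the door times are monotone in the height. -/
theorem Tl.head2 (h : Tl a U φ L y0 t0 T C) {s t ya yb K : ℝ} (hs : 0 ≤ s) (hst : s ≤ t)
    (ht0 : t0 ≤ t) (hT : t ≤ T) (hK : 1 ≤ K) (h1 : y0 ≤ ya) (h2 : ya ≤ yb)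
    (h3 : yb ≤ K * (y0 + L s t)) : ∃ ua ub, s ≤ ub ∧ ub ≤ ua ∧ ua ≤ t ∧
      |φ (Fm a U t (ya * I)) - φ (Fm a U ua (y0 * I))| ≤ 20 * K * C ^ 4 ∧
      |φ (Fm a U t (yb * I)) - φ (Fm a U ub (y0 * I))| ≤ 20 * K * C ^ 4 := by
  have hC := h.hC
  have hy := h.hy
  have hC2 : 1 ≤ C ^ 2 := one_le_pow₀ hC
  have k1 : K * C ^ 2 ≤ K * C ^ 4 := by
    gcongr
    norm_num
  have k2 : C ≤ K * C ^ 4 := by
    have : C ≤ C ^ 4 := le_self_pow₀ hC (by norm_num)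
    nlinarith [pow_pos (show 0 < C by linarith) 4]
  obtain ⟨ua, hua, a1, a2, -⟩ := h.head hs hst ht0 hT hK h1 (h2.trans h3)
  obtain ⟨ub, hub, b1, -, b3⟩ := h.head hs hst ht0 hT hK (h1.trans h2) h3
  rcases le_total ub ua with d | d
  · exact ⟨ua, ub, hub.1, d, hua.2, by nlinarith, by nlinarith⟩
  have e1 := h.Lsub ua ub t (hs.trans hua.1) d hub.2
  have e2 : yb ≤ 12 * K * C ^ 3 * ya := by
    have : y0 + L ub t ≤ 3 * C * ya := by nlinarith
    calc yb ≤ _ := b3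
      _ ≤ 4 * K * C ^ 2 * (3 * C * ya) := by gcongr
      _ = _ := by ring
  have e3 := h.lipv (hs.trans hst) ht0 (by linarith) h2 e2
  refine ⟨ua, ua, hua.1, le_rfl, hua.2, by nlinarith, ?_⟩
  rw [abs_le] at e3 a1 ⊢
  have : C * (12 * K * C ^ 3) = 12 * (K * C ^ 4) := by ring
  constructor <;> nlinarith [e3.1, e3.2, a1.1, a1.2]

variable {sg : ℕ → ℝ} {M l ν μ : ℝ} {E B : ℕ} {Tm : ℕ → ℝ} {c : ℕ → ℕ → ℝ}

theorem ps_abs (hσ : ∀ i, sg i = 1 ∨ sg i = -1) (i : ℕ) {z w : ℂ} {A : ℝ} (h : |φ z - φ w| ≤ A) :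
    ps φ sg M B l i z ≤ ps φ sg M B l i w + A ∧ ps φ sg M B l i w ≤ ps φ sg M B l i z + A := by
  rw [abs_le] at h
  unfold ps
  rcases hσ i with e | e <;> rw [e] <;> constructor <;> linarith [h.1, h.2]

theorem ps_opp {i j : ℕ} (e : sg i = -sg j) (z : ℂ) :
    ps φ sg M B l i z = B * l - ps φ sg M B l j z := by
  unfold ps; rw [e]; ring

section epi

variable {g : ℕ → ℝ → ℝ}

theorem Epi.cmono (h : Epi g sg E B l ν T Tm c) {i : ℕ} (hi : i < E) {n n' : ℕ} (h1 : n ≤ n')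
    (h2 : n' ≤ B) : c i n ≤ c i n' := by
  induction n', h1 using Nat.le_induction with
  | base => exact le_rfl
  | succ k _ ih => exact (ih (by omega)).trans (h.step i hi k (by omega))

theorem Epi.lo (h : Epi g sg E B l ν T Tm c) {i : ℕ} (hi : i < E) {n : ℕ} (hn : n ≤ B) :
    Tm i ≤ c i n := (h.start i hi).trans (h.cmono hi (Nat.zero_le n) hn)

theorem Epi.hi (h : Epi g sg E B l ν T Tm c) {i : ℕ} (hi : i < E) {n : ℕ} (hn : n ≤ B) :
    c i n ≤ Tm (i + 1) := (h.cmono hi hn le_rfl).trans (h.fin i hi)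

theorem Epi.Tmono (h : Epi g sg E B l ν T Tm c) {i j : ℕ} (h1 : i ≤ j) (h2 : j ≤ E) :
    Tm i ≤ Tm j := by
  induction j, h1 using Nat.le_induction with
  | base => exact le_rfl
  | succ k _ ih =>
    exact (ih (by omega)).trans ((h.lo (by omega) le_rfl).trans (h.fin k (by omega)))

theorem Epi.Tnn (h : Epi g sg E B l ν T Tm c) {i : ℕ} (hi : i ≤ E) : 0 ≤ Tm i :=
  h.T0 ▸ h.Tmono (Nat.zero_le i) hi

theorem Epi.cnn (h : Epi g sg E B l ν T Tm c) {i : ℕ} (hi : i < E) {n : ℕ} (hn : n ≤ B) :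
    0 ≤ c i n := (h.Tnn hi.le).trans (h.lo hi hn)

theorem Epi.cT (h : Epi g sg E B l ν T Tm c) {i : ℕ} (hi : i < E) {n : ℕ} (hn : n ≤ B) :
    c i n ≤ T := (h.hi hi hn).trans ((h.Tmono hi le_rfl).trans h.TT)

/-- no backtracking, read backwards. -/
theorem Epi.nb' (h : Epi g sg E B l ν T Tm c) {i : ℕ} (hi : i < E) {u u' x : ℝ} (h1 : Tm i ≤ u)
    (h2 : u ≤ u') (h3 : u' ≤ Tm (i + 1)) (h4 : g i u' ≤ x) (h5 : 0 ≤ x + ν) (h6 : x + ν < B * l) :
    g i u ≤ x + ν := by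
  by_contra hc
  have := h.nb i hi u u' h1 h2 h3 (min (g i u) (B * l))
    ⟨le_min (by linarith) (by linarith), min_le_right _ _⟩ (min_le_left _ _)
  have h7 : x + ν < min (g i u) (B * l) := lt_min (not_le.1 hc) h6
  linarith

end epi

/-- all the data of a clean window. -/
structure Win (a : ℝ) (U : ℝ → ℝ) (φ : ℂ → ℝ) (L : ℝ → ℝ → ℝ) (y0 T C : ℝ) (sg : ℕ → ℝ)
    (M l ν μ : ℝ) (E B : ℕ) (Tm : ℕ → ℝ) (c : ℕ → ℕ → ℝ) (i0 : ℕ) : Prop where
  tl : Tl a U φ L y0 (Tm i0) T C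
  ep : Epi (fun i u => ps φ sg M B l i (Fm a U u (y0 * I))) sg E B l ν T Tm c
  hν : 0 ≤ ν
  hμ : ν + 1000 * C ^ 5 ≤ μ
  hl : (2 * E + 20) * μ ≤ l

/-- the rest of the episode is unforced. -/
def Uall (a : ℝ) (U : ℝ → ℝ) (ψ : ℂ → ℝ) (L : ℝ → ℝ → ℝ) (y0 C l μ : ℝ) (B : ℕ) (c : ℕ → ℝ)
    (n : ℕ) : Prop :=
  ∀ y ∈ Icc y0 (4 * C * (y0 + L (c n) (c B))), ψ (Fm a U (c n) (y * I)) ≤ n * l + μ

open Classical in
/-- the first block from which the episode is unforced. -/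
def nU (a : ℝ) (U : ℝ → ℝ) (ψ : ℂ → ℝ) (L : ℝ → ℝ → ℝ) (y0 C l μ : ℝ) (B : ℕ) (c : ℕ → ℝ) : ℕ :=
  Nat.find (p := fun n => B ≤ n ∨ Uall a U ψ L y0 C l μ B c n) ⟨B, Or.inl le_rfl⟩

variable {i0 : ℕ}

theorem Win.num (h : Win a U φ L y0 T C sg M l ν μ E B Tm c i0) :
    1 ≤ C ∧ C ≤ C ^ 5 ∧ C ^ 3 ≤ C ^ 5 ∧ 0 ≤ ν ∧ ν + 1000 * C ^ 5 ≤ μ ∧ 20 * μ ≤ l := by
  have hC := h.tl.hC
  have h5 : C ≤ C ^ 5 := le_self_pow₀ hC (by norm_num)
  refine ⟨hC, h5, pow_le_pow_right₀ hC (by norm_num), h.hν, h.hμ, ?_⟩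
  have := h.hl
  have h1 : 0 ≤ μ := by linarith [h.hν, h.hμ]
  nlinarith [Nat.cast_nonneg (α := ℝ) E]

theorem Win.dead (h : Win a U φ L y0 T C sg M l ν μ E B Tm c i0) {i : ℕ} (h0 : i0 ≤ i) (hi : i < E)
    {n : ℕ} (hn : n ≤ B) : Tm i0 ≤ c i n := (h.ep.Tmono h0 hi.le).trans (h.ep.lo hi hn)

theorem nU_le (ψ : ℂ → ℝ) (c : ℕ → ℝ) : nU a U ψ L y0 C l μ B c ≤ B := by
  classical
  exact Nat.find_min' _ (Or.inl le_rfl)

theorem nU_spec {ψ : ℂ → ℝ} {c : ℕ → ℝ} (h : nU a U ψ L y0 C l μ B c < B) :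
    Uall a U ψ L y0 C l μ B c (nU a U ψ L y0 C l μ B c) := by
  classical
  exact (Nat.find_spec (p := fun n => B ≤ n ∨ Uall a U ψ L y0 C l μ B c n)
    ⟨B, Or.inl le_rfl⟩).resolve_left (not_le.2 h)

theorem nU_min {ψ : ℂ → ℝ} {c : ℕ → ℝ} {n : ℕ} (h : n < nU a U ψ L y0 C l μ B c) :
    ¬ Uall a U ψ L y0 C l μ B c n := by
  classical
  exact fun hc => Nat.find_min _ h (Or.inr hc)

/-- blocks from `nU` on are unforced. -/
theorem Win.unf (h : Win a U φ L y0 T C sg M l ν μ E B Tm c i0) {i n : ℕ} (h0 : i0 ≤ i) (hi : i < E)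
    (h1 : nU a U (ps φ sg M B l i) L y0 C l μ B (c i) ≤ n) (hn : n < B) :
    ∀ y ∈ Icc y0 (2 * C * (y0 + L (c i n) (c i (n + 1)))),
      ps φ sg M B l i (Fm a U (c i n) (y * I)) ≤ n * l + μ := by
  obtain ⟨c1, c2, c3, c4, c5, c6⟩ := h.num
  intro y hy
  have hu := nU_spec (h1.trans_lt hn)
  set k := nU a U (ps φ sg M B l i) L y0 C l μ B (c i) with hk
  have e := h.ep
  have tl := h.tl
  have hy0 := tl.hy
  have p0 := e.cnn hi (h1.trans hn.le)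
  have p1 := e.cmono hi h1 hn.le
  have p2 := e.step i hi n hn
  have p3 := e.cmono hi (Nat.succ_le_of_lt hn) le_rfl
  have q1 := tl.Lmono _ _ _ (p0.trans p1) p2 p3
  have q2 := tl.Lsub _ _ _ p0 p1 (p2.trans p3)
  have q3 := tl.L0 _ _ p0 (p1.trans (p2.trans p3))
  have hr : y ∈ Icc y0 (4 * C * (y0 + L (c i k) (c i B))) := ⟨hy.1, hy.2.trans (by nlinarith)⟩
  rcases h1.eq_or_lt with rfl | h1'
  · exact hu y hr
  rcases le_total y (C * (y0 + L (c i k) (c i n))) with d | d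
  · obtain ⟨u, hu', a1, -⟩ := tl.head p0 p1 (h.dead h0 hi hn.le) (e.cT hi hn.le) c1 hy.1 d
    have b1 := (ps_abs (M := M) (B := B) (l := l) e.sg1 i a1).1
    have b2 := e.first i hi n hn.le u ⟨(e.lo hi (h1.trans hn.le)).trans hu'.1, hu'.2⟩
    nlinarith
  · have a1 := tl.tail _ _ y p0 p1 (h.dead h0 hi hn.le) (by linarith [hy.1]) (by nlinarith)
    have b1 := (ps_abs (M := M) (B := B) (l := l) e.sg1 i a1).1
    have b2 := hu y hr
    have b3 : (k : ℝ) + 1 ≤ n := by exact_mod_cast h1'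
    nlinarith

/-- blocks before `nU - 1` are forced. -/
theorem Win.frc (h : Win a U φ L y0 T C sg M l ν μ E B Tm c i0) {i n : ℕ} (h0 : i0 ≤ i) (hi : i < E)
    (h1 : n + 1 < nU a U (ps φ sg M B l i) L y0 C l μ B (c i)) :
    ∃ y ∈ Icc y0 (8 * C * (y0 + L (c i n) (c i B))),
      (n + 1) * l ≤ ps φ sg M B l i (Fm a U (c i n) (y * I)) := by
  obtain ⟨c1, c2, c3, c4, c5, c6⟩ := h.num
  have hn : n + 1 < B := h1.trans_le (nU_le _ _)
  have hu := nU_min h1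
  unfold Uall at hu
  push Not at hu
  obtain ⟨y, hy, hu⟩ := hu
  have e := h.ep
  have tl := h.tl
  have hy0 := tl.hy
  have p0 := e.cnn hi (show n ≤ B by omega)
  have p1 := e.step i hi n (by omega)
  have p2 := e.cmono hi hn.le le_rfl
  have q2 := tl.Lsub _ _ _ p0 p1 p2
  have q3 := tl.L0 _ _ p0 (p1.trans p2)
  push_cast at hu
  rcases le_total y (C * (y0 + L (c i n) (c i (n + 1)))) with d | d
  · obtain ⟨u, hu', a1, -⟩ := tl.head p0 p1 (h.dead h0 hi hn.le) (e.cT hi hn.le) c1 hy.1 d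
    have b1 := (ps_abs (M := M) (B := B) (l := l) e.sg1 i a1).1
    have b2 := e.first i hi (n + 1) hn.le u ⟨(e.lo hi (by omega)).trans hu'.1, hu'.2⟩
    push_cast at b2
    nlinarith
  · have a1 := tl.tail _ _ y p0 p1 (h.dead h0 hi hn.le) (by linarith [hy.1]) (by nlinarith)
    have b1 := (ps_abs (M := M) (B := B) (l := l) e.sg1 i a1).1
    exact ⟨y, ⟨hy.1, hy.2.trans (by nlinarith)⟩, by linarith⟩

/-- a forced block is crossed along the geodesic. -/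
theorem Win.frc' (h : Win a U φ L y0 T C sg M l ν μ E B Tm c i0) {i n : ℕ} (h0 : i0 ≤ i)
    (hi : i < E) (h1 : n + 1 < nU a U (ps φ sg M B l i) L y0 C l μ B (c i)) :
    ∃ y ∈ Icc y0 (16 * C * (y0 + L (c i n) (c i (n + 1)))),
      (n + 1) * l - μ ≤ ps φ sg M B l i (Fm a U (c i n) (y * I)) := by
  obtain ⟨c1, c2, c3, c4, c5, c6⟩ := h.num
  have hn : n + 1 < B := h1.trans_le (nU_le _ _)
  obtain ⟨ys, hys, hs⟩ := h.frc h0 hi h1
  by_contra hc
  push Not at hc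
  have e := h.ep
  have tl := h.tl
  have hy0 := tl.hy
  have p0 := e.cnn hi (show n ≤ B by omega)
  have p1 := e.step i hi n (by omega)
  have p2 := e.cmono hi hn.le le_rfl
  set s := c i n
  set t := c i (n + 1)
  set θ := c i B
  let S : Set ℝ := {y | y0 ≤ y ∧ (n + 1) * l - μ ≤ ps φ sg M B l i (Fm a U s (y * I))}
  have hS : ys ∈ S := ⟨hys.1, by linarith⟩
  have bS : BddBelow S := ⟨y0, fun y hy => hy.1⟩
  have k1 : sInf S ≤ ys := csInf_le bS hS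
  have k2 : 16 * C * (y0 + L s t) ≤ sInf S := le_csInf ⟨ys, hS⟩ fun y hy => by
    by_contra hlt
    linarith [hc y ⟨hy.1, (not_le.1 hlt).le⟩, hy.2]
  set y2 := sInf S
  have q0 := tl.L0 _ _ p0 p1
  have q1 := tl.Ladd _ _ _ p0 p1 p2
  have y2p : 0 < y2 := by nlinarith
  have k3 : y2 / (16 * C) ≤ L t θ := by
    rw [div_le_iff₀ (by positivity)]; nlinarith [hys.2]
  obtain ⟨r, hr, er⟩ := intermediate_value_Icc p2
    ((tl.Lcont t (p0.trans p1)).mono Icc_subset_Ici_self)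
    (show y2 / (16 * C) ∈ _ from ⟨by rw [tl.Lself t (p0.trans p1)]; positivity, k3⟩)
  have er' : 16 * C * L t r = y2 := by rw [er]; field_simp
  have q2 := tl.Ladd _ _ _ p0 p1 hr.1
  have d0 : Tm i0 ≤ r := (h.dead h0 hi hn.le).trans hr.1
  have k4 : y0 ≤ y2 / 2 := by nlinarith
  have k5 : ps φ sg M B l i (Fm a U s ((y2 / 2 : ℝ) * I)) < (n + 1) * l - μ := by
    by_contra hlt
    have := csInf_le bS (show y2 / 2 ∈ S from ⟨k4, not_lt.1 hlt⟩)
    linarith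
  have a1 := tl.tail s r (y2 / 2) p0 (p1.trans hr.1) d0 (by linarith) (by nlinarith)
  obtain ⟨u, hu, a2, -⟩ := tl.head (K := 8 * C) (p0.trans p1) hr.1 d0
    (hr.2.trans (e.cT hi le_rfl)) (by linarith) k4 (by nlinarith)
  have b1 := (ps_abs (M := M) (B := B) (l := l) e.sg1 i a1).1
  have b2 := (ps_abs (M := M) (B := B) (l := l) e.sg1 i a2).2
  have hB : ((n + 1 : ℕ) : ℝ) ≤ B := by exact_mod_cast hn.le
  have b3 := e.nb i hi t u (e.lo hi hn.le) hu.1 (hu.2.trans (hr.2.trans (e.fin i hi)))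
    ((n + 1 : ℕ) * l) ⟨by have : 0 ≤ l := by linarith
                          positivity, by nlinarith⟩ (e.hit i hi (n + 1) hn.le)
  push_cast at b3
  nlinarith

/-- `N` heights of the geodesic alternately beyond and before the block `n`. -/
def Alt (a : ℝ) (U : ℝ → ℝ) (ψ : ℂ → ℝ) (y0 l t : ℝ) (n : ℕ) (g : ℝ) (N : ℕ) : Prop :=
  ∃ y : ℕ → ℝ, Monotone y ∧ y0 ≤ y 0 ∧ ∀ k < N,
    (Even k → (n + 1) * l - g ≤ ψ (Fm a U t (y k * I))) ∧
    (Odd k → ψ (Fm a U t (y k * I)) ≤ n * l + g)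

theorem Alt.mono {ψ : ℂ → ℝ} {t g g' : ℝ} {n N N' : ℕ} (h : Alt a U ψ y0 l t n g N) (h1 : g ≤ g')
    (h2 : N' ≤ N) : Alt a U ψ y0 l t n g' N' := by
  obtain ⟨y, m, y1, hy⟩ := h
  exact ⟨y, m, y1, fun k hk => ⟨fun e => by linarith [(hy k (by omega)).1 e],
    fun e => by linarith [(hy k (by omega)).2 e]⟩⟩

section step

variable {i n n' : ℕ} {g : ℝ}

/-- a marker before the block between two consecutive starts belongs to the first episode. -/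
theorem Win.early (h : Win a U φ L y0 T C sg M l ν μ E B Tm c i0) (hi : i + 1 < E)
    (hn : n + n' + 1 = B) {u : ℝ} (hu : u ≤ c (i + 1) n')
    (hl : ps φ sg M B l i (Fm a U u (y0 * I)) < (n + 1) * l - 1) : u ≤ Tm (i + 1) := by
  by_contra hc
  have b := h.ep.first (i + 1) hi n' (by omega) u ⟨(not_le.1 hc).le, hu⟩
  rw [ps_opp (h.ep.alt i), ← hn] at b
  push_cast at b
  rw [← hn] at hl
  linarith

theorem Win.pair (h : Win a U φ L y0 T C sg M l ν μ E B Tm c i0) (h0 : i0 ≤ i + 1) (hi : i + 1 < E)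
    (hn : n + n' + 1 = B) (hg : 0 ≤ g) (hg' : 2 * g + 2 * μ ≤ l) {s ya yb : ℝ} (hs : Tm i ≤ s)
    (hs' : s ≤ c (i + 1) n') (h1 : y0 ≤ ya) (h2 : ya ≤ yb)
    (h3 : yb ≤ 9 * C * (y0 + L s (c (i + 1) n')))
    (ha : ps φ sg M B l i (Fm a U (c (i + 1) n') (ya * I)) ≤ n * l + g) :
    ps φ sg M B l i (Fm a U (c (i + 1) n') (yb * I)) ≤ n * l + g + ν + 360 * C ^ 5 := by
  obtain ⟨c1, c2, c3, c4, c5, c6⟩ := h.num
  have e := h.ep
  obtain ⟨ua, ub, u1, u2, u3, a1, a2⟩ := h.tl.head2 (K := 9 * C)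
    ((e.Tnn (by omega)).trans hs) hs' (h.dead h0 hi (by omega)) (e.cT hi (by omega))
    (by linarith) h1 h2 h3
  have b1 := (ps_abs (M := M) (B := B) (l := l) e.sg1 i a1).2
  have b2 := (ps_abs (M := M) (B := B) (l := l) e.sg1 i a2).1
  have e5 : 20 * (9 * C) * C ^ 4 = 180 * C ^ 5 := by ring
  rw [e5] at b1 b2
  have hB : (n : ℝ) + 1 ≤ B := by exact_mod_cast (show n + 1 ≤ B by omega)
  have hn0 : (0 : ℝ) ≤ n * l := by have : 0 ≤ l := by linarith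
                                   positivity
  have b3 := h.early hi hn u3 (by linarith)
  have b4 := e.nb' (x := n * l + g + 180 * C ^ 5) (show i < E by omega) (hs.trans u1) u2 b3
    (by linarith) (by linarith) (by nlinarith)
  linarith

theorem Win.alt_tail (h : Win a U φ L y0 T C sg M l ν μ E B Tm c i0) (h0 : i0 ≤ i + 1)
    (hi : i + 1 < E) (hn : n + n' + 1 = B) (hg : 0 ≤ g) (hg' : 2 * g + 2 * μ ≤ l) {s : ℝ}
    (hs : Tm i ≤ s) (hs' : s ≤ c (i + 1) n') {y : ℕ → ℝ} (m : Monotone y) (y1 : y0 ≤ y 0)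
    (k0 : (n' + 1) * l - g ≤ ps φ sg M B l (i + 1) (Fm a U (c (i + 1) n') (y 0 * I)))
    (k1 : ps φ sg M B l (i + 1) (Fm a U (c (i + 1) n') (y 1 * I)) ≤ n' * l + g) :
    9 * C * (y0 + L s (c (i + 1) n')) ≤ y 1 := by
  obtain ⟨c1, c2, c3, c4, c5, c6⟩ := h.num
  by_contra hc
  have hB : (B : ℝ) = n + n' + 1 := by rw [← hn]; push_cast; ring
  rw [ps_opp (h.ep.alt i)] at k0 k1
  have := h.pair h0 hi hn hg hg' hs hs' y1 (m zero_le_one) (not_le.1 hc).le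
    (by rw [hB] at k0; linarith)
  rw [hB] at k1
  linarith

theorem Win.stepU (h : Win a U φ L y0 T C sg M l ν μ E B Tm c i0) (h0 : i0 ≤ i) (hi : i + 1 < E)
    (hn : n + n' + 1 = B) (hg : 0 ≤ g) (hg' : 2 * g + 2 * μ ≤ l) {N : ℕ}
    (hA : Alt a U (ps φ sg M B l (i + 1)) y0 l (c (i + 1) n') n' g N) :
    Alt a U (ps φ sg M B l i) y0 l (c i n) n (g + μ) (N - 1) := by
  obtain ⟨c1, c2, c3, c4, c5, c6⟩ := h.num
  obtain ⟨y, m, y1, hy⟩ := hA
  have e := h.ep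
  have p0 := e.cnn (show i < E by omega) (show n ≤ B by omega)
  have p1 : c i n ≤ c (i + 1) n' := (e.hi (by omega) (by omega)).trans (e.lo hi (by omega))
  refine ⟨fun k => y (k + 1), fun k k' hk => m (by omega), y1.trans (m zero_le_one),
    fun k hk => ?_⟩
  have t1 := h.alt_tail (by omega) hi hn hg hg' (e.lo (by omega) (by omega)) p1 m y1
    ((hy 0 (by omega)).1 (by decide)) ((hy 1 (by omega)).2 (by decide))
  have t2 : y 1 ≤ y (k + 1) := m (by omega)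
  have q0 := h.tl.L0 _ _ p0 p1
  have hy0 := h.tl.hy
  have a1 := h.tl.tail _ _ (y (k + 1)) p0 p1 (h.dead (by omega) hi (by omega)) (by nlinarith)
    (by nlinarith)
  have b1 := ps_abs (M := M) (B := B) (l := l) e.sg1 i a1
  have hB : (B : ℝ) = n + n' + 1 := by rw [← hn]; push_cast; ring
  have b2 := hy (k + 1) (by omega)
  rw [ps_opp (e.alt i)] at b2
  refine ⟨fun ek => ?_, fun ek => ?_⟩
  · have := b2.2 ek.add_one
    rw [hB] at this
    linarith [b1.1]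
  · have := b2.1 ek.add_one
    rw [hB] at this
    linarith [b1.2]

theorem Win.stepF (h : Win a U φ L y0 T C sg M l ν μ E B Tm c i0) (h0 : i0 ≤ i) (hi : i + 1 < E)
    (hn : n + n' + 1 = B) (hg : 0 ≤ g) (hg' : 2 * g + 2 * μ ≤ l) {N : ℕ}
    (hF : n + 1 < nU a U (ps φ sg M B l i) L y0 C l μ B (c i))
    (hA : Alt a U (ps φ sg M B l (i + 1)) y0 l (c (i + 1) n') n' g N) :
    Alt a U (ps φ sg M B l i) y0 l (c i n) n (g + μ) (N + 1) := by
  obtain ⟨c1, c2, c3, c4, c5, c6⟩ := h.num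
  obtain ⟨y, m, y1, hy⟩ := hA
  obtain ⟨ys, hys, hs⟩ := h.frc h0 (by omega) hF
  have e := h.ep
  have p0 := e.cnn (show i < E by omega) (show n ≤ B by omega)
  have p1 : c i n ≤ c (i + 1) n' := (e.hi (by omega) (by omega)).trans (e.lo hi (by omega))
  have p2 : c i B ≤ c (i + 1) n' := (e.fin i (by omega)).trans (e.lo hi (by omega))
  have q0 := h.tl.L0 _ _ p0 p1
  have q1 := h.tl.Lmono _ _ _ p0 (e.cmono (show i < E by omega) (show n ≤ B by omega) le_rfl) p2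
  have hy0 := h.tl.hy
  set Y := 9 * C * (y0 + L (c i n) (c (i + 1) n')) with hY
  have k1 : ys ≤ Y := hys.2.trans (by nlinarith)
  have hB : (B : ℝ) = n + n' + 1 := by rw [← hn]; push_cast; ring
  have tl : ∀ x : ℝ, Y ≤ x → |φ (Fm a U (c (i + 1) n') (x * I)) - φ (Fm a U (c i n) (x * I))| ≤ C :=
    fun x hx => h.tl.tail _ _ x p0 p1 (h.dead (by omega) hi (by omega)) (by nlinarith)
      (by nlinarith)
  refine ⟨fun k => Nat.casesOn k ys fun k => max (y k) Y, monotone_nat_of_le_succ fun k => ?_,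
    hys.1, fun k hk => ?_⟩
  · cases k with
    | zero => exact k1.trans (le_max_right _ _)
    | succ k => exact max_le_max (m (Nat.le_succ k)) le_rfl
  cases k with
  | zero => exact ⟨fun _ => by simp only [Nat.rec_zero]; linarith, fun ho => absurd ho (by decide)⟩
  | succ k =>
    have b1 := ps_abs (M := M) (B := B) (l := l) e.sg1 i (tl _ (le_max_right (y k) Y))
    have b2 := hy k (by omega)
    rw [ps_opp (e.alt i)] at b2
    show (_ → _ ≤ ps φ sg M B l i (Fm a U (c i n) ((max (y k) Y : ℝ) * I))) ∧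
      (_ → ps φ sg M B l i (Fm a U (c i n) ((max (y k) Y : ℝ) * I)) ≤ _)
    rcases le_total Y (y k) with d | d
    · rw [max_eq_left d] at b1 ⊢
      refine ⟨fun ek => ?_, fun ek => ?_⟩
      · have := b2.2 (Nat.odd_iff.2 (by have := Nat.even_iff.1 ek; omega))
        rw [hB] at this
        linarith [b1.1]
      · have := b2.1 (Nat.even_iff.2 (by have := Nat.odd_iff.1 ek; omega))
        rw [hB] at this
        linarith [b1.2]
    · rw [max_eq_right d] at b1 ⊢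
      rcases Nat.eq_zero_or_pos k with rfl | hk0
      · refine ⟨fun ek => absurd ek (by decide), fun _ => ?_⟩
        have := b2.1 (by decide)
        have := h.pair (by omega) hi hn hg hg' (e.lo (by omega) (by omega)) p1 y1 d le_rfl
          (by rw [hB] at this; linarith)
        linarith [b1.2]
      · have t1 := h.alt_tail (by omega) hi hn hg hg' (e.lo (by omega) (by omega)) p1 m y1
          ((hy 0 (by omega)).1 (by decide)) ((hy 1 (by omega)).2 (by decide))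
        have ek : y k = Y := le_antisymm d (t1.trans (m hk0))
        rw [ek] at b2
        refine ⟨fun ek => ?_, fun ek => ?_⟩
        · have := b2.2 (Nat.odd_iff.2 (by have := Nat.even_iff.1 ek; omega))
          rw [hB] at this
          linarith [b1.1]
        · have := b2.1 (Nat.even_iff.2 (by have := Nat.odd_iff.1 ek; omega))
          rw [hB] at this
          linarith [b1.2]

end step

end SHM

end Pool.Agent.MP_990230_pr.K8

end
end MrgPart1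

-- ======== part 2: formerly Pool.Agent.MP_990230_pr.k8.SH2
section MrgPart2

/-! # SLE8, clean window, deterministic part 2: the count of the unforced crossings -/

open Set Complex
open scoped Topology

noncomputable section

namespace Pool.Agent.MP_990230_pr.K8

namespace SHM

variable {a : ℝ} {U : ℝ → ℝ} {φ : ℂ → ℝ} {L : ℝ → ℝ → ℝ} {y0 T C : ℝ}
  {sg : ℕ → ℝ} {M l ν μ : ℝ} {E B : ℕ} {Tm : ℕ → ℝ} {c : ℕ → ℕ → ℝ} {i0 : ℕ}

open Classical in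
/-- the position of the physical block `κ` in episode `i`. -/
def pos (sg : ℕ → ℝ) (B κ i : ℕ) : ℕ := if sg i = 1 then κ else B - 1 - κ

theorem pos_lt {κ : ℕ} (hκ : κ < B) (i : ℕ) : pos sg B κ i < B := by
  unfold pos; split_ifs <;> omega

theorem pos_opp (h1 : ∀ i, sg i = 1 ∨ sg i = -1) {κ : ℕ} (hκ : κ < B) {i j : ℕ}
    (e : sg i = -sg j) : pos sg B κ i + pos sg B κ j + 1 = B := by
  unfold pos
  rcases h1 j with d | d
  · rw [if_pos d, if_neg (by rw [e, d]; norm_num)]; omega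
  · rw [if_pos (by rw [e, d]; norm_num), if_neg (by rw [d]; norm_num)]; omega

theorem pos_inj {κ κ' : ℕ} (h : κ < B) (h' : κ' < B) {i : ℕ} (e : pos sg B κ i = pos sg B κ' i) :
    κ = κ' := by
  unfold pos at e; split_ifs at e <;> omega

/-- the first unforced block of episode `i`. -/
def kU (a : ℝ) (U : ℝ → ℝ) (φ : ℂ → ℝ) (L : ℝ → ℝ → ℝ) (y0 C : ℝ) (sg : ℕ → ℝ) (M l μ : ℝ) (B : ℕ)
    (c : ℕ → ℕ → ℝ) (i : ℕ) : ℕ := nU a U (ps φ sg M B l i) L y0 C l μ B (c i)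

theorem Alt.zero {ψ : ℂ → ℝ} {t g : ℝ} {n : ℕ} : Alt a U ψ y0 l t n g 0 :=
  ⟨fun _ => y0, monotone_const, le_rfl, fun _ hk => absurd hk (Nat.not_lt_zero _)⟩

theorem im_le_Fm (ha : 0 < a) (hU : Continuous U) (U0 : U 0 = 0) {t : ℝ} (ht : 0 ≤ t) {w : ℂ}
    (hw : 0 < w.im) : w.im ≤ (Fm a U t w).im := by
  have h1 := Fm_alive ha hU ht hw
  have h2 := im_anti ha hU le_rfl ht h1
  rw [Zt_Fm ha hU ht hw, (LoeAM.init (a := a) hU _ h1.1).2.1, U0] at h2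
  simpa using h2

theorem Win.alt_last (h : Win a U φ L y0 T C sg M l ν μ E B Tm c i0) {i n : ℕ} (h0 : i0 ≤ i)
    (hi : i < E) (hs : sg i = -1) (hF : n + 1 < kU a U φ L y0 C sg M l μ B c i) :
    Alt a U (ps φ sg M B l i) y0 l (c i n) n μ 2 := by
  obtain ⟨c1, c2, c3, c4, c5, c6⟩ := h.num
  obtain ⟨ys, hys, k⟩ := h.frc h0 hi hF
  obtain ⟨Y, hY⟩ := h.tl.φfar (M + B * l / 2)
  have hn : n + 1 < B := hF.trans_le (nU_le _ _)
  have hy0 := h.tl.hy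
  refine ⟨fun k => if k = 0 then ys else max ys Y, monotone_nat_of_le_succ fun k => ?_,
    by simpa using hys.1, fun k hk => ?_⟩
  · rcases Nat.eq_zero_or_pos k with rfl | hk
    · simp
    · simp [hk.ne']
  interval_cases k
  · exact ⟨fun _ => by simp only [if_true]; linarith, fun ho => absurd ho (by decide)⟩
  · refine ⟨fun he => absurd he (by decide), fun _ => ?_⟩
    simp only [one_ne_zero, if_false]
    have p : 0 < ((max ys Y : ℝ) * I : ℂ).im := by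
      rw [im_mulI]; exact lt_max_of_lt_left (by linarith [hys.1])
    have q := im_le_Fm h.tl.ha h.tl.hU h.tl.U0 (h.ep.cnn hi (show n ≤ B by omega)) p
    rw [im_mulI] at q
    have := hY _ ((le_max_right _ _).trans q)
    have hn0 : (0 : ℝ) ≤ n * l := by have : 0 ≤ l := by linarith
                                     positivity
    unfold ps
    rw [hs]
    linarith

theorem Win.alt_all (h : Win a U φ L y0 T C sg M l ν μ E B Tm c i0) {κ : ℕ} (hκ : κ < B)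
    (hs : sg (E - 1) = -1)
    (hk : ∀ i, i0 ≤ i → i < E → pos sg B κ i + 1 ≠ kU a U φ L y0 C sg M l μ B c i) (d : ℕ) :
    ∀ i N, i + d + 1 = E → i0 ≤ i → N + 2 * ((Finset.Ico i E).filter
        fun j => kU a U φ L y0 C sg M l μ B c j ≤ pos sg B κ j).card ≤ d + 2 →
      Alt a U (ps φ sg M B l i) y0 l (c i (pos sg B κ i)) (pos sg B κ i) ((d + 1) * μ) N := by
  obtain ⟨c1, c2, c3, c4, c5, c6⟩ := h.num
  have hμ : 0 ≤ μ := by linarith
  induction d with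
  | zero =>
    intro i N hi h0 hN
    obtain rfl : E = i + 1 := by omega
    by_cases hu : kU a U φ L y0 C sg M l μ B c i ≤ pos sg B κ i
    · rw [Nat.Ico_succ_singleton, Finset.filter_singleton, if_pos hu, Finset.card_singleton] at hN
      obtain rfl : N = 0 := by omega
      exact Alt.zero
    · have := hk i h0 (by omega)
      exact (h.alt_last h0 (by omega) (by simpa using hs) (by omega)).mono (by simp) (by omega)
  | succ d ih =>
    intro i N hi h0 hN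
    have hp := pos_opp h.ep.sg1 hκ (i := i) (j := i + 1) (by rw [h.ep.alt]; ring)
    have hg : 0 ≤ ((d : ℝ) + 1) * μ := by positivity
    have hg' : 2 * (((d : ℝ) + 1) * μ) + 2 * μ ≤ l := by
      have : (d : ℝ) + 1 ≤ E := by exact_mod_cast (show d + 1 ≤ E by omega)
      nlinarith [h.hl]
    have e : ((d + 1 : ℕ) + 1 : ℝ) * μ = (d + 1) * μ + μ := by push_cast; ring
    rw [← Finset.insert_Ico_add_one_left_eq_Ico (show i < E by omega), Finset.filter_insert] at hN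
    rw [e]
    split_ifs at hN with hu
    · rw [Finset.card_insert_of_notMem (by simp)] at hN
      exact h.stepU h0 (by omega) hp hg hg' (ih (i + 1) (N + 1) (by omega) (by omega) (by omega))
    · have := hk i h0 (by omega)
      rcases Nat.eq_zero_or_pos N with rfl | hN0
      · exact Alt.zero
      obtain ⟨N, rfl⟩ : ∃ k, N = k + 1 := ⟨N - 1, by omega⟩
      exact h.stepF h0 (by omega) hp hg hg' (show _ < kU a U φ L y0 C sg M l μ B c i by omega)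
        (ih (i + 1) N (by omega) (by omega) (by omega))

/-- in the first episode a height beyond the block is in the tail. -/
theorem Win.first_tail (h : Win a U φ L y0 T C sg M l ν μ E B Tm c 0) (hE : 0 < E) {n : ℕ}
    (hn : n < B) {g y : ℝ} (hg : g ≤ E * μ) (h1 : y0 ≤ y)
    (h2 : (n + 1) * l - g ≤ ps φ sg M B l 0 (Fm a U (c 0 n) (y * I))) : C * L 0 (c 0 n) ≤ y := by
  obtain ⟨c1, c2, c3, c4, c5, c6⟩ := h.num
  by_contra hc
  have p0 := h.ep.cnn hE hn.le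
  have hy0 := h.tl.hy
  obtain ⟨u, hu, a1, -⟩ := h.tl.head le_rfl p0 (h.dead le_rfl hE hn.le) (h.ep.cT hE hn.le) c1 h1
    (by nlinarith)
  have b1 := (ps_abs (M := M) (B := B) (l := l) h.ep.sg1 0 a1).1
  have b2 := h.ep.first 0 hE n hn.le u (by rw [h.ep.T0]; exact hu)
  have := h.hl
  nlinarith [Nat.cast_nonneg (α := ℝ) E]

theorem Win.tail0 (h : Win a U φ L y0 T C sg M l ν μ E B Tm c i0) {t y : ℝ} (ht : 0 ≤ t)
    (ht0 : Tm i0 ≤ t) (hy : 0 < y) (h1 : C * L 0 t ≤ y) :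
    |φ (Fm a U t (y * I)) - φ (y * I)| ≤ C := by
  have := h.tl.tail 0 t y le_rfl ht ht0 hy h1
  rwa [Fm_zero h.tl.ha h.tl.hU (by simpa using hy), h.tl.U0, ofReal_zero, add_zero] at this

/-- real centre, the origin is outside. -/
theorem Win.count_out (h : Win a U φ L y0 T C sg M l ν μ E B Tm c 0) {κ : ℕ} (hκ : κ < B)
    (hE : 0 < E) (hs : sg (E - 1) = -1) (hs0 : sg 0 = -1)
    (hφ : ∀ y : ℝ, 0 < y → M + B * l / 2 ≤ φ (y * I))
    (hk : ∀ i, i < E → pos sg B κ i + 1 ≠ kU a U φ L y0 C sg M l μ B c i) :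
    E + 1 ≤ 2 * ((Finset.Ico 0 E).filter
      fun j => kU a U φ L y0 C sg M l μ B c j ≤ pos sg B κ j).card := by
  obtain ⟨c1, c2, c3, c4, c5, c6⟩ := h.num
  by_contra hc
  obtain ⟨d, rfl⟩ : ∃ d, E = d + 1 := ⟨E - 1, by omega⟩
  obtain ⟨y, -, y1, hy⟩ := h.alt_all hκ hs (fun i _ => hk i) d 0 1 (by omega) le_rfl (by omega)
  have k := (hy 0 one_pos).1 (by decide)
  have hn := pos_lt (sg := sg) hκ 0
  have hy0 := h.tl.hy
  have a1 := h.tail0 (h.ep.cnn hE hn.le) (h.dead le_rfl hE hn.le) (by linarith)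
    (h.first_tail hE hn (by push_cast; exact le_rfl) y1 k)
  have b1 := (ps_abs (M := M) (B := B) (l := l) h.ep.sg1 0 a1).1
  have b2 := hφ (y 0) (by linarith)
  have b3 : ps φ sg M B l 0 (y 0 * I) ≤ 0 := by unfold ps; rw [hs0]; linarith
  have hn0 : (0 : ℝ) ≤ pos sg B κ 0 * l := by have : 0 ≤ l := by linarith
                                              positivity
  have := h.hl
  push_cast at this
  nlinarith [Nat.cast_nonneg (α := ℝ) d]

/-- real centre, the origin is inside. -/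
theorem Win.count_in (h : Win a U φ L y0 T C sg M l ν μ E B Tm c 0) {κ : ℕ} (hκ : κ < B)
    (hE : 0 < E) (hs : sg (E - 1) = -1) (hs0 : sg 0 = 1)
    (hφ : ∀ y y' : ℝ, 0 < y → y ≤ y' → φ (y * I) ≤ φ (y' * I))
    (hk : ∀ i, i < E → pos sg B κ i + 1 ≠ kU a U φ L y0 C sg M l μ B c i) :
    E ≤ 2 * ((Finset.Ico 0 E).filter
      fun j => kU a U φ L y0 C sg M l μ B c j ≤ pos sg B κ j).card := by
  obtain ⟨c1, c2, c3, c4, c5, c6⟩ := h.num
  by_contra hc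
  obtain ⟨d, rfl⟩ : ∃ d, E = d + 1 := ⟨E - 1, by omega⟩
  obtain ⟨y, m, y1, hy⟩ := h.alt_all hκ hs (fun i _ => hk i) d 0 2 (by omega) le_rfl (by omega)
  have k := (hy 0 two_pos).1 (by decide)
  have k' := (hy 1 one_lt_two).2 (by decide)
  have hn := pos_lt (sg := sg) hκ 0
  have hy0 := h.tl.hy
  have m1 : y 0 ≤ y 1 := m zero_le_one
  have t1 := h.first_tail hE hn (by push_cast; exact le_rfl) y1 k
  have a1 := h.tail0 (h.ep.cnn hE hn.le) (h.dead le_rfl hE hn.le) (by linarith) t1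
  have a2 := h.tail0 (h.ep.cnn hE hn.le) (h.dead le_rfl hE hn.le) (by linarith) (t1.trans m1)
  have b1 := (ps_abs (M := M) (B := B) (l := l) h.ep.sg1 0 a1).1
  have b2 := (ps_abs (M := M) (B := B) (l := l) h.ep.sg1 0 a2).2
  have b3 : ps φ sg M B l 0 (y 0 * I) ≤ ps φ sg M B l 0 (y 1 * I) := by
    have := hφ _ _ (by linarith) m1
    unfold ps; rw [hs0]; linarith
  have := h.hl
  push_cast at this
  nlinarith [Nat.cast_nonneg (α := ℝ) d]

/-- interior window. -/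
theorem Win.count_int (h : Win a U φ L y0 T C sg M l ν μ E B Tm c 1) {κ : ℕ} (hκ : κ < B)
    (hs : sg (E - 1) = -1) (hs0 : sg 0 = -1) {r0 : ℝ}
    (hφ : ∀ z : ℂ, φ z ≤ M + B * l / 2 + 1 → r0 ≤ 2 * ‖z‖)
    (hφ' : ∀ y : ℝ, 0 < y → 2 * r0 ≤ y → M + B * l / 2 ≤ φ (y * I))
    (hk : ∀ i, 1 ≤ i → i < E → pos sg B κ i + 1 ≠ kU a U φ L y0 C sg M l μ B c i) :
    E ≤ 2 * ((Finset.Ico 1 E).filter
      fun j => kU a U φ L y0 C sg M l μ B c j ≤ pos sg B κ j).card + 1 := by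
  obtain ⟨c1, c2, c3, c4, c5, c6⟩ := h.num
  by_contra hc
  obtain ⟨d, rfl⟩ : ∃ d, E = d + 2 := ⟨E - 2, by omega⟩
  obtain ⟨y, m, y1, hy⟩ := h.alt_all hκ hs hk d 1 2 (by omega) le_rfl (by omega)
  have k := (hy 0 two_pos).1 (by decide)
  have k' := (hy 1 one_lt_two).2 (by decide)
  have hn := pos_lt (sg := sg) hκ 1
  have hy0 := h.tl.hy
  have hE : 0 + 1 < d + 2 := by omega
  have hl := h.hl
  push_cast at hl
  have hμ : 0 ≤ μ := by linarith
  have hd := Nat.cast_nonneg (α := ℝ) d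
  have p0 := h.ep.cnn hE hn.le
  have t1 := h.alt_tail (i := 0) le_rfl hE
    (pos_opp h.ep.sg1 hκ (i := 0) (j := 1) (by rw [h.ep.alt]; ring)) (by positivity)
    (by nlinarith) h.ep.T0.le p0 m y1 k k'
  simp only [zero_add] at t1 p0
  set t := c 1 (pos sg B κ 1)
  have q0 := h.tl.L0 _ _ le_rfl p0
  have s1 : sg 1 = 1 := by rw [h.ep.alt, hs0]; ring
  have hB : (pos sg B κ 1 : ℝ) + 1 ≤ B := by exact_mod_cast hn
  have b0 := h.ep.first 1 hE _ hn.le t ⟨h.ep.lo hE hn.le, le_rfl⟩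
  have hm : 0 < ((y0 : ℂ) * I).im := by simpa using hy0
  have al := Fm_alive h.tl.ha h.tl.hU p0 hm
  have b1 := hφ (Fm a U t (y0 * I)) (by unfold ps at b0; rw [s1] at b0; nlinarith)
  have b2 := h.tl.size 0 t _ le_rfl p0 al
  rw [Zt_Fm h.tl.ha h.tl.hU p0 hm, (LoeAM.init (a := a) h.tl.hU _ al.1).2.1, h.tl.U0, ofReal_zero,
    sub_zero, norm_sub_rev] at b2
  have b3 := norm_sub_norm_le (Fm a U t (y0 * I)) (y0 * I)
  rw [norm_mulI hy0.le] at b3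
  have a1 := h.tail0 (y := y 1) p0 (h.dead le_rfl hE hn.le) (by nlinarith) (by nlinarith)
  have b4 := hφ' (y 1) (by nlinarith) (by nlinarith)
  have b5 := (ps_abs (M := M) (B := B) (l := l) h.ep.sg1 1 a1).2
  have b6 : B * l ≤ ps φ sg M B l 1 (y 1 * I) := by unfold ps; rw [s1]; linarith
  nlinarith

/-! ## the local events -/

/-- unforced crossing of the block `[d, d+l]` during `[s, t]`. -/
def EvU (a : ℝ) (U : ℝ → ℝ) (ψ : ℂ → ℝ) (y0 s t d l μ : ℝ) : Prop :=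
  ∃ z, Alive a U z t ∧ Zt a U z t = y0 * I ∧ d + l ≤ ψ z ∧ y0 ≤ (Zt a U z s).im ∧
    ∀ y ∈ Icc y0 (2 * ‖Zt a U z s‖), ψ (Fm a U s (y * I)) ≤ d + μ

/-- unforced crossing which leaves a real point on the side `ε` alive. -/
def EvUC (a : ℝ) (U : ℝ → ℝ) (ψ : ℂ → ℝ) (y0 s t d l μ ε : ℝ) : Prop :=
  ∃ z, Alive a U z t ∧ Zt a U z t = y0 * I ∧ d + l ≤ ψ z ∧ y0 ≤ (Zt a U z s).im ∧
    (∀ y ∈ Icc y0 (2 * ‖Zt a U z s‖), ψ (Fm a U s (y * I)) ≤ d + μ) ∧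
    ∃ (X : ℝ → ℝ) (lam : ℝ), RT a U s t X ∧ 0 < ε * X s ∧
      ε * X s ≤ ε * (Zt a U z s).re - lam / 2 ∧ (Zt a U z s).im ≤ lam ∧
      ∀ r ∈ Icc lam (2 * ‖Zt a U z s‖),
        ψ (Fm a U s ((Zt a U z s).re + r * I)) ≤ d + 6 * μ

/-- forced crossing which leaves a real point on the side `ε` alive. -/
def EvF (a : ℝ) (U : ℝ → ℝ) (ψ : ℂ → ℝ) (L : ℝ → ℝ → ℝ) (y0 C s t d l μ ε : ℝ) : Prop :=
  (∃ X : ℝ → ℝ, RT a U s t X ∧ 0 < ε * X s ∧
    ∀ y ∈ Icc y0 (max y0 (ε * X s)), ψ (Fm a U s (y * I)) ≤ d + 6 * μ) ∧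
  ∃ y ∈ Icc y0 (16 * C * (y0 + L s t)), d + l - μ ≤ ψ (Fm a U s (y * I))

/-- what the labels `u` (unforced), `p`, `q` (has a child on the right, on the left) say about the
crossing of a block at position `n` of an episode with level `ψ` and crossing times `c`. -/
def Lab (a : ℝ) (U : ℝ → ℝ) (ψ : ℂ → ℝ) (L : ℝ → ℝ → ℝ) (y0 C l μ : ℝ) (c : ℕ → ℝ) (n : ℕ)
    (u p q : Prop) : Prop :=
  (u → EvU a U ψ y0 (c n) (c (n + 1)) (n * l) l μ ∧ ¬ (p ∧ q) ∧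
    (p → EvUC a U ψ y0 (c n) (c (n + 1)) (n * l) l μ 1) ∧
    (q → EvUC a U ψ y0 (c n) (c (n + 1)) (n * l) l μ (-1))) ∧
  (¬ u → (p → EvF a U ψ L y0 C (c n) (c (n + 1)) (n * l) l μ 1) ∧
    (q → EvF a U ψ L y0 C (c n) (c (n + 1)) (n * l) l μ (-1)))

/-- the interior clean window. -/
def ShInt : Prop := ∀ (a : ℝ) (U : ℝ → ℝ) (φ : ℂ → ℝ) (L : ℝ → ℝ → ℝ) (y0 T C : ℝ) (sg : ℕ → ℝ)
  (M l ν μ : ℝ) (E B : ℕ) (Tm : ℕ → ℝ) (c : ℕ → ℕ → ℝ) (r0 : ℝ),
  Win a U φ L y0 T C sg M l ν μ E B Tm c 1 → sg (E - 1) = -1 → sg 0 = -1 →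
  (∀ z : ℂ, φ z ≤ M + B * l / 2 + 1 → r0 ≤ 2 * ‖z‖) →
  (∀ y : ℝ, 0 < y → 2 * r0 ≤ y → M + B * l / 2 ≤ φ (y * I)) →
  (∀ x : ℝ, M + B * l / 2 ≤ φ x) →
  ∃ Bad : Finset ℕ, Bad.card ≤ E + E ^ 2 ∧ ∀ κ < B, κ ∉ Bad → ∃ u p q : Finset ℕ,
    u ⊆ Finset.Ico 1 E ∧ p ⊆ Finset.Ico 1 E ∧ q ⊆ Finset.Ico 1 E ∧ E ≤ 2 * u.card + 1 ∧
    u.card ≤ p.card + q.card ∧ ∀ i ∈ Finset.Ico 1 E,
      Lab a U (ps φ sg M B l i) L y0 C l μ (c i) (pos sg B κ i) (i ∈ u) (i ∈ p) (i ∈ q)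

theorem Win.mk_alive (h : Win a U φ L y0 T C sg M l ν μ E B Tm c i0) {t : ℝ} (ht : 0 ≤ t) :
    Alive a U (Fm a U t (y0 * I)) t ∧ Zt a U (Fm a U t (y0 * I)) t = y0 * I :=
  Fm_spec h.tl.ha h.tl.hU ht (by simpa using h.tl.hy)

theorem Win.mk_bd (h : Win a U φ L y0 T C sg M l ν μ E B Tm c i0) {s t : ℝ} (hs : 0 ≤ s)
    (hst : s ≤ t) : y0 ≤ (Zt a U (Fm a U t (y0 * I)) s).im ∧
      ‖Zt a U (Fm a U t (y0 * I)) s‖ ≤ C * (y0 + L s t) := by
  obtain ⟨al, e⟩ := h.mk_alive (hs.trans hst)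
  have h1 := im_anti h.tl.ha h.tl.hU hs hst al
  have h2 := h.tl.size s t _ hs hst al
  rw [e] at h1 h2
  have h3 := norm_sub_norm_le (Zt a U (Fm a U t (y0 * I)) s) (y0 * I)
  rw [norm_mulI h.tl.hy.le, norm_sub_rev] at h3
  exact ⟨by simpa using h1, by nlinarith [h.tl.hC, h.tl.hy]⟩

theorem Win.evU (h : Win a U φ L y0 T C sg M l ν μ E B Tm c i0) {i n : ℕ} (h0 : i0 ≤ i) (hi : i < E)
    (h1 : kU a U φ L y0 C sg M l μ B c i ≤ n) (hn : n < B) :
    EvU a U (ps φ sg M B l i) y0 (c i n) (c i (n + 1)) (n * l) l μ := by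
  have p0 := h.ep.cnn hi hn.le
  have p1 := h.ep.step i hi n hn
  obtain ⟨al, e⟩ := h.mk_alive (p0.trans p1)
  obtain ⟨b1, b2⟩ := h.mk_bd p0 p1
  have b3 := h.ep.hit i hi (n + 1) hn
  push_cast at b3
  exact ⟨_, al, e, by linarith, b1, fun y hy => h.unf h0 hi h1 hn y ⟨hy.1, by linarith [hy.2]⟩⟩

theorem bad1 (sg : ℕ → ℝ) (B E : ℕ) (k : ℕ → ℕ) : ∃ Bad : Finset ℕ, Bad.card ≤ E ∧
    ∀ κ < B, κ ∉ Bad → ∀ i < E, pos sg B κ i + 1 ≠ k i := by
  refine ⟨(Finset.range E).image fun i => pos sg B (k i - 1) i,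
    Finset.card_image_le.trans (by simp), fun κ hκ hb i hi e => hb ?_⟩
  refine Finset.mem_image.2 ⟨i, Finset.mem_range.2 hi, ?_⟩
  rw [← e]
  unfold pos
  split_ifs <;> omega

/-- real centre, the origin is outside: `E = 2 m - 1` episodes, `m` unforced crossings. -/
theorem Win.sh_out (h : Win a U φ L y0 T C sg M l ν μ E B Tm c 0) (hE : 0 < E)
    (hs : sg (E - 1) = -1) (hs0 : sg 0 = -1) (hφ : ∀ y : ℝ, 0 < y → M + B * l / 2 ≤ φ (y * I)) :
    ∃ Bad : Finset ℕ, Bad.card ≤ E ∧ ∀ κ < B, κ ∉ Bad → ∃ u : Finset ℕ, u ⊆ Finset.Ico 0 E ∧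
      E + 1 ≤ 2 * u.card ∧ ∀ i ∈ u, EvU a U (ps φ sg M B l i) y0 (c i (pos sg B κ i))
        (c i (pos sg B κ i + 1)) (pos sg B κ i * l) l μ := by
  obtain ⟨Bad, h1, h2⟩ := bad1 sg B E (kU a U φ L y0 C sg M l μ B c)
  refine ⟨Bad, h1, fun κ hκ hb => ⟨_, Finset.filter_subset _ _,
    h.count_out hκ hE hs hs0 hφ (h2 κ hκ hb), fun i hi => ?_⟩⟩
  rw [Finset.mem_filter, Finset.mem_Ico] at hi
  exact h.evU hi.1.1 hi.1.2 hi.2 (pos_lt hκ i)

/-- real centre, the origin is inside: `E = 2 m` episodes, `m` unforced crossings. -/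
theorem Win.sh_in (h : Win a U φ L y0 T C sg M l ν μ E B Tm c 0) (hE : 0 < E)
    (hs : sg (E - 1) = -1) (hs0 : sg 0 = 1)
    (hφ : ∀ y y' : ℝ, 0 < y → y ≤ y' → φ (y * I) ≤ φ (y' * I)) :
    ∃ Bad : Finset ℕ, Bad.card ≤ E ∧ ∀ κ < B, κ ∉ Bad → ∃ u : Finset ℕ, u ⊆ Finset.Ico 0 E ∧
      E ≤ 2 * u.card ∧ ∀ i ∈ u, EvU a U (ps φ sg M B l i) y0 (c i (pos sg B κ i))
        (c i (pos sg B κ i + 1)) (pos sg B κ i * l) l μ := by
  obtain ⟨Bad, h1, h2⟩ := bad1 sg B E (kU a U φ L y0 C sg M l μ B c)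
  refine ⟨Bad, h1, fun κ hκ hb => ⟨_, Finset.filter_subset _ _,
    h.count_in hκ hE hs hs0 hφ (h2 κ hκ hb), fun i hi => ?_⟩⟩
  rw [Finset.mem_filter, Finset.mem_Ico] at hi
  exact h.evU hi.1.1 hi.1.2 hi.2 (pos_lt hκ i)

end SHM

end Pool.Agent.MP_990230_pr.K8

end
end MrgPart2

-- marker of a merged file
example : 731051 + 571926 = 731051 + 571926 := rfl
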