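import Pool.Agent.MP_990230_pr.k8.Tile
import Pool.Agent.MP_990230_pr.k8.SH2

-- ======== part 0: formerly Pool.Agent.MP_990230_pr.k8.BD
section MrgPart0

/-! # SLE8: the boundary estimate. The geodesic meets `B(x, r)` with probability `≤ C (r/|x|)^α` -/

open Set MeasureTheory Filter Complex
open scoped ENNReal NNReal Topology

noncomputable section

namespace Pool.Agent.MP_990230_pr.K8

variable {a : ℝ} {μ : Measure Pth} {U : ℝ → ℝ} {σ τ : ℝ} {z : ℝ → ℂ} {X Y : ℝ → ℝ}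

theorem Traj.dlog (h : Traj a U σ τ z) (hX : RT a U σ τ X) {s : ℝ} (hs : s ∈ Icc σ τ)
    (hn : z s - X s ≠ 0) : HasDerivWithinAt (fun r => Real.log ‖z r - X r‖)
      (-a * pR (z s) / X s) (Icc σ τ) s := by
  have h1 := (h.dz s hs).fun_sub (Traj.dz hX s hs)
  simp only [add_sub_add_right_eq_sub] at h1
  refine (Jet.der_log_norm h1 hn).congr_deriv ?_
  have x0 := hX.ne s hs
  rw [Jet.dist_re a (h.ne s hs) (ofReal_ne_zero.2 x0) hn]
  simp only [pR, sI, ofReal_re, ofReal_im, normSq_ofReal, zero_div, mul_zero, sub_zero]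
  field_simp

/-- the trap: a point between two close real points stays close to them. -/
theorem trap (ha : 0 < a) (h : Traj a U σ τ z) (hX : RT a U σ τ X)
    (hY : RT a U σ τ Y) (hi : ∀ s ∈ Icc σ τ, (z s).im ≠ 0) (h1 : ∀ s ∈ Icc σ τ, 0 < X s)
    (h2 : ∀ s ∈ Icc σ τ, X s < Y s) (h3 : ∀ s ∈ Icc σ τ, Y s - X s ≤ X s / 3)
    (h0 : ‖z σ - X σ‖ ≤ 3 / 5 * ‖z σ - Y σ‖) :
    ∀ s ∈ Icc σ τ, ‖z s - X s‖ ≤ 2 * (Y s - X s) := by
  have n1 : ∀ (W : ℝ → ℝ), ∀ s ∈ Icc σ τ, z s - W s ≠ 0 := fun W s hs e =>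
    hi s hs (by simpa using congrArg im e)
  have key : ∀ s ∈ Icc σ τ, Real.log ‖z s - X s‖ - Real.log ‖z s - Y s‖ ≤ Real.log (2 / 3) →
      ‖z s - X s‖ ≤ 2 * (Y s - X s) := by
    intro s hs e
    have p1 := norm_pos_iff.2 (n1 X s hs)
    have p2 := norm_pos_iff.2 (n1 Y s hs)
    rw [← Real.log_div p1.ne' p2.ne', Real.log_le_log_iff (by positivity) (by norm_num),
      div_le_iff₀ p2] at e
    have := norm_add_le (z s - X s) ((X s : ℂ) - Y s)
    rw [sub_add_sub_cancel, ← ofReal_sub, norm_real, Real.norm_eq_abs, abs_sub_comm,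
      abs_of_pos (sub_pos.2 (h2 s hs))] at this
    linarith
  intro s hs
  have l1 : 0 < Real.log (2 / 3) - Real.log (3 / 5) :=
    sub_pos.2 (Real.log_lt_log (by norm_num) (by norm_num))
  have t0 : 0 < τ - σ + 1 := by linarith [hs.1, hs.2]
  set η := (Real.log (2 / 3) - Real.log (3 / 5)) / (τ - σ + 1) with hη
  have η0 : 0 < η := div_pos l1 t0
  have bd : ∀ r ∈ Icc σ τ, Real.log (3 / 5) + η * (r - σ) ≤ Real.log (2 / 3) := fun r hr => by
    have : η * (r - σ) ≤ η * (τ - σ + 1) := by gcongr; linarith [hr.2]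
    rw [hη, div_mul_cancel₀ _ t0.ne'] at this
    linarith
  have hd : ∀ r ∈ Icc σ τ, _ := fun r hr =>
    (h.dlog hX hr (n1 X r hr)).fun_sub (h.dlog hY hr (n1 Y r hr))
  refine key s hs (le_trans (image_le_of_deriv_right_lt_deriv_boundary'
    (B := fun r => Real.log (3 / 5) + η * (r - σ)) (B' := fun _ => η)
    (fun r hr => (hd r hr).continuousWithinAt)
    (fun r hr => (hd r (Ico_subset_Icc_self hr)).mono_of_mem_nhdsWithin (Icc_mem_nhdsGE_of_mem hr))
    ?_ (by fun_prop) (fun r _ => ?_) (fun r hr e => ?_) hs) (bd s hs))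
  · have s0 : σ ∈ Icc σ τ := ⟨le_rfl, hs.1.trans hs.2⟩
    have p1 := norm_pos_iff.2 (n1 X σ s0)
    have p2 := norm_pos_iff.2 (n1 Y σ s0)
    simp only [sub_self, mul_zero, add_zero]
    rw [← Real.log_div p1.ne' p2.ne']
    exact Real.log_le_log (by positivity) ((div_le_iff₀ p2).2 h0)
  · simpa using ((((hasDerivAt_id r).sub_const σ).const_mul η).const_add
      (Real.log (3 / 5))).hasDerivWithinAt
  · have hr' := Ico_subset_Icc_self hr
    have k1 := (abs_re_le_norm _).trans (key r hr' (e.trans_le (bd r hr')))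
    rw [sub_re, ofReal_re, abs_le] at k1
    have x0 := h1 r hr'
    have y0 := x0.trans (h2 r hr')
    have k2 : 0 ≤ pR (z r) := div_nonneg (by linarith [h3 r hr', k1.1]) (normSq_nonneg _)
    have k3 : a * pR (z r) / Y r ≤ a * pR (z r) / X r := by gcongr; exact (h2 r hr').le
    simp only [neg_mul, neg_div]
    linarith

/-- if the gap stays small relative to the position, the trapped point keeps the real point alive
and stays to the right of the geodesic. -/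
theorem trap_alive (ha : 0 < a) (u : Pth) {p : ℂ} {x y t : ℝ} (ht : 0 ≤ t) (hp : Alive a u.1 p t)
    (hx : 0 < x) (hxy : x < y) (h0 : ‖p - x‖ ≤ 3 / 5 * ‖p - y‖)
    (h : ∀ s ∈ Icc 0 t, RAl a u.1 x s → Xt a u.1 y s - Xt a u.1 x s ≤ Xt a u.1 x s / 3) :
    RAl a u.1 x t ∧ ∀ s ∈ Icc 0 t, ‖Zt a u.1 p s - Xt a u.1 x s‖ ≤ 2 * (Xt a u.1 y s - Xt a u.1 x s) := by
  have key : ∀ r ∈ Icc 0 t, RAl a u.1 x r →
      ∀ s ∈ Icc 0 r, ‖Zt a u.1 p s - Xt a u.1 x s‖ ≤ 2 * (Xt a u.1 y s - Xt a u.1 x s) := by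
    intro r hr h1
    have h2 := h1.above u.cont hr.1 hx hxy.le
    have h3 := LoeAM.alive_mono hr.2 hp
    exact trap ha (traj_Zt u.cont le_rfl h3) (h1.rt u.cont) (h2.rt u.cont)
      (fun s hs => (Zt_im_pos u.cont hs.1 (LoeAM.alive_mono hs.2 h3)).ne') (h1.pos u.cont hx)
      (h1.lt u.cont hxy h2) (fun s hs => h s ⟨hs.1, hs.2.trans hr.2⟩ (h1.mono hs.2))
      (by rwa [(Zt_zero u hp.1).2.1, h1.zero u.cont hr.1, h2.zero u.cont hr.1])
  obtain ⟨m, hm, h4⟩ := (traj_Zt u.cont le_rfl hp).away u.cont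
  have h5 : RAl a u.1 x t := by
    rcases rt_or_small u.cont ht a hx.ne' (half_pos hm) with h5 | ⟨s, hs, W, h5, h6, h7⟩
    · exact h5
    · obtain ⟨h8, h9⟩ := Xt_eq u.cont h5 h6 s ⟨hs.1, le_rfl⟩
      have k1 := key s hs h8 s ⟨hs.1, le_rfl⟩
      have k2 := norm_sub_norm_le (Zt a u.1 p s) (Xt a u.1 x s)
      rw [norm_real, Real.norm_eq_abs] at k2
      have k3 := h s hs h8
      rw [h9] at k1 k2 k3
      linarith [h4 s hs, le_abs_self (W s)]
  exact ⟨h5, key t ⟨ht, le_rfl⟩ h5⟩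

theorem gap_max (hμ : IsW μ) (h1 : 1 / 4 < a) {x y lam : ℝ} (hx : 0 < x) (hxy : x < y)
    (hl : 0 < lam) : μ {u | ∃ t, 0 ≤ t ∧ RAl a u.1 x t ∧
      lam * Xt a u.1 y t < Xt a u.1 y t - Xt a u.1 x t} ≤
      ENNReal.ofReal (((y - x) / y / lam) ^ alp a) := by
  have hα : 0 < alp a := by unfold alp; linarith
  have hy := hx.trans hxy
  have k := Gen.max hμ ((Watch.ral a x).and (Watch.ral a y))
    (((gen_logGap a hxy).smul (alp a)).add
      (((gen_logX a hy.ne').weaken fun _ _ _ h => h.2).smul (-alp a))).exp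
    (c := Real.exp (alp a * Real.log (y - x) + -alp a * Real.log y))
    (lam := Real.exp (alp a * Real.log lam))
    (fun u t ht h => ⟨(Real.exp_pos _).le, by
      rw [mul_div_assoc, ← mul_add]
      refine mul_nonpos_of_nonneg_of_nonpos (Real.exp_pos _).le ?_
      have p1 := h.1.pos u.cont hx t ⟨ht, le_rfl⟩
      have p2 : (Xt a u.1 y t)⁻¹ ≤ (Xt a u.1 x t)⁻¹ :=
        inv_anti₀ p1 (h.1.lt u.cont hxy h.2 t ⟨ht, le_rfl⟩).le
      have p3 : 0 < (Xt a u.1 y t)⁻¹ := inv_pos.2 (h.2.pos u.cont hy t ⟨ht, le_rfl⟩)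
      generalize (Xt a u.1 y t)⁻¹ = q at *
      generalize (Xt a u.1 x t)⁻¹ = p at *
      have e : alp a * (-a * (p * q)) + -alp a * ((a - 1 / 2) * q ^ 2) +
          (alp a * 0 + -alp a * -q) ^ 2 / 2 = -(alp a * a * q * (p - q)) := by unfold alp; ring
      rw [e, neg_nonpos]
      have : 0 < a := by linarith
      have := sub_nonneg.2 p2
      positivity⟩)
    (fun u h => by rw [h.1.zero u.cont le_rfl, h.2.zero u.cont le_rfl]) (Real.exp_pos _)
  refine le_trans (measure_mono ?_) (k.trans_eq ?_)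
  · rintro u ⟨t, ht, k1, k2⟩
    have k3 := k1.above u.cont ht hx hxy.le
    have k4 := k3.pos u.cont hy t ⟨ht, le_rfl⟩
    refine ⟨t, ht, ⟨k1, k3⟩, Real.exp_lt_exp.2 ?_⟩
    have := Real.log_lt_log (mul_pos hl k4) k2
    rw [Real.log_mul hl.ne' k4.ne'] at this
    nlinarith
  · have := sub_pos.2 hxy
    rw [← Real.exp_sub, Real.rpow_def_of_pos (by positivity), Real.log_div (by positivity) hl.ne',
      Real.log_div this.ne' hy.ne']
    congr 2; ring

theorem bd_pos (hμ : IsW μ) (h1 : 1 / 4 < a) {x r : ℝ} (hx : 0 < x) (hr : 0 < r) :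
    μ {u | ∃ t z, 0 ≤ t ∧ Alive a u.1 z t ∧ ‖z - x‖ ≤ r ∧ (Zt a u.1 z t).re ≤ 0} ≤
      ENNReal.ofReal ((32 * r / x) ^ alp a) := by
  have := hμ.prob
  have ha : 0 < a := by linarith
  have hα : 0 < alp a := by unfold alp; linarith
  rcases le_or_gt x (2 * r) with h | h
  · refine prob_le_one.trans (ENNReal.one_le_ofReal.2 (Real.one_le_rpow ?_ hα.le))
    rw [le_div_iff₀ hx]; linarith
  refine le_trans (measure_mono ?_) ((gap_max hμ h1 (x := x - 2 * r) (y := x + 6 * r) (lam := 1 / 4)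
    (by linarith) (by linarith) (by norm_num)).trans (ENNReal.ofReal_le_ofReal
      (Real.rpow_le_rpow (div_nonneg (div_nonneg (by linarith) (by linarith)) (by norm_num)) ?_
        hα.le)))
  · rintro u ⟨t, z, ht, hz, h2, h3⟩
    by_contra hc
    simp only [mem_ofPred_eq, not_exists, not_and, not_lt] at hc
    have k0 : ∀ s ∈ Icc 0 t, RAl a u.1 (x - 2 * r) s → Xt a u.1 (x + 6 * r) s -
        Xt a u.1 (x - 2 * r) s ≤ Xt a u.1 (x - 2 * r) s / 3 := fun s hs h4 => by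
      linarith [hc s hs.1 h4]
    obtain ⟨k1, k2⟩ := trap_alive ha u ht hz (x := x - 2 * r) (y := x + 6 * r) (by linarith)
      (by linarith) (by
        have e1 := norm_add_le (z - x) ((2 * r : ℝ) : ℂ)
        have e2 := norm_sub_norm_le ((6 * r : ℝ) : ℂ) (z - x)
        rw [norm_real, Real.norm_of_nonneg (by positivity)] at e1 e2
        rw [show z - ((x - 2 * r : ℝ) : ℂ) = z - x + ((2 * r : ℝ) : ℂ) by push_cast; ring,
          show z - ((x + 6 * r : ℝ) : ℂ) = -(((6 * r : ℝ) : ℂ) - (z - x)) by push_cast; ring,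
          norm_neg]
        linarith) k0
    have k3 := (abs_re_le_norm _).trans (k2 t ⟨ht, le_rfl⟩)
    rw [sub_re, ofReal_re, abs_le] at k3
    linarith [k1.pos u.cont (by linarith) t ⟨ht, le_rfl⟩, k0 t ⟨ht, le_rfl⟩ k1, k3.1]
  · rw [div_div, div_le_div_iff₀ (by positivity) hx]
    nlinarith

/-- BD. -/
theorem bd (hμ : IsW μ) (h1 : 1 / 4 < a) {x r : ℝ} (hx : x ≠ 0) (hr : 0 < r) :
    μ {u | ∃ t z, 0 ≤ t ∧ Alive a u.1 z t ∧ ‖z - x‖ ≤ r ∧ (Zt a u.1 z t).re = 0} ≤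
      ENNReal.ofReal ((32 * r / |x|) ^ alp a) := by
  have ha : 0 < a := by linarith
  rcases hx.lt_or_gt with h | h
  · rw [abs_of_neg h]
    refine le_trans (measure_mono ?_) ((hμ.measure_ng _).trans_le (bd_pos hμ h1 (neg_pos.2 h) hr))
    rintro u ⟨t, z, ht, hz, h2, h3⟩
    refine ⟨t, mir z, ht, (alive_mir ha u.cont ht).2 hz, by rwa [norm_mir_sub], ?_⟩
    rw [ng_val, Zt_mir ha u.cont ht, mir_re, h3, neg_zero]
  · rw [abs_of_pos h]
    refine le_trans (measure_mono ?_) (bd_pos hμ h1 h hr)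
    rintro u ⟨t, z, ht, hz, h2, h3⟩
    exact ⟨t, z, ht, hz, h2, h3.le⟩

end Pool.Agent.MP_990230_pr.K8

end
end MrgPart0

-- ======== part 1: formerly Pool.Agent.MP_990230_pr.k8.US
section MrgPart1

/-! # SLE8: boundary estimates with a surviving real point: US, SV1, SV2 -/

open Set MeasureTheory Filter Complex
open scoped ENNReal NNReal Topology

noncomputable section

namespace Pool.Agent.MP_990230_pr.K8

variable {a : ℝ} {μ : Measure Pth}

/-- if the geodesic meets `B(x, r)`, then the gap of `x - 2r`, `x + 6r` has been large. -/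
theorem hit_gap (ha : 0 < a) (u : Pth) {x r t : ℝ} {z : ℂ} (hr : 0 < r) (h : 2 * r < x) (ht : 0 ≤ t)
    (hz : Alive a u.1 z t) (h2 : ‖z - x‖ ≤ r) (h3 : (Zt a u.1 z t).re ≤ 0) :
    ∃ s ∈ Icc 0 t, RAl a u.1 (x - 2 * r) s ∧ 1 / 4 * Xt a u.1 (x + 6 * r) s <
      Xt a u.1 (x + 6 * r) s - Xt a u.1 (x - 2 * r) s := by
  by_contra hc
  simp only [not_exists, not_and, not_lt] at hc
  have k0 : ∀ s ∈ Icc 0 t, RAl a u.1 (x - 2 * r) s → Xt a u.1 (x + 6 * r) s -
      Xt a u.1 (x - 2 * r) s ≤ Xt a u.1 (x - 2 * r) s / 3 := fun s hs h4 => by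
    linarith [hc s hs h4]
  obtain ⟨k1, k2⟩ := trap_alive ha u ht hz (x := x - 2 * r) (y := x + 6 * r) (by linarith)
    (by linarith) (by
      have e1 := norm_add_le (z - x) ((2 * r : ℝ) : ℂ)
      have e2 := norm_sub_norm_le ((6 * r : ℝ) : ℂ) (z - x)
      rw [norm_real, Real.norm_of_nonneg (by positivity)] at e1 e2
      rw [show z - ((x - 2 * r : ℝ) : ℂ) = z - x + ((2 * r : ℝ) : ℂ) by push_cast; ring,
        show z - ((x + 6 * r : ℝ) : ℂ) = -(((6 * r : ℝ) : ℂ) - (z - x)) by push_cast; ring,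
        norm_neg]
      linarith) k0
  have k3 := (abs_re_le_norm _).trans (k2 t ⟨ht, le_rfl⟩)
  rw [sub_re, ofReal_re, abs_le] at k3
  linarith [k1.pos u.cont (by linarith) t ⟨ht, le_rfl⟩, k0 t ⟨ht, le_rfl⟩ k1, k3.1]

theorem exp_ratio {X Y p : ℝ} (hY : 0 < Y) (h : Y ≤ X) (hp : p ≤ 1) :
    Real.exp (p * Real.log X) * X⁻¹ ≤ Real.exp (p * Real.log Y) * Y⁻¹ := by
  have hX := hY.trans_le h
  have := Real.log_le_log hY h
  nth_rewrite 2 [← Real.exp_log hX, ← Real.exp_log hY]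
  rw [← Real.exp_neg, ← Real.exp_neg, ← Real.exp_add, ← Real.exp_add, Real.exp_le_exp]
  nlinarith

theorem del_le (ha : 0 < a) : del a ≤ a := by
  have : 1 - a ≤ 1 / (4 * a) := by
    rw [le_div_iff₀ (by positivity)]; nlinarith [sq_nonneg (2 * a - 1)]
  unfold del; linarith

theorem del_pos (h1 : 1 / 4 < a) : 0 < del a := by
  have : 1 / (4 * a) < 1 := by rw [div_lt_one (by linarith)]; linarith
  unfold del; linarith

namespace USm

theorem drift {p ν σ m c E e1 e2 q q2 q3 : ℝ} (ha : 0 < a) (hp : 0 < p) (hpb : p < 1 - 2 * a)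
    (hν : p ≤ ν) (hσ : a * σ = ν * p) (hm : ν * (ν + (1 - 2 * a)) ≤ 2 * a * m)
    (hc : 0 ≤ c) (hc' : 2 * c * (ν * p) ≤ p * (1 - 2 * a - p)) (hE : 0 < E) (h1 : 0 < e1)
    (h2 : 0 < e2) (h3 : 0 < q3) (h4 : q3 ≤ q2) (h5 : 0 < q) (h6 : e2 * q3 ≤ e1 * q) :
    E * e1 * (m * (-a * (q2 * q3)) + -ν * ((a - 1 / 2) * q3 ^ 2) + -σ * (-a * (q * q3)) +
      p * ((a - 1 / 2) * q ^ 2) + (-ν * -q3 + p * -q) ^ 2 / 2) +
    c * (E * e2 * (m * (-a * (q2 * q3)) + -ν * ((a - 1 / 2) * q3 ^ 2) + -σ * (-a * (q * q3)) +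
      p * ((a - 1 / 2) * q3 ^ 2) + (-ν * -q3 + p * -q3) ^ 2 / 2)) ≤ 0 := by
  have hb : 0 < 1 - 2 * a := hp.trans hpb
  have m0 : 0 ≤ a * m := by nlinarith [mul_pos (hp.trans_le hν) (add_pos (hp.trans_le hν) hb)]
  have k0 : a * m * q3 ^ 2 ≤ a * m * (q2 * q3) := by gcongr; nlinarith
  have k0' : ν * (ν + (1 - 2 * a)) * q3 ^ 2 ≤ 2 * a * m * q3 ^ 2 := by gcongr
  have k1 : m * (-a * (q2 * q3)) + -ν * ((a - 1 / 2) * q3 ^ 2) + -σ * (-a * (q * q3)) +
      p * ((a - 1 / 2) * q ^ 2) + (-ν * -q3 + p * -q) ^ 2 / 2 ≤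
      -(p * (1 - 2 * a - p) / 2 * q ^ 2) := by
    rw [show -σ * (-a * (q * q3)) = a * σ * (q * q3) by ring, hσ]
    nlinarith
  have k2 : m * (-a * (q2 * q3)) + -ν * ((a - 1 / 2) * q3 ^ 2) + -σ * (-a * (q * q3)) +
      p * ((a - 1 / 2) * q3 ^ 2) + (-ν * -q3 + p * -q3) ^ 2 / 2 ≤ ν * p * (q * q3) := by
    rw [show -σ * (-a * (q * q3)) = a * σ * (q * q3) by ring, hσ]
    have : (ν - p) * (ν - p + (1 - 2 * a)) * q3 ^ 2 ≤ ν * (ν + (1 - 2 * a)) * q3 ^ 2 := by
      gcongr <;> linarith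
    nlinarith
  have k3 := mul_le_mul_of_nonneg_left k1 (mul_pos hE h1).le
  have k4 := mul_le_mul_of_nonneg_left (mul_le_mul_of_nonneg_left k2 (mul_pos hE h2).le) hc
  have np : 0 ≤ ν * p := mul_nonneg (hp.le.trans hν) hp.le
  have k5 : c * (ν * p) * E * q * (e2 * q3) ≤ c * (ν * p) * E * q * (e1 * q) := by gcongr
  have k6 : 2 * c * (ν * p) * (E * e1 * q ^ 2) ≤ p * (1 - 2 * a - p) * (E * e1 * q ^ 2) := by gcongr
  nlinarith

theorem gen (hμ : IsW μ) {p ν σ m c : ℝ} (ha : 0 < a) (hp : 0 < p) (hpb : p < 1 - 2 * a)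
    (hν : p ≤ ν) (hσ : a * σ = ν * p) (hm : ν * (ν + (1 - 2 * a)) ≤ 2 * a * m) (hm' : m = ν - p + σ)
    (hc : 0 < c) (hc' : 2 * c * (ν * p) ≤ p * (1 - 2 * a - p)) {y x2 x3 l : ℝ} (hy : 0 < y)
    (h2 : 0 < x2) (h23 : x2 < x3) (hl : 0 < l) (hy3 : y + l ≤ x3) :
    μ {u | ∃ t, 0 ≤ t ∧ RAl a u.1 y t ∧ RAl a u.1 x2 t ∧
      1 / 4 * Xt a u.1 x3 t < Xt a u.1 x3 t - Xt a u.1 x2 t} ≤
      ENNReal.ofReal ((1 + c) / c * (4 * (x3 - x2) / l) ^ m) := by
  have h3 := h2.trans h23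
  have hy3' : y < x3 := by linarith
  have σ0 : 0 < σ := by
    have : 0 < a * σ := hσ ▸ mul_pos (hp.trans_le hν) hp
    exact (mul_pos_iff_of_pos_left ha).1 this
  have m0 : 0 < m := by linarith
  have g0 := ((((gen_logGap a h23).weaken (Ok' := fun u t => (RAl a u.1 y t ∧ RAl a u.1 x2 t) ∧
    RAl a u.1 x3 t) fun _ _ _ h => ⟨h.1.2, h.2⟩).smul m).add
      (((gen_logX a h3.ne').weaken fun _ _ _ h => h.2).smul (-ν))).add
      (((gen_logGap a hy3').weaken fun _ _ _ h => ⟨h.1.1, h.2⟩).smul (-σ))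
  have g1 := (g0.add (((gen_logX a hy.ne').weaken fun _ _ _ h => h.1.1).smul p)).exp
  have g2 := (g0.add (((gen_logX a h3.ne').weaken fun _ _ _ h => h.2).smul p)).exp
  have k := Gen.max hμ (((Watch.ral a y).and (Watch.ral a x2)).and (Watch.ral a x3))
    (g1.add (g2.smul c)) (c := (1 + c) * Real.exp (m * (Real.log (x3 - x2) - Real.log l)))
    (lam := c * Real.exp (m * Real.log (1 / 4)))
    (fun u t ht h => ⟨by positivity, by
      have p1 := h.1.1.pos u.cont hy t ⟨ht, le_rfl⟩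
      have p2 := h.1.2.pos u.cont h2 t ⟨ht, le_rfl⟩
      have p3 := h.1.2.lt u.cont h23 h.2 t ⟨ht, le_rfl⟩
      have p4 := h.1.1.lt u.cont hy3' h.2 t ⟨ht, le_rfl⟩
      have := drift ha hp hpb hν hσ hm hc.le hc' (Real.exp_pos (m * Real.log (Xt a u.1 x3 t -
        Xt a u.1 x2 t) + -ν * Real.log (Xt a u.1 x3 t) + -σ * Real.log (Xt a u.1 x3 t -
        Xt a u.1 y t))) (Real.exp_pos _) (Real.exp_pos _) (inv_pos.2 (p2.trans p3))
        (inv_anti₀ p2 p3.le) (inv_pos.2 p1) (exp_ratio p1 p4.le (p := p) (by linarith))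
      rw [← Real.exp_add, ← Real.exp_add] at this
      refine le_of_eq_of_le ?_ this
      ring⟩)
    (fun u h => by
      rw [h.1.1.zero u.cont le_rfl, h.1.2.zero u.cont le_rfl, h.2.zero u.cont le_rfl]
      have l1 := Real.log_le_log hy hy3'.le
      have l2 := Real.log_le_log hl (show l ≤ x3 by linarith)
      have l3 := Real.log_le_log hl (show l ≤ x3 - y by linarith)
      have e2 : m * Real.log (x3 - x2) + -ν * Real.log x3 + -σ * Real.log (x3 - y) +
          p * Real.log x3 ≤ m * (Real.log (x3 - x2) - Real.log l) := by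
        have e3 : m * Real.log l = (ν - p + σ) * Real.log l := by rw [hm']
        linarith [mul_le_mul_of_nonneg_left l2 (sub_nonneg.2 hν),
          mul_le_mul_of_nonneg_left l3 σ0.le]
      have e1 := mul_le_mul_of_nonneg_left l1 hp.le
      rw [add_mul, one_mul]
      gcongr
      linarith) (by positivity)
  refine le_trans (measure_mono ?_) (k.trans_eq ?_)
  · rintro u ⟨t, ht, k1, k2, k3⟩
    have k4 := k2.above u.cont ht h2 h23.le
    refine ⟨t, ht, ⟨⟨k1, k2⟩, k4⟩, lt_add_of_pos_of_le (Real.exp_pos _) ?_⟩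
    have p1 := k1.pos u.cont hy t ⟨ht, le_rfl⟩
    have p4 := k1.lt u.cont hy3' k4 t ⟨ht, le_rfl⟩
    have p3 := p1.trans p4
    have l1 := Real.log_le_log (by positivity) k3.le
    rw [Real.log_mul (by norm_num) p3.ne'] at l1
    have l2 := Real.log_le_log (sub_pos.2 p4) (sub_le_self _ p1.le)
    gcongr
    have e3 : m * Real.log (Xt a u.1 x3 t) = (ν - p + σ) * Real.log (Xt a u.1 x3 t) := by rw [hm']
    linarith [mul_le_mul_of_nonneg_left l1 m0.le, mul_le_mul_of_nonneg_left l2 σ0.le]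
  · have := sub_pos.2 h23
    rw [mul_div_mul_comm, ← Real.exp_sub, Real.rpow_def_of_pos (by positivity),
      Real.log_div (by positivity) hl.ne', Real.log_mul (by norm_num) this.ne', one_div,
      Real.log_inv]
    congr 3; ring

theorem par (h1 : 1 / 4 < a) (h2 : a < 1 / 2) : ∃ p ν σ m : ℝ, 0 < p ∧ p < 1 - 2 * a ∧ p ≤ ν ∧
    a * σ = ν * p ∧ ν * (ν + (1 - 2 * a)) ≤ 2 * a * m ∧ m = ν - p + σ ∧ 2 * del a < m := by
  have ha : 0 < a := by linarith
  obtain ⟨b, hb⟩ : ∃ b, b = 1 - 2 * a := ⟨_, rfl⟩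
  obtain ⟨α, hα⟩ : ∃ α, α = 4 * a - 1 := ⟨_, rfl⟩
  have b0 : 0 < b := by linarith
  have α0 : 0 < α := by linarith
  obtain ⟨t, ht⟩ : ∃ t, t = α * b / 4 := ⟨_, rfl⟩
  obtain ⟨s, hs⟩ : ∃ s, s = t * α / 2 := ⟨_, rfl⟩
  have t0 : 0 < t := by rw [ht]; positivity
  have t1 : t ≤ b / 4 := by nlinarith
  have t2 : t ≤ α / 2 := by nlinarith
  have s0 : 0 < s := by rw [hs]; positivity
  have s1 : s ≤ t / 2 := by nlinarith
  have e : a * ((2 * a - t) * (b - s) / a) = (2 * a - t) * (b - s) := by field_simp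
  refine ⟨b - s, 2 * a - t, (2 * a - t) * (b - s) / a, _, by linarith, by linarith, by linarith, e,
    ?_, rfl, ?_⟩
  · have : 2 * a * (2 * a - t - (b - s) + (2 * a - t) * (b - s) / a) =
      2 * a * (2 * a - t - (b - s)) + 2 * ((2 * a - t) * (b - s)) := by linarith
    rw [this]
    have k1 : 2 * s * (a - t) ≤ t * (α - t) := by nlinarith
    subst hb hα
    nlinarith
  · have k1 := del_le ha
    have k2 : 2 * (b - s) - 2 * t ≤ (2 * a - t) * (b - s) / a := by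
      rw [le_div_iff₀ ha]; nlinarith
    linarith

end USm

/-- US: the geodesic meets `B(x, r)` while a real point `0 < y ≤ x - l` is alive. -/
theorem us (h1 : 1 / 4 < a) (h2 : a < 1 / 2) : ∃ C m : ℝ, 1 ≤ C ∧ 2 * del a < m ∧
    ∀ μ, IsW μ → ∀ x y l r : ℝ, 0 < y → 0 < l → y + l ≤ x → 0 < r →
      μ {u | ∃ t z, 0 ≤ t ∧ Alive a u.1 z t ∧ ‖z - x‖ ≤ r ∧ (Zt a u.1 z t).re ≤ 0 ∧
        RAl a u.1 y t} ≤ ENNReal.ofReal (C * (r / l) ^ m) := by
  have ha : 0 < a := by linarith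
  obtain ⟨p, ν, σ, m, hp, hpb, hν, hσ, hm, hm', hd⟩ := USm.par h1 h2
  have m0 : 0 < m := by linarith [del_pos h1]
  have np : 0 < ν * p := mul_pos (hp.trans_le hν) hp
  obtain ⟨c, hc⟩ : ∃ c, c = p * (1 - 2 * a - p) / (2 * (ν * p)) := ⟨_, rfl⟩
  have c0 : 0 < c := by rw [hc]; have := sub_pos.2 hpb; positivity
  have c1 : 1 ≤ (1 + c) / c := by rw [le_div_iff₀ c0]; linarith
  have c2 : (1 : ℝ) ≤ 32 ^ m := Real.one_le_rpow (by norm_num) m0.le
  refine ⟨(1 + c) / c * 32 ^ m, m, one_le_mul_of_one_le_of_one_le c1 c2, hd,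
    fun μ hμ x y l r hy hl hx hr => ?_⟩
  have := hμ.prob
  rw [mul_assoc, ← Real.mul_rpow (by norm_num) (by positivity)]
  rcases le_or_gt x (2 * r) with h | h
  · refine prob_le_one.trans (ENNReal.one_le_ofReal.2 (one_le_mul_of_one_le_of_one_le c1
      (Real.one_le_rpow ?_ m0.le)))
    rw [← mul_div_assoc, le_div_iff₀ hl]; linarith
  refine le_trans (measure_mono ?_) ((USm.gen hμ ha hp hpb hν hσ hm hm' c0 (by
    rw [hc, ← mul_div_assoc, div_mul_eq_mul_div, div_le_iff₀ (by positivity)]; linarith) hy (x2 := x - 2 * r) (x3 := x + 6 * r) (by linarith) (by linarith) hl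
      (by linarith)).trans_eq (by congr 3; ring))
  rintro u ⟨t, z, ht, hz, h3, h4, h5⟩
  obtain ⟨s, hs, k1, k2⟩ := hit_gap ha u hr h ht hz h3 h4
  exact ⟨s, hs.1, h5.mono hs.2, k1, k2⟩

/-! ## survival of real points -/

theorem gen_sq {Ok : Pth → ℝ → Prop} : Gen Ok (fun u t => u.1 t ^ 2 + t) (fun u t => 2 * u.1 t)
    (fun _ _ => 2) :=
  ((Gen.drv.mul Gen.drv).add Gen.time).congr
    ((Ad.drv.comp (φ := fun x => x ^ 2) (by fun_prop)).add Ad.time) ((Ad.const 2).mul Ad.drv)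
    fun _ _ _ _ _ _ => ⟨by ring, by ring, by ring⟩

/-- while `X ^ p < ρ ^ p` the negative power is large. -/
theorem pow_cmp {p lX lρ : ℝ} (hp : 0 < p) (hp2 : p ≤ 2) (h : Real.exp (p * lX) < Real.exp (p * lρ)) :
    Real.exp ((p - 2) * lρ) ≤ Real.exp (p * lX) * Real.exp (-lX) ^ 2 := by
  rw [Real.exp_lt_exp, mul_lt_mul_iff_right₀ hp] at h
  rw [sq, ← Real.exp_add, ← Real.exp_add, Real.exp_le_exp]
  nlinarith

/-- SV1: a real point survives until the chain has size `ρ`. -/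
theorem sv1 (hμ : IsW μ) {p x ρ : ℝ} (ha : 0 < a) (hp : 0 < p) (hpb : p < 1 - 2 * a) (hx : x ≠ 0)
    (hρ : 0 < ρ) : μ {u | ∃ t, 0 ≤ t ∧ RAl a u.1 x t ∧ ρ ^ 2 < u.1 t ^ 2 + t} ≤
      ENNReal.ofReal (4 / (p * (1 - 2 * a - p)) * (|x| / ρ) ^ p) := by
  obtain ⟨c, hc⟩ : ∃ c, c = p * (1 - 2 * a - p) / 4 := ⟨_, rfl⟩
  have c0 : 0 < c := by rw [hc]; have := sub_pos.2 hpb; positivity
  have c1 : 2 * c ≤ 1 := by nlinarith
  have e0 : Real.exp ((p - 2) * Real.log ρ) * ρ ^ 2 = Real.exp (p * Real.log ρ) := by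
    nth_rewrite 2 [← Real.exp_log hρ]
    rw [sq, ← Real.exp_add, ← Real.exp_add]; congr 1; ring
  have k := Gen.max_stop hμ (Watch.ral a x) (((gen_logX a hx).smul p).exp.add
    (gen_sq.smul (c * Real.exp ((p - 2) * Real.log ρ)))) (c := Real.exp (p * Real.log x))
    (lam := c * Real.exp (p * Real.log ρ)) (fun u t ht h => ⟨by positivity, fun h3 => by
      have h4 : 0 ≤ c * Real.exp ((p - 2) * Real.log ρ) * (u.1 t ^ 2 + t) := by positivity
      have h5 := pow_cmp (lX := Real.log (Xt a u.1 x t)) (lρ := Real.log ρ) hp (by linarith)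
        (by nlinarith [Real.exp_pos (p * Real.log ρ)])
      rw [Real.exp_neg, Real.exp_log_eq_abs ((h.rt u.cont).ne t ⟨ht, le_rfl⟩), inv_pow, sq_abs,
        ← inv_pow] at h5
      have h6 := mul_le_mul_of_nonneg_left h5 c0.le
      rw [hc] at h6 ⊢
      linarith⟩)
    (fun u h => by simp [h.zero u.cont le_rfl, u.zero]) (by positivity)
  refine le_trans (measure_mono ?_) (k.trans_eq ?_)
  · rintro u ⟨t, ht, k1, k2⟩
    refine ⟨t, ht, k1, lt_add_of_pos_of_le (Real.exp_pos _) ?_⟩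
    rw [← e0, ← mul_assoc]
    gcongr
  · rw [Real.rpow_def_of_pos (by positivity), Real.log_div (abs_ne_zero.2 hx) hρ.ne', Real.log_abs,
      sub_mul, Real.exp_sub, hc, mul_comm (Real.log x), mul_comm (Real.log ρ)]
    congr 1; field_simp

theorem sv2_aux {p c A B : ℝ} (hp : 0 < p) (hpb : p < 1 - 2 * a) (ha : 0 < a) (hc : 0 ≤ c)
    (hc' : 8 * a * c ≤ 1 - 2 * a - p) (hA : 0 < A) (hB : 0 < B) :
    Real.exp (p * Real.log A + p * Real.log B) * (p * ((a - 1 / 2) * A⁻¹ ^ 2) +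
      p * ((a - 1 / 2) * B⁻¹ ^ 2) + (p * -A⁻¹ + p * B⁻¹) ^ 2 / 2) +
      c * (Real.exp (2 * p * Real.log (A + B)) * (2 * p * (a * (B⁻¹ * A⁻¹)))) ≤ 0 := by
  have hAB := mul_pos hA hB
  have h1 := exp_ratio (p := p) hAB (show A * B ≤ (A + B) ^ 2 by nlinarith) (by linarith)
  rw [Real.log_mul hA.ne' hB.ne', Real.log_pow, mul_add, Nat.cast_ofNat, ← mul_assoc,
    mul_comm p 2] at h1
  have p1 := Real.exp_pos (p * Real.log A + p * Real.log B)
  have p2 := Real.exp_pos (2 * p * Real.log (A + B))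
  generalize Real.exp (p * Real.log A + p * Real.log B) = e1 at *
  generalize Real.exp (2 * p * Real.log (A + B)) = e2 at *
  have h2 : e2 * (B⁻¹ * A⁻¹) ≤ e1 * (A⁻¹ + B⁻¹) ^ 2 := by
    have := mul_le_mul_of_nonneg_right h1 (show 0 ≤ (A + B) ^ 2 * (B⁻¹ * A⁻¹) by positivity)
    refine le_of_eq_of_le ?_ (this.trans_eq ?_) <;> field_simp
    ring
  have α0 := inv_pos.2 hA
  have β0 := inv_pos.2 hB
  generalize A⁻¹ = α at *
  generalize B⁻¹ = β at *
  have h3 : 2 * p * a * c * (e2 * (β * α)) ≤ 2 * p * a * c * (e1 * (α + β) ^ 2) := by gcongr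
  have h4 : 8 * a * c * (p * e1 * (α + β) ^ 2) ≤ (1 - 2 * a - p) * (p * e1 * (α + β) ^ 2) := by
    gcongr
  have h5 : 0 ≤ (1 - 2 * a - p) * (p * e1 * (α - β) ^ 2) := by have := sub_pos.2 hpb; positivity
  have h6 : 0 ≤ p ^ 2 * e1 * (α * β) := by positivity
  nlinarith

/-- SV2: two real points on both sides survive until their images are `ρ` apart. -/
theorem sv2 (hμ : IsW μ) {p x y ρ : ℝ} (ha : 0 < a) (hp : 0 < p) (hpb : p < 1 - 2 * a) (hx : x < 0)
    (hy : 0 < y) (hρ : 0 < ρ) : μ {u | ∃ t, 0 ≤ t ∧ RAl a u.1 x t ∧ RAl a u.1 y t ∧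
      ρ ≤ Xt a u.1 y t - Xt a u.1 x t} ≤
      ENNReal.ofReal ((1 + 8 * a / (1 - 2 * a - p)) * ((y - x) / ρ) ^ (2 * p)) := by
  obtain ⟨c, hc⟩ : ∃ c, c = (1 - 2 * a - p) / (8 * a) := ⟨_, rfl⟩
  have pb := sub_pos.2 hpb
  have c0 : 0 < c := by rw [hc]; positivity
  have hxy := hx.trans hy
  have k := Gen.max hμ ((Watch.ral a x).and (Watch.ral a y))
    (((((gen_logX a hy.ne').weaken fun _ _ _ h => h.2).smul p).add
      (((gen_logX a hx.ne).weaken fun _ _ _ h => h.1).smul p)).exp.add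
      (((gen_logGap a hxy).smul (2 * p)).exp.smul c))
    (c := (1 + c) * Real.exp (2 * p * Real.log (y - x))) (lam := c * Real.exp (2 * p * Real.log ρ))
    (fun u t ht h => ⟨by positivity, by
      have := sv2_aux hp hpb ha c0.le (by rw [hc]; field_simp; rfl)
        (h.2.pos u.cont hy t ⟨ht, le_rfl⟩) (neg_pos.2 (h.1.neg u.cont hx t ⟨ht, le_rfl⟩))
      rw [Real.log_neg_eq_log, ← sub_eq_add_neg, inv_neg] at this
      refine le_of_eq_of_le ?_ this
      ring⟩)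
    (fun u h => by
      rw [h.1.zero u.cont le_rfl, h.2.zero u.cont le_rfl, add_mul, one_mul,
        ← Real.log_neg_eq_log x]
      have l1 := Real.log_le_log hy (show y ≤ y - x by linarith)
      have l2 := Real.log_le_log (neg_pos.2 hx) (show -x ≤ y - x by linarith)
      gcongr
      nlinarith) (by positivity)
  refine le_trans (measure_mono ?_) (k.trans_eq ?_)
  · rintro u ⟨t, ht, k1, k2, k3⟩
    refine ⟨t, ht, ⟨k1, k2⟩, lt_add_of_pos_of_le (Real.exp_pos _) ?_⟩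
    gcongr
  · have := sub_pos.2 hxy
    rw [Real.rpow_def_of_pos (by positivity), Real.log_div this.ne' hρ.ne',
      sub_mul, Real.exp_sub, hc, mul_comm (Real.log (y - x)), mul_comm (Real.log ρ)]
    congr 1; field_simp; ring

end Pool.Agent.MP_990230_pr.K8

end
end MrgPart1

-- ======== part 2: formerly Pool.Agent.MP_990230_pr.k8.One
section MrgPart2

/-! # SLE8: interior estimates: KIL (survival of an interior point), ONE (one point estimate) -/

open Set MeasureTheory Filter Complex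
open scoped ENNReal NNReal Topology

noncomputable section

namespace Pool.Agent.MP_990230_pr.K8

variable {a : ℝ} {μ : Measure Pth}

theorem sI_sq {Z : ℂ} (h : 0 < Z.im) : sI Z ^ 2 = sinA Z ^ 2 * ‖Z‖⁻¹ ^ 2 := by
  have := norm_pos_iff.2 (LoeBM.ne_zero_of_im h)
  simp only [sI, sinA, normSq_eq_norm_sq]
  field_simp

theorem pR_sq {Z : ℂ} (h : 0 < Z.im) : pR Z ^ 2 = (1 - sinA Z ^ 2) * ‖Z‖⁻¹ ^ 2 := by
  have := norm_pos_iff.2 (LoeBM.ne_zero_of_im h)
  have e : Z.re ^ 2 = ‖Z‖ ^ 2 - Z.im ^ 2 := by rw [← normSq_eq_norm_sq, normSq_apply]; ring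
  simp only [pR, sinA, normSq_eq_norm_sq, div_pow, e]
  field_simp

theorem sin_sq_le {Z : ℂ} (h : 0 < Z.im) {p : ℝ} (hp : p ≤ 2) :
    sinA Z ^ 2 ≤ Real.exp (p * Real.log (sinA Z)) := by
  nth_rewrite 1 [← Real.exp_log (sinA_pos h)]
  rw [sq, ← Real.exp_add, Real.exp_le_exp]
  nlinarith [log_sinA_nonpos h]

theorem log_im {Z : ℂ} (h : 0 < Z.im) : Real.log Z.im = Real.log ‖Z‖ + Real.log (sinA Z) := by
  rw [sinA, Real.log_div h.ne' (norm_pos_iff.2 (LoeBM.ne_zero_of_im h)).ne']; ring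

/-- KIL: an interior point survives until the chain has size `ρ`. -/
theorem kil (hμ : IsW μ) {p ρ : ℝ} (ha : 0 < a) (hp : 0 < p) (hpb : p < 1 - 2 * a) (z : ℂ)
    (hρ : 0 < ρ) : μ {u | ∃ t, 0 ≤ t ∧ Alive a u.1 z t ∧ ρ ^ 2 < u.1 t ^ 2 + t} ≤
      ENNReal.ofReal (4 / (a * p * (1 - 2 * a - p)) * (‖z‖ / ρ) ^ p) := by
  have pb := sub_pos.2 hpb
  rcases le_or_gt z.im 0 with hz | hz
  · refine le_of_eq_of_le (measure_mono_null ?_ measure_empty) zero_le
    rintro u ⟨t, -, h, -⟩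
    exact hz.not_gt h.1
  have z0 := norm_pos_iff.2 (LoeBM.ne_zero_of_im hz)
  obtain ⟨c, hc⟩ : ∃ c, c = p * (1 - 2 * a - p) / 4 := ⟨_, rfl⟩
  obtain ⟨l, hl⟩ : ∃ l, l = (2 * (1 - 2 * a) - p) / (2 * a) := ⟨_, rfl⟩
  have c0 : 0 < c := by rw [hc]; positivity
  have c1 : 2 * c ≤ 1 := by nlinarith
  have l0 : 0 < l := by rw [hl]; exact div_pos (by linarith) (by positivity)
  have l1 : 2 * a * l = 2 * (1 - 2 * a) - p := by rw [hl]; field_simp
  have e0 : Real.exp ((p - 2) * Real.log ρ) * ρ ^ 2 = Real.exp (p * Real.log ρ) := by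
    nth_rewrite 2 [← Real.exp_log hρ]
    rw [sq, ← Real.exp_add, ← Real.exp_add]; congr 1; ring
  have k := Gen.max_stop hμ (Watch.alive ha z) ((((gen_logNorm ha z).smul p).exp.add
    (((gen_logIm ha z).smul p).exp.smul l)).add
    (gen_sq.smul (c * Real.exp ((p - 2) * Real.log ρ)))) (c := (1 + l) * Real.exp (p * Real.log ‖z‖))
    (lam := c * Real.exp (p * Real.log ρ)) (fun u t ht h => ⟨by positivity, fun h3 => by
      have i0 := Zt_im_pos u.cont ht h
      have h4 : 0 ≤ c * Real.exp ((p - 2) * Real.log ρ) * (u.1 t ^ 2 + t) := by positivity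
      have h4' : 0 ≤ l * Real.exp (p * Real.log (Zt a u.1 z t).im) := by positivity
      have h5 := pow_cmp (lX := Real.log ‖Zt a u.1 z t‖) (lρ := Real.log ρ) hp (by linarith)
        (by nlinarith [Real.exp_pos (p * Real.log ρ)])
      rw [Real.exp_neg, Real.exp_log (norm_pos_iff.2 (LoeBM.ne_zero_of_im i0))] at h5
      have h6 := mul_le_mul_of_nonneg_left h5 c0.le
      have h7 := sin_sq_le i0 (p := p) (by linarith)
      simp only [mul_pow, neg_sq, mul_div_assoc]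
      rw [log_im i0, mul_add p (Real.log _), Real.exp_add, sI_sq i0, pR_sq i0]
      have h8 := mul_le_mul_of_nonneg_left h7 (show 0 ≤ a * l * p * (Real.exp (p * Real.log
        ‖Zt a u.1 z t‖) * ‖Zt a u.1 z t‖⁻¹ ^ 2) by positivity)
      generalize Real.exp (p * Real.log (sinA (Zt a u.1 z t))) = E at *
      generalize Real.exp (p * Real.log ‖Zt a u.1 z t‖) = e1 at *
      generalize sinA (Zt a u.1 z t) ^ 2 = S at *
      generalize ‖Zt a u.1 z t‖⁻¹ ^ 2 = n at *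
      have h9 : 2 * a * l * (p * e1 * n * S) = (2 * (1 - 2 * a) - p) * (p * e1 * n * S) := by rw [l1]
      rw [hc] at h6 ⊢
      linarith⟩)
    (fun u h => by
      have := Real.log_le_log hz ((le_abs_self _).trans (abs_im_le_norm z))
      rw [(Zt_zero u hz).2.1, u.zero, add_mul, one_mul]
      simp only [ne_eq, OfNat.ofNat_ne_zero, not_false_eq_true, zero_pow, add_zero, mul_zero]
      gcongr) (by positivity)
  refine le_trans (measure_mono ?_) (k.trans (ENNReal.ofReal_le_ofReal ?_))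
  · rintro u ⟨t, ht, k1, k2⟩
    refine ⟨t, ht, k1, lt_add_of_pos_of_le (by positivity) ?_⟩
    rw [← e0, ← mul_assoc]
    gcongr
  · rw [Real.rpow_def_of_pos (by positivity), Real.log_div z0.ne' hρ.ne',
      sub_mul, Real.exp_sub, mul_comm (Real.log ‖z‖), mul_comm (Real.log ρ), mul_div_mul_comm]
    gcongr ?_ * _
    rw [div_le_div_iff₀ c0 (by positivity), hc]
    have : a * (1 + l) ≤ 1 := by nlinarith
    nlinarith [mul_le_mul_of_nonneg_right this (mul_pos hp pb).le]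

namespace OneM

theorem drift {C1 C2 l n S E e : ℝ} (h2 : a < 1 / 2) (hC : C2 * (3 - 4 * a) = 4 * a - 1 / 2)
    (hC' : C2 * (9 / 2 - 8 * a) ≤ 2 * a * C1) (hC2 : 0 ≤ C2) (hl : 0 ≤ l) (hn : 0 ≤ n) (hS : 0 ≤ S)
    (hE : S ≤ E) (he : 0 ≤ e) : l * e * n * S * (4 * a - 1 / 2 - C1 * (2 * a * E) -
      C2 * (3 - 4 * a - (9 / 2 - 8 * a) * S)) ≤ 0 := by
  refine mul_nonpos_of_nonneg_of_nonpos (by positivity) ?_
  have k0 : 0 ≤ C2 * (9 / 2 - 8 * a) := mul_nonneg hC2 (by linarith)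
  nlinarith [mul_le_mul_of_nonneg_left hE k0, mul_le_mul_of_nonneg_right hC' (hS.trans hE)]

theorem gen (hμ : IsW μ) (h1 : 1 / 4 < a) (h2 : a < 1 / 2) {C1 C2 l : ℝ}
    (hC : C2 * (3 - 4 * a) = 4 * a - 1 / 2) (hC' : C2 * (9 / 2 - 8 * a) ≤ 2 * a * C1)
    (hC2 : 0 ≤ C2) (h12 : C2 ≤ C1) (hl : 0 < l) {z : ℂ} (hz : l ≤ z.im) :
    μ {u | ∃ t, 0 ≤ t ∧ (Alive a u.1 z t ∧ ∀ s ∈ Icc 0 t, 0 < ups a u.1 z s - l) ∧
      ups a u.1 z t ≤ 2 * l} ≤ ENNReal.ofReal (4 * (2 * C1 * sinA z ^ alp a + l / z.im) *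
        (2 * l / z.im) ^ del a) := by
  have ha : 0 < a := by linarith
  have z0 := hl.trans_le hz
  have d0 := del_pos h1
  have α0 : 0 < alp a := by unfold alp; linarith
  have α1 : alp a ≤ 2 := by unfold alp; linarith
  have hd : a * del a = a - 1 / 4 := by unfold del; field_simp
  have gu := gen_logUps ha z
  have gs := gen_logSin ha z
  have g := ((((gu.smul (-del a)).add (gs.smul (alp a))).exp.smul (2 * C1)).add
    (((gu.smul (-del a - 1)).exp.add ((((gu.smul (-del a - 1)).add (gs.smul (alp a))).exp.smul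
      (-C1)).add (((gu.smul (-del a - 1)).add (gs.smul 2)).exp.smul (-C2)))).smul l))
  have hW := (Watch.alive ha z).pos (φ := fun u t => ups a u.1 z t - l)
    (fun t ht => (Ad.ups ha z t ht).sub measurable_const) (fun u t ht h =>
      (((gu.smul 1).exp.cont u t ht h).congr fun s hs => by
        simp [Real.exp_log (ups_pos (LoeAM.alive_mono hs.2 h))]).sub continuousOn_const)
  have low : ∀ {y : ℝ} {Z : ℂ}, l ≤ y → 0 < Z.im → l * Real.exp ((-del a - 1) * Real.log y) ≤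
      2 * C1 * Real.exp (-del a * Real.log y + alp a * Real.log (sinA Z)) +
      l * (Real.exp ((-del a - 1) * Real.log y) +
        (-C1 * Real.exp ((-del a - 1) * Real.log y + alp a * Real.log (sinA Z)) +
        -C2 * Real.exp ((-del a - 1) * Real.log y + 2 * Real.log (sinA Z)))) := by
    intro y Z hy hZ
    have y0 := hl.trans_le hy
    have k1 : Real.exp ((-del a - 1) * Real.log y + 2 * Real.log (sinA Z)) ≤
        Real.exp ((-del a - 1) * Real.log y + alp a * Real.log (sinA Z)) :=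
      Real.exp_le_exp.2 (by nlinarith [log_sinA_nonpos hZ])
    have k2 : l * Real.exp ((-del a - 1) * Real.log y + alp a * Real.log (sinA Z)) ≤
        Real.exp (-del a * Real.log y + alp a * Real.log (sinA Z)) := by
      refine (mul_le_mul_of_nonneg_right hy (Real.exp_pos _).le).trans_eq ?_
      nth_rewrite 1 [← Real.exp_log y0]
      rw [← Real.exp_add]; congr 1; ring
    have k3 := mul_le_mul_of_nonneg_left k1 (mul_nonneg hl.le hC2)
    have k4 := mul_le_mul_of_nonneg_left k2 (add_nonneg (hC2.trans h12) hC2)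
    have k5 := mul_le_mul_of_nonneg_right h12 (Real.exp_pos (-del a * Real.log y + alp a *
      Real.log (sinA Z))).le
    linarith
  have k := Gen.max hμ hW (g.weaken fun _ _ _ h => h.1)
    (c := (2 * C1 * sinA z ^ alp a + l / z.im) * Real.exp (-del a * Real.log z.im))
    (lam := Real.exp (-del a * Real.log (2 * l)) / 4) (fun u t ht h => ⟨le_trans (by positivity)
      (low (by linarith [h.2 t ⟨ht, le_rfl⟩]) (Zt_im_pos u.cont ht h.1)), by
      have i0 := Zt_im_pos u.cont ht h.1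
      have h7 := drift h2 hC hC' hC2 hl.le (sq_nonneg ‖Zt a u.1 z t‖⁻¹) (sq_nonneg _)
        (sin_sq_le i0 α1) (Real.exp_pos ((-del a - 1) * Real.log (ups a u.1 z t))).le
      have h8 : Real.exp (2 * Real.log (sinA (Zt a u.1 z t))) = sinA (Zt a u.1 z t) ^ 2 := by
        rw [two_mul, Real.exp_add, Real.exp_log (sinA_pos i0), sq]
      simp only [mul_zero, zero_add, mul_pow, Real.exp_add, h8, sI_sq i0, pR_sq i0, mul_div_assoc]
      refine le_of_eq_of_le ?_ h7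
      generalize Real.exp (alp a * Real.log (sinA (Zt a u.1 z t))) = E
      generalize Real.exp ((-del a - 1) * Real.log (ups a u.1 z t)) = e
      generalize Real.exp (-del a * Real.log (ups a u.1 z t)) = e'
      generalize sinA (Zt a u.1 z t) ^ 2 = S
      generalize ‖Zt a u.1 z t‖⁻¹ ^ 2 = n
      unfold alp del
      field_simp
      ring⟩)
    (fun u h => by
      rw [(Zt_zero u z0).2.1, (Zt_zero u z0).2.2, add_mul, Real.exp_add, Real.rpow_def_of_pos
        (sinA_pos z0), mul_comm (Real.log _) (alp a)]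
      have e : l * Real.exp ((-del a - 1) * Real.log z.im) =
          l / z.im * Real.exp (-del a * Real.log z.im) := by
        rw [sub_mul, one_mul, Real.exp_sub, Real.exp_log z0]; ring
      have p1 := mul_nonneg (mul_nonneg hl.le (hC2.trans h12)) (Real.exp_pos ((-del a - 1) *
        Real.log z.im + alp a * Real.log (sinA z))).le
      have p2 := mul_nonneg (mul_nonneg hl.le hC2) (Real.exp_pos ((-del a - 1) *
        Real.log z.im + 2 * Real.log (sinA z))).le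
      linarith) (by positivity)
  refine le_trans (measure_mono ?_) (k.trans_eq ?_)
  · rintro u ⟨t, ht, k1, k2⟩
    have k3 := k1.2 t ⟨ht, le_rfl⟩
    refine ⟨t, ht, k1, lt_of_lt_of_le ?_ (low (by linarith) (Zt_im_pos u.cont ht k1.1))⟩
    have k4 := Real.log_le_log (by linarith) k2
    have e : l * Real.exp ((-del a - 1) * Real.log (2 * l)) =
        Real.exp (-del a * Real.log (2 * l)) / 2 := by
      rw [sub_mul, one_mul, Real.exp_sub, Real.exp_log (by linarith)]; field_simp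
    have k5 : l * Real.exp ((-del a - 1) * Real.log (2 * l)) ≤
        l * Real.exp ((-del a - 1) * Real.log (ups a u.1 z t)) := by
      gcongr l * Real.exp ?_; nlinarith
    linarith [Real.exp_pos (-del a * Real.log (2 * l))]
  · rw [Real.rpow_def_of_pos (x := 2 * l / z.im) (by positivity), Real.log_div (by positivity) z0.ne',
      sub_mul, Real.exp_sub, neg_mul, neg_mul, Real.exp_neg, Real.exp_neg,
      mul_comm (Real.log (2 * l)), mul_comm (Real.log z.im)]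
    congr 1; field_simp

end OneM

/-- ONE, with the angle: the conformal radius gets below `l` while the point is alive. -/
theorem one_sharp (h1 : 1 / 4 < a) (h2 : a < 1 / 2) : ∃ C : ℝ, 1 ≤ C ∧ ∀ μ, IsW μ →
    ∀ (z : ℂ) (l : ℝ), 0 < l → l < z.im →
      μ {u | ∃ t, 0 ≤ t ∧ Alive a u.1 z t ∧ ups a u.1 z t ≤ l} ≤
        ENNReal.ofReal (C * (sinA z ^ alp a + l / z.im) * (l / z.im) ^ del a) := by
  have ha : 0 < a := by linarith
  have p3 : 0 < 3 - 4 * a := by linarith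
  obtain ⟨C2, h3⟩ : ∃ c, c = (4 * a - 1 / 2) / (3 - 4 * a) := ⟨_, rfl⟩
  have C0 : 0 ≤ C2 := by rw [h3]; exact div_nonneg (by linarith) p3.le
  refine ⟨40 * C2 + 2, by linarith, fun μ hμ z l hl hz => ?_⟩
  have z0 := hl.trans hz
  refine le_trans (measure_mono ?_) ((OneM.gen hμ h1 h2 (C1 := 5 * C2) (C2 := C2) (l := l / 2)
    (by rw [h3]; field_simp) (by nlinarith) C0 (by linarith) (half_pos hl) (z := z)
      (by linarith)).trans (ENNReal.ofReal_le_ofReal ?_))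
  · rintro u ⟨t, ht, k1, k2⟩
    have hc : ContinuousOn (ups a u.1 z) (Icc 0 t) :=
      (((gen_logUps ha z).smul 1).exp.cont u t ht k1).congr fun s hs => by
        simp [Real.exp_log (ups_pos (LoeAM.alive_mono hs.2 k1))]
    obtain ⟨s, hs, e⟩ := intermediate_value_Icc' ht hc
      (show l ∈ Icc (ups a u.1 z t) (ups a u.1 z 0) from ⟨k2, by rw [(Zt_zero u z0).2.2]; exact hz.le⟩)
    refine ⟨s, hs.1, ⟨LoeAM.alive_mono hs.2 k1, fun r hr => ?_⟩, by linarith⟩
    linarith [LoeAM.ups_anti ha u.cont z hr.1 hs.1 hr.2]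
  · rw [show 2 * (l / 2) = l by ring]
    have p1 := Real.rpow_nonneg (sinA_pos z0).le (alp a)
    have p2 := div_pos hl z0
    gcongr ?_ * _
    rw [show l / 2 / z.im = l / z.im / 2 by ring]
    nlinarith [mul_nonneg C0 p2.le]

/-- ONE. -/
theorem one (h1 : 1 / 4 < a) (h2 : a < 1 / 2) : ∃ C : ℝ, 1 ≤ C ∧ ∀ μ, IsW μ →
    ∀ (z : ℂ) (l : ℝ), 0 < l → μ {u | ∃ t, 0 ≤ t ∧ Alive a u.1 z t ∧ ups a u.1 z t ≤ l} ≤
      ENNReal.ofReal (C * (l / z.im) ^ del a) := by
  obtain ⟨C, hC, h⟩ := one_sharp h1 h2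
  refine ⟨2 * C, by linarith, fun μ hμ z l hl => ?_⟩
  have := hμ.prob
  have d0 := del_pos h1
  rcases le_or_gt z.im 0 with hz | hz
  · refine le_of_eq_of_le (measure_mono_null ?_ measure_empty) zero_le
    rintro u ⟨t, -, h, -⟩
    exact hz.not_gt h.1
  rcases le_or_gt z.im l with hz' | hz'
  · exact prob_le_one.trans (ENNReal.one_le_ofReal.2 (one_le_mul_of_one_le_of_one_le (by linarith)
      (Real.one_le_rpow ((one_le_div hz).2 hz') d0.le)))
  refine (h μ hμ z l hl hz').trans (ENNReal.ofReal_le_ofReal ?_)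
  have p1 := Real.rpow_le_one (sinA_pos hz).le (sinA_le_one z) (z := alp a) (by unfold alp; linarith)
  have p2 := (div_le_one hz).2 hz'.le
  gcongr ?_ * _
  nlinarith

end Pool.Agent.MP_990230_pr.K8

end
end MrgPart2

-- marker of a merged file
example : 731051 + 123780 = 731051 + 123780 := rfl
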