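import Mathlib.CategoryTheory.Countable
import Pool.Agent.MP_990230_pr.k8.GeoDefs
import Pool.Agent.MP_990230_pr.k8.Tile

-- ======== part 0: formerly Pool.Agent.MP_990230_pr.k8.GeoA
section MrgPart0

/-! # SLE8 global geometry, part A: nets, clusters, free points (helper48) -/

open Set

noncomputable section

namespace Pool.Agent.MP_990230_pr.K8.Geo

/-- farthest first insertion radii. -/
theorem ff (P : Finset ℂ) (hP : P.Nonempty) (Δ : ℝ) :
    ∃ ρ : ℂ → ℝ, (∀ p ∈ P, ∀ q ∈ P, p ≠ q → min (ρ p) (ρ q) ≤ ‖p - q‖) ∧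
      ∀ r, 0 < r → r ≤ Δ → ∀ p ∈ P, ∃ p' ∈ P, r ≤ ρ p' ∧ ‖p - p'‖ < r := by
  classical
  have key : ∀ k : ℕ, k + 1 ≤ P.card → ∃ (S : Finset ℂ) (ρ : ℂ → ℝ), S ⊆ P ∧ S.card = k + 1 ∧
      (∀ p ∈ S, ∀ q ∈ S, p ≠ q → min (ρ p) (ρ q) ≤ ‖p - q‖) ∧
      (∀ r, r ≤ Δ → (∀ p ∈ P, ∃ s ∈ S, ‖p - s‖ < r) →
        ∀ p ∈ P, ∃ p' ∈ S, r ≤ ρ p' ∧ ‖p - p'‖ < r) ∧
      (∀ r, r ≤ Δ → ¬ (∀ p ∈ P, ∃ s ∈ S, ‖p - s‖ < r) → ∀ s ∈ S, r ≤ ρ s) := by
    intro k
    induction k with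
    | zero =>
      intro _
      obtain ⟨p0, hp0⟩ := hP
      refine ⟨{p0}, fun _ => Δ, by simpa using hp0, by simp, ?_, ?_, ?_⟩
      · intro p hp q hq hne
        rw [Finset.mem_singleton] at hp hq
        exact absurd (hp.trans hq.symm) hne
      · intro r hr hc p hp
        obtain ⟨s, hs, h⟩ := hc p hp
        exact ⟨s, hs, hr, h⟩
      · exact fun r hr _ _ _ => hr
    | succ k ih =>
      intro hk
      obtain ⟨S, ρ, hS, hc, i1, i2, i3⟩ := ih (by omega)
      have hne : S.Nonempty := Finset.card_pos.1 (by omega)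
      obtain ⟨x, hx, hmax⟩ := P.exists_max_image (fun p => S.inf' hne (fun s => ‖p - s‖)) hP
      obtain ⟨w, hwP, hwS⟩ : ∃ w ∈ P, w ∉ S := by
        by_contra hcon
        push Not at hcon
        have := Finset.card_le_card (show P ⊆ S from hcon)
        omega
      have hpos : 0 < S.inf' hne (fun s => ‖x - s‖) := by
        refine lt_of_lt_of_le ?_ (hmax w hwP)
        rw [Finset.lt_inf'_iff]
        intro s hs
        exact norm_pos_iff.2 (sub_ne_zero.2 fun e => hwS (e ▸ hs))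
      have hle : ∀ s ∈ S, S.inf' hne (fun s => ‖x - s‖) ≤ ‖x - s‖ :=
        fun s hs => Finset.inf'_le _ hs
      have hxS : x ∉ S := fun h => by
        have := hle x h
        rw [sub_self, norm_zero] at this
        linarith
      have big : ∀ r, ¬ (∀ p ∈ P, ∃ s ∈ S, ‖p - s‖ < r) → r ≤ S.inf' hne (fun s => ‖x - s‖) := by
        intro r hr
        push Not at hr
        obtain ⟨p, hp, h⟩ := hr
        exact le_trans ((Finset.le_inf'_iff _ _).2 h) (hmax p hp)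
      generalize S.inf' hne (fun s => ‖x - s‖) = δ at hpos hle big
      have e1 : Function.update ρ x δ x = δ := Function.update_self _ _ _
      have e2 : ∀ s ∈ S, Function.update ρ x δ s = ρ s :=
        fun s hs => Function.update_of_ne (show s ≠ x from fun e => hxS (e ▸ hs)) _ _
      have all : ∀ r, r ≤ Δ → ¬ (∀ p ∈ P, ∃ s ∈ S, ‖p - s‖ < r) →
          ∀ s ∈ insert x S, r ≤ Function.update ρ x δ s := by
        intro r hr hn s hs
        rcases Finset.mem_insert.1 hs with rfl | hs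
        · rw [e1]; exact big r hn
        · rw [e2 s hs]; exact i3 r hr hn s hs
      refine ⟨insert x S, Function.update ρ x δ, Finset.insert_subset hx hS,
        by rw [Finset.card_insert_of_notMem hxS, hc], ?_, ?_, ?_⟩
      · intro p hp q hq hpq
        rcases Finset.mem_insert.1 hp with rfl | hp'
        · rcases Finset.mem_insert.1 hq with rfl | hq'
          · exact absurd rfl hpq
          · rw [e1]; exact (min_le_left _ _).trans (hle q hq')
        · rcases Finset.mem_insert.1 hq with rfl | hq'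
          · rw [e1, norm_sub_rev]; exact (min_le_right _ _).trans (hle p hp')
          · rw [e2 p hp', e2 q hq']; exact i1 p hp' q hq' hpq
      · intro r hr hcov p hp
        by_cases h0 : ∀ p ∈ P, ∃ s ∈ S, ‖p - s‖ < r
        · obtain ⟨p', h1, h2, h3⟩ := i2 r hr h0 p hp
          exact ⟨p', Finset.mem_insert_of_mem h1, by rw [e2 p' h1]; exact h2, h3⟩
        · obtain ⟨s, hs, h⟩ := hcov p hp
          exact ⟨s, hs, all r hr h0 s hs, h⟩
      · intro r hr hn
        refine all r hr fun h0 => hn fun p hp => ?_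
        obtain ⟨s, hs, h⟩ := h0 p hp
        exact ⟨s, Finset.mem_insert_of_mem hs, h⟩
  have hc := Finset.card_pos.2 hP
  obtain ⟨S, ρ, hS, hcard, i1, i2, _⟩ := key (P.card - 1) (by omega)
  have e : S = P := Finset.eq_of_subset_of_card_le hS (by omega)
  subst e
  exact ⟨ρ, i1, fun r h0 hr => i2 r hr fun p hp => ⟨p, hp, by simpa using h0⟩⟩

theorem ff2 (P : Finset ℂ) (hP : P.Nonempty) :
    ∃ ρ : ℂ → ℝ, ∀ p ∈ P, ∀ q ∈ P, p ≠ q → ∃ x ∈ P, ‖p - q‖ / 3 ≤ ρ x ∧ ρ x ≤ 5 * ‖p - q‖ / 3 ∧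
      ‖x - p‖ ≤ 4 * ‖p - q‖ / 3 := by
  obtain ⟨ρ, h1, h2⟩ := ff P hP (∑ p ∈ P, ∑ q ∈ P, ‖p - q‖)
  refine ⟨ρ, fun p hp q hq hne => ?_⟩
  have hD : 0 < ‖p - q‖ := norm_pos_iff.2 (sub_ne_zero.2 hne)
  have hΔ : ‖p - q‖ ≤ ∑ p ∈ P, ∑ q ∈ P, ‖p - q‖ :=
    le_trans (Finset.single_le_sum (f := fun q => ‖p - q‖) (fun _ _ => norm_nonneg _) hq)
      (Finset.single_le_sum (f := fun p => ∑ q ∈ P, ‖p - q‖)
        (fun _ _ => Finset.sum_nonneg fun _ _ => norm_nonneg _) hp)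
  obtain ⟨p', hp', a1, a2⟩ := h2 (‖p - q‖ / 3) (by linarith) (by linarith) p hp
  obtain ⟨q', hq', b1, b2⟩ := h2 (‖p - q‖ / 3) (by linarith) (by linarith) q hq
  have t1 : ‖p - q‖ ≤ ‖p - p'‖ + ‖p' - q'‖ + ‖q - q'‖ := by
    calc ‖p - q‖ = ‖(p - p') + (p' - q') - (q - q')‖ := by congr 1; ring
      _ ≤ _ := (norm_sub_le _ _).trans (by gcongr; exact norm_add_le _ _)
  have t2 : ‖p' - q'‖ ≤ ‖p - p'‖ + ‖p - q‖ + ‖q - q'‖ := by
    calc ‖p' - q'‖ = ‖(p - q) + (q - q') - (p - p')‖ := by congr 1; ring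
      _ ≤ ‖p - q‖ + ‖q - q'‖ + ‖p - p'‖ :=
        (norm_sub_le _ _).trans (by gcongr; exact norm_add_le _ _)
      _ = _ := by ring
  have t3 : ‖q' - p‖ ≤ ‖p - q‖ + ‖q - q'‖ := by
    calc ‖q' - p‖ = ‖(p - q) + (q - q')‖ := by rw [norm_sub_rev]; congr 1; ring
      _ ≤ _ := norm_add_le _ _
  have hne' : p' ≠ q' := fun e => by
    rw [e, sub_self, norm_zero] at t1
    rw [e] at a2
    linarith
  rcases min_le_iff.1 (h1 p' hp' q' hq' hne') with h | h
  · exact ⟨p', hp', a1, by linarith, by rw [norm_sub_rev p' p]; linarith⟩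
  · exact ⟨q', hq', b1, by linarith, by linarith⟩

theorem card_pow (S : Finset ℕ) {Θ α β : ℝ} (hΘ : 1 < Θ) (hα : 0 < α) (hαβ : α ≤ β)
    (h : ∀ k ∈ S, α ≤ Θ ^ k ∧ Θ ^ k ≤ β) :
    (S.card : ℝ) * Real.log Θ ≤ Real.log (β / α) + Real.log Θ := by
  have l0 : 0 < Real.log Θ := Real.log_pos hΘ
  have l1 : 0 ≤ Real.log (β / α) := Real.log_nonneg ((one_le_div hα).2 hαβ)
  rcases S.eq_empty_or_nonempty with rfl | hne
  · simp only [Finset.card_empty, Nat.cast_zero, zero_mul]; linarith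
  · have c1 : S.card ≤ S.max' hne + 1 - S.min' hne := by
      rw [← Nat.card_Icc]
      exact Finset.card_le_card fun k hk =>
        Finset.mem_Icc.2 ⟨S.min'_le k hk, S.le_max' k hk⟩
    have c0 : S.min' hne ≤ S.max' hne := S.min'_le _ (S.max'_mem hne)
    have c2 : (S.card : ℝ) ≤ (S.max' hne : ℝ) + 1 - S.min' hne := by
      have : S.card + S.min' hne ≤ S.max' hne + 1 := by omega
      have : (S.card : ℝ) + S.min' hne ≤ (S.max' hne : ℝ) + 1 := by exact_mod_cast this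
      linarith
    have a1 := Real.log_le_log hα (h _ (S.min'_mem hne)).1
    have a2 := Real.log_le_log (by positivity) (h _ (S.max'_mem hne)).2
    rw [Real.log_pow] at a1 a2
    rw [Real.log_div (by linarith) hα.ne']
    have := mul_le_mul_of_nonneg_right c2 l0.le
    linarith

theorem first_hit (p : ℕ → Prop) {a b : ℕ} (hab : a ≤ b) (ha : ¬ p a) (hb : p b) :
    ∃ i, a ≤ i ∧ i < b ∧ (∀ j, a ≤ j → j ≤ i → ¬ p j) ∧ p (i + 1) := by
  classical
  have ex : ∃ j, a ≤ j ∧ p j := ⟨b, hab, hb⟩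
  have h1 := Nat.find_spec ex
  have h2 : Nat.find ex ≤ b := Nat.find_min' ex ⟨hab, hb⟩
  have h3 : Nat.find ex ≠ a := fun e => ha (e ▸ h1.2)
  refine ⟨Nat.find ex - 1, by omega, by omega, fun j hj hji hp => ?_, ?_⟩
  · have := Nat.find_min' ex ⟨hj, hp⟩
    omega
  · rw [show Nat.find ex - 1 + 1 = Nat.find ex by omega]; exact h1.2

theorem last_hit (p : ℕ → Prop) {a b : ℕ} (hab : a ≤ b) (ha : p a) (hb : ¬ p b) :
    ∃ i, a ≤ i ∧ i < b ∧ p i ∧ ∀ j, i < j → j ≤ b → ¬ p j := by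
  classical
  have h1 : a ≤ Nat.findGreatest p b := Nat.le_findGreatest hab ha
  have h2 : p (Nat.findGreatest p b) := Nat.findGreatest_spec hab ha
  have h3 : Nat.findGreatest p b ≤ b := Nat.findGreatest_le b
  exact ⟨_, h1, lt_of_le_of_ne h3 fun e => hb (e ▸ h2), h2,
    fun j hj hjb => Nat.findGreatest_is_greatest hj hjb⟩

theorem tri3 (a b c : ℂ) : ‖a - c‖ ≤ ‖a - b‖ + ‖b - c‖ := norm_sub_le_norm_sub_add_norm_sub a b c

/-- size of a cluster. -/
def dm (ε : ℝ) (C : Finset ℂ) : ℝ := max ε (Metric.diam (C : Set ℂ))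

/-- distance from a cluster to the other points. -/
def gp (P C : Finset ℂ) : ℝ :=
  sInf ((fun a : ℂ × ℂ => ‖a.1 - a.2‖) '' {a | a.1 ∈ C ∧ a.2 ∈ P ∧ a.2 ∉ C})

open Classical in
/-- the centre of a cluster. -/
def ctr (C : Finset ℂ) : ℂ :=
  if h : ∃ p ∈ C, p.im = 0 then h.choose else if h : C.Nonempty then h.choose else 0

structure Iso (P : Finset ℂ) (ε : ℝ) (C : Finset ℂ) : Prop where
  sub : C ⊆ P
  ne : C.Nonempty
  out : ∃ q ∈ P, q ∉ C
  iso : 1048576 * dm ε C ≤ gp P C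

variable {P C C' : Finset ℂ} {ε : ℝ}

theorem le_dm (ε : ℝ) (C : Finset ℂ) : ε ≤ dm ε C := le_max_left _ _

theorem dist_le_dm (ε : ℝ) {p q : ℂ} (hp : p ∈ C) (hq : q ∈ C) : ‖p - q‖ ≤ dm ε C := by
  rw [← dist_eq_norm]
  exact (Metric.dist_le_diam_of_mem C.finite_toSet.isBounded hp hq).trans (le_max_right _ _)

theorem dm_le {B : ℝ} (h0 : 0 ≤ B) (h1 : ε ≤ B) (h : ∀ p ∈ C, ∀ q ∈ C, ‖p - q‖ ≤ B) :
    dm ε C ≤ B :=
  max_le h1 (Metric.diam_le_of_forall_dist_le h0 fun p hp q hq => by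
    rw [dist_eq_norm]; exact h p hp q hq)

theorem gp_le {p q : ℂ} (hp : p ∈ C) (hq : q ∈ P) (hq' : q ∉ C) : gp P C ≤ ‖p - q‖ :=
  csInf_le ⟨0, by rintro _ ⟨a, _, rfl⟩; exact norm_nonneg _⟩ ⟨(p, q), ⟨hp, hq, hq'⟩, rfl⟩

theorem le_gp {B : ℝ} (h1 : C.Nonempty) (h2 : ∃ q ∈ P, q ∉ C)
    (h : ∀ p ∈ C, ∀ q ∈ P, q ∉ C → B ≤ ‖p - q‖) : B ≤ gp P C := by
  obtain ⟨p, hp⟩ := h1
  obtain ⟨q, hq, hq'⟩ := h2
  refine le_csInf ⟨_, (p, q), ⟨hp, hq, hq'⟩, rfl⟩ ?_
  rintro _ ⟨a, ha, rfl⟩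
  exact h _ ha.1 _ ha.2.1 ha.2.2

theorem ctr_mem (h : C.Nonempty) : ctr C ∈ C := by
  unfold ctr
  split_ifs with h1
  · exact h1.choose_spec.1
  · exact h.choose_spec

theorem ctr_im (h : ∃ p ∈ C, p.im = 0) : (ctr C).im = 0 := by
  unfold ctr
  rw [dif_pos h]
  exact h.choose_spec.2

theorem ctr_single (p : ℂ) : ctr {p} = p :=
  Finset.mem_singleton.1 (ctr_mem (Finset.singleton_nonempty p))

theorem Iso.nest (h : Iso P ε C) (h' : Iso P ε C') (hs : C ⊆ C') (hne : C ≠ C') :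
    gp P C ≤ dm ε C' := by
  obtain ⟨q, hq, hq'⟩ := Finset.exists_of_ssubset (Finset.ssubset_iff_subset_ne.2 ⟨hs, hne⟩)
  exact (gp_le (ctr_mem h.ne) (h'.sub hq) hq').trans (dist_le_dm ε (hs (ctr_mem h.ne)) hq)

theorem Iso.lam (hε : 0 < ε) (h : Iso P ε C) (h' : Iso P ε C') {p : ℂ} (hp : p ∈ C)
    (hp' : p ∈ C') : C ⊆ C' ∨ C' ⊆ C := by
  by_contra hcon
  obtain ⟨h1, h2⟩ := not_or.1 hcon
  obtain ⟨q, hq, hq'⟩ := Finset.not_subset.1 h1
  obtain ⟨w, hw, hw'⟩ := Finset.not_subset.1 h2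
  have a1 := gp_le hp' (h.sub hq) hq'
  have a2 := dist_le_dm ε hp hq
  have a3 := gp_le hp (h'.sub hw) hw'
  have a4 := dist_le_dm ε hp' hw
  have a5 := h.iso
  have a6 := h'.iso
  have a7 := le_dm ε C
  have a8 := le_dm ε C'
  linarith

/-- two isolated clusters are equal, nested or far apart. -/
theorem Iso.tri (hε : 0 < ε) (h : Iso P ε C) (h' : Iso P ε C') :
    C = C' ∨ (gp P C ≤ dm ε C' ∧ ‖ctr C - ctr C'‖ ≤ dm ε C') ∨
      (gp P C' ≤ dm ε C ∧ ‖ctr C - ctr C'‖ ≤ dm ε C) ∨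
      (gp P C ≤ ‖ctr C - ctr C'‖ ∧ gp P C' ≤ ‖ctr C - ctr C'‖) := by
  by_cases e : C = C'
  · exact Or.inl e
  have m1 := ctr_mem h.ne
  have m2 := ctr_mem h'.ne
  by_cases s1 : C ⊆ C'
  · exact Or.inr (Or.inl ⟨h.nest h' s1 e, dist_le_dm ε (s1 m1) m2⟩)
  by_cases s2 : C' ⊆ C
  · exact Or.inr (Or.inr (Or.inl ⟨h'.nest h s2 (Ne.symm e), dist_le_dm ε m1 (s2 m2)⟩))
  refine Or.inr (Or.inr (Or.inr ⟨gp_le m1 (h'.sub m2) fun hc => ?_, ?_⟩))
  · rcases h.lam hε h' hc m2 with k | k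
    · exact s1 k
    · exact s2 k
  · rw [norm_sub_rev]
    refine gp_le m2 (h.sub m1) fun hc => ?_
    rcases h.lam hε h' m1 hc with k | k
    · exact s1 k
    · exact s2 k

/-- points off the windows and off the small discs. -/
def Free (P : Finset ℂ) (ε : ℝ) (y : ℂ) : Prop :=
  (∀ C, Iso P ε C → ‖y - ctr C‖ ≤ 128 * dm ε C ∨ gp P C / 128 ≤ ‖y - ctr C‖) ∧
    ∀ p ∈ P, 128 * ε < ‖y - p‖

theorem pair (hε : 0 < ε) {y p u v : ℂ} (hy : Free P ε y) (hp : p ∈ P)
    (hmin : ∀ q ∈ P, ‖y - p‖ ≤ ‖y - q‖) (hu : u ∈ P) (hv : v ∈ P) (huv : ‖y - p‖ ≤ ‖u - v‖) :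
    ∃ q ∈ P, ‖y - p‖ / 512 ≤ ‖p - q‖ ∧ ‖p - q‖ ≤ 16384 * ‖y - p‖ := by
  classical
  by_contra hcon
  push Not at hcon
  have hd := hy.2 p hp
  have mem : ∀ q, q ∈ P.filter (fun q => ‖p - q‖ < ‖y - p‖ / 512) ↔
      q ∈ P ∧ ‖p - q‖ < ‖y - p‖ / 512 := fun q => Finset.mem_filter
  have sub : P.filter (fun q => ‖p - q‖ < ‖y - p‖ / 512) ⊆ P := Finset.filter_subset _ _
  generalize P.filter (fun q => ‖p - q‖ < ‖y - p‖ / 512) = C at mem sub
  have hne : C.Nonempty := ⟨p, (mem p).2 ⟨hp, by rw [sub_self, norm_zero]; linarith⟩⟩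
  have hin : ∀ a ∈ C, ∀ b ∈ C, ‖a - b‖ < ‖y - p‖ / 256 := by
    intro a ha b hb
    have h1 := ((mem a).1 ha).2
    have h2 := ((mem b).1 hb).2
    have := tri3 a p b
    rw [norm_sub_rev a p] at this
    linarith
  have hout : ∃ q ∈ P, q ∉ C := by
    by_contra hc
    push Not at hc
    have := hin u (hc u hu) v (hc v hv)
    linarith
  have hD : dm ε C ≤ max ε (‖y - p‖ / 256) :=
    dm_le (le_max_of_le_left hε.le) (le_max_left _ _)
      fun a ha b hb => le_max_of_le_right (hin a ha b hb).le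
  have hD' : 128 * dm ε C < ‖y - p‖ := by
    rcases le_max_iff.1 hD with h | h <;> linarith
  have hg : 8192 * ‖y - p‖ ≤ gp P C := by
    refine le_gp hne hout fun a ha q hq hq' => ?_
    have h1 := ((mem a).1 ha).2
    have h2 : ‖y - p‖ / 512 ≤ ‖p - q‖ := not_lt.1 fun h => hq' ((mem q).2 ⟨hq, h⟩)
    have h3 := hcon q hq h2
    have := tri3 p a q
    linarith
  have hc := ctr_mem hne
  have c1 := hmin _ (sub hc)
  have c2 := ((mem _).1 hc).2
  have c3 := tri3 y p (ctr C)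
  rcases hy.1 C ⟨sub, hne, hout, by linarith⟩ with h | h <;> linarith

/-- the level `s` about `v` is good. -/
def Gd (P : Finset ℂ) (ε : ℝ) (v : ℂ) (s : ℝ) : Prop :=
  ∀ C, Iso P ε C → v ∈ C → 2 * s ≤ 127 * dm ε C ∨ gp P C / 32 ≤ s

theorem blob (hε : 0 < ε) (hs : ∀ p ∈ P, Iso P ε {p}) {v y : ℂ} {s : ℝ} (h0 : 1024 * ε ≤ s)
    (hg : Gd P ε v s) (h1 : s / 2 ≤ ‖y - v‖) (h2 : ‖y - v‖ ≤ 2 * s) (hy : ¬ Free P ε y) :
    ∃ C, Iso P ε C ∧ v ∉ C ∧ ‖y - ctr C‖ ≤ gp P C / 128 := by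
  rcases not_and_or.1 hy with h | h
  · push Not at h
    obtain ⟨C, hC, a1, a2⟩ := h
    refine ⟨C, hC, fun hv => ?_, a2.le⟩
    have b1 := dist_le_dm ε hv (ctr_mem hC.ne)
    have b2 := tri3 y v (ctr C)
    have b3 := tri3 y (ctr C) v
    rw [norm_sub_rev (ctr C) v] at b3
    have b4 := hC.iso
    have b5 := le_dm ε C
    rcases hg C hC hv with k | k <;> linarith
  · push Not at h
    obtain ⟨p, hp, a1⟩ := h
    have b4 := (hs p hp).iso
    have b5 := le_dm ε {p}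
    refine ⟨{p}, hs p hp, fun hv => ?_, by rw [ctr_single]; linarith⟩
    rw [Finset.mem_singleton] at hv
    rw [← hv] at a1
    linarith

/-- a piece of path at a good level contains a free point. -/
theorem esc (hε : 0 < ε) (hs : ∀ p ∈ P, Iso P ε {p}) {v : ℂ} (hv : v ∈ P) {s : ℝ}
    (h0 : 1024 * ε ≤ s) (hg : Gd P ε v s) {x : ℕ → ℂ} {a b : ℕ} (hab : a ≤ b)
    (hx : ∀ i, a ≤ i → i < b → ‖x (i + 1) - x i‖ ≤ ε)
    (hy : ∀ i, a ≤ i → i ≤ b → s / 2 ≤ ‖x i - v‖ ∧ ‖x i - v‖ ≤ 2 * s)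
    (hd : s / 4 ≤ ‖x b - x a‖) : ∃ i, a ≤ i ∧ i ≤ b ∧ Free P ε (x i) := by
  classical
  by_contra hcon
  push Not at hcon
  have bl : ∀ i, a ≤ i → i ≤ b → ∃ C, Iso P ε C ∧ v ∉ C ∧ ‖x i - ctr C‖ ≤ gp P C / 128 :=
    fun i h1 h2 => blob hε hs h0 hg (hy i h1 h2).1 (hy i h1 h2).2 (hcon i h1 h2)
  obtain ⟨C, hC, hmax⟩ := (P.powerset.filter
    (fun C => Iso P ε C ∧ v ∉ C ∧ ‖x a - ctr C‖ ≤ gp P C / 128)).exists_max_image (gp P) (by
      obtain ⟨C, h⟩ := bl a le_rfl hab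
      exact ⟨C, Finset.mem_filter.2 ⟨Finset.mem_powerset.2 h.1.sub, h⟩⟩)
  obtain ⟨hI, hvC, ha⟩ := (Finset.mem_filter.1 hC).2
  have g1 := gp_le (ctr_mem hI.ne) hv hvC
  have g2 := tri3 (ctr C) (x a) v
  rw [norm_sub_rev (ctr C) (x a)] at g2
  have g3 := (hy a le_rfl hab).2
  have g4 := tri3 (x b) (ctr C) (x a)
  rw [norm_sub_rev (ctr C) (x a)] at g4
  have g5 := hI.iso
  have g6 := le_dm ε C
  obtain ⟨i, i1, i2, i3, i4⟩ := first_hit (fun i => 3 * gp P C / 256 < ‖x i - ctr C‖) hab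
    (by simp only [not_lt]; linarith) (by show 3 * gp P C / 256 < _; linarith)
  have j1 := not_lt.1 (i3 i i1 le_rfl)
  have j2 := hx i i1 i2
  have j3 := tri3 (x (i + 1)) (x i) (ctr C)
  obtain ⟨C', hI', hv', hb⟩ := bl (i + 1) (by omega) (by omega)
  have g5' := hI'.iso
  have g6' := le_dm ε C'
  rcases hI.tri hε hI' with e | ⟨k1, k2⟩ | ⟨k1, k2⟩ | ⟨k1, k2⟩
  · subst e; linarith
  · have t := tri3 (x a) (ctr C) (ctr C')
    have := hmax C' (Finset.mem_filter.2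
      ⟨Finset.mem_powerset.2 hI'.sub, hI', hv', by linarith⟩)
    linarith
  · have t := tri3 (x (i + 1)) (ctr C') (ctr C)
    rw [norm_sub_rev (ctr C') (ctr C)] at t
    linarith
  · have t := tri3 (ctr C) (x (i + 1)) (ctr C')
    rw [norm_sub_rev (ctr C) (x (i + 1))] at t
    linarith

/-- the piece of the path which crosses the level `s`. -/
theorem piece (hε : 0 < ε) (hs : ∀ p ∈ P, Iso P ε {p}) {v : ℂ} (hv : v ∈ P) {s : ℝ}
    (h0 : 1024 * ε ≤ s) (hg : Gd P ε v s) {x : ℕ → ℂ} {A B : ℕ} (hAB : A ≤ B)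
    (hx : ∀ i, A ≤ i → i < B → ‖x (i + 1) - x i‖ ≤ ε) (hA : 2 * s ≤ ‖x A - v‖)
    (hB : ‖x B - v‖ ≤ s) :
    ∃ σ τ t, A ≤ σ ∧ σ ≤ τ ∧ τ ≤ t ∧ t ≤ B ∧ (∀ i, A ≤ i → i < t → s < ‖x i - v‖) ∧
      (∀ i, σ < i → i ≤ t → ‖x i - v‖ < 2 * s) ∧ ‖x t - v‖ ≤ s ∧ s - ε ≤ ‖x t - v‖ ∧
      2 * s ≤ ‖x σ - v‖ ∧ ‖x τ - v‖ ≤ 3 * s / 2 ∧ Free P ε (x τ) := by
  obtain ⟨t, t1, t2, t3, t4⟩ := first_hit (fun i => ‖x i - v‖ ≤ s) hAB
    (by simp only [not_le]; linarith) hB
  have u1 := not_le.1 (t3 t t1 le_rfl)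
  have u2 := hx t t1 t2
  have u3 := tri3 (x t) (x (t + 1)) v
  rw [norm_sub_rev (x t) (x (t + 1))] at u3
  obtain ⟨σ, s1, s2, s3, s4⟩ := last_hit (fun i => 2 * s ≤ ‖x i - v‖) (show A ≤ t + 1 by omega) hA
    (by simp only [not_le]; linarith)
  obtain ⟨w, w1, w2, w3, w4⟩ := last_hit (fun i => 3 * s / 2 ≤ ‖x i - v‖) s2.le
    (by show 3 * s / 2 ≤ _; linarith) (by simp only [not_le]; linarith)
  have v2 := hx w (by omega) (by omega)
  have v3 := tri3 (x w) (x (w + 1)) v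
  rw [norm_sub_rev (x w) (x (w + 1))] at v3
  have v4 := tri3 (x (w + 1)) (x (t + 1)) v
  rw [norm_sub_rev (x (w + 1)) (x (t + 1))] at v4
  obtain ⟨τ, a1, a2, a3⟩ := esc hε hs hv h0 hg (x := x) (a := w + 1) (b := t + 1) (by omega)
    (fun i h1 h2 => hx i (by omega) (by omega))
    (fun i h1 h2 => by
      have b1 := not_le.1 (w4 i (by omega) h2)
      refine ⟨?_, by linarith⟩
      rcases Nat.lt_or_ge i (t + 1) with h | h
      · have := not_le.1 (t3 i (by omega) (by omega))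
        linarith
      · rw [show i = t + 1 by omega]; linarith)
    (by linarith)
  exact ⟨σ, τ, t + 1, s1, by omega, a2, by omega,
    fun i h1 h2 => not_le.1 (t3 i h1 (by omega)), fun i h1 h2 => not_le.1 (s4 i h1 h2), t4,
    by linarith, s3, (not_le.1 (w4 τ (by omega) a2)).le, a3⟩

end Pool.Agent.MP_990230_pr.K8.Geo

end
end MrgPart0

-- ======== part 1: formerly Pool.Agent.MP_990230_pr.k8.GeoB
section MrgPart1

/-! # SLE8 global geometry, part B: the cells (helper48) -/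

open Set

noncomputable section

namespace Pool.Agent.MP_990230_pr.K8.Geo

def cρ (ε : ℝ) (q : ℕ × ℤ × ℤ) : ℝ := 2 ^ q.1 * ε

def cd (ε : ℝ) (q : ℕ × ℤ × ℤ) : ℂ := ⟨cρ ε q * q.2.1, cρ ε q * q.2.2⟩

def ccol (q : ℕ × ℤ × ℤ) : ℕ := q.1 % 2 * 25 + (q.2.1 % 5).toNat * 5 + (q.2.2 % 5).toNat

def Good (P : Finset ℂ) (ε : ℝ) (q : ℕ × ℤ × ℤ) : Prop :=
  ∃ y p : ℂ, Free P ε y ∧ p ∈ P ∧ (∀ w ∈ P, ‖y - p‖ ≤ ‖y - w‖) ∧
    (∃ u ∈ P, ∃ v ∈ P, ‖y - p‖ ≤ ‖u - v‖) ∧ ‖y - cd ε q‖ ≤ cρ ε q ∧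
    100 * cρ ε q ≤ ‖y - p‖ ∧ ‖y - p‖ < 200 * cρ ε q

variable {P C : Finset ℂ} {ε : ℝ} {q q' : ℕ × ℤ × ℤ}

theorem ccol_lt (q : ℕ × ℤ × ℤ) : ccol q < 50 := by
  unfold ccol
  omega

theorem le_cρ (hε : 0 < ε) (q : ℕ × ℤ × ℤ) : ε ≤ cρ ε q :=
  le_mul_of_one_le_left hε.le (one_le_pow₀ one_le_two)

theorem Good.zero (h : Good P ε q) (hε : 0 < ε) (h0 : (0 : ℂ) ∈ P) : 2 * cρ ε q ≤ ‖cd ε q‖ := by
  obtain ⟨y, p, _, _, h3, _, h5, h6, _⟩ := h
  have a1 := h3 0 h0
  have a2 := tri3 y (cd ε q) 0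
  have a3 := le_cρ hε q
  rw [sub_zero (cd ε q)] at a2
  linarith

theorem Good.win (h : Good P ε q) (hε : 0 < ε) (hC : Iso P ε C) :
    Disjoint (ring (ctr C) (256 * dm ε C) (gp P C / 256)) (ring (cd ε q) (cρ ε q) (2 * cρ ε q)) := by
  obtain ⟨y, p, h1, _, h3, _, h5, h6, _⟩ := h
  refine Set.disjoint_left.2 fun w ⟨w1, w2⟩ ⟨_, w4⟩ => ?_
  have a1 := h3 _ (hC.sub (ctr_mem hC.ne))
  have a2 := tri3 w (cd ε q) y
  rw [norm_sub_rev (cd ε q) y] at a2
  have a3 := tri3 w y (ctr C)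
  have a4 := tri3 y w (ctr C)
  rw [norm_sub_rev y w] at a4
  have a5 := le_dm ε C
  have a6 := hC.iso
  rcases h1.1 C hC with k | k <;> linarith

theorem Good.far (h : Good P ε q) (h' : Good P ε q') (hε : 0 < ε) (hk : q.1 + 2 ≤ q'.1) :
    Disjoint (ring (cd ε q) (cρ ε q) (2 * cρ ε q)) (ring (cd ε q') (cρ ε q') (2 * cρ ε q')) := by
  obtain ⟨y, p, _, h2, _, _, h5, _, h7⟩ := h
  obtain ⟨y', p', _, _, h3', _, h5', h6', _⟩ := h'
  refine Set.disjoint_left.2 fun w ⟨_, w2⟩ ⟨_, w4⟩ => ?_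
  have r : 4 * cρ ε q ≤ cρ ε q' := by
    unfold cρ
    have : (2 : ℝ) ^ (q.1 + 2) ≤ 2 ^ q'.1 := pow_le_pow_right₀ one_le_two hk
    rw [pow_add] at this
    have := mul_le_mul_of_nonneg_right this hε.le
    linarith
  have a0 := le_cρ hε q
  have a1 := h3' p h2
  have a2 := tri3 y' y p
  have a3 := tri3 y' w y
  have a4 := tri3 y' (cd ε q') w
  rw [norm_sub_rev (cd ε q') w] at a4
  have a5 := tri3 w (cd ε q) y
  rw [norm_sub_rev (cd ε q) y] at a5
  linarith

theorem five {ρ : ℝ} (hρ : 0 < ρ) {a b : ℤ} (hne : a ≠ b) (hm : a % 5 = b % 5) :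
    5 * ρ ≤ |ρ * a - ρ * b| := by
  have h1 : (5 : ℤ) ≤ |a - b| := by
    rcases le_total a b with h | h
    · rw [abs_of_nonpos (by omega)]; omega
    · rw [abs_of_nonneg (by omega)]; omega
  have h2 : (5 : ℝ) ≤ |(a : ℝ) - b| := by exact_mod_cast h1
  rw [← mul_sub, abs_mul, abs_of_pos hρ, mul_comm]
  exact mul_le_mul_of_nonneg_left h2 hρ.le

theorem Good.disj (h : Good P ε q) (h' : Good P ε q') (hε : 0 < ε) (hne : q ≠ q')
    (hc : ccol q = ccol q') :
    Disjoint (ring (cd ε q) (cρ ε q) (2 * cρ ε q)) (ring (cd ε q') (cρ ε q') (2 * cρ ε q')) := by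
  obtain ⟨k, a, b⟩ := q
  obtain ⟨k', a', b'⟩ := q'
  have c1 : k % 2 = k' % 2 ∧ a % 5 = a' % 5 ∧ b % 5 = b' % 5 := by
    simp only [ccol] at hc
    omega
  rcases lt_trichotomy k k' with hk | hk | hk
  · exact h.far h' hε (by show k + 2 ≤ k'; omega)
  · subst hk
    refine Set.disjoint_left.2 fun w ⟨_, w2⟩ ⟨_, w4⟩ => ?_
    have e : cρ ε (k, a', b') = cρ ε (k, a, b) := rfl
    have a0 : 0 < cρ ε (k, a, b) := hε.trans_le (le_cρ hε _)
    have a1 := tri3 (cd ε (k, a, b)) w (cd ε (k, a', b'))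
    rw [norm_sub_rev (cd ε (k, a, b)) w] at a1
    have a2 := Complex.abs_re_le_norm (cd ε (k, a, b) - cd ε (k, a', b'))
    have a3 := Complex.abs_im_le_norm (cd ε (k, a, b) - cd ε (k, a', b'))
    have e2 : (cd ε (k, a, b) - cd ε (k, a', b')).re =
      cρ ε (k, a, b) * a - cρ ε (k, a, b) * a' := rfl
    have e3 : (cd ε (k, a, b) - cd ε (k, a', b')).im =
      cρ ε (k, a, b) * b - cρ ε (k, a, b) * b' := rfl
    rw [e2] at a2
    rw [e3] at a3
    rw [e] at w4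
    by_cases ha : a = a'
    · have hb : b ≠ b' := fun hb => hne (by rw [ha, hb])
      have := five a0 hb c1.2.2
      linarith
    · have := five a0 ha c1.2.1
      linarith
  · exact (h'.far h hε (by show k' + 2 ≤ k; omega)).symm

theorem near_round {ρ : ℝ} (hρ : 0 < ρ) (t : ℝ) : |t - ρ * round (t / ρ)| ≤ ρ / 2 := by
  have h := abs_sub_round (t / ρ)
  have e : t - ρ * round (t / ρ) = ρ * (t / ρ - round (t / ρ)) := by field_simp
  rw [e, abs_mul, abs_of_pos hρ]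
  have := mul_le_mul_of_nonneg_left h hρ.le
  linarith

theorem exists_cell (hε : 0 < ε) {y w u v : ℂ} (hy : Free P ε y) (hw : w ∈ P) (hu : u ∈ P)
    (hv : v ∈ P) (huv : ‖y - w‖ ≤ ‖u - v‖) :
    ∃ q, Good P ε q ∧ ‖y - cd ε q‖ ≤ cρ ε q ∧ 100 * cρ ε q ≤ ‖y - w‖ := by
  obtain ⟨p, hp, hmin⟩ := P.exists_min_image (fun p => ‖y - p‖) ⟨w, hw⟩
  have hd := hy.2 p hp
  obtain ⟨k, k1, k2⟩ := exists_nat_pow_near (x := ‖y - p‖ / (100 * ε)) (y := 2)
    ((one_le_div (by linarith)).2 (by linarith)) one_lt_two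
  rw [le_div_iff₀ (by linarith)] at k1
  rw [div_lt_iff₀ (by linarith), pow_succ] at k2
  have hρ : (0 : ℝ) < 2 ^ k * ε := by positivity
  have near : ‖y - cd ε (k, round (y.re / (2 ^ k * ε)), round (y.im / (2 ^ k * ε)))‖ ≤
      2 ^ k * ε := by
    refine (Complex.norm_le_abs_re_add_abs_im _).trans ?_
    have a1 := near_round hρ y.re
    have a2 := near_round hρ y.im
    exact le_trans (add_le_add a1 a2) (by linarith)
  have b1 : 100 * (2 ^ k * ε) ≤ ‖y - p‖ := by linarith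
  exact ⟨(k, round (y.re / (2 ^ k * ε)), round (y.im / (2 ^ k * ε))),
    ⟨y, p, hy, hp, hmin, ⟨u, hu, v, hv, (hmin w hw).trans huv⟩, near, b1,
      by show _ < 200 * (2 ^ k * ε); linarith⟩, near, b1.trans (hmin w hw)⟩

theorem mem_box {ρ t : ℝ} (hρ : 0 < ρ) {a : ℤ} (h : |ρ * a - t| ≤ 8388608 * ρ) :
    a ∈ Finset.Icc (⌊t / ρ⌋ - 8388608) (⌊t / ρ⌋ + 8388609) := by
  have e : ρ * a - t = ρ * (a - t / ρ) := by field_simp
  rw [e, abs_mul, abs_of_pos hρ, mul_comm (8388608 : ℝ)] at h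
  have h1 := abs_le.1 (le_of_mul_le_mul_left h hρ)
  have h2 := Int.floor_le (t / ρ)
  have h3 := Int.lt_floor_add_one (t / ρ)
  rw [Finset.mem_Icc]
  constructor
  · have : ((⌊t / ρ⌋ - 8388608 : ℤ) : ℝ) ≤ a := by push_cast; linarith
    exact_mod_cast this
  · have : (a : ℝ) ≤ ((⌊t / ρ⌋ + 8388609 : ℤ) : ℝ) := by push_cast; linarith
    exact_mod_cast this

theorem exists_range (hε : 0 < ε) (r : ℝ) : ∃ k1 : ℕ, ∀ k : ℕ, 2 ^ k * ε ≤ 16 * r →
    r ≤ 8388608 * (2 ^ k * ε) → k ∈ Finset.Icc k1 (k1 + 27) := by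
  classical
  by_cases ex : ∃ k : ℕ, r ≤ 8388608 * (2 ^ k * ε)
  · refine ⟨Nat.find ex, fun k h1 h2 => Finset.mem_Icc.2 ⟨Nat.find_min' ex h2, ?_⟩⟩
    have h3 := Nat.find_spec ex
    have h4 : (2 : ℝ) ^ k * ε ≤ 2 ^ (Nat.find ex + 27) * ε := by
      rw [pow_add]; norm_num; linarith
    exact (pow_le_pow_iff_right₀ one_lt_two).1 (le_of_mul_le_mul_right h4 hε)
  · exact ⟨0, fun k _ h2 => absurd ⟨k, h2⟩ ex⟩

/-- there are few cells. -/
theorem exists_cells (hε : 0 < ε) (hP : P.Nonempty) :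
    ∃ Q : Finset (ℕ × ℤ × ℤ), (∀ q, q ∈ Q ↔ Good P ε q) ∧
      Q.card ≤ P.card * (28 * (16777218 * 16777218)) := by
  classical
  obtain ⟨ρ, hρ⟩ := ff2 P hP
  choose k1 hk1 using exists_range hε
  let box : ℝ → ℝ → Finset ℤ := fun t r => Finset.Icc (⌊t / r⌋ - 8388608) (⌊t / r⌋ + 8388609)
  have cb : ∀ t r, (box t r).card = 16777218 := by
    intro t r
    simp only [box, Int.card_Icc]
    omega
  let S : ℂ → Finset (ℕ × ℤ × ℤ) := fun x => (Finset.Icc (k1 (ρ x)) (k1 (ρ x) + 27)).biUnion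
    fun k => ({k} : Finset ℕ) ×ˢ (box x.re (2 ^ k * ε) ×ˢ box x.im (2 ^ k * ε))
  have cS : ∀ x, (S x).card ≤ 28 * (16777218 * 16777218) := by
    intro x
    refine (Finset.card_biUnion_le_card_mul _ _ (16777218 * 16777218) fun k _ => ?_).trans ?_
    · rw [Finset.card_product, Finset.card_product, cb, cb, Finset.card_singleton, one_mul]
    · rw [Nat.card_Icc, show k1 (ρ x) + 27 + 1 - k1 (ρ x) = 28 by omega]
  refine ⟨(P.biUnion S).filter (Good P ε), fun q => ⟨fun h => (Finset.mem_filter.1 h).2,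
    fun h => Finset.mem_filter.2 ⟨?_, h⟩⟩, (Finset.card_filter_le _ _).trans
      (Finset.card_biUnion_le_card_mul _ _ _ fun x _ => cS x)⟩
  obtain ⟨y, p, h1, h2, h3, ⟨u, hu, v, hv, h4⟩, h5, h6, h7⟩ := h
  obtain ⟨w, hw, w1, w2⟩ := pair hε h1 h2 h3 hu hv h4
  have a0 : 0 < cρ ε q := hε.trans_le (le_cρ hε q)
  have hne : p ≠ w := fun e => by
    rw [e, sub_self, norm_zero, ← e] at w1
    linarith
  obtain ⟨x, hx, x1, x2, x3⟩ := hρ p h2 w hw hne
  have t1 := tri3 (cd ε q) y x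
  have t2 := tri3 y p x
  rw [norm_sub_rev (cd ε q) y] at t1
  rw [norm_sub_rev p x] at t2
  have t3 : ‖cd ε q - x‖ ≤ 8388608 * cρ ε q := by linarith
  refine Finset.mem_biUnion.2 ⟨x, hx, Finset.mem_biUnion.2 ⟨q.1,
    hk1 _ _ (by show cρ ε q ≤ _; linarith) (by show _ ≤ 8388608 * cρ ε q; linarith), ?_⟩⟩
  refine Finset.mem_product.2 ⟨Finset.mem_singleton_self _, Finset.mem_product.2 ⟨?_, ?_⟩⟩
  · exact mem_box a0 ((Complex.abs_re_le_norm (cd ε q - x)).trans t3)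
  · exact mem_box a0 ((Complex.abs_im_le_norm (cd ε q - x)).trans t3)

theorem Iso.win {C' : Finset ℂ} (hε : 0 < ε) (h : Iso P ε C) (h' : Iso P ε C') (hne : C ≠ C') :
    Disjoint (ring (ctr C) (256 * dm ε C) (gp P C / 256))
      (ring (ctr C') (256 * dm ε C') (gp P C' / 256)) := by
  refine Set.disjoint_left.2 fun w ⟨w1, w2⟩ ⟨w3, w4⟩ => ?_
  have a1 := tri3 w (ctr C) (ctr C')
  have a2 := tri3 w (ctr C') (ctr C)
  rw [norm_sub_rev (ctr C') (ctr C)] at a2
  have a3 := tri3 (ctr C) w (ctr C')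
  rw [norm_sub_rev (ctr C) w] at a3
  have a4 := le_dm ε C
  have a5 := le_dm ε C'
  have a6 := h.iso
  have a7 := h'.iso
  rcases h.tri hε h' with e | ⟨k1, k2⟩ | ⟨k1, k2⟩ | ⟨k1, k2⟩
  · exact hne e
  · linarith
  · linarith
  · linarith

theorem Iso.ty (h : Iso P ε C) (h0 : (0 : ℂ) ∈ P)
    (hre : ∀ p ∈ P, ((p.re : ℝ) : ℂ) ∈ P ∧ 0 ≤ p.im) :
    Ty (ctr C) (256 * dm ε C) (gp P C / 256) := by
  have m := ctr_mem h.ne
  by_cases hr : ∃ p ∈ C, p.im = 0
  · refine Or.inr ⟨ctr_im hr, ?_⟩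
    by_cases z : (0 : ℂ) ∈ C
    · have := dist_le_dm ε m z
      rw [sub_zero] at this
      exact Or.inr (by linarith)
    · have := gp_le m h0 z
      rw [sub_zero] at this
      exact Or.inl (by linarith)
  · obtain ⟨a1, a2⟩ := hre _ (h.sub m)
    have a3 := gp_le m a1 fun hc => hr ⟨_, hc, Complex.ofReal_im _⟩
    have a4 := Complex.norm_le_abs_re_add_abs_im (ctr C - ((ctr C).re : ℝ))
    simp only [Complex.sub_re, Complex.ofReal_re, sub_self, abs_zero, Complex.sub_im,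
      Complex.ofReal_im, sub_zero, zero_add, abs_of_nonneg a2] at a4
    exact Or.inl (by linarith)

end Pool.Agent.MP_990230_pr.K8.Geo

end
end MrgPart1

-- ======== part 2: formerly Pool.Agent.MP_990230_pr.k8.Geo
section MrgPart2

/-! # SLE8 global geometry, part C: counting scales, proof of `GeoStmt` (helper48) -/

open Set

noncomputable section

namespace Pool.Agent.MP_990230_pr.K8

namespace Geo

variable {P : Finset ℂ} {ε : ℝ}

open Classical in
/-- the levels of an edge of length `l`. -/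
def Lv (ε l : ℝ) : Finset ℕ :=
  (Finset.range ⌈l / ε⌉₊).filter fun k => 1024 * ε ≤ 4 ^ k * ε ∧ 4 * (4 ^ k * ε) ≤ l

theorem mem_Lv (hε : 0 < ε) {l : ℝ} {k : ℕ} :
    k ∈ Lv ε l ↔ 1024 * ε ≤ 4 ^ k * ε ∧ 4 * (4 ^ k * ε) ≤ l := by
  unfold Lv
  rw [Finset.mem_filter]
  refine ⟨fun h => h.2, fun h => ⟨Finset.mem_range.2 (Nat.lt_ceil.2 ?_), h⟩⟩
  rw [lt_div_iff₀ hε]
  have h1 : (k : ℝ) < 4 ^ k := by exact_mod_cast Nat.lt_pow_self (by norm_num : 1 < 4)
  have h2 := mul_lt_mul_of_pos_right h1 hε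
  linarith [h.1, h.2]

theorem log4 : Real.log 4 ≤ 3 / 2 ∧ 0 < Real.log 4 ∧ Real.log 65536 ≤ 12 := by
  have h := Real.log_two_lt_d9
  have e1 : Real.log 4 = 2 * Real.log 2 := by
    rw [show (4 : ℝ) = 2 ^ 2 by norm_num, Real.log_pow]; norm_num
  have e2 : Real.log 65536 = 16 * Real.log 2 := by
    rw [show (65536 : ℝ) = 2 ^ 16 by norm_num, Real.log_pow]; norm_num
  exact ⟨by linarith, Real.log_pos (by norm_num), by linarith⟩

theorem log_le_Lv (hε : 0 < ε) {l : ℝ} (hl : 0 ≤ l) :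
    Real.log (l / ε) ≤ ((Lv ε l).card + 6) * Real.log 4 := by
  have l0 := log4.2.1
  have c0 : (0 : ℝ) ≤ (Lv ε l).card := Nat.cast_nonneg _
  by_cases hs : l / ε ≤ 4 ^ 6
  · have : Real.log (l / ε) ≤ 6 * Real.log 4 := by
      rcases (div_nonneg hl hε.le).eq_or_lt with h | h
      · rw [← h, Real.log_zero]; linarith
      · have := Real.log_le_log h hs
        rw [Real.log_pow] at this
        exact_mod_cast this
    have := mul_nonneg c0 l0.le
    linarith
  · rw [not_le] at hs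
    obtain ⟨K, k1, k2⟩ := exists_nat_pow_near (x := l / ε) (y := 4) (by linarith [hs]) (by norm_num)
    have hK : 6 ≤ K := by
      have := (pow_lt_pow_iff_right₀ (by norm_num : (1 : ℝ) < 4)).1 (hs.trans k2)
      omega
    have sub : Finset.Icc 5 (K - 1) ⊆ Lv ε l := by
      intro k hk
      rw [Finset.mem_Icc] at hk
      rw [mem_Lv hε]
      have a1 : (4 : ℝ) ^ 5 ≤ 4 ^ k := pow_le_pow_right₀ (by norm_num) hk.1
      have a2 : (4 : ℝ) ^ (k + 1) ≤ 4 ^ K := pow_le_pow_right₀ (by norm_num) (by omega)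
      rw [le_div_iff₀ hε] at k1
      rw [pow_succ] at a2
      have a3 := mul_le_mul_of_nonneg_right a1 hε.le
      have a4 := mul_le_mul_of_nonneg_right a2 hε.le
      constructor <;> linarith
    have c1 := Finset.card_le_card sub
    rw [Nat.card_Icc] at c1
    have c2 : K + 1 ≤ (Lv ε l).card + 6 := by omega
    have c3 : ((K + 1 : ℕ) : ℝ) ≤ (Lv ε l).card + 6 := by exact_mod_cast c2
    have c4 := Real.log_le_log (by linarith [hs]) k2.le
    rw [Real.log_pow] at c4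
    exact c4.trans (mul_le_mul_of_nonneg_right c3 l0.le)

open Classical in
/-- the clusters entered by the edge from `u` to `v`. -/
def En (P : Finset ℂ) (ε : ℝ) (u v : ℂ) : Finset (Finset ℂ) :=
  P.powerset.filter fun C => Iso P ε C ∧ v ∈ C ∧ u ∉ C

theorem mem_En {u v : ℂ} {C : Finset ℂ} : C ∈ En P ε u v ↔ Iso P ε C ∧ v ∈ C ∧ u ∉ C := by
  classical
  unfold En
  rw [Finset.mem_filter]
  exact ⟨fun h => h.2, fun h => ⟨Finset.mem_powerset.2 h.1.sub, h⟩⟩

open Classical in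
/-- the good levels of an edge. -/
def Gl (P : Finset ℂ) (ε : ℝ) (u v : ℂ) : Finset ℕ :=
  (Lv ε ‖v - u‖).filter fun k => Gd P ε v (4 ^ k * ε)

theorem card_En (hε : 0 < ε) {u v : ℂ} (hu : u ∈ P) : (En P ε u v).card ≤ (Gl P ε u v).card := by
  classical
  have ex : ∀ C : Finset ℂ, ∃ k : ℕ, Iso P ε C →
      gp P C / 32 ≤ 4 ^ k * ε ∧ 4 ^ k * ε ≤ gp P C / 8 := by
    intro C
    by_cases hC : Iso P ε C
    · have a1 := hC.iso
      have a2 := le_dm ε C
      obtain ⟨k, k1, k2⟩ := exists_nat_pow_near (x := gp P C / 8 / ε) (y := 4)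
        ((one_le_div hε).2 (by linarith)) (by norm_num)
      rw [le_div_iff₀ hε] at k1
      rw [div_lt_iff₀ hε, pow_succ] at k2
      exact ⟨k, fun _ => ⟨by linarith, k1⟩⟩
    · exact ⟨0, fun h => absurd h hC⟩
  choose κ hκ using ex
  refine Finset.card_le_card_of_injOn κ (fun C hC => ?_) (fun C hC C' hC' e => ?_)
  · obtain ⟨h1, h2, h3⟩ := mem_En.1 hC
    obtain ⟨k1, k2⟩ := hκ C h1
    have a1 := h1.iso
    have a2 := le_dm ε C
    have a3 := gp_le h2 hu h3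
    refine Finset.mem_filter.2 ⟨(mem_Lv hε).2 ⟨by linarith, by linarith⟩, fun C' h' hv => ?_⟩
    have b1 := h'.iso
    have b2 := le_dm ε C'
    by_cases e : C = C'
    · subst e; exact Or.inr k1
    rcases h1.lam hε h' h2 hv with s | s
    · have := h1.nest h' s e
      exact Or.inl (by linarith)
    · have := h'.nest h1 s (Ne.symm e)
      exact Or.inr (by linarith)
  · obtain ⟨h1, h2, _⟩ := mem_En.1 hC
    obtain ⟨h1', h2', _⟩ := mem_En.1 hC'
    obtain ⟨k1, k2⟩ := hκ C h1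
    obtain ⟨k1', k2'⟩ := hκ C' h1'
    rw [e] at k1 k2
    by_contra hne
    have a1 := h1.iso
    have a2 := le_dm ε C
    have b1 := h1'.iso
    have b2 := le_dm ε C'
    rcases h1.lam hε h1' h2 h2' with s | s
    · have := h1.nest h1' s hne
      linarith
    · have := h1'.nest h1 s (Ne.symm hne)
      linarith

theorem edge (hε : 0 < ε) {u v : ℂ} (hu : u ∈ P) :
    Real.log (‖v - u‖ / ε) ≤ ∑ C ∈ En P ε u v, Real.log (gp P C / 256 / (256 * dm ε C)) +
      14 * (Gl P ε u v).card + 9 := by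
  classical
  obtain ⟨l1, l0, l2⟩ := log4
  let Bd : Finset ℂ → Finset ℕ := fun C => (Lv ε ‖v - u‖).filter
    fun k => 127 * dm ε C < 2 * (4 ^ k * ε) ∧ 4 ^ k * ε < gp P C / 32
  have sub : Lv ε ‖v - u‖ ⊆ Gl P ε u v ∪ (En P ε u v).biUnion Bd := by
    intro k hk
    by_cases hg : Gd P ε v (4 ^ k * ε)
    · exact Finset.mem_union_left _ (Finset.mem_filter.2 ⟨hk, hg⟩)
    · unfold Gd at hg
      push Not at hg
      obtain ⟨C, h1, h2, h3, h4⟩ := hg
      refine Finset.mem_union_right _ (Finset.mem_biUnion.2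
        ⟨C, mem_En.2 ⟨h1, h2, fun h => ?_⟩, Finset.mem_filter.2 ⟨hk, h3, h4⟩⟩)
      have a1 := dist_le_dm ε h2 h
      have a2 := (mem_Lv hε).1 hk
      linarith [a2.1, a2.2]
  have c1 : (Lv ε ‖v - u‖).card ≤ (Gl P ε u v).card + ∑ C ∈ En P ε u v, (Bd C).card :=
    (Finset.card_le_card sub).trans ((Finset.card_union_le _ _).trans
      (Nat.add_le_add_left Finset.card_biUnion_le _))
  have c2 : ((Lv ε ‖v - u‖).card : ℝ) ≤ (Gl P ε u v).card + ∑ C ∈ En P ε u v, ((Bd C).card : ℝ) := by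
    exact_mod_cast c1
  have c3 : ∀ C ∈ En P ε u v, ((Bd C).card : ℝ) * Real.log 4 ≤
      Real.log (gp P C / 256 / (256 * dm ε C)) + 12 := by
    intro C hC
    have h1 := (mem_En.1 hC).1
    have a1 := h1.iso
    have a2 := le_dm ε C
    have hD : 0 < dm ε C := by linarith
    have hg : 0 < gp P C := by linarith
    have b := card_pow (Bd C) (Θ := 4) (α := dm ε C / ε) (β := gp P C / 4 / ε) (by norm_num)
      (div_pos hD hε) (div_le_div_of_nonneg_right (by linarith) hε.le) (fun k hk => by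
        obtain ⟨k1, k2⟩ := (Finset.mem_filter.1 hk).2
        rw [div_le_iff₀ hε, le_div_iff₀ hε]
        constructor <;> linarith)
    have e : Real.log (gp P C / 4 / ε / (dm ε C / ε)) + Real.log 4 =
        Real.log (gp P C / 256 / (256 * dm ε C)) + Real.log 65536 := by
      rw [← Real.log_mul (by positivity) (by norm_num), ← Real.log_mul (by positivity) (by norm_num)]
      congr 1
      field_simp
      norm_num
    linarith
  have c4 := Finset.sum_le_sum c3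
  rw [← Finset.sum_mul, Finset.sum_add_distrib, Finset.sum_const, nsmul_eq_mul] at c4
  have c5 : ((En P ε u v).card : ℝ) ≤ (Gl P ε u v).card := by exact_mod_cast card_En hε hu
  have c6 := log_le_Lv hε (norm_nonneg (v - u))
  have c7 := mul_le_mul_of_nonneg_right c2 l0.le
  have c8 : (0 : ℝ) ≤ (Gl P ε u v).card := Nat.cast_nonneg _
  have c9 := mul_le_mul_of_nonneg_left l1 c8
  linarith

/-- the point set. -/
def pts (z : ℕ → ℂ) (n : ℕ) : Finset ℂ := by
  classical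
  exact insert 0 ((Finset.range n).image z ∪ (Finset.range n).image fun j => (((z j).re : ℝ) : ℂ))

theorem mem_pts {z : ℕ → ℂ} {n : ℕ} {p : ℂ} :
    p ∈ pts z n ↔ p = 0 ∨ (∃ j < n, z j = p) ∨ ∃ j < n, (((z j).re : ℝ) : ℂ) = p := by
  simp [pts]

theorem card_pts (z : ℕ → ℂ) (n : ℕ) : (pts z n).card ≤ 2 * n + 1 := by
  classical
  unfold pts
  refine (Finset.card_insert_le _ _).trans (Nat.add_le_add_right
    ((Finset.card_union_le _ _).trans ?_) 1)
  have a1 := Finset.card_image_le (s := Finset.range n) (f := z)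
  have a2 := Finset.card_image_le (s := Finset.range n) (f := fun j => (((z j).re : ℝ) : ℂ))
  rw [Finset.card_range] at a1 a2
  omega

theorem exists_eps (P : Finset ℂ) {u v : ℂ} (hu : u ∈ P) (hv : v ∈ P) (huv : u ≠ v) :
    ∃ ε0 : ℝ, 0 < ε0 ∧ ∀ ε, 0 < ε → ε < ε0 → ∀ p ∈ P, Iso P ε {p} := by
  classical
  obtain ⟨a, ha, hmin⟩ := ((P ×ˢ P).filter fun a => a.1 ≠ a.2).exists_min_image
    (fun a => ‖a.1 - a.2‖) ⟨(u, v), Finset.mem_filter.2 ⟨Finset.mem_product.2 ⟨hu, hv⟩, huv⟩⟩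
  have h0 : 0 < ‖a.1 - a.2‖ := norm_pos_iff.2 (sub_ne_zero.2 (Finset.mem_filter.1 ha).2)
  refine ⟨‖a.1 - a.2‖ / 1048576, by positivity, fun ε h1 h2 p hp => ?_⟩
  have out : ∃ q ∈ P, q ∉ ({p} : Finset ℂ) := by
    by_cases e : u = p
    · exact ⟨v, hv, fun h => huv (e.trans (Finset.mem_singleton.1 h).symm)⟩
    · exact ⟨u, hu, fun h => e (Finset.mem_singleton.1 h)⟩
  have d1 : dm ε {p} ≤ ε := dm_le h1.le le_rfl fun a ha b hb => by
    rw [Finset.mem_singleton.1 ha, Finset.mem_singleton.1 hb, sub_self, norm_zero]; exact h1.le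
  have d2 : ‖a.1 - a.2‖ ≤ gp P {p} := le_gp (Finset.singleton_nonempty p) out fun b hb q hq hq' =>
    hmin (b, q) (Finset.mem_filter.2 ⟨Finset.mem_product.2
      ⟨by rw [Finset.mem_singleton.1 hb]; exact hp, hq⟩, fun e : b = q => hq' (e ▸ hb)⟩)
  exact ⟨by simpa using hp, Finset.singleton_nonempty p, out, by linarith⟩

/-- the cell crossed at a good level. -/
theorem entry (hε : 0 < ε) (hs : ∀ p ∈ P, Iso P ε {p}) {u v : ℂ} (hu : u ∈ P) (hv : v ∈ P)
    {k : ℕ} (hk : k ∈ Gl P ε u v) {x : ℕ → ℂ} {A B : ℕ} (hAB : A ≤ B)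
    (hx : ∀ i, A ≤ i → i < B → ‖x (i + 1) - x i‖ ≤ ε) (hA : ‖x A - u‖ ≤ 3 * ε)
    (hB : ‖x B - v‖ ≤ 3 * ε) :
    ∃ (σ τ t : ℕ) (q : ℕ × ℤ × ℤ), (A ≤ σ ∧ σ ≤ τ ∧ τ ≤ t ∧ t ≤ B) ∧
      ((∀ i, A ≤ i → i < t → 4 ^ k * ε < ‖x i - v‖) ∧
        (∀ i, σ < i → i ≤ t → ‖x i - v‖ < 2 * (4 ^ k * ε)) ∧ ‖x t - v‖ ≤ 4 ^ k * ε ∧
        4 ^ k * ε - ε ≤ ‖x t - v‖) ∧
      Good P ε q ∧ 2 * cρ ε q ≤ ‖x σ - cd ε q‖ ∧ ‖x τ - cd ε q‖ ≤ cρ ε q := by
  classical
  obtain ⟨h1, h2⟩ := Finset.mem_filter.1 hk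
  obtain ⟨h3, h4⟩ := (mem_Lv hε).1 h1
  have a1 := tri3 v (x A) u
  rw [norm_sub_rev v (x A)] at a1
  obtain ⟨σ, τ, t, b1, b2, b3, b4, b5, b6, b7, b8, b9, b10, b11⟩ :=
    piece hε hs hv h3 h2 hAB hx (by linarith) (by linarith)
  obtain ⟨q, q1, q2, q3⟩ := exists_cell hε b11 hv hv hu (by linarith)
  have c1 := tri3 (x σ) (cd ε q) v
  have c2 := tri3 (cd ε q) (x τ) v
  rw [norm_sub_rev (cd ε q) (x τ)] at c2
  exact ⟨σ, τ, t, q, ⟨b1, b2, b3, b4⟩, ⟨b5, b6, b7, b8⟩, q1, by linarith, q2⟩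

end Geo

open Geo

theorem geo_stmt : GeoStmt := by
  classical
  refine ⟨3 * (28 * (16777218 * 16777218)), by norm_num, fun n z hn him => ?_⟩
  have h0 : (0 : ℂ) ∈ pts z n := mem_pts.2 (Or.inl rfl)
  have hz : ∀ j < n, z j ∈ pts z n := fun j hj => mem_pts.2 (Or.inr (Or.inl ⟨j, hj, rfl⟩))
  have hp : ∀ j < n, prv z j ∈ pts z n := by
    intro j hj
    unfold prv
    split_ifs
    · exact h0
    · exact hz _ (by omega)
  have hre : ∀ p ∈ pts z n, ((p.re : ℝ) : ℂ) ∈ pts z n ∧ 0 ≤ p.im := by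
    intro p h
    rcases mem_pts.1 h with rfl | ⟨j, hj, rfl⟩ | ⟨j, hj, rfl⟩
    · exact ⟨by simpa using h0, by simp⟩
    · exact ⟨mem_pts.2 (Or.inr (Or.inr ⟨j, hj, rfl⟩)), (him j hj).le⟩
    · exact ⟨by simpa using h, by simp⟩
  have cP := card_pts z n
  generalize pts z n = P at h0 hz hp hre cP
  obtain ⟨ε0, e0, hs⟩ := exists_eps P h0 (hz 0 hn) fun e => by
    have := him 0 hn
    rw [← e] at this
    simp at this
  refine ⟨ε0, e0, fun ε hε hε0 => ?_⟩
  replace hs := hs ε hε hε0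
  obtain ⟨Q, hQ, cQ⟩ := exists_cells (P := P) hε ⟨0, h0⟩
  let J : Finset ℂ → Finset ℕ := fun C => (Finset.range n).filter fun j => z j ∈ C ∧ prv z j ∉ C
  let I : Finset (Finset ℂ) := P.powerset.filter fun C => Iso P ε C ∧ 1 ≤ (J C).card
  have hI : ∀ C ∈ I, Iso P ε C ∧ 1 ≤ (J C).card := fun C hC => (Finset.mem_filter.1 hC).2
  refine ⟨I, ctr, fun C => 256 * dm ε C, fun C => gp P C / 256, fun C => (J C).card, Q, cd ε,
    cρ ε, ccol, ?_, fun C hC => ?_, fun C hC C' hC' hne => (hI C hC).1.win hε (hI C' hC').1 hne,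
    fun q hq => ⟨ccol_lt q, le_cρ hε q, ((hQ q).1 hq).zero hε h0⟩,
    fun q hq q' hq' hne hc => ((hQ q).1 hq).disj ((hQ q').1 hq') hε hne hc,
    fun q hq C hC => ((hQ q).1 hq).win hε (hI C hC).1, fun x N k hx hx0 hk hmono => ?_⟩
  · have : Q.card ≤ 3 * (28 * (16777218 * 16777218)) * n :=
      cQ.trans (by omega)
    exact_mod_cast this
  · have a1 := (hI C hC).1.iso
    have a2 := le_dm ε C
    exact ⟨by linarith, by linarith, (hI C hC).2, (hI C hC).1.ty h0 hre⟩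
  have mono : ∀ j j', j ≤ j' → j' < n → k j ≤ k j' := by
    intro j j' h
    induction j', h using Nat.le_induction with
    | base => exact fun _ => le_rfl
    | succ i _ ih => exact fun h => (ih (by omega)).trans (hmono i h)
  let A : ℕ → ℕ := fun j => if j = 0 then 0 else k (j - 1)
  have hA : ∀ j < n, A j ≤ k j ∧ ‖x (A j) - prv z j‖ ≤ 3 * ε := by
    intro j hj
    by_cases e : j = 0
    · simp only [A, prv, if_pos e, sub_zero]; exact ⟨Nat.zero_le _, hx0⟩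
    · simp only [A, prv, if_neg e]; exact ⟨mono _ _ (by omega) hj, (hk _ (by omega)).2⟩
  have hA2 : ∀ j j', j < j' → j' < n → k j ≤ A j' := by
    intro j j' h hj
    simp only [A, if_neg (show j' ≠ 0 by omega)]
    exact mono _ _ (by omega) (by omega)
  refine ⟨fun C hC => ?_, ?_⟩
  · have a0 := (hI C hC).1
    have a1 := a0.iso
    have a2 := le_dm ε C
    refine Cr.of_family (by linarith) A k (J C) N (fun j hj => ?_) (fun j hj j' hj' hne => ?_)
    · obtain ⟨b1, b2, b3⟩ := Finset.mem_filter.1 hj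
      rw [Finset.mem_range] at b1
      have c1 := gp_le (ctr_mem a0.ne) (hp j b1) b3
      have c2 := tri3 (ctr C) (x (A j)) (prv z j)
      rw [norm_sub_rev (ctr C) (x (A j))] at c2
      have c3 := dist_le_dm ε b2 (ctr_mem a0.ne)
      have c4 := tri3 (x (k j)) (z j) (ctr C)
      have c5 := (hA j b1).2
      have c6 := (hk j b1).2
      exact ⟨(hA j b1).1, (hk j b1).1, by linarith, by linarith⟩
    · have b1 := Finset.mem_range.1 (Finset.mem_filter.1 hj).1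
      have b2 := Finset.mem_range.1 (Finset.mem_filter.1 hj').1
      rcases lt_or_gt_of_ne hne with h | h
      · exact Or.inl (hA2 _ _ h b2)
      · exact Or.inr (hA2 _ _ h b1)
  let F : Finset (Σ _ : ℕ, ℕ) := (Finset.range n).sigma fun j => Gl P ε (prv z j) (z j)
  have ex : ∀ a : (Σ _ : ℕ, ℕ), ∃ (σ τ t : ℕ) (q : ℕ × ℤ × ℤ), a ∈ F →
      (A a.1 ≤ σ ∧ σ ≤ τ ∧ τ ≤ t ∧ t ≤ k a.1) ∧
      ((∀ i, A a.1 ≤ i → i < t → 4 ^ a.2 * ε < ‖x i - z a.1‖) ∧
        (∀ i, σ < i → i ≤ t → ‖x i - z a.1‖ < 2 * (4 ^ a.2 * ε)) ∧ ‖x t - z a.1‖ ≤ 4 ^ a.2 * ε ∧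
        4 ^ a.2 * ε - ε ≤ ‖x t - z a.1‖) ∧
      Good P ε q ∧ 2 * cρ ε q ≤ ‖x σ - cd ε q‖ ∧ ‖x τ - cd ε q‖ ≤ cρ ε q := by
    intro a
    by_cases ha : a ∈ F
    · obtain ⟨b1, b2⟩ := Finset.mem_sigma.1 ha
      rw [Finset.mem_range] at b1
      obtain ⟨σ, τ, t, q, h⟩ := entry hε hs (hp _ b1) (hz _ b1) b2 (hA _ b1).1
        (fun i _ h => hx i (h.trans_le (hk _ b1).1)) (hA _ b1).2 (hk _ b1).2
      exact ⟨σ, τ, t, q, fun _ => h⟩
    · exact ⟨0, 0, 0, default, fun h => absurd h ha⟩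
  choose σ τ t qq hq using ex
  have ord : ∀ a ∈ F, ∀ b ∈ F, a.1 < b.1 ∨ (a.1 = b.1 ∧ b.2 < a.2) → τ a ≤ σ b := by
    intro a ha b hb h
    obtain ⟨⟨a1, a2, a3, a4⟩, ⟨a5, _, _, a8⟩, _⟩ := hq a ha
    obtain ⟨⟨b1, b2, b3, _⟩, ⟨_, b6, b7, _⟩, _⟩ := hq b hb
    rcases h with h | ⟨h1, h2⟩
    · have := hA2 _ _ h (Finset.mem_range.1 (Finset.mem_sigma.1 hb).1)
      omega
    · rw [← h1] at b1 b6 b7
      have c1 : (4 : ℝ) ^ (b.2 + 1) ≤ 4 ^ a.2 := pow_le_pow_right₀ (by norm_num) h2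
      rw [pow_succ] at c1
      have c2 := mul_le_mul_of_nonneg_right c1 hε.le
      have c3 := ((mem_Lv hε).1 (Finset.mem_filter.1 (Finset.mem_sigma.1 hb).2).1).1
      have c4 : t a ≤ t b := not_lt.1 fun hlt => by
        have := a5 (t b) (by omega) hlt
        linarith
      have c5 : t a ≤ σ b := not_lt.1 fun hlt => by
        have := b6 (t a) hlt c4
        linarith
      omega
  have tot : ∑ q ∈ Q, ((F.filter fun a => qq a = q).card : ℝ) =
      ∑ j ∈ Finset.range n, ((Gl P ε (prv z j) (z j)).card : ℝ) := by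
    have := Finset.card_eq_sum_card_fiberwise (s := F) (t := Q) (f := qq)
      fun a ha => (hQ _).2 (hq a ha).2.2.1
    rw [Finset.card_sigma] at this
    exact_mod_cast this.symm
  have swap : ∀ f : Finset ℂ → ℝ, ∑ C ∈ I, ((J C).card : ℝ) * f C =
      ∑ j ∈ Finset.range n, ∑ C ∈ En P ε (prv z j) (z j), f C := by
    intro f
    have e1 : ∀ C ∈ I, ((J C).card : ℝ) * f C = ∑ j ∈ J C, f C := fun C _ => by
      rw [Finset.sum_const, nsmul_eq_mul]
    rw [Finset.sum_congr rfl e1]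
    refine Finset.sum_comm' fun C j => ⟨fun ⟨h1, h2⟩ => ?_, fun ⟨h1, h2⟩ => ?_⟩
    · obtain ⟨b1, b2⟩ := Finset.mem_filter.1 h2
      exact ⟨mem_En.2 ⟨(hI C h1).1, b2⟩, b1⟩
    · obtain ⟨b1, b2⟩ := mem_En.1 h1
      have hj : j ∈ J C := Finset.mem_filter.2 ⟨h2, b2⟩
      exact ⟨Finset.mem_filter.2 ⟨Finset.mem_powerset.2 b1.sub, b1,
        Finset.card_pos.2 ⟨j, hj⟩⟩, hj⟩
  refine ⟨fun q => (F.filter fun a => qq a = q).card, fun q _ => ?_, ?_, ?_⟩
  · have a0 := le_cρ hε q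
    refine Cr.of_family (by linarith) σ τ _ N (fun a ha => ?_) (fun a ha b hb hne => ?_)
    · obtain ⟨h1, h2⟩ := Finset.mem_filter.1 ha
      obtain ⟨⟨_, a2, a3, a4⟩, _, _, a6, a7⟩ := hq a h1
      have := (hk _ (Finset.mem_range.1 (Finset.mem_sigma.1 h1).1)).1
      rw [h2] at a6 a7
      exact ⟨a2, by omega, a6, a7⟩
    · have h1 := (Finset.mem_filter.1 ha).1
      have h2 := (Finset.mem_filter.1 hb).1
      rcases lt_trichotomy a.1 b.1 with h | h | h
      · exact Or.inl (ord a h1 b h2 (Or.inl h))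
      · rcases lt_trichotomy a.2 b.2 with h' | h' | h'
        · exact Or.inr (ord b h2 a h1 (Or.inr ⟨h.symm, h'⟩))
        · exact absurd (Sigma.ext h (heq_of_eq h')) hne
        · exact Or.inl (ord a h1 b h2 (Or.inr ⟨h, h'⟩))
      · exact Or.inr (ord b h2 a h1 (Or.inl h))
  · rw [tot]
    calc (I.card : ℝ) = ∑ C ∈ I, (1 : ℝ) := by simp
      _ ≤ ∑ C ∈ I, ((J C).card : ℝ) * 1 := Finset.sum_le_sum fun C hC => by
        rw [mul_one]; exact_mod_cast (hI C hC).2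
      _ = _ := swap fun _ => 1
      _ ≤ _ := Finset.sum_le_sum fun j hj => by
        rw [Finset.sum_const, nsmul_eq_mul, mul_one]
        exact_mod_cast card_En hε (hp j (Finset.mem_range.1 hj))
  · rw [tot, swap fun C => Real.log (gp P C / 256 / (256 * dm ε C))]
    refine (Finset.sum_le_sum fun j hj => edge hε (hp j (Finset.mem_range.1 hj))).trans ?_
    rw [Finset.sum_add_distrib, Finset.sum_add_distrib, ← Finset.mul_sum, Finset.sum_const,
      Finset.card_range, nsmul_eq_mul]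
    have c0 : (0 : ℝ) ≤ ∑ j ∈ Finset.range n, ((Gl P ε (prv z j) (z j)).card : ℝ) :=
      Finset.sum_nonneg fun _ _ => Nat.cast_nonneg _
    have c1 : (0 : ℝ) ≤ n := Nat.cast_nonneg _
    linarith

end Pool.Agent.MP_990230_pr.K8

end
end MrgPart2

-- ======== part 3: formerly Pool.Agent.MP_990230_pr.k8.Boot
section MrgPart3

/-! # SLE8: the bootstrap for the sharp crossing exponents -/

open Set MeasureTheory
open scoped ENNReal

noncomputable section

namespace Pool.Agent.MP_990230_pr.K8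

/-- a class of windows closed under passing to sub-layers. -/
def Her (T : ℂ → ℝ → ℝ → Prop) : Prop :=
  ∀ c r R r' R', T c r R → r ≤ r' → R' ≤ R → T c r' R'

/-- the exponent `x` for `m` crossings in the class `T`. -/
def Ex (S : Set Stp) (T : ℂ → ℝ → ℝ → Prop) (m : ℕ) (x : ℝ) : Prop :=
  ∃ K : ℝ, 1 ≤ K ∧ ∀ (c : ℂ) (r W : ℝ), 0 < r → 0 ≤ W → T c r (r * Real.exp W) →
    VB S c r (r * Real.exp W) m (K * Real.exp (-(x * W)))

theorem lay_mono {r w : ℝ} (hr : 0 < r) (hw : 0 ≤ w) :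
    Monotone fun j : ℕ => r * Real.exp (j * w) := fun i j hij => by
  have : (i : ℝ) ≤ j := by exact_mod_cast hij
  show r * Real.exp (i * w) ≤ r * Real.exp (j * w)
  gcongr

theorem lay_succ (r w : ℝ) (j : ℕ) :
    r * Real.exp ((j + 1 : ℕ) * w) = r * Real.exp (j * w) * Real.exp w := by
  rw [mul_assoc, ← Real.exp_add]; congr 2; push_cast; ring

theorem measurableSet_clean (N m : ℕ) (c : ℂ) (r w : ℝ) (L : ℕ) :
    MeasurableSet {x | Clean x N m c r w L} := by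
  have e : {x | Clean x N m c r w L} = {x | Cr x N m c r (r * Real.exp (L * w))} ∩
      ⋂ j ∈ {j | j < L}, {x | Cr x N (m + 1) c (r * Real.exp ((j : ℕ) * w))
        (r * Real.exp ((j + 1 : ℕ) * w))}ᶜ := by
    ext x; simp only [Clean, mem_inter_iff, mem_iInter]; rfl
  rw [e]
  exact (measurableSet_cr _ _ _ _ _).inter
    (MeasurableSet.biInter (to_countable _) fun j _ => (measurableSet_cr _ _ _ _ _).compl)

theorem exists_big {K d : ℝ} (hd : 0 < d) (w0 : ℝ) :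
    ∃ w, w0 ≤ w ∧ 0 < w ∧ K * Real.exp (-(d * w)) ≤ 1 / 2 := by
  refine ⟨max (max w0 1) (2 * K / d), (le_max_left _ _).trans (le_max_left _ _),
    one_pos.trans_le ((le_max_right _ _).trans (le_max_left _ _)), ?_⟩
  set w := max (max w0 1) (2 * K / d)
  have h1 : 2 * K ≤ d * w := by
    have : 2 * K / d ≤ w := le_max_right _ _
    rw [div_le_iff₀ hd] at this; linarith
  have h2 := Real.add_one_le_exp (d * w)
  rw [Real.exp_neg, ← div_eq_mul_inv, div_le_iff₀ (Real.exp_pos _)]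
  linarith

theorem zero_notMem_ring {c : ℂ} {r R : ℝ} (hr : 0 < r) (hR : 0 < R) (h : Ty c r R) :
    (0 : ℂ) ∉ ring c r R := fun h0 => by
  have h1 : r < ‖c‖ := by simpa using h0.1
  have h2 : ‖c‖ < R := by simpa using h0.2
  rcases h with h | ⟨_, h | h⟩
  · linarith [Complex.im_le_norm c]
  · linarith
  · linarith

variable {S : Set Stp} (hS : ∀ p ∈ S, p.Ok) {T : ℂ → ℝ → ℝ → Prop}
include hS

theorem Ex.anti {m : ℕ} {x y : ℝ} (H : Ex S T m x) (h : y ≤ x) : Ex S T m y := by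
  obtain ⟨K, hK, H⟩ := H
  refine ⟨K, hK, fun c r W hr hW hT => (H c r W hr hW hT).mono hS le_rfl le_rfl le_rfl ?_⟩
  have := mul_le_mul_of_nonneg_right h hW
  gcongr

theorem Ex.zero (m : ℕ) : Ex S T m 0 :=
  ⟨1, le_rfl, fun c r W _ _ _ => VB.one hS _ _ _ _ (by simp)⟩

omit hS in
theorem Ex.sub {T' : ℂ → ℝ → ℝ → Prop} {m : ℕ} {x : ℝ} (H : Ex S T m x)
    (h : ∀ c r R, T' c r R → T c r R) : Ex S T' m x := by
  obtain ⟨K, hK, H⟩ := H
  exact ⟨K, hK, fun c r W hr hW hT => H c r W hr hW (h _ _ _ hT)⟩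

theorem vb_floor (hT : Her T) {m : ℕ} {W0 B : ℝ} (h0 : 0 < W0) (hB : 0 ≤ B)
    (H : ∀ c r, 0 < r → T c r (r * Real.exp W0) → VB S c r (r * Real.exp W0) m B)
    {c : ℂ} {r W : ℝ} (hr : 0 < r) (hW : 0 ≤ W) (h : T c r (r * Real.exp W)) :
    ∃ n : ℕ, W < (n + 1) * W0 ∧ VB S c r (r * Real.exp W) m (B ^ n) := by
  have a1 : (⌊W / W0⌋₊ : ℝ) * W0 ≤ W := (le_div_iff₀ h0).1 (Nat.floor_le (by positivity))
  have a2 : W < (⌊W / W0⌋₊ + 1) * W0 := (div_lt_iff₀ h0).1 (Nat.lt_floor_add_one _)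
  have mono := lay_mono hr h0.le
  have e0 : r ≤ r * Real.exp ((0 : ℕ) * W0) := by simp
  have e1 : r * Real.exp (⌊W / W0⌋₊ * W0) ≤ r * Real.exp W := by gcongr
  refine ⟨_, a2, VB.layers hS mono _ m hB (fun j hj => ?_) e0 e1⟩
  have h1 := hT _ _ _ _ _ h (e0.trans (mono (Nat.zero_le j))) ((mono hj).trans e1)
  simp only [lay_succ] at h1 ⊢
  exact H _ _ (by positivity) h1

theorem ex_of_one (hT : Her T) {m : ℕ} {W0 x : ℝ} (h0 : 0 < W0) (hx : 0 ≤ x)
    (H : ∀ c r, 0 < r → T c r (r * Real.exp W0) →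
      VB S c r (r * Real.exp W0) m (Real.exp (-(x * W0)))) : Ex S T m x := by
  refine ⟨Real.exp (x * W0), Real.one_le_exp (by positivity), fun c r W hr hW h => ?_⟩
  obtain ⟨n, h1, h2⟩ := vb_floor hS hT h0 (Real.exp_pos _).le H hr hW h
  refine h2.mono hS le_rfl le_rfl le_rfl ?_
  rw [← Real.exp_nat_mul, ← Real.exp_add]
  exact Real.exp_le_exp.2 (by nlinarith)

/-- MANY. -/
theorem many (H : Rows S) {del : ℝ} (hd : 0 ≤ del) : ∃ m0 : ℕ, ∀ m, m0 ≤ m →
    Ex S Ty m (del * m) ∧ ∀ (c : ℂ) (r W : ℝ), 0 < r → Real.log 2 ≤ W →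
      Ty c r (r * Real.exp W) → VB S c r (r * Real.exp W) m (Real.exp (-(del * m * W))) := by
  obtain ⟨C, hC, H⟩ := H (2 * del * Real.log 2 + 1)
  obtain ⟨m0, hm0⟩ := exists_nat_ge C
  have l2 : 0 < Real.log 2 := Real.log_pos one_lt_two
  have hT : Her Ty := fun _ _ _ _ _ h h1 h2 => h.mono h1 h2
  refine ⟨m0, fun m hm => ?_⟩
  have hm' : (0 : ℝ) ≤ m := Nat.cast_nonneg m
  have H1 : ∀ c r, 0 < r → Ty c r (r * Real.exp (Real.log 2)) →
      VB S c r (r * Real.exp (Real.log 2)) m (Real.exp (-(2 * (del * m) * Real.log 2))) := by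
    intro c r hr h
    rw [Real.exp_log two_pos, mul_comm r 2] at h ⊢
    refine (H c r m hr (zero_notMem_ring hr (by positivity) h)).mono hS le_rfl le_rfl le_rfl ?_
    have a1 : C ≤ Real.exp m := by
      have : (m0 : ℝ) ≤ m := by exact_mod_cast hm
      linarith [Real.add_one_le_exp (m : ℝ)]
    refine (mul_le_mul_of_nonneg_right a1 (Real.exp_pos _).le).trans (le_of_eq ?_)
    rw [← Real.exp_add]; congr 1; ring
  refine ⟨(ex_of_one hS hT l2 (by positivity) H1).anti hS (by nlinarith [mul_nonneg hd hm']),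
    fun c r W hr hW h => ?_⟩
  obtain ⟨n, h1, h2⟩ := vb_floor hS hT l2 (Real.exp_pos _).le H1 hr (l2.le.trans hW) h
  refine h2.mono hS le_rfl le_rfl le_rfl ?_
  have n1 : (1 : ℝ) ≤ n := by
    have : (0 : ℝ) < n := by nlinarith
    exact_mod_cast this
  rw [← Real.exp_nat_mul]
  have : W ≤ 2 * n * Real.log 2 := by nlinarith
  exact Real.exp_le_exp.2 (by nlinarith [mul_nonneg hd hm'])

/-- one step of the bootstrap. -/
theorem boot_step (hT : Her T) {m L : ℕ} {del σ C w0 x : ℝ} (hd : 0 < del) (hσ : 0 < σ)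
    (hL : 0 < L) (hC : 2 * C ≤ σ * L)
    (hcl : ∀ w : ℝ, w0 ≤ w → ∀ (c : ℂ) (r : ℝ), 0 < r → T c r (r * Real.exp (L * w)) →
      Bnd S (ring c r (r * Real.exp (L * w))) (fun N x => ind (Clean x N m c r w L))
        (ENNReal.ofReal (Real.exp (C * w - (del * m + σ) * (L * w)))))
    (H1 : Ex S T (m + 1) (del * (m + 1 : ℕ))) (H : Ex S T m x) (hx0 : 0 ≤ x) (hx : x ≤ del * m) :
    Ex S T m (x + min (σ / 4) (del / (2 * L))) := by
  obtain ⟨K1, hK1, H1⟩ := H1
  obtain ⟨K2, hK2, H⟩ := H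
  set s := min (σ / 4) (del / (2 * L)) with hs
  have hL' : (1 : ℝ) ≤ L := by exact_mod_cast hL
  have s0 : 0 < s := lt_min (by positivity) (by positivity)
  have s1 : s ≤ σ / 4 := min_le_left _ _
  have s2 : s * L ≤ del / 2 := by
    have : s ≤ del / (2 * L) := min_le_right _ _
    rw [le_div_iff₀ (by positivity)] at this; linarith
  obtain ⟨w1, a1, a2, a3⟩ := exists_big (K := 1) (d := σ / 4) (by positivity) w0
  obtain ⟨w, b1, b2, b3⟩ := exists_big (K := L * (K1 * K2) ^ L) (d := del / 2) (by positivity) w1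
  refine ex_of_one hS hT (W0 := L * w) (by positivity) (by positivity) fun c r hr h => ?_
  have mono := lay_mono hr b2.le
  have e0 : r ≤ r * Real.exp ((0 : ℕ) * w) := by simp
  have h2 : ∀ j0 ∈ Finset.range L, Bnd S (ring c r (r * Real.exp (L * w)))
      (fun N x => ind (∀ j < L, Cr x N (if j = j0 then m + 1 else m) c
        (r * Real.exp ((j : ℕ) * w)) (r * Real.exp ((j + 1 : ℕ) * w))))
      (ENNReal.ofReal ((K1 * K2 * Real.exp (-(x * w))) ^ L * Real.exp (-(del * w)))) := by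
    intro j0 hj0
    have := bnd_layers hS (c := c) mono L (fun j => if j = j0 then m + 1 else m)
      (B := fun j => K1 * K2 * Real.exp (-(x * w)) * if j = j0 then Real.exp (-(del * w)) else 1)
      (fun j => by split_ifs <;> positivity) (fun j hj => by
        have h1 := hT _ _ _ _ _ h (e0.trans (mono (Nat.zero_le j))) (mono hj)
        simp only [lay_succ] at h1 ⊢
        split_ifs
        · refine (H1 _ _ w (by positivity) b2.le h1).mono hS le_rfl le_rfl le_rfl ?_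
          rw [mul_assoc (K1 * K2), ← Real.exp_add]
          refine mul_le_mul (by nlinarith) (Real.exp_le_exp.2 ?_) (by positivity) (by positivity)
          push_cast; nlinarith
        · refine (H _ _ w (by positivity) b2.le h1).mono hS le_rfl le_rfl le_rfl ?_
          rw [mul_one]
          exact mul_le_mul_of_nonneg_right (by nlinarith) (by positivity)) e0 le_rfl
    rwa [Finset.prod_mul_distrib, Finset.prod_const, Finset.card_range, Finset.prod_ite_eq',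
      if_pos hj0] at this
  have mY : ∀ j0 : ℕ, Pay.Meas fun N x => ind (∀ j < L, Cr x N (if j = j0 then m + 1 else m) c
      (r * Real.exp ((j : ℕ) * w)) (r * Real.exp ((j + 1 : ℕ) * w))) := fun j0 N => by
    refine measurable_ind ?_
    rw [show ∀ P : ℕ → (ℕ → ℂ) → Prop, {x | ∀ j < L, P j x} = ⋂ j ∈ {j | j < L}, {x | P j x} from
      fun P => by ext x; simp]
    exact MeasurableSet.biInter (to_countable _) fun j _ => measurableSet_cr _ _ _ _ _
  have h3 := Bnd.add hS (measurableSet_ring _ _ _)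
    (fun N => measurable_ind (measurableSet_clean N m c r w L)) (hcl w (a1.trans b1) c r hr h)
    (Bnd.sum hS _ (measurableSet_ring _ _ _) mY h2)
  refine h3.mono' hS subset_rfl ?_ fun N y => ind_le fun hc => ?_
  · rw [Finset.sum_const, Finset.card_range, nsmul_eq_mul, ← ENNReal.ofReal_natCast,
      ← ENNReal.ofReal_mul (by positivity), ← ENNReal.ofReal_add (by positivity) (by positivity)]
    refine ENNReal.ofReal_le_ofReal ?_
    have c1 : Real.exp (C * w - (del * m + σ) * (L * w)) ≤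
        Real.exp (-((x + s) * (L * w))) * (1 / 2) := by
      refine le_trans ?_ (mul_le_mul_of_nonneg_left a3 (Real.exp_pos _).le)
      rw [one_mul, ← Real.exp_add]
      refine Real.exp_le_exp.2 ?_
      have d1 : x * (L * w) ≤ del * m * (L * w) := mul_le_mul_of_nonneg_right hx (by positivity)
      have d2 : s * (L * w) ≤ σ / 4 * (L * w) := mul_le_mul_of_nonneg_right s1 (by positivity)
      have d3 : 2 * C * w ≤ σ * L * w := mul_le_mul_of_nonneg_right hC b2.le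
      have d4 : w1 ≤ L * w := by nlinarith
      have d5 : σ / 4 * w1 ≤ σ / 4 * (L * w) := mul_le_mul_of_nonneg_left d4 (by positivity)
      nlinarith
    have c2 : L * ((K1 * K2 * Real.exp (-(x * w))) ^ L * Real.exp (-(del * w))) ≤
        Real.exp (-((x + s) * (L * w))) * (1 / 2) := by
      refine le_trans ?_ (mul_le_mul_of_nonneg_left b3 (Real.exp_pos _).le)
      rw [mul_pow, ← Real.exp_nat_mul, mul_assoc, ← Real.exp_add, ← mul_assoc, mul_left_comm,
        ← Real.exp_add]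
      refine mul_le_mul_of_nonneg_left (Real.exp_le_exp.2 ?_) (by positivity)
      nlinarith [mul_le_mul_of_nonneg_right s2 b2.le]
    linarith
  · by_cases hcl : Clean y N m c r w L
    · rw [ind_pos hcl]; exact le_self_add
    · obtain ⟨j0, hj0, h4⟩ : ∃ j0 < L, Cr y N (m + 1) c (r * Real.exp ((j0 : ℕ) * w))
          (r * Real.exp ((j0 + 1 : ℕ) * w)) := by
        by_contra hn
        exact hcl ⟨hc, fun j hj h' => hn ⟨j, hj, h'⟩⟩
      refine le_trans ?_ le_add_self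
      refine le_trans (ind_pos fun j hj => ?_).ge (Finset.single_le_sum
        (f := fun j0 => ind (∀ j < L, Cr y N (if j = j0 then m + 1 else m) c
          (r * Real.exp ((j : ℕ) * w)) (r * Real.exp ((j + 1 : ℕ) * w))))
        (fun _ _ => zero_le) (Finset.mem_range.2 hj0))
      split_ifs with e
      · exact e ▸ h4
      · exact hc.mono le_rfl le_rfl (e0.trans (mono (Nat.zero_le j))) (mono hj)

/-- BOOT. -/
theorem boot (hT : Her T) {m : ℕ} {del : ℝ} (hd : 0 < del) (hm : 1 ≤ m) (hcl : CleanSt S del)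
    (hTy : ∀ c r R, T c r R → Ty c r R ∧ (2 ≤ m ∨ c.im = 0))
    (H1 : Ex S T (m + 1) (del * (m + 1 : ℕ))) : Ex S T m (del * m) := by
  obtain ⟨σ, C, w0, hσ, hcl⟩ := hcl m hm
  obtain ⟨L, hL⟩ := exists_nat_gt (max 0 (2 * C / σ))
  have hL0 : 0 < L := by exact_mod_cast (le_max_left _ _).trans_lt hL
  have hC : 2 * C ≤ σ * L := by
    have := ((le_max_right _ _).trans_lt hL).le
    rw [div_le_iff₀ hσ] at this; linarith
  set s := min (σ / 4) (del / (2 * L))
  have s0 : 0 < s := lt_min (by positivity) (by positivity)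
  have key : ∀ n : ℕ, Ex S T m (min (del * m) (n * s)) := by
    intro n
    induction n with
    | zero => exact (Ex.zero hS m).anti hS (by simp)
    | succ n ih =>
      refine (boot_step hS hT hd hσ hL0 hC (fun w hw c r hr h =>
        hcl w hw L c r hr (hTy _ _ _ h).1 (hTy _ _ _ h).2) H1 ih
        (le_min (by positivity) (by positivity)) (min_le_left _ _)).anti hS ?_
      show min (del * m) ((n + 1 : ℕ) * s) ≤ min (del * m) (n * s) + s
      rw [← min_add_add_right]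
      exact min_le_min (by linarith) (by push_cast; linarith)
  obtain ⟨n, hn⟩ := exists_nat_ge (del * m / s)
  rw [div_le_iff₀ s0] at hn
  exact (key n).anti hS (le_min le_rfl hn)

/-- one crossing of an interior ring. -/
theorem boot_one {del : ℝ} (hd : 0 < del) (hM : M1St S del) (H2 : Ex S Ty 2 (del * (2 : ℕ))) :
    Ex S (fun c _ R => 256 * R ≤ c.im) 1 (del * (1 : ℕ)) := by
  obtain ⟨K2, hK2, H2⟩ := H2
  obtain ⟨w0, hM⟩ := hM
  obtain ⟨w, a1, a2, a3⟩ := exists_big (K := K2) hd w0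
  obtain ⟨C, hC, hM⟩ := hM w a1
  have e1 := Real.one_le_exp (by positivity : 0 ≤ del * w)
  set K := 2 * C + Real.exp (del * w) with hK
  have key : ∀ n : ℕ, ∀ (c : ℂ) (r W : ℝ), 0 < r → W ≤ (n + 1) * w →
      256 * (r * Real.exp W) ≤ c.im →
      VB S c r (r * Real.exp W) 1 (K * Real.exp (-(del * W))) := by
    have triv : ∀ (c : ℂ) (r W : ℝ), W ≤ w →
        VB S c r (r * Real.exp W) 1 (K * Real.exp (-(del * W))) := fun c r W hW => by
      refine VB.one hS _ _ _ _ (le_trans ?_ (mul_le_mul_of_nonneg_right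
        (show Real.exp (del * w) ≤ K by linarith) (Real.exp_pos _).le))
      rw [← Real.exp_add]
      exact Real.one_le_exp (by nlinarith)
    intro n
    induction n with
    | zero => exact fun c r W _ hW _ => triv c r W (by simpa using hW)
    | succ n ih =>
      intro c r W hr hW h
      by_cases hw : W ≤ w
      · exact triv c r W hw
      have hw := (not_le.1 hw).le
      have q1 : r * Real.exp W * Real.exp (-w) = r * Real.exp (W - w) := by
        rw [mul_assoc, ← Real.exp_add]; rfl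
      have q2 : r * Real.exp (W - w) * Real.exp w = r * Real.exp W := by
        rw [mul_assoc, ← Real.exp_add, sub_add_cancel]
      have q3 : r * Real.exp (W - w) ≤ r * Real.exp W := by gcongr; linarith
      have q4 : r ≤ r * Real.exp (W - w) :=
        le_mul_of_one_le_right hr.le (Real.one_le_exp (by linarith))
      have h1 := hM c r (r * Real.exp W) hr (by gcongr) h
      have h2 := ih c r (W - w) hr (by push_cast at hW; linarith) (by linarith)
      have h3 := H2 c (r * Real.exp (W - w)) w (by positivity) a2.le (Or.inl (by rwa [q2]))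
      rw [q2] at h3
      rw [q1] at h1
      have h4 := (Bnd.mul hS (measurableSet_ring _ _ _) (measurableSet_ring _ _ _)
        (meas_cr _ _ _ _) (meas_cr _ _ _ _) (ring_disj c le_rfl) h2 h3).mono' hS
        (union_subset (ring_mono le_rfl q3) (ring_mono q4 le_rfl)) le_rfl fun _ _ => le_rfl
      have h5 := Bnd.add hS (measurableSet_ring _ _ _) (fun N => measurable_ind
        ((measurableSet_cr _ _ _ _ N).inter (measurableSet_cr _ _ _ _ N).compl)) h1 h4
      refine h5.mono' hS subset_rfl ?_ fun N y => ind_le fun hc => ?_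
      · rw [← ENNReal.ofReal_mul (by positivity),
          ← ENNReal.ofReal_add (by positivity) (by positivity)]
        refine ENNReal.ofReal_le_ofReal ?_
        have f1 : (r / (r * Real.exp W)) ^ del = Real.exp (-(del * W)) := by
          rw [← div_div, div_self hr.ne', one_div, ← Real.exp_neg, ← Real.exp_mul]
          congr 1; ring
        have f2 : Real.exp (-(del * (W - w))) * Real.exp (-(del * (2 : ℕ) * w)) =
            Real.exp (-(del * W)) * Real.exp (-(del * w)) := by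
          rw [← Real.exp_add, ← Real.exp_add]; congr 1; push_cast; ring
        have f3 : K * Real.exp (-(del * (W - w))) * (K2 * Real.exp (-(del * (2 : ℕ) * w))) =
            K * Real.exp (-(del * W)) * (K2 * Real.exp (-(del * w))) := by
          linear_combination K * K2 * f2
        rw [f1, f3]
        have f4 := mul_le_mul_of_nonneg_left a3
          (by positivity : 0 ≤ K * Real.exp (-(del * W)))
        have f5 : 2 * C * Real.exp (-(del * W)) ≤ K * Real.exp (-(del * W)) :=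
          mul_le_mul_of_nonneg_right (by linarith) (Real.exp_pos _).le
        linarith
      · by_cases h6 : Cr y N 2 c (r * Real.exp (W - w)) (r * Real.exp W)
        · rw [ind_pos h6, ind_pos (hc.mono le_rfl le_rfl le_rfl q3), mul_one]; exact le_add_self
        · exact le_trans (ind_pos (And.intro hc h6)).ge le_self_add
  refine ⟨K, by linarith, fun c r W hr _ h => ?_⟩
  obtain ⟨n, hn⟩ := exists_nat_ge (W / w)
  rw [div_le_iff₀ a2] at hn
  simpa using key n c r W hr (by nlinarith) h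

/-- SH. -/
theorem sh {del : ℝ} (hd : 0 < del) (hR : Rows S) (hcl : CleanSt S del) (hM : M1St S del) :
    SHSt S del := by
  obtain ⟨m0, hm0⟩ := many hS hR hd.le
  have hT : Her Ty := fun _ _ _ _ _ h h1 h2 => h.mono h1 h2
  have k2 : ∀ d m : ℕ, 2 ≤ m → m0 ≤ m + d → Ex S Ty m (del * m) := by
    intro d
    induction d with
    | zero => exact fun m _ h => (hm0 m h).1
    | succ d ih =>
      exact fun m h2 h => boot hS hT hd (by omega) hcl (fun _ _ _ h => ⟨h, Or.inl h2⟩)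
        (ih (m + 1) (by omega) (by omega))
  have k1 : Ex S Ty 1 (del * (1 : ℕ)) := by
    have a := k2 m0 2 le_rfl (by omega)
    obtain ⟨K1, hK1, H1⟩ := boot_one hS hd hM a
    obtain ⟨K2, hK2, H2⟩ := boot hS (T := fun c r R => Ty c r R ∧ c.im = 0)
      (fun _ _ _ _ _ h h1 h2 => ⟨h.1.mono h1 h2, h.2⟩) hd le_rfl hcl
      (fun _ _ _ h => ⟨h.1, Or.inr h.2⟩) (a.sub fun _ _ _ h => h.1)
    refine ⟨K1 * K2, by nlinarith, fun c r W hr hW h => ?_⟩
    rcases h with h | h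
    · exact (H1 c r W hr hW h).mono hS le_rfl le_rfl le_rfl
        (mul_le_mul_of_nonneg_right (by nlinarith) (Real.exp_pos _).le)
    · exact (H2 c r W hr hW ⟨Or.inr h, h.1⟩).mono hS le_rfl le_rfl le_rfl
        (mul_le_mul_of_nonneg_right (by nlinarith) (Real.exp_pos _).le)
  have k : ∀ m : ℕ, Ex S Ty (m + 1) (del * (m + 1 : ℕ)) := fun m => by
    rcases Nat.eq_zero_or_pos m with rfl | h
    · exact k1
    · exact k2 m0 _ (by omega) (by omega)
  choose K hK H using k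
  have s0 : 0 ≤ ∑ j ∈ Finset.range m0, K j :=
    Finset.sum_nonneg fun j _ => zero_le_one.trans (hK j)
  refine ⟨1 + ∑ j ∈ Finset.range m0, K j, by linarith, fun c r R m hr hR hm h => ?_⟩
  have hR0 : 0 < R := by linarith
  have e : R = r * Real.exp (Real.log (R / r)) := by
    rw [Real.exp_log (by positivity)]; field_simp
  have hW : Real.log 2 ≤ Real.log (R / r) :=
    Real.log_le_log two_pos (by rwa [le_div_iff₀ hr])
  have e2 : (r / R) ^ (del * m) = Real.exp (-(del * m * Real.log (R / r))) := by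
    rw [Real.rpow_def_of_pos (by positivity), ← inv_div R r, Real.log_inv]
    congr 1; ring
  rw [e2]
  generalize Real.log (R / r) = W at e hW
  subst e
  by_cases hm' : m0 ≤ m
  · exact ((hm0 m hm').2 c r W hr hW h).mono hS le_rfl le_rfl le_rfl
      (le_mul_of_one_le_left (Real.exp_pos _).le (by linarith))
  · obtain ⟨j, rfl⟩ : ∃ j, m = j + 1 := ⟨m - 1, by omega⟩
    refine (H j c r W hr ((Real.log_pos one_lt_two).le.trans hW) h).mono hS le_rfl le_rfl le_rfl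
      (mul_le_mul_of_nonneg_right ?_ (Real.exp_pos _).le)
    linarith [Finset.single_le_sum (f := K) (fun j _ => zero_le_one.trans (hK j))
      (Finset.mem_range.2 (show j < m0 by omega))]

end Pool.Agent.MP_990230_pr.K8

end
end MrgPart3

-- ======== part 4: formerly Pool.Agent.MP_990230_pr.k8.Glob
section MrgPart4

/-! # SLE8: the global estimate from windows and cells -/

open Set MeasureTheory
open scoped ENNReal

noncomputable section

namespace Pool.Agent.MP_990230_pr.K8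

theorem trunc_sum {ι : Type*} (Q : Finset ι) (e : ι → ℕ) (M : ℕ) :
    ∑ q ∈ Q, ((min (e q) M : ℕ) : ℝ) = ∑ q ∈ Q, (e q : ℝ) ∨
      (M : ℝ) ≤ ∑ q ∈ Q, ((min (e q) M : ℕ) : ℝ) := by
  by_cases h : ∀ q ∈ Q, e q ≤ M
  · exact Or.inl (Finset.sum_congr rfl fun q hq => by rw [min_eq_left (h q hq)])
  · push Not at h
    obtain ⟨q, hq, h⟩ := h
    have := Finset.single_le_sum (f := fun q => ((min (e q) M : ℕ) : ℝ))
      (fun _ _ => Nat.cast_nonneg _) hq
    rw [min_eq_right h.le] at this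
    exact Or.inr this

variable {S : Set Stp} (hS : ∀ p ∈ S, p.Ok)
include hS

/-- GLOB. -/
theorem glob {del : ℝ} (hd : 0 < del) (hG : GeoStmt) (hR : Rows S) (hSH : SHSt S del) :
    GlobSt S del := by
  obtain ⟨Cg, hCg, hG⟩ := hG
  obtain ⟨K, hK, hSH⟩ := hSH
  have lK := Real.log_nonneg hK
  set β := 50 * (del * Cg + Real.log K) with hβ
  have hβ0 : 0 < β := by positivity
  obtain ⟨C1, hC1, hR⟩ := hR (2 * β)
  set D := max 1 (C1 / (1 - Real.exp (-β)))
  have hD : 1 ≤ D := le_max_left _ _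
  have lD := Real.log_nonneg hD
  refine ⟨50 * Real.exp (del * Cg + Cg * Real.log D), by positivity, fun n z hn hz hne => ?_⟩
  obtain ⟨ε0, h0, hG⟩ := hG n z hn hz
  refine ⟨ε0, h0, fun ε hε hε0 => ?_⟩
  obtain ⟨I, c, r, R, m, Q, d, ρ, col, cQ, hI, dI, hQ, dQ, dQI, hx⟩ := hG ε hε hε0
  set Sz := ∑ j ∈ Finset.range n, Real.log (‖z j - prv z j‖ / ε) with hSz
  set Sw := ∑ i ∈ I, (m i : ℝ) * Real.log (R i / r i) with hSw
  have Sw0 : 0 ≤ Sw := Finset.sum_nonneg fun i hi => mul_nonneg (Nat.cast_nonneg _)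
    (Real.log_nonneg (by
      have := (hI i hi).1
      rw [le_div_iff₀ (by linarith)]; linarith [(hI i hi).2.1]))
  obtain ⟨M, hM⟩ := exists_nat_ge (max (I.card : ℝ) (Sz / Cg))
  have M1 : (I.card : ℝ) ≤ M := (le_max_left _ _).trans hM
  have M2 : Sz ≤ Cg * M := by
    have := (le_max_right _ _).trans hM
    rw [div_le_iff₀ hCg] at this; linarith
  have h1 := Bnd.prod hS I (R := fun i => ring (c i) (r i) (R i))
    (fun i => measurableSet_ring _ _ _) (fun i => meas_cr (c i) (r i) (R i) (m i)) dI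
    fun i hi => hSH (c i) (r i) (R i) (m i) (hε.trans_le (hI i hi).1) (hI i hi).2.1
      (hI i hi).2.2.1 (hI i hi).2.2.2
  have mQ : MeasurableSet (⋃ q ∈ Q, ring (d q) (ρ q) (2 * ρ q)) :=
    Finset.measurableSet_biUnion _ fun _ _ => measurableSet_ring _ _ _
  have mI : MeasurableSet (⋃ i ∈ I, ring (c i) (r i) (R i)) :=
    Finset.measurableSet_biUnion _ fun _ _ => measurableSet_ring _ _ _
  have h2 := bnd_Zc hS Q (Finset.range 50) col mQ
    (Y := fun q => rew β M (d q) (ρ q) (2 * ρ q)) (R := fun q => ring (d q) (ρ q) (2 * ρ q))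
    (fun _ => measurableSet_ring _ _ _) (fun _ => meas_rew _ _ _ _ _)
    (fun q hq => subset_biUnion_of_mem (u := fun q => ring (d q) (ρ q) (2 * ρ q)) hq) dQ
    (ENNReal.one_le_ofReal.2 hD) fun q hq =>
      (bnd_rew hS hβ0 (by linarith) M fun k => hR (d q) (ρ q) k (hε.trans_le (hQ q hq).2.1)
        fun h => by
          have : ‖d q‖ < 2 * ρ q := by simpa using h.2
          linarith [(hQ q hq).2.2]).mono' hS subset_rfl
        (ENNReal.ofReal_le_ofReal (le_max_right _ _)) fun _ _ => le_rfl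
  have mY1 : Pay.Meas fun N x => ∏ i ∈ I, ind (Cr x N (m i) (c i) (r i) (R i)) :=
    fun N => Finset.measurable_prod _ fun i _ => meas_cr _ _ _ _ N
  have mY2 := meas_Zc Q (Finset.range 50) col
    (Y := fun q => rew β M (d q) (ρ q) (2 * ρ q)) fun _ => meas_rew _ _ _ _ _
  have h3 := (Bnd.mul hS mI mQ mY1 mY2 (disjoint_iUnion₂_left.2 fun i hi =>
    disjoint_iUnion₂_right.2 fun q hq => dQI q hq i hi) h1 h2).smul hS (mI.union mQ)
    (fun N => (mY1 N).mul (mY2 N))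
    (ENNReal.ofReal (Real.exp (del * (Cg * n - Sz + Sw) - I.card * Real.log K)))
  refine h3.mono hS (subset_univ _) ?_ hε fun N x hx' => ind_le fun ⟨k, k1, k2⟩ => ?_
  · have e1 : ∏ i ∈ I, K * (r i / R i) ^ (del * m i) =
        Real.exp (I.card * Real.log K - del * Sw) := by
      rw [hSw, Finset.mul_sum, ← nsmul_eq_mul, ← Finset.sum_const, ← Finset.sum_sub_distrib,
        Real.exp_sum]
      refine Finset.prod_congr rfl fun i hi => ?_
      have a1 := hε.trans_le (hI i hi).1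
      have a2 : 0 < R i := by linarith [(hI i hi).2.1]
      rw [Real.rpow_def_of_pos (by positivity), ← inv_div (R i) (r i), Real.log_inv,
        sub_eq_add_neg, Real.exp_add, Real.exp_log (by linarith)]
      congr 2; ring
    have e2 : ∏ j ∈ Finset.range n, (ε / ‖z j - prv z j‖) ^ del = Real.exp (-(del * Sz)) := by
      rw [hSz, Finset.mul_sum, ← Finset.sum_neg_distrib, Real.exp_sum]
      refine Finset.prod_congr rfl fun j hj => ?_
      have a1 : 0 < ‖z j - prv z j‖ :=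
        norm_pos_iff.2 (sub_ne_zero.2 (hne j (Finset.mem_range.1 hj)))
      rw [Real.rpow_def_of_pos (by positivity), ← inv_div _ ε, Real.log_inv]
      congr 1; ring
    rw [← ENNReal.ofReal_prod_of_nonneg fun i hi => by
        have a1 := hε.trans_le (hI i hi).1
        have a2 : 0 < R i := by linarith [(hI i hi).2.1]
        positivity, e1, e2, Finset.card_range, ← ENNReal.ofReal_pow (by linarith),
      ← ENNReal.ofReal_natCast, ← ENNReal.ofReal_mul (by positivity),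
      ← ENNReal.ofReal_mul (by positivity), ← ENNReal.ofReal_mul (by positivity)]
    refine ENNReal.ofReal_le_ofReal ?_
    have a1 : D ^ Q.card ≤ Real.exp (n * (Cg * Real.log D)) := by
      rw [← Real.exp_log (by linarith : 0 < D), ← Real.exp_nat_mul, Real.log_exp]
      exact Real.exp_le_exp.2 (by nlinarith)
    have a2 : ((50 : ℕ) : ℝ) ≤ 50 ^ n := by
      exact_mod_cast le_self_pow₀ (by norm_num) (by omega)
    rw [mul_pow, ← Real.exp_nat_mul, ← mul_assoc, ← Real.exp_add, mul_assoc, ← Real.exp_add]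
    refine (mul_le_mul_of_nonneg_left (mul_le_mul a2 a1 (by positivity) (by positivity))
      (Real.exp_pos _).le).trans (le_of_eq ?_)
    rw [mul_left_comm, ← Real.exp_add]
    congr 2; ring
  · obtain ⟨a1, e, a2, a3, a4⟩ := hx x N k hx'.step (hx'.zero.trans (by linarith)) k1 k2
    rw [Finset.prod_eq_one fun i hi => ind_pos (a1 i hi), one_mul]
    have h4 := le_Zc (Q := Q) (J := Finset.range 50) (col := col)
      (Y := fun q => rew β M (d q) (ρ q) (2 * ρ q))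
      (fun q hq => Finset.mem_range.2 (hQ q hq).1) ⟨0, by simp⟩
      (fun q => β * (min (e q) M : ℕ)) (N := N) (x := x)
      fun q hq => le_rew ((a2 q hq).mono le_rfl (min_le_left _ _) le_rfl le_rfl) (min_le_right _ _)
    rw [← Finset.mul_sum, Finset.card_range] at h4
    refine le_trans ?_ (mul_le_mul_right h4 _)
    rw [← ENNReal.ofReal_mul (Real.exp_pos _).le, ← Real.exp_add, ENNReal.one_le_ofReal]
    refine Real.one_le_exp ?_
    set E := ∑ q ∈ Q, ((min (e q) M : ℕ) : ℝ)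
    have hn' : (0 : ℝ) ≤ Cg * n := by positivity
    have b : (I.card : ℝ) ≤ E ∧ Sz ≤ Sw + Cg * E + Cg * n := by
      rcases trunc_sum Q e M with h | h
      · exact ⟨a3.trans h.ge, a4.trans (by rw [← h])⟩
      · exact ⟨M1.trans h, by nlinarith⟩
    have b1 := mul_le_mul_of_nonneg_right b.1 lK
    have b2 := mul_le_mul_of_nonneg_left b.2 hd.le
    have b3 : β * E / ((50 : ℕ) : ℝ) = (del * Cg + Real.log K) * E := by
      rw [hβ]; push_cast; ring
    rw [b3]
    nlinarith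

/-- the top layer. -/
theorem top {del : ℝ} (hd : 0 < del) (hG : GeoStmt) (h0 : CR0 S) (hcl : CleanSt S del)
    (hM : M1St S del) : GlobSt S del :=
  glob hS hd hG (rows hS h0) (sh hS hd (rows hS h0) hcl hM)

end Pool.Agent.MP_990230_pr.K8

end
end MrgPart4

-- marker of a merged file
example : 731051 + 588720 = 731051 + 588720 := rfl
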