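import Pool.Agent.MP_990230_pr.k8.PhG
import Pool.Agent.MP_990230_pr.k8.Tile
import Pool.Agent.MP_990230_pr.Asm
import Pool.Agent.MP_990230_pr.k8.GeoDefs

-- ======== part 0: formerly Pool.Agent.MP_990230_pr.k8.LabP
section MrgPart0

-- ======== part 0: formerly Pool.Agent.MP_990230_pr.k8.Cln
section MrgPart0

/-! # SLE8: the canonical windows of a clean path -/

open Set Complex

noncomputable section

namespace Pool.Agent.MP_990230_pr.K8

namespace CL

open SHM

/-- the direction of episode `i`; `e = 1` if the curve starts inside. -/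
def sgn (e i : ℕ) : ℝ := if (i + e) % 2 = 0 then -1 else 1

/-- the side on which episode `i` starts. -/
def Sd (c : ℂ) (r R : ℝ) (e i : ℕ) (z : ℂ) : Prop :=
  if (i + e) % 2 = 0 then R ≤ ‖z - c‖ else ‖z - c‖ ≤ r

theorem sgn_sg (e i : ℕ) : sgn e i = 1 ∨ sgn e i = -1 := by
  unfold sgn; split_ifs <;> simp

theorem sgn_succ (e i : ℕ) : sgn e (i + 1) = -sgn e i := by
  unfold sgn; split_ifs <;> first | omega | simp

theorem Sd.congr {c z : ℂ} {r R : ℝ} {e i j : ℕ} (h : Sd c r R e i z) (hij : i % 2 = j % 2) :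
    Sd c r R e j z := by
  unfold Sd at *
  rwa [show (j + e) % 2 = (i + e) % 2 by omega]

theorem Sd.mono {c z : ℂ} {r R r' R' : ℝ} {e i : ℕ} (h : Sd c r R e i z) (h1 : r ≤ r')
    (h2 : R' ≤ R) : Sd c r' R' e i z := by
  unfold Sd at *
  split_ifs at h ⊢ <;> linarith

/-- alternating visits. -/
structure Al (x : ℕ → ℂ) (N : ℕ) (c : ℂ) (r R : ℝ) (e E : ℕ) (k : ℕ → ℕ) : Prop where
  mono : ∀ i < E, k i ≤ k (i + 1)
  last : k E ≤ N
  sd : ∀ i ≤ E, Sd c r R e i (x (k i))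

variable {x : ℕ → ℂ} {N m e E B L : ℕ} {c : ℂ} {r R w M l : ℝ} {k : ℕ → ℕ}

theorem Al.le (h : Al x N c r R e E k) {i j : ℕ} (hij : i ≤ j) (hj : j ≤ E) : k i ≤ k j := by
  induction j, hij using Nat.le_induction with
  | base => exact le_rfl
  | succ n _ ih => exact (ih (by omega)).trans (h.mono n (by omega))

theorem Al.leN (h : Al x N c r R e E k) {i : ℕ} (hi : i ≤ E) : k i ≤ N :=
  (h.le hi le_rfl).trans h.last

theorem al_of_cr (h : Cr x N m c r R) (hm : 1 ≤ m) (he : e ≤ 1) (h0 : Sd c r R e 0 (x 0)) :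
    ∃ k, Al x N c r R e (2 * m - 1 + e) k := by
  obtain ⟨s, t, h1, h2⟩ := h
  refine ⟨fun i => if i < e then 0 else if (i - e) % 2 = 0 then s ((i - e) / 2) else t ((i - e) / 2),
    fun i hi => ?_, ?_, fun i hi => ?_⟩
  · by_cases c1 : i < e
    · simp only [if_pos c1, Nat.zero_le]
    · simp only [if_neg c1, if_neg (show ¬ i + 1 < e by omega)]
      by_cases c2 : (i - e) % 2 = 0
      · rw [if_pos c2, if_neg (by omega), show (i + 1 - e) / 2 = (i - e) / 2 by omega]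
        exact (h1 _ (by omega)).1
      · rw [if_neg c2, if_pos (by omega), show (i + 1 - e) / 2 = (i - e) / 2 + 1 by omega]
        exact h2 _ (by omega)
  · simp only [if_neg (show ¬ 2 * m - 1 + e < e by omega)]
    rw [if_neg (by omega)]
    exact (h1 _ (by omega)).2.1
  · by_cases c1 : i < e
    · simp only [if_pos c1]
      exact h0.congr (by omega)
    · simp only [if_neg c1]
      unfold Sd
      by_cases c2 : (i - e) % 2 = 0
      · rw [if_pos c2, if_pos (by omega)]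
        exact (h1 _ (by omega)).2.2.1
      · rw [if_neg c2, if_neg (by omega)]
        exact (h1 _ (by omega)).2.2.2

theorem Al.cr (h : Al x N c r R e (2 * m - 1 + e) k) : Cr x N m c r R := by
  refine ⟨fun a => k (2 * a + e), fun a => k (2 * a + e + 1), fun a ha =>
    ⟨h.mono _ (by omega), h.leN (by omega), ?_, ?_⟩, fun a ha => h.le (by omega) (by omega)⟩
  · have := h.sd (2 * a + e) (by omega)
    rwa [Sd, if_pos (by omega)] at this
  · have := h.sd (2 * a + e + 1) (by omega)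
    rwa [Sd, if_neg (by omega)] at this

/-- the greedy visits. -/
def gr (x : ℕ → ℂ) (c : ℂ) (r R : ℝ) (e : ℕ) : ℕ → ℕ
  | 0 => 0
  | i + 1 => sInf {j | gr x c r R e i ≤ j ∧ Sd c r R e (i + 1) (x j)}

theorem Al.greedy (h : Al x N c r R e E k) (h0 : Sd c r R e 0 (x 0)) :
    Al x N c r R e E (gr x c r R e) ∧ ∀ i < E,
      IsLeast {j | gr x c r R e i ≤ j ∧ Sd c r R e (i + 1) (x j)} (gr x c r R e (i + 1)) := by
  have key : ∀ i ≤ E, gr x c r R e i ≤ k i := by
    intro i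
    induction i with
    | zero => exact fun _ => Nat.zero_le _
    | succ i ih =>
      exact fun hi => Nat.sInf_le ⟨(ih (by omega)).trans (h.mono i (by omega)), h.sd _ hi⟩
  have k2 : ∀ i < E,
      IsLeast {j | gr x c r R e i ≤ j ∧ Sd c r R e (i + 1) (x j)} (gr x c r R e (i + 1)) :=
    fun i hi => ⟨Nat.sInf_mem (s := {j | gr x c r R e i ≤ j ∧ Sd c r R e (i + 1) (x j)})
      ⟨k (i + 1), (key i hi.le).trans (h.mono i hi), h.sd _ hi⟩, fun _ hj => Nat.sInf_le hj⟩
  refine ⟨⟨fun i hi => (k2 i hi).1.1, (key E le_rfl).trans h.last, fun i hi => ?_⟩, k2⟩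
  cases i with
  | zero => exact h0
  | succ i => exact (k2 i hi).1.2

theorem Al.insert (h : Al x N c r R e E k) {i j j' : ℕ} (hi : i < E) (h1 : k i ≤ j) (h2 : j ≤ j')
    (h3 : j' ≤ k (i + 1)) (h4 : Sd c r R e (i + 1) (x j)) (h5 : Sd c r R e i (x j')) :
    ∃ k', Al x N c r R e (E + 2) k' := by
  refine ⟨fun a => if a ≤ i then k a else if a = i + 1 then j else if a = i + 2 then j'
    else k (a - 2), fun a ha => ?_, ?_, fun a ha => ?_⟩
  · rcases lt_trichotomy a i with c1 | rfl | c1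
    · simp only [if_pos c1.le, if_pos (show a + 1 ≤ i from c1)]
      exact h.mono a (by omega)
    · simpa using h1
    · rcases (show a = i + 1 ∨ a = i + 2 ∨ i + 2 < a by omega) with rfl | rfl | c2
      · simpa using h2
      · simp only [if_neg (show ¬ i + 2 ≤ i by omega), if_neg (show ¬ i + 2 = i + 1 by omega),
          if_neg (show ¬ i + 2 + 1 ≤ i by omega), if_neg (show ¬ i + 2 + 1 = i + 1 by omega),
          if_neg (show ¬ i + 2 + 1 = i + 2 by omega), if_true]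
        exact h3
      · simp only [if_neg (show ¬ a ≤ i by omega), if_neg (show ¬ a = i + 1 by omega),
          if_neg (show ¬ a = i + 2 by omega), if_neg (show ¬ a + 1 ≤ i by omega),
          if_neg (show ¬ a + 1 = i + 1 by omega), if_neg (show ¬ a + 1 = i + 2 by omega)]
        exact h.le (by omega) (by omega)
  · simp only [if_neg (show ¬ E + 2 ≤ i by omega), if_neg (show ¬ E + 2 = i + 1 by omega),
      if_neg (show ¬ E + 2 = i + 2 by omega)]
    exact h.last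
  · split_ifs with c1 c2 c3
    · exact h.sd a (by omega)
    · exact c2 ▸ h4
    · exact h5.congr (by omega)
    · exact (h.sd (a - 2) (by omega)).congr (by omega)

/-- the numerical frame: the window lies well inside the ring. -/
structure Nm (r w M l : ℝ) (B L : ℕ) : Prop where
  r_pos : 0 < r
  w_ge : 1 ≤ w
  l_ge : 1 ≤ l
  lo : Real.log (20 * r) + 2 * w + 2 ≤ M - B * l / 2
  hi : M + B * l / 2 + 2 * w + 2 ≤ Real.log r + L * w

/-- the level seen from the centre, in the direction of episode `i`. -/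
def ψ (c : ℂ) (r M l : ℝ) (e B i : ℕ) : ℂ → ℝ := ps (lev c (20 * r)) (sgn e) M B l i

theorem Nm.expR (h : Nm r w M l B L) :
    r * Real.exp (L * w) = Real.exp (Real.log r + L * w) := by
  rw [Real.exp_add, Real.exp_log h.r_pos]

theorem Nm.own (h : Nm r w M l B L) {i : ℕ} {z : ℂ}
    (hz : Sd c r (r * Real.exp (L * w)) e i z) : ψ c r M l e B i z ≤ -(2 * w + 2) := by
  have hr := h.r_pos
  unfold Sd at hz
  unfold ψ ps sgn
  split_ifs at hz ⊢
  · rw [h.expR] at hz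
    have := (le_lev_iff (c := c) (ρ := 20 * r) (by linarith)).2 (Or.inl hz)
    linarith [h.hi]
  · have := (lev_le_iff (c := c) (ρ := 20 * r) (z := z) (d := Real.log (20 * r)) (by linarith)).2
      (by rw [Real.exp_log (by linarith)]; exact ⟨by linarith, le_rfl⟩)
    linarith [h.lo]

theorem Nm.far (h : Nm r w M l B L) {i : ℕ} {z : ℂ}
    (hz : Sd c r (r * Real.exp (L * w)) e (i + 1) z) : B * l + 2 * w + 2 ≤ ψ c r M l e B i z := by
  have := h.own hz
  unfold ψ at *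
  rw [ps_opp (sgn_succ e i)] at this
  linarith

theorem Nm.ring (h : Nm r w M l B L) {i : ℕ} {z : ℂ} (h1 : -(2 * w + 2) < ψ c r M l e B i z)
    (h2 : ψ c r M l e B i z < B * l + 2 * w + 2) : z ∈ ring c r (r * Real.exp (L * w)) := by
  by_contra hc
  have h3 : ‖z - c‖ ≤ r ∨ r * Real.exp (L * w) ≤ ‖z - c‖ := by
    by_contra h4
    push Not at h4
    exact hc h4
  have h4 : Sd c r (r * Real.exp (L * w)) e i z ∨ Sd c r (r * Real.exp (L * w)) e (i + 1) z := by
    unfold Sd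
    by_cases p : (i + e) % 2 = 0
    · rw [if_pos p, if_neg (by omega)]; exact h3.symm
    · rw [if_neg p, if_pos (by omega)]; exact h3
  rcases h4 with h4 | h4
  · linarith [h.own h4]
  · linarith [h.far h4]

/-- a level interval of length `2 w` contains a layer. -/
theorem Nm.layer (h : Nm r w M l B L) {α : ℝ} (h1 : Real.log (20 * r) < α)
    (h2 : α + 2 * w ≤ Real.log r + L * w) : ∃ j < L, ∀ z : ℂ,
      (lev c (20 * r) z ≤ α → ‖z - c‖ ≤ r * Real.exp ((j : ℕ) * w)) ∧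
      (α + 2 * w ≤ lev c (20 * r) z → r * Real.exp ((j + 1 : ℕ) * w) ≤ ‖z - c‖) := by
  have hr := h.r_pos
  have hw : 0 < w := by linarith [h.w_ge]
  have h3 : Real.log r ≤ Real.log (20 * r) := Real.log_le_log hr (by linarith)
  have h4 : 0 ≤ (α - Real.log r) / w := div_nonneg (by linarith) hw.le
  have a1 := Nat.le_ceil ((α - Real.log r) / w)
  have a2 := Nat.ceil_lt_add_one h4
  set j := ⌈(α - Real.log r) / w⌉₊
  rw [div_le_iff₀ hw] at a1
  rw [← sub_lt_iff_lt_add, lt_div_iff₀ hw] at a2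
  have e : ∀ y : ℝ, r * Real.exp y = Real.exp (Real.log r + y) := fun y => by
    rw [Real.exp_add, Real.exp_log hr]
  refine ⟨j, ?_, fun z => ⟨fun hz => ?_, fun hz => ?_⟩⟩
  · have : (j : ℝ) * w < L * w := by nlinarith
    exact_mod_cast lt_of_mul_lt_mul_right this hw.le
  · rw [e]
    exact ((lev_le_iff (by linarith)).1 hz).1.trans (Real.exp_le_exp.2 (by linarith))
  · rw [e]
    rcases (le_lev_iff (by linarith)).1 hz with h5 | h5
    · exact (Real.exp_le_exp.2 (by push_cast; linarith)).trans h5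
    · rw [← Real.le_log_iff_exp_le (by linarith)] at h5
      linarith

/-- no backtracking on the grid. -/
theorem Nm.nb (h : Nm r w M l B L) (hm : 1 ≤ m) (hc : Clean x N m c r w L)
    (hk : Al x N c r (r * Real.exp (L * w)) e (2 * m - 1 + e) k) {i j j' : ℕ}
    (hi : i < 2 * m - 1 + e) (h1 : k i ≤ j) (h2 : j ≤ j') (h3 : j' ≤ k (i + 1)) {A : ℝ}
    (hA : -1 ≤ A) (hA' : A ≤ B * l + 1) (h4 : A ≤ ψ c r M l e B i (x j)) :
    A - 2 * w < ψ c r M l e B i (x j') := by
  by_contra h5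
  push Not at h5
  have hr := h.r_pos
  have hw : 0 < w := by linarith [h.w_ge]
  have key : ∃ a < L, Sd c (r * Real.exp ((a : ℕ) * w)) (r * Real.exp ((a + 1 : ℕ) * w)) e (i + 1)
      (x j) ∧ Sd c (r * Real.exp ((a : ℕ) * w)) (r * Real.exp ((a + 1 : ℕ) * w)) e i (x j') := by
    unfold ψ ps sgn at h4 h5
    unfold Sd
    by_cases p : (i + e) % 2 = 0
    · rw [if_pos p] at h4 h5
      obtain ⟨a, ha, hz⟩ := h.layer (c := c) (α := M + B * l / 2 - A) (by linarith [h.lo])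
        (by linarith [h.hi])
      refine ⟨a, ha, ?_, ?_⟩
      · rw [if_neg (by omega)]; exact (hz _).1 (by linarith)
      · rw [if_pos p]; exact (hz _).2 (by linarith)
    · rw [if_neg p] at h4 h5
      obtain ⟨a, ha, hz⟩ := h.layer (c := c) (α := M - B * l / 2 + A - 2 * w) (by linarith [h.lo])
        (by linarith [h.hi])
      refine ⟨a, ha, ?_, ?_⟩
      · rw [if_pos (by omega)]; exact (hz _).2 (by linarith)
      · rw [if_neg p]; exact (hz _).1 (by linarith)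
  obtain ⟨a, ha, s1, s2⟩ := key
  have hk' : Al x N c (r * Real.exp ((a : ℕ) * w)) (r * Real.exp ((a + 1 : ℕ) * w)) e
      (2 * m - 1 + e) k := ⟨hk.mono, hk.last, fun b hb => (hk.sd b hb).mono
    (le_mul_of_one_le_right hr.le (Real.one_le_exp (by positivity))) (by
      have : ((a + 1 : ℕ) : ℝ) ≤ L := by exact_mod_cast ha
      gcongr)⟩
  obtain ⟨k', h6⟩ := hk'.insert hi h1 h2 h3 s1 s2
  rw [show 2 * m - 1 + e + 2 = 2 * (m + 1) - 1 + e by omega] at h6
  exact hc.2 a ha (h6.cr)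

/-! ## the trials -/

open Classical in
def Gt (c : ℂ) (r R : ℝ) (e B q : ℕ) : Set ℂ :=
  if q % B = 0 then {z | Sd c r R e (q / B) z} else univ

def St (c : ℂ) (r M l : ℝ) (e B q : ℕ) : Set ℂ :=
  {z | (q % B : ℕ) * l + 1 / 2 ≤ ψ c r M l e B (q / B) z ∧
    ψ c r M l e B (q / B) z ≤ (q % B : ℕ) * l + 3 / 4}

def Md (c : ℂ) (r w M l : ℝ) (e B q : ℕ) : Set ℂ :=
  {z | (q % B : ℕ) * l + 1 / 2 - 2 * w < ψ c r M l e B (q / B) z ∧
    ψ c r M l e B (q / B) z < (q % B + 1 : ℕ) * l + 1 / 2}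

theorem Nm.sub (h : Nm r w M l B L) (hB : 0 < B) (q : ℕ) :
    St c r M l e B q ⊆ K8.ring c r (r * Real.exp (L * w)) ∧
      Md c r w M l e B q ⊆ K8.ring c r (r * Real.exp (L * w)) := by
  have h1 : ((q % B + 1 : ℕ) : ℝ) ≤ B := by exact_mod_cast Nat.mod_lt q hB
  have h2 : ((q % B + 1 : ℕ) : ℝ) * l ≤ B * l := by gcongr; linarith [h.l_ge]
  have h3 : 0 ≤ ((q % B : ℕ) : ℝ) * l := by have := h.l_ge; positivity
  have h4 := h.w_ge
  have h5 := h.l_ge
  refine ⟨fun z hz => h.ring (by linarith [hz.1]) ?_, fun z hz => h.ring (by linarith [hz.1])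
    (by linarith [hz.2])⟩
  push_cast at h2
  linarith [hz.2]

theorem lev_pole (c c' z : ℂ) {ρ : ℝ} (hρ : 0 < ρ) : |lev c' ρ z - lev c ρ z| ≤ ‖c' - c‖ / ρ := by
  have := lev_lip (c := 0) hρ (z - c') (z - c)
  simp only [lev, sub_zero] at this ⊢
  rwa [sub_sub_sub_cancel_left, norm_sub_rev c c'] at this

/-- the crossing indices. -/
def cr (x : ℕ → ℂ) (c : ℂ) (r R M l : ℝ) (e B i n : ℕ) : ℕ :=
  sInf {j | gr x c r R e i ≤ j ∧ n * l + 1 / 2 ≤ ψ c r M l e B i (x j)}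

variable {a : ℝ}

theorem cln (X : Ctx a) {u : Pth} (hu : u ∈ X.G) (h : Nm r w M l B L) (hη : X.η ≤ r) (hm : 1 ≤ m)
    (he : e ≤ 1) (hB : 0 < B) (h0 : Sd c r (r * Real.exp (L * w)) e 0 (X.x u 0))
    (hc : Clean (X.x u) X.N m c r w L) : ∃ (g G : ℕ → ℕ) (cc : ℕ → ℕ → ℕ),
      IsSeq (X.x u) (Gt c r (r * Real.exp (L * w)) e B) (St c r M l e B) (Md c r w M l e B)
        ((2 * m - 1 + e) * B) g (fun q => cc (q / B) (q % B)) (fun q => cc (q / B) (q % B + 1)) ∧
      (∀ i < 2 * m - 1 + e, ∀ n ≤ B, cc i n ≤ X.N) ∧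
      Al (X.x u) X.N c r (r * Real.exp (L * w)) e (2 * m - 1 + e) G ∧
      ∀ c', ‖c' - c‖ ≤ 2 * r → Epi (fun i t => ps (lev c' (20 * r)) (sgn e) M B l i
        (Fm a u.1 t (X.y0 * I))) (sgn e) (2 * m - 1 + e) B l (2 * w + 1) (X.N * X.h)
        (fun i => G i * X.h) (fun i n => cc i n * X.h) := by
  set R := r * Real.exp (L * w)
  set E := 2 * m - 1 + e
  set x := X.x u
  have hr := h.r_pos
  have hw := h.w_ge
  have hl := h.l_ge
  obtain ⟨k, hk⟩ := al_of_cr hc.1 hm he h0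
  obtain ⟨hG, hG'⟩ := hk.greedy h0
  set G := gr x c r R e
  set cc := cr x c r R M l e B
  have nl : ∀ n ≤ B, (n : ℝ) * l ≤ B * l := fun n hn => by gcongr
  have mem : ∀ i < E, ∀ n ≤ B, G (i + 1) ∈
      {j | G i ≤ j ∧ n * l + 1 / 2 ≤ ψ c r M l e B i (x j)} := fun i hi n hn =>
    ⟨hG.mono i hi, by linarith [h.far (hG.sd (i + 1) hi), nl n hn]⟩
  have c1 : ∀ i < E, ∀ n ≤ B, G i ≤ cc i n ∧ n * l + 1 / 2 ≤ ψ c r M l e B i (x (cc i n)) :=
    fun i hi n hn => Nat.sInf_mem (s := {j | G i ≤ j ∧ n * l + 1 / 2 ≤ ψ c r M l e B i (x j)})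
      ⟨_, mem i hi n hn⟩
  have c2 : ∀ i n j : ℕ, G i ≤ j → n * l + 1 / 2 ≤ ψ c r M l e B i (x j) → cc i n ≤ j :=
    fun i n j h1 h2 => Nat.sInf_le ⟨h1, h2⟩
  have c3 : ∀ i < E, ∀ n ≤ B, cc i n ≤ G (i + 1) := fun i hi n hn =>
    c2 i n _ (mem i hi n hn).1 (mem i hi n hn).2
  have cN : ∀ i < E, ∀ n ≤ B, cc i n ≤ X.N := fun i hi n hn => (c3 i hi n hn).trans (hG.leN hi)
  have st : ∀ i, ∀ j < X.N, ψ c r M l e B i (x (j + 1)) ≤ ψ c r M l e B i (x j) + 1 / 20 :=
    fun i j hj => (ps_abs (sgn_sg e) i ((lev_lip (by linarith) _ _).trans (by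
      rw [div_le_iff₀ (by linarith)]; linarith [X.x_step hu hj]))).1
  have c4 : ∀ i < E, ∀ n ≤ B, ∀ j, G i ≤ j → j ≤ cc i n →
      ψ c r M l e B i (x j) ≤ n * l + 11 / 20 := by
    intro i hi n hn j h1 h2
    have p0 : 0 ≤ (n : ℝ) * l := by positivity
    rcases h1.eq_or_lt with rfl | h3
    · linarith [h.own (hG.sd i hi.le)]
    · obtain ⟨j, rfl⟩ : ∃ j', j = j' + 1 := ⟨j - 1, by omega⟩
      have := st i j (by have := cN i hi n hn; omega)
      by_contra h4
      have := c2 i n j (by omega) (by linarith)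
      omega
  have c5 : ∀ i < E, ∀ n < B, cc i n < cc i (n + 1) := by
    intro i hi n hn
    have b := c1 i hi (n + 1) hn
    by_contra h4
    have := c4 i hi n hn.le _ b.1 (not_lt.1 h4)
    have := b.2
    push_cast at this
    linarith
  refine ⟨fun q => if q % B = 0 then G (q / B) else cc (q / B) (q % B), G, cc, fun q hq => ?_, cN,
    hG, fun c' hc' => ?_⟩
  · have hi : q / B < E := (Nat.div_lt_iff_lt_mul hB).2 hq
    have hn : q % B < B := Nat.mod_lt q hB
    have hq' := Nat.div_add_mod q B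
    refine ⟨?_, ?_, ?_⟩
    · unfold Gt
      by_cases p : q % B = 0
      · simp only [if_pos p]
        by_cases p0 : q = 0
        · subst p0
          simp only [if_true, Nat.zero_div]
          exact ⟨⟨le_rfl, h0⟩, fun _ _ => Nat.zero_le _⟩
        · obtain ⟨i, e1⟩ : ∃ i, q / B = i + 1 := ⟨q / B - 1, by
            rcases Nat.eq_zero_or_pos (q / B) with z | z
            · rw [z, p] at hq'; omega
            · omega⟩
          have e2 : q - 1 = B * i + (B - 1) := by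
            rw [e1, p, mul_add] at hq'; omega
          have e3 : (q - 1) / B = i := by
            rw [e2, Nat.mul_add_div hB, Nat.div_eq_of_lt (by omega), add_zero]
          have e4 : (q - 1) % B + 1 = B := by
            rw [e2, Nat.mul_add_mod, Nat.mod_eq_of_lt (by omega)]; omega
          simp only [if_neg p0, e3, e4, e1]
          have hi' : i < E := by omega
          exact ⟨⟨c3 i hi' B le_rfl, (hG' i hi').1.2⟩, fun j hj =>
            (hG' i hi').2 ⟨(c1 i hi' B le_rfl).1.trans hj.1, hj.2⟩⟩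
      · have p0 : q ≠ 0 := fun z => p (by rw [z, Nat.zero_mod])
        have e2 : q - 1 = B * (q / B) + (q % B - 1) := by omega
        have e5 : q % B - 1 < B := by omega
        have e3 : (q - 1) / B = q / B := by
          rw [e2, Nat.mul_add_div hB, Nat.div_eq_of_lt e5, add_zero]
        have e4 : (q - 1) % B + 1 = q % B := by
          rw [e2, Nat.mul_add_mod, Nat.mod_eq_of_lt e5]; omega
        simp only [if_neg p, if_neg p0, e3, e4]
        exact ⟨⟨le_rfl, mem_univ _⟩, fun _ hj => hj.1⟩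
    · have b := c1 _ hi _ hn.le
      refine ⟨⟨?_, b.2, by linarith [c4 _ hi _ hn.le _ b.1 le_rfl]⟩, fun j hj => ?_⟩
      · beta_reduce; split_ifs
        · exact b.1
        · exact le_rfl
      · have := hj.1
        beta_reduce at this
        split_ifs at this
        · exact c2 _ _ _ this hj.2.1
        · exact this
    · have b := c1 _ hi _ hn.le
      refine ⟨⟨c5 _ hi _ hn, fun hz => absurd hz.2 (not_lt.2 (c1 _ hi _ hn).2)⟩, fun j hj => ?_⟩
      by_contra h4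
      have h5 : j < cc (q / B) (q % B + 1) := not_le.1 h4
      have p0 : 0 ≤ ((q % B : ℕ) : ℝ) * l := by positivity
      refine hj.2 ⟨h.nb hm hc hG hi b.1 hj.1.le (h5.le.trans (c3 _ hi _ hn)) (by linarith)
        (by linarith [nl _ hn.le]) b.2, ?_⟩
      by_contra h6
      exact absurd (c2 _ _ j (b.1.trans hj.1.le) (not_lt.1 h6)) (not_le.2 h5)
  · have hh := X.h_pos
    have gd := X.good u hu
    have near : ∀ i, ∀ (j : ℕ) (t : ℝ), j * X.h ≤ t → t ≤ j * X.h + X.h → t ≤ X.N * X.h →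
        ps (lev c' (20 * r)) (sgn e) M B l i (Fm a u.1 t (X.y0 * I)) ≤
          ψ c r M l e B i (x j) + 1 / 5 ∧ ψ c r M l e B i (x j) ≤
          ps (lev c' (20 * r)) (sgn e) M B l i (Fm a u.1 t (X.y0 * I)) + 1 / 5 := by
      intro i j t h1 h2 h3
      have b1 := gd.step t ⟨(X.tm_nonneg j).trans h1, h3⟩ _ ⟨X.tm_nonneg j, h1.trans h3⟩
        (by rw [abs_of_nonneg (by linarith)]; linarith)
      have b2 := (lev_lip (c := c) (ρ := 20 * r) (by linarith) (gm a u t X.y0) (x j)).trans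
        (show _ ≤ 1 / 20 by rw [div_le_iff₀ (by linarith)]; exact b1.trans (by linarith))
      have b3 := (lev_pole c c' (gm a u t X.y0) (ρ := 20 * r) (by linarith)).trans
        (show _ ≤ 1 / 10 by rw [div_le_iff₀ (by linarith)]; linarith)
      rw [abs_le] at b2 b3
      unfold ψ ps
      unfold gm at b2 b3
      rcases sgn_sg e i with s | s <;> rw [s] <;> constructor <;> linarith [b2.1, b2.2, b3.1, b3.2]
    have fl : ∀ (j1 j2 : ℕ) (t : ℝ), j1 * X.h ≤ t → t ≤ j2 * X.h → j1 ≤ ⌊t / X.h⌋₊ ∧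
        ⌊t / X.h⌋₊ ≤ j2 ∧ ⌊t / X.h⌋₊ * X.h ≤ t ∧ t ≤ ⌊t / X.h⌋₊ * X.h + X.h := by
      intro j1 j2 t h1 h2
      have t0 : 0 ≤ t / X.h := div_nonneg ((X.tm_nonneg j1).trans h1) hh.le
      refine ⟨Nat.le_floor ((le_div_iff₀ hh).2 h1), Nat.floor_le_of_le ((div_le_iff₀ hh).2 h2),
        (le_div_iff₀ hh).1 (Nat.floor_le t0), ?_⟩
      have := (div_lt_iff₀ hh).1 (Nat.lt_floor_add_one (t / X.h))
      linarith
    refine ⟨sgn_sg e, sgn_succ e, by simp [G, gr], fun i hi => X.tm_le (c1 i hi 0 hB.le).1,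
      fun i hi n hn => X.tm_le (c5 i hi n hn).le, fun i hi => X.tm_le (c3 i hi B le_rfl),
      X.tm_le hG.last, fun i hi n hn => ?_, fun i hi n hn t ht => ?_,
      fun i hi t t' h1 h2 h3 y hy h4 => ?_⟩
    · linarith [(near i (cc i n) _ le_rfl (by linarith) (X.tm_le (cN i hi n hn))).2,
        (c1 i hi n hn).2]
    · obtain ⟨f1, f2, f3, f4⟩ := fl _ _ t ht.1 ht.2
      linarith [(near i _ t f3 f4 (ht.2.trans (X.tm_le (cN i hi n hn)))).1, c4 i hi n hn _ f1 f2]
    · obtain ⟨f1, -, f3, f4⟩ := fl _ _ t h1 (h2.trans h3)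
      obtain ⟨-, g2, g3, g4⟩ := fl _ _ t' (h1.trans h2) h3
      have hT := h3.trans (X.tm_le (hG.leN hi))
      have := h.nb hm hc hG hi f1 (Nat.floor_le_floor (by gcongr)) g2 (A := y - 1 / 5)
        (by linarith [hy.1]) (by linarith [hy.2]) (by linarith [(near i _ t f3 f4 (h2.trans hT)).1])
      linarith [(near i _ t' g3 g4 hT).2]

end CL

end Pool.Agent.MP_990230_pr.K8

end

end MrgPart0

-- ======== part 1: formerly Pool.Agent.MP_990230_pr.k8.LabP
section MrgPart1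

/-! # SLE8: the cost of the labels of a block crossing -/

open Set Complex MeasureTheory
open scoped ENNReal

noncomputable section

namespace Pool.Agent.MP_990230_pr.K8

namespace CL

open SHM

/-- labels: unforced, child on the right, child on the left. -/
abbrev Lb : Type := Bool × Bool × Bool

/-- the oriented level. -/
def ol (c : ℂ) (ρ σ M H : ℝ) (z : ℂ) : ℝ := σ * (lev c ρ z - M) + H

/-- the event attached to a label. -/
def LabE (a : ℝ) (U : ℝ → ℝ) (ψ : ℂ → ℝ) (y0 l μ s t d : ℝ) (b : Lb) : Prop :=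
  (b.1 = true → EvU a U ψ y0 s t d l μ ∧ ¬ (b.2.1 = true ∧ b.2.2 = true) ∧
    (b.2.1 = true → EvUC a U ψ y0 s t d l μ 1) ∧ (b.2.2 = true → EvUC a U ψ y0 s t d l μ (-1))) ∧
  (¬ b.1 = true → (b.2.1 = true → EvF a U ψ (Lz U) y0 62 s t d l μ 1) ∧
    (b.2.2 = true → EvF a U ψ (Lz U) y0 62 s t d l μ (-1)))

/-- the exponent paid by a label. -/
def cost (eU eS eF : ℝ) (b : Lb) : ℝ :=
  if b.1 then (if b.2.1 || b.2.2 then eS else eU)
  else (if b.2.1 then eF else 0) + (if b.2.2 then eF else 0)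

theorem cost_nonneg {eU eS eF : ℝ} (h1 : 0 ≤ eU) (h2 : 0 ≤ eS) (h3 : 0 ≤ eF) (b : Lb) :
    0 ≤ cost eU eS eF b := by
  unfold cost; split_ifs <;> linarith

theorem conv {c' c'' z : ℂ} {ρ σ M H A : ℝ} (hρ : 0 < ρ) (hc : ‖c' - c''‖ ≤ ρ / 5) (hσ : Sg σ)
    (hz : z - c'' ≠ 0) (h1 : Real.log ρ + 1 ≤ M - H) (h2 : 0 ≤ A) (h3 : A ≤ 2 * H) :
    (ol c' ρ σ M H z ≤ A → σ * Real.log ‖z - c''‖ ≤ A + σ * M - H + 1) ∧
      (A ≤ ol c' ρ σ M H z → A + σ * M - H - 1 ≤ σ * Real.log ‖z - c''‖) := by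
  have b := (lev_pole c'' c' z hρ).trans (show _ ≤ 1 / 5 by rw [div_le_iff₀ hρ]; linarith)
  rw [lev_eq (c := c'') hρ hz, abs_le] at b
  unfold ol
  rcases le_total (Real.log ‖z - c''‖) (Real.log ρ) with d | d
  · rw [max_eq_right d] at b
    rcases hσ with rfl | rfl <;> constructor <;> intro h <;> linarith [b.1, b.2]
  · rw [max_eq_left d] at b
    rcases hσ with rfl | rfl <;> constructor <;> intro h <;> linarith [b.1, b.2]

variable {a s τ y0 : ℝ} {u v v' : Pth}

theorem pull (ha : 0 < a) (hs : 0 ≤ s) (hτ : 0 ≤ τ) (hy : 0 < y0) {z : ℂ}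
    (h1 : Alive a (cat s u (cat τ v v')).1 z (s + τ))
    (h2 : Zt a (cat s u (cat τ v v')).1 z (s + τ) = y0 * I) :
    Zt a (cat s u (cat τ v v')).1 z s = gm a v τ y0 ∧ z = Fm a u.1 s (gm a v τ y0) := by
  have e1 := Fm_Zt ha (cat s u (cat τ v v')).cont (add_nonneg hs hτ) h1
  have e2 : z = Fm a u.1 s (gm a v τ y0) := by
    rw [← e1, h2, ← gm_cat_le ha v v' hτ le_rfl]
    exact gm_cat ha u _ hs hτ hy
  refine ⟨?_, e2⟩
  rw [Zt_cat_le ha hs le_rfl, e2, Zt_Fm ha u.cont hs (gm_alive ha v hτ hy).1]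

theorem pull_rt (hs : 0 ≤ s) (hτ : 0 ≤ τ) {X : ℝ → ℝ}
    (h : RT a (cat s u (cat τ v v')).1 s (s + τ) X) : RAl a v.1 (X s) τ := by
  obtain ⟨Y, h1, h2⟩ := (h.ral_cat hs τ ⟨hτ, le_rfl⟩).1
  exact ⟨Y, h1.congr (fun _ _ => rfl) fun r hr => cat_le v v' hr.2, h2⟩

theorem pull_Lz (hs : 0 ≤ s) (hτ : 0 ≤ τ) :
    Lz (cat s u (cat τ v v')).1 s (s + τ) = Lz v.1 0 τ := by
  rw [Lz_cat u _ hs hτ, Lz_cat_le v v' hτ le_rfl]

theorem sg_sq {ε : ℝ} (h : Sg ε) (x : ℝ) : ε * (ε * x) = x := by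
  rcases h with rfl | rfl <;> ring

section

variable {c' c'' : ℂ} {ρ σ M H d l μ Λ : ℝ} (ha : 0 < a) (hs : 0 ≤ s) (hτ : 0 ≤ τ) (hy : 0 < y0)
  (hρ : 0 < ρ) (hc : ‖c' - c''‖ ≤ ρ / 5) (hσ : Sg σ) (hG : Conf Λ fun w => Fm a u.1 s w - c'')
  (h1 : Real.log ρ + 1 ≤ M - H) (hd : 0 ≤ d) (hd' : d + l ≤ 2 * H) (hμ : 0 ≤ μ) (hl : 7 * μ ≤ l)

include ha hs hρ hc hσ hG h1

theorem up {w : ℂ} (hw : 0 < w.im) {A : ℝ} (h2 : 0 ≤ A) (h3 : A ≤ 2 * H)
    (h : ol c' ρ σ M H (Fm a (cat s u v).1 s w) ≤ A) :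
    σ * ln (fun w => Fm a u.1 s w - c'') w ≤ A + σ * M - H + 1 := by
  rw [Fm_cat_le ha hs le_rfl] at h
  exact (conv hρ hc hσ (hG.ne w hw) h1 h2 h3).1 h

theorem dn {w : ℂ} (hw : 0 < w.im) {A : ℝ} (h2 : 0 ≤ A) (h3 : A ≤ 2 * H)
    (h : A ≤ ol c' ρ σ M H (Fm a (cat s u v).1 s w)) :
    A + σ * M - H - 1 ≤ σ * ln (fun w => Fm a u.1 s w - c'') w := by
  rw [Fm_cat_le ha hs le_rfl] at h
  exact (conv hρ hc hσ (hG.ne w hw) h1 h2 h3).2 h

include hτ hy hd hd' hμ hl

theorem toU {z : ℂ} (z1 : Alive a (cat s u (cat τ v v')).1 z (s + τ))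
    (z2 : Zt a (cat s u (cat τ v v')).1 z (s + τ) = y0 * I) (z3 : d + l ≤ ol c' ρ σ M H z)
    (z4 : y0 ≤ (Zt a (cat s u (cat τ v v')).1 z s).im)
    (z5 : ∀ y ∈ Icc y0 (2 * ‖Zt a (cat s u (cat τ v v')).1 z s‖),
      ol c' ρ σ M H (Fm a (cat s u (cat τ v v')).1 s (y * I)) ≤ d + μ) :
    σ * ln (fun w => Fm a u.1 s w - c'') (‖gm a v τ y0‖ * I) ≤ d + 6 * μ + σ * M - H + 1 ∧
      d + l - μ + σ * M - H - 1 ≤ σ * ln (fun w => Fm a u.1 s w - c'') (gm a v τ y0) := by
  obtain ⟨e1, e2⟩ := pull ha hs hτ hy z1 z2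
  rw [e1] at z4 z5
  have n1 : y0 ≤ ‖gm a v τ y0‖ := z4.trans ((le_abs_self _).trans (abs_im_le_norm _))
  have k1 := up ha hs hρ hc hσ hG h1 (by simpa using hy.trans_le n1) (by linarith) (by linarith)
    (z5 _ ⟨n1, by linarith⟩)
  rw [e2, ← Fm_cat_le ha hs le_rfl u v] at z3
  have k2 := dn ha hs hρ hc hσ hG h1 (hy.trans_le z4) (by linarith) (by linarith) z3
  exact ⟨by linarith, by linarith⟩

theorem toS {ε : ℝ} (hε : Sg ε)
    (h : EvUC a (cat s u (cat τ v v')).1 (ol c' ρ σ M H) y0 s (s + τ) d l μ ε) :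
    σ * ln (fun w => Fm a u.1 s w - c'') (‖gm a v τ y0‖ * I) ≤ d + 6 * μ + σ * M - H + 1 ∧
      d + l - μ + σ * M - H - 1 ≤ σ * ln (fun w => Fm a u.1 s w - c'') (gm a v τ y0) ∧
      ∃ ξ lam : ℝ, 0 < ξ ∧ RAl a v.1 (ε * ξ) τ ∧ (gm a v τ y0).im ≤ lam ∧
        ξ + lam / 2 ≤ ε * (gm a v τ y0).re ∧ σ * ln (fun w => Fm a u.1 s w - c'')
          ((gm a v τ y0).re + lam * I) ≤ d + 6 * μ + σ * M - H + 1 := by
  obtain ⟨z, z1, z2, z3, z4, z5, X, lam, x1, x2, x3, x4, x5⟩ := h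
  obtain ⟨k1, k2⟩ := toU ha hs hτ hy hρ hc hσ hG h1 hd hd' hμ hl z1 z2 z3 z4 z5
  obtain ⟨e1, -⟩ := pull ha hs hτ hy z1 z2
  rw [e1] at z4 x3 x4 x5
  have n1 : ε * (gm a v τ y0).re ≤ ‖gm a v τ y0‖ := by
    have := abs_le.1 (abs_re_le_norm (gm a v τ y0))
    rcases hε with rfl | rfl <;> linarith [this.1, this.2]
  refine ⟨k1, k2, ε * X s, lam, x2, by rw [sg_sq hε]; exact pull_rt hs hτ x1, x4, by linarith, ?_⟩
  exact up ha hs hρ hc hσ hG h1 (by simp; linarith) (by linarith) (by linarith)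
    (x5 lam ⟨le_rfl, by linarith⟩)

theorem toF {ε : ℝ} (hε : Sg ε) (h : EvF a (cat s u (cat τ v v')).1 (ol c' ρ σ M H)
    (Lz (cat s u (cat τ v v')).1) y0 62 s (s + τ) d l μ ε) :
    σ * ln (fun w => Fm a u.1 s w - c'') (y0 * I) ≤ d + 6 * μ + σ * M - H + 1 ∧
      (∃ y ∈ Icc y0 (992 * (y0 + Lz v.1 0 τ)),
        d + l - μ + σ * M - H - 1 ≤ σ * ln (fun w => Fm a u.1 s w - c'') (y * I)) ∧
      ∃ ξ : ℝ, 0 < ξ ∧ RAl a v.1 (ε * ξ) τ ∧ ∀ y ∈ Icc y0 ξ,
        σ * ln (fun w => Fm a u.1 s w - c'') (y * I) ≤ d + 6 * μ + σ * M - H + 1 := by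
  obtain ⟨⟨X, x1, x2, x3⟩, y, y1, y2⟩ := h
  rw [pull_Lz hs hτ] at y1
  have k : ∀ y ∈ Icc y0 (max y0 (ε * X s)),
      σ * ln (fun w => Fm a u.1 s w - c'') (y * I) ≤ d + 6 * μ + σ * M - H + 1 := fun y hy' =>
    up ha hs hρ hc hσ hG h1 (by simpa using hy.trans_le hy'.1) (by linarith) (by linarith)
      (x3 y hy')
  refine ⟨k y0 ⟨le_rfl, le_max_left _ _⟩, ⟨y, ⟨y1.1, by linarith [y1.2]⟩, ?_⟩, ε * X s, x2,
    by rw [sg_sq hε]; exact pull_rt hs hτ x1, fun y hy' => k y ⟨hy'.1, hy'.2.trans (le_max_right _ _)⟩⟩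
  exact dn ha hs hρ hc hσ hG h1 (by simpa using hy.trans_le y1.1) (by linarith) (by linarith) y2

end

theorem exp_cost {C e D l' x : ℝ} (hC : 0 ≤ C) (he : 0 ≤ e) (h : l' ≤ D) (hx : x = e * D) :
    ENNReal.ofReal (C * Real.exp (-x)) ≤ ENNReal.ofReal (C * Real.exp (-(e * l'))) := by
  subst hx
  gcongr

/-- LABP. -/
theorem labP {ms p C Λ ρ σ M H d l μ l' : ℝ} {c'' : ℂ} {P : Measure Pth} (ha : Rg a)
    (hP : PicPS a ms p 992 C) (hW : IsW P) (hC : 1 ≤ C) (hms : 0 ≤ ms) (hp : 0 ≤ p) (hs : 0 ≤ s)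
    (hy : 0 < y0) (hρ : 0 < ρ) (hσ : Sg σ) (hΛ : 1 ≤ Λ) (hΛ' : Λ ≤ 2)
    (hG : Conf Λ fun w => Fm a u.1 s w - c'') (h1 : Real.log ρ + 1 ≤ M - H) (hd : 0 ≤ d)
    (hd' : d + l ≤ 2 * H) (hμ : 0 ≤ μ) (hl : 7 * μ ≤ l) (hl' : l' ≤ l - 7 * μ - 2) (b : Lb) :
    P {v | ∃ τ, 0 ≤ τ ∧ ∃ (v' : Pth) (c' : ℂ), ‖c' - c''‖ ≤ ρ / 5 ∧
        LabE a (cat s u (cat τ v v')).1 (ol c' ρ σ M H) y0 l μ s (s + τ) d b} ≤
      ENNReal.ofReal (C * Real.exp (-(cost (alp a / Λ) (ms / 2) (p / 2) b * l'))) := by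
  have a0 := ha.pos
  have hα : 0 ≤ alp a := by unfold alp; linarith [ha.1]
  set L1 := d + l - μ + σ * M - H - 1 with e1
  set L0 := d + 6 * μ + σ * M - H + 1 with e0
  have hD : l' ≤ L1 - L0 := by linarith
  have G2 := hG.mono hΛ'
  have s1 : Sg 1 := Or.inl rfl
  have s2 : Sg (-1) := Or.inr rfl
  have C0 : 0 ≤ C := by linarith
  obtain ⟨b1, b2, b3⟩ := b
  cases b1 <;> cases b2 <;> cases b3
  · have := hW.prob
    refine prob_le_one.trans (ENNReal.one_le_ofReal.2 ?_)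
    simpa [cost] using hC
  · refine le_trans (measure_mono ?_) ((hP.frc P hW _ σ (-1) y0 L0 L1 G2 hσ s2 hy).trans
      (exp_cost C0 (by simp [cost]; linarith) hD (by simp only [cost]; norm_num; ring)))
    rintro v ⟨τ, hτ, v', c', hc, h⟩
    exact ⟨τ, hτ, toF a0 hs hτ hy hρ hc hσ hG h1 hd hd' hμ hl s2 ((h.2 (by simp)).2 rfl)⟩
  · refine le_trans (measure_mono ?_) ((hP.frc P hW _ σ 1 y0 L0 L1 G2 hσ s1 hy).trans
      (exp_cost C0 (by simp [cost]; linarith) hD (by simp only [cost]; norm_num; ring)))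
    rintro v ⟨τ, hτ, v', c', hc, h⟩
    exact ⟨τ, hτ, toF a0 hs hτ hy hρ hc hσ hG h1 hd hd' hμ hl s1 ((h.2 (by simp)).1 rfl)⟩
  · refine le_trans (measure_mono ?_) ((hP.frc2 P hW _ σ y0 L0 L1 G2 hσ hy).trans
      (exp_cost C0 (by simp [cost]; linarith) hD (by simp [cost])))
    rintro v ⟨τ, hτ, v', c', hc, h⟩
    obtain ⟨k1, k2, ξ, k3, k4, k5⟩ :=
      toF a0 hs hτ hy hρ hc hσ hG h1 hd hd' hμ hl s1 ((h.2 (by simp)).1 rfl)
    obtain ⟨-, -, ξ', k6, k7, k8⟩ :=
      toF a0 hs hτ hy hρ hc hσ hG h1 hd hd' hμ hl s2 ((h.2 (by simp)).2 rfl)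
    exact ⟨τ, hτ, k1, k2, ξ, ξ', k3, k6, by simpa using k4, by simpa using k7, k5, k8⟩
  · refine le_trans (measure_mono ?_) ((hP.unf P hW _ Λ σ y0 L0 L1 hG hΛ hΛ' hσ hy).trans
      (exp_cost C0 (by simp [cost]; positivity) hD (by simp only [cost]; norm_num; ring)))
    rintro v ⟨τ, hτ, v', c', hc, h⟩
    obtain ⟨z, z1, z2, z3, z4, z5⟩ := (h.1 rfl).1
    exact ⟨τ, hτ, toU a0 hs hτ hy hρ hc hσ hG h1 hd hd' hμ hl z1 z2 z3 z4 z5⟩
  · refine le_trans (measure_mono ?_) ((hP.sur P hW _ σ (-1) y0 L0 L1 G2 hσ s2 hy).trans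
      (exp_cost C0 (by simp [cost]; linarith) hD (by simp only [cost]; norm_num; ring)))
    rintro v ⟨τ, hτ, v', c', hc, h⟩
    exact ⟨τ, hτ, toS a0 hs hτ hy hρ hc hσ hG h1 hd hd' hμ hl s2 ((h.1 rfl).2.2.2 rfl)⟩
  · refine le_trans (measure_mono ?_) ((hP.sur P hW _ σ 1 y0 L0 L1 G2 hσ s1 hy).trans
      (exp_cost C0 (by simp [cost]; linarith) hD (by simp only [cost]; norm_num; ring)))
    rintro v ⟨τ, hτ, v', c', hc, h⟩
    exact ⟨τ, hτ, toS a0 hs hτ hy hρ hc hσ hG h1 hd hd' hμ hl s1 ((h.1 rfl).2.2.1 rfl)⟩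
  · refine le_trans (le_of_eq (measure_mono_null ?_ measure_empty)) zero_le
    rintro v ⟨τ, hτ, v', c', hc, h⟩
    exact (h.1 rfl).2.1 ⟨rfl, rfl⟩

end CL

end Pool.Agent.MP_990230_pr.K8

end

end MrgPart1

-- marker of a merged file
example : 731051 + 631269 = 731051 + 631269 := rfl

end MrgPart0

-- ======== part 1: formerly Pool.Agent.MP_990230_pr.k8.Br48
section MrgPart1

-- ======== part 0: formerly Pool.Agent.MP_990230_pr.k8.Seq
section MrgPart0

/-! # SLE8: a sequence of trials with finitely many patterns of local events (helper48) -/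

open Set MeasureTheory Filter
open scoped ENNReal

noncomputable section

namespace Pool.Agent.MP_990230_pr.K8

/-- a stopping index (no measurability is required). -/
def Stop (h : ℝ) (σ : Pth → ℕ) : Prop :=
  ∀ (k : ℕ) (u v : Pth), σ u ≤ k → σ (cat (k * h) u v) = σ u

variable {μ : Measure Pth} {h : ℝ} {N : ℕ} {A : ℕ → Set Pth} {X : Pth → ℝ≥0∞}

theorem cat_back {t : ℝ} (ht : 0 ≤ t) (u v : Pth) : cat t (cat t u v) (sft t u) = u := by
  rw [cat_cat_le _ _ _ le_rfl, cat_sft _ ht]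

theorem Stop.back {σ : Pth → ℕ} (H : Stop h σ) (hh : 0 ≤ h) {k : ℕ} {u v : Pth}
    (hk : σ (cat (k * h) u v) ≤ k) : σ u = σ (cat (k * h) u v) := by
  have := H k _ (sft (k * h) u) hk
  rwa [cat_back (by positivity)] at this

theorem Stop.const (h : ℝ) (k : ℕ) : Stop h fun _ => k := fun _ _ _ _ => rfl

open Classical in
/-- the first index `j ≥ σ`, `j ≤ N`, with the property `P j` (and `N + 1` if there is none). -/
def fst (N : ℕ) (σ : Pth → ℕ) (P : ℕ → Pth → Prop) (u : Pth) : ℕ :=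
  if H : ∃ j, σ u ≤ j ∧ j ≤ N ∧ P j u then Nat.find H else N + 1

theorem fst_spec {σ : Pth → ℕ} {P : ℕ → Pth → Prop} {u : Pth} (H : fst N σ P u ≤ N) :
    σ u ≤ fst N σ P u ∧ P (fst N σ P u) u := by
  classical
  unfold fst at H ⊢
  split_ifs at H ⊢ with e
  · exact ⟨(Nat.find_spec e).1, (Nat.find_spec e).2.2⟩
  · omega

theorem fst_le {σ : Pth → ℕ} {P : ℕ → Pth → Prop} {u : Pth} {j : ℕ} (h1 : σ u ≤ j) (h2 : j ≤ N)
    (h3 : P j u) : fst N σ P u ≤ j := by
  classical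
  unfold fst
  rw [dif_pos ⟨j, h1, h2, h3⟩]
  exact Nat.find_min' _ ⟨h1, h2, h3⟩

theorem fst_le_succ (N : ℕ) (σ : Pth → ℕ) (P : ℕ → Pth → Prop) (u : Pth) : fst N σ P u ≤ N + 1 := by
  classical
  unfold fst
  split_ifs with e
  · exact (Nat.find_spec e).2.1.trans (Nat.le_succ N)
  · exact le_rfl

theorem fst_min {σ : Pth → ℕ} {P : ℕ → Pth → Prop} {u : Pth} {j : ℕ} (h1 : σ u ≤ j)
    (h2 : j < fst N σ P u) : ¬ P j u := fun h3 =>
  absurd (fst_le h1 (by have := fst_le_succ N σ P u; omega) h3) (not_le.2 h2)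

theorem Stop.fst (hh : 0 ≤ h) {σ : Pth → ℕ} (H : Stop h σ) {P : ℕ → Pth → Prop}
    (hP : ∀ (j k : ℕ) (u v : Pth), j ≤ k → (P j (cat (k * h) u v) ↔ P j u)) (N : ℕ) :
    Stop h (fst N σ P) := by
  have key : ∀ (k : ℕ) (u v : Pth), K8.fst N σ P u ≤ k →
      K8.fst N σ P (cat (k * h) u v) ≤ K8.fst N σ P u := by
    intro k u v hk
    rcases (fst_le_succ N σ P u).eq_or_lt with e | e
    · rw [e]; exact fst_le_succ _ _ _ _
    · obtain ⟨b1, b2⟩ := fst_spec (Nat.lt_succ_iff.1 e)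
      exact fst_le (by rw [H k u v (b1.trans hk)]; exact b1) (Nat.lt_succ_iff.1 e)
        ((hP _ k u v hk).2 b2)
  intro k u v hk
  refine le_antisymm (key k u v hk) ?_
  have := key k (cat (k * h) u v) (sft (k * h) u) ((key k u v hk).trans hk)
  rwa [cat_back (by positivity)] at this

/-- SEQ. -/
theorem seq (hμ : IsW μ) (hh : 0 ≤ h) (hA : Adp h A) {ι : Type*} (s : Finset ι) (Q : ℕ)
    {σ τ : ℕ → Pth → ℕ} (hσ : ∀ q < Q, Stop h (σ q)) (hτ : ∀ q < Q, Stop h (τ q))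
    (E : ι → ℕ → Set Pth) (p : ι → ℕ → ℝ≥0∞) (X1 : ∀ w, X w ≤ 1)
    (hX : ∀ w, X w ≠ 0 → (∀ q < Q, σ q w < τ q w ∧ τ q w ≤ N ∧ (q + 1 < Q → τ q w ≤ σ (q + 1) w) ∧
      ∀ j, σ q w ≤ j → j < τ q w → w ∈ A j) ∧ ∃ i ∈ s, ∀ q < Q, w ∈ E i q)
    (hp : ∀ i ∈ s, ∀ q < Q, ∀ (k : ℕ) (u : Pth), σ q u = k →
      μ {v | ∃ w, cat (τ q (cat (k * h) u v) * h) (cat (k * h) u v) w ∈ E i q} ≤ p i q)
    (u0 : Pth) : val μ h N A X 0 u0 ≤ ∑ i ∈ s, ∏ q ∈ Finset.range Q, p i q := by
  have := hμ.prob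
  have grid : ∀ {j k : ℕ}, j ≤ k → (j : ℝ) * h ≤ k * h := fun hjk =>
    mul_le_mul_of_nonneg_right (by exact_mod_cast hjk) hh
  let F : ι → ℕ → Pth → Prop := fun i q y => ∃ w, cat (τ q y * h) y w ∈ E i q
  have Fpast : ∀ i q, q < Q → ∀ (k : ℕ) u v, τ q u ≤ k → F i q (cat (k * h) u v) → F i q u := by
    rintro i q hq k u v hk ⟨w, hw⟩
    rw [hτ q hq k u v hk, cat_cat_le _ _ _ (grid hk)] at hw
    exact ⟨w, hw⟩
  have zero : ∀ (k : ℕ) u (B : ℝ≥0∞), (¬ ∃ v, X (cat (k * h) u v) ≠ 0) →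
      val μ h N A X k u ≤ B := fun k u B hv =>
    val_le_const hμ hh fun v => by
      rw [not_not.1 fun hc => hv ⟨v, hc⟩]; exact zero_le
  have key : ∀ d q, q + d = Q → ∀ k, k ≤ N → ∀ u, (∀ q' < q, τ q' u ≤ k) → (q < Q → k ≤ σ q u) →
      val μ h N A X k u ≤ ∑ i ∈ s, ind (∀ q' < q, F i q' u) * ∏ q' ∈ Finset.Ico q Q, p i q' := by
    intro d
    induction d with
    | zero =>
      intro q hq k _ u b1 _
      refine val_le_const hμ hh fun v => ?_
      by_cases hv : X (cat (k * h) u v) = 0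
      · rw [hv]; exact zero_le
      obtain ⟨i, hi, hE⟩ := (hX _ hv).2
      refine (X1 _).trans (le_trans (le_of_eq ?_) (Finset.single_le_sum
        (f := fun i => ind (∀ q' < q, F i q' u) * ∏ q' ∈ Finset.Ico q Q, p i q')
        (fun _ _ => zero_le) hi))
      rw [ind_pos fun q' hq' => Fpast i q' (by omega) k u v (b1 q' hq')
        ⟨sft _ _, by rw [cat_sft _ (by positivity)]; exact hE q' (by omega)⟩,
        Finset.Ico_eq_empty (by omega), Finset.prod_empty, mul_one]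
    | succ d ih =>
      intro q hq
      have hqQ : q < Q := by omega
      have start : ∀ k, ∀ u, (∀ q' < q, τ q' u ≤ k) → σ q u = k → val μ h N A X k u ≤
          ∑ i ∈ s, ind (∀ q' < q, F i q' u) * ∏ q' ∈ Finset.Ico q Q, p i q' := by
        intro k u b1 b2
        by_cases hv : ∃ v, X (cat (k * h) u v) ≠ 0
        swap
        · exact zero k u _ hv
        obtain ⟨v0, hv0⟩ := hv
        obtain ⟨c1, c2, _, c4⟩ := (hX _ hv0).1 q hqQ
        rw [hσ q hqQ k u v0 b2.le, b2] at c1 c4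
        have uA : u ∈ A k := (hA.past k u v0).1 (c4 k le_rfl c1)
        refine (val_episode hμ hh hA (S := fun j => {y | τ q y ≤ j ∨ y ∉ A j})
          (fun j y v => ?_) (by omega) uA (fun v j j1 _ hj => ?_)
          (Φ := fun v => ∑ i ∈ s, (toMeasurable μ {v | F i q (cat (k * h) u v)}).indicator
            (fun _ => ind (∀ q' < q, F i q' u) * ∏ q' ∈ Finset.Ico (q + 1) Q, p i q') v)
          (Finset.measurable_sum _ fun i _ =>
            measurable_const.indicator (measurableSet_toMeasurable _ _))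
          (fun v j j1 j2 hj hj' => ?_)).trans ?_
        · refine or_congr ⟨fun hc => ?_, fun hc => ?_⟩ (not_congr (hA.past j y v))
          · rw [(hτ q hqQ).back hh hc]; exact hc
          · rw [hτ q hqQ j y v hc]; exact hc
        · exact not_not.1 fun hc => hj j j1 le_rfl (Or.inr hc)
        · by_cases hw : ∃ w, X (cat (j * h) (cat (k * h) u v) w) ≠ 0
          swap
          · exact zero j _ _ hw
          obtain ⟨w, hw⟩ := hw
          obtain ⟨e1, e2, e3, e4⟩ := (hX _ hw).1 q hqQ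
          have s1 : σ q (cat (k * h) u v) = k := by rw [hσ q hqQ k u v b2.le, b2]
          rw [hσ q hqQ j _ w (by omega), s1] at e1 e4
          have t1 : τ q (cat (j * h) (cat (k * h) u v) w) = j := by
            rcases lt_trichotomy (τ q (cat (j * h) (cat (k * h) u v) w)) j with e | e | e
            · exact absurd (Or.inl ((hτ q hqQ).back hh e.le).le) (hj _ e1 e)
            · exact e
            · exfalso
              rcases hj' with (f | f) | f
              · rw [hτ q hqQ j _ w f] at e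
                omega
              · exact f ((hA.past j _ w).1 (e4 j j1.le e))
              · omega
          have t2 : τ q (cat (k * h) u v) = j := by rw [(hτ q hqQ).back hh t1.le, t1]
          refine (ih (q + 1) (by omega) j j2 _ (fun q' hq' => ?_) (fun hq1 => ?_)).trans
            (Finset.sum_le_sum fun i _ => ?_)
          · rcases (Nat.lt_succ_iff.1 hq').eq_or_lt with e | e
            · rw [e, t2]
            · rw [hτ q' (by omega) k u v (b1 q' e)]; exact (b1 q' e).trans j1.le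
          · refine not_lt.1 fun hc => ?_
            have := e3 hq1
            rw [hσ (q + 1) hq1 j _ w hc.le, t1] at this
            omega
          · by_cases hF : ∀ q' < q + 1, F i q' (cat (k * h) u v)
            · rw [indicator_of_mem (subset_toMeasurable μ {v | F i q (cat (k * h) u v)}
                (hF q (Nat.lt_succ_self q)))]
              exact mul_le_mul_left (ind_mono fun _ q' hq' =>
                Fpast i q' (by omega) k u v (b1 q' hq') (hF q' (by omega))) _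
            · rw [ind_neg hF, zero_mul]; exact zero_le
        · rw [lintegral_finsetSum _ fun i _ =>
            measurable_const.indicator (measurableSet_toMeasurable _ _)]
          refine Finset.sum_le_sum fun i hi => ?_
          rw [lintegral_indicator_const (measurableSet_toMeasurable _ _), measure_toMeasurable,
            Finset.prod_eq_prod_Ico_succ_bot hqQ, mul_assoc, mul_comm (p i q)]
          exact mul_le_mul_right (mul_le_mul_right (hp i hi q hqQ k u b2) _) _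
      have inner : ∀ e k, k + e = N → ∀ u, (∀ q' < q, τ q' u ≤ k) → k ≤ σ q u →
          val μ h N A X k u ≤
            ∑ i ∈ s, ind (∀ q' < q, F i q' u) * ∏ q' ∈ Finset.Ico q Q, p i q' := by
        intro e
        induction e with
        | zero =>
          intro k hk u b1 b2
          rw [val_end (by omega)]
          by_cases hu : X u = 0
          · rw [hu]; exact zero_le
          · obtain ⟨c1, c2, _⟩ := (hX _ hu).1 q hqQ
            omega
        | succ e ih2 =>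
          intro k hk u b1 b2
          rcases b2.eq_or_lt with f | f
          · exact start k u b1 f.symm
          refine val_succ_le hμ (by omega) (Eventually.of_forall fun v =>
            (ih2 (k + 1) (by omega) _ (fun q' hq' => ?_) (not_lt.1 fun hc => ?_)).trans
              (Finset.sum_le_sum fun i _ => mul_le_mul_left (ind_mono fun hF q' hq' =>
                Fpast i q' (by omega) k u v (b1 q' hq') (hF q' hq')) _))
          · rw [hτ q' (by omega) k u v (b1 q' hq')]; exact (b1 q' hq').trans (Nat.le_succ k)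
          · have := (hσ q hqQ).back hh (Nat.lt_succ_iff.1 hc)
            omega
      exact fun k hk u b1 b2 => inner (N - k) k (by omega) u b1 (b2 hqQ)
  refine (key Q 0 (by omega) 0 (Nat.zero_le N) u0 (fun q hq => absurd hq (Nat.not_lt_zero q))
    fun _ => Nat.zero_le _).trans (Finset.sum_le_sum fun i _ => ?_)
  rw [← Finset.range_eq_Ico]
  exact mul_le_of_le_one_left zero_le (ind_le_one _)

/-- SEQ for local events which are decided at the end of their trial. -/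
theorem seq' (hμ : IsW μ) (hh : 0 ≤ h) (hA : Adp h A) {ι : Type*} (s : Finset ι) (Q : ℕ)
    {σ τ : ℕ → Pth → ℕ} (hσ : ∀ q < Q, Stop h (σ q)) (hτ : ∀ q < Q, Stop h (τ q))
    (E : ι → ℕ → Set Pth) (p : ι → ℕ → ℝ≥0∞) (X1 : ∀ w, X w ≤ 1)
    (hX : ∀ w, X w ≠ 0 → (∀ q < Q, σ q w < τ q w ∧ τ q w ≤ N ∧ (q + 1 < Q → τ q w ≤ σ (q + 1) w) ∧
      ∀ j, σ q w ≤ j → j < τ q w → w ∈ A j) ∧ ∃ i ∈ s, ∀ q < Q, w ∈ E i q)
    (hE : ∀ i ∈ s, ∀ q < Q, ∀ w w', w ∈ E i q → cat (τ q w * h) w w' ∈ E i q)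
    (hp : ∀ i ∈ s, ∀ q < Q, ∀ (k : ℕ) (u : Pth), σ q u = k →
      μ {v | cat (k * h) u v ∈ E i q} ≤ p i q)
    (u0 : Pth) : val μ h N A X 0 u0 ≤ ∑ i ∈ s, ∏ q ∈ Finset.range Q, p i q :=
  seq hμ hh hA s Q hσ hτ E p X1 hX (fun i hi q hq k u hk => le_trans (measure_mono fun v hv => by
    obtain ⟨w, hw⟩ := hv
    have := hE i hi q hq _ (sft (τ q (cat (k * h) u v) * h) (cat (k * h) u v)) hw
    rwa [hτ q hq _ _ w le_rfl, cat_back (by positivity)] at this) (hp i hi q hq k u hk)) u0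

end Pool.Agent.MP_990230_pr.K8

end
end MrgPart0

-- ======== part 1: formerly Pool.Agent.MP_990230_pr.k8.M1A
section MrgPart1

/-! # SLE8: the first visit of a fresh disc (helper48) -/

open Set MeasureTheory Filter Complex
open scoped ENNReal Topology

noncomputable section

namespace Pool.Agent.MP_990230_pr.K8

variable {a : ℝ} {μ : Measure Pth}

/-- the one point estimate for a fresh path. -/
def OneB (a : ℝ) (μ : Measure Pth) (C : ℝ) : Prop :=
  ∀ (ξ : ℂ) (ρ : ℝ), 0 < ξ.im → 0 < ρ →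
    μ {v : Pth | ∃ t, 0 ≤ t ∧ Alive a v.1 ξ t ∧ ups a v.1 ξ t ≤ ρ * ξ.im} ≤
      ENNReal.ofReal (C * ρ ^ del a)

/-- trial form: the markers have avoided `B(c, R)` up to the time `σ`; the event that after `σ`
a marker enters `B(c, r)` on a path which has short tails up to that time. -/
theorem one_trial (ha : 0 < a) {C : ℝ} (H : OneB a μ C) {σ y0 η r R : ℝ} (hσ : 0 ≤ σ)
    (hy : 0 < y0) (hη : 0 < η) {c : ℂ} (h1 : η ≤ r) (h2 : 4 * r ≤ R) (h3 : R ≤ c.im) (u : Pth)
    (hm : ∀ s ∈ Icc 0 σ, R ≤ ‖Fm a u.1 s (y0 * I) - c‖) :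
    μ {v | ∃ t, σ ≤ t ∧ Tail a (cat σ u v).1 y0 η t ∧ ‖Fm a (cat σ u v).1 t (y0 * I) - c‖ ≤ r} ≤
      ENNReal.ofReal (C * (40 * r / R) ^ del a) := by
  have hr : 0 < r := by linarith
  have hR : 0 < R := by linarith
  by_cases hc : Alive a u.1 c σ
  swap
  · refine le_trans (le_of_eq (measure_mono_null (fun v hv => ?_) measure_empty)) zero_le
    obtain ⟨t, t1, t2, t3⟩ := hv
    obtain ⟨_, t', b1, b2, _⟩ := one_det ha (cat σ u v).cont hσ t1 hy hη
      (fun s hs y hy' => t2 s hs y hy' y0 ⟨hy, le_rfl⟩) h1 h2 h3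
      (fun s hs => by rw [Fm_cat_le ha hs.1 hs.2]; exact hm s hs) t3
    exact hc ((alive_cat_le ha hσ le_rfl u v c).1
      ((loeA ha (cat σ u v).cont).mono _ _ _ b1.1 b2))
  have pi := Zt_im_pos u.cont hσ hc
  refine le_trans (measure_mono fun v hv => ?_) (H (Zt a u.1 c σ) (40 * r / R) pi (by positivity))
  obtain ⟨t, t1, t2, t3⟩ := hv
  obtain ⟨b0, t', b1, b2, b3⟩ := one_det ha (cat σ u v).cont hσ t1 hy hη
    (fun s hs y hy' => t2 s hs y hy' y0 ⟨hy, le_rfl⟩) h1 h2 h3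
    (fun s hs => by rw [Fm_cat_le ha hs.1 hs.2]; exact hm s hs) t3
  obtain ⟨τ, rfl⟩ : ∃ τ, t' = σ + τ := ⟨t' - σ, by ring⟩
  have τ0 : 0 ≤ τ := by linarith [b1.1]
  rw [ups_cat_le ha hσ le_rfl] at b0
  rw [ups_cat ha hσ τ0 u v b2] at b3
  have al := (alive_cat ha hσ τ0 u v hc).1 b2
  refine ⟨τ, τ0, al, ?_⟩
  have p2 := ups_pos al
  rw [div_mul_eq_mul_div, div_le_iff₀ pi] at b3
  rw [div_mul_eq_mul_div, le_div_iff₀ hR]
  have := mul_le_mul_of_nonneg_left b0 p2.le
  linarith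

theorem Tail.past (ha : 0 < a) {u v : Pth} {y0 η T t : ℝ} (h : Tail a (cat t u v).1 y0 η T)
    (ht : t ≤ T) : Tail a u.1 y0 η t := fun s hs y hy y' hy' => by
  have := h s ⟨hs.1, hs.2.trans ht⟩ y hy y' hy'
  rwa [Fm_cat_le ha hs.1 hs.2, Fm_cat_le ha hs.1 hs.2] at this

/-- one crossing of an interior ring whose outer layer `(ρ, R)` is crossed only once. -/
theorem m1_raw (hμ : IsW μ) (ha : 0 < a) {C : ℝ} (H : OneB a μ C) {h y0 η r ρ R : ℝ} {N : ℕ}
    (hh : 0 < h) (hy : 0 < y0) (hη : 0 < η) (hyη : y0 ≤ η) {c : ℂ} (h1 : η ≤ r) (h2 : 8 * r ≤ ρ)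
    (h3 : ρ < R) (h4 : 2 * R ≤ c.im) {x : Pth → ℕ → ℂ}
    (hx : ∀ w k, x w k = Fm a w.1 (k * h) (y0 * I)) {G : Set Pth}
    (hT : ∀ w ∈ G, Tail a w.1 y0 η (N * h))
    (hS : ∀ w ∈ G, ∀ s t : ℝ, 0 ≤ s → s ≤ t → t ≤ N * h → t ≤ s + h →
      ‖Fm a w.1 t (y0 * I) - Fm a w.1 s (y0 * I)‖ ≤ η)
    {X : Pth → ℝ≥0∞} (X1 : ∀ w, X w ≤ 1) (X0 : ∀ w, w ∉ G → X w = 0)
    (X2 : ∀ w, ¬ Cr (x w) N 1 c r R → X w = 0) (X3 : ∀ w, Cr (x w) N 2 c ρ R → X w = 0) (u0 : Pth) :
    val μ h N (fun k => {w | x w k ∈ ring c r R}) X 0 u0 ≤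
      ENNReal.ofReal (C * (80 * r / ρ) ^ del a) := by
  classical
  have hr : 0 < r := by linarith
  have past : ∀ (i k : ℕ) (u v : Pth), i ≤ k → x (cat (k * h) u v) i = x u i := by
    intro i k u v hik
    rw [hx, hx, Fm_cat_le ha (by positivity)
      (mul_le_mul_of_nonneg_right (by exact_mod_cast hik) hh.le)]
  have adp : Adp h (fun k => {w | x w k ∈ ring c r R}) :=
    ⟨fun k => by
      simp only [hx]
      exact measurable_Fm ha _ (by positivity) (measurableSet_ring c r R),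
    fun k u v => by simp only [mem_ofPred_eq, past k k u v le_rfl]⟩
  have x0 : ∀ w, R ≤ ‖x w 0 - c‖ := by
    intro w
    rw [hx, Nat.cast_zero, zero_mul, Fm_zero ha w.cont (by simpa using hy), w.zero]
    have := (abs_le.1 (abs_im_le_norm ((y0 : ℂ) * I + (0 : ℝ) - c))).1
    simp only [sub_im, add_im, mul_im, ofReal_re, I_im, mul_one, ofReal_im, I_re, mul_zero,
      add_zero] at this
    simp only [ofReal_zero] at this ⊢
    linarith
  have inner : ∀ w, X w ≠ 0 → ∃ t ≤ N, ‖x w t - c‖ ≤ r := fun w hw => by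
    obtain ⟨_, t, k1, _⟩ := not_not.1 fun hc => hw (X2 w hc)
    exact ⟨t 0, (k1 0 one_pos).2.1, (k1 0 one_pos).2.2.2⟩
  have step : ∀ w ∈ G, ∀ (i : ℕ) (s : ℝ), (i : ℝ) * h ≤ s → s ≤ (i + 1) * h → s ≤ N * h →
      ‖x w i - c‖ - η ≤ ‖Fm a w.1 s (y0 * I) - c‖ := by
    intro w hw i s s1 s2 s3
    have b1 := hS w hw (i * h) s (by positivity) s1 s3 (by linarith)
    have b2 := norm_sub_le_norm_sub_add_norm_sub (Fm a w.1 (i * h) (y0 * I))
      (Fm a w.1 s (y0 * I)) c
    rw [norm_sub_rev] at b1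
    rw [hx]
    linarith
  have first : ∀ k, k ≤ N → ∀ u, (∀ i < k, ρ < ‖x u i - c‖) → ‖x u k - c‖ ≤ ρ →
      val μ h N (fun k => {w | x w k ∈ ring c r R}) X k u ≤
        ENNReal.ofReal (C * (80 * r / ρ) ^ del a) := by
    intro k hk u b1 b2
    by_cases hG : ∃ v, cat (k * h) u v ∈ G
    swap
    · rw [val_eq_zero hμ hh.le X0 (not_exists.1 hG)]; exact zero_le
    obtain ⟨v0, hv0⟩ := hG
    have k0 : k ≠ 0 := fun e => by
      have := x0 u
      rw [e] at b2
      linarith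
    have kN : (k : ℝ) * h ≤ N * h := mul_le_mul_of_nonneg_right (by exact_mod_cast hk) hh.le
    have far : ∀ s ∈ Icc (0 : ℝ) (k * h), ρ - η ≤ ‖Fm a u.1 s (y0 * I) - c‖ := by
      intro s hs
      obtain ⟨i, i1, i2, i3⟩ : ∃ i < k, (i : ℝ) * h ≤ s ∧ s ≤ (i + 1) * h := by
        have c1 := Nat.floor_le (div_nonneg hs.1 hh.le)
        have c2 := Nat.lt_floor_add_one (s / h)
        rw [le_div_iff₀ hh] at c1
        rw [div_lt_iff₀ hh] at c2
        by_cases e : ⌊s / h⌋₊ < k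
        · exact ⟨_, e, c1, c2.le⟩
        · have c3 : (k : ℝ) ≤ ⌊s / h⌋₊ := by exact_mod_cast not_lt.1 e
          have c4 := mul_le_mul_of_nonneg_right c3 hh.le
          have c5 : ((k - 1 : ℕ) : ℝ) = k - 1 := by
            rw [Nat.cast_sub (by omega)]; simp
          exact ⟨k - 1, by omega, by rw [c5]; linarith, by rw [c5]; linarith [hs.2]⟩
      have := step _ hv0 i s i2 i3 (hs.2.trans kN)
      rw [past i k u v0 i1.le, Fm_cat_le ha hs.1 hs.2] at this
      linarith [b1 i i1]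
    have b3 : ρ - η ≤ ‖x u k - c‖ := by rw [hx]; exact far _ ⟨by positivity, le_rfl⟩
    rcases hk.eq_or_lt with e | hlt
    · rw [val_end e.ge]
      by_cases hX : X u = 0
      · rw [hX]; exact zero_le
      · obtain ⟨t, t1, t2⟩ := inner u hX
        rcases (t1.trans e.ge).eq_or_lt with e' | e'
        · rw [e'] at t2; linarith
        · linarith [b1 t e']
    have ex : ∀ v, ∃ j, 1 ≤ j ∧ (x (cat (k * h) u v) (k + j) ∉ ring c r R ∨ k + j = N) :=
      fun v => ⟨N - k, by omega, Or.inr (by omega)⟩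
    have le1 : ∀ v, k + Nat.find (ex v) ≤ N := fun v => by
      have := Nat.find_min' (ex v) (m := N - k) ⟨by omega, Or.inr (by omega)⟩
      omega
    have act : ∀ v j, j < Nat.find (ex v) → x (cat (k * h) u v) (k + j) ∈ ring c r R := by
      intro v j hj
      rcases Nat.eq_zero_or_pos j with rfl | j0
      · rw [Nat.add_zero, past k k u v le_rfl]
        exact ⟨by linarith, by linarith⟩
      · exact not_not.1 fun hc => Nat.find_min (ex v) hj ⟨j0, Or.inl hc⟩
    have main := val_episode_two (N := N) (X := X) hμ hh.le adp (k := k) (u := u)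
      (fun v => Nat.find (ex v))
      (fun v => ⟨(Nat.find_spec (ex v)).1, le1 v⟩) (fun v w => ?_) act
      {v | ∃ t, (k : ℝ) * h ≤ t ∧ Tail a (cat (k * h) u v).1 y0 η t ∧
        ‖Fm a (cat (k * h) u v).1 t (y0 * I) - c‖ ≤ r} (c := 0) (C := 1) (fun v => ?_)
    · rw [zero_add, one_mul] at main
      refine main.trans ((one_trial ha H (by positivity) hy hη h1 (R := ρ / 2) (by linarith)
        (by linarith) u fun s hs => by linarith [far s hs]).trans (le_of_eq ?_))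
      congr 3
      field_simp
      norm_num
    · have same : ∀ j, j ≤ Nat.find (ex v) →
          x (cat (k * h) u (cat ((Nat.find (ex v) : ℕ) * h) v w)) (k + j) =
            x (cat (k * h) u v) (k + j) := by
        intro j hj
        have e := cat_grid hh.le (Nat.le_add_right k (Nat.find (ex v))) u v w
        rw [Nat.add_sub_cancel_left] at e
        rw [← e, past _ _ _ _ (by omega)]
      rw [Nat.find_eq_iff]
      refine ⟨by rw [same _ le_rfl]; exact Nat.find_spec (ex v), fun j hj => ?_⟩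
      rw [same j hj.le]
      exact Nat.find_min (ex v) hj
    · refine ⟨val_le_const hμ hh.le fun w => by simpa using X1 _, fun hv => ?_⟩
      refine val_le_const hμ hh.le fun w => le_of_eq (not_not.1 fun hX => ?_)
      have sp := Nat.find_spec (ex v)
      have l1 := le1 v
      have a1 := act v
      generalize Nat.find (ex v) = τ at sp l1 a1 hX
      have wG : cat ((k + τ : ℕ) * h) (cat (k * h) u v) w ∈ G := not_not.1 fun hc => hX (X0 _ hc)
      obtain ⟨t, t1, t2⟩ := inner _ hX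
      have kτ : ((k + τ : ℕ) : ℝ) * h ≤ N * h :=
        mul_le_mul_of_nonneg_right (by exact_mod_cast l1) hh.le
      have out : r < ‖x (cat (k * h) u v) (k + τ) - c‖ := not_le.1 fun hc => hv
        ⟨(k + τ : ℕ) * h, mul_le_mul_of_nonneg_right (by exact_mod_cast Nat.le_add_right k τ) hh.le,
          (hT _ wG).past ha kτ, by rw [← hx]; exact hc⟩
      have late : k + τ < t := not_le.1 fun hc => by
        rw [past _ _ _ _ hc] at t2
        rcases lt_or_ge t k with e | e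
        · rw [past _ _ _ _ e.le] at t2
          linarith [b1 t e]
        · rcases hc.eq_or_lt with e' | e'
          · rw [e'] at t2; linarith
          · have := (a1 (t - k) (by omega)).1
            rw [show k + (t - k) = t by omega] at this
            linarith
      have big : R ≤ ‖x (cat (k * h) u v) (k + τ) - c‖ := by
        rcases sp.2 with e | e
        · exact not_lt.1 fun hc => e ⟨out, hc⟩
        · omega
      refine hX (X3 _ (((Cr.zero _ 0 c ρ R).snoc le_rfl (Nat.zero_le k) le_rfl (x0 _) ?_).snoc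
        (Nat.le_add_right k τ) late.le t1 ?_ (by linarith)))
      · rw [past _ _ _ _ (Nat.le_add_right k τ), past _ _ _ _ le_rfl]; exact b2
      · rw [past _ _ _ _ le_rfl]; exact big
  have key : ∀ d k, k + d = N → ∀ u, (∀ i < k, ρ < ‖x u i - c‖) →
      val μ h N (fun k => {w | x w k ∈ ring c r R}) X k u ≤
        ENNReal.ofReal (C * (80 * r / ρ) ^ del a) := by
    intro d
    induction d with
    | zero =>
      intro k hk u b1
      by_cases b2 : ‖x u k - c‖ ≤ ρ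
      · exact first k (by omega) u b1 b2
      · rw [val_end (by omega)]
        by_cases hX : X u = 0
        · rw [hX]; exact zero_le
        · obtain ⟨t, t1, t2⟩ := inner u hX
          rcases (show t ≤ k by omega).eq_or_lt with e' | e'
          · rw [e'] at t2; exact absurd (by linarith) b2
          · linarith [b1 t e']
    | succ d ih =>
      intro k hk u b1
      by_cases b2 : ‖x u k - c‖ ≤ ρ
      · exact first k (by omega) u b1 b2
      · refine val_succ_le hμ (by omega) (Eventually.of_forall fun v =>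
          ih (k + 1) (by omega) _ fun i hi => ?_)
        rw [past i k u v (by omega)]
        rcases (show i ≤ k by omega).eq_or_lt with e | e
        · rw [e]; exact not_le.1 b2
        · exact b1 i e
  exact key N 0 (by omega) u0 fun i hi => absurd hi (Nat.not_lt_zero i)

end Pool.Agent.MP_990230_pr.K8

end
end MrgPart1

-- ======== part 2: formerly Pool.Agent.MP_990230_pr.k8.FinA
section MrgPart2

/-! # SLE8: from ordered visits of the markers to the main statement (helper48) -/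

open Set MeasureTheory ProbabilityTheory Filter Complex
open scoped ENNReal NNReal Topology

noncomputable section

namespace Pool.Agent.MP_990230_pr.K8

universe u

/-- ordered visits of the curve before the time `T`. -/
def OrdT (γ : ℝ → ℂ) (z : ℕ → ℂ) (n : ℕ) (ε T : ℝ) : Prop :=
  (∀ j < n, visit γ (z j) ε < ⊤ ∧ (visit γ (z j) ε).toReal ≤ T) ∧
    ∀ j, j + 1 < n → visit γ (z j) ε < visit γ (z (j + 1)) ε

/-- the estimate on the path space. -/
def PRaw (a : ℝ) : Prop :=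
  ∃ C : ℝ, 0 < C ∧ ∀ (n : ℕ) (z : ℕ → ℂ), 1 ≤ n → (∀ j < n, 0 < (z j).im) →
    (∀ i < n, ∀ j < n, i ≠ j → z i ≠ z j) → ∃ ε0 : ℝ, 0 < ε0 ∧ ∀ ε : ℝ, 0 < ε → ε < ε0 →
      ∀ μ, IsW μ → ∀ T : ℝ, μ {u : Pth | ∃ γ, Generated a u.1 γ ∧ OrdT γ z n ε T} ≤
        ENNReal.ofReal (C ^ n * ∏ j ∈ Finset.range n, (ε / ‖z j - prv z j‖) ^ del a)

/-- ordered visits of the curve give ordered visits of the sampled markers. -/
theorem vst_of_ord {a : ℝ} {U : ℝ → ℝ} (ha : 0 < a) (hU : Continuous U) {γ : ℝ → ℂ}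
    (hγ : Generated a U γ) {y0 η ε h T : ℝ} {N n : ℕ} {z : ℕ → ℂ} (hy : 0 < y0) (hη : 0 < η)
    (hε : 2 * η ≤ ε) (hh : 0 < h) (hN : T ≤ N * h) (hz : ∀ j < n, ε < (z j).im)
    (hT : ∀ u ∈ Icc (0 : ℝ) (N * h), ∀ y ∈ Ioc 0 y0, ‖Fm a U u (y * I) - Fm a U u (y0 * I)‖ ≤ η)
    (hS : ∀ s t : ℝ, 0 ≤ s → s ≤ t → t ≤ N * h → t ≤ s + h →
      ‖Fm a U t (y0 * I) - Fm a U s (y0 * I)‖ ≤ η)
    (ho : OrdT γ z n ε T) : Vst (fun k => Fm a U (k * h) (y0 * I)) N n z ε := by
  have e0 : 0 < ε := by linarith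
  have ex : ∀ j, ∃ u : ℝ, j < n → (0 ≤ u ∧ u ≤ (visit γ (z j) ε).toReal ∧
      (∀ i, j = i + 1 → (visit γ (z i) ε).toReal ≤ u) ∧
      ‖Fm a U u (y0 * I) - z j‖ ≤ ε + 3 * η) := by
    intro j
    by_cases hj : j < n
    swap
    · exact ⟨0, fun h => absurd h hj⟩
    obtain ⟨o1, o2⟩ := ho.1 j hj
    rcases j with _ | i
    · have τ0 := ((vis_stmt loeA_stmt (grow_stmt clip_stmt loeA_stmt (loeB_stmt loeA_stmt))
        a U γ ha hU hγ).2 (z 0) ε e0 (hz 0 hj) o1).1
      obtain ⟨u, u1, u2⟩ := visit_marker ha hU hγ hy hη e0 (hz 0 hj) o1 le_rfl τ0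
        fun u hu => hT u ⟨hu.1, hu.2.trans (o2.trans hN)⟩
      exact ⟨u, fun _ => ⟨u1.1, u1.2, fun i hi => absurd hi (by omega), u2⟩⟩
    · obtain ⟨u, u1, u2⟩ := visit_marker ha hU hγ hy hη e0 (hz _ hj) o1
        (s := (visit γ (z i) ε).toReal) ENNReal.toReal_nonneg
        (ENNReal.toReal_strict_mono o1.ne (ho.2 i hj))
        fun u hu => hT u ⟨ENNReal.toReal_nonneg.trans hu.1, hu.2.trans (o2.trans hN)⟩
      exact ⟨u, fun _ => ⟨ENNReal.toReal_nonneg.trans u1.1, u1.2,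
        fun i' hi => by rw [← Nat.succ_injective hi]; exact u1.1, u2⟩⟩
  choose u hu using ex
  refine ⟨fun j => ⌊u j / h⌋₊, fun j hj => ?_, fun j hj => ?_⟩
  · obtain ⟨b1, b2, _, b4⟩ := hu j hj
    have b5 : u j ≤ N * h := b2.trans ((ho.1 j hj).2.trans hN)
    have c1 := Nat.floor_le (div_nonneg b1 hh.le)
    have c2 := Nat.lt_floor_add_one (u j / h)
    rw [le_div_iff₀ hh] at c1
    rw [div_lt_iff₀ hh] at c2
    refine ⟨Nat.floor_le_of_le ((div_le_iff₀ hh).2 b5), ?_⟩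
    have c3 := hS (⌊u j / h⌋₊ * h) (u j) (by positivity) c1 b5 (by linarith)
    have c4 := norm_sub_le_norm_sub_add_norm_sub (Fm a U (⌊u j / h⌋₊ * h) (y0 * I))
      (Fm a U (u j) (y0 * I)) (z j)
    rw [norm_sub_rev] at c3
    show ‖Fm a U (⌊u j / h⌋₊ * h) (y0 * I) - z j‖ ≤ _
    linarith
  · exact Nat.floor_le_floor (div_le_div_of_nonneg_right
      ((hu j (by omega)).2.1.trans ((hu (j + 1) hj).2.2.1 j rfl)) hh.le)

open Asm in
theorem main_of_raw {κ : ℝ} (H : PRaw (2 / κ)) : MainStmt.{u} κ := by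
  intro chat hc
  obtain ⟨C, c0, H⟩ := H
  have hδ : 1 + κ / 8 - 2 = -del (2 / κ) := by unfold del; field_simp; ring
  refine ⟨C / chat, fun Ω mΩ P B hBM γ hγ n z hz G hG => ?_⟩
  rw [hδ] at hG ⊢
  rw [div_pow, div_mul_eq_mul_div, le_div_iff₀ (pow_pos hc n), mul_comm G]
  obtain ⟨X, mX, wX, eX⟩ := exists_isW hBM
  have hP : IsProbabilityMeasure P := hBM.toIsPreBrownianReal.isGaussianProcess.isProbabilityMeasure
  rcases Nat.eq_zero_or_pos n with rfl | hn
  · refine le_of_small hG fun b hb => ⟨fun _ => b, fun _ => ⟨hb, le_rfl⟩, ?_⟩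
    simp only [Finset.univ_eq_empty, Finset.prod_empty, one_mul, pow_zero]
    exact measureReal_le_one
  by_cases hi : Function.Injective z
  swap
  · have : ∃ i j, i < j ∧ z i = z j := by
      obtain ⟨i, j, e, hij⟩ := Function.not_injective_iff.1 hi
      rcases lt_or_gt_of_ne hij with t | t
      · exact ⟨i, j, t, e⟩
      · exact ⟨j, i, t, e.symm⟩
    obtain ⟨i, j, hij, e⟩ := this
    refine le_of_small hG fun b hb => ⟨fun _ => b, fun _ => ⟨hb, le_rfl⟩, ?_⟩
    have e1 : {ω | Ordered (γ ω) z fun _ => b} = ∅ :=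
      eq_empty_of_forall_notMem fun ω h => by
        have := h.1 hij
        simp only [e] at this
        exact lt_irrefl _ this
    rw [e1, measure_empty, ENNReal.toReal_zero, mul_zero]
    exact mul_nonneg (pow_pos c0 n).le
      (Finset.prod_nonneg fun i _ => Real.rpow_nonneg (norm_nonneg _) _)
  let z' : ℕ → ℂ := fun i => if h : i < n then z ⟨i, h⟩ else 0
  have zz : ∀ i : Fin n, z' i = z i := fun i => dif_pos i.2
  have e1 : ∏ i : Fin n, ‖z i - (Fin.cons 0 z : Fin (n + 1) → ℂ) i.castSucc‖ ^ (-del (2 / κ)) =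
      ∏ l ∈ Finset.range n, ‖z' l - prv z' l‖ ^ (-del (2 / κ)) := by
    rw [← Fin.prod_univ_eq_prod_range (fun l => ‖z' l - prv z' l‖ ^ (-del (2 / κ))) n]
    refine Finset.prod_congr rfl fun i _ => ?_
    rw [zz]
    congr 3
    obtain ⟨_ | i, hi⟩ := i
    · rfl
    · exact (zz ⟨i, by omega⟩).symm
  rw [e1]
  obtain ⟨ε0, e0, H⟩ := H n z' hn (fun j hj => by rw [zz ⟨j, hj⟩]; exact hz _)
    (fun i h1 j h2 hij e => by
      rw [zz ⟨i, h1⟩, zz ⟨j, h2⟩] at e
      exact hij (congrArg Fin.val (hi e)))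
  refine le_of_small hG fun b hb => ?_
  have pε : 0 < min b (ε0 / 2) := lt_min hb (by linarith)
  refine ⟨fun _ => min b (ε0 / 2), fun _ => ⟨pε, min_le_left _ _⟩, ?_⟩
  replace H := H _ pε ((min_le_right _ _).trans_lt (by linarith)) _ wX
  generalize min b (ε0 / 2) = ε at pε H
  have key : P {ω | Ordered (γ ω) z fun _ => ε} ≤
      ENNReal.ofReal (C ^ n * ∏ j ∈ Finset.range n, (ε / ‖z' j - prv z' j‖) ^ del (2 / κ)) := by
    have sub : {ω | Ordered (γ ω) z fun _ => ε} ⊆ ⋃ T : ℕ, {ω | OrdT (γ ω) z' n ε T} := by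
      intro ω h
      obtain ⟨T, hT⟩ := exists_nat_ge (∑ j : Fin n, (visit (γ ω) (z j) ε).toReal)
      refine mem_iUnion.2 ⟨T, fun j hj => ?_, fun j hj => ?_⟩
      · rw [zz ⟨j, hj⟩]
        exact ⟨h.2 ⟨j, hj⟩, le_trans (Finset.single_le_sum
          (f := fun j : Fin n => (visit (γ ω) (z j) ε).toReal)
          (fun _ _ => ENNReal.toReal_nonneg) (Finset.mem_univ _)) hT⟩
      · rw [zz ⟨j, by omega⟩, zz ⟨j + 1, hj⟩]
        exact h.1 (show (⟨j, by omega⟩ : Fin n) < ⟨j + 1, hj⟩ from Nat.lt_succ_self j)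
    have mono : Monotone fun T : ℕ => {ω | OrdT (γ ω) z' n ε T} := fun T T' hT ω h =>
      ⟨fun j hj => ⟨(h.1 j hj).1, (h.1 j hj).2.trans (by exact_mod_cast hT)⟩, h.2⟩
    refine (measure_mono sub).trans ?_
    rw [mono.measure_iUnion]
    refine iSup_le fun T => le_trans ?_ ((Measure.le_map_apply mX.aemeasurable _).trans (H T))
    refine measure_mono_ae ?_
    filter_upwards [hγ, eX] with ω t1 t2 t3
    exact ⟨γ ω, by rw [t2]; exact t1, t3⟩
  have p1 : 0 ≤ ∏ j ∈ Finset.range n, (ε / ‖z' j - prv z' j‖) ^ del (2 / κ) :=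
    Finset.prod_nonneg fun _ _ => Real.rpow_nonneg (div_nonneg pε.le (norm_nonneg _)) _
  have k2 := ENNReal.toReal_le_of_le_ofReal (mul_nonneg (pow_pos c0 n).le p1) key
  rw [Fin.prod_univ_eq_prod_range (fun _ => ε ^ (-del (2 / κ))) n]
  refine (mul_le_mul_of_nonneg_left k2
    (Finset.prod_nonneg fun _ _ => Real.rpow_nonneg pε.le _)).trans (le_of_eq ?_)
  rw [mul_left_comm, ← Finset.prod_mul_distrib]
  congr 1
  refine Finset.prod_congr rfl fun j _ => ?_
  rw [Real.div_rpow pε.le (norm_nonneg _), Real.rpow_neg pε.le, Real.rpow_neg (norm_nonneg _),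
    div_eq_mul_inv (ε ^ del (2 / κ)), ← mul_assoc, inv_mul_cancel₀ (Real.rpow_pos_of_pos pε _).ne', one_mul]

end Pool.Agent.MP_990230_pr.K8

end
end MrgPart2

-- ======== part 3: formerly Pool.Agent.MP_990230_pr.k8.Br48
section MrgPart3

/-! # SLE8: SEQ, ONET, M1 and the final passage in the form of the specification (helper48) -/

open Set MeasureTheory Filter Complex
open scoped ENNReal Topology

noncomputable section

namespace Pool.Agent.MP_990230_pr.K8

universe u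

variable {a : ℝ}

theorem oneB_of (H : OneStmt a) : ∃ C : ℝ, 0 < C ∧ ∀ μ, IsW μ → OneB a μ C := by
  obtain ⟨C, c0, H⟩ := H
  refine ⟨C, c0, fun μ hμ ξ ρ h1 h2 => ?_⟩
  have := H μ hμ ξ (ρ * ξ.im) (mul_pos h2 h1)
  rwa [mul_div_cancel_right₀ _ h1.ne'] at this

theorem del_nonneg (ha : Rg a) : 0 ≤ del a := by
  unfold del
  rw [sub_nonneg, div_le_one (by linarith [ha.1])]
  linarith [ha.1]

theorem oneT_stmt (ha : Rg a) (H : OneStmt a) : OneTStmt a := by
  obtain ⟨C, c0, H⟩ := oneB_of H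
  have d0 := del_nonneg ha
  have p1 : 1 ≤ (40 : ℝ) ^ del a := Real.one_le_rpow (by norm_num) d0
  refine ⟨(C + 1) * 40 ^ del a, by nlinarith, fun μ hμ y0 η h u c s ρ r hs hr h1 h2 h3 => ?_⟩
  have := hμ.prob
  by_cases hE : 0 < y0 ∧ y0 ≤ η ∧ ∀ q ∈ Icc 0 s, ρ ≤ ‖gm a u q y0 - c‖
  swap
  · refine le_trans (le_of_eq (measure_mono_null (fun v hv => ?_) measure_empty)) zero_le
    obtain ⟨t, _, g, hm, _⟩ := hv
    exact hE ⟨g.y0_pos, g.y0_le, hm⟩
  obtain ⟨e1, e2, e3⟩ := hE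
  have hρ : 0 < ρ := by linarith
  have e : (40 * r / ρ) ^ del a = 40 ^ del a * (r / ρ) ^ del a := by
    rw [mul_div_assoc, Real.mul_rpow (by norm_num) (by positivity)]
  have p2 : 0 ≤ (40 * r / ρ) ^ del a := by positivity
  rw [mul_assoc, ← e]
  by_cases h4 : 4 * r ≤ ρ
  · refine le_trans (measure_mono fun v hv => ?_)
      ((one_trial ha.pos (H μ hμ) hs e1 (by linarith) h1 h4 h3 u e3).trans
        (ENNReal.ofReal_le_ofReal (by linarith)))
    obtain ⟨t, t1, g, _, t2⟩ := hv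
    exact ⟨t, t1, g.tail, t2⟩
  · refine prob_le_one.trans (ENNReal.one_le_ofReal.2 ?_)
    have p3 : 1 ≤ (40 * r / ρ) ^ del a :=
      Real.one_le_rpow ((one_le_div hρ).2 (by linarith [not_le.1 h4])) d0
    nlinarith

theorem Good.step' {y0 η h T : ℝ} {u : Pth} (H : Good a y0 η h T u) (s t : ℝ) (h1 : 0 ≤ s)
    (h2 : s ≤ t) (h3 : t ≤ T) (h4 : t ≤ s + h) :
    ‖Fm a u.1 t (y0 * I) - Fm a u.1 s (y0 * I)‖ ≤ η :=
  H.step t ⟨h1.trans h2, h3⟩ s ⟨h1, h2.trans h3⟩ (by rw [abs_of_nonneg (by linarith)]; linarith)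

theorem m1_stmt (ha : Rg a) (H : OneStmt a) : M1St (SS a) (del a) := by
  obtain ⟨C, c0, H⟩ := oneB_of H
  have d0 := del_nonneg ha
  refine ⟨1, fun w hw => ⟨(C + 1) * (80 * Real.exp w) ^ del a, by positivity,
    fun c r R hr h1 h2 => bnd_of hr fun X hη => ?_⟩⟩
  have e0 := Real.exp_pos w
  have hR : 0 < R := lt_of_lt_of_le (by positivity) h1
  have hρ : 0 < R * Real.exp (-w) := by positivity
  have e : (80 * r / (R * Real.exp (-w))) ^ del a = (80 * Real.exp w) ^ del a * (r / R) ^ del a := by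
    rw [← Real.mul_rpow (by positivity) (by positivity), Real.exp_neg]
    congr 1
    field_simp
  have p2 : 0 ≤ (80 * r / (R * Real.exp (-w))) ^ del a := by positivity
  rw [mul_assoc, ← e]
  by_cases h4 : 8 * r ≤ R * Real.exp (-w)
  · refine (m1_raw X.isW ha.pos (H X.μ X.isW) X.h_pos X.y0_pos (X.y0_pos.trans_le X.y0_le) X.y0_le
      hη h4 (mul_lt_of_lt_one_right hR (Real.exp_lt_one_iff.2 (by linarith))) (by linarith)
      (x := X.x) (fun _ _ => rfl) (fun w hw => (X.good w hw).tail)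
      (fun w hw => (X.good w hw).step') (fun w => ?_) (fun w hw => indicator_of_notMem hw _)
      (fun w hw => ?_) (fun w hw => ?_) default).trans (ENNReal.ofReal_le_ofReal (by linarith))
    · exact indicator_le' (fun _ _ => ind_le_one _) (fun _ _ => zero_le_one) _
    · exact le_zero_iff.1 ((indicator_le_self _ _ _).trans (ind_neg fun h => hw h.1).le)
    · exact le_zero_iff.1 ((indicator_le_self _ _ _).trans (ind_neg fun h => h.2 hw).le)
  · refine (X.vl_le_one _ _ 0 default).trans (ENNReal.one_le_ofReal.2 ?_)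
    have p3 : 1 ≤ (80 * r / (R * Real.exp (-w))) ^ del a :=
      Real.one_le_rpow ((one_le_div hρ).2 (by linarith [not_le.1 h4])) d0
    nlinarith

theorem praw_of (ha : Rg a) (hG : GlobSt (SS a) (del a)) (hA : APStmt a) : PRaw a := by
  obtain ⟨C, c0, hG⟩ := hG
  refine ⟨C, c0, fun n z hn him hinj => ?_⟩
  obtain ⟨ε0, e0, hG⟩ := hG n z hn him fun j hj e => by
    unfold prv at e
    split_ifs at e with h0
    · have := him j hj
      rw [e] at this
      simp at this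
    · exact hinj j hj (j - 1) (by omega) (by omega) e
  obtain ⟨j0, hj0, hmin⟩ := (Finset.range n).exists_min_image (fun j => (z j).im)
    ⟨0, Finset.mem_range.2 hn⟩
  refine ⟨min ε0 (z j0).im, lt_min e0 (him j0 (Finset.mem_range.1 hj0)),
    fun ε hε hε0 μ hμ T => ?_⟩
  obtain ⟨η0, n0, hG⟩ := hG ε hε (hε0.trans_le (min_le_left _ _))
  refine ENNReal.le_of_forall_pos_le_add fun e he _ => ?_
  have pη : 0 < min η0 (ε / 2) := lt_min n0 (by linarith)
  obtain ⟨y0, y1, y2, h0, h1, hA⟩ := hA μ hμ (min η0 (ε / 2)) e (|T| + 2) pη he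
  have ph : 0 < min h0 1 := lt_min h1 one_pos
  obtain ⟨G, g1, g2, g3⟩ := hA (min h0 1) ph (min_le_left _ _)
  have h2 : min h0 1 ≤ 1 := min_le_right _ _
  generalize min h0 1 = h at ph g3 h2
  have c0 : 0 ≤ |T| / h := div_nonneg (abs_nonneg T) ph.le
  have c1 := Nat.floor_le c0
  have c2 := Nat.lt_floor_add_one (|T| / h)
  rw [le_div_iff₀ ph] at c1
  rw [div_lt_iff₀ ph] at c2
  let X : Ctx a := ⟨μ, y0, min η0 (ε / 2), h, ⌊|T| / h⌋₊ + 1, G, hμ, y1, y2, ph, g1,
    fun u hu => (g3 u hu).mono (by push_cast; linarith)⟩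
  have hv := hG X.stp ⟨X, rfl⟩ (min_le_left _ _)
  have mV : Pay.Meas fun N x => ind (Vst x N n z ε) := fun N => measurable_ind (by
    have e : {x : ℕ → ℂ | Vst x N n z ε} = ⋃ k : Fin n → Fin (N + 1),
        {x | (∀ j : Fin n, ‖x (k j) - z j‖ ≤ 3 * ε) ∧ ∀ (j : ℕ) (h : j + 1 < n),
          (k ⟨j, by omega⟩ : ℕ) ≤ k ⟨j + 1, h⟩} := by
      ext x
      refine ⟨fun ⟨k, k1, k2⟩ => mem_iUnion.2 ⟨fun j => ⟨k j, Nat.lt_succ_of_le (k1 j j.2).1⟩,
        fun j => (k1 j j.2).2, fun j h => k2 j h⟩, fun hx => ?_⟩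
      obtain ⟨k, k1, k2⟩ := mem_iUnion.1 hx
      refine ⟨fun j => if h : j < n then k ⟨j, h⟩ else 0, fun j hj => ?_, fun j hj => ?_⟩
      · simp only [dif_pos hj]
        exact ⟨Nat.lt_succ_iff.1 (k ⟨j, hj⟩).2, k1 ⟨j, hj⟩⟩
      · simp only [dif_pos hj, dif_pos (show j < n by omega)]
        exact k2 j hj
    rw [e]
    refine MeasurableSet.iUnion fun k => MeasurableSet.inter ?_ (MeasurableSet.const _)
    refine MeasurableSet.congr (MeasurableSet.iInter (ι := Fin n) fun j =>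
      measurableSet_le (((measurable_pi_apply (k j : ℕ)).sub_const (z j)).norm)
        (measurable_const (a := 3 * ε))) ?_
    ext x
    simp only [mem_iInter]
    rfl)
  have mP := (X.ok ha.pos).mpay mV
  have hl := (lintegral_le_val (A := X.stp.act univ) hμ ph.le mP (Nat.succ_pos _) default).trans hv
  have sub : {u : Pth | ∃ γ, Generated a u.1 γ ∧ OrdT γ z n ε T} ⊆
      {u | 1 ≤ X.stp.pay (fun N x => ind (Vst x N n z ε)) u} ∪ Gᶜ := by
    rintro u ⟨γ, k1, k2⟩
    by_cases hu : u ∈ G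
    swap
    · exact Or.inr hu
    have g := X.good u hu
    have := vst_of_ord ha.pos u.cont k1 y1 pη (by linarith [min_le_right η0 (ε / 2)]) ph
      (N := ⌊|T| / h⌋₊ + 1) (by push_cast; linarith [le_abs_self T])
      (fun j hj => (hε0.trans_le (min_le_right _ _)).trans_le (hmin j (Finset.mem_range.2 hj)))
      (fun t ht y hy => g.tail t ht y hy y0 ⟨y1, le_rfl⟩) g.step' k2
    refine Or.inl (show 1 ≤ X.stp.pay _ u from le_of_eq ?_)
    exact ((indicator_of_mem (show u ∈ X.stp.G from hu) _).trans (ind_pos this)).symm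
  refine (measure_mono sub).trans ((measure_union_le _ _).trans (add_le_add ?_ ?_))
  · have := mul_meas_ge_le_lintegral₀ (μ := μ) mP.aemeasurable 1
    rw [one_mul] at this
    exact this.trans hl
  · rwa [ENNReal.ofReal_coe_nnreal] at g2

theorem main8 (H : ∀ a, Rg a → GlobSt (SS a) (del a) ∧ APStmt a) : Main8Stmt.{u} := by
  intro κ h4 h8
  have h0 : 0 < κ := by linarith
  have ha : Rg (2 / κ) := ⟨by rw [lt_div_iff₀ h0]; linarith, by rw [div_lt_iff₀ h0]; linarith⟩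
  exact main_of_raw (praw_of ha (H _ ha).1 (H _ ha).2)

/-- the closing indices of the successive trial windows. -/
def tq (p : Stp) (Gt St Md : ℕ → Set ℂ) : ℕ → Pth → ℕ
  | 0 => fun _ => 0
  | q + 1 => fst p.N (fun u => fst p.N (fst p.N (tq p Gt St Md q) fun j u => p.x u j ∈ Gt q)
      (fun j u => p.x u j ∈ St q) u + 1) fun j u => p.x u j ∉ Md q

theorem Stop.succ {h : ℝ} {σ : Pth → ℕ} (H : Stop h σ) : Stop h fun u => σ u + 1 :=
  fun k u v hk => congrArg (· + 1) (H k u v (Nat.le_of_succ_le hk))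

theorem fst_eq {N : ℕ} {σ : Pth → ℕ} {P : ℕ → Pth → Prop} {u : Pth} {j : ℕ} (hj : j ≤ N)
    (H : IsLeast {j | σ u ≤ j ∧ P j u} j) : fst N σ P u = j := by
  have h1 := fst_le H.1.1 hj H.1.2
  exact le_antisymm h1 (H.2 (fst_spec (h1.trans hj)))

theorem seq_stmt : SeqStmt := by
  intro p R Y Gt St Md Q ι Pi Ev pr ok hR hsub hY hpast hpr hX
  have hh := ok.h.le
  have past : ∀ (j k : ℕ) (u v : Pth), j ≤ k → p.x (cat (k * p.h) u v) j = p.x u j := by
    intro j k u v hjk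
    rw [← ok.past j (cat (k * p.h) u v) v, ← ok.past j u v,
      cat_cat_le _ _ _ (mul_le_mul_of_nonneg_right (by exact_mod_cast hjk) hh)]
  let sq : ℕ → Pth → ℕ := fun q => fst p.N (fst p.N (tq p Gt St Md q) fun j u => p.x u j ∈ Gt q)
    fun j u => p.x u j ∈ St q
  have st : ∀ q, Stop p.h (tq p Gt St Md q) → Stop p.h (sq q) := fun q H =>
    (H.fst hh (fun j k u v hjk => by rw [past j k u v hjk]) _).fst hh
      (fun j k u v hjk => by rw [past j k u v hjk]) _
  have tt : ∀ q, Stop p.h (tq p Gt St Md q) := by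
    intro q
    induction q with
    | zero => exact Stop.const _ 0
    | succ q ih => exact (st q ih).succ.fst hh (fun j k u v hjk => by rw [past j k u v hjk]) _
  refine seq ok.w hh (ok.adp hR) Pi Q (σ := sq) (τ := fun q => tq p Gt St Md (q + 1))
    (fun q _ => st q (tt q)) (fun q _ => tt (q + 1))
    (fun i q => {w | sq q w < tq p Gt St Md (q + 1) w ∧
      Ev i q w (sq q w) (tq p Gt St Md (q + 1) w)}) pr
    (fun w => indicator_le' (fun _ _ => hY _ _) (fun _ _ => zero_le_one) _) (fun w hw => ?_)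
    (fun i hi q hq k u hk => le_trans (measure_mono fun v hv => ?_) (hpr i hi q hq u k)) default
  · have wG : w ∈ p.G := not_not.1 fun hc => hw (indicator_of_notMem hc _)
    obtain ⟨g, s, t, H, hN, i, hi, hE⟩ := hX w wG fun hc => hw ((indicator_of_mem wG _).trans hc)
    have one : ∀ q < Q, tq p Gt St Md q w = (if q = 0 then 0 else t (q - 1)) →
        sq q w = s q ∧ tq p Gt St Md (q + 1) w = t q := by
      intro q hq e
      obtain ⟨b1, b2, b3⟩ := H q hq
      have c1 := b2.1.1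
      have c2 := b3.1.1
      have c3 := hN q hq
      have e1 : fst p.N (tq p Gt St Md q) (fun j u => p.x u j ∈ Gt q) w = g q :=
        fst_eq (by omega) (by rw [e]; exact b1)
      have e2 : sq q w = s q := fst_eq (by omega) (by rw [e1]; exact b2)
      refine ⟨e2, fst_eq c3 ?_⟩
      show IsLeast {j | sq q w + 1 ≤ j ∧ p.x w j ∉ Md q} (t q)
      rw [e2]
      exact b3
    have all : ∀ q, q ≤ Q → tq p Gt St Md q w = (if q = 0 then 0 else t (q - 1)) := by
      intro q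
      induction q with
      | zero => exact fun _ => rfl
      | succ q ih => exact fun hq => (one q hq (ih (by omega))).2
    have two : ∀ q < Q, sq q w = s q ∧ tq p Gt St Md (q + 1) w = t q :=
      fun q hq => one q hq (all q hq.le)
    refine ⟨fun q hq => ?_, i, hi, fun q hq => ?_⟩
    · obtain ⟨_, b2, b3⟩ := H q hq
      simp only [(two q hq).1, (two q hq).2]
      refine ⟨b3.1.1, hN q hq, fun hq1 => ?_, fun j j1 j2 => ?_⟩
      · obtain ⟨c1, c2, _⟩ := H (q + 1) hq1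
        rw [(two _ hq1).1]
        exact le_trans c1.1.1 c2.1.1
      · rcases j1.eq_or_lt with e | e
        · exact (hsub q hq).1 (e ▸ b2.1.2)
        · exact (hsub q hq).2 (not_not.1 fun hc => absurd (b3.2 ⟨e, hc⟩) (not_le.2 j2))
    · show sq q w < _ ∧ _
      rw [(two q hq).1, (two q hq).2]
      exact ⟨(H q hq).2.2.1.1, hE q hq⟩
  · obtain ⟨w, w1, w2⟩ := hv
    have e1 : sq q (cat (k * p.h) u v) = k := by rw [st q (tt q) k u v hk.le, hk]
    have e2 := tt (q + 1) _ (cat (k * p.h) u v) w le_rfl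
    rw [e2] at w1 w2
    have e3 := (st q (tt q)).back hh w1.le
    rw [← e3, e1] at w1 w2
    exact ⟨_, w1, hpast i q _ w _ _ w1.le w2⟩

end Pool.Agent.MP_990230_pr.K8

end
end MrgPart3

-- marker of a merged file
example : 731051 + 396268 = 731051 + 396268 := rfl

end MrgPart1

-- marker of a merged file
example : 731051 + 396268 = 731051 + 396268 := rfl
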