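import Pool.Agent.MP_990230_pr.k8.PhG

-- ======== part 0: formerly Pool.Agent.MP_990230_pr.k8.Flat
section MrgPart0

/-! # SLE8 tools: FLAT and RAD -/

open Set MeasureTheory Filter Complex
open scoped ENNReal Topology Real

noncomputable section

namespace Pool.Agent.MP_990230_pr.K8

variable {a : ℝ}

/-- FLAT -/
theorem flat_stmt (ha : Rg a) : FlatStmt a := by
  intro u c y0 η h T ρ s0 t y θ H hρ hs hst hT hc θ0 θ1 hy
  have ha0 := ha.pos
  have hU := u.cont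
  have hy0 := H.y0_pos
  have hη := H.eta_pos
  have hρ0 : 0 < ρ := by linarith
  have yp : 0 < y := hy0.trans_le hy
  have ht := hs.trans hst
  have hd : ∀ r, s0 ≤ r → ¬ Alive a u.1 c r := fun r hr h => hc (LoeAM.alive_mono hr h)
  have y1p : 0 < θ * y / 8 := by positivity
  have y1l : θ * y ≤ y := mul_le_of_le_one_left yp.le θ1
  rcases door_link ha.1.le ha.le_one hU hy0 hη H.tail hs hst hT (hd t hst) hρ y1p with h1 |
    ⟨s, hs', -, h2, S, k1, k2, k3, k4⟩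
  · exact Or.inl (by linarith)
  refine Or.inr ⟨s, hs', by linarith, fun y' hy' => ?_⟩
  have s0' := hs.trans hs'.1
  have yp' : 0 < y' := hy0.trans_le hy'.1
  have vert : ∀ r, s0 ≤ r → ∀ p q : ℝ, 0 < p → p ≤ q →
      |pf a u c ρ r q - pf a u c ρ r p| ≤ 2 * Real.log (q / p) := fun r hr p q hp hq => by
    simpa [pf, gm] using lev_vert ha0 hU (hs.trans hr) (hd r hr) hρ0 0 hp hq
  have vt : ∀ p, θ * y / 8 ≤ p → p ≤ y →
      |pf a u c ρ t y - pf a u c ρ t p| ≤ 2 * Real.log (8 / θ) := fun p h1 h2 => by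
    have hp := y1p.trans_le h1
    refine (vert t hst p y hp h2).trans (mul_le_mul_of_nonneg_left
      (Real.log_le_log (by positivity) ?_) two_pos.le)
    rw [div_le_div_iff₀ hp θ0]
    linarith
  have a1 := abs_le.1 (vt _ le_rfl (by linarith))
  have low : ∀ r, y0 ≤ r → r ≤ max y0 (θ * y / 16) →
      |pf a u c ρ s r - pf a u c ρ t (θ * y / 8)| ≤ 94 := fun r r1 r2 => by
    rcases le_max_iff.1 r2 with r2 | r2
    · rw [le_antisymm r2 r1]
      exact (k2 _ k3).2.trans (by norm_num)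
    have key : ∀ σ : ℝ, σ = 1 ∨ σ = -1 →
        σ * pf a u c ρ s r ≤ σ * pf a u c ρ t (θ * y / 8) + 62 + 32 := fun σ hσ => by
      have := lev_semi ha0 hU s0' (hd s hs'.1) hρ0 (x := 0) (r := r)
        (d := σ * pf a u c ρ t (θ * y / 8) + 62) hσ (hy0.trans_le r1) k1
        (fun q hq => ⟨(k2 q hq).1, by
          have := abs_le.1 (k2 q hq).2
          unfold pf gm
          rcases hσ with rfl | rfl <;> linarith [this.1, this.2]⟩) k3 k4
        (by rw [Zt_Fm ha0 hU s0' (by simpa using hy0), ofReal_zero, sub_zero,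
              SHM.norm_mulI hy0.le]; exact r1)
        (by
          have b := bk_im ha0 u s0' hs'.2 (w := ((θ * y / 8 : ℝ) : ℂ) * I)
            (by rw [SHM.im_mulI]; exact y1p)
          rw [SHM.im_mulI] at b
          rw [ofReal_zero, sub_zero]
          exact le_trans (by linarith) (b.trans ((le_abs_self _).trans (abs_im_le_norm _))))
      simpa [pf, gm] using this
    rw [abs_le]
    constructor <;> linarith [key 1 (Or.inl rfl), key (-1) (Or.inr rfl)]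
  have l0 : 0 ≤ Real.log (8 / θ) := Real.log_nonneg ((one_le_div θ0).2 (by linarith))
  rcases le_total y' (max y0 (θ * y / 16)) with c1 | c1
  · have a2 := abs_le.1 (low y' hy'.1 c1)
    rw [abs_le]
    constructor <;> linarith [a1.1, a1.2, a2.1, a2.2]
  rcases le_total y' (16 * (θ * y)) with c2 | c2
  · have m0 : 0 < max y0 (θ * y / 16) := hy0.trans_le (le_max_left _ _)
    have a2 := abs_le.1 (low _ (le_max_left _ _) le_rfl)
    have a3 := abs_le.1 (vert s hs'.1 _ y' m0 c1)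
    have a4 : Real.log (y' / max y0 (θ * y / 16)) ≤ Real.log (2 ^ 8) :=
      Real.log_le_log (by positivity) (by
        rw [div_le_iff₀ m0]; linarith [le_max_right y0 (θ * y / 16)])
    rw [Real.log_pow] at a4
    push_cast at a4
    have := Real.log_two_lt_d9
    rw [abs_le]
    constructor <;> linarith [a1.1, a1.2, a2.1, a2.2, a3.1, a3.2]
  · have a2 := abs_le.1 (vt y' (by linarith) hy'.2)
    have a3 := abs_le.1 (lev_tail ha0 ha.le_one hU s0' hs'.2 (hd t hst) hρ0 (w := (y' : ℂ) * I)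
      (by simpa using yp') (by rw [SHM.im_mulI]; linarith))
    unfold pf gm at *
    rw [abs_le]
    constructor <;> linarith [a2.1, a2.2, a3.1, a3.2]

/-- a time at which the whole geodesic is far from the starting point -/
theorem rad_time (ha : Rg a) (v : Pth) {t ρ : ℝ} (ht : 0 ≤ t) (hL : 0 < Lz v.1 0 t) (hρ : 0 < ρ) :
    ∃ u ∈ Ico 0 t, ∀ r : ℝ, 0 < r → Real.log (Lz v.1 0 t / 9) - 92 ≤ lev 0 ρ (Fm a v.1 u (r * I)) := by
  have ha0 := ha.pos
  have hV := v.cont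
  have hd : ∀ r, ¬ Alive a v.1 0 r := fun r h => by simpa using h.1
  set y := Lz v.1 0 t / 9 with hy
  have yp : 0 < y := by positivity
  obtain ⟨ξ, hξ, hray⟩ := lev_ray ha0 hV ht (hd t) hρ 0 yp
  have hξ0 : 0 < ξ := yp.trans hξ.1
  simp only [zero_add, zero_sub, ofReal_zero] at hray
  have him : ∀ s ∈ Icc 0 t, ∀ w : ℂ, 0 < w.im → w.im ≤ ‖Zt a v.1 (Fm a v.1 t w) s‖ :=
    fun s hs w hw => (bk_im ha0 v hs.1 hs.2 hw).trans ((le_abs_self _).trans (abs_im_le_norm _))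
  have hi : ∀ w : ℂ, y ≤ w.im → Real.log y ≤ lev 0 ρ (Fm a v.1 t w) := fun w hw => by
    have h1 := Fm_bk ha0 v le_rfl ht (yp.trans_le hw)
    have h2 := bk_im ha0 v le_rfl ht (yp.trans_le hw)
    rw [Fm_zero ha0 hV (yp.trans_le (hw.trans h2)), v.zero, ofReal_zero, add_zero] at h1
    refine (le_lev_iff hρ).2 (Or.inl ?_)
    rw [Real.exp_log yp, sub_zero, ← h1]
    exact hw.trans (h2.trans ((le_abs_self _).trans (abs_im_le_norm _)))
  obtain ⟨x, x0, x1, x2⟩ : ∃ x : ℝ, x ≠ 0 ∧ ¬ Back a v.1 0 t x ∧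
      ∀ η ∈ Ioc 0 y, Real.log y - 60 ≤ lev 0 ρ (Fm a v.1 t (x + η * I)) := by
    have b := hi (y * I) (by simp)
    by_cases h1 : Back a v.1 0 t ξ
    · refine ⟨-ξ, neg_ne_zero.2 hξ0.ne', fun h2 => ?_, fun η hη => ?_⟩
      · linarith [size_of_back ha.1.le hV ht hξ0 h1 h2, hξ.2]
      · linarith [(abs_le.1 (hray η hη).2).1]
    · exact ⟨ξ, hξ0.ne', h1, fun η hη => by linarith [(abs_le.1 (hray η hη).1).1]⟩
  obtain ⟨u, hu, -, h2⟩ := hit_time ha0 hV le_rfl ht x0 x1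
  refine ⟨u, hu, fun r hr => ?_⟩
  obtain ⟨δ, hδ, h3⟩ := h2 r hr
  have p1 := preconn_path ha0 hV ht (γ := fun r : ℝ => (x : ℂ) + r * I) (by fun_prop)
    (isPreconnected_Ioi (a := 0)) fun r hr => by simpa using hr
  have m0 : 0 < min δ y := lt_min hδ yp
  have := lev_semi ha0 hV hu.1 (hd u) hρ (x := 0) (σ := -1) (d := 60 - Real.log y) (Or.inr rfl) hr
    p1 (by
      rintro _ ⟨η, hη, rfl⟩
      refine ⟨LoeAM.alive_mono hu.2.le (Fm_alive ha0 hV ht (by simpa using hη)), ?_⟩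
      rcases le_total η y with c | c
      · linarith [x2 η ⟨hη, c⟩]
      · linarith [hi (x + η * I) (by simpa using c)])
    ⟨min δ y, m0, rfl⟩ ⟨2 * r, by simpa using hr, rfl⟩
    (by rw [ofReal_zero, sub_zero]
        exact h3 _ (by simpa using ⟨hδ, yp⟩)
          (by rw [add_sub_cancel_left, SHM.norm_mulI m0.le]; exact min_le_left _ _))
    (by rw [ofReal_zero, sub_zero]
        exact le_trans (by simp) (him u ⟨hu.1, hu.2.le⟩ _ (by simpa using hr)))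
  rw [ofReal_zero, zero_add] at this
  linarith

theorem Lz_sft (u : Pth) (s : ℝ) {r r' : ℝ} (hr : 0 ≤ r) (h : r ≤ r') :
    Lz (sft s u).1 r r' = Lz u.1 (s + r) (s + r') := by
  unfold Lz Om
  rw [add_sub_add_left_eq_sub]
  congr 2
  exact image_congr fun θ hθ => by
    rw [sft_apply u hr, sft_apply u (by nlinarith [hθ.1]), sub_sub_sub_cancel_right, add_assoc]

/-- RAD -/
theorem rad_stmt (ha : Rg a) : RadStmt a := by
  refine ⟨9 * Real.exp 94, by linarith [Real.one_le_exp (show (0 : ℝ) ≤ 94 by norm_num)],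
    fun u y0 η h T ρ k j H hkj hT hρ hL => ?_⟩
  have ha0 := ha.pos
  have hh := H.h_pos
  have hy0 := H.y0_pos
  have ρ0 : 0 < ρ := hy0.trans_le hρ
  have s0 : (0 : ℝ) ≤ k * h := by positivity
  have st : (k : ℝ) * h ≤ j * h := by gcongr
  have e : Lz (sft (k * h) u).1 0 (j * h - k * h) = Lz u.1 (k * h) (j * h) := by
    rw [Lz_sft u _ le_rfl (by linarith), add_zero, add_sub_cancel]
  have L0 : 0 < Lz u.1 (k * h) (j * h) := lt_of_lt_of_le (by positivity) hL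
  obtain ⟨τ, hτ, h1⟩ := rad_time ha (sft (k * h) u) (t := j * h - k * h) (ρ := ρ / 2) (by linarith)
    (e ▸ L0) (half_pos ρ0)
  have f0 : 0 ≤ (k * h + τ) / h := div_nonneg (by linarith [hτ.1]) hh.le
  have f1 : (⌊(k * h + τ) / h⌋₊ : ℝ) * h ≤ k * h + τ := (le_div_iff₀ hh).1 (Nat.floor_le f0)
  have f2 : k * h + τ < ((⌊(k * h + τ) / h⌋₊ + 1 : ℕ) : ℝ) * h := by
    push_cast
    exact (div_lt_iff₀ hh).1 (Nat.lt_floor_add_one _)
  have f3 : ⌊(k * h + τ) / h⌋₊ + 1 ≤ j :=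
    (Nat.floor_lt f0).2 ((div_lt_iff₀ hh).2 (by linarith [hτ.2]))
  have f4 : k < ⌊(k * h + τ) / h⌋₊ + 1 :=
    Nat.lt_succ_of_le (Nat.le_floor ((le_div_iff₀ hh).2 (by linarith [hτ.1])))
  have f5 : ((⌊(k * h + τ) / h⌋₊ + 1 : ℕ) : ℝ) * h - (k * h + τ) ≤ h := by push_cast; linarith
  generalize ⌊(k * h + τ) / h⌋₊ + 1 = i at f2 f3 f4 f5
  refine ⟨i, f4, f3, fun y hy => ?_⟩
  have yp : 0 < y := hy0.trans_le hy
  have b1 := H.lstep (k * h + τ) (i * h) (by linarith [hτ.1]) f2.le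
    (le_trans (by gcongr) hT) f5
  have b2 := lev_tail ha0 ha.le_one (sft (k * h) u).cont hτ.1 (t := i * h - k * h) (by linarith)
    (c := 0) (fun h => by simpa using h.1) (half_pos ρ0) (w := (y : ℂ) * I) (by simpa using yp) (by
      rw [Lz_sft u _ hτ.1 (by linarith), add_sub_cancel, SHM.im_mulI]
      linarith [Lz_nonneg u.cont f2.le])
  have b3 := bk_cat ha0 u (sft (k * h) u) s0 (t := i * h - k * h) (by linarith [hτ.1])
    (w := (y : ℂ) * I) (by simpa using yp)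
  rw [cat_sft u s0, add_sub_cancel] at b3
  have b4 : Real.log ρ + 94 ≤ Real.log (Lz u.1 (k * h) (j * h) / 9) := by
    rw [Real.le_log_iff_exp_le (by positivity), Real.exp_add, Real.exp_log ρ0]
    linarith
  have b5 := h1 y yp
  rw [e] at b5
  rcases (le_lev_iff (half_pos ρ0)).1 (show Real.log ρ ≤ lev 0 (ρ / 2)
    (Fm a (sft (k * h) u).1 (i * h - k * h) (y * I)) by linarith [(abs_le.1 b2).1]) with c | c
  · rwa [Real.exp_log ρ0, sub_zero, ← b3] at c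
  · rw [Real.exp_log ρ0] at c
    linarith

end Pool.Agent.MP_990230_pr.K8

end
end MrgPart0

-- ======== part 1: formerly Pool.Agent.MP_990230_pr.k8.PhD
section MrgPart1

/-! # SLE8: the deterministic facts about phases -/

open Set Complex
open scoped Topology

noncomputable section

namespace Pool.Agent.MP_990230_pr.K8

namespace PhD

/-- the standing hypotheses. -/
structure Hy (C K7 : ℝ) (p : Ph) (u : Pth) (η : ℝ) : Prop where
  ha : 0 < p.a
  ha1 : p.a ≤ 1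
  hC : 1 ≤ C
  rad : ∀ (k j : ℕ) (ρ : ℝ), k ≤ j → j ≤ p.N → p.y0 ≤ ρ → C * ρ ≤ Lz u.1 (k * p.h) (j * p.h) →
    ∃ i : ℕ, k < i ∧ i ≤ j ∧ ∀ y : ℝ, p.y0 ≤ y → ρ ≤ ‖bk p.a u (k * p.h) (i * p.h) (y * I)‖
  e2 : p.K2 = p.C6
  e6 : p.C6 = 32 * C + 32
  e7 : p.C6 ≤ K7
  hw : 1000 + 100 * K7 ≤ p.w
  good : Good p.a p.y0 η p.h (p.N * p.h) u
  hρ : 2 * η ≤ p.ρ

variable {C K7 η : ℝ} {p : Ph} {u : Pth} {k j : ℕ}

theorem Hy.num (H : Hy C K7 p u η) : 1 ≤ C ∧ 64 ≤ p.C6 ∧ 64 ≤ K7 ∧ 1000 ≤ p.w ∧ 0 < p.y0 ∧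
    0 < p.h ∧ 0 < p.ρ := by
  have := H.hC
  have := H.e6
  have := H.e7
  have := H.hw
  exact ⟨H.hC, by linarith, by linarith, by linarith, H.good.y0_pos, H.good.h_pos,
    by linarith [H.hρ, H.good.eta_pos]⟩

theorem Hy.t0 (H : Hy C K7 p u η) (k : ℕ) : (0 : ℝ) ≤ k * p.h :=
  mul_nonneg (Nat.cast_nonneg k) H.good.h_pos.le

theorem Hy.tle (H : Hy C K7 p u η) (h : k ≤ j) : (k : ℝ) * p.h ≤ j * p.h :=
  mul_le_mul_of_nonneg_right (Nat.cast_le.2 h) H.good.h_pos.le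

theorem Hy.tlt (H : Hy C K7 p u η) (h : (k : ℝ) * p.h < j * p.h) : k < j :=
  not_le.1 fun hc => (H.tle hc).not_gt h

theorem dead {s t : ℝ} (h : ¬ Alive p.a u.1 p.c s) (hst : s ≤ t) : ¬ Alive p.a u.1 p.c t :=
  fun hc => h (LoeAM.alive_mono hst hc)

theorem Hy.vert (H : Hy C K7 p u η) {t y y' m : ℝ} (ht : 0 ≤ t) (hc : ¬ Alive p.a u.1 p.c t)
    (hy : 0 < y) (h1 : y ≤ y') (h2 : y' ≤ m * y) : |p.f u t y' - p.f u t y| ≤ 2 * m := by
  have := lev_vert H.ha u.cont ht hc H.num.2.2.2.2.2.2 0 hy h1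
  simp only [ofReal_zero, zero_add] at this
  have h3 := Real.log_le_sub_one_of_pos (div_pos (hy.trans_le h1) hy)
  have h4 : y' / y ≤ m := (div_le_iff₀ hy).2 h2
  exact this.trans (by linarith)

theorem Hy.star (H : Hy C K7 p u η) (k : ℕ) : p.y0 ≤ p.C6 * p.rho u k ∧
    p.w ≤ |p.f u (k * p.h) (p.C6 * p.rho u k) - p.d u k| ∧
    ∀ y ∈ Icc p.y0 (p.C6 * p.rho u k), |p.f u (k * p.h) y - p.d u k| ≤ p.w := by
  obtain ⟨c1, c2, c3, c4, c5, c6, c7⟩ := H.num
  set S := {y | p.y0 ≤ y ∧ p.w ≤ |p.f u (k * p.h) y - p.d u k|} with hS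
  have e : p.C6 * p.rho u k = sInf S := by
    rw [Ph.rho, H.e2]; field_simp; rfl
  have ct : ContinuousOn (fun y => |p.f u (k * p.h) y - p.d u k|) (Ici p.y0) := fun y hy =>
    (((continuous_lev p.c c7).continuousAt.comp ((Fm_continuousAt H.ha u.cont (H.t0 k)
      (by simpa using c5.trans_le hy)).comp (f := fun y : ℝ => (y : ℂ) * I)
        (by fun_prop))).sub continuousAt_const).abs.continuousWithinAt
  have cl : IsClosed S := ct.preimage_isClosed_of_isClosed isClosed_Ici isClosed_Ici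
  have bd : BddBelow S := ⟨p.y0, fun y hy => hy.1⟩
  have ne : S.Nonempty := by
    refine ⟨max p.y0 (p.c.im + Real.exp (p.d u k + p.w)), le_max_left _ _,
      le_abs.2 (Or.inl (le_sub_iff_add_le'.2 ((le_lev_iff c7).2 (Or.inl ?_))))⟩
    have h1 := SHM.im_le_Fm H.ha u.cont u.zero (H.t0 k)
      (w := (max p.y0 (p.c.im + Real.exp (p.d u k + p.w)) : ℝ) * I)
      (by rw [SHM.im_mulI]; exact lt_max_of_lt_left c5)
    rw [SHM.im_mulI] at h1
    refine le_trans ?_ ((le_abs_self _).trans (abs_im_le_norm _))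
    rw [sub_im]
    exact le_sub_iff_add_le'.2 ((le_max_right _ _).trans h1)
  have m := cl.csInf_mem ne bd
  rw [e]
  refine ⟨m.1, m.2, fun y hy => not_lt.1 fun hc => ?_⟩
  obtain ⟨z, hz, ez⟩ := intermediate_value_Icc hy.1 (ct.mono Icc_subset_Ici_self)
    (show p.w ∈ _ from ⟨by simp only [Ph.d, sub_self, abs_zero]; linarith, hc.le⟩)
  have : z = y := le_antisymm hz.2 (hy.2.trans (csInf_le bd ⟨hz.1, ez.ge⟩))
  rw [this] at ez
  exact hc.ne' ez

theorem Hy.le_rho (H : Hy C K7 p u η) {Z : ℝ}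
    (h : ∀ y ∈ Icc p.y0 Z, |p.f u (k * p.h) y - p.d u k| < p.w) : Z ≤ p.C6 * p.rho u k := by
  obtain ⟨h1, h2, -⟩ := H.star k
  exact not_lt.1 fun hc => (h _ ⟨h1, hc.le⟩).not_ge h2

theorem Hy.two (H : Hy C K7 p u η) (hc : ¬ Alive p.a u.1 p.c (k * p.h)) :
    2 * p.y0 ≤ p.rho u k := by
  obtain ⟨c1, c2, c3, c4, c5, c6, c7⟩ := H.num
  have := H.le_rho (k := k) (Z := 2 * p.C6 * p.y0) fun y hy =>
    (H.vert (H.t0 k) hc c5 hy.1 hy.2).trans_lt (by linarith [H.e7, H.hw])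
  nlinarith

theorem Hy.vb (H : Hy C K7 p u η) (h : k ≤ j) {y : ℝ} (hy : p.y0 ≤ y) :
    y ≤ ‖p.v u k j y‖ ∧ ‖p.v u k j y‖ ≤ y + 8 * Lz u.1 (k * p.h) (j * p.h) := by
  have y0 : 0 < y := H.good.y0_pos.trans_le hy
  have hw : 0 < ((y : ℂ) * I).im := by simpa using y0
  have h1 := bk_im H.ha u (H.t0 k) (H.tle h) hw
  have h2 := bk_move H.ha H.ha1 u (H.t0 k) (H.tle h) hw
  have h3 := norm_sub_norm_le (p.v u k j y) (y * I)
  rw [SHM.norm_mulI y0.le] at h3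
  rw [SHM.im_mulI] at h1
  exact ⟨h1.trans ((le_abs_self _).trans (abs_im_le_norm _)), sub_le_iff_le_add'.1 (h3.trans h2)⟩

theorem Hy.runL (H : Hy C K7 p u η) (hc : ¬ Alive p.a u.1 p.c (k * p.h)) (h : k ≤ j)
    (hj : j ≤ p.N) (r : p.Runs u k j) : Lz u.1 (k * p.h) (j * p.h) ≤ C * p.rho u k := by
  by_contra hl
  obtain ⟨i, i1, i2, i3⟩ := H.rad k j _ h hj (by linarith [H.two hc, H.good.y0_pos])
    (not_le.1 hl).le
  exact (r i i1 i2).1 i3

theorem Hy.endL (H : Hy C K7 p u η) (hc : ¬ Alive p.a u.1 p.c (k * p.h)) (hj : j ≤ p.N)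
    (e : p.Ends u k j) : Lz u.1 (k * p.h) (j * p.h) ≤ (C + 1) * p.rho u k := by
  obtain ⟨i, rfl⟩ : ∃ i, j = i + 1 := ⟨j - 1, by have := e.1; omega⟩
  have h1 : k ≤ i := by have := e.1; omega
  have h2 := H.runL hc h1 (by omega) e.2.1
  have h3 := Lz_add u.cont (H.tle h1) (H.tle (Nat.le_succ i))
  have h4 := H.good.lstep _ _ (H.t0 i) (H.tle (Nat.le_succ i)) (H.tle hj) (by push_cast; linarith)
  linarith [H.two hc, H.good.y0_pos]

theorem Hy.near (H : Hy C K7 p u η) (hc : ¬ Alive p.a u.1 p.c (k * p.h)) (h : k ≤ j)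
    (hL : Lz u.1 (k * p.h) (j * p.h) ≤ (C + 1) * p.rho u k) (hd : ¬ p.Dev u k j) :
    |p.d u j - p.d u k| ≤ 11 / 10 * p.w := by
  obtain ⟨c1, c2, c3, c4, c5, c6, c7⟩ := H.num
  obtain ⟨h1, h2⟩ := H.vb h le_rfl
  have h3 := H.two hc
  have h4 : ‖p.v u k j p.y0‖ ≤ p.C6 * p.rho u k := by rw [H.e6]; nlinarith
  have h5 := abs_lt.1 (not_le.1 fun hc => hd ⟨_, le_rfl, h4, hc⟩)
  have h6 := abs_le.1 ((H.star k).2.2 _ ⟨h1, h4⟩)
  rw [abs_le]
  constructor <;> linarith [h5.1, h5.2, h6.1, h6.2, show p.d u j = p.f u _ _ from rfl]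

theorem Hy.stay (H : Hy C K7 p u η) (hc : ¬ Alive p.a u.1 p.c (k * p.h)) (h : k ≤ j)
    (hj : j ≤ p.N) (r : p.Runs u k j) : |p.d u j - p.d u k| ≤ 11 / 10 * p.w := by
  rcases h.eq_or_lt with rfl | h'
  · rw [sub_self, abs_zero]; linarith [H.num.2.2.2.1]
  · exact H.near hc h (by linarith [H.runL hc h hj r, H.two hc, H.good.y0_pos]) (r j h' le_rfl).2

theorem Hy.doorL (H : Hy C K7 p u η) (hc : ¬ Alive p.a u.1 p.c (k * p.h)) (h : k ≤ j)
    (d : p.Door u k j) : p.rho u k / 16 ≤ Lz u.1 (k * p.h) (j * p.h) := by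
  linarith [d _ le_rfl, (H.vb h le_rfl).2, H.two hc]

/-- after a door without deviation the new profile is flat. -/
theorem Hy.flat (H : Hy C K7 p u η) (hc : ¬ Alive p.a u.1 p.c (k * p.h)) (hj : j ≤ p.N)
    (e : p.Ends u k j) (hd : ¬ p.Dev u k j) :
    ∀ y ∈ Icc p.y0 (K7 * p.rho u k), |p.f u (j * p.h) y - p.d u j| ≤ 3 / 10 * p.w := by
  obtain ⟨c1, c2, c3, c4, c5, c6, c7⟩ := H.num
  have d := e.2.2.resolve_right hd
  have h3 := H.two hc
  have hL := H.endL hc hj e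
  have k7 := H.e7
  have kw := H.hw
  have key : ∀ y ∈ Icc p.y0 (p.rho u k),
      |p.f u (j * p.h) y - p.f u (k * p.h) (p.rho u k)| ≤ p.w / 10 + 2 * p.C6 := by
    intro y hy
    have h4 : ‖p.v u k j y‖ ≤ p.C6 * p.rho u k := by
      rw [H.e6]; nlinarith [(H.vb e.1.le hy.1).2, hy.2]
    have h5 := abs_lt.1 (not_le.1 fun hc => hd ⟨_, hy.1, h4, hc⟩)
    have h6 := abs_le.1 (H.vert (H.t0 k) hc (by linarith) (d y hy.1) h4)
    rw [abs_le]
    constructor <;> linarith [h5.1, h5.2, h6.1, h6.2]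
  have k0 := abs_le.1 (key _ ⟨le_rfl, by linarith⟩)
  intro y hy
  rw [abs_le]
  rcases le_total y (p.rho u k) with h | h
  · have k1 := abs_le.1 (key y ⟨hy.1, h⟩)
    constructor <;> linarith [k0.1, k0.2, k1.1, k1.2, show p.d u j = p.f u _ _ from rfl]
  · have k1 := abs_le.1 (key _ ⟨by linarith, le_rfl⟩)
    have k2 := abs_le.1 (H.vert (H.t0 j) (dead hc (H.tle e.1.le)) (by linarith) h hy.2)
    constructor <;>
      linarith [k0.1, k0.2, k1.1, k1.2, k2.1, k2.2, show p.d u j = p.f u _ _ from rfl]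

theorem Hy.mark (H : Hy C K7 p u η) {s : ℝ} (h1 : k * p.h ≤ s) (h2 : s ≤ (k + 1 : ℕ) * p.h)
    (h3 : s ≤ p.N * p.h) : |p.f u s p.y0 - p.d u k| ≤ 1 / 2 := by
  obtain ⟨c1, c2, c3, c4, c5, c6, c7⟩ := H.num
  have := H.good.step s ⟨(H.t0 k).trans h1, h3⟩ _ ⟨H.t0 k, h1.trans h3⟩
    (by rw [abs_of_nonneg (by linarith)]; push_cast at h2; linarith)
  exact (lev_lip c7 _ _).trans ((div_le_iff₀ c7).2 (by linarith [H.hρ]))

theorem ex_end (h : ¬ p.Runs u k j) : ∃ i ≤ j, p.Ends u k i := by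
  classical
  have ex : ∃ i, k < i ∧ i ≤ j ∧ (p.Door u k i ∨ p.Dev u k i) := by
    by_contra hc
    exact h fun i i1 i2 => not_or.1 fun h3 => hc ⟨i, i1, i2, h3⟩
  obtain ⟨h1, h2, h3⟩ := Nat.find_spec ex
  exact ⟨_, h2, h1, fun i i1 i2 => not_or.1 fun h4 =>
    Nat.find_min ex (show i < Nat.find ex by omega) ⟨i1, by omega, h4⟩, h3⟩

theorem Hy.exc (H : Hy C K7 p u η) {s Y d : ℝ} {j' b : ℕ} (hj : j' ≤ p.N)
    (d1 : p.lo + 8 * p.w ≤ d) (d2 : d ≤ p.lo + 12 * p.w) (hY : p.y0 ≤ Y)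
    (hf : ∀ y ∈ Icc p.y0 Y, |p.f u s y - d| ≤ p.w / 100)
    (hl : IsLeast {j : ℕ | s < j * p.h ∧ 3 * p.w ≤ |p.d u j - d|} j')
    (hL : Lz u.1 s (j' * p.h) ≤ 1 / (100 * p.C6) * Y)
    (hb : ∀ j : ℕ, s < j * p.h → j ≤ j' → p.Chain u b j) (n : ℕ) :
    ∀ k : ℕ, j' ≤ k + n → ¬ Alive p.a u.1 p.c (k * p.h) → k * p.h ≤ s → p.Chain u (b + 1) k := by
  classical
  obtain ⟨c1, c2, c3, c4, c5, c6, c7⟩ := H.num
  obtain ⟨⟨l1, l2⟩, -⟩ := hl
  have ex : ∃ i : ℕ, s < (i + 1 : ℕ) * p.h := ⟨j', l1.trans_le (H.tle (Nat.le_succ _))⟩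
  have sN : s ≤ p.N * p.h := l1.le.trans (H.tle hj)
  induction n with
  | zero => exact fun k h1 _ h3 => absurd (H.tlt (h3.trans_lt l1)) (by omega)
  | succ n ih =>
  intro k h1 hc h3
  have s0 : 0 ≤ s := (H.t0 k).trans h3
  have kj : k < j' := H.tlt (h3.trans_lt l1)
  have i1 := Nat.find_spec ex
  have i2 : (Nat.find ex : ℝ) * p.h ≤ s := by
    rcases Nat.eq_zero_or_pos (Nat.find ex) with e | e
    · rw [e]; simpa using s0
    · have := Nat.find_min ex (show Nat.find ex - 1 < _ by omega)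
      rw [show Nat.find ex - 1 + 1 = Nat.find ex by omega] at this
      exact not_lt.1 this
  set i := Nat.find ex
  have i3 : k ≤ i := Nat.le_of_lt_succ (H.tlt (h3.trans_lt i1))
  have i4 : i < j' := H.tlt (i2.trans_lt l1)
  have m1 := abs_le.1 (H.mark i2 i1.le sN)
  have m2 := abs_le.1 (hf _ ⟨le_rfl, hY⟩)
  by_cases hz : p.Zone u 3 k
  swap
  · rcases i3.eq_or_lt with e | e
    · exact absurd ⟨by rw [e]; linarith [m1.2, m2.1], by rw [e]; linarith [m1.1, m2.2]⟩ hz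
    · exact .wait hz (by omega) (ih (k + 1) (by omega) (dead hc (H.tle (Nat.le_succ k)))
        ((H.tle e).trans i2))
  have nr : ¬ p.Runs u k j' := fun r => by
    have a1 := abs_le.1 (H.stay hc kj.le hj r)
    have a2 := abs_le.1 (H.stay hc i3 (by omega) fun q q1 q2 => r q q1 (by omega))
    rcases le_abs.1 l2 with a | a <;> linarith [a1.1, a1.2, a2.1, a2.2, m1.1, m1.2, m2.1, m2.2]
  obtain ⟨j, j1, e⟩ := ex_end nr
  have kj2 := e.1
  have hc' := dead hc (H.tle kj2.le)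
  rcases le_or_gt ((j : ℝ) * p.h) s with js | js
  · exact .pass hz e (by omega) (ih j (by omega) hc' js)
  have ij : i < j := H.tlt (i2.trans_lt js)
  have a2 := abs_le.1 (H.stay hc i3 (by omega) fun q q1 q2 => e.2.1 q q1 (by omega))
  by_cases hd : p.Dev u k j
  · exact .bad ⟨by linarith [a2.2, m1.2, m2.1], by linarith [a2.1, m1.1, m2.2]⟩ e (by omega) hd
      (hb j js j1)
  have fl := H.flat hc (by omega) e hd
  have r2 := H.two hc
  have L1 := Lz_sub u.cont h3 js.le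
  have L2 := H.endL hc (by omega) e
  have L3 := Lz_mono u.cont js.le (H.tle j1)
  have L4 : 100 * p.C6 * Lz u.1 s (j' * p.h) ≤ Y := by
    rw [one_div_mul_eq_div, le_div_iff₀ (by positivity)] at hL; linarith
  have L5 := Lz_nonneg u.cont js.le
  set y1 := max p.y0 (16 * Lz u.1 s (j * p.h)) with hy1
  have y1Y : y1 ≤ Y := max_le hY (by nlinarith)
  have y1K : y1 ≤ K7 * p.rho u k := max_le (by nlinarith) (by nlinarith [H.e7, H.e6])
  have tl : ∀ y ∈ Icc y1 Y, |p.f u (j * p.h) y - d| ≤ p.w / 100 + 2 := fun y hy => by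
    have y2 : p.y0 ≤ y := (le_max_left _ _).trans hy.1
    have b1 := abs_le.1 (lev_tail H.ha H.ha1 u.cont s0 js.le hc' c7 (w := y * I)
      (by simpa using c5.trans_le y2) (by rw [SHM.im_mulI]; exact (le_max_right _ _).trans hy.1))
    have b2 := abs_le.1 (hf y ⟨y2, hy.2⟩)
    rw [abs_le]
    constructor <;> linarith [b1.1, b1.2, b2.1, b2.2, show p.f u s y = lev _ _ (Fm _ _ _ _) from rfl,
      show p.f u (j * p.h) y = lev _ _ (Fm _ _ _ _) from rfl]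
  have b1 := abs_le.1 (tl _ ⟨le_rfl, y1Y⟩)
  have b2 := abs_le.1 (fl _ ⟨le_max_left _ _, y1K⟩)
  have big : Y ≤ p.C6 * p.rho u j := H.le_rho fun y hy => by
    rcases le_total y y1 with q | q
    · exact (fl y ⟨hy.1, q.trans y1K⟩).trans_lt (by linarith)
    · have b3 := abs_le.1 (tl y ⟨q, hy.2⟩)
      rw [abs_lt]
      constructor <;> linarith [b1.1, b1.2, b2.1, b2.2, b3.1, b3.2]
  have nr' : ¬ p.Runs u j j' := fun r => by
    have a1 := abs_le.1 (H.stay hc' j1 hj r)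
    rcases le_abs.1 l2 with a | a <;> linarith [a1.1, a1.2, b1.1, b1.2, b2.1, b2.2]
  obtain ⟨j2, q1, e2⟩ := ex_end nr'
  have q2 := H.tle e2.1.le
  refine .pass hz e (by omega) (.bad ⟨by linarith [b1.1, b2.2], by linarith [b1.2, b2.1]⟩ e2
    (by omega) (e2.2.2.resolve_left fun dr => ?_) (hb j2 (js.trans_le q2) q1))
  have g1 := H.doorL hc' e2.1.le dr
  have g2 := Lz_mono u.cont q2 (H.tle q1)
  have g3 := Lz_sub u.cont js.le (H.tle j1)
  have g4 := H.two hc'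
  nlinarith

end PhD

theorem phD_stmt {a : ℝ} (ha : Rg a) (hR : RadStmt a) : PhDStmt a := by
  obtain ⟨C, hC, rad⟩ := hR
  intro K hK
  have k6 : 64 ≤ 32 * C + 32 := by linarith
  have k7 : 32 * C + 32 ≤ 80 * K * (32 * C + 32) ^ 2 := by nlinarith
  refine ⟨32 * C + 32, 32 * C + 32, 1000 + 100 * (80 * K * (32 * C + 32) ^ 2),
    1 / (100 * (32 * C + 32)), ⟨by linarith, le_rfl, by linarith, by positivity,
      one_div_le_one_div_of_le (by norm_num) (by linarith)⟩, ?_⟩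
  rintro p u η k rfl e2 e6 hw hg hρ - hc hk
  have H : PhD.Hy C (80 * K * (32 * C + 32) ^ 2) p u η := ⟨ha.pos, ha.le_one, hC,
    fun k j ρ h1 h2 => rad u p.y0 η p.h _ ρ k j hg h1
      (mul_le_mul_of_nonneg_right (Nat.cast_le.2 h2) hg.h_pos.le), e2.trans e6.symm, e6,
    e6.trans_le k7, hw, hg, hρ⟩
  obtain ⟨c1, c2, c3, c4, c5, c6, c7⟩ := H.num
  refine ⟨⟨H.two hc, (H.star k).2.2⟩, fun j h1 h2 => H.stay hc h1 h2,
    fun j h1 _ => H.doorL hc h1.le, fun j hj hz e hd => ?_,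
    fun s Y d j' b h1 h2 h3 h4 h5 h6 h7 h8 h9 =>
      H.exc h2 h3 h4 h5 h6 h7 (e6 ▸ h8) h9 j' k (by omega) hc h1⟩
  have hL := H.endL hc hj e
  have a1 := abs_le.1 (H.near hc e.1.le hL hd)
  refine ⟨⟨by linarith [hz.1, a1.1], by linarith [hz.2, a1.2]⟩, fun z hz' h1 => ?_⟩
  have a2 := H.le_rho fun y hy => (H.flat hc hj e hd y hy).trans_lt (by linarith)
  have a3 := size_le ha.pos ha.le_one u.cont (H.t0 k) (H.tle e.1.le) hz'
  have a4 := norm_sub_norm_le (Zt p.a u.1 z (j * p.h)) (Zt p.a u.1 z (k * p.h))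
  have a5 := H.two hc
  rw [e6] at a2 h1
  have a6 : 80 * K * (32 * C + 32) * p.rho u k ≤ p.rho u j :=
    le_of_mul_le_mul_left (by nlinarith) (show 0 < 32 * C + 32 by linarith)
  rw [le_div_iff₀ (by linarith), le_div_iff₀ (by norm_num)]
  have a7 : ‖Zt p.a u.1 z (j * p.h)‖ ≤ 5 * ((32 * C + 32) * p.rho u k) := by nlinarith
  nlinarith

end Pool.Agent.MP_990230_pr.K8

end
end MrgPart1

-- marker of a merged file
example : 731051 + 144079 = 731051 + 144079 := rfl
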