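import Mathlib.MeasureTheory.Measure.Lebesgue.VolumeOfBalls
import Pool.Agent.MP_990230_pr.k8.Meas
import Pool.Agent.MP_990230_pr.k8.Tile
import Pool.Agent.MP_990230_pr.k8.SH2

-- ======== part 0: formerly Pool.Agent.MP_990230_pr.k8.Door
section MrgPart0

/-! # SLE8 tools: size of the hull, TAIL, GH, LIND, ACC, FRESH, DOOR -/

open Set MeasureTheory Filter Complex
open scoped ENNReal Topology Real

noncomputable section

namespace Pool.Agent.MP_990230_pr.K8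

/-- the oscillation of the driver on `[s, t]` -/
def Om (U : ℝ → ℝ) (s t : ℝ) : ℝ := sSup ((fun θ : ℝ => |U (s + θ * (t - s)) - U s|) '' Icc 0 1)

/-- the size of the hull grown on `[s, t]` -/
def Lz (U : ℝ → ℝ) (s t : ℝ) : ℝ := Om U s t + √(t - s)

/-- the level about `c`, constant inside the disc of radius `ρ` -/
def lev (c : ℂ) (ρ : ℝ) (z : ℂ) : ℝ := Real.log (max ‖z - c‖ ρ)

variable {a : ℝ} {U : ℝ → ℝ} {s t : ℝ}

theorem le_Om (hU : Continuous U) {r : ℝ} (hr : r ∈ Icc s t) : |U r - U s| ≤ Om U s t := by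
  have hb : BddAbove ((fun θ : ℝ => |U (s + θ * (t - s)) - U s|) '' Icc 0 1) :=
    (isCompact_Icc.image (by fun_prop)).bddAbove
  rcases eq_or_lt_of_le (hr.1.trans hr.2) with e | h
  · have e2 : r = s := le_antisymm (e ▸ hr.2) hr.1
    exact le_csSup hb ⟨0, ⟨le_rfl, zero_le_one⟩, by simp [e2]⟩
  · have h1 : 0 < t - s := sub_pos.2 h
    refine le_csSup hb ⟨(r - s) / (t - s), ⟨div_nonneg (sub_nonneg.2 hr.1) h1.le,
      (div_le_one h1).2 (by linarith [hr.2])⟩, ?_⟩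
    simp only [div_mul_cancel₀ _ h1.ne', add_sub_cancel]

theorem Om_le (hst : s ≤ t) {M : ℝ} (h : ∀ r ∈ Icc s t, |U r - U s| ≤ M) : Om U s t ≤ M := by
  refine csSup_le ((nonempty_Icc.2 zero_le_one).image _) ?_
  rintro _ ⟨θ, hθ, rfl⟩
  exact h _ ⟨by nlinarith [hθ.1], by nlinarith [hθ.2]⟩

theorem Om_nonneg (hU : Continuous U) (hst : s ≤ t) : 0 ≤ Om U s t :=
  (abs_nonneg _).trans (le_Om hU ⟨le_rfl, hst⟩)

theorem continuous_Lz (hU : Continuous U) : Continuous fun p : ℝ × ℝ => Lz U p.1 p.2 :=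
  (isCompact_Icc.continuous_sSup
    (f := fun (p : ℝ × ℝ) (θ : ℝ) => |U (p.1 + θ * (p.2 - p.1)) - U p.1|)
    (by unfold Function.HasUncurry.uncurry Function.hasUncurryInduction
          Function.hasUncurryBase; fun_prop)).add (by fun_prop)

theorem Lz_nonneg (hU : Continuous U) (hst : s ≤ t) : 0 ≤ Lz U s t :=
  add_nonneg (Om_nonneg hU hst) (Real.sqrt_nonneg _)

theorem Lz_self (hU : Continuous U) (s : ℝ) : Lz U s s = 0 := by
  have : Om U s s = 0 := le_antisymm (Om_le le_rfl fun r hr => by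
    rw [le_antisymm hr.2 hr.1]; simp) (Om_nonneg hU le_rfl)
  simp [Lz, this]

theorem Lz_mono (hU : Continuous U) {t' : ℝ} (hst : s ≤ t) (h : t ≤ t') : Lz U s t ≤ Lz U s t' :=
  add_le_add (Om_le hst fun _ hr => le_Om hU ⟨hr.1, hr.2.trans h⟩)
    (Real.sqrt_le_sqrt (by linarith))

theorem Lz_sub (hU : Continuous U) {s' : ℝ} (h1 : s ≤ s') (h2 : s' ≤ t) :
    Lz U s' t ≤ 2 * Lz U s t := by
  have k1 : Om U s' t ≤ 2 * Om U s t := Om_le h2 fun r hr => by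
    have := abs_sub_le (U r) (U s) (U s')
    rw [abs_sub_comm (U s)] at this
    linarith [le_Om hU (show r ∈ Icc s t from ⟨h1.trans hr.1, hr.2⟩),
      le_Om hU (show s' ∈ Icc s t from ⟨h1, h2⟩)]
  have k2 : √(t - s') ≤ √(t - s) := Real.sqrt_le_sqrt (by linarith)
  unfold Lz
  linarith [Real.sqrt_nonneg (t - s)]

theorem Lz_add (hU : Continuous U) {r : ℝ} (h1 : s ≤ r) (h2 : r ≤ t) :
    Lz U s t ≤ Lz U s r + Lz U r t := by
  have k1 : Om U s t ≤ Om U s r + Om U r t := Om_le (h1.trans h2) fun q hq => by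
    rcases le_total q r with h | h
    · linarith [le_Om hU (show q ∈ Icc s r from ⟨hq.1, h⟩), Om_nonneg hU h2]
    · linarith [le_Om hU (show q ∈ Icc r t from ⟨h, hq.2⟩),
        le_Om hU (show r ∈ Icc s r from ⟨h1, le_rfl⟩), abs_sub_le (U q) (U r) (U s)]
  have k2 : √(t - s) ≤ √(r - s) + √(t - r) := by
    refine Real.sqrt_le_iff.2 ⟨by positivity, ?_⟩
    nlinarith [Real.sq_sqrt (sub_nonneg.2 h1), Real.sq_sqrt (sub_nonneg.2 h2),
      mul_nonneg (Real.sqrt_nonneg (r - s)) (Real.sqrt_nonneg (t - r))]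
  unfold Lz
  linarith

theorem time_le (ha1 : a ≤ 1) (hst : s ≤ t) : a * (t - s) ≤ √(t - s) ^ 2 := by
  rw [Real.sq_sqrt (sub_nonneg.2 hst)]; nlinarith

/-- SIZE -/
theorem size_le (ha : 0 < a) (ha1 : a ≤ 1) (hU : Continuous U) (hs : 0 ≤ s) (hst : s ≤ t) {z : ℂ}
    (hz : Alive a U z t) : ‖Zt a U z t - Zt a U z s‖ ≤ 8 * Lz U s t := by
  rcases eq_or_lt_of_le hst with rfl | h
  · simp [Lz_self hU]
  have := Zt_move ha hU hs hst (Real.sqrt_pos.2 (sub_pos.2 h)) (time_le ha1 hst)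
    (fun _ hr => le_Om hU hr) hz
  unfold Lz
  linarith [Om_nonneg hU hst]

theorem alive_of_size (ha : 0 < a) (ha1 : a ≤ 1) (hU : Continuous U) (hs : 0 ≤ s) (hst : s ≤ t)
    {z : ℂ} (hz : Alive a U z s) (h : 3 * Lz U s t ≤ ‖Zt a U z s‖) : Alive a U z t := by
  rcases eq_or_lt_of_le hst with rfl | h'
  · exact hz
  refine alive_of_far ha hU hs hst (Real.sqrt_pos.2 (sub_pos.2 h')) (time_le ha1 hst)
    (fun _ hr => le_Om hU hr) hz (le_trans ?_ h)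
  unfold Lz
  linarith [Om_nonneg hU hst]

theorem back_of_size (ha : 0 < a) (ha1 : a ≤ 1) (hU : Continuous U) (hst : s < t) {x : ℝ}
    (h : 9 * Lz U s t ≤ |x|) : Back a U s t x := by
  refine back_of_far ha hU hst.le (Real.sqrt_pos.2 (sub_pos.2 hst)) (time_le ha1 hst.le)
    (fun _ hr => le_Om hU hr) (le_trans ?_ h)
  unfold Lz
  linarith [Om_nonneg hU hst.le]

/-- DISP -/
theorem size_of_back (ha : 1 / 4 ≤ a) (hU : Continuous U) (hst : s ≤ t) {ξ : ℝ} (hξ : 0 < ξ)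
    (h : Back a U s t ξ) (h' : Back a U s t (-ξ)) : Lz U s t ≤ 4 * ξ := by
  obtain ⟨h1, h2⟩ := disp (by linarith) hU hst (neg_neg_of_pos hξ) hξ h' h
  have k1 : Om U s t ≤ ξ - -ξ := Om_le hst fun r hr => h2 r hr s ⟨le_rfl, hst⟩
  have k2 : √(t - s) ≤ 2 * ξ := Real.sqrt_le_iff.2 ⟨by positivity, by nlinarith⟩
  unfold Lz
  linarith

/-! ### the level -/

variable {c : ℂ} {ρ : ℝ}

theorem continuous_lev (c : ℂ) (hρ : 0 < ρ) : Continuous (lev c ρ) :=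
  Continuous.log (by fun_prop) fun _ => (hρ.trans_le (le_max_right _ _)).ne'

theorem lev_eq (hρ : 0 < ρ) {z : ℂ} (hz : z - c ≠ 0) :
    lev c ρ z = max (Real.log ‖z - c‖) (Real.log ρ) := by
  have h := norm_pos_iff.2 hz
  unfold lev
  rcases le_total ‖z - c‖ ρ with h1 | h1
  · rw [max_eq_right h1, max_eq_right (Real.log_le_log h h1)]
  · rw [max_eq_left h1, max_eq_left (Real.log_le_log hρ h1)]

theorem lev_sub_le (hρ : 0 < ρ) {z z' : ℂ} (hz : z - c ≠ 0) (hz' : z' - c ≠ 0) :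
    |lev c ρ z - lev c ρ z'| ≤ |Real.log ‖z - c‖ - Real.log ‖z' - c‖| := by
  rw [lev_eq hρ hz, lev_eq hρ hz']
  exact abs_max_sub_max_le_abs _ _ _

theorem lev_lip (hρ : 0 < ρ) (z z' : ℂ) : |lev c ρ z - lev c ρ z'| ≤ ‖z - z'‖ / ρ := by
  have key : ∀ z z' : ℂ, lev c ρ z - lev c ρ z' ≤ ‖z - z'‖ / ρ := fun z z' => by
    have h1 : ρ ≤ max ‖z - c‖ ρ := le_max_right _ _
    have h2 : ρ ≤ max ‖z' - c‖ ρ := le_max_right _ _
    have h3 : max ‖z - c‖ ρ - max ‖z' - c‖ ρ ≤ ‖z - z'‖ :=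
      (le_abs_self _).trans ((abs_max_sub_max_le_abs _ _ _).trans
        ((abs_norm_sub_norm_le _ _).trans_eq (by rw [sub_sub_sub_cancel_right])))
    unfold lev
    rw [← Real.log_div (by linarith) (by linarith)]
    refine (Real.log_le_sub_one_of_pos (div_pos (by linarith) (by linarith))).trans ?_
    rw [div_sub_one (by linarith)]
    exact (div_le_div_of_nonneg_right h3 (by linarith)).trans
      (div_le_div_of_nonneg_left (norm_nonneg _) hρ h2)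
  exact abs_sub_le_iff.2 ⟨key z z', by rw [norm_sub_rev]; exact key z' z⟩

theorem lev_le_iff (hρ : 0 < ρ) {z : ℂ} {d : ℝ} :
    lev c ρ z ≤ d ↔ ‖z - c‖ ≤ Real.exp d ∧ ρ ≤ Real.exp d := by
  rw [lev, Real.log_le_iff_le_exp (hρ.trans_le (le_max_right _ _)), max_le_iff]

theorem le_lev_iff (hρ : 0 < ρ) {z : ℂ} {d : ℝ} :
    d ≤ lev c ρ z ↔ Real.exp d ≤ ‖z - c‖ ∨ Real.exp d ≤ ρ := by
  rw [lev, Real.le_log_iff_exp_le (hρ.trans_le (le_max_right _ _)), le_max_iff]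

theorem lev_seg (ha : 0 < a) (hU : Continuous U) (ht : 0 ≤ t) (hc : ¬ Alive a U c t) (hρ : 0 < ρ)
    {m : ℝ} (hm : 0 < m) {w w' : ℂ} (hw : m ≤ w.im) (hw' : m ≤ w'.im) :
    |lev c ρ (Fm a U t w') - lev c ρ (Fm a U t w)| ≤ 2 * ‖w' - w‖ / m :=
  have h := conf_Fm ha hU ht hc
  (lev_sub_le hρ (h.ne _ (hm.trans_le hw')) (h.ne _ (hm.trans_le hw))).trans (h.lip_seg hm hw hw')

theorem lev_vert (ha : 0 < a) (hU : Continuous U) (ht : 0 ≤ t) (hc : ¬ Alive a U c t) (hρ : 0 < ρ)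
    (x : ℝ) {y y' : ℝ} (hy : 0 < y) (hyy : y ≤ y') :
    |lev c ρ (Fm a U t (x + y' * I)) - lev c ρ (Fm a U t (x + y * I))| ≤ 2 * Real.log (y' / y) :=
  have h := conf_Fm ha hU ht hc
  (lev_sub_le hρ (h.ne _ (by simpa using hy.trans_le hyy)) (h.ne _ (by simpa using hy))).trans
    (h.lip_vert x hy hyy)

/-- TAIL -/
theorem lev_tail (ha : 0 < a) (ha1 : a ≤ 1) (hU : Continuous U) (hs : 0 ≤ s) (hst : s ≤ t)
    (hc : ¬ Alive a U c t) (hρ : 0 < ρ) {w : ℂ} (hw : 0 < w.im) (h : 16 * Lz U s t ≤ w.im) :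
    |lev c ρ (Fm a U t w) - lev c ρ (Fm a U s w)| ≤ 2 := by
  have ht := hs.trans hst
  have hL := Lz_nonneg hU hst
  obtain ⟨h1, h2⟩ := Fm_spec ha hU hs hw
  have h0 := (le_abs_self _).trans (abs_im_le_norm w)
  have h3 := alive_of_size ha ha1 hU hs hst h1 (by rw [h2]; linarith)
  have h4 := size_le ha ha1 hU hs hst h3
  rw [h2] at h4
  have h5 := abs_im_le_norm (Zt a U (Fm a U s w) t - w)
  rw [sub_im] at h5
  have h6 := lev_seg ha hU ht hc hρ (half_pos hw) (w := Zt a U (Fm a U s w) t) (w' := w)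
    (by linarith [(abs_le.1 h5).1]) (by linarith)
  rw [Fm_Zt ha hU ht h3, norm_sub_rev] at h6
  refine h6.trans ?_
  rw [div_le_iff₀ (half_pos hw)]
  linarith

theorem exists_radius (ha : 0 < a) (hU : Continuous U) (hs : 0 ≤ s) {S : Set ℂ}
    (hS : IsPreconnected S) (hal : ∀ q ∈ S, Alive a U q s) (x : ℂ) {z z' : ℂ} (hz : z ∈ S)
    (hz' : z' ∈ S) {r : ℝ} (h1 : ‖Zt a U z s - x‖ ≤ r) (h2 : r ≤ ‖Zt a U z' s - x‖) :
    ∃ q ∈ S, ‖Zt a U q s - x‖ = r :=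
  hS.intermediate_value hz hz' (f := fun q => ‖Zt a U q s - x‖) (fun q hq =>
    ((Zt_continuousAt ha hU hs (hal q hq)).sub continuousAt_const).norm.continuousWithinAt)
    ⟨h1, h2⟩

/-- GH -/
theorem lev_semi (ha : 0 < a) (hU : Continuous U) (hs : 0 ≤ s) (hc : ¬ Alive a U c s) (hρ : 0 < ρ)
    {σ d x r : ℝ} {S : Set ℂ} {z z' : ℂ} (hσ : σ = 1 ∨ σ = -1) (hr : 0 < r)
    (hS : IsPreconnected S) (h : ∀ q ∈ S, Alive a U q s ∧ σ * lev c ρ q ≤ d) (hz : z ∈ S)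
    (hz' : z' ∈ S) (h1 : ‖Zt a U z s - x‖ ≤ r) (h2 : 2 * r ≤ ‖Zt a U z' s - x‖) :
    σ * lev c ρ (Fm a U s (x + r * I)) ≤ d + 32 := by
  have key : ∀ r' ∈ Ioo r (2 * r), (∃ q ∈ S, ‖Zt a U q s - x‖ = r') ∧
      0 < ((x : ℂ) + r' * I).im ∧ ‖(x : ℂ) + r' * I - x‖ = r' ∧
      |lev c ρ (Fm a U s (x + r' * I)) - lev c ρ (Fm a U s (x + r * I))| ≤ 2 := fun r' hr' => by
    have h0 : 0 < r' := hr.trans hr'.1
    refine ⟨exists_radius ha hU hs hS (fun q hq => (h q hq).1) x hz hz' (h1.trans hr'.1.le)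
      (hr'.2.le.trans h2), by simpa using h0, by simp [abs_of_pos h0],
      (lev_vert ha hU hs hc hρ x hr hr'.1.le).trans ?_⟩
    have := Real.log_le_sub_one_of_pos (div_pos h0 hr)
    have h3 : r' / r ≤ 2 := (div_le_iff₀ hr).2 hr'.2.le
    linarith
  rcases hσ with rfl | rfl
  · obtain ⟨r', hr', h3⟩ := (univ_Fm ha hU hs c).semi x d hr
    obtain ⟨⟨q, hq, e⟩, k1, k2, k3⟩ := key r' hr'
    have h4 := (lev_le_iff hρ).1 (by simpa using (h q hq).2)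
    have h5 := h3 _ _ (Zt_im_pos hU hs (h q hq).1) k1 e k2 (by
      simpa only [Fm_Zt ha hU hs (h q hq).1] using h4.1)
    have h6 := (lev_le_iff hρ).2 ⟨h5.le, h4.2.trans (Real.exp_le_exp.2 (by linarith))⟩
    linarith [(abs_le.1 k3).1]
  · obtain ⟨r', hr', h3⟩ := (univ_Fm ha hU hs c).semi x (-d - 30) hr
    obtain ⟨⟨q, hq, e⟩, k1, k2, k3⟩ := key r' hr'
    have h6 : -d - 30 ≤ lev c ρ (Fm a U s (x + r' * I)) := by
      rcases (le_lev_iff hρ).1 (show -d ≤ lev c ρ q by linarith [(h q hq).2]) with h4 | h4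
      · refine (le_lev_iff hρ).2 (Or.inl (le_of_not_gt fun h5 => ?_))
        have h7 := h3 _ _ k1 (Zt_im_pos hU hs (h q hq).1) k2 e h5.le
        simp only [Fm_Zt ha hU hs (h q hq).1, sub_add_cancel] at h7
        linarith
      · exact (le_lev_iff hρ).2 (Or.inr ((Real.exp_le_exp.2 (by linarith)).trans h4))
    linarith [(abs_le.1 k3).2]

/-- RAY -/
theorem lev_ray (ha : 0 < a) (hU : Continuous U) (ht : 0 ≤ t) (hc : ¬ Alive a U c t) (hρ : 0 < ρ)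
    (x : ℝ) {y : ℝ} (hy : 0 < y) : ∃ ξ ∈ Ioo y (2 * y), ∀ η ∈ Ioc 0 y,
      |lev c ρ (Fm a U t ((x + ξ : ℝ) + η * I)) - lev c ρ (Fm a U t (x + y * I))| ≤ 60 ∧
      |lev c ρ (Fm a U t ((x - ξ : ℝ) + η * I)) - lev c ρ (Fm a U t (x + y * I))| ≤ 60 := by
  have h := conf_Fm ha hU ht hc
  obtain ⟨ξ, hξ, h1⟩ := h.ray x hy
  exact ⟨ξ, hξ, fun η hη =>
    ⟨(lev_sub_le hρ (h.ne _ (by simpa using hη.1)) (h.ne _ (by simpa using hy))).trans (h1 η hη).1,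
    (lev_sub_le hρ (h.ne _ (by simpa using hη.1)) (h.ne _ (by simpa using hy))).trans (h1 η hη).2⟩⟩

/-! ### links -/

variable {y0 η T : ℝ}

theorem exists_arg {x s : ℝ} {w : ℂ} (hw : 0 < w.im) (e : ‖w - x‖ = Real.exp s) :
    ∃ θ ∈ Ioo 0 π, w = x + exp (s + θ * I) := by
  have h3 : 0 < (w - x).im := by simpa using hw
  refine ⟨arg (w - x), ⟨?_, arg_lt_pi_iff.2 (Or.inr h3.ne')⟩, ?_⟩
  · refine lt_of_le_of_ne (arg_nonneg_iff.2 h3.le) fun e0 => h3.ne' (arg_eq_zero_iff.1 e0.symm).2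
  · rw [exp_add, ← ofReal_exp, ← e, norm_mul_exp_arg_mul_I]; ring

theorem preconn_path (ha : 0 < a) (hU : Continuous U) (ht : 0 ≤ t) {γ : ℝ → ℂ} (hγ : Continuous γ)
    {J : Set ℝ} (hJ : IsPreconnected J) (h : ∀ r ∈ J, 0 < (γ r).im) :
    IsPreconnected ((fun r => Fm a U t (γ r)) '' J) :=
  hJ.image _ fun r hr =>
    ((Fm_continuousAt ha hU ht (h r hr)).comp hγ.continuousAt).continuousWithinAt

/-- LIND -/
theorem lind_ball (ha : 0 < a) (hU : Continuous U) (hy0 : 0 < y0) (hη : 0 < η)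
    (hT : Tail a U y0 η T) {u : ℝ} (hu : u ∈ Icc 0 T) {S : Set ℂ} (hS : IsPreconnected S)
    (hal : ∀ q ∈ S, Alive a U q u) (hinf : ∀ ε : ℝ, 0 < ε → ∃ q ∈ S, ‖Zt a U q u‖ ≤ ε) :
    ∃ S' : Set ℂ, IsPreconnected S' ∧
      (∀ q ∈ S', Alive a U q u ∧ ‖q - Fm a U u (y0 * I)‖ ≤ 2 * η) ∧
      Fm a U u (y0 * I) ∈ S' ∧ (S' ∩ S).Nonempty := by
  obtain ⟨q0, hq0, -⟩ := hinf 1 one_pos
  have h0 : 0 < ‖Zt a U q0 u‖ :=
    norm_pos_iff.2 (LoeBM.ne_zero_of_im (Zt_im_pos hU hu.1 (hal q0 hq0)))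
  set r0 := min ‖Zt a U q0 u‖ y0 with hr0
  have r0p : 0 < r0 := lt_min h0 hy0
  obtain ⟨R, hR0, hR⟩ : ∃ R : ℝ, 0 ≤ R ∧ ∀ w : ℂ, 0 < w.im → ‖w‖ ≤ y0 → ‖Fm a U u w‖ ≤ R := by
    refine ⟨y0 + (3 * Om U 0 u + 8 * (a * u + 1)) + |U 0|, by
      have := Om_nonneg hU hu.1
      have := hu.1
      positivity, fun w hw h1 => ?_⟩
    obtain ⟨k1, k2⟩ := Fm_spec ha hU hu.1 hw
    have k0 := mul_nonneg ha.le hu.1
    have k3 := Zt_move ha hU le_rfl hu.1 (ρ := a * u + 1) (by positivity) (by nlinarith)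
      (fun _ hr => le_Om hU hr) k1
    rw [k2, ((loeA ha hU).init _ k1.1).2.1] at k3
    have k4 : Fm a U u w = w - (w - (Fm a U u w - U 0)) + U 0 := by ring
    rw [k4]
    refine (norm_add_le _ _).trans (add_le_add ((norm_sub_le _ _).trans (by linarith)) ?_)
    rw [norm_real, Real.norm_eq_abs]
  obtain ⟨s, hs, h1⟩ := short_arc (F := Fm a U u) (fun _ hw => Fm_differentiableAt ha hU hu.1 hw)
    (Fm_injOn ha hU hu.1) 0 (s1 := Real.log r0 - (π * (π * R ^ 2) / η ^ 2 + 1))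
    (s2 := Real.log r0) (A := π * R ^ 2) (by
      have : 0 ≤ π * (π * R ^ 2) / η ^ 2 := by positivity
      linarith) (by positivity) (by
      refine (measure_mono (t := Metric.closedBall 0 R) ?_).trans (le_of_eq ?_)
      · rintro _ ⟨w, hw, rfl⟩
        rw [mem_closedBall_zero_iff]
        refine hR w hw.1 ?_
        have := hw.2
        rw [Real.exp_log r0p, ofReal_zero, sub_zero] at this
        exact this.le.trans (min_le_right _ _)
      · rw [Complex.volume_closedBall, mul_comm π, ENNReal.ofReal_mul (by positivity),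
          ENNReal.ofReal_pow hR0, ← NNReal.coe_real_pi, ENNReal.ofReal_coe_nnreal])
  have hr : Real.exp s < r0 := (Real.lt_log_iff_exp_lt r0p).1 hs.2
  have hr1 : Real.exp s ∈ Ioc 0 y0 := ⟨Real.exp_pos s, hr.le.trans (min_le_right _ _)⟩
  have hπ : π / 2 ∈ Ioo 0 π := ⟨by positivity, by linarith [Real.pi_pos]⟩
  have e0 : ((0 : ℝ) : ℂ) + exp (s + (π / 2 : ℝ) * I) = (Real.exp s : ℝ) * I := by
    rw [exp_add]; push_cast; rw [exp_pi_div_two_mul_I, zero_add]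
  have h2 : ∀ θ ∈ Ioo 0 π, ‖Fm a U u ((0 : ℝ) + exp (s + θ * I)) -
      Fm a U u ((Real.exp s : ℝ) * I)‖ ≤ η := fun θ hθ => by
    have k1 := h1 _ hπ θ hθ
    rw [e0, sub_sub_cancel] at k1
    refine le_of_pow_le_pow_left₀ two_ne_zero hη.le ?_
    by_contra hc
    have k2 : η ^ 2 * (π * (π * R ^ 2) / η ^ 2 + 1) = π * (π * R ^ 2) + η ^ 2 := by field_simp
    have k3 : 0 ≤ π * (π * R ^ 2) / η ^ 2 := by positivity
    nlinarith [sq_pos_of_pos hη]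
  refine ⟨(fun θ : ℝ => Fm a U u ((0 : ℝ) + exp (s + θ * I))) '' Ioo 0 π ∪
    (fun y : ℝ => Fm a U u (y * I)) '' Icc (Real.exp s) y0, IsPreconnected.union
      (Fm a U u ((Real.exp s : ℝ) * I)) ⟨_, hπ, by simp only [e0]⟩ ⟨_, ⟨le_rfl, hr1.2⟩, rfl⟩
      (preconn_path ha hU hu.1 (by fun_prop) isPreconnected_Ioo fun θ hθ => im_arc_pos 0 s hθ)
      (preconn_path ha hU hu.1 (by fun_prop) isPreconnected_Icc fun y hy => by
        simpa using hr1.1.trans_le hy.1), ?_, Or.inr ⟨y0, ⟨hr1.2, le_rfl⟩, rfl⟩, ?_⟩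
  · rintro _ (⟨θ, hθ, rfl⟩ | ⟨y, hy, rfl⟩)
    · refine ⟨Fm_alive ha hU hu.1 (im_arc_pos 0 s hθ), ?_⟩
      linarith [h2 θ hθ, hT u hu _ hr1 y0 ⟨hy0, le_rfl⟩, norm_sub_le_norm_sub_add_norm_sub
        (Fm a U u ((0 : ℝ) + exp (s + θ * I))) (Fm a U u ((Real.exp s : ℝ) * I))
        (Fm a U u (y0 * I))]
    · have hy' : 0 < y := hr1.1.trans_le hy.1
      exact ⟨Fm_alive ha hU hu.1 (by simpa using hy'),
        (hT u hu y ⟨hy', hy.2⟩ y0 ⟨hy0, le_rfl⟩).trans (by linarith)⟩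
  · obtain ⟨q1, hq1, k1⟩ := hinf _ (Real.exp_pos s)
    obtain ⟨q, hq, e⟩ := exists_radius ha hU hu.1 hS hal ((0 : ℝ) : ℂ) hq1 hq0
      (r := Real.exp s) (by simpa using k1) (by simpa using hr.le.trans (min_le_left _ _))
    obtain ⟨θ, hθ, e1⟩ := exists_arg (Zt_im_pos hU hu.1 (hal q hq)) e
    exact ⟨q, Or.inl ⟨θ, hθ, by simp only [← e1, Fm_Zt ha hU hu.1 (hal q hq)]⟩, hq⟩

/-- ACC -/
theorem acc (ha : 0 < a) (hU : Continuous U) (hy0 : 0 < y0) (hη : 0 < η) (hT : Tail a U y0 η T)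
    (hs : 0 ≤ s) (hst : s ≤ t) (htT : t ≤ T) {z p : ℂ} (hp : Alive a U p s) (hp' : ¬ Alive a U p t)
    (hseg : ∀ θ ∈ Ico (0 : ℝ) 1, Alive a U (z + θ * (p - z)) t) :
    ∃ u ∈ Icc s t, ‖Fm a U u (y0 * I) - p‖ ≤ 3 * η := by
  have hA := loeA ha hU
  set D := {r | r ∈ Icc s t ∧ ¬ Alive a U p r} with hD
  have hne : D.Nonempty := ⟨t, ⟨hst, le_rfl⟩, hp'⟩
  have hbd : BddBelow D := ⟨s, fun r hr => hr.1.1⟩
  have hu : sInf D ∈ Icc s t := ⟨le_csInf hne fun r hr => hr.1.1, csInf_le hbd ⟨⟨hst, le_rfl⟩, hp'⟩⟩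
  have hd : ¬ Alive a U p (sInf D) := fun h => by
    obtain ⟨t', h1, h2⟩ := hA.extend p _ (hs.trans hu.1) h
    exact absurd (le_csInf hne fun r hr => le_of_not_ge fun h3 => hr.2 (hA.mono p r t' h3 h2))
      (not_le.2 h1)
  have hal : ∀ r, s ≤ r → r < sInf D → Alive a U p r := fun r h1 h2 => by
    by_contra h
    exact absurd (csInf_le hbd ⟨⟨h1, h2.le.trans hu.2⟩, h⟩) (not_le.2 h2)
  have hsu : s < sInf D := lt_of_le_of_ne hu.1 fun e => hd (e ▸ hp)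
  generalize sInf D = u at *
  have hu0 := hs.trans hu.1
  have hc : Continuous fun θ : ℝ => z + θ * (p - z) := by fun_prop
  have near : ∀ θ0 : ℝ, θ0 < 1 → ∀ δ : ℝ, 0 < δ → ∃ θ1 ∈ Ico θ0 1, 0 ≤ θ1 ∧
      ∀ θ ∈ Ico θ1 1, ‖z + θ * (p - z) - p‖ < δ := fun θ0 h0 δ hδ => by
    obtain ⟨ε, hε, h1⟩ := Metric.continuousAt_iff.1 (hc.continuousAt (x := 1)) δ hδ
    refine ⟨max (max θ0 0) (1 - ε / 2), ⟨(le_max_left _ _).trans (le_max_left _ _),
      max_lt (max_lt h0 one_pos) (by linarith)⟩, (le_max_right _ _).trans (le_max_left _ _),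
      fun θ hθ => ?_⟩
    have := h1 (x := θ) (by
      rw [Real.dist_eq, abs_lt]
      constructor <;> linarith [hθ.2, (le_max_right _ _).trans hθ.1])
    simpa [dist_eq_norm] using this
  obtain ⟨θ0, k0, k1, k2⟩ := near 0 one_pos η hη
  obtain ⟨S', -, h2, -, q, hq, θ, hθ, rfl⟩ := lind_ball ha hU hy0 hη hT ⟨hu0, hu.2.trans htT⟩
    (S := (fun θ : ℝ => z + θ * (p - z)) '' Ico θ0 1)
    (isPreconnected_Ico.image _ hc.continuousOn) (by
      rintro _ ⟨θ, hθ, rfl⟩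
      exact hA.mono _ u t hu.2 (hseg θ ⟨k1.trans hθ.1, hθ.2⟩)) (fun ε hε => by
      obtain ⟨δ, hδ, h1⟩ := exists_short ha hU t (η := ε / 16) (by positivity)
      have hr1 : s ≤ max s (u - δ) := le_max_left _ _
      have hr2 : max s (u - δ) < u := max_lt hsu (by linarith)
      have hr3 := h1 _ u (hs.trans hr1) hr2.le hu.2 (by linarith [le_max_right s (u - δ)])
      generalize max s (u - δ) = r at *
      have hr0 := hs.trans hr1
      have h3 : ‖Zt a U p r‖ < ε / 16 + 3 * (ε / 16) := lt_of_not_ge fun h => hd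
        (alive_of_far ha hU hr0 hr2.le (by positivity) hr3.1 hr3.2 (hal r hr1 hr2) h)
      obtain ⟨δ', hδ', h4⟩ := Metric.continuousAt_iff.1
        (Zt_continuousAt ha hU hr0 (hal r hr1 hr2)) (ε / 16) (by positivity)
      obtain ⟨θ1, j0, j1, j2⟩ := near θ0 k0.2 δ' hδ'
      refine ⟨_, ⟨θ1, j0, rfl⟩, ?_⟩
      have h5 := h4 (x := z + θ1 * (p - z)) (by rw [dist_eq_norm]; exact j2 θ1 ⟨le_rfl, j0.2⟩)
      have h6 := Zt_move ha hU hr0 hr2.le (by positivity) hr3.1 hr3.2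
        (hA.mono _ u t hu.2 (hseg θ1 ⟨j1, j0.2⟩))
      rw [dist_eq_norm] at h5
      linarith [norm_sub_norm_le (Zt a U (z + θ1 * (p - z)) u) (Zt a U (z + θ1 * (p - z)) r),
        norm_sub_norm_le (Zt a U (z + θ1 * (p - z)) r) (Zt a U p r)])
  refine ⟨u, hu, ?_⟩
  have h3 := (h2 _ hq).2
  rw [norm_sub_rev] at h3
  linarith [k2 θ hθ, norm_sub_le_norm_sub_add_norm_sub (Fm a U u (y0 * I)) (z + θ * (p - z)) p]

/-- FRESH: a convex set that is cut during `[s, t]` is visited by the marker -/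
theorem fresh (ha : 0 < a) (hU : Continuous U) (hy0 : 0 < y0) (hη : 0 < η) (hT : Tail a U y0 η T)
    (hs : 0 ≤ s) (hst : s ≤ t) (htT : t ≤ T) {K : Set ℂ} (hK : Convex ℝ K)
    (hal : ∀ q ∈ K, Alive a U q s) {z z' : ℂ} (hz : z ∈ K) (hz' : z' ∈ K) (h1 : Alive a U z t)
    (h2 : ¬ Alive a U z' t) : ∃ u ∈ Icc s t, ∃ p ∈ K, ‖Fm a U u (y0 * I) - p‖ ≤ 3 * η := by
  have hc : Continuous fun θ : ℝ => z + θ * (z' - z) := by fun_prop
  obtain ⟨θ0, ⟨k1, k2⟩, k3⟩ := (isCompact_Icc.inter_right (s := Icc (0 : ℝ) 1)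
    ((isOpen_alive ha hU (hs.trans hst)).isClosed_compl.preimage hc)).exists_isLeast
    ⟨1, ⟨zero_le_one, le_rfl⟩, by simpa using h2⟩
  have hp : z + θ0 * (z' - z) ∈ K := by
    simpa only [real_smul] using hK.add_smul_sub_mem hz hz' k1
  have h0 : 0 < θ0 := lt_of_le_of_ne k1.1 fun e => k2 (by simpa [← e] using h1)
  obtain ⟨u, hu, h3⟩ := acc ha hU hy0 hη hT hs hst htT (z := z) (hal _ hp) k2 fun θ hθ => by
    by_contra h
    have h4 : θ0 ≤ θ * θ0 := k3 ⟨⟨mul_nonneg hθ.1 k1.1, by nlinarith [hθ.2, k1.2]⟩, fun h5 => h (by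
      have e : z + θ * (z + θ0 * (z' - z) - z) = z + (θ * θ0 : ℝ) * (z' - z) := by push_cast; ring
      rw [e]; exact h5)⟩
    nlinarith [hθ.2]
  exact ⟨u, hu, _, hp, h3⟩

/-- the later of two hitting times -/
theorem hit_two (ha : 0 < a) (hU : Continuous U) (hs : 0 ≤ s) (hst : s ≤ t) {x x' : ℝ} (hx : x ≠ 0)
    (hx' : x' ≠ 0) (h : ¬ Back a U s t x) : ∃ u ∈ Ico s t, ∃ x'', (x'' = x ∨ x'' = x') ∧
      ¬ Back a U u t x'' ∧ (∀ r, u < r → Back a U r t x ∧ Back a U r t x') ∧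
      ∀ ε : ℝ, 0 < ε → ∃ δ : ℝ, 0 < δ ∧ ∀ w : ℂ, 0 < w.im → ‖w - x''‖ ≤ δ →
        ‖Zt a U (Fm a U t w) u‖ ≤ ε := by
  obtain ⟨u, hu, h1, h2⟩ := hit_time ha hU hs hst hx h
  by_cases hb : Back a U u t x'
  · exact ⟨u, hu, x, Or.inl rfl, fun h3 => lt_irrefl _ ((h1 u).1 h3),
      fun r hr => ⟨(h1 r).2 hr, hb.later hr.le⟩, h2⟩
  · obtain ⟨v, hv, h3, h4⟩ := hit_time ha hU (hs.trans hu.1) hu.2.le hx' hb
    exact ⟨v, ⟨hu.1.trans hv.1, hv.2⟩, x', Or.inr rfl, fun h5 => lt_irrefl _ ((h3 v).1 h5),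
      fun r hr => ⟨(h1 r).2 (hv.1.trans_lt hr), (h3 r).2 hr⟩, h4⟩

/-- DOOR, with the link -/
theorem door_link (ha : 1 / 4 ≤ a) (ha1 : a ≤ 1) (hU : Continuous U) (hy0 : 0 < y0) (hη : 0 < η)
    (hT : Tail a U y0 η T) (hs : 0 ≤ s) (hst : s ≤ t) (htT : t ≤ T) (hc : ¬ Alive a U c t)
    (hρ : 2 * η ≤ ρ) {y : ℝ} (hy : 0 < y) : Lz U s t ≤ 8 * y ∨
      ∃ u ∈ Icc s t, y ≤ 9 * Lz U u t ∧ Lz U u t ≤ 8 * y ∧ ∃ S : Set ℂ, IsPreconnected S ∧
        (∀ q ∈ S, Alive a U q u ∧ |lev c ρ q - lev c ρ (Fm a U t (y * I))| ≤ 62) ∧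
        Fm a U u (y0 * I) ∈ S ∧ Fm a U t (y * I) ∈ S := by
  have ha0 : 0 < a := by linarith
  have hρ0 : 0 < ρ := by linarith
  have ht := hs.trans hst
  obtain ⟨ξ, hξ, hray⟩ := lev_ray ha0 hU ht hc hρ0 0 hy
  have hξ0 : 0 < ξ := hy.trans hξ.1
  simp only [zero_add, zero_sub, ofReal_zero] at hray
  by_cases hb : Back a U s t ξ ∧ Back a U s t (-ξ)
  · exact Or.inl ((size_of_back ha hU hst hξ0 hb.1 hb.2).trans (by linarith [hξ.2]))
  right
  obtain ⟨u, hu, x, hx, h1, h2, h3⟩ : ∃ u ∈ Ico s t, ∃ x, (x = ξ ∨ x = -ξ) ∧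
      ¬ Back a U u t x ∧ (∀ r, u < r → Back a U r t ξ ∧ Back a U r t (-ξ)) ∧
      ∀ ε : ℝ, 0 < ε → ∃ δ : ℝ, 0 < δ ∧ ∀ w : ℂ, 0 < w.im → ‖w - x‖ ≤ δ →
        ‖Zt a U (Fm a U t w) u‖ ≤ ε := by
    rcases not_and_or.1 hb with h | h
    · exact hit_two ha0 hU hs hst hξ0.ne' (neg_ne_zero.2 hξ0.ne') h
    · obtain ⟨u, hu, x, hx, h1, h2, h3⟩ := hit_two ha0 hU hs hst (neg_ne_zero.2 hξ0.ne') hξ0.ne' h
      exact ⟨u, hu, x, hx.symm, h1, fun r hr => (h2 r hr).symm, h3⟩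
  have hu0 := hs.trans hu.1
  have hxa : |x| = ξ := by rcases hx with rfl | rfl <;> simp [abs_of_pos hξ0]
  have hr : ∀ η' ∈ Ioc 0 y, |lev c ρ (Fm a U t (x + η' * I)) - lev c ρ (Fm a U t (y * I))| ≤ 60 :=
    fun η' h => by rcases hx with rfl | rfl; exacts [(hray η' h).1, (hray η' h).2]
  have hal : ∀ w : ℂ, 0 < w.im → Alive a U (Fm a U t w) u := fun w hw =>
    (loeA ha0 hU).mono _ u t hu.2.le (Fm_alive ha0 hU ht hw)
  have p1 := preconn_path ha0 hU ht (γ := fun r : ℝ => (x : ℂ) + r * I) (by fun_prop)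
    (isPreconnected_Ioc (a := 0) (b := y)) fun r hr => by simpa using hr.1
  have p2 := preconn_path ha0 hU ht (γ := fun r : ℝ => (r * x : ℝ) + y * I) (by fun_prop)
    (isPreconnected_Icc (a := 0) (b := 1)) fun r _ => by simpa using hy
  obtain ⟨S', k1, k2, k3, q, hq, η', hη', rfl⟩ := lind_ball ha0 hU hy0 hη hT
    ⟨hu0, hu.2.le.trans htT⟩ p1 (by
      rintro _ ⟨r, hr, rfl⟩
      exact hal _ (by simpa using hr.1)) fun ε hε => by
      obtain ⟨δ, hδ, h4⟩ := h3 ε hε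
      have h5 : 0 < min δ y := lt_min hδ hy
      exact ⟨_, ⟨min δ y, ⟨h5, min_le_right _ _⟩, rfl⟩, h4 _ (by simpa using ⟨hδ, hy⟩)
        (by rw [add_sub_cancel_left, SHM.norm_mulI h5.le]; exact min_le_left _ _)⟩
  have k4 : ∀ q ∈ S', |lev c ρ q - lev c ρ (Fm a U u (y0 * I))| ≤ 1 := fun q hq =>
    (lev_lip hρ0 _ _).trans ((div_le_one hρ0).2 ((k2 q hq).2.trans hρ))
  refine ⟨u, Ico_subset_Icc_self hu, ?_, ?_, S' ∪ ((fun r : ℝ => Fm a U t (x + r * I)) '' Ioc 0 y ∪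
    (fun r : ℝ => Fm a U t ((r * x : ℝ) + y * I)) '' Icc 0 1),
    IsPreconnected.union _ hq (Or.inl ⟨η', hη', rfl⟩) k1 (IsPreconnected.union
      (Fm a U t (x + y * I)) ⟨y, ⟨hy, le_rfl⟩, rfl⟩ ⟨1, ⟨zero_le_one, le_rfl⟩, by simp⟩ p1 p2),
    ?_, Or.inl k3, Or.inr (Or.inr ⟨0, ⟨le_rfl, zero_le_one⟩, by simp⟩)⟩
  · by_contra h
    exact h1 (back_of_size ha0 ha1 hU hu.2 (by rw [hxa]; linarith [hξ.1]))
  · have h4 : Tendsto (fun r => Lz U r t) (𝓝[>] u) (𝓝 (Lz U u t)) :=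
      (((continuous_Lz hU).comp (continuous_id.prodMk continuous_const)).tendsto u).mono_left
        nhdsWithin_le_nhds
    refine le_of_tendsto h4 ?_
    filter_upwards [Ioo_mem_nhdsGT hu.2] with r hr
    exact (size_of_back ha hU hr.2.le hξ0 (h2 r hr.1).1 (h2 r hr.1).2).trans (by linarith [hξ.2])
  · rintro q (h | ⟨r, h, rfl⟩ | ⟨r, h, rfl⟩)
    · refine ⟨(k2 q h).1, ?_⟩
      have a1 := abs_le.1 (k4 q h)
      have a2 := abs_le.1 (k4 _ hq)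
      have a3 := abs_le.1 (hr η' hη')
      rw [abs_le]
      constructor <;> linarith [a1.1, a1.2, a2.1, a2.2, a3.1, a3.2]
    · exact ⟨hal _ (by simpa using h.1), (hr r h).trans (by norm_num)⟩
    · refine ⟨hal _ (by simpa using hy), (lev_seg ha0 hU ht hc hρ0 hy (by simp) (by simp)).trans ?_⟩
      rw [add_sub_cancel_right, norm_real, Real.norm_eq_abs, abs_mul, hxa, abs_of_nonneg h.1,
        div_le_iff₀ hy]
      nlinarith [h.1, h.2, hξ.2]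

/-- the tools of the clean window -/
theorem tl (ha : 1 / 4 ≤ a) (ha1 : a ≤ 1) (hU : Continuous U) (hU0 : U 0 = 0) (hy0 : 0 < y0)
    (hη : 0 < η) (hT : Tail a U y0 η T) (hρ : 2 * η ≤ ρ) {t0 C : ℝ} (hc : ¬ Alive a U c t0)
    (hC : 62 ≤ C) : SHM.Tl a U (lev c ρ) (Lz U) y0 t0 T C := by
  have ha0 : 0 < a := by linarith
  have hρ0 : 0 < ρ := by linarith
  have hd : ∀ t, t0 ≤ t → ¬ Alive a U c t := fun t ht h => hc ((loeA ha0 hU).mono c t0 t ht h)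
  refine ⟨ha0, hU, hU0, hy0, by linarith, continuous_lev c hρ0, fun A => ⟨c.im + Real.exp A,
    fun z hz => (le_lev_iff hρ0).2 (Or.inl ?_)⟩, fun s t _ h => Lz_nonneg hU h,
    fun s _ => Lz_self hU s, fun s t t' _ h h' => Lz_mono hU h h', fun s s' t _ h h' => Lz_sub hU h h',
    fun s r t _ h h' => Lz_add hU h h', fun s _ =>
      ((continuous_Lz hU).comp (continuous_const.prodMk continuous_id)).continuousOn,
    fun s t z hs h hz => (size_le ha0 ha1 hU hs h hz).trans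
      (mul_le_mul_of_nonneg_right (by linarith) (Lz_nonneg hU h)),
    fun s t y hs h h0 hy h1 => (lev_tail ha0 ha1 hU hs h (hd t h0) hρ0 (by simpa using hy) ?_).trans
      (by linarith), fun t m k w w' ht h0 hm h1 h2 h3 => ?_,
    fun s σ d x r S z z' hs h0 hσ hr hS h hz hz' h1 h2 =>
      (lev_semi ha0 hU hs (hd s h0) hρ0 hσ hr hS h hz hz' h1 h2).trans (by linarith),
    fun t x y ht h0 hy => ?_, fun u S hu huT hS hal hinf => ?_, fun s t y hs h h0 htT hy => ?_⟩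
  · have := abs_im_le_norm (z - c)
    rw [sub_im] at this
    linarith [le_abs_self (z.im - c.im)]
  · rw [SHM.im_mulI]
    nlinarith [Lz_nonneg hU h]
  · refine (lev_seg ha0 hU ht (hd t h0) hρ0 hm h2 h1).trans ?_
    have h4 : 0 ≤ k := by
      by_contra h5
      nlinarith [norm_nonneg (w - w')]
    rw [div_le_iff₀ hm]
    nlinarith [mul_nonneg h4 hm.le]
  · obtain ⟨ξ, hξ, h1⟩ := lev_ray ha0 hU ht (hd t h0) hρ0 x hy
    exact ⟨ξ, Ioo_subset_Icc_self hξ, fun η' h =>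
      ⟨(h1 η' h).1.trans (by linarith), (h1 η' h).2.trans (by linarith)⟩⟩
  · obtain ⟨S', k1, k2, k3, k4⟩ := lind_ball ha0 hU hy0 hη hT ⟨hu, huT⟩ hS hal hinf
    exact ⟨S', k1, fun q hq => ⟨(k2 q hq).1, (lev_lip hρ0 _ _).trans
      (((div_le_one hρ0).2 ((k2 q hq).2.trans hρ)).trans (by linarith))⟩, k3, k4⟩
  · rcases door_link ha ha1 hU hy0 hη hT hs h htT (hd t h0) hρ hy with h1 | ⟨u, hu, h1, h2, S, -,
      h3, h4, -⟩
    · exact Or.inl (h1.trans (by nlinarith))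
    · refine Or.inr ⟨u, hu, h1.trans ?_, h2.trans (by nlinarith), ?_⟩
      · nlinarith [Lz_nonneg hU hu.2]
      · rw [abs_sub_comm]
        exact (h3 _ h4).2.trans hC

end Pool.Agent.MP_990230_pr.K8

end
end MrgPart0

-- ======== part 1: formerly Pool.Agent.MP_990230_pr.k8.Spec
section MrgPart1

-- ======== part 0: formerly Pool.Agent.MP_990230_pr.k8.Defs
section MrgPart0

/-!
# PROJECT SLE8: definitions (do not edit; ask helper15)
-/

open Set MeasureTheory Filter Complex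
open scoped ENNReal NNReal Topology

noncomputable section

namespace Pool.Agent.MP_990230_pr.K8

/-- the range of the parameter. -/
def Rg (a : ℝ) : Prop := 1 / 4 < a ∧ a < 1 / 2

theorem Rg.pos {a : ℝ} (h : Rg a) : 0 < a := by linarith [h.1]

theorem Rg.le_one {a : ℝ} (h : Rg a) : a ≤ 1 := by linarith [h.2]

/-- a sign. -/
def Sg (σ : ℝ) : Prop := σ = 1 ∨ σ = -1

/-- the geodesic `Γ_t(y)`; the marker is `gm a u t y0`. -/
def gm (a : ℝ) (u : Pth) (t y : ℝ) : ℂ := Fm a u.1 t (y * I)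

/-- the profile `p_t(y)`, seen from the pole `c`, clamped at `log ρ`. -/
def pf (a : ℝ) (u : Pth) (c : ℂ) (ρ t y : ℝ) : ℝ := lev c ρ (gm a u t y)

/-- the point `w` of the picture at time `t`, read in the picture at time `s ≤ t`. -/
def bk (a : ℝ) (u : Pth) (s t : ℝ) (w : ℂ) : ℂ := Zt a u.1 (Fm a u.1 t w) s

/-- `log |G w|`. -/
def ln (G : ℂ → ℂ) (w : ℂ) : ℝ := Real.log ‖G w‖

/-- short geodesic tails and short steps up to time `T`. -/
structure Good (a y0 η h T : ℝ) (u : Pth) : Prop where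
  y0_pos : 0 < y0
  y0_le : y0 ≤ η
  h_pos : 0 < h
  tail : Tail a u.1 y0 η T
  step : ∀ s ∈ Icc 0 T, ∀ t ∈ Icc 0 T, |s - t| ≤ h → ‖gm a u s y0 - gm a u t y0‖ ≤ η
  lstep : ∀ s t, 0 ≤ s → s ≤ t → t ≤ T → t - s ≤ h → 1000 * Lz u.1 s t ≤ y0

/-! ## locality -/

section loc

variable {a y0 η h s t T T' : ℝ} {u : Pth}

theorem Good.eta_pos (H : Good a y0 η h T u) : 0 < η := H.y0_pos.trans_le H.y0_le

theorem Good.mono (H : Good a y0 η h T u) (hT : T' ≤ T) : Good a y0 η h T' u :=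
  ⟨H.y0_pos, H.y0_le, H.h_pos, H.tail.mono le_rfl le_rfl hT,
    fun s hs t ht => H.step s ⟨hs.1, hs.2.trans hT⟩ t ⟨ht.1, ht.2.trans hT⟩,
    fun s t h1 h2 h3 => H.lstep s t h1 h2 (h3.trans hT)⟩

theorem Lz_congr {U V : ℝ → ℝ} (hst : s ≤ t) (e : ∀ r ∈ Icc s t, U r - U s = V r - V s) :
    Lz U s t = Lz V s t := by
  unfold Lz Om
  congr 2
  exact image_congr fun θ hθ => by rw [e _ ⟨by nlinarith [hθ.1], by nlinarith [hθ.2]⟩]

theorem Lz_cat_le (u v : Pth) (hst : s ≤ t) (hT : t ≤ T) : Lz (cat T u v).1 s t = Lz u.1 s t :=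
  Lz_congr hst fun r hr => by rw [cat_le u v (hr.2.trans hT), cat_le u v (hst.trans hT)]

theorem Lz_cat (u v : Pth) (hs : 0 ≤ s) (ht : 0 ≤ t) :
    Lz (cat s u v).1 s (s + t) = Lz v.1 0 t := by
  unfold Lz Om
  rw [add_sub_cancel_left, sub_zero]
  congr 2
  exact image_congr fun θ hθ => by
    rw [cat_add u v hs (mul_nonneg hθ.1 ht), cat_le u v le_rfl, v.zero]; simp

theorem gm_cat_le (ha : 0 < a) (u v : Pth) (ht : 0 ≤ t) (hT : t ≤ T) (y : ℝ) :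
    gm a (cat T u v) t y = gm a u t y := Fm_cat_le ha ht hT u v _

theorem gm_cat (ha : 0 < a) (u v : Pth) (hs : 0 ≤ s) (ht : 0 ≤ t) {y : ℝ} (hy : 0 < y) :
    gm a (cat s u v) (s + t) y = Fm a u.1 s (gm a v t y) :=
  Fm_cat ha hs ht u v (by simpa using hy)

theorem gm_alive (ha : 0 < a) (u : Pth) (ht : 0 ≤ t) {y : ℝ} (hy : 0 < y) :
    Alive a u.1 (gm a u t y) t := Fm_alive ha u.cont ht (by simpa using hy)

theorem Zt_gm (ha : 0 < a) (u : Pth) (ht : 0 ≤ t) {y : ℝ} (hy : 0 < y) :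
    Zt a u.1 (gm a u t y) t = y * I := Zt_Fm ha u.cont ht (by simpa using hy)

theorem gm_zero (ha : 0 < a) (u : Pth) {y : ℝ} (hy : 0 < y) : gm a u 0 y = y * I := by
  rw [gm, Fm_zero ha u.cont (by simpa using hy), u.zero]; simp

theorem bk_cat_le (ha : 0 < a) (u v : Pth) (hs : 0 ≤ s) (hst : s ≤ t) (hT : t ≤ T) (w : ℂ) :
    bk a (cat T u v) s t w = bk a u s t w := by
  rw [bk, bk, Fm_cat_le ha (hs.trans hst) hT, Zt_cat_le ha hs (hst.trans hT)]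

theorem bk_cat (ha : 0 < a) (u v : Pth) (hs : 0 ≤ s) (ht : 0 ≤ t) {w : ℂ} (hw : 0 < w.im) :
    bk a (cat s u v) s (s + t) w = Fm a v.1 t w := by
  rw [bk, Fm_cat ha hs ht u v hw, Zt_cat_le ha hs le_rfl,
    Zt_Fm ha u.cont hs (Fm_alive ha v.cont ht hw).1]

theorem Fm_bk (ha : 0 < a) (u : Pth) (hs : 0 ≤ s) (hst : s ≤ t) {w : ℂ} (hw : 0 < w.im) :
    Fm a u.1 s (bk a u s t w) = Fm a u.1 t w :=
  Fm_Zt ha u.cont hs (LoeAM.alive_mono hst (Fm_alive ha u.cont (hs.trans hst) hw))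

theorem bk_im (ha : 0 < a) (u : Pth) (hs : 0 ≤ s) (hst : s ≤ t) {w : ℂ} (hw : 0 < w.im) :
    w.im ≤ (bk a u s t w).im := by
  have := im_anti ha u.cont hs hst (Fm_alive ha u.cont (hs.trans hst) hw)
  rwa [Zt_Fm ha u.cont (hs.trans hst) hw] at this

theorem bk_move (ha : 0 < a) (ha1 : a ≤ 1) (u : Pth) (hs : 0 ≤ s) (hst : s ≤ t) {w : ℂ}
    (hw : 0 < w.im) : ‖bk a u s t w - w‖ ≤ 8 * Lz u.1 s t := by
  have := size_le ha ha1 u.cont hs hst (Fm_alive ha u.cont (hs.trans hst) hw)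
  rwa [Zt_Fm ha u.cont (hs.trans hst) hw, norm_sub_rev] at this

theorem good_cat (ha : 0 < a) (u v : Pth) (hT : T' ≤ T) :
    Good a y0 η h T' (cat T u v) ↔ Good a y0 η h T' u := by
  have key : ∀ u u' : Pth, (∀ r, r ≤ T' → u.1 r = u'.1 r) → Good a y0 η h T' u →
      Good a y0 η h T' u' := fun u u' e H => by
    have e1 : ∀ t ∈ Icc 0 T', ∀ w, Fm a u'.1 t w = Fm a u.1 t w := fun t ht w =>
      (past_congr ha ht.1 (fun r hr => e r (hr.trans ht.2)) w).2.2.2.symm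
    refine ⟨H.y0_pos, H.y0_le, H.h_pos, fun t ht y hy y' hy' => ?_, fun s hs t ht hh => ?_,
      fun s t h1 h2 h3 h4 => ?_⟩
    · rw [e1 t ht, e1 t ht]; exact H.tail t ht y hy y' hy'
    · rw [gm, gm, e1 s hs, e1 t ht]; exact H.step s hs t ht hh
    · rw [← Lz_congr (U := u.1) h2 fun r hr => by rw [e r (hr.2.trans h3), e s (h2.trans h3)]]
      exact H.lstep s t h1 h2 h3 h4
  exact ⟨key _ _ fun r hr => cat_le u v (hr.trans hT),
    key _ _ fun r hr => (cat_le u v (hr.trans hT)).symm⟩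

end loc

/-! ## set-ups -/

/-- the data of a discretised game. -/
structure Ctx (a : ℝ) where
  μ : Measure Pth
  y0 : ℝ
  η : ℝ
  h : ℝ
  N : ℕ
  G : Set Pth
  isW : IsW μ
  y0_pos : 0 < y0
  y0_le : y0 ≤ η
  h_pos : 0 < h
  measG : MeasurableSet G
  good : ∀ u ∈ G, Good a y0 η h (N * h) u

namespace Ctx

variable {a : ℝ} (X : Ctx a)

/-- the sampled marker. -/
def x (u : Pth) (k : ℕ) : ℂ := gm a u (k * X.h) X.y0

/-- the set-up in the sense of `Bnd.lean`. -/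
def stp : Stp := ⟨X.μ, X.h, X.N, X.η, X.x, X.G⟩

/-- the value at index `k` of the event `P` in the region `R`. -/
def vl (R : Set ℂ) (P : Pth → Prop) (k : ℕ) (u : Pth) : ℝ≥0∞ :=
  val X.μ X.h X.N (X.stp.act R) (X.G.indicator fun w => ind (P w)) k u

theorem stp_vl (R : Set ℂ) (Q : ℕ → (ℕ → ℂ) → Prop) :
    X.stp.vl R (fun N x => ind (Q N x)) = X.vl R (fun w => Q X.N (X.x w)) 0 default := rfl

theorem tm_nonneg (k : ℕ) : (0 : ℝ) ≤ k * X.h := mul_nonneg (Nat.cast_nonneg k) X.h_pos.le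

theorem tm_le {j k : ℕ} (h : j ≤ k) : (j : ℝ) * X.h ≤ k * X.h :=
  mul_le_mul_of_nonneg_right (Nat.cast_le.2 h) X.h_pos.le

theorem x_past (ha : 0 < a) (u v : Pth) {j k : ℕ} (h : j ≤ k) :
    X.x (cat (k * X.h) u v) j = X.x u j := gm_cat_le ha u v (X.tm_nonneg j) (X.tm_le h) _

theorem x_zero (ha : 0 < a) (u : Pth) : X.x u 0 = X.y0 * I := by
  simp only [x, Nat.cast_zero, zero_mul]
  exact gm_zero ha u X.y0_pos

theorem x_step {u : Pth} (hu : u ∈ X.G) {k : ℕ} (hk : k < X.N) :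
    ‖X.x u (k + 1) - X.x u k‖ ≤ X.η :=
  (X.good u hu).step _ ⟨X.tm_nonneg _, X.tm_le hk⟩ _ ⟨X.tm_nonneg _, X.tm_le hk.le⟩ (by
    push_cast
    rw [show ((k : ℝ) + 1) * X.h - k * X.h = X.h by ring, abs_of_pos X.h_pos])

theorem ok (ha : 0 < a) : X.stp.Ok :=
  ⟨X.isW, X.h_pos, fun k => measurable_Fm ha _ (X.tm_nonneg k),
    fun _ u v => X.x_past ha u v le_rfl, X.measG, fun _ hu => ⟨by
      show ‖X.x _ 0‖ ≤ X.η
      rw [X.x_zero ha, SHM.norm_mulI X.y0_pos.le]; exact X.y0_le, fun _ hi => X.x_step hu hi⟩⟩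

theorem vl_le_one (R : Set ℂ) (P : Pth → Prop) (k : ℕ) (u : Pth) : X.vl R P k u ≤ 1 :=
  val_le_const X.isW X.h_pos.le fun _ => indicator_le' (fun _ _ => ind_le_one _)
    (fun _ _ => zero_le_one) _

theorem vl_eq_zero (R : Set ℂ) {P : Pth → Prop} {k : ℕ} {u : Pth}
    (h : ∀ v, cat (k * X.h) u v ∈ X.G → ¬ P (cat (k * X.h) u v)) : X.vl R P k u = 0 :=
  le_zero_iff.1 (val_le_const X.isW X.h_pos.le fun v => by
    by_cases hv : cat (k * X.h) u v ∈ X.G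
    · rw [indicator_of_mem hv, ind_neg (h v hv)]
    · rw [indicator_of_notMem hv])

end Ctx

/-- the class of set-ups used in the whole project. -/
def SS (a : ℝ) : Set Stp := range (Ctx.stp (a := a))

theorem SS_ok {a : ℝ} (ha : 0 < a) : ∀ p ∈ SS a, p.Ok := by
  rintro _ ⟨X, rfl⟩
  exact X.ok ha

theorem bnd_of {a : ℝ} {R : Set ℂ} {Y : Pay} {B : ℝ≥0∞} {η0 : ℝ} (h0 : 0 < η0)
    (h : ∀ X : Ctx a, X.η ≤ η0 → X.stp.vl R Y ≤ B) : Bnd (SS a) R Y B :=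
  ⟨η0, h0, by rintro _ ⟨X, rfl⟩ hη; exact h X hη⟩

/-- trial windows read from a sequence: after the previous window wait for `Gt q`, then for
`St q`; the window closes at the first exit from `Md q`. -/
def IsSeq (x : ℕ → ℂ) (Gt St Md : ℕ → Set ℂ) (Q : ℕ) (g s t : ℕ → ℕ) : Prop :=
  ∀ q < Q, IsLeast {j | (if q = 0 then 0 else t (q - 1)) ≤ j ∧ x j ∈ Gt q} (g q) ∧
    IsLeast {j | g q ≤ j ∧ x j ∈ St q} (s q) ∧ IsLeast {j | s q < j ∧ x j ∉ Md q} (t q)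

/-! ## phases (section 4 of the design) -/

/-- the parameters of the phases: pole `c`, clamp `ρ`, band `[lo, lo + 20 w]`. -/
structure Ph where
  a : ℝ
  y0 : ℝ
  h : ℝ
  N : ℕ
  c : ℂ
  ρ : ℝ
  lo : ℝ
  w : ℝ
  K2 : ℝ
  C6 : ℝ

namespace Ph

variable (p : Ph) (u : Pth)

/-- the profile at time `t`. -/
def f (t y : ℝ) : ℝ := pf p.a u p.c p.ρ t y

/-- the level of the marker at index `k`. -/
def d (k : ℕ) : ℝ := p.f u (k * p.h) p.y0

/-- the radius of the door of the phase started at `k`. -/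
def rho (k : ℕ) : ℝ := sInf {y | p.y0 ≤ y ∧ p.w ≤ |p.f u (k * p.h) y - p.d u k|} / p.K2

/-- the point `i y` at index `j` read in the picture at index `k`. -/
def v (k j : ℕ) (y : ℝ) : ℂ := bk p.a u (k * p.h) (j * p.h) (y * I)

def Door (k j : ℕ) : Prop := ∀ y, p.y0 ≤ y → p.rho u k ≤ ‖p.v u k j y‖

def Dev (k j : ℕ) : Prop :=
  ∃ y, p.y0 ≤ y ∧ ‖p.v u k j y‖ ≤ p.C6 * p.rho u k ∧
    p.w / 10 ≤ |p.f u (j * p.h) y - p.f u (k * p.h) ‖p.v u k j y‖|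

def Zone (n : ℝ) (k : ℕ) : Prop := p.lo + n * p.w ≤ p.d u k ∧ p.d u k ≤ p.lo + (20 - n) * p.w

/-- the phase started at `k` is still running at `j`. -/
def Runs (k j : ℕ) : Prop := ∀ i, k < i → i ≤ j → ¬ p.Door u k i ∧ ¬ p.Dev u k i

/-- the phase started at `k` ends at `j`. -/
def Ends (k j : ℕ) : Prop := k < j ∧ p.Runs u k (j - 1) ∧ (p.Door u k j ∨ p.Dev u k j)

/-- at least `b` bad phases follow when the phases are started at index `k`. -/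
inductive Chain : ℕ → ℕ → Prop
  | zero (k : ℕ) : Chain 0 k
  | wait {b k : ℕ} : ¬ p.Zone u 3 k → k < p.N → Chain b (k + 1) → Chain b k
  | pass {b k j : ℕ} : p.Zone u 3 k → p.Ends u k j → j ≤ p.N → Chain b j → Chain b k
  | bad {b k j : ℕ} : p.Zone u 5 k → p.Ends u k j → j ≤ p.N → p.Dev u k j → Chain b j →
      Chain (b + 1) k

end Ph

end Pool.Agent.MP_990230_pr.K8

end

end MrgPart0

-- ======== part 1: formerly Pool.Agent.MP_990230_pr.k8.Spec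
section MrgPart1

/-!
# PROJECT SLE8: module statements (do not edit; ask helper15)
Design: /team-store/SLE8_h15_design.md. Throughout `Rg a`, i.e. `1/4 < a < 1/2`.
-/

open Set MeasureTheory Filter Complex Metric
open scoped ENNReal NNReal Topology

noncomputable section

namespace Pool.Agent.MP_990230_pr.K8

universe u

/-! ## 1. remaining deterministic tools -/

/-- FLAT. -/
def FlatStmt (a : ℝ) : Prop := ∀ (u : Pth) (c : ℂ) (y0 η h T ρ s0 t y θ : ℝ),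
  Good a y0 η h T u → 2 * η ≤ ρ → 0 ≤ s0 → s0 ≤ t → t ≤ T → ¬ Alive a u.1 c s0 → 0 < θ → θ ≤ 1 →
  y0 ≤ y → Lz u.1 s0 t ≤ θ * y ∨ ∃ s ∈ Icc s0 t, Lz u.1 s t ≤ θ * y ∧
    ∀ y' ∈ Icc y0 y, |pf a u c ρ s y' - pf a u c ρ t y| ≤ 110 + 2 * Real.log (8 / θ)

/-- RAD: a large hull has passed the door. -/
def RadStmt (a : ℝ) : Prop := ∃ C : ℝ, 1 ≤ C ∧ ∀ (u : Pth) (y0 η h T ρ : ℝ) (k j : ℕ),
  Good a y0 η h T u → k ≤ j → j * h ≤ T → y0 ≤ ρ → C * ρ ≤ Lz u.1 (k * h) (j * h) →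
  ∃ i : ℕ, k < i ∧ i ≤ j ∧ ∀ y : ℝ, y0 ≤ y → ρ ≤ ‖bk a u (k * h) (i * h) (y * I)‖

/-- COV: the three covers, by countable families of discs `B(x i, r i)` with real centres. -/
structure CovS (γ C : ℝ) : Prop where
  dev : ∀ (G : ℂ → ℂ) (y0 R lo hi t : ℝ), Conf 2 G → 0 < y0 → C ≤ t →
    (∀ y ∈ Icc y0 R, lo + t + C ≤ ln G (y * I) ∧ ln G (y * I) ≤ hi - t - C) →
    ∃ (ι : Type) (_ : Countable ι) (x r : ι → ℝ), (∀ i, x i ≠ 0 ∧ 0 < r i) ∧
      (∀ w : ℂ, y0 ≤ w.im → ‖w‖ ≤ R → t ≤ |ln G w - ln G (‖w‖ * I)| → ∃ i, ‖w - x i‖ < r i) ∧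
      ∑' i, ENNReal.ofReal ((r i / |x i|) ^ γ) ≤ ENNReal.ofReal (C / t ^ 2) *
        ∫⁻ w in closedBall (0 : ℂ) (4 * R), dens G lo hi w ^ 2
  unf : ∀ (G : ℂ → ℂ) (Λ σ y0 L0 L : ℝ), Conf Λ G → 1 ≤ Λ → Λ ≤ 2 → Sg σ → 0 < y0 →
    L0 + C ≤ L → ∃ (ι : Type) (_ : Countable ι) (x r : ι → ℝ), (∀ i, x i ≠ 0 ∧ 0 < r i) ∧
      (∀ w : ℂ, y0 ≤ w.im → σ * ln G (‖w‖ * I) ≤ L0 → L ≤ σ * ln G w → ∃ i, ‖w - x i‖ < r i) ∧
      ∑' i, ENNReal.ofReal ((r i / |x i|) ^ γ) ≤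
        ENNReal.ofReal (C * Real.exp (-(γ * (L - L0) / Λ)))
  sur : ∀ (G : ℂ → ℂ) (σ y0 L0 L : ℝ), Conf 2 G → Sg σ → 0 < y0 → L0 + C ≤ L →
    ∃ (ι : Type) (_ : Countable ι) (x r lam : ι → ℝ),
      (∀ i, 0 < r i ∧ 20 * r i ≤ lam i ∧ lam i < x i) ∧
      (∀ (w : ℂ) (ξ l : ℝ), y0 ≤ w.im → σ * ln G (‖w‖ * I) ≤ L0 → L ≤ σ * ln G w →
        0 < ξ → w.im ≤ l → ξ + l / 2 ≤ w.re → σ * ln G (w.re + l * I) ≤ L0 →
        ∃ i, ‖w - x i‖ < r i ∧ ξ ≤ x i - lam i) ∧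
      ∑' i, ENNReal.ofReal ((r i / lam i) ^ γ) ≤
        ENNReal.ofReal (C * Real.exp (-(γ * (L - L0) / 2)))

def CovStmt : Prop := ∀ γ : ℝ, 0 < γ → γ ≤ 1 → ∃ C : ℝ, 1 ≤ C ∧ CovS γ C

/-! ## 2. estimates for a fresh Brownian path (outer measure); `bd` is in BD.lean -/

def USStmt (a : ℝ) : Prop := ∃ ms C : ℝ, 2 * del a < ms ∧ ms ≤ 1 ∧ 0 < C ∧ ∀ μ, IsW μ →
  ∀ x D lam : ℝ, 0 < D → 20 * D ≤ lam → lam < x →
    μ {v | ∃ t, 0 ≤ t ∧ RAl a v.1 (x - lam) t ∧ ∃ y, 0 < y ∧ ‖gm a v t y - x‖ < D} ≤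
      ENNReal.ofReal (C * (D / lam) ^ ms)

def SVStmt (a : ℝ) : Prop := ∀ p : ℝ, 0 < p → p < 1 - 2 * a → ∃ C : ℝ, 0 < C ∧ ∀ μ, IsW μ →
  ∀ x ρ : ℝ, 0 < x → 0 < ρ →
    μ {v | ∃ t, 0 ≤ t ∧ RAl a v.1 x t ∧ ρ ≤ Lz v.1 0 t} ≤ ENNReal.ofReal (C * (x / ρ) ^ p) ∧
    μ {v | ∃ t, 0 ≤ t ∧ RAl a v.1 x t ∧ RAl a v.1 (-x) t ∧ ρ ≤ Lz v.1 0 t} ≤
      ENNReal.ofReal (C * (x / ρ) ^ (2 * p))

def KilStmt (a : ℝ) : Prop := ∃ β C : ℝ, 0 < β ∧ 0 < C ∧ ∀ μ, IsW μ → ∀ (z : ℂ) (ρ : ℝ), 0 < ρ →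
  μ {v | ∃ t, 0 ≤ t ∧ Alive a v.1 z t ∧ ρ ≤ Lz v.1 0 t} ≤ ENNReal.ofReal (C * (‖z‖ / ρ) ^ β)

def OneStmt (a : ℝ) : Prop := ∃ C : ℝ, 0 < C ∧ ∀ μ, IsW μ → ∀ (z : ℂ) (lam : ℝ), 0 < lam →
  μ {v | ∃ t, 0 ≤ t ∧ Alive a v.1 z t ∧ ups a v.1 z t ≤ lam} ≤
    ENNReal.ofReal (C * (lam / z.im) ^ del a)

def APStmt (a : ℝ) : Prop := ∀ μ, IsW μ → ∀ η ε T : ℝ, 0 < η → 0 < ε →
  ∃ y0 : ℝ, 0 < y0 ∧ y0 ≤ η ∧ ∃ h0 : ℝ, 0 < h0 ∧ ∀ h : ℝ, 0 < h → h ≤ h0 →
    ∃ G : Set Pth, MeasurableSet G ∧ μ Gᶜ ≤ ENNReal.ofReal ε ∧ ∀ u ∈ G, Good a y0 η h T u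

/-- KILL: most of the mass close to the tip dies. -/
def KillStmt (a : ℝ) : Prop := ∀ θ : ℝ, 0 < θ → ∃ K : ℝ, 1 ≤ K ∧ ∀ μ, IsW μ →
  ∀ (ν : Measure ℂ) [IsFiniteMeasure ν] (ζ : ℂ → ℂ) (ρ : ℝ), Measurable ζ → 0 < ρ →
    ∃ g : Pth → ℝ≥0∞, Measurable g ∧ ∫⁻ v, g v ∂μ ≤ ENNReal.ofReal θ * ν univ ∧
      ∀ (v : Pth) t, 0 ≤ t → ρ ≤ Lz v.1 0 t →
        ν {z | ‖ζ z‖ ≤ ρ / K ∧ Alive a v.1 (ζ z) t} ≤ g v

/-- DEVT: leaving the profile of the geodesic costs area. -/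
def DevStmt (a : ℝ) : Prop := ∃ C : ℝ, 1 ≤ C ∧ ∀ μ, IsW μ →
  ∀ (G : ℂ → ℂ) (y0 R lo hi t : ℝ), Conf 2 G → 0 < y0 → C ≤ t →
    (∀ y ∈ Icc y0 R, lo + t + C ≤ ln G (y * I) ∧ ln G (y * I) ≤ hi - t - C) →
    μ {v | ∃ τ, 0 ≤ τ ∧ ∃ y, y0 ≤ y ∧ ‖gm a v τ y‖ ≤ R ∧
        t ≤ |ln G (gm a v τ y) - ln G (‖gm a v τ y‖ * I)|} ≤
      ENNReal.ofReal (C / t ^ 2) * ∫⁻ w in closedBall (0 : ℂ) (4 * R), dens G lo hi w ^ 2

/-- PICP: the cost of unforced, unforced with a survivor, and forced with survivors, in a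
picture `G`; `ε` is the side. -/
structure PicPS (a ms p K C : ℝ) : Prop where
  unf : ∀ μ, IsW μ → ∀ (G : ℂ → ℂ) (Λ σ y0 L0 L : ℝ), Conf Λ G → 1 ≤ Λ → Λ ≤ 2 → Sg σ → 0 < y0 →
    μ {v | ∃ τ, 0 ≤ τ ∧ σ * ln G (‖gm a v τ y0‖ * I) ≤ L0 ∧ L ≤ σ * ln G (gm a v τ y0)} ≤
      ENNReal.ofReal (C * Real.exp (-(alp a * (L - L0) / Λ)))
  sur : ∀ μ, IsW μ → ∀ (G : ℂ → ℂ) (σ ε y0 L0 L : ℝ), Conf 2 G → Sg σ → Sg ε → 0 < y0 →
    μ {v | ∃ τ, 0 ≤ τ ∧ σ * ln G (‖gm a v τ y0‖ * I) ≤ L0 ∧ L ≤ σ * ln G (gm a v τ y0) ∧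
        ∃ ξ l : ℝ, 0 < ξ ∧ RAl a v.1 (ε * ξ) τ ∧ (gm a v τ y0).im ≤ l ∧
          ξ + l / 2 ≤ ε * (gm a v τ y0).re ∧ σ * ln G ((gm a v τ y0).re + l * I) ≤ L0} ≤
      ENNReal.ofReal (C * Real.exp (-(ms * (L - L0) / 2)))
  frc : ∀ μ, IsW μ → ∀ (G : ℂ → ℂ) (σ ε y0 L0 L : ℝ), Conf 2 G → Sg σ → Sg ε → 0 < y0 →
    μ {v | ∃ τ, 0 ≤ τ ∧ σ * ln G (y0 * I) ≤ L0 ∧
        (∃ y ∈ Icc y0 (K * (y0 + Lz v.1 0 τ)), L ≤ σ * ln G (y * I)) ∧
        ∃ ξ : ℝ, 0 < ξ ∧ RAl a v.1 (ε * ξ) τ ∧ ∀ y ∈ Icc y0 ξ, σ * ln G (y * I) ≤ L0} ≤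
      ENNReal.ofReal (C * Real.exp (-(p * (L - L0) / 2)))
  frc2 : ∀ μ, IsW μ → ∀ (G : ℂ → ℂ) (σ y0 L0 L : ℝ), Conf 2 G → Sg σ → 0 < y0 →
    μ {v | ∃ τ, 0 ≤ τ ∧ σ * ln G (y0 * I) ≤ L0 ∧
        (∃ y ∈ Icc y0 (K * (y0 + Lz v.1 0 τ)), L ≤ σ * ln G (y * I)) ∧
        ∃ ξ ξ' : ℝ, 0 < ξ ∧ 0 < ξ' ∧ RAl a v.1 ξ τ ∧ RAl a v.1 (-ξ') τ ∧
          (∀ y ∈ Icc y0 ξ, σ * ln G (y * I) ≤ L0) ∧ ∀ y ∈ Icc y0 ξ', σ * ln G (y * I) ≤ L0} ≤
      ENNReal.ofReal (C * Real.exp (-(p * (L - L0))))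

def PicPStmt (a : ℝ) : Prop := ∃ ms p : ℝ, 2 * del a < ms ∧ 0 < p ∧ 2 * del a < alp a + p ∧
  ∀ K : ℝ, 1 ≤ K → ∃ C : ℝ, 1 ≤ C ∧ PicPS a ms p K C

/-- ONET: the one-point estimate as a trial. -/
def OneTStmt (a : ℝ) : Prop := ∃ C : ℝ, 1 ≤ C ∧ ∀ μ, IsW μ →
  ∀ y0 η h (u : Pth) (c : ℂ) (s ρ r : ℝ), 0 ≤ s → 0 < r → η ≤ r → 10 * η ≤ ρ → ρ ≤ c.im →
    μ {v | ∃ t, s ≤ t ∧ Good a y0 η h t (cat s u v) ∧ (∀ q ∈ Icc 0 s, ρ ≤ ‖gm a u q y0 - c‖) ∧
      ‖gm a (cat s u v) t y0 - c‖ ≤ r} ≤ ENNReal.ofReal (C * (r / ρ) ^ del a)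

/-! ## 3. games -/

/-- SEQ: sequential trials with finitely many patterns. -/
def SeqStmt : Prop := ∀ (p : Stp) (R : Set ℂ) (Y : Pay) (Gt St Md : ℕ → Set ℂ) (Q : ℕ) (ι : Type)
  (Pi : Finset ι) (Ev : ι → ℕ → Pth → ℕ → ℕ → Prop) (pr : ι → ℕ → ℝ≥0∞), p.Ok →
  MeasurableSet R → (∀ q < Q, St q ⊆ R ∧ Md q ⊆ R) → (∀ N x, Y N x ≤ 1) →
  (∀ pt q (u v : Pth) (s t : ℕ), s ≤ t → Ev pt q (cat (t * p.h) u v) s t → Ev pt q u s t) →
  (∀ pt ∈ Pi, ∀ q < Q, ∀ (u : Pth) (s : ℕ),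
    p.μ {v | ∃ t : ℕ, s < t ∧ Ev pt q (cat (s * p.h) u v) s t} ≤ pr pt q) →
  (∀ u ∈ p.G, Y p.N (p.x u) ≠ 0 → ∃ g s t : ℕ → ℕ, IsSeq (p.x u) Gt St Md Q g s t ∧
    (∀ q < Q, t q ≤ p.N) ∧ ∃ pt ∈ Pi, ∀ q < Q, Ev pt q u (s q) (t q)) →
  p.vl R Y ≤ ∑ pt ∈ Pi, ∏ q ∈ Finset.range Q, pr pt q

/-! ## 4. crossings of one large annulus -/

/-- the facts about phases, for the constants `K2 C6 w0 θ` (and the constant `K` of KILL). -/
structure PhF (a K K2 C6 w0 θ : ℝ) : Prop where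
  pos : 1 ≤ C6 ∧ C6 ≤ K2 ∧ 1000 ≤ w0 ∧ 0 < θ ∧ θ ≤ 1 / 100
  facts : ∀ (p : Ph) (u : Pth) (η : ℝ) (k : ℕ), p.a = a → p.K2 = K2 → p.C6 = C6 → w0 ≤ p.w →
    Good a p.y0 η p.h (p.N * p.h) u → 2 * η ≤ p.ρ → Real.log p.ρ ≤ p.lo →
    ¬ Alive a u.1 p.c (k * p.h) → k ≤ p.N →
    -- size of the door and the profile below it
    (2 * p.y0 ≤ p.rho u k ∧
      ∀ y ∈ Icc p.y0 (p.C6 * p.rho u k), |p.f u (k * p.h) y - p.d u k| ≤ p.w) ∧
    -- the marker stays in the window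
    (∀ j, k ≤ j → j ≤ p.N → p.Runs u k j → |p.d u j - p.d u k| ≤ 11 / 10 * p.w) ∧
    -- the hull is large at the door
    (∀ j, k < j → j ≤ p.N → p.Door u k j → p.rho u k / 16 ≤ Lz u.1 (k * p.h) (j * p.h)) ∧
    -- after a good risky phase the exposed set lies in the next killing zone
    (∀ j, j ≤ p.N → p.Zone u 5 k → p.Ends u k j → ¬ p.Dev u k j → p.Zone u 3 j ∧
      ∀ z, Alive a u.1 z (j * p.h) → ‖Zt a u.1 z (k * p.h)‖ ≤ 4 * (p.C6 * p.rho u k) →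
        ‖Zt a u.1 z (j * p.h)‖ ≤ p.rho u j / 16 / K) ∧
    -- an unforced excursion contains a bad phase
    (∀ (s Y d : ℝ) (j' b : ℕ), k * p.h ≤ s → j' ≤ p.N → p.lo + 8 * p.w ≤ d →
      d ≤ p.lo + 12 * p.w → p.y0 ≤ Y →
      (∀ y ∈ Icc p.y0 Y, |p.f u s y - d| ≤ p.w / 100) →
      IsLeast {j : ℕ | s < j * p.h ∧ 3 * p.w ≤ |p.d u j - d|} j' →
      Lz u.1 s (j' * p.h) ≤ θ * Y →
      (∀ j : ℕ, s < j * p.h → j ≤ j' → p.Chain u b j) → p.Chain u (b + 1) k)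

/-- PHD. -/
def PhDStmt (a : ℝ) : Prop := ∀ K : ℝ, 1 ≤ K → ∃ K2 C6 w0 θ, PhF a K K2 C6 w0 θ

/-- PHG: the area pays for the bad phases. -/
def PhGStmt (a : ℝ) : Prop := ∃ K : ℝ, 1 ≤ K ∧ ∀ K2 C6 w0 θ, PhF a K K2 C6 w0 θ →
  ∃ w1 : ℝ, ∀ (X : Ctx a) (p : Ph) (R : Set ℂ) (P : Pth → Prop), p.a = a → p.y0 = X.y0 →
    p.h = X.h → p.N = X.N → p.K2 = K2 → p.C6 = C6 → w1 ≤ p.w → 2 * X.η ≤ p.ρ →
    Real.log p.ρ ≤ p.lo → MeasurableSet R →
    (∀ z, p.lo + p.w ≤ lev p.c p.ρ z → lev p.c p.ρ z ≤ p.lo + 19 * p.w → z ∈ R) →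
    ∀ (k b : ℕ) (u : Pth), k ≤ X.N → ¬ Alive a u.1 p.c (k * X.h) →
      (∀ v, cat (k * X.h) u v ∈ X.G → P (cat (k * X.h) u v) →
        p.Chain (cat (k * X.h) u v) b k) →
      X.vl R P k u ≤ ENNReal.ofReal (2 * Real.exp (-(b : ℝ)))

/-- CRC: many crossings force many bad phases. -/
def CrcStmt (a : ℝ) : Prop := ∀ K K2 C6 w0 θ, PhF a K K2 C6 w0 θ →
  ∃ w2 : ℝ, ∀ (p : Ph) (u : Pth) (η r R : ℝ) (c0 : ℂ) (k0 m b : ℕ), p.a = a → p.K2 = K2 →
    p.C6 = C6 → w2 ≤ p.w → Good a p.y0 η p.h (p.N * p.h) u → 0 < r → η ≤ r →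
    2 * η ≤ p.ρ → Real.log p.ρ ≤ p.lo → Real.log (3 * r) ≤ p.lo →
    Real.exp (p.lo + 20 * p.w) + 2 * r ≤ R → ‖p.c - c0‖ ≤ 2 * r → k0 ≤ p.N →
    ¬ Alive a u.1 p.c (k0 * p.h) →
    (k0 = 0 ∨ ∀ z ∈ closedBall c0 (2 * r), Alive a u.1 z ((k0 - 1 : ℕ) * p.h)) →
    Cr (fun k => gm a u (k * p.h) p.y0) p.N m c0 r R → 2 * b + 1 ≤ m → p.Chain u b k0

/-! ## 5, 6. top layer: `CR0 (SS a)`, `CleanSt (SS a) (del a)`, `M1St (SS a) (del a)`,
`GlobSt (SS a) (del a)` are in Top.lean, `SHM.ShInt` in SH2.lean -/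

/-- the theorem for `4 < κ < 8`. -/
def Main8Stmt : Prop := ∀ κ : ℝ, 4 < κ → κ < 8 → MainStmt.{u} κ

end Pool.Agent.MP_990230_pr.K8

end

end MrgPart1

-- marker of a merged file
example : 731051 + 697260 = 731051 + 697260 := rfl

end MrgPart1

-- ======== part 2: formerly Pool.Agent.MP_990230_pr.k8.PhG
section MrgPart2

-- ======== part 0: formerly Pool.Agent.MP_990230_pr.k8.PhGA
section MrgPart0

/-! # SLE8, phases: locality, chains and the logarithmic area (helper48) -/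

open Set MeasureTheory Filter Complex
open scoped ENNReal Topology Real

noncomputable section

namespace Pool.Agent.MP_990230_pr.K8

namespace Ph

variable {p : Ph} {u : Pth} {k j n : ℕ}

theorem tm (hh : 0 < p.h) (h : j ≤ k) : (0 : ℝ) ≤ j * p.h ∧ (j : ℝ) * p.h ≤ k * p.h :=
  ⟨by positivity, mul_le_mul_of_nonneg_right (Nat.cast_le.2 h) hh.le⟩

section past

variable (ha : 0 < p.a) (hh : 0 < p.h) (v : Pth)
include ha hh

theorem f_past (h : k ≤ n) (y : ℝ) : p.f (cat (n * p.h) u v) (k * p.h) y = p.f u (k * p.h) y := by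
  unfold f pf
  rw [gm_cat_le ha u v (tm hh h).1 (tm hh h).2]

theorem d_past (h : k ≤ n) : p.d (cat (n * p.h) u v) k = p.d u k := f_past ha hh v h _

theorem rho_past (h : k ≤ n) : p.rho (cat (n * p.h) u v) k = p.rho u k := by
  unfold rho
  simp only [f_past ha hh v h, d_past ha hh v h]

theorem v_past (h1 : k ≤ j) (h2 : j ≤ n) (y : ℝ) :
    p.v (cat (n * p.h) u v) k j y = p.v u k j y :=
  bk_cat_le ha u v (tm hh h1).1 (tm hh h1).2 (tm hh h2).2 _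

theorem door_past (h1 : k ≤ j) (h2 : j ≤ n) : p.Door (cat (n * p.h) u v) k j ↔ p.Door u k j := by
  unfold Door
  simp only [rho_past ha hh v (h1.trans h2), v_past ha hh v h1 h2]

theorem dev_past (h1 : k ≤ j) (h2 : j ≤ n) : p.Dev (cat (n * p.h) u v) k j ↔ p.Dev u k j := by
  unfold Dev
  simp only [rho_past ha hh v (h1.trans h2), v_past ha hh v h1 h2, f_past ha hh v h2,
    f_past ha hh v (h1.trans h2)]

theorem zone_past (h : k ≤ n) (x : ℝ) : p.Zone (cat (n * p.h) u v) x k ↔ p.Zone u x k := by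
  unfold Zone
  rw [d_past ha hh v h]

theorem runs_past (h : j ≤ n) : p.Runs (cat (n * p.h) u v) k j ↔ p.Runs u k j :=
  forall_congr' fun i => forall_congr' fun h1 => forall_congr' fun h2 => by
    rw [door_past ha hh v h1.le (h2.trans h), dev_past ha hh v h1.le (h2.trans h)]

theorem ends_past (h : j ≤ n) : p.Ends (cat (n * p.h) u v) k j ↔ p.Ends u k j :=
  and_congr_right fun h1 => by
    rw [runs_past ha hh v ((Nat.sub_le j 1).trans h), door_past ha hh v h1.le h,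
      dev_past ha hh v h1.le h]

end past

theorem Ends.unique {j' : ℕ} (h : p.Ends u k j) (h' : p.Ends u k j') : j = j' := by
  rcases lt_trichotomy j j' with e | e | e
  · have := h'.2.1 j h.1 (by omega)
    exact h.2.2.elim (fun x => absurd x this.1) fun x => absurd x this.2
  · exact e
  · have := h.2.1 j' h'.1 (by omega)
    exact h'.2.2.elim (fun x => absurd x this.1) fun x => absurd x this.2

theorem Zone.three (hw : 0 ≤ p.w) (h : p.Zone u 5 k) : p.Zone u 3 k :=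
  ⟨by linarith [h.1], by linarith [h.2]⟩

theorem Chain.pred (hw : 0 ≤ p.w) {b : ℕ} (h : p.Chain u b k) : p.Chain u (b - 1) k := by
  induction h with
  | zero k => exact Chain.zero k
  | wait h1 h2 _ ih => exact Chain.wait h1 h2 ih
  | pass h1 h2 h3 _ ih => exact Chain.pass h1 h2 h3 ih
  | bad h1 h2 h3 _ h5 _ => exact Chain.pass (h1.three hw) h2 h3 h5

theorem Chain.inv (hw : 0 ≤ p.w) {b : ℕ} (h : p.Chain u (b + 1) k) :
    (¬ p.Zone u 3 k ∧ k < p.N ∧ p.Chain u (b + 1) (k + 1)) ∨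
      (p.Zone u 3 k ∧ ∃ j, p.Ends u k j ∧ j ≤ p.N ∧ p.Chain u b j ∧
        (¬ (p.Zone u 5 k ∧ p.Dev u k j) → p.Chain u (b + 1) j)) := by
  cases h with
  | wait h1 h2 h3 => exact Or.inl ⟨h1, h2, h3⟩
  | pass h1 h2 h3 h4 => exact Or.inr ⟨h1, _, h2, h3, h4.pred hw, fun _ => h4⟩
  | bad h1 h2 h3 h4 h5 => exact Or.inr ⟨h1.three hw, _, h2, h3, h5, fun hn => absurd ⟨h1, h4⟩ hn⟩

/-- the logarithmic area on the band, in coordinates centred at the pole. -/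
def nu (p : Ph) : Measure ℂ := (volume.withDensity fun z : ℂ => ‖z⁻¹‖ₑ ^ 2).restrict
  {z : ℂ | Real.exp p.lo ≤ ‖z‖ ∧ ‖z‖ ≤ Real.exp (p.lo + 20 * p.w)}

/-- living points. -/
def AL (p : Ph) (u : Pth) (k : ℕ) : Set ℂ := {z | Alive p.a u.1 (z + p.c) (k * p.h)}

/-- points whose image is within `r` of the origin. -/
def NR (p : Ph) (u : Pth) (k : ℕ) (r : ℝ) : Set ℂ := {z | ‖Zt p.a u.1 (z + p.c) (k * p.h)‖ ≤ r}

theorem measurableSet_band (d1 d2 : ℝ) :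
    MeasurableSet {z : ℂ | Real.exp d1 ≤ ‖z‖ ∧ ‖z‖ ≤ Real.exp d2} :=
  (measurableSet_le measurable_const measurable_norm).inter
    (measurableSet_le measurable_norm measurable_const)

theorem nu_univ (p : Ph) : p.nu univ ≤ ENNReal.ofReal (40 * π * p.w) := by
  rw [nu, Measure.restrict_apply_univ, withDensity_apply _ (measurableSet_band _ _)]
  exact (logarea _ _).trans (le_of_eq (by congr 1; ring))

instance (p : Ph) : IsFiniteMeasure p.nu := ⟨p.nu_univ.trans_lt ENNReal.ofReal_lt_top⟩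

theorem meas_Z (ha : 0 < p.a) (hh : 0 < p.h) (u : Pth) (k : ℕ) :
    Measurable fun z : ℂ => Zt p.a u.1 (z + p.c) (k * p.h) :=
  (measurable_Zt2 ha (tm hh (le_refl k)).1).comp
    (measurable_const.prodMk (measurable_id.add_const _))

theorem meas_NR (ha : 0 < p.a) (hh : 0 < p.h) (u : Pth) (k : ℕ) (r : ℝ) :
    MeasurableSet (p.NR u k r) := measurableSet_le (meas_Z ha hh u k).norm measurable_const

theorem meas_AL (ha : 0 < p.a) (hh : 0 < p.h) (u : Pth) (k : ℕ) : MeasurableSet (p.AL u k) :=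
  ((isOpen_alive ha u.cont (tm hh (le_refl k)).1).preimage
    (continuous_id.add continuous_const)).measurableSet

theorem AL_past (ha : 0 < p.a) (hh : 0 < p.h) (v : Pth) (h : k ≤ n) :
    p.AL (cat (n * p.h) u v) k = p.AL u k :=
  Set.ext fun _ => alive_cat_le ha (tm hh h).1 (tm hh h).2 u v _

theorem NR_past (ha : 0 < p.a) (hh : 0 < p.h) (v : Pth) (h : k ≤ n) (r : ℝ) :
    p.NR (cat (n * p.h) u v) k r = p.NR u k r :=
  Set.ext fun z => by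
    show _ ≤ r ↔ _ ≤ r
    rw [Zt_cat_le ha (tm hh h).1 (tm hh h).2]

theorem AL_anti (hh : 0 < p.h) (h : k ≤ j) : p.AL u j ⊆ p.AL u k :=
  fun _ hz => LoeAM.alive_mono (tm hh h).2 hz

/-- the energy of the picture at index `k` is the area of the exposed set. -/
theorem energy_le (ha : 0 < p.a) (hh : 0 < p.h) (u : Pth) (k : ℕ) (r : ℝ) :
    ∫⁻ w in Metric.closedBall (0 : ℂ) r,
        dens (fun w => Fm p.a u.1 (k * p.h) w - p.c) p.lo (p.lo + 20 * p.w) w ^ 2 ≤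
      p.nu (p.AL u k ∩ p.NR u k r) := by
  have t0 := (tm hh (le_refl k)).1
  have m := (meas_AL ha hh u k).inter (meas_NR ha hh u k r)
  rw [(univ_Fm ha u.cont t0 p.c).energy_eq _ _ Metric.isClosed_closedBall.measurableSet, nu,
    Measure.restrict_apply m, withDensity_apply _ (m.inter (measurableSet_band _ _))]
  refine lintegral_mono_set ?_
  rintro _ ⟨w, ⟨h1, h2⟩, rfl⟩
  refine ⟨⟨?_, ?_⟩, h1.2⟩
  · show Alive _ _ (Fm p.a u.1 (k * p.h) w - p.c + p.c) _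
    rw [sub_add_cancel]; exact Fm_alive ha u.cont t0 h1.1
  · show ‖Zt _ _ (Fm p.a u.1 (k * p.h) w - p.c + p.c) _‖ ≤ r
    rw [sub_add_cancel, Zt_Fm ha u.cont t0 h1.1]; exact mem_closedBall_zero_iff.1 h2

/-- the deviation event in the picture at the start of the phase. -/
theorem dev_event (ha : 0 < p.a) (hh : 0 < p.h) (hy : 0 < p.y0) (hρ : 0 < p.ρ)
    (hc : ¬ Alive p.a u.1 p.c (k * p.h)) {v : Pth} (h : k ≤ j)
    (H : p.Dev (cat (k * p.h) u v) k j) : ∃ τ, 0 ≤ τ ∧ ∃ y, p.y0 ≤ y ∧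
      ‖gm p.a v τ y‖ ≤ p.C6 * p.rho u k ∧
      p.w / 10 ≤ |ln (fun w => Fm p.a u.1 (k * p.h) w - p.c) (gm p.a v τ y) -
        ln (fun w => Fm p.a u.1 (k * p.h) w - p.c) (‖gm p.a v τ y‖ * I)| := by
  obtain ⟨y, y1, y2, y3⟩ := H
  obtain ⟨t0, t1⟩ := tm hh h
  have y0 : 0 < y := hy.trans_le y1
  have τ0 : (0 : ℝ) ≤ j * p.h - k * p.h := by linarith
  have e : (j : ℝ) * p.h = k * p.h + (j * p.h - k * p.h) := by ring
  have e1 : p.v (cat (k * p.h) u v) k j y = gm p.a v (j * p.h - k * p.h) y := by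
    unfold Ph.v
    rw [e, bk_cat ha u v t0 τ0 (by simpa using y0), ← e]
    rfl
  have e2 : p.f (cat (k * p.h) u v) (j * p.h) y =
      lev p.c p.ρ (Fm p.a u.1 (k * p.h) (gm p.a v (j * p.h - k * p.h) y)) := by
    unfold f pf
    conv_lhs => rw [e, gm_cat ha u v t0 τ0 y0]
  rw [e1, rho_past ha hh v le_rfl] at y2
  rw [e1, e2, f_past ha hh v le_rfl] at y3
  have i1 := (gm_alive ha v τ0 y0).1
  have i2 : 0 < ((‖gm p.a v (j * p.h - k * p.h) y‖ : ℂ) * I).im := by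
    simpa using fun e0 => by rw [e0] at i1; simp at i1
  have ne : ∀ w : ℂ, 0 < w.im → Fm p.a u.1 (k * p.h) w - p.c ≠ 0 := fun w hw e0 =>
    hc (sub_eq_zero.1 e0 ▸ Fm_alive ha u.cont t0 hw)
  exact ⟨_, τ0, y, y1, y2, y3.trans (lev_sub_le hρ (ne _ i1) (ne _ i2))⟩

/-- the survivors of the killing zone, in the picture at the start of the phase. -/
theorem kill_event (ha : 0 < p.a) (hh : 0 < p.h) {v : Pth} (h : k ≤ j) (r : ℝ) :
    p.nu (p.AL (cat (k * p.h) u v) j ∩ p.NR u k r) ≤ (p.nu.restrict (p.AL u k ∩ p.NR u k r))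
      {z | ‖Zt p.a u.1 (z + p.c) (k * p.h)‖ ≤ r ∧
        Alive p.a v.1 (Zt p.a u.1 (z + p.c) (k * p.h)) (j * p.h - k * p.h)} := by
  refine le_trans (measure_mono fun z hz => ?_) (Measure.le_restrict_apply _ _)
  obtain ⟨t0, t1⟩ := tm hh h
  have a1 : z ∈ p.AL u k := AL_past ha hh v (le_refl k) ▸ AL_anti hh h hz.1
  refine ⟨⟨hz.2, (alive_cat ha t0 (by linarith) u v a1).1 ?_⟩, a1, hz.2⟩
  rw [add_sub_cancel]
  exact hz.1

theorem lev_eq_ln {c z : ℂ} {ρ : ℝ} (h : Real.log ρ < lev c ρ z) :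
    lev c ρ z = Real.log ‖z - c‖ := by
  unfold lev at h ⊢
  rcases le_total ‖z - c‖ ρ with e | e
  · rw [max_eq_right e] at h; exact absurd h (lt_irrefl _)
  · rw [max_eq_left e]

end Ph

end Pool.Agent.MP_990230_pr.K8

end
end MrgPart0

-- ======== part 1: formerly Pool.Agent.MP_990230_pr.k8.PhG
section MrgPart1

/-! # SLE8, phases: the area pays for the bad phases (helper48) -/

open Set MeasureTheory Filter Complex
open scoped ENNReal Topology Real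

noncomputable section

namespace Pool.Agent.MP_990230_pr.K8

theorem int_three {μ : Measure Pth} [IsProbabilityMeasure μ] {g : Pth → ℝ≥0∞} (hg : Measurable g)
    {D : Set Pth} (hD : MeasurableSet D) {A0 A1 A2 γ δ : ℝ} (h0 : 0 ≤ A0) (h1 : 0 ≤ A1)
    (h2 : 0 ≤ A2) (h3 : 0 ≤ γ) (h4 : 0 ≤ δ) (i1 : ∫⁻ v, g v ∂μ ≤ ENNReal.ofReal γ)
    (i2 : μ D ≤ ENNReal.ofReal δ) :
    ∫⁻ v, (ENNReal.ofReal A0 + ENNReal.ofReal A1 * g v +
      D.indicator (fun _ => ENNReal.ofReal A2) v) ∂μ ≤ ENNReal.ofReal (A0 + A1 * γ + A2 * δ) := by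
  rw [lintegral_add_right _ (measurable_const.indicator hD), lintegral_add_left measurable_const,
    lintegral_const_mul _ hg, lintegral_indicator_const hD, lintegral_const, measure_univ, mul_one,
    ENNReal.ofReal_add (by positivity) (by positivity), ENNReal.ofReal_add h0 (by positivity),
    ENNReal.ofReal_mul h1, ENNReal.ofReal_mul h2]
  gcongr

namespace Ph

open Classical in
/-- the area term of the potential. -/
def T (p : Ph) (K : ℝ) (u : Pth) (k : ℕ) : ℝ :=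
  if p.Zone u 3 k then p.nu.real (p.AL u k) + p.nu.real (p.AL u k \ p.NR u k (p.rho u k / 16 / K))
  else 2 * p.nu.real (p.AL u k)

variable {p : Ph} {K : ℝ}

theorem T_le (u : Pth) (k : ℕ) : p.T K u k ≤ 2 * p.nu.real (p.AL u k) := by
  unfold T
  split_ifs
  · have : p.nu.real (p.AL u k \ p.NR u k (p.rho u k / 16 / K)) ≤ p.nu.real (p.AL u k) :=
      measureReal_mono sdiff_subset
    linarith
  · exact le_rfl

theorem real_le (hw : 0 ≤ p.w) (S : Set ℂ) : p.nu.real S ≤ 40 * π * p.w :=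
  ENNReal.toReal_le_of_le_ofReal (by positivity) ((measure_mono (subset_univ S)).trans p.nu_univ)

theorem core {μ : Measure Pth} (hμ : IsW μ) (ha : 0 < p.a) (hh : 0 < p.h) (hy : 0 < p.y0)
    (hρ : 0 < p.ρ) {A : ℕ → Set Pth} (hA : Adp p.h A) {X : Pth → ℝ≥0∞} (X1 : ∀ w, X w ≤ 1)
    {η Cd w0 θ : ℝ} (hG : ∀ w, X w ≠ 0 → Good p.a p.y0 η p.h (p.N * p.h) w)
    (hact : ∀ w k, p.lo + p.w ≤ p.d w k → p.d w k ≤ p.lo + 19 * p.w → w ∈ A k)
    (hK : 1 ≤ K) (F : PhF p.a K p.K2 p.C6 w0 θ) (h1 : w0 ≤ p.w) (h2 : 2 * η ≤ p.ρ)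
    (h3 : Real.log p.ρ ≤ p.lo) (hC : 1 ≤ Cd) (h4 : 250000 * Cd ≤ p.w)
    (hKill : ∀ (ν : Measure ℂ) [IsFiniteMeasure ν] (ζ : ℂ → ℂ) (ρ : ℝ), Measurable ζ → 0 < ρ →
      ∃ g : Pth → ℝ≥0∞, Measurable g ∧ ∫⁻ v, g v ∂μ ≤ ENNReal.ofReal (1 / 4) * ν univ ∧
        ∀ (v : Pth) t, 0 ≤ t → ρ ≤ Lz v.1 0 t →
          ν {z | ‖ζ z‖ ≤ ρ / K ∧ Alive p.a v.1 (ζ z) t} ≤ g v)
    (hDev : ∀ (G : ℂ → ℂ) (y0 R lo hi t : ℝ), Conf 2 G → 0 < y0 → Cd ≤ t →
      (∀ y ∈ Icc y0 R, lo + t + Cd ≤ ln G (y * I) ∧ ln G (y * I) ≤ hi - t - Cd) →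
      μ {v | ∃ τ, 0 ≤ τ ∧ ∃ y, y0 ≤ y ∧ ‖gm p.a v τ y‖ ≤ R ∧
          t ≤ |ln G (gm p.a v τ y) - ln G (‖gm p.a v τ y‖ * I)|} ≤
        ENNReal.ofReal (Cd / t ^ 2) * ∫⁻ w in Metric.closedBall (0 : ℂ) (4 * R), dens G lo hi w ^ 2) :
    ∀ d k, k + d = p.N → ∀ (b : ℕ) (u : Pth), ¬ Alive p.a u.1 p.c (k * p.h) →
      (∀ v, X (cat (k * p.h) u v) ≠ 0 → p.Chain (cat (k * p.h) u v) (b + 1) k) →
      val μ p.h p.N A X k u ≤
        ENNReal.ofReal (Real.exp (-((b + 1 : ℕ) : ℝ)) * (1 + p.T K u k / (80 * π * p.w))) := by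
  have := hμ.prob
  have hw : 0 < p.w := by linarith
  have hS : 0 < 80 * π * p.w := by positivity
  have FF := fun u k g => F.facts p u η k rfl rfl rfl h1 g h2 h3
  have zero : ∀ (k : ℕ) u (B : ℝ≥0∞), (¬ ∃ v, X (cat (k * p.h) u v) ≠ 0) →
      val μ p.h p.N A X k u ≤ B := fun k u B hv =>
    val_le_const hμ hh.le fun v => by
      rw [not_not.1 fun hc => hv ⟨v, hc⟩]; exact zero_le
  have dead : ∀ (k j n : ℕ) (u v : Pth), k ≤ j → k ≤ n → ¬ Alive p.a u.1 p.c (k * p.h) →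
      ¬ Alive p.a (cat (n * p.h) u v).1 p.c (j * p.h) := fun k j n u v hj hn hc hx =>
    hc ((alive_cat_le ha (tm hh hn).1 (tm hh hn).2 u v _).1 (LoeAM.alive_mono (tm hh hj).2 hx))
  intro d
  induction d using Nat.strong_induction_on with
  | _ d ih =>
  intro k hk b u hc hch
  have IH : ∀ j, k < j → j ≤ p.N → ∀ (b : ℕ) (y : Pth), ¬ Alive p.a y.1 p.c (j * p.h) →
      (∀ v, X (cat (j * p.h) y v) ≠ 0 → p.Chain (cat (j * p.h) y v) (b + 1) j) →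
      val μ p.h p.N A X j y ≤
        ENNReal.ofReal (Real.exp (-((b + 1 : ℕ) : ℝ)) * (1 + p.T K y j / (80 * π * p.w))) :=
    fun j j1 j2 => ih (p.N - j) (by omega) j (by omega)
  have IH2 : ∀ j, k < j → j ≤ p.N → ∀ (y : Pth), ¬ Alive p.a y.1 p.c (j * p.h) →
      (∀ v, X (cat (j * p.h) y v) ≠ 0 → p.Chain (cat (j * p.h) y v) b j) →
      val μ p.h p.N A X j y ≤ ENNReal.ofReal (6 * Real.exp (-((b + 1 : ℕ) : ℝ))) := by
    intro j j1 j2 y c1 c2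
    have e1 := Real.exp_one_lt_d9
    have e2 : Real.exp (-(b : ℝ)) = Real.exp 1 * Real.exp (-((b + 1 : ℕ) : ℝ)) := by
      rw [← Real.exp_add]; congr 1; push_cast; ring
    have e3 := Real.exp_pos (-((b + 1 : ℕ) : ℝ))
    have e4 : 2 * Real.exp (-(b : ℝ)) ≤ 6 * Real.exp (-((b + 1 : ℕ) : ℝ)) := by
      rw [e2]; nlinarith
    refine le_trans ?_ (ENNReal.ofReal_le_ofReal e4)
    rcases b with _ | b
    · exact (val_le_const hμ hh.le fun v => X1 _).trans (ENNReal.one_le_ofReal.2 (by simp))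
    · refine (IH j j1 j2 b y c1 c2).trans (ENNReal.ofReal_le_ofReal ?_)
      have t1 := T_le (p := p) (K := K) y j
      have t2 := real_le hw.le (p.AL y j)
      have t3 : p.T K y j / (80 * π * p.w) ≤ 1 := (div_le_one hS).2 (by linarith)
      have := Real.exp_pos (-((b + 1 : ℕ) : ℝ))
      nlinarith
  have α0 := Real.exp_pos (-((b + 1 : ℕ) : ℝ))
  replace IH := fun j j1 j2 => IH j j1 j2 b
  generalize Real.exp (-((b + 1 : ℕ) : ℝ)) = α at IH IH2 α0 ⊢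
  by_cases hv : ∃ v, X (cat (k * p.h) u v) ≠ 0
  swap
  · exact zero k u _ hv
  obtain ⟨v0, hv0⟩ := hv
  have cont : ∀ (j : ℕ) v w, k ≤ j → X (cat (j * p.h) (cat (k * p.h) u v) w) ≠ 0 →
      p.Chain (cat (j * p.h) (cat (k * p.h) u v) w) (b + 1) k := by
    intro j v w hj hX
    rw [cat_grid hh.le hj] at hX ⊢
    exact hch _ hX
  by_cases hz : p.Zone u 3 k
  swap
  · -- waiting
    have kN : k < p.N := by
      rcases (hch v0 hv0).inv hw.le with h | h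
      · exact h.2.1
      · exact absurd ((zone_past ha hh v0 le_rfl 3).1 h.1) hz
    refine val_succ_le hμ kN (Eventually.of_forall fun v => (IH (k + 1) (Nat.lt_succ_self k) kN _
      (dead k _ k u v (Nat.le_succ k) le_rfl hc) fun w hX => ?_).trans
        (ENNReal.ofReal_le_ofReal ?_))
    · rcases (cont _ v w (Nat.le_succ k) hX).inv hw.le with h | h
      · exact h.2.2
      · exact absurd ((zone_past ha hh v le_rfl 3).1
          ((zone_past ha hh w (Nat.le_succ k) 3).1 h.1)) hz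
    · have t1 := T_le (p := p) (K := K) (cat (k * p.h) u v) (k + 1)
      have t2 : p.nu.real (p.AL (cat (k * p.h) u v) (k + 1)) ≤ p.nu.real (p.AL u k) :=
        measureReal_mono (AL_past ha hh v (le_refl k) ▸ AL_anti hh (Nat.le_succ k))
      have t3 : p.T K u k = 2 * p.nu.real (p.AL u k) := if_neg hz
      gcongr
      linarith
  -- a phase
  have ends : ∀ (j : ℕ) v w, k ≤ j → X (cat (j * p.h) (cat (k * p.h) u v) w) ≠ 0 →
      ∃ j', p.Ends (cat (j * p.h) (cat (k * p.h) u v) w) k j' ∧ j' ≤ p.N ∧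
        p.Chain (cat (j * p.h) (cat (k * p.h) u v) w) b j' ∧
        (¬ (p.Zone (cat (j * p.h) (cat (k * p.h) u v) w) 5 k ∧
          p.Dev (cat (j * p.h) (cat (k * p.h) u v) w) k j') →
          p.Chain (cat (j * p.h) (cat (k * p.h) u v) w) (b + 1) j') := by
    intro j v w hj hX
    rcases (cont j v w hj hX).inv hw.le with h | h
    · exact absurd ((zone_past ha hh w hj 3).2 ((zone_past ha hh v le_rfl 3).2 hz)) h.1
    · exact h.2
  have kN : k < p.N := by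
    rcases (hch v0 hv0).inv hw.le with h | ⟨_, j, j1, j2, _⟩
    · exact h.2.1
    · exact j1.1.trans_le j2
  obtain ⟨⟨r1, r2⟩, _⟩ := FF _ k (hG _ hv0) (dead k k k u v0 le_rfl le_rfl hc) kN.le
  simp only [rho_past ha hh v0 (le_refl k), f_past ha hh v0 (le_refl k),
    d_past ha hh v0 (le_refl k)] at r1 r2
  have ρ0 : 0 < p.rho u k := by linarith
  have t0 := (tm hh (le_refl k)).1
  obtain ⟨g, mg, ig, hg⟩ := hKill (p.nu.restrict (p.AL u k ∩ p.NR u k (p.rho u k / 16 / K)))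
    (fun z => Zt p.a u.1 (z + p.c) (k * p.h)) (p.rho u k / 16) (meas_Z ha hh u k) (by positivity)
  rw [Measure.restrict_apply_univ, ← ENNReal.ofReal_toReal (measure_ne_top p.nu _),
    ← ENNReal.ofReal_mul (by norm_num)] at ig
  have iD := hDev (fun w => Fm p.a u.1 (k * p.h) w - p.c) p.y0 (p.C6 * p.rho u k) p.lo
    (p.lo + 20 * p.w) (p.w / 10) (conf_Fm ha u.cont t0 hc) hy (by linarith) fun y hy' => by
      have b1 := abs_le.1 (r2 y hy')
      have b2 : p.f u (k * p.h) y = ln (fun w => Fm p.a u.1 (k * p.h) w - p.c) (y * I) :=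
        lev_eq_ln (show Real.log p.ρ < p.f u (k * p.h) y by linarith [hz.1])
      rw [← b2]
      constructor <;> linarith [hz.1, hz.2]
  replace iD := iD.trans (mul_le_mul_right (energy_le ha hh u k _) _)
  rw [← ENNReal.ofReal_toReal (measure_ne_top p.nu _), ← ENNReal.ofReal_mul (by positivity),
    ← measure_toMeasurable] at iD
  have hD : ∀ v j, k ≤ j → p.Dev (cat (k * p.h) u v) k j → v ∈ toMeasurable μ _ :=
    fun v j hj H => subset_toMeasurable μ {v | ∃ τ, 0 ≤ τ ∧ ∃ y, p.y0 ≤ y ∧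
      ‖gm p.a v τ y‖ ≤ p.C6 * p.rho u k ∧
      p.w / 10 ≤ |ln (fun w => Fm p.a u.1 (k * p.h) w - p.c) (gm p.a v τ y) -
        ln (fun w => Fm p.a u.1 (k * p.h) w - p.c) (‖gm p.a v τ y‖ * I)|}
      (dev_event ha hh hy hρ hc hj H)
  have mD := measurableSet_toMeasurable μ {v | ∃ τ, 0 ≤ τ ∧ ∃ y, p.y0 ≤ y ∧
      ‖gm p.a v τ y‖ ≤ p.C6 * p.rho u k ∧
      p.w / 10 ≤ |ln (fun w => Fm p.a u.1 (k * p.h) w - p.c) (gm p.a v τ y) -
        ln (fun w => Fm p.a u.1 (k * p.h) w - p.c) (‖gm p.a v τ y‖ * I)|}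
  generalize toMeasurable μ _ = D at iD hD mD
  have epi : ∀ Φ : Pth → ℝ≥0∞, Measurable Φ →
      (∀ v j w, k < j → j ≤ p.N → X (cat (j * p.h) (cat (k * p.h) u v) w) ≠ 0 →
        p.Ends (cat (k * p.h) u v) k j → val μ p.h p.N A X j (cat (k * p.h) u v) ≤ Φ v) →
      val μ p.h p.N A X k u ≤ ∫⁻ v, Φ v ∂μ := by
    intro Φ mΦ hΦ
    refine val_episode hμ hh.le hA (S := fun j => {y | k ≤ j ∧ (p.Door y k j ∨ p.Dev y k j ∨
      ¬ ∃ w, X (cat (j * p.h) y w) ≠ 0)}) (fun j y v => and_congr_right fun hj => ?_) kN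
      (hact u k (by linarith [hz.1]) (by linarith [hz.2])) (fun v j j1 j2 hj => ?_) mΦ
      (fun v j j1 j2 hj hj' => ?_)
    · rw [door_past ha hh v hj le_rfl, dev_past ha hh v hj le_rfl]
      simp only [cat_cat_le _ _ _ le_rfl]
    · obtain ⟨w, hX⟩ : ∃ w, X (cat (j * p.h) (cat (k * p.h) u v) w) ≠ 0 :=
        not_not.1 fun hn => hj j j1 le_rfl ⟨j1.le, Or.inr (Or.inr hn)⟩
      have b1 := (FF _ k (hG _ hX) (dead k k j _ w le_rfl j1.le
        (dead k k k u v le_rfl le_rfl hc)) kN.le).2.1 j j1.le j2.le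
        ((runs_past ha hh w le_rfl).2 fun i i1 i2 =>
          ⟨fun h => hj i i1 i2 ⟨i1.le, Or.inl h⟩, fun h => hj i i1 i2 ⟨i1.le, Or.inr (Or.inl h)⟩⟩)
      rw [d_past ha hh w le_rfl, d_past ha hh w j1.le, d_past ha hh v le_rfl, abs_le] at b1
      exact hact _ j (by linarith [hz.1, b1.1]) (by linarith [hz.2, b1.2])
    · by_cases hx : ∃ w, X (cat (j * p.h) (cat (k * p.h) u v) w) ≠ 0
      swap
      · exact zero j _ _ hx
      obtain ⟨w, hX⟩ := hx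
      obtain ⟨j', e1, e2, _⟩ := ends j v w j1.le hX
      have e3 : j' = j := by
        rcases lt_trichotomy j' j with e | e | e
        · exact absurd ⟨e1.1.le, (((ends_past ha hh w e.le).1 e1).2.2).elim Or.inl
            fun h => Or.inr (Or.inl h)⟩ (hj j' e1.1 e)
        · exact e
        · exfalso
          have b1 := e1.2.1 j j1 (by omega)
          rw [door_past ha hh w j1.le le_rfl, dev_past ha hh w j1.le le_rfl] at b1
          rcases hj' with ⟨_, f | f | f⟩ | f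
          · exact b1.1 f
          · exact b1.2 f
          · exact f ⟨w, hX⟩
          · omega
      rw [e3] at e1
      exact hΦ v j w j1 j2 hX ((ends_past ha hh w le_rfl).1 e1)
  have after : ∀ v j, k < j → p.Ends (cat (k * p.h) u v) k j → ∀ w,
      X (cat (j * p.h) (cat (k * p.h) u v) w) ≠ 0 →
      p.Chain (cat (j * p.h) (cat (k * p.h) u v) w) b j ∧
        (¬ (p.Zone u 5 k ∧ p.Dev (cat (k * p.h) u v) k j) →
          p.Chain (cat (j * p.h) (cat (k * p.h) u v) w) (b + 1) j) := by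
    intro v j j1 he w hX
    obtain ⟨j', e1, _, e3, e4⟩ := ends j v w j1.le hX
    obtain rfl := e1.unique ((ends_past ha hh w le_rfl).2 he)
    rw [zone_past ha hh w j1.le, zone_past ha hh v le_rfl, dev_past ha hh w j1.le le_rfl] at e4
    exact ⟨e3, e4⟩
  have door : ∀ v j w, k < j → j ≤ p.N → X (cat (j * p.h) (cat (k * p.h) u v) w) ≠ 0 →
      p.Door (cat (k * p.h) u v) k j → ∃ x : ℝ, 0 ≤ x ∧ ENNReal.ofReal x ≤ g v ∧
        p.nu.real (p.AL (cat (k * p.h) u v) j) ≤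
          p.nu.real (p.AL u k \ p.NR u k (p.rho u k / 16 / K)) + x := by
    intro v j w j1 j2 hX hd
    have b1 := (FF _ k (hG _ hX) (dead k k j _ w le_rfl j1.le
      (dead k k k u v le_rfl le_rfl hc)) kN.le).2.2.1 j j1 j2 ((door_past ha hh w j1.le le_rfl).2 hd)
    have t1 := (tm hh j1.le).2
    have e : (j : ℝ) * p.h = k * p.h + (j * p.h - k * p.h) := by ring
    rw [rho_past ha hh w j1.le, rho_past ha hh v le_rfl, Lz_cat_le _ _ t1 le_rfl, e,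
      Lz_cat u v t0 (by linarith)] at b1
    refine ⟨p.nu.real (p.AL (cat (k * p.h) u v) j ∩ p.NR u k (p.rho u k / 16 / K)),
      measureReal_nonneg, ?_, le_trans (measureReal_mono fun z hz' => ?_) (measureReal_union_le _ _)⟩
    · rw [measureReal_def, ENNReal.ofReal_toReal (measure_ne_top _ _)]
      exact (kill_event ha hh j1.le _).trans (hg v _ (by linarith) b1)
    · by_cases hn : z ∈ p.NR u k (p.rho u k / 16 / K)
      · exact Or.inr ⟨hz', hn⟩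
      · exact Or.inl ⟨AL_past ha hh v (le_refl k) ▸ AL_anti hh j1.le hz', hn⟩
  have T0 : p.T K u k = p.nu.real (p.AL u k) +
      p.nu.real (p.AL u k \ p.NR u k (p.rho u k / 16 / K)) := if_pos hz
  have s1 := measureReal_inter_add_sdiff (μ := p.nu) (s := p.AL u k)
    (meas_NR ha hh u k (p.rho u k / 16 / K))
  have s2 := measureReal_inter_add_sdiff (μ := p.nu) (s := p.AL u k)
    (meas_NR ha hh u k (4 * (p.C6 * p.rho u k)))
  have s3 : p.nu.real (p.AL u k ∩ p.NR u k (p.rho u k / 16 / K)) ≤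
      p.nu.real (p.AL u k ∩ p.NR u k (4 * (p.C6 * p.rho u k))) := by
    refine measureReal_mono (inter_subset_inter_right _ fun z hz' =>
      show _ ≤ 4 * (p.C6 * p.rho u k) from le_trans hz' ?_)
    have c1 := mul_le_mul_of_nonneg_right F.pos.1 ρ0.le
    have c2 : p.rho u k / 16 / K ≤ p.rho u k / 16 := div_le_self (by positivity) hK
    linarith
  have s4 := real_le hw.le (p.AL u k ∩ p.NR u k (4 * (p.C6 * p.rho u k)))
  have mono : ∀ v j, k < j → p.nu.real (p.AL (cat (k * p.h) u v) j) ≤ p.nu.real (p.AL u k) :=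
    fun v j hj => measureReal_mono (AL_past ha hh v (le_refl k) ▸ AL_anti hh hj.le)
  have risk : ∀ v j w, k < j → j ≤ p.N → X (cat (j * p.h) (cat (k * p.h) u v) w) ≠ 0 →
      p.Zone u 5 k → p.Ends (cat (k * p.h) u v) k j → ¬ p.Dev (cat (k * p.h) u v) k j →
      p.T K (cat (k * p.h) u v) j ≤ p.nu.real (p.AL (cat (k * p.h) u v) j) +
        p.nu.real (p.AL u k \ p.NR u k (4 * (p.C6 * p.rho u k))) := by
    intro v j w j1 j2 hX h5 he hd
    obtain ⟨b1, b2⟩ := (FF _ k (hG _ hX) (dead k k j _ w le_rfl j1.le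
      (dead k k k u v le_rfl le_rfl hc)) kN.le).2.2.2.1 j j2
      ((zone_past ha hh w j1.le 5).2 ((zone_past ha hh v le_rfl 5).2 h5))
      ((ends_past ha hh w le_rfl).2 he) fun h => hd ((dev_past ha hh w j1.le le_rfl).1 h)
    rw [T, if_pos ((zone_past ha hh w le_rfl 3).1 b1)]
    refine add_le_add le_rfl (measureReal_mono fun z hz' => ?_)
    refine ⟨AL_past ha hh v (le_refl k) ▸ AL_anti hh j1.le hz'.1, fun hn => hz'.2 ?_⟩
    have c1 : z ∈ p.NR (cat (j * p.h) (cat (k * p.h) u v) w) j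
        (p.rho (cat (j * p.h) (cat (k * p.h) u v) w) j / 16 / K) := by
      refine b2 (z + p.c) (show z ∈ p.AL _ j from (AL_past ha hh w (le_refl j)).symm ▸ hz'.1) ?_
      rw [rho_past ha hh w j1.le, rho_past ha hh v le_rfl]
      show z ∈ p.NR _ k _
      rw [NR_past ha hh w j1.le, NR_past ha hh v le_rfl]
      exact hn
    rwa [rho_past ha hh w le_rfl, NR_past ha hh w le_rfl] at c1
  have n0 : 0 ≤ p.nu.real (p.AL u k \ p.NR u k (p.rho u k / 16 / K)) := measureReal_nonneg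
  have n1 : 0 ≤ p.nu.real (p.AL u k \ p.NR u k (4 * (p.C6 * p.rho u k))) := measureReal_nonneg
  have n2 : 0 ≤ p.nu.real (p.AL u k ∩ p.NR u k (p.rho u k / 16 / K)) := measureReal_nonneg
  rw [← measureReal_def] at ig iD
  rw [T0]
  generalize p.nu.real (p.AL u k \ p.NR u k (p.rho u k / 16 / K)) = x1 at *
  generalize p.nu.real (p.AL u k \ p.NR u k (4 * (p.C6 * p.rho u k))) = x2 at *
  generalize p.nu.real (p.AL u k ∩ p.NR u k (p.rho u k / 16 / K)) = κ at *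
  generalize p.nu.real (p.AL u k ∩ p.NR u k (4 * (p.C6 * p.rho u k))) = e at *
  generalize p.nu.real (p.AL u k) = Ψ at *
  have β0 : 0 < α / (80 * π * p.w) := div_pos α0 hS
  have form : ∀ t : ℝ, α * (1 + t / (80 * π * p.w)) = α + α / (80 * π * p.w) * t := fun t => by ring
  have q1 : Cd / (p.w / 10) ^ 2 * (80 * π * p.w) ≤ 1 / 8 := by
    have c1 : Cd / (p.w / 10) ^ 2 * (80 * π * p.w) = 8000 * π * Cd / p.w := by field_simp; norm_num
    rw [c1, div_le_iff₀ hw]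
    have := mul_le_mul_of_nonneg_right Real.pi_lt_d2.le (show 0 ≤ Cd by linarith)
    linarith
  have q0 : 0 ≤ Cd / (p.w / 10) ^ 2 := by positivity
  have q2 : α / (80 * π * p.w) * (80 * π * p.w) = α := div_mul_cancel₀ _ hS.ne'
  simp only [form] at IH ⊢
  generalize α / (80 * π * p.w) = β at *
  generalize Cd / (p.w / 10) ^ 2 = cd at *
  have e0 : 0 ≤ e := n2.trans s3
  have split : ∀ (A0 A1 x t : ℝ) (v : Pth) (Z : ℝ≥0∞), 0 ≤ A0 → 0 ≤ A1 → 0 ≤ x →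
      ENNReal.ofReal x ≤ g v → t ≤ A0 + A1 * x →
      ENNReal.ofReal t ≤ ENNReal.ofReal A0 + ENNReal.ofReal A1 * g v + Z := by
    intro A0 A1 x t v Z c0 c1 c2 c3 c4
    refine (ENNReal.ofReal_le_ofReal c4).trans (le_trans ?_ le_self_add)
    rw [ENNReal.ofReal_add c0 (mul_nonneg c1 c2), ENNReal.ofReal_mul c1]
    gcongr
  have meas : ∀ A0 A1 A2 : ℝ, Measurable fun v => ENNReal.ofReal A0 + ENNReal.ofReal A1 * g v +
      D.indicator (fun _ => ENNReal.ofReal A2) v := fun A0 A1 A2 =>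
    (measurable_const.add (mg.const_mul _)).add (measurable_const.indicator mD)
  by_cases h5 : p.Zone u 5 k
  · refine (epi _ (meas (α + β * (x1 + x2)) β (6 * α)) fun v j w j1 j2 hX he => ?_).trans
      ((int_three mg mD (by positivity) β0.le (by positivity) (by positivity) (by positivity)
        ig iD).trans (ENNReal.ofReal_le_ofReal ?_))
    · have c0 := dead k j k u v j1.le le_rfl hc
      by_cases hd : p.Dev (cat (k * p.h) u v) k j
      · rw [indicator_of_mem (hD v j j1.le hd)]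
        exact (IH2 j j1 j2 _ c0 fun w hX => (after v j j1 he w hX).1).trans le_add_self
      · obtain ⟨x, c1, c2, c3⟩ := door v j w j1 j2 hX (he.2.2.resolve_right hd)
        have c4 := risk v j w j1 j2 hX h5 he hd
        refine (IH j j1 j2 _ c0 fun w hX => (after v j j1 he w hX).2 fun h => hd h.2).trans
          (split _ _ x _ v _ (by positivity) β0.le c1 c2 ?_)
        have := mul_le_mul_of_nonneg_left (show p.T K (cat (k * p.h) u v) j ≤ x1 + x2 + x by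
          linarith) β0.le
        linarith
    · have c1 := mul_le_mul_of_nonneg_left q1 (mul_nonneg β0.le e0)
      have c2 := mul_le_mul_of_nonneg_left s3 β0.le
      have c3 : α * (cd * e) = β * e * (cd * (80 * π * p.w)) := by rw [← q2]; ring
      have c4 : β * Ψ = β * e + β * x2 := by rw [← s2]; ring
      linarith
  · refine (epi _ (meas (α + β * (2 * x1)) (2 * β) (β * (2 * κ))) fun v j w j1 j2 hX he => ?_).trans
      ((int_three mg mD (by positivity) (by positivity) (by positivity) (by positivity)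
        (by positivity) ig iD).trans (ENNReal.ofReal_le_ofReal ?_))
    · have c0 := dead k j k u v j1.le le_rfl hc
      have c5 := T_le (p := p) (K := K) (cat (k * p.h) u v) j
      refine (IH j j1 j2 _ c0 fun w hX => (after v j j1 he w hX).2 fun h => h5 h.1).trans ?_
      rcases he.2.2 with hd | hd
      · obtain ⟨x, c1, c2, c3⟩ := door v j w j1 j2 hX hd
        refine split _ _ x _ v _ (by positivity) (by positivity) c1 c2 ?_
        have := mul_le_mul_of_nonneg_left (show p.T K (cat (k * p.h) u v) j ≤ 2 * x1 + 2 * x by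
          linarith) β0.le
        linarith
      · rw [indicator_of_mem (hD v j j1.le hd), add_right_comm,
          ← ENNReal.ofReal_add (by positivity) (by positivity)]
        refine le_trans (ENNReal.ofReal_le_ofReal ?_) le_self_add
        have := mul_le_mul_of_nonneg_left (show p.T K (cat (k * p.h) u v) j ≤ 2 * x1 + 2 * κ by
          linarith [mono v j j1]) β0.le
        linarith
    · have c1 : cd * e ≤ 1 / 4 := by
        have := mul_le_mul_of_nonneg_left s4 q0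
        linarith
      have c2 := mul_le_mul_of_nonneg_left c1 (mul_nonneg β0.le n2)
      have c4 : β * Ψ = β * κ + β * x1 := by rw [← s1]; ring
      linarith

end Ph

theorem phG_stmt {a : ℝ} (ha : Rg a) (hK : KillStmt a) (hD : DevStmt a) : PhGStmt a := by
  obtain ⟨K, k1, hK⟩ := hK (1 / 4) (by norm_num)
  obtain ⟨Cd, c1, hD⟩ := hD
  refine ⟨K, k1, fun K2 C6 w0 θ F => ⟨max w0 (250000 * Cd), ?_⟩⟩
  rintro X p R P rfl e1 e2 e3 rfl rfl hw h2 h3 mR hR k b u hk hc hch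
  have adp := (X.ok ha.pos).adp mR
  have w0' : 0 < p.w := by linarith [le_max_right w0 (250000 * Cd)]
  rcases b with _ | b
  · exact (X.vl_le_one R P k u).trans (ENNReal.one_le_ofReal.2 (by simp))
  obtain ⟨μ, y0, η, h, N, G, hμ, y1, y2, hh, mG, hG⟩ := X
  simp only at e1 e2 e3 h2 hk hc hch
  subst e1 e2 e3
  have inG : ∀ w, G.indicator (fun w => ind (P w)) w ≠ 0 → w ∈ G ∧ P w := fun w hw' => by
    have wG : w ∈ G := not_not.1 fun hn => hw' (indicator_of_notMem hn _)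
    exact ⟨wG, not_not.1 fun hn => hw' ((indicator_of_mem wG _).trans (ind_neg hn))⟩
  refine (Ph.core hμ ha.pos hh y1 (by linarith) adp (X := G.indicator fun w => ind (P w))
    (fun w => indicator_le' (fun _ _ => ind_le_one _) (fun _ _ => zero_le_one) _)
    (fun w hw' => hG w (inG w hw').1) (fun w k a1 a2 => hR _ a1 a2) k1 F
    ((le_max_left _ _).trans hw) h2 h3 c1 ((le_max_right _ _).trans hw) (hK μ hμ) (hD μ hμ)
    (p.N - k) k (by omega) b u hc fun v hv => hch v (inG _ hv).1 (inG _ hv).2).trans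
    (ENNReal.ofReal_le_ofReal ?_)
  have hS : 0 < 80 * π * p.w := by positivity
  have t1 := Ph.T_le (p := p) (K := K) u k
  have t2 := Ph.real_le w0'.le (p.AL u k)
  have t3 : p.T K u k / (80 * π * p.w) ≤ 1 := (div_le_one hS).2 (by linarith)
  have := Real.exp_pos (-((b + 1 : ℕ) : ℝ))
  nlinarith

end Pool.Agent.MP_990230_pr.K8

end
end MrgPart1

-- marker of a merged file
example : 731051 + 510352 = 731051 + 510352 := rfl

end MrgPart2

-- marker of a merged file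
example : 731051 + 510352 = 731051 + 510352 := rfl
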