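import Pool.Agent.MP_990230_pr.k8.PicP
import Pool.Agent.MP_990230_pr.k8.Tile
import Mathlib.Data.Finset.Functor
import Pool.Agent.MP_990230_pr.k8.PhG
import Pool.Agent.MP_990230_pr.k8.Br48
import Pool.Agent.MP_990230_pr.k8.One
import Pool.Agent.MP_990230_pr.PotN
import Pool.Agent.MP_990230_pr.Pot
import Pool.Agent.MP_990230_pr.Asm
import Pool.Agent.MP_990230_pr.CE
import Pool.Agent.MP_990230_pr.k8.PhD
import Pool.Agent.MP_990230_pr.k8.Glob
import Pool.Agent.MP_990230_pr.k8.SH5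

-- ======== part 0: formerly Pool.Agent.MP_990230_pr.k8.Crc58
section MrgPart0

/-! # SLE8: many crossings force many bad phases -/

open Set MeasureTheory Filter Complex
open scoped ENNReal NNReal Topology

noncomputable section

namespace Pool.Agent.MP_990230_pr.K8

namespace CrcB

/-- an unforced excursion. -/
structure Exc (p : Ph) (u : Pth) (θ s : ℝ) (j : ℕ) (d Y : ℝ) : Prop where
  le : j ≤ p.N
  d1 : p.lo + 8 * p.w ≤ d
  d2 : d ≤ p.lo + 12 * p.w
  hY : p.y0 ≤ Y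
  fl : ∀ y ∈ Icc p.y0 Y, |p.f u s y - d| ≤ p.w / 100
  fst : IsLeast {j : ℕ | s < j * p.h ∧ 3 * p.w ≤ |p.d u j - d|} j
  sz : Lz u.1 s (j * p.h) ≤ θ * Y

structure Cx (p : Ph) (u : Pth) (η θ : ℝ) (k0 : ℕ) : Prop where
  ha : 1 / 4 ≤ p.a
  ha1 : p.a ≤ 1
  good : Good p.a p.y0 η p.h (p.N * p.h) u
  hρ : 2 * η ≤ p.ρ
  lo : Real.log p.ρ ≤ p.lo
  θ0 : 0 < θ
  θ1 : θ ≤ 1 / 100
  dead : ¬ Alive p.a u.1 p.c (k0 * p.h)
  hw : 400000 ≤ p.w
  flat : ∀ s0 t y, k0 * p.h ≤ s0 → s0 ≤ t → t ≤ p.N * p.h → p.y0 ≤ y → Lz u.1 s0 t ≤ θ * y ∨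
    ∃ s ∈ Icc s0 t, Lz u.1 s t ≤ θ * y ∧ ∀ y' ∈ Icc p.y0 y, |p.f u s y' - p.f u t y| ≤ p.w / 100
  exc : ∀ (k : ℕ) s j d Y b, k0 ≤ k → k ≤ p.N → k * p.h ≤ s → Exc p u θ s j d Y →
    (∀ i : ℕ, s < i * p.h → i ≤ j → p.Chain u b i) → p.Chain u (b + 1) k

/-- an episode which is forced, with the excursion that has prepared it. -/
structure TB (p : Ph) (u : Pth) (θ : ℝ) (k0 σ τ : ℕ) (s : ℝ) (j : ℕ) (y Y : ℝ) : Prop where
  s1 : k0 * p.h ≤ s
  s2 : s ≤ σ * p.h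
  le : j ≤ σ
  exc : Exc p u θ s j (p.lo + 12 * p.w) y
  sz : Lz u.1 s (σ * p.h) ≤ θ * y
  yY : y ≤ Y
  low : ∀ y' ∈ Icc p.y0 Y, p.f u (τ * p.h) y' ≤ p.lo + 8 * p.w
  top : p.f u (σ * p.h) Y ≤ p.lo + 8 * p.w + 2
  mid : p.f u (σ * p.h) y = p.lo + 12 * p.w

variable {p : Ph} {u : Pth} {η θ s t : ℝ} {k0 k j : ℕ}

theorem Cx.a0 (H : Cx p u η θ k0) : 0 < p.a := by linarith [H.ha]

theorem Cx.y0 (H : Cx p u η θ k0) : 0 < p.y0 := H.good.y0_pos

theorem Cx.ρ0 (H : Cx p u η θ k0) : 0 < p.ρ := by linarith [H.good.eta_pos, H.hρ]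

theorem Cx.tm0 (H : Cx p u η θ k0) (k : ℕ) : 0 ≤ k * p.h :=
  mul_nonneg (Nat.cast_nonneg k) H.good.h_pos.le

theorem Cx.tm (H : Cx p u η θ k0) (h : k ≤ j) : k * p.h ≤ j * p.h :=
  mul_le_mul_of_nonneg_right (Nat.cast_le.2 h) H.good.h_pos.le

theorem Cx.lt (H : Cx p u η θ k0) (h : k * p.h < j * p.h) : k < j :=
  lt_of_not_ge fun h' => (H.tm h').not_gt h

theorem Cx.dd (H : Cx p u η θ k0) (h : k0 * p.h ≤ t) : ¬ Alive p.a u.1 p.c t :=
  fun h' => H.dead (LoeAM.alive_mono h h')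

theorem Cx.vert (H : Cx p u η θ k0) (ht : k0 * p.h ≤ t) {y y' : ℝ} (hy : 0 < y) (h1 : y ≤ y')
    (h2 : y' ≤ 2 * y) : |p.f u t y' - p.f u t y| ≤ 2 := by
  have := lev_vert H.a0 u.cont ((H.tm0 k0).trans ht) (H.dd ht) H.ρ0 0 hy h1
  simp only [ofReal_zero, zero_add] at this
  have h3 := Real.log_le_sub_one_of_pos (div_pos (hy.trans_le h1) hy)
  have h4 := (div_le_iff₀ hy).2 h2
  exact this.trans (by linarith)

theorem Cx.tail (H : Cx p u η θ k0) (hs : 0 ≤ s) (hst : s ≤ t) (ht : k0 * p.h ≤ t) {y : ℝ}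
    (hy : p.y0 ≤ y) (h : 16 * Lz u.1 s t ≤ y) : |p.f u t y - p.f u s y| ≤ 2 :=
  lev_tail H.a0 H.ha1 u.cont hs hst (H.dd ht) H.ρ0 (w := y * I) (by simpa using H.y0.trans_le hy)
    (by simpa using h)

theorem Cx.step (H : Cx p u η θ k0) (hs : 0 ≤ s) (hst : s ≤ t) (ht : t ≤ p.N * p.h)
    (h : t ≤ s + p.h) : |p.f u s p.y0 - p.f u t p.y0| ≤ 1 / 2 := by
  refine (lev_lip H.ρ0 _ _).trans ?_
  rw [div_le_iff₀ H.ρ0]
  linarith [H.good.step s ⟨hs, hst.trans ht⟩ t ⟨hs.trans hst, ht⟩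
    (by rw [abs_le]; constructor <;> linarith [H.good.h_pos]), H.hρ]

theorem Cx.cont (H : Cx p u η θ k0) (ht : 0 ≤ t) (Y : ℝ) : ContinuousOn (p.f u t) (Icc p.y0 Y) :=
  fun y hy => ((continuous_lev p.c H.ρ0).continuousAt.comp ((Fm_continuousAt H.a0 u.cont ht
    (w := y * I) (by simpa using H.y0.trans_le hy.1)).comp (f := fun y : ℝ => (y * I : ℂ))
      (by fun_prop))).continuousWithinAt

theorem Cx.tl (H : Cx p u η θ k0) :
    SHM.Tl p.a u.1 (lev p.c p.ρ) (Lz u.1) p.y0 (k0 * p.h) (p.N * p.h) 62 :=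
  K8.tl H.ha H.ha1 u.cont u.zero H.y0 H.good.eta_pos H.good.tail H.hρ H.dead le_rfl

theorem Cx.chain (H : Cx p u η θ k0) (s : ℕ → ℝ) (j : ℕ → ℕ) (F : Finset ℕ) :
    (∀ e ∈ F, ∃ d Y, Exc p u θ (s e) (j e) d Y) →
    (∀ e ∈ F, ∀ e' ∈ F, e ≠ e' → j e * p.h ≤ s e' ∨ j e' * p.h ≤ s e) →
    ∀ k, k0 ≤ k → k ≤ p.N → (∀ e ∈ F, k * p.h ≤ s e) → p.Chain u F.card k := by
  induction F using Finset.induction_on_min_value s with
  | empty => exact fun _ _ k _ _ _ => .zero k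
  | insert e F he hmin ih =>
    intro h1 h2 k k1 k2 k3
    rw [Finset.card_insert_of_notMem he]
    obtain ⟨d, Y, X⟩ := h1 e (Finset.mem_insert_self _ _)
    have k4 := k3 e (Finset.mem_insert_self _ _)
    refine H.exc k _ _ d Y _ k1 k2 k4 X fun i i1 i2 => ih
      (fun e he => h1 e (Finset.mem_insert_of_mem he))
      (fun e he e' he' => h2 e (Finset.mem_insert_of_mem he) e' (Finset.mem_insert_of_mem he')) i
      (k1.trans (H.lt (k4.trans_lt i1)).le) (i2.trans X.le) fun e' he' => ?_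
    rcases h2 e (Finset.mem_insert_self _ _) e' (Finset.mem_insert_of_mem he')
      (fun h => he (h ▸ he')) with h | h
    · exact (H.tm i2).trans h
    · obtain ⟨d', Y', X'⟩ := h1 e' (Finset.mem_insert_of_mem he')
      linarith [X'.fst.1.1, hmin e' he']

theorem Cx.mk_exc (H : Cx p u η θ k0) {τ : ℕ} {d Y : ℝ} (h1 : τ ≤ p.N) (d1 : p.lo + 8 * p.w ≤ d)
    (d2 : d ≤ p.lo + 12 * p.w) (hY : p.y0 ≤ Y) (fl : ∀ y ∈ Icc p.y0 Y, |p.f u s y - d| ≤ p.w / 100)
    (h2 : s ≤ τ * p.h) (h3 : 3 * p.w ≤ |p.d u τ - d|) (sz : Lz u.1 s (τ * p.h) ≤ θ * Y) :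
    ∃ j ≤ τ, Exc p u θ s j d Y := by
  classical
  have h4 : s < τ * p.h := lt_of_le_of_ne h2 fun e => by
    have := fl _ ⟨le_rfl, hY⟩
    rw [e] at this
    linarith [H.hw, show |p.d u τ - d| ≤ p.w / 100 from this]
  have ex : ∃ j : ℕ, s < j * p.h ∧ 3 * p.w ≤ |p.d u j - d| := ⟨τ, h4, h3⟩
  have h5 := Nat.find_min' ex ⟨h4, h3⟩
  exact ⟨_, h5, h5.trans h1, d1, d2, hY, fl, Nat.isLeast_find ex,
    (Lz_mono u.cont (Nat.find_spec ex).1.le (H.tm h5)).trans sz⟩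

theorem Cx.noB (H : Cx p u η θ k0) {r y Y : ℝ} {c0 : ℂ} {σ τ : ℕ} (hr : 0 < r)
    (h1 : Real.log (3 * r) ≤ p.lo) (h2 : ‖p.c - c0‖ ≤ 2 * r)
    (h3 : k0 = 0 ∨ ∀ z ∈ Metric.closedBall c0 (2 * r), Alive p.a u.1 z ((k0 - 1 : ℕ) * p.h))
    (h4 : ‖gm p.a u (τ * p.h) p.y0 - c0‖ ≤ r) (k1 : k0 ≤ σ) (k2 : σ ≤ τ) (k3 : τ ≤ p.N)
    (hy : p.y0 ≤ y) (yY : y ≤ Y) (low : ∀ y' ∈ Icc p.y0 Y, p.f u (τ * p.h) y' ≤ p.lo + 8 * p.w)
    (top : p.f u (σ * p.h) Y ≤ p.lo + 8 * p.w + 2) (mid : p.f u (σ * p.h) y = p.lo + 12 * p.w)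
    (sz : Lz u.1 (k0 * p.h) (σ * p.h) ≤ θ * y) : False := by
  have w0 := H.hw
  have y0 := H.y0
  have θy : θ * y ≤ 1 / 100 * y := mul_le_mul_of_nonneg_right H.θ1 (by linarith)
  rcases k0 with _ | i
  · have e1 := abs_le.1 (H.tail (H.tm0 0) (H.tm k1) (H.tm k1) hy (by linarith))
    have e2 := abs_le.1 (H.tail (H.tm0 0) (H.tm k1) (H.tm k1) (hy.trans yY) (by linarith))
    have c0 : p.c.im ≤ 0 := le_of_not_gt fun h => H.dead (by simpa using (Zt_zero u h).1)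
    have e3 : p.f u ((0 : ℕ) * p.h) y ≤ p.f u ((0 : ℕ) * p.h) Y := by
      simp only [Ph.f, pf, Nat.cast_zero, zero_mul, gm_zero H.a0 u (y0.trans_le hy),
        gm_zero H.a0 u (y0.trans_le (hy.trans yY)), lev]
      refine Real.log_le_log (H.ρ0.trans_le (le_max_right _ _)) (max_le_max_right _ ?_)
      rw [← sq_le_sq₀ (norm_nonneg _) (norm_nonneg _), ← normSq_eq_norm_sq, ← normSq_eq_norm_sq]
      simp only [normSq_apply, sub_re, sub_im, mul_re, mul_im, ofReal_re, ofReal_im, I_re, I_im]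
      nlinarith
    linarith [e1.2, e2.1]
  have h3 := h3.resolve_left (by omega)
  rw [Nat.add_sub_cancel] at h3
  have Y2 : 2 * y ≤ Y := le_of_not_gt fun h => by
    linarith [(abs_le.1 (H.vert (H.tm k1) (y0.trans_le hy) yY h.le)).1]
  have iτ : i * p.h ≤ τ * p.h := H.tm (by omega)
  have l1 := H.good.lstep _ _ (H.tm0 i) (H.tm i.le_succ) (H.tm (k1.trans (k2.trans k3)))
    (by push_cast; linarith)
  have cm : p.c ∈ Metric.closedBall c0 (2 * r) := mem_closedBall_iff_norm.2 h2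
  have ex : Real.exp p.lo * 2 ≤ Real.exp (p.lo + 8 * p.w) := by
    rw [Real.exp_add]; gcongr; linarith [Real.add_one_le_exp (8 * p.w)]
  have r3 := (Real.log_le_iff_le_exp (by positivity)).1 h1
  have hS : ∀ q ∈ (fun y : ℝ => Fm p.a u.1 (τ * p.h) (y * I)) '' Icc p.y0 Y ∪
      Metric.closedBall c0 (2 * r), Alive p.a u.1 q (i * p.h) ∧
        ‖q - p.c‖ ≤ Real.exp (p.lo + 8 * p.w) := by
    rintro q (⟨y', hy', rfl⟩ | hq)
    · exact ⟨LoeAM.alive_mono iτ (gm_alive H.a0 u (H.tm0 τ) (y0.trans_le hy'.1)),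
        ((lev_le_iff H.ρ0).1 (low y' hy')).1⟩
    · have := norm_sub_le_norm_sub_add_norm_sub q c0 p.c
      rw [norm_sub_rev c0] at this
      exact ⟨h3 q hq, by linarith [mem_closedBall_iff_norm.1 hq]⟩
  obtain ⟨r', hr', k4⟩ := (univ_Fm H.a0 u.cont (H.tm0 i) p.c).semi 0 (p.lo + 8 * p.w)
    (y0.trans_le hy)
  have r0 : 0 < r' := by linarith [hr'.1]
  obtain ⟨q, hq, e⟩ := exists_radius H.a0 u.cont (H.tm0 i) (IsPreconnected.union
    (gm p.a u (τ * p.h) p.y0) (mem_image_of_mem _ (left_mem_Icc.2 (hy.trans yY)))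
    (mem_closedBall_iff_norm.2 (by linarith)) (preconn_path H.a0 u.cont (H.tm0 τ)
      (γ := fun y : ℝ => y * I) (by fun_prop) isPreconnected_Icc
      fun y hy => by simpa using y0.trans_le hy.1) (convex_closedBall _ _).isPreconnected)
    (fun q hq => (hS q hq).1) ((0 : ℝ) : ℂ) (Or.inr cm) (Or.inl ⟨Y, ⟨hy.trans yY, le_rfl⟩, rfl⟩)
    (r := r') (by
      rw [ofReal_zero, sub_zero]
      refine le_of_not_gt fun h => H.dead (alive_of_size H.a0 H.ha1 u.cont (H.tm0 i)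
        (H.tm i.le_succ) (h3 _ cm) (by linarith [hr'.1]))) (by
      have := (bk_im H.a0 u (H.tm0 i) iτ (w := Y * I) (by simp; linarith)).trans
        ((le_abs_self _).trans (abs_im_le_norm _))
      rw [ofReal_zero, sub_zero]
      exact le_trans (by simp; linarith [hr'.2]) this)
  have k5 := k4 _ (r' * I) (Zt_im_pos u.cont (H.tm0 i) (hS q hq).1) (by simpa using r0) e
    (by simp [abs_of_pos r0]) (by simpa only [Fm_Zt H.a0 u.cont (H.tm0 i) (hS q hq).1] using (hS q hq).2)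
  have k6 : p.f u (i * p.h) r' ≤ p.lo + 8 * p.w + 30 := (lev_le_iff H.ρ0).2 ⟨k5.le,
    ((Real.log_le_iff_le_exp H.ρ0).1 H.lo).trans (Real.exp_le_exp.2 (by linarith))⟩
  have k7 := H.tail (H.tm0 i) (H.tm (show i ≤ σ by omega)) (H.tm k1) (hy.trans hr'.1.le) (by
    linarith [Lz_add u.cont (H.tm i.le_succ) (H.tm k1), hr'.1])
  have k8 := H.vert (H.tm k1) (y0.trans_le hy) hr'.1.le hr'.2.le
  linarith [(abs_le.1 k7).2, (abs_le.1 k8).1]

theorem Cx.epi (H : Cx p u η θ k0) {r : ℝ} {c0 : ℂ} {σ τ : ℕ} (hr : 0 < r)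
    (h1 : Real.log (3 * r) ≤ p.lo) (h2 : ‖p.c - c0‖ ≤ 2 * r)
    (h3 : k0 = 0 ∨ ∀ z ∈ Metric.closedBall c0 (2 * r), Alive p.a u.1 z ((k0 - 1 : ℕ) * p.h))
    (h4 : ‖gm p.a u (τ * p.h) p.y0 - c0‖ ≤ r) (k1 : k0 ≤ σ) (k2 : σ ≤ τ) (k3 : τ ≤ p.N)
    (h5 : p.lo + 20 * p.w ≤ p.d u σ) : ∃ (s : ℝ) (j : ℕ) (y Y : ℝ),
      (σ * p.h ≤ s ∧ j ≤ τ ∧ Exc p u θ s j y Y) ∨ TB p u θ k0 σ τ s j y Y := by
  have w0 := H.hw
  have y0 := H.y0
  have h6 : p.d u τ ≤ p.lo := (lev_le_iff H.ρ0).2 ⟨by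
    have := norm_sub_le_norm_sub_add_norm_sub (gm p.a u (τ * p.h) p.y0) c0 p.c
    rw [norm_sub_rev c0] at this
    linarith [(Real.log_le_iff_le_exp (by positivity)).1 h1], (Real.log_le_iff_le_exp H.ρ0).1 H.lo⟩
  obtain ⟨Y1, hY1⟩ := H.tl.φfar (p.lo + 8 * p.w)
  have e1 := hY1 _ ((le_max_left Y1 p.y0).trans
    (gm_im H.a0 u (H.tm0 τ) (y0.trans_le (le_max_right _ _))))
  obtain ⟨Y, hY, e2, e3⟩ := first_level (f := fun y => -p.f u (τ * p.h) y) (le_max_right Y1 p.y0)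
    (H.cont (H.tm0 τ) _).neg (A := -(p.lo + 8 * p.w))
    (neg_le_neg (le_trans h6 (by linarith))) (neg_le_neg e1)
  have e2 := neg_injective e2
  rcases H.flat _ _ Y (H.tm k1) (H.tm k2) (H.tm k3) hY.1 with h | ⟨s, hs, l1, l2⟩
  swap
  · rw [e2] at l2
    obtain ⟨j, j1, X⟩ := H.mk_exc k3 le_rfl (by linarith) hY.1 l2 hs.2
      (le_trans (by linarith) (neg_le_abs _)) l1
    exact ⟨s, j, _, Y, Or.inl ⟨hs.1, j1, X⟩⟩
  have θY : θ * Y ≤ 1 / 100 * Y := mul_le_mul_of_nonneg_right H.θ1 (by linarith [hY.1])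
  have e4 := (abs_le.1 (H.tail (H.tm0 σ) (H.tm k2) (H.tm (k1.trans k2)) hY.1 (by linarith [hY.1]))).1
  obtain ⟨y, hy, e5, -⟩ := first_level hY.1 (H.cont (H.tm0 σ) Y) (A := p.lo + 12 * p.w)
    (le_trans (by linarith) h5) (by linarith)
  have low : ∀ y' ∈ Icc p.y0 Y, p.f u (τ * p.h) y' ≤ p.lo + 8 * p.w := fun y' hy' =>
    neg_le_neg_iff.1 (e3 y' hy')
  rcases H.flat _ _ y le_rfl (H.tm k1) (H.tm (k2.trans k3)) hy.1 with h' | ⟨s, hs, l1, l2⟩
  · exact (H.noB hr h1 h2 h3 h4 k1 k2 k3 hy.1 hy.2 low (by linarith) e5 h').elim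
  rw [e5] at l2
  obtain ⟨j, j1, X⟩ := H.mk_exc (k2.trans k3) (by linarith) le_rfl hy.1 l2 hs.2
    (le_trans (by linarith) (le_abs_self _)) l1
  exact ⟨s, j, y, Y, Or.inr ⟨hs.1, hs.2, j1, X, l1, hy.2, low, by linarith, e5⟩⟩

theorem Cx.disj (H : Cx p u η θ k0) {σ τ σ' τ' j' : ℕ} {s' y Y y' Y' : ℝ}
    (A : TB p u θ k0 σ τ s j y Y) (B : TB p u θ k0 σ' τ' s' j' y' Y') (h1 : σ ≤ τ) (h2 : τ ≤ σ')
    (h3 : σ' ≤ p.N) : j * p.h ≤ s' ∨ j' * p.h ≤ s := by
  have w0 := H.hw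
  have y0 := H.y0
  have h0 := H.good.h_pos
  have s0 := (H.tm0 k0).trans A.s1
  have s0' := (H.tm0 k0).trans B.s1
  have hY := A.exc.hY.trans A.yY
  have sN := A.s2.trans (H.tm (h1.trans (h2.trans h3)))
  rcases le_or_gt (σ * p.h) s' with h4 | h4
  · exact Or.inl ((H.tm A.le).trans h4)
  have θy : θ * y ≤ 1 / 100 * y := mul_le_mul_of_nonneg_right H.θ1 (by linarith [A.exc.hY])
  have θy' : θ * y' ≤ 1 / 100 * y' := mul_le_mul_of_nonneg_right H.θ1 (by linarith [B.exc.hY])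
  have e1 := H.tail (H.tm0 τ) (H.tm h2) (B.s1.trans B.s2) B.exc.hY (by
    linarith [Lz_sub u.cont (h4.le.trans (H.tm h1)) (H.tm h2), B.sz, B.exc.hY])
  have e2 : Y ≤ y' := le_of_not_gt fun h => by
    linarith [A.low y' ⟨B.exc.hY, h.le⟩, (abs_le.1 e1).2, B.mid]
  have e3 := (abs_le.1 (B.exc.fl Y ⟨hY, e2⟩)).1
  rcases le_total s s' with h5 | h5
  · have e4 := H.tail s0' h4.le (A.s1.trans A.s2) hY (by
      linarith [Lz_sub u.cont h5 h4.le, A.sz, A.yY, A.exc.hY])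
    linarith [(abs_le.1 e4).1, A.top]
  have e4 := H.tail s0 A.s2 (A.s1.trans A.s2) hY (by linarith [A.sz, A.yY, A.exc.hY])
  have e5 : Y ≤ 16 * (p.y0 + Lz u.1 s' s) := le_of_not_gt fun h => by
    linarith [(abs_le.1 (H.tail s0' h5 A.s1 hY (by linarith))).1, (abs_le.1 e4).1, A.top]
  obtain ⟨v, hv, e6, -⟩ := H.tl.head s0' h5 A.s1 sN (by norm_num) hY e5
  have e6 : |p.f u s Y - p.f u v p.y0| ≤ 6 * 16 * 62 ^ 2 := e6
  have v0 := s0'.trans hv.1
  obtain ⟨i, i1, i2⟩ : ∃ i : ℕ, i * p.h ≤ v ∧ v < (i + 1) * p.h :=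
    ⟨⌊v / p.h⌋₊, (le_div_iff₀ h0).1 (Nat.floor_le (div_nonneg v0 h0.le)),
      (div_lt_iff₀ h0).1 (Nat.lt_floor_add_one _)⟩
  have e7 : |p.d u i - p.f u v p.y0| ≤ 1 / 2 := H.step (H.tm0 i) i1 (hv.2.trans sN) (by linarith)
  have e8 : s' < i * p.h := lt_of_not_ge fun h => by
    linarith [(abs_le.1 (H.step s0' hv.1 (hv.2.trans sN) (by linarith))).2, (abs_le.1 e6).1,
      (abs_le.1 (B.exc.fl _ ⟨le_rfl, B.exc.hY⟩)).1, (abs_le.1 e4).1, A.top]
  refine Or.inr ((H.tm (B.exc.fst.2 ⟨e8, le_trans ?_ (neg_le_abs _)⟩)).trans (i1.trans hv.2))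
  linarith [(abs_le.1 e7).2, (abs_le.1 e6).1, (abs_le.1 e4).1, A.top]

end CrcB

open CrcB in
theorem crc_stmt58 {a : ℝ} (h : Rg a) (hF : FlatStmt a) : CrcStmt a := by
  classical
  intro K K2 C6 w0 θ F
  obtain ⟨-, -, -, θ0, θ1⟩ := F.pos
  refine ⟨max (max w0 400000) (100 * (110 + 2 * Real.log (8 / θ))), ?_⟩
  rintro p u η r R c0 k0 m b rfl e2 e6 hw hG hr hη hρ hlo h1 hR h2 hk hd h3 ⟨σ, τ, c1, c2⟩ hb
  obtain ⟨w1, w3⟩ := max_le_iff.1 hw
  obtain ⟨w1, w2⟩ := max_le_iff.1 w1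
  have tm0 : ∀ k : ℕ, 0 ≤ k * p.h := fun k => mul_nonneg (Nat.cast_nonneg k) hG.h_pos.le
  have H : Cx p u η θ k0 := ⟨h.1.le, h.le_one, hG, hρ, hlo, θ0, θ1, hd, w2,
    fun s0 t y k1 k2 k3 k4 => (hF u p.c p.y0 η p.h _ p.ρ s0 t y θ hG hρ ((tm0 k0).trans k1) k2 k3
      (fun h' => hd (LoeAM.alive_mono k1 h')) θ0 (by linarith) k4).imp_right
      fun ⟨s, hs, l1, l2⟩ => ⟨s, hs, l1, fun y' hy' => (l2 y' hy').trans (by linarith)⟩,
    fun k s j d Y b k1 k2 k3 X => (F.facts p u η k rfl e2 e6 w1 hG hρ hlo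
      (fun h' => hd (LoeAM.alive_mono (mul_le_mul_of_nonneg_right (Nat.cast_le.2 k1) hG.h_pos.le) h'))
      k2).2.2.2.2 s Y d j b k3 X.le X.d1 X.d2 X.hY X.fl X.fst X.sz⟩
  have ord : ∀ i i', i < i' → i' < m → τ i ≤ σ i' := fun i i' k1 k2 => by
    induction i', k1 using Nat.le_induction with
    | base => exact c2 i k2
    | succ n hn ih => exact (ih (by omega)).trans ((c1 n (by omega)).1.trans (c2 n k2))
  have k0t : k0 ≤ τ 0 := by
    rcases h3 with rfl | h3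
    · exact Nat.zero_le _
    obtain ⟨-, t1, -, t2⟩ := c1 0 (by omega)
    obtain ⟨z, z1, z2⟩ := dead_near H.a0 u.cont (tm0 (τ 0)) H.y0
      fun y hy => hG.tail _ ⟨tm0 _, H.tm t1⟩ y hy p.y0 ⟨H.y0, le_rfl⟩
    have z3 := norm_sub_le_norm_sub_add_norm_sub z (gm p.a u (τ 0 * p.h) p.y0) c0
    have z2 : ‖z - gm p.a u (τ 0 * p.h) p.y0‖ ≤ η := z2
    exact le_of_not_gt fun k => z1 (LoeAM.alive_mono (H.tm (show τ 0 ≤ k0 - 1 by omega))
      (h3 z (mem_closedBall_iff_norm.2 (by linarith))))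
  have k0s : ∀ i ∈ Finset.Ico 1 m, k0 ≤ σ i := fun i hi =>
    k0t.trans (ord 0 i (Finset.mem_Ico.1 hi).1 (Finset.mem_Ico.1 hi).2)
  have ex : ∀ i, ∃ (s : ℝ) (j : ℕ) (y Y : ℝ), i ∈ Finset.Ico 1 m →
      (σ i * p.h ≤ s ∧ j ≤ τ i ∧ Exc p u θ s j y Y) ∨ TB p u θ k0 (σ i) (τ i) s j y Y := fun i => by
    by_cases hi : i ∈ Finset.Ico 1 m
    swap
    · exact ⟨0, 0, 0, 0, fun h => absurd h hi⟩
    obtain ⟨b1, b2, b3, b4⟩ := c1 i (Finset.mem_Ico.1 hi).2
    obtain ⟨s, j, y, Y, k⟩ := H.epi hr h1 h2 h3 b4 (k0s i hi) b1 b2 ((le_lev_iff H.ρ0).2 (Or.inl (by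
      linarith [norm_sub_le_norm_sub_add_norm_sub (gm p.a u (σ i * p.h) p.y0) p.c c0])))
    exact ⟨s, j, y, Y, fun _ => k⟩
  choose s j y Y hx using ex
  have cd := Finset.card_filter_add_card_filter_not (s := Finset.Ico 1 m)
    fun i => TB p u θ k0 (σ i) (τ i) (s i) (j i) (y i) (Y i)
  rw [Nat.card_Ico] at cd
  by_cases hc : b ≤ ((Finset.Ico 1 m).filter
    fun i => TB p u θ k0 (σ i) (τ i) (s i) (j i) (y i) (Y i)).card
  · obtain ⟨G, g1, rfl⟩ := Finset.exists_subset_card_eq hc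
    have g2 := fun e he => Finset.mem_filter.1 (g1 (x := e) he)
    have key : ∀ e ∈ G, ∀ e' ∈ G, e < e' → j e * p.h ≤ s e' ∨ j e' * p.h ≤ s e :=
      fun e he e' he' l =>
        have m1 := (Finset.mem_Ico.1 (g2 e' he').1).2
        H.disj (g2 e he).2 (g2 e' he').2 (c1 e (l.trans m1)).1 (ord e e' l m1)
          ((c1 e' m1).1.trans (c1 e' m1).2.1)
    exact H.chain s j G (fun e he => ⟨_, _, (g2 e he).2.exc⟩) (fun e he e' he' ne =>
      ne.lt_or_gt.elim (key e he e' he') fun l => (key e' he' e he l).symm) k0 le_rfl hk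
      fun e he => (g2 e he).2.s1
  · obtain ⟨G, g1, rfl⟩ := Finset.exists_subset_card_eq (s := (Finset.Ico 1 m).filter
      fun i => ¬ TB p u θ k0 (σ i) (τ i) (s i) (j i) (y i) (Y i)) (n := b) (by omega)
    have g2 := fun e he => Finset.mem_filter.1 (g1 (x := e) he)
    have g3 := fun e he => (hx e (g2 e he).1).resolve_right (g2 e he).2
    have key : ∀ e ∈ G, ∀ e' ∈ G, e < e' → j e * p.h ≤ s e' := fun e he e' he' l =>
      (H.tm ((g3 e he).2.1.trans (ord e e' l (Finset.mem_Ico.1 (g2 e' he').1).2))).trans (g3 e' he').1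
    exact H.chain s j G (fun e he => ⟨_, _, (g3 e he).2.2⟩) (fun e he e' he' ne =>
      ne.lt_or_gt.imp (key e he e' he') (key e' he' e he)) k0 le_rfl hk
      fun e he => (H.tm (k0s e (g2 e he).1)).trans (g3 e he).1

end Pool.Agent.MP_990230_pr.K8

end
end MrgPart0

-- ======== part 1: formerly Pool.Agent.MP_990230_pr.k8.Main
section MrgPart1

-- ======== part 0: formerly Pool.Agent.MP_990230_pr.k8.Cr0
section MrgPart0

/-! # SLE8: exponential tail of the number of crossings for one modulus (helper48) -/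

open Set MeasureTheory Filter Complex
open scoped ENNReal Topology

noncomputable section

namespace Pool.Agent.MP_990230_pr.K8

theorem cr0_stmt {a : ℝ} (ha : Rg a) (hD : PhDStmt a) (hG : PhGStmt a) (hC : CrcStmt a) :
    CR0 (SS a) := by
  obtain ⟨K, k1, hG⟩ := hG
  obtain ⟨K2, C6, w0, θ, F⟩ := hD K k1
  obtain ⟨w1, hG⟩ := hG K2 C6 w0 θ F
  obtain ⟨w2, hC⟩ := hC K K2 C6 w0 θ F
  obtain ⟨w, a1, a2, a3⟩ : ∃ w : ℝ, w1 ≤ w ∧ w2 ≤ w ∧ 0 < w :=
    ⟨max (max w1 w2) 1, (le_max_left _ _).trans (le_max_left _ _),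
      (le_max_right _ _).trans (le_max_left _ _), one_pos.trans_le (le_max_right _ _)⟩
  have e0 := Real.exp_pos (20 * w)
  refine ⟨3 * Real.exp (20 * w) + 2, 1 / 2, 2 * Real.exp 1, by linarith, by norm_num, by positivity,
    fun c r m hr _ => bnd_of hr fun X hη => ?_⟩
  rw [X.stp_vl _ fun N x => Cr x N m c r ((3 * Real.exp (20 * w) + 2) * r)]
  rcases Nat.eq_zero_or_pos m with rfl | hm
  · refine (X.vl_le_one _ _ _ _).trans (ENNReal.one_le_ofReal.2 ?_)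
    have := Real.add_one_le_exp 1
    simp only [Nat.cast_zero, mul_zero, neg_zero, Real.exp_zero]
    linarith
  have num : 2 * Real.exp (-(((m - 1) / 2 : ℕ) : ℝ)) ≤
      2 * Real.exp 1 * Real.exp (-(1 / 2 * (m : ℝ))) := by
    have c1 : m ≤ 2 * ((m - 1) / 2) + 2 := by omega
    have c2 : (m : ℝ) ≤ 2 * (((m - 1) / 2 : ℕ) : ℝ) + 2 := by exact_mod_cast c1
    rw [mul_assoc, ← Real.exp_add]
    gcongr
    linarith
  refine le_trans ?_ (ENNReal.ofReal_le_ofReal num)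
  have r3 : 0 < 3 * r := by linarith
  have start : ∀ k, k ≤ X.N → ∀ u, (k = 0 ∨ ∀ z ∈ Metric.closedBall c (2 * r),
      Alive a u.1 z ((k - 1 : ℕ) * X.h)) → ∀ c' ∈ Metric.closedBall c (2 * r),
      ¬ Alive a u.1 c' (k * X.h) → X.vl (ring c r ((3 * Real.exp (20 * w) + 2) * r))
        (fun u => Cr (X.x u) X.N m c r ((3 * Real.exp (20 * w) + 2) * r)) k u ≤
        ENNReal.ofReal (2 * Real.exp (-(((m - 1) / 2 : ℕ) : ℝ))) := by
    intro k hk u b1 c' b2 b3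
    have b4 := mem_closedBall_iff_norm.1 b2
    refine hG X ⟨a, X.y0, X.h, X.N, c', 3 * r, Real.log (3 * r), w, K2, C6⟩ _ _ rfl rfl rfl rfl rfl
      rfl a1 (by show _ ≤ 3 * r; linarith) le_rfl (measurableSet_ring _ _ _) (fun z z1 z2 => ?_)
      k _ u hk b3 fun v hv hP => ?_
    · have z1 : Real.log (3 * r) + w ≤ lev c' (3 * r) z := z1
      have z2 : lev c' (3 * r) z ≤ Real.log (3 * r) + 19 * w := z2
      have c1 := ((lev_le_iff r3).1 z2).1
      have c2 : Real.exp (19 * w) < Real.exp (20 * w) := Real.exp_lt_exp.2 (by linarith)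
      have c3 : 1 < Real.exp w := Real.one_lt_exp_iff.2 a3
      rw [Real.exp_add, Real.exp_log r3] at c1
      have c4 := mul_lt_mul_of_pos_left c2 r3
      have c5 := mul_lt_mul_of_pos_left c3 r3
      have c6 := norm_sub_le_norm_sub_add_norm_sub z c' c
      have c7 := norm_sub_le_norm_sub_add_norm_sub z c c'
      rw [norm_sub_rev c c'] at c7
      rcases (le_lev_iff r3).1 z1 with e | e
      · rw [Real.exp_add, Real.exp_log r3] at e
        exact ⟨by linarith, by linarith⟩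
      · rw [Real.exp_add, Real.exp_log r3] at e
        linarith
    · refine hC ⟨a, X.y0, X.h, X.N, c', 3 * r, Real.log (3 * r), w, K2, C6⟩ _ X.η r _ c k m _ rfl
        rfl rfl a2 (X.good _ hv) hr hη (by show _ ≤ 3 * r; linarith) le_rfl le_rfl ?_ b4 hk
        (fun h => b3 ((alive_cat_le ha.pos (X.tm_nonneg k) le_rfl u v _).1 h))
        (b1.imp_right fun h z hz => (alive_cat_le ha.pos (X.tm_nonneg _)
          (X.tm_le (Nat.sub_le k 1)) u v _).2 (h z hz)) hP (by omega)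
      show Real.exp (Real.log (3 * r) + 20 * w) + 2 * r ≤ _
      rw [Real.exp_add, Real.exp_log r3]
      linarith
  have key : ∀ d k, k + d = X.N → ∀ u, (k = 0 ∨ ∀ z ∈ Metric.closedBall c (2 * r),
      Alive a u.1 z ((k - 1 : ℕ) * X.h)) → X.vl (ring c r ((3 * Real.exp (20 * w) + 2) * r))
        (fun u => Cr (X.x u) X.N m c r ((3 * Real.exp (20 * w) + 2) * r)) k u ≤
        ENNReal.ofReal (2 * Real.exp (-(((m - 1) / 2 : ℕ) : ℝ))) := by
    intro d
    induction d with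
    | zero =>
      intro k hk u b1
      by_cases b2 : ∀ z ∈ Metric.closedBall c (2 * r), Alive a u.1 z (k * X.h)
      · rw [X.vl_eq_zero _ fun v hv hP => ?_]
        · exact zero_le
        obtain ⟨_, t, k1, _⟩ := hP
        obtain ⟨_, t1, _, t2⟩ := k1 0 hm
        have g := X.good _ hv
        obtain ⟨z, z1, z2⟩ := dead_near ha.pos (cat (k * X.h) u v).cont (X.tm_nonneg (t 0))
          X.y0_pos fun y hy => g.tail _ ⟨X.tm_nonneg _, X.tm_le t1⟩ y hy X.y0 ⟨X.y0_pos, le_rfl⟩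
        have z3 := norm_sub_le_norm_sub_add_norm_sub z (X.x (cat (k * X.h) u v) (t 0)) c
        have z2 : ‖z - X.x (cat (k * X.h) u v) (t 0)‖ ≤ X.η := z2
        exact z1 (LoeAM.alive_mono (X.tm_le (show t 0 ≤ k by omega))
          ((alive_cat_le ha.pos (X.tm_nonneg k) le_rfl u v _).2
            (b2 z (mem_closedBall_iff_norm.2 (by linarith)))))
      · push Not at b2
        obtain ⟨c', c1, c2⟩ := b2
        exact start k (by omega) u b1 c' c1 c2
    | succ d ih =>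
      intro k hk u b1
      by_cases b2 : ∀ z ∈ Metric.closedBall c (2 * r), Alive a u.1 z (k * X.h)
      · exact val_succ_le X.isW (by omega) (Eventually.of_forall fun v =>
          ih (k + 1) (by omega) _ (Or.inr fun z hz =>
            (alive_cat_le ha.pos (X.tm_nonneg k) le_rfl u v _).2 (b2 z hz)))
      · push Not at b2
        obtain ⟨c', c1, c2⟩ := b2
        exact start k (by omega) u b1 c' c1 c2
  exact key X.N 0 (by omega) default (Or.inl rfl)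

end Pool.Agent.MP_990230_pr.K8

end
end MrgPart0

-- ======== part 1: formerly Pool.Agent.MP_990230_pr.k8.Shg
section MrgPart1

/-! # SLE8: the value of a clean window -/

open Set Complex MeasureTheory
open scoped ENNReal

noncomputable section

namespace Pool.Agent.MP_990230_pr.K8

namespace CL

open SHM

theorem seq_cost (hS : SeqStmt) {p : Stp} (hp : p.Ok) {R : Set ℂ} (hR : MeasurableSet R) {Y : Pay}
    (hY : ∀ N x, Y N x ≤ 1) {Gt St Md : ℕ → Set ℂ} {Q : ℕ} (hsub : ∀ q < Q, St q ⊆ R ∧ Md q ⊆ R)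
    (Ev : ℕ → Lb → Pth → ℝ → ℝ → Prop) (cst : ℕ → Lb → ℝ) {C l' T : ℝ} (hC : 0 ≤ C) (hl : 0 ≤ l')
    (hprob : ∀ q < Q, ∀ (b : Lb) (u : Pth) (s : ℝ), 0 ≤ s →
      p.μ {v | ∃ τ, 0 ≤ τ ∧ ∃ v', Ev q b (cat s u (cat τ v v')) s (s + τ)} ≤
        ENNReal.ofReal (C * Real.exp (-(cst q b * l'))))
    (hdet : ∀ u ∈ p.G, Y p.N (p.x u) ≠ 0 → ∃ g s t : ℕ → ℕ, IsSeq (p.x u) Gt St Md Q g s t ∧
      (∀ q < Q, t q ≤ p.N) ∧ ∃ f : ℕ → Lb, (∀ q < Q, Ev q (f q) u (s q * p.h) (t q * p.h)) ∧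
        T ≤ ∑ q ∈ Finset.range Q, cst q (f q)) :
    p.vl R Y ≤ ENNReal.ofReal ((8 * C) ^ Q * Real.exp (-(T * l'))) := by
  classical
  have hh := hp.h
  let ext : (Fin Q → Lb) → ℕ → Lb := fun f q => if h : q < Q then f ⟨q, h⟩ else default
  refine (hS p R Y Gt St Md Q (Fin Q → Lb)
    (Finset.univ.filter fun f => T ≤ ∑ q ∈ Finset.range Q, cst q (ext f q))
    (fun f q u s t => ∃ v, Ev q (ext f q) (cat (t * p.h) u v) (s * p.h) (t * p.h))
    (fun f q => ENNReal.ofReal (C * Real.exp (-(cst q (ext f q) * l')))) hp hR hsub hY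
    ?_ ?_ ?_).trans ?_
  · rintro f q u v s t - ⟨v', h⟩
    exact ⟨v', by rwa [cat_cat_le _ _ _ le_rfl] at h⟩
  · intro f _ q hq u s
    refine le_trans (measure_mono ?_) (hprob q hq _ u (s * p.h) (by positivity))
    rintro v ⟨t, ht, v', h⟩
    have e : (t : ℝ) * p.h = s * p.h + (t - s : ℕ) * p.h := by rw [Nat.cast_sub ht.le]; ring
    refine ⟨(t - s : ℕ) * p.h, by positivity, v', ?_⟩
    rwa [cat_grid hh.le ht.le, e] at h
  · intro u hu h
    obtain ⟨g, s, t, h1, h2, f, h3, h4⟩ := hdet u hu h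
    have e : ∀ q < Q, ext (fun j => f j) q = f q := fun q hq => dif_pos hq
    refine ⟨g, s, t, h1, h2, fun j => f j, Finset.mem_filter.2 ⟨Finset.mem_univ _, ?_⟩,
      fun q hq => ⟨sft (t q * p.h) u, ?_⟩⟩
    · rwa [Finset.sum_congr rfl fun q hq => by rw [e q (Finset.mem_range.1 hq)]]
    · rw [cat_sft _ (by positivity), e q hq]; exact h3 q hq
  · refine (Finset.sum_le_card_nsmul _ _ (ENNReal.ofReal (C ^ Q * Real.exp (-(T * l'))))
      fun f hf => ?_).trans ?_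
    · rw [← ENNReal.ofReal_prod_of_nonneg fun _ _ => by positivity, Finset.prod_mul_distrib,
        Finset.prod_const, Finset.card_range, ← Real.exp_sum, Finset.sum_neg_distrib,
        ← Finset.sum_mul]
      have := (Finset.mem_filter.1 hf).2
      gcongr
    · have c : (Finset.univ.filter fun f : Fin Q → Lb =>
          T ≤ ∑ q ∈ Finset.range Q, cst q (ext f q)).card ≤ 8 ^ Q :=
        (Finset.card_filter_le _ _).trans (by simp)
      rw [nsmul_eq_mul, mul_pow, mul_assoc, ENNReal.ofReal_mul (p := 8 ^ Q) (by positivity)]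
      gcongr
      rw [ENNReal.ofReal_pow (by norm_num), ENNReal.ofReal_ofNat]
      exact_mod_cast c

theorem pos_pos {sg : ℕ → ℝ} {B n : ℕ} (hn : n < B) (i : ℕ) : pos sg B (pos sg B n i) i = n := by
  unfold pos; split_ifs <;> omega

theorem sum_blocks (sg : ℕ → ℝ) {B : ℕ} (hB : 0 < B) (E : ℕ) {F : ℕ → ℕ → ℝ}
    (hF : ∀ i κ, 0 ≤ F i κ) {Bad : Finset ℕ} {D y : ℝ} (hD : (Bad.card : ℝ) ≤ D) (hy : 0 ≤ y)
    (h : ∀ κ < B, κ ∉ Bad → y ≤ ∑ i ∈ Finset.range E, F i κ) :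
    (B - D) * y ≤ ∑ q ∈ Finset.range (E * B), F (q / B) (pos sg B (q % B) (q / B)) := by
  classical
  have e : ∀ E, ∑ q ∈ Finset.range (E * B), F (q / B) (pos sg B (q % B) (q / B)) =
      ∑ i ∈ Finset.range E, ∑ κ ∈ Finset.range B, F i κ := by
    intro E
    induction E with
    | zero => simp
    | succ E ih =>
      rw [Nat.succ_mul, Finset.sum_range_add, ih, Finset.sum_range_succ]
      congr 1
      rw [Finset.sum_congr rfl (g := fun n => F E (pos sg B n E)) fun n hn => by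
        have := Finset.mem_range.1 hn
        rw [mul_comm E B, Nat.mul_add_div hB, Nat.mul_add_mod, Nat.div_eq_of_lt this,
          Nat.mod_eq_of_lt this, add_zero]]
      unfold pos
      split_ifs
      · rfl
      · exact Finset.sum_range_reflect (F E) B
  rw [e, Finset.sum_comm]
  calc (B - D) * y ≤ (Finset.range B \ Bad).card * y := by
        have := Finset.le_card_sdiff Bad (Finset.range B)
        rw [Finset.card_range] at this
        have h2 : (B : ℝ) ≤ (Finset.range B \ Bad).card + Bad.card := by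
          exact_mod_cast (by omega : B ≤ (Finset.range B \ Bad).card + Bad.card)
        gcongr
        linarith
    _ ≤ ∑ κ ∈ Finset.range B \ Bad, ∑ i ∈ Finset.range E, F i κ := by
        rw [← nsmul_eq_mul]
        exact Finset.card_nsmul_le_sum _ _ _ fun κ hκ =>
          h κ (Finset.mem_range.1 (Finset.mem_sdiff.1 hκ).1) (Finset.mem_sdiff.1 hκ).2
    _ ≤ _ := Finset.sum_le_sum_of_subset_of_nonneg Finset.sdiff_subset fun κ _ _ =>
        Finset.sum_nonneg fun i _ => hF i κ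

theorem sum_ind {s u : Finset ℕ} (h : u ⊆ s) :
    ∑ i ∈ s, (if i ∈ u then (1 : ℝ) else 0) = u.card := by
  rw [Finset.sum_ite_mem, Finset.inter_eq_right.2 h]; simp

theorem block_cost {s u p q : Finset ℕ} (hu : u ⊆ s) (hp : p ⊆ s) (hq : q ⊆ s)
    (h : u.card ≤ p.card + q.card) (hx : ∀ i ∈ s, i ∈ u → ¬ (i ∈ p ∧ i ∈ q)) {eU eS eF c : ℝ}
    (hF : 0 ≤ eF) (h1 : c ≤ eS) (h2 : c ≤ eU + eF) :
    c * u.card ≤ ∑ i ∈ s, cost eU eS eF (decide (i ∈ u), decide (i ∈ p), decide (i ∈ q)) := by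
  have h3 : (u.card : ℝ) ≤ p.card + q.card := by exact_mod_cast h
  calc c * u.card ≤ c * u.card + eF * (p.card + q.card - u.card) := by nlinarith
    _ = ∑ i ∈ s, (c * (if i ∈ u then (1 : ℝ) else 0) + eF * ((if i ∈ p then (1 : ℝ) else 0) +
          (if i ∈ q then (1 : ℝ) else 0) - (if i ∈ u then (1 : ℝ) else 0))) := by
        rw [Finset.sum_add_distrib, ← Finset.mul_sum, ← Finset.mul_sum, Finset.sum_sub_distrib,
          Finset.sum_add_distrib, sum_ind hu, sum_ind hp, sum_ind hq]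
    _ ≤ _ := Finset.sum_le_sum fun i hi => by
        have := hx i hi
        by_cases a1 : i ∈ u <;> by_cases a2 : i ∈ p <;> by_cases a3 : i ∈ q <;>
          simp [cost, a1, a2, a3] at this ⊢ <;> linarith

/-- the frame of the estimate. -/
structure Fr (a ms p C r w M l l' : ℝ) (m B L : ℕ) : Prop where
  rg : Rg a
  pic : PicPS a ms p 992 C
  one : ∀ μ, IsW μ → ∀ y0 η h (u : Pth) (c : ℂ) (s ρ r : ℝ), 0 ≤ s → 0 < r → η ≤ r →
    10 * η ≤ ρ → ρ ≤ c.im → 0 < ρ →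
    μ {v | ∃ t, s ≤ t ∧ Good a y0 η h t (cat s u v) ∧ (∀ q ∈ Icc 0 s, ρ ≤ ‖gm a u q y0 - c‖) ∧
      ‖gm a (cat s u v) t y0 - c‖ ≤ r} ≤ ENNReal.ofReal (C * (r / ρ) ^ del a)
  C1 : 1 ≤ C
  ms0 : 0 ≤ ms
  p0 : 0 ≤ p
  nm : Nm r w M l B L
  m1 : 1 ≤ m
  B0 : 0 < B
  big : 1000 * 62 ^ 5 ≤ w
  long : (4 * m + 20) * (4 * w) ≤ l
  l0 : 0 ≤ l'
  l1 : l' ≤ l - 32 * w

variable {a ms p C r w M l l' : ℝ} {m B L e : ℕ} {c : ℂ}

theorem Fr.win (F : Fr a ms p C r w M l l' m B L) (X : Ctx a) {u : Pth} (hu : u ∈ X.G)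
    (hη : X.η ≤ r) (he : e ≤ 1) {c' : ℂ} {Tm : ℕ → ℝ} {cc : ℕ → ℕ → ℝ} {i0 : ℕ}
    (hd : ¬ Alive a u.1 c' (Tm i0))
    (h : Epi (fun i t => ps (lev c' (20 * r)) (sgn e) M B l i (Fm a u.1 t (X.y0 * I))) (sgn e)
      (2 * m - 1 + e) B l (2 * w + 1) (X.N * X.h) Tm cc) :
    Win a u.1 (lev c' (20 * r)) (Lz u.1) X.y0 (X.N * X.h) 62 (sgn e) M l (2 * w + 1) (4 * w)
      (2 * m - 1 + e) B Tm cc i0 := by
  have g := X.good u hu
  have hw := F.big
  refine ⟨tl F.rg.1.le F.rg.le_one u.cont u.zero X.y0_pos g.eta_pos g.tail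
    (by linarith [F.nm.r_pos]) hd le_rfl, h, by linarith, by linarith, le_trans ?_ F.long⟩
  have : ((2 * m - 1 + e : ℕ) : ℝ) ≤ 2 * m := by
    exact_mod_cast (by have := F.m1; omega : 2 * m - 1 + e ≤ 2 * m)
  exact mul_le_mul_of_nonneg_right (by linarith) (by linarith)

theorem Fr.lab (F : Fr a ms p C r w M l l' m B L) {P : Measure Pth} (hW : IsW P) {s y0 Λ : ℝ}
    {u : Pth} (hs : 0 ≤ s) (hy : 0 < y0) (hΛ : 1 ≤ Λ) (hΛ' : Λ ≤ 2) {c'' : ℂ}
    (hG : Conf Λ fun w => Fm a u.1 s w - c'') (i : ℕ) {n : ℕ} (hn : n < B) (b : Lb) :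
    P {v | ∃ τ, 0 ≤ τ ∧ ∃ (v' : Pth) (c' : ℂ), ‖c' - c''‖ ≤ 20 * r / 5 ∧
        LabE a (cat s u (cat τ v v')).1 (ps (lev c' (20 * r)) (sgn e) M B l i) y0 l (4 * w) s
          (s + τ) (n * l) b} ≤
      ENNReal.ofReal (C * Real.exp (-(cost (alp a / Λ) (ms / 2) (p / 2) b * l'))) := by
  have hw := F.big
  have hl := F.nm.l_ge
  have h1 : ((n : ℝ) + 1) * l ≤ B * l := by
    gcongr
    exact_mod_cast hn
  have h2 := F.long
  have h3 : (0 : ℝ) ≤ m * (4 * w) := by positivity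
  exact labP (H := B * l / 2) F.rg F.pic hW F.C1 F.ms0 F.p0 hs hy (by linarith [F.nm.r_pos])
    (sgn_sg e i) hΛ hΛ' hG (by linarith [F.nm.lo]) (by positivity) (by linarith) (by linarith)
    (by linarith) (by linarith [F.l1]) b

/-- real centre. -/
theorem Fr.real (F : Fr a ms p C r w M l l' m B L) (hS : SeqStmt) (X : Ctx a) (hη : X.η ≤ r)
    (hc : c.im = 0) (hT : 256 * (r * Real.exp (L * w)) ≤ ‖c‖ ∨ 256 * ‖c‖ ≤ r) (hη' : 2 * X.η ≤ r) :
    ∃ E ≤ 2 * m, X.stp.vl (ring c r (r * Real.exp (L * w))) (fun N x => ind (Clean x N m c r w L)) ≤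
      ENNReal.ofReal ((8 * C) ^ (E * B) * Real.exp (-((B - 2 * m) * (alp a * m) * l'))) := by
  classical
  have a0 := F.rg.pos
  have hα : 0 ≤ alp a := by unfold alp; linarith [F.rg.1]
  have hr := F.nm.r_pos
  have hm := F.m1
  have hw := F.nm.w_ge
  have hR : r ≤ r * Real.exp (L * w) := le_mul_of_one_le_right hr.le (Real.one_le_exp (by positivity))
  obtain ⟨e, he, h0, h1⟩ : ∃ e ≤ 1, (e = 0 → 256 * (r * Real.exp (L * w)) ≤ ‖c‖) ∧
      (e = 1 → 256 * ‖c‖ ≤ r) := by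
    rcases hT with h | h
    · exact ⟨0, zero_le_one, fun _ => h, by simp⟩
    · exact ⟨1, le_rfl, by simp, fun _ => h⟩
  refine ⟨2 * m - 1 + e, by omega, seq_cost hS (X.ok a0) (measurableSet_ring _ _ _)
    (fun _ _ => ind_le_one _) (fun q _ => F.nm.sub (e := e) F.B0 q)
    (fun q b W s t => LabE a W.1 (ps (lev c (20 * r)) (sgn e) M B l (q / B)) X.y0 l (4 * w) s t
      ((q % B : ℕ) * l) b) (fun _ b => cost (alp a / 1) (ms / 2) (p / 2) b)
    (Gt := Gt c r (r * Real.exp (L * w)) e B) (by linarith [F.C1]) F.l0 ?_ ?_⟩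
  · intro q _ b u s hs
    refine le_trans (measure_mono ?_) (F.lab (e := e) X.isW hs X.y0_pos le_rfl one_le_two
      (conf_Fm_one a0 u.cont hs hc.le) (q / B) (Nat.mod_lt q F.B0) b)
    rintro v ⟨τ, hτ, v', h⟩
    exact ⟨τ, hτ, v', c, by simp; positivity, h⟩
  · intro u hu hY
    have hcl : Clean (X.x u) X.N m c r w L := by_contra fun h => hY (ind_neg h)
    have n0 : ‖X.x u 0‖ ≤ X.η := ((X.ok a0).reg u hu).zero
    have s0 : Sd c r (r * Real.exp (L * w)) e 0 (X.x u 0) := by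
      unfold Sd
      split_ifs with d
      · linarith [h0 (by omega), norm_sub_norm_le c (X.x u 0), norm_sub_rev c (X.x u 0)]
      · linarith [h1 (by omega), norm_sub_le (X.x u 0) c, norm_nonneg c]
    obtain ⟨g, G, cc, k1, k2, -, k4⟩ := cln X hu F.nm hη hm he F.B0 s0 hcl
    have W := F.win (i0 := 0) X hu hη he (fun h => absurd h.1 (by rw [hc]; exact lt_irrefl _))
      (k4 c (by simp; positivity))
    have sl : sgn e (2 * m - 1 + e - 1) = -1 := if_pos (by omega)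
    obtain ⟨Bad, b1, b2⟩ : ∃ Bad : Finset ℕ, Bad.card ≤ 2 * m - 1 + e ∧ ∀ κ < B, κ ∉ Bad →
        ∃ s : Finset ℕ, s ⊆ Finset.Ico 0 (2 * m - 1 + e) ∧ m ≤ s.card ∧ ∀ i ∈ s,
          EvU a u.1 (ps (lev c (20 * r)) (sgn e) M B l i) X.y0 (cc i (pos (sgn e) B κ i) * X.h)
            (cc i (pos (sgn e) B κ i + 1) * X.h) (pos (sgn e) B κ i * l) l (4 * w) := by
      have nI : ∀ y : ℝ, ‖y * I - c‖ ^ 2 = c.re ^ 2 + y ^ 2 := fun y => by
        rw [← normSq_eq_norm_sq, normSq_apply]; simp [hc]; ring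
      rcases (show e = 0 ∨ e = 1 by omega) with d | d
      · obtain ⟨Bad, b1, b2⟩ := W.sh_out (by omega) sl (if_pos (by omega)) fun y _ => by
          refine (le_lev_iff (by linarith)).2 (Or.inl ?_)
          have c1 : ‖c‖ ^ 2 = c.re ^ 2 := by rw [← normSq_eq_norm_sq, normSq_apply, hc]; ring
          have c2 : ‖c‖ ≤ ‖y * I - c‖ :=
            le_of_sq_le_sq (by rw [nI, c1]; nlinarith) (norm_nonneg _)
          have c3 := Real.exp_le_exp.2 (show M + B * l / 2 ≤ Real.log r + L * w by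
            linarith [F.nm.hi])
          rw [← F.nm.expR] at c3
          linarith [h0 d]
        exact ⟨Bad, b1, fun κ hκ hb => (b2 κ hκ hb).imp fun s hs => ⟨hs.1, by omega, hs.2.2⟩⟩
      · obtain ⟨Bad, b1, b2⟩ := W.sh_in (by omega) sl (if_neg (by omega)) fun y y' hy hyy =>
          Real.log_le_log (lt_max_of_lt_right (by linarith)) (max_le_max_right _
            (le_of_sq_le_sq (by rw [nI, nI]; nlinarith) (norm_nonneg _)))
        exact ⟨Bad, b1, fun κ hκ hb => (b2 κ hκ hb).imp fun s hs => ⟨hs.1, by omega, hs.2.2⟩⟩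
    choose! s b2 using b2
    let lab : ℕ → ℕ → Lb := fun i κ => (decide (κ < B ∧ κ ∉ Bad ∧ i ∈ s κ), false, false)
    refine ⟨g, _, _, k1, fun q hq => k2 _ ((Nat.div_lt_iff_lt_mul F.B0).2 hq) _
      (Nat.mod_lt q F.B0), fun q => lab (q / B) (pos (sgn e) B (q % B) (q / B)),
      fun q _ => ⟨fun h => ⟨?_, by simp [lab], by simp [lab], by simp [lab]⟩,
        fun _ => ⟨by simp [lab], by simp [lab]⟩⟩, ?_⟩
    · obtain ⟨h2, h3, h4⟩ := of_decide_eq_true h
      have := (b2 _ h2 h3).2.2 _ h4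
      rwa [pos_pos (Nat.mod_lt q F.B0)] at this
    · refine sum_blocks (sgn e) F.B0 _ (F := fun i κ => cost (alp a / 1) (ms / 2) (p / 2) (lab i κ))
        (fun _ _ => cost_nonneg (by positivity) (by linarith [F.ms0]) (by linarith [F.p0]) _)
        (Bad := Bad) (by exact_mod_cast (by omega : Bad.card ≤ 2 * m)) (by positivity)
        fun κ hκ hb => ?_
      obtain ⟨c1, c2, -⟩ := b2 κ hκ hb
      rw [Nat.Ico_zero_eq_range] at c1
      have : ∀ i, cost (alp a / 1) (ms / 2) (p / 2) (lab i κ) =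
          alp a * if i ∈ s κ then 1 else 0 := fun i => by
        by_cases d : i ∈ s κ <;> simp [cost, lab, hκ, hb, d]
      simp only [this]
      rw [← Finset.mul_sum, sum_ind c1]
      gcongr

/-- interior centre. -/
theorem Fr.int (F : Fr a ms p C r w M l l' m B L) (hS : SeqStmt) (hI : ShInt) (X : Ctx a)
    (hη : X.η ≤ r) (hT : 256 * (r * Real.exp (L * w)) ≤ c.im) {cs : ℝ} (h0 : 0 ≤ cs)
    (h1 : cs ≤ ms / 2) (h2 : cs ≤ alp a / 2 + p / 2) :
    X.stp.vl (ring c r (r * Real.exp (L * w))) (fun N x => ind (Clean x N m c r w L)) ≤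
      ENNReal.ofReal ((8 * C) ^ ((2 * m - 1 + 0) * B) *
        Real.exp (-((B - (2 * m + (2 * m) ^ 2)) * (del a + cs * (m - 1)) * l'))) := by
  classical
  have a0 := F.rg.pos
  have hα : 0 ≤ alp a := by unfold alp; linarith [F.rg.1]
  have hδ := del_pos F.rg.1
  have hr := F.nm.r_pos
  have hm := F.m1
  have hw := F.nm.w_ge
  have hl := F.nm.l_ge
  have hR : r ≤ r * Real.exp (L * w) := le_mul_of_one_le_right hr.le (Real.one_le_exp (by positivity))
  have hi : ∀ x, x ≤ 1 → Real.exp (M + B * l / 2 + x) ≤ r * Real.exp (L * w) := fun x hx => by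
    rw [F.nm.expR]; exact Real.exp_le_exp.2 (by linarith [F.nm.hi])
  have lo : ∀ x, 0 ≤ x → 20 * r < Real.exp (M - B * l / 2 + x - 1) := fun x hx => by
    rw [← Real.log_lt_iff_lt_exp (by linarith)]; linarith [F.nm.lo]
  have nB : ∀ q : ℕ, ((q % B : ℕ) + 1 : ℝ) * l ≤ B * l := fun q => by
    gcongr
    exact_mod_cast Nat.mod_lt q F.B0
  refine seq_cost hS (X.ok a0) (measurableSet_ring _ _ _)
    (fun _ _ => ind_le_one _) (fun q _ => F.nm.sub (e := 0) F.B0 q)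
    (fun q b W s t => if q / B = 0 then Good a X.y0 X.η X.h t W ∧ (∀ τ ∈ Icc 0 s,
        Real.exp (M + B * l / 2 - (q % B : ℕ) * l - 1) ≤ ‖gm a W τ X.y0 - c‖) ∧
        ‖gm a W t X.y0 - c‖ ≤ Real.exp (M + B * l / 2 - ((q % B : ℕ) + 1) * l)
      else ∃ c', ‖c' - c‖ ≤ 2 * r ∧ ¬ Alive a W.1 c' s ∧ LabE a W.1
        (ps (lev c' (20 * r)) (sgn 0) M B l (q / B)) X.y0 l (4 * w) s t ((q % B : ℕ) * l) b)
    (fun q b => if q / B = 0 then del a else cost (alp a / 2) (ms / 2) (p / 2) b)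
    (Gt := Gt c r (r * Real.exp (L * w)) 0 B) (by linarith [F.C1]) F.l0 ?_ ?_
  · intro q _ b u s hs
    by_cases d : q / B = 0
    · simp only [if_pos d]
      have n0 : 0 ≤ ((q % B : ℕ) : ℝ) * l := by positivity
      have k1 := lo (B * l - ((q % B : ℕ) + 1) * l + 1) (by linarith [nB q])
      have k2 := lo (B * l - (q % B : ℕ) * l) (by linarith [nB q])
      have k3 := hi (-((q % B : ℕ) * l) - 1) (by linarith)
      refine le_trans (measure_mono ?_) ((F.one X.μ X.isW X.y0 X.η X.h u c s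
        (Real.exp (M + B * l / 2 - (q % B : ℕ) * l - 1))
        (Real.exp (M + B * l / 2 - ((q % B : ℕ) + 1) * l)) hs (Real.exp_pos _)
        (hη.trans (by ring_nf at k1 ⊢; linarith)) (by ring_nf at k2 ⊢; linarith)
        (by ring_nf at k3 hT hR ⊢; linarith) (Real.exp_pos _)).trans ?_)
      · rintro v ⟨τ, hτ, v', g1, g2, g3⟩
        rw [← cat_assoc u v v' hs hτ] at g1 g3
        refine ⟨s + τ, by linarith, (good_cat a0 _ _ le_rfl).1 g1, fun q hq => ?_, ?_⟩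
        · rw [← gm_cat_le a0 u _ hq.1 hq.2]; exact g2 q hq
        · rwa [gm_cat_le a0 _ _ (by linarith) le_rfl] at g3
      · rw [← Real.exp_sub, ← Real.exp_mul]
        have := F.C1
        have := F.l1
        gcongr
        nlinarith
    · simp only [if_neg d]
      by_cases ex : ∃ c'', ‖c'' - c‖ ≤ 2 * r ∧ ¬ Alive a u.1 c'' s
      · obtain ⟨c'', e1, e2⟩ := ex
        refine le_trans (measure_mono ?_) (F.lab (e := 0) X.isW hs X.y0_pos one_le_two le_rfl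
          (conf_Fm a0 u.cont hs e2) (q / B) (Nat.mod_lt q F.B0) b)
        rintro v ⟨τ, hτ, v', c', g1, -, g3⟩
        refine ⟨τ, hτ, v', c', ?_, g3⟩
        linarith [norm_sub_le_norm_sub_add_norm_sub c' c c'', norm_sub_rev c c'']
      · refine le_trans (le_of_eq (measure_mono_null ?_ measure_empty)) zero_le
        rintro v ⟨τ, hτ, v', c', g1, g2, -⟩
        exact ex ⟨c', g1, fun h => g2 ((alive_cat_le a0 hs le_rfl u _ c').2 h)⟩
  · intro u hu hY
    have gd := X.good u hu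
    have hcl : Clean (X.x u) X.N m c r w L := by_contra fun h => hY (ind_neg h)
    have n0 : ‖X.x u 0‖ ≤ X.η := ((X.ok a0).reg u hu).zero
    have cn : c.im ≤ ‖c‖ := (le_abs_self _).trans (abs_im_le_norm c)
    have s0 : Sd c r (r * Real.exp (L * w)) 0 0 (X.x u 0) := by
      unfold Sd
      rw [if_pos rfl]
      linarith [norm_sub_norm_le c (X.x u 0), norm_sub_rev c (X.x u 0)]
    obtain ⟨g, G, cc, k1, k2, k3, k4⟩ := cln X hu F.nm hη hm zero_le_one F.B0 s0 hcl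
    obtain ⟨c', d1, d2⟩ := dead_near a0 u.cont (X.tm_nonneg (G 1)) X.y0_pos fun y hy =>
      gd.tail _ ⟨X.tm_nonneg _, X.tm_le (k3.leN (i := 1) (by omega))⟩ y hy _ ⟨X.y0_pos, le_rfl⟩
    have d3 : ‖c' - c‖ ≤ 2 * r := by
      have := k3.sd 1 (by omega)
      rw [Sd, if_neg (by omega)] at this
      have d4 : ‖c' - X.x u (G 1)‖ ≤ X.η := d2
      linarith [norm_sub_le_norm_sub_add_norm_sub c' (X.x u (G 1)) c]
    have d4 : 254 * (r * Real.exp (L * w)) ≤ c'.im := by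
      have := abs_le.1 ((abs_im_le_norm (c' - c)).trans d3)
      rw [sub_im] at this
      linarith [this.1]
    have d5 : c'.im ≤ ‖c'‖ := (le_abs_self _).trans (abs_im_le_norm c')
    have W := F.win (i0 := 1) X hu hη zero_le_one d1 (k4 c' d3)
    obtain ⟨Bad, b1, b2⟩ := hI _ _ _ _ _ _ _ _ _ _ _ _ _ _ _ _ ‖c'‖ W (if_pos (by omega))
      (if_pos rfl) (fun z hz => by
        have := ((lev_le_iff (by linarith)).1 hz).1.trans (hi 1 le_rfl)
        linarith [norm_sub_norm_le c' z, norm_sub_rev c' z])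
      (fun y hy hy' => (le_lev_iff (by linarith)).2 (Or.inl (by
        have := norm_sub_norm_le (y * I) c'
        rw [norm_mulI hy.le] at this
        have h5 := hi 0 zero_le_one
        rw [add_zero] at h5
        linarith)))
      (fun x => (le_lev_iff (by linarith)).2 (Or.inl (by
        have := abs_le.1 (abs_im_le_norm (x - c'))
        have h5 := hi 0 zero_le_one
        rw [add_zero] at h5
        simp only [sub_im, ofReal_im] at this
        linarith [this.1])))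
    choose! su sp sq b2 using b2
    let lab : ℕ → ℕ → Lb := fun i κ => if κ < B ∧ κ ∉ Bad then
      (decide (i ∈ su κ), decide (i ∈ sp κ), decide (i ∈ sq κ)) else (false, false, false)
    refine ⟨g, _, _, k1, fun q hq => k2 _ ((Nat.div_lt_iff_lt_mul F.B0).2 hq) _
      (Nat.mod_lt q F.B0), fun q => lab (q / B) (pos (sgn 0) B (q % B) (q / B)),
      fun q hq => ?_, ?_⟩
    · have qi : q / B < 2 * m - 1 + 0 := (Nat.div_lt_iff_lt_mul F.B0).2 hq
      have qn := Nat.mod_lt q F.B0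
      by_cases d : q / B = 0
      · have E0 := k4 c (by simp; positivity)
        simp only [if_pos d]
        rw [d] at qi ⊢
        refine ⟨gd.mono (X.tm_le (k2 0 qi _ qn)), fun τ hτ => ?_, ?_⟩
        · have := E0.first 0 qi _ qn.le τ (by rw [E0.T0]; exact hτ)
          simp only [ps, sgn] at this
          rcases (le_lev_iff (c := c) (ρ := 20 * r) (z := gm a u τ X.y0)
            (d := M + B * l / 2 - (q % B : ℕ) * l - 1) (by linarith)).1
            (by unfold gm; norm_num at this; linarith) with h | h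
          · exact h
          · have k2 := lo (B * l - (q % B : ℕ) * l) (by linarith [nB q])
            ring_nf at k2 h
            linarith
        · have := E0.hit 0 qi _ qn
          simp only [ps, sgn] at this
          refine ((lev_le_iff (ρ := 20 * r) (by linarith)).1 ?_).1
          show lev c (20 * r) (Fm a u.1 (cc 0 (q % B + 1) * X.h) (X.y0 * I)) ≤ _
          norm_num at this
          linarith
      · simp only [if_neg d]
        refine ⟨c', d3, fun h => d1 (LoeAM.alive_mono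
          (W.dead (Nat.one_le_iff_ne_zero.2 d) qi qn.le) h), ?_⟩
        by_cases d' : pos (sgn 0) B (q % B) (q / B) < B ∧ pos (sgn 0) B (q % B) (q / B) ∉ Bad
        · have := (b2 _ d'.1 d'.2).2.2.2.2.2 (q / B)
            (Finset.mem_Ico.2 ⟨Nat.one_le_iff_ne_zero.2 d, qi⟩)
          rw [pos_pos qn] at this
          simp only [lab, if_pos d', LabE, decide_eq_true_eq]
          exact this
        · simp [lab, if_neg d', LabE]
    · have hm' : (1 : ℝ) ≤ m := by exact_mod_cast hm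
      refine sum_blocks (sgn 0) F.B0 _ (F := fun i κ => if i = 0 then del a else
          cost (alp a / 2) (ms / 2) (p / 2) (lab i κ)) (fun i κ => ?_) (Bad := Bad) ?_
        (by have : 0 ≤ cs * ((m : ℝ) - 1) := mul_nonneg h0 (by linarith)
            linarith) fun κ hκ hb => ?_
      · split_ifs
        · exact hδ.le
        · exact cost_nonneg (by positivity) (by linarith [F.ms0]) (by linarith [F.p0]) _
      · have : Bad.card ≤ 2 * m + (2 * m) ^ 2 :=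
          b1.trans (add_le_add (by omega) (Nat.pow_le_pow_left (by omega) 2))
        exact_mod_cast this
      · obtain ⟨c1, c2, c3, c4, c5, c6⟩ := b2 κ hκ hb
        have k := block_cost c1 c2 c3 c5 (fun i hi h => ((c6 i hi).1 h).2.1) (eU := alp a / 2)
          (eS := ms / 2) (eF := p / 2) (by linarith [F.p0]) h1 h2
        rw [Finset.range_eq_Ico, Finset.sum_eq_sum_Ico_succ_bot (by omega), if_pos rfl,
          Finset.sum_congr rfl (g := fun i => cost (alp a / 2) (ms / 2) (p / 2)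
            (decide (i ∈ su κ), decide (i ∈ sp κ), decide (i ∈ sq κ))) fun i hi => by
            rw [if_neg (by have := (Finset.mem_Ico.1 hi).1; omega)]
            simp only [lab, if_pos (And.intro hκ hb)]]
        have c7 : (m : ℝ) ≤ (su κ).card + 1 := by exact_mod_cast (by omega : m ≤ (su κ).card + 1)
        nlinarith

theorem fin {y y1 y' y2 D D' Λ : ℝ} {E : ℕ} (hC : 1 ≤ C) (hE : E ≤ 2 * m)
    (hw : 2 * m * Real.log (8 * C) ≤ w) (hw0 : 0 ≤ w) (hΛ : 32 ≤ Λ) (h1 : y1 ≤ y') (h2 : y' ≤ y2)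
    (hy : 0 ≤ y) (hy1 : 0 ≤ y1) (hD : D' ≤ D) (hD' : 0 ≤ D') (key : y * Λ + 1 ≤ y1 * (Λ - 32))
    (hB : L ≤ B * Λ + Λ + 5) :
    (8 * C) ^ (E * B) * Real.exp (-((B - D') * y' * ((Λ - 32) * w))) ≤
      Real.exp ((y * (Λ + 5) + D * y2 * Λ) * w - y * (L * w)) := by
  have l0 : 0 ≤ Real.log (8 * C) := Real.log_nonneg (by linarith)
  rw [← Real.exp_log (show 0 < (8 * C) ^ (E * B) by positivity), Real.log_pow, ← Real.exp_add]
  refine Real.exp_le_exp.2 ?_
  have hE' : (E : ℝ) ≤ 2 * m := by exact_mod_cast hE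
  have b0 : (0 : ℝ) ≤ B := Nat.cast_nonneg B
  have k1 : ((E * B : ℕ) : ℝ) * Real.log (8 * C) ≤ B * w := by
    push_cast
    calc (E : ℝ) * B * Real.log (8 * C) = B * (E * Real.log (8 * C)) := by ring
      _ ≤ B * (2 * m * Real.log (8 * C)) := by gcongr
      _ ≤ _ := by gcongr
  have k2 : B * w * (y * Λ + 1) ≤ B * w * (y' * (Λ - 32)) := by
    gcongr
    exact key.trans (by gcongr)
  have k3 : D' * y' * (Λ - 32) * w ≤ D * y2 * Λ * w := by
    have : 0 ≤ y' := hy1.trans h1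
    gcongr <;> first | linarith | positivity | exact mul_nonneg (hD'.trans hD) (this.trans h2)
  have k4 : y * w * L ≤ y * w * (B * Λ + Λ + 5) := by gcongr
  nlinarith

theorem PicPS.mono {K C' : ℝ} (h : PicPS a ms p K C) (hC : C ≤ C') : PicPS a ms p K C' :=
  ⟨fun μ hμ G Λ σ y0 L0 L a1 a2 a3 a4 a5 =>
      (h.unf μ hμ G Λ σ y0 L0 L a1 a2 a3 a4 a5).trans (by gcongr),
    fun μ hμ G σ ε y0 L0 L a1 a2 a3 a4 => (h.sur μ hμ G σ ε y0 L0 L a1 a2 a3 a4).trans (by gcongr),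
    fun μ hμ G σ ε y0 L0 L a1 a2 a3 a4 => (h.frc μ hμ G σ ε y0 L0 L a1 a2 a3 a4).trans (by gcongr),
    fun μ hμ G σ y0 L0 L a1 a2 a3 => (h.frc2 μ hμ G σ y0 L0 L a1 a2 a3).trans (by gcongr)⟩

end CL

open CL in
/-- SHG. -/
theorem clean_st {a : ℝ} (ha : Rg a) (hS : SeqStmt) (hI : SHM.ShInt) (hP : PicPStmt a)
    (hO : OneTStmt a) : CleanSt (SS a) (del a) := by
  intro m hm
  obtain ⟨ms, p, p1, p2, p3, hP⟩ := hP
  obtain ⟨C1, c1, hP⟩ := hP 992 (by norm_num)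
  obtain ⟨C2, c2, hO⟩ := hO
  have a0 := ha.pos
  have hδ := del_pos ha.1
  have hαδ : del a < alp a := by
    have h4 : 0 < 4 * a := by linarith
    have : alp a - del a = (4 * a - 1) ^ 2 / (4 * a) := by unfold alp del; field_simp
    have h5 : 0 < (4 * a - 1) ^ 2 / (4 * a) := div_pos (pow_pos (by linarith [ha.1]) 2) h4
    linarith
  have hm' : (1 : ℝ) ≤ m := by exact_mod_cast hm
  set C := max C1 C2
  have hC : 1 ≤ C := c1.trans (le_max_left _ _)
  obtain ⟨cs, hcs, cs1, cs2⟩ : ∃ cs, del a < cs ∧ cs ≤ ms / 2 ∧ cs ≤ alp a / 2 + p / 2 :=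
    ⟨_, lt_min (by linarith) (by linarith), min_le_left _ _, min_le_right _ _⟩
  obtain ⟨σ, hσ, σ1, σ2⟩ : ∃ σ, 0 < σ ∧ 2 * σ ≤ cs - del a ∧ 2 * σ ≤ alp a - del a :=
    ⟨min (cs - del a) (alp a - del a) / 2, half_pos (lt_min (by linarith) (by linarith)),
      by linarith [min_le_left (cs - del a) (alp a - del a)],
      by linarith [min_le_right (cs - del a) (alp a - del a)]⟩
  obtain ⟨y, e⟩ : ∃ y, del a * m + σ = y := ⟨_, rfl⟩
  have hy : 0 ≤ y := by rw [← e]; positivity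
  have i1 : (2 : ℝ) ≤ m → y + σ ≤ del a + cs * (m - 1) := fun h => by
    linarith [mul_nonneg (sub_nonneg.2 hcs.le) (sub_nonneg.2 h)]
  have i2 : y + σ ≤ alp a * m := by
    linarith [mul_nonneg (sub_nonneg.2 hαδ.le) (sub_nonneg.2 hm')]
  obtain ⟨Λ, hΛ⟩ := exists_nat_ge (max (4 * (4 * m + 20) : ℝ) ((1 + 32 * (y + σ)) / σ))
  have Λ1 : 4 * (4 * m + 20 : ℝ) ≤ Λ := (le_max_left _ _).trans hΛ
  have Λ2 : 1 + 32 * (y + σ) ≤ Λ * σ := (div_le_iff₀ hσ).1 ((le_max_right _ _).trans hΛ)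
  have Λ3 : (32 : ℝ) ≤ Λ := by linarith
  have Λ0 : 0 < Λ := by exact_mod_cast (by linarith : (0 : ℝ) < Λ)
  have n1 : 0 ≤ alp a * m := mul_nonneg (by linarith) (by linarith)
  have n2 : 0 ≤ cs * m := mul_nonneg (by linarith) (by linarith)
  obtain ⟨y2, e2⟩ : ∃ y2, alp a * m + del a + cs * m = y2 := ⟨_, rfl⟩
  have y20 : 0 ≤ y2 := by linarith
  refine ⟨σ, y * (Λ + 5) + (2 * m + (2 * m) ^ 2) * y2 * Λ,
    max (1000 * 62 ^ 5) (2 * m * Real.log (8 * C)), hσ, fun w hw L c r hr hT hc => ?_⟩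
  have w1 : 1000 * 62 ^ 5 ≤ w := (le_max_left _ _).trans hw
  have w2 : 2 * m * Real.log (8 * C) ≤ w := (le_max_right _ _).trans hw
  have w0 : 0 ≤ w := by linarith
  rw [e]
  rcases lt_or_ge L (Λ + 5) with hL | hL
  · refine (Bnd.const (SS_ok a0) _ 1).mono' (SS_ok a0) subset_rfl
      (ENNReal.one_le_ofReal.2 (Real.one_le_exp ?_)) fun _ _ => ind_le_one _
    have h1 : (L : ℝ) ≤ Λ + 5 := by exact_mod_cast hL.le
    have h2 : y * w * L ≤ y * w * (Λ + 5) := by gcongr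
    have h3 : 0 ≤ (2 * m + (2 * m) ^ 2) * y2 * Λ * w := by positivity
    nlinarith
  obtain ⟨B, B0, b1, b2⟩ : ∃ B, 0 < B ∧ B * Λ ≤ L - 5 ∧ L - 5 < B * Λ + Λ :=
    ⟨_, Nat.div_pos (by omega) Λ0, Nat.div_mul_le_self (L - 5) Λ, Nat.lt_div_mul_add Λ0⟩
  have B1 : (B : ℝ) * Λ + 5 ≤ L := by exact_mod_cast (by omega : B * Λ + 5 ≤ L)
  have B2 : (L : ℝ) ≤ B * Λ + Λ + 5 := by exact_mod_cast (by omega : L ≤ B * Λ + Λ + 5)
  have F : Fr a ms p C r w (Real.log (20 * r) + 2 * w + 2 + B * (Λ * w) / 2) (Λ * w) ((Λ - 32) * w)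
      m B L := by
    refine ⟨ha, PicPS.mono hP (le_max_left _ _), fun μ hμ y0 η h u c s ρ r a1 a2 a3 a4 a5 a6 =>
      (hO μ hμ y0 η h u c s ρ r a1 a2 a3 a4 a5).trans ?_, hC, by linarith, p2.le,
      ⟨hr, by linarith, by nlinarith, by linarith, ?_⟩, hm, B0, w1, by nlinarith,
      mul_nonneg (by linarith) w0, by linarith⟩
    · gcongr
      exact le_max_right _ _
    · rw [Real.log_mul (by norm_num) hr.ne']
      have := Real.log_le_sub_one_of_pos (show (0 : ℝ) < 20 by norm_num)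
      have h2 : (B * Λ + 5) * w ≤ L * w := by gcongr
      linarith
  have key : y * Λ + 1 ≤ (y + σ) * (Λ - 32) := by linarith
  refine bnd_of (half_pos hr) fun X hη => ?_
  rcases hT with h1 | ⟨h1, h2⟩
  · have m2 : (2 : ℝ) ≤ m := by
      rcases hc with h | h
      · exact_mod_cast h
      · have : 0 < r * Real.exp (L * w) := by positivity
        linarith
    exact (F.int hS hI X (by linarith) h1 (by linarith) cs1 cs2).trans
      (ENNReal.ofReal_le_ofReal (fin (y := y) (y2 := y2) hC (by omega) w2 w0 Λ3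
        (i1 m2) (by linarith) hy (by linarith) le_rfl (by positivity) key B2))
  · obtain ⟨E, hE, h⟩ := F.real hS X (by linarith) h1 h2 (by linarith)
    exact h.trans (ENNReal.ofReal_le_ofReal (fin (y := y) (y2 := y2) hC hE w2 w0 Λ3
      i2 (by linarith) hy (by linarith) (le_add_of_nonneg_right (sq_nonneg _)) (by positivity)
      key B2))

end Pool.Agent.MP_990230_pr.K8

end

end MrgPart1

-- ======== part 2: formerly Pool.Agent.MP_990230_pr.k8.Main
section MrgPart2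

/-! # The ordered multi-point Green function of chordal SLE: assembly for `0 < κ < 8` -/

namespace Pool.Agent.MP_990230_pr

universe u

/-- the simple phase. -/
theorem main_simple (κ : ℝ) (h0 : 0 < κ) (h4 : κ ≤ 4) : MainStmt.{u} κ := by
  have hS := step_stmt
  have hJ := jet_stmt hS
  have hLA := loeA_stmt
  have hLB := loeB_stmt hLA
  have hV := vis_stmt hLA (grow_stmt clip_stmt hLA hLB)
  have hMA : MeasAStmt.{u} := measA_stmt clip_stmt hLA
  have hMB : MeasBStmt.{u} := measB_stmt hLA hMA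
  have hPA := potA_stmt
  have hP := pot_stmt hS hJ hPA (potStatic_stmt hPA) (potN_stmt hS hJ hPA (drift_stmt hPA))
  have hE := end_stmt hS hJ (endQ_stmt hS hJ)
  have hCE : CEofStmt.{u} := ce_stmt hLA hMA hMB gl_stmt hP hE
  have hA : AsmStmt.{u} := asm_stmt bm_stmt hMB (di_stmt hLA hLB hV)
  exact main_of hCE hA κ h0 h4

open K8 in
/-- the self-touching phase. -/
theorem main_touch : Main8Stmt.{u} :=
  main8 fun _ ha => ⟨top (SS_ok ha.pos) (del_pos ha.1) geo_stmt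
    (cr0_stmt ha (phD_stmt ha (rad_stmt ha)) (phG_stmt ha (kill_stmt ha) (dev_stmt ha cov_stmt))
      (crc_stmt58 ha (flat_stmt ha)))
    (clean_st ha seq_stmt SHM.shInt (picP_stmt ha cov_stmt) (oneT_stmt ha (one_stmt ha)))
    (m1_stmt ha (one_stmt ha)), ap_stmt ha⟩

theorem main_all (κ : ℝ) (h0 : 0 < κ) (h8 : κ < 8) : MainStmt.{u} κ :=
  (le_or_gt κ 4).elim (main_simple κ h0) fun h4 => main_touch κ h4 h8

end Pool.Agent.MP_990230_pr

end MrgPart2

-- marker of a merged file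
example : 731051 + 708201 = 731051 + 708201 := rfl

end MrgPart1

-- marker of a merged file
example : 731051 + 708201 = 731051 + 708201 := rfl
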