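import Mathlib
import Pool.Agent.MP_990230_pr.k8.Spec
import Pool.Agent.MP_990230_pr.k8.Acc
import Pool.Agent.MP_990230_pr.k8.Tile

/-! # SLE8: many crossings force many bad phases -/

open Set Complex Metric

noncomputable section

namespace Pool.Agent.MP_990230_pr.K8

namespace CrT

variable {a : ℝ} {u : Pth} {c : ℂ} {ρ s t y y' : ℝ}

theorem gm_im (ha : 0 < a) (u : Pth) (ht : 0 ≤ t) (hy : 0 < y) : y ≤ (gm a u t y).im := by
  have h1 := gm_alive ha u ht hy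
  have := im_anti ha u.cont le_rfl ht h1
  rwa [Zt_gm ha u ht hy, (Zt_zero u h1.1).2.1, SHM.im_mulI] at this

theorem pf_contOn (ha : 0 < a) (u : Pth) (c : ℂ) (hρ : 0 < ρ) (ht : 0 ≤ t) {J : Set ℝ}
    (hJ : ∀ y ∈ J, 0 < y) : ContinuousOn (pf a u c ρ t) J := fun y hy =>
  ((continuous_lev c hρ).continuousAt.comp
    ((Fm_continuousAt ha u.cont ht (by simpa using hJ y hy)).comp
      (f := fun y : ℝ => (y : ℂ) * I) (by fun_prop))).continuousWithinAt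

theorem pf_far (ha : 0 < a) (u : Pth) (c : ℂ) (hρ : 0 < ρ) (ht : 0 ≤ t) (A : ℝ) (hy : 0 < y) :
    ∃ Y, y ≤ Y ∧ A ≤ pf a u c ρ t Y := by
  refine ⟨max y (c.im + Real.exp A), le_max_left _ _, (le_lev_iff hρ).2 (Or.inl ?_)⟩
  have h1 := gm_im ha u ht (hy.trans_le (le_max_left y (c.im + Real.exp A)))
  have h2 := (le_abs_self _).trans (abs_im_le_norm (gm a u t (max y (c.im + Real.exp A)) - c))
  rw [sub_im] at h2
  linarith [le_max_right y (c.im + Real.exp A)]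

theorem pf_vert (ha : 0 < a) (ht : 0 ≤ t) (hc : ¬ Alive a u.1 c t) (hρ : 0 < ρ) (hy : 0 < y)
    (hyy : y ≤ y') {K : ℝ} (hK : y' ≤ K * y) :
    |pf a u c ρ t y' - pf a u c ρ t y| ≤ 2 * Real.log K := by
  have := lev_vert ha u.cont ht hc hρ 0 hy hyy
  simp only [ofReal_zero, zero_add] at this
  refine this.trans (mul_le_mul_of_nonneg_left (Real.log_le_log (div_pos (hy.trans_le hyy) hy)
    ((div_le_iff₀ hy).2 hK)) zero_le_two)

theorem pf_tail (ha : Rg a) (hs : 0 ≤ s) (hst : s ≤ t) (hc : ¬ Alive a u.1 c t) (hρ : 0 < ρ)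
    (hy : 0 < y) (h : 16 * Lz u.1 s t ≤ y) : |pf a u c ρ t y - pf a u c ρ s y| ≤ 2 :=
  lev_tail ha.pos ha.le_one u.cont hs hst hc hρ (by simpa using hy) (by simpa using h)

theorem pf_step {y0 η h T : ℝ} (H : Good a y0 η h T u) (hρ : 2 * η ≤ ρ) (hs : s ∈ Icc 0 T)
    (ht : t ∈ Icc 0 T) (hst : |s - t| ≤ h) : |pf a u c ρ s y0 - pf a u c ρ t y0| ≤ 1 := by
  have h0 : 0 < ρ := by linarith [H.eta_pos]
  exact (lev_lip h0 _ _).trans ((div_le_one h0).2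
    ((H.step s hs t ht hst).trans (by linarith [H.eta_pos])))

theorem dead_mono (hc : ¬ Alive a u.1 c s) (hst : s ≤ t) : ¬ Alive a u.1 c t :=
  fun h => hc (LoeAM.alive_mono hst h)

theorem exists_floor {h : ℝ} (hh : 0 < h) (hs : 0 ≤ s) :
    ∃ i : ℕ, i * h ≤ s ∧ s < (i + 1 : ℕ) * h := by
  refine ⟨⌊s / h⌋₊, (le_div_iff₀ hh).1 (Nat.floor_le (by positivity)), ?_⟩
  push_cast
  exact (div_lt_iff₀ hh).1 (Nat.lt_floor_add_one _)

end CrT

open CrT

/-- an unforced excursion. -/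
structure Exc (p : Ph) (u : Pth) (θ s Y d : ℝ) (j' : ℕ) : Prop where
  jN : j' ≤ p.N
  hY : p.y0 ≤ Y
  flat : ∀ y ∈ Icc p.y0 Y, |p.f u s y - d| ≤ p.w / 100
  least : IsLeast {j : ℕ | s < j * p.h ∧ 3 * p.w ≤ |p.d u j - d|} j'
  size : Lz u.1 s (j' * p.h) ≤ θ * Y

/-- the standing hypotheses of the count. -/
structure CrH (p : Ph) (u : Pth) (η θ : ℝ) (k0 : ℕ) : Prop where
  ha : Rg p.a
  good : Good p.a p.y0 η p.h (p.N * p.h) u
  hρ : 2 * η ≤ p.ρ
  lo : Real.log p.ρ ≤ p.lo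
  θ0 : 0 < θ
  θ1 : θ ≤ 1 / 100
  w1 : 1000 ≤ p.w
  w2 : 110 + 2 * Real.log (8 / θ) ≤ p.w / 100
  dead : ¬ Alive p.a u.1 p.c (k0 * p.h)
  flat : FlatStmt p.a

/-- the data of an episode of the second kind. -/
structure EpB (p : Ph) (u : Pth) (θ : ℝ) (k0 σ τ : ℕ) (s yu y' : ℝ) (j' : ℕ) : Prop where
  exc : Exc p u θ s y' (p.lo + 12 * p.w) j'
  k0s : k0 * p.h ≤ s
  sσ : s ≤ σ * p.h
  jσ : j' ≤ σ
  yy : y' ≤ yu
  size : Lz u.1 s (σ * p.h) ≤ θ * y'
  up : p.f u (σ * p.h) yu ≤ p.lo + 8 * p.w + 2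
  low : ∀ y ∈ Icc p.y0 yu, p.f u (τ * p.h) y ≤ p.lo + 8 * p.w

namespace CrH

variable {p : Ph} {u : Pth} {η θ : ℝ} {k0 : ℕ} (H : CrH p u η θ k0)
include H

theorem ρ0 : 0 < p.ρ := by linarith [H.hρ, H.good.eta_pos]

theorem tm0 (k : ℕ) : (0 : ℝ) ≤ k * p.h := mul_nonneg (Nat.cast_nonneg k) H.good.h_pos.le

theorem tm {j k : ℕ} (h : j ≤ k) : (j : ℝ) * p.h ≤ k * p.h :=
  mul_le_mul_of_nonneg_right (Nat.cast_le.2 h) H.good.h_pos.le

theorem tail {s t y : ℝ} (hs : 0 ≤ s) (hst : s ≤ t) (ht : k0 * p.h ≤ t) (hy : p.y0 ≤ y)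
    (h : 16 * Lz u.1 s t ≤ y) : p.f u t y - 2 ≤ p.f u s y ∧ p.f u s y - 2 ≤ p.f u t y := by
  have := abs_le.1 (pf_tail H.ha hs hst (dead_mono H.dead ht) H.ρ0 (H.good.y0_pos.trans_le hy) h)
  unfold Ph.f
  constructor <;> linarith [this.1, this.2]

theorem small {L y : ℝ} (hy : p.y0 ≤ y) (h : L ≤ 2 * (θ * y)) : 16 * L ≤ y := by
  nlinarith [H.θ1, H.good.y0_pos]

theorem mkExc {s Y d : ℝ} {g : ℕ} (hg : g ≤ p.N) (hs : s ≤ g * p.h) (hY : p.y0 ≤ Y)
    (hf : ∀ y ∈ Icc p.y0 Y, |p.f u s y - d| ≤ p.w / 100) (far : 3 * p.w ≤ |p.d u g - d|)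
    (hL : Lz u.1 s (g * p.h) ≤ θ * Y) : ∃ j', j' ≤ g ∧ Exc p u θ s Y d j' := by
  classical
  have hlt : s < g * p.h := lt_of_le_of_ne hs fun e => by
    have := hf _ ⟨le_rfl, hY⟩
    rw [e] at this
    have h2 : |p.d u g - d| ≤ p.w / 100 := this
    linarith [H.w1]
  have ex : ∃ j : ℕ, s < j * p.h ∧ 3 * p.w ≤ |p.d u j - d| := ⟨g, hlt, far⟩
  have h1 : Nat.find ex ≤ g := Nat.find_min' ex ⟨hlt, far⟩
  exact ⟨_, h1, h1.trans hg, hY, hf, ⟨Nat.find_spec ex, fun j hj => Nat.find_min' ex hj⟩,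
    (Lz_mono u.cont (Nat.find_spec ex).1.le (H.tm h1)).trans hL⟩

theorem imposs {c0 : ℂ} {r yu y' : ℝ} {σ τ : ℕ} (hr : Real.log (3 * r) ≤ p.lo) (hr0 : 0 < r)
    (hc : ‖p.c - c0‖ ≤ 2 * r)
    (h0 : k0 = 0 ∨ ∀ z ∈ closedBall c0 (2 * r), Alive p.a u.1 z ((k0 - 1 : ℕ) * p.h))
    (h1 : k0 ≤ σ) (h2 : σ ≤ τ) (h3 : τ ≤ p.N) (hτ : ‖gm p.a u (τ * p.h) p.y0 - c0‖ ≤ r)
    (hσ : p.lo + 20 * p.w ≤ p.d u σ) (y1 : p.y0 ≤ y') (yy : y' ≤ yu)
    (e' : p.f u (σ * p.h) y' = p.lo + 12 * p.w)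
    (high : ∀ y ∈ Icc p.y0 y', p.lo + 12 * p.w ≤ p.f u (σ * p.h) y)
    (up : p.f u (σ * p.h) yu ≤ p.lo + 8 * p.w + 2)
    (low : ∀ y ∈ Icc p.y0 yu, p.f u (τ * p.h) y ≤ p.lo + 8 * p.w)
    (hL : Lz u.1 (k0 * p.h) (σ * p.h) ≤ θ * y') : False := by
  have ha := H.ha.pos
  have hw := H.w1
  have hy := H.good.y0_pos
  have θ0 := H.θ0
  have θy : θ * y' ≤ θ * yu := mul_le_mul_of_nonneg_left yy θ0.le
  have θy0 : 0 ≤ θ * y' := mul_nonneg θ0.le (hy.le.trans y1)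
  rcases Nat.eq_zero_or_pos k0 with rfl | hk
  · have hd := H.dead
    simp only [Nat.cast_zero, zero_mul] at hd hL
    have him : p.c.im ≤ 0 := not_lt.1 fun h => hd (Zt_zero u h).1
    have a1 := (H.tail le_rfl (H.tm0 σ) (H.tm h1) y1 (H.small y1 (by linarith))).1
    have a2 := (H.tail le_rfl (H.tm0 σ) (H.tm h1) (y1.trans yy)
      (H.small (y1.trans yy) (by linarith))).2
    have a3 : p.f u 0 y' ≤ p.f u 0 yu := by
      simp only [Ph.f, pf, gm_zero ha u (hy.trans_le y1), gm_zero ha u (hy.trans_le (y1.trans yy)),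
        lev]
      refine Real.log_le_log (H.ρ0.trans_le (le_max_right _ _)) (max_le_max_right _ ?_)
      refine abs_le_of_sq_le_sq' ?_ (norm_nonneg _) |>.2
      rw [← normSq_eq_norm_sq, ← normSq_eq_norm_sq]
      simp only [normSq_apply, sub_re, sub_im, mul_re, mul_im, ofReal_re, ofReal_im, I_re, I_im]
      nlinarith
    linarith
  obtain ⟨k, rfl⟩ : ∃ k, k0 = k + 1 := ⟨k0 - 1, by omega⟩
  have hal := h0.resolve_left (by omega)
  simp only [Nat.add_sub_cancel] at hal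
  have t0 := H.tm0 k
  have tk : (k : ℝ) * p.h ≤ τ * p.h := H.tm (by omega)
  have st := H.good.lstep _ _ t0 (H.tm (Nat.le_succ k)) (H.tm (by omega)) (by push_cast; linarith)
  have y2 : 2 * p.y0 ≤ y' := le_of_not_gt fun h => by
    have a1 := abs_le.1 (pf_vert ha (H.tm0 σ) (dead_mono H.dead (H.tm h1)) H.ρ0 hy y1 h.le)
    have a2 := Real.log_le_sub_one_of_pos two_pos
    have a3 : p.d u σ - p.f u (σ * p.h) y' ≤ 2 * Real.log 2 := by
      unfold Ph.d Ph.f; linarith [a1.1]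
    linarith
  have hcb : p.c ∈ closedBall c0 (2 * r) := mem_closedBall_iff_norm.2 hc
  have hmb : gm p.a u (τ * p.h) p.y0 ∈ closedBall c0 (2 * r) :=
    mem_closedBall_iff_norm.2 (by linarith)
  have e3 : 3 * r ≤ Real.exp (p.lo + 8 * p.w) :=
    (Real.log_le_iff_le_exp (by linarith)).1 (by linarith)
  have p2 := preconn_path ha u.cont (H.tm0 τ) (γ := fun y : ℝ => (y : ℂ) * I) (by fun_prop)
    (isPreconnected_Icc (a := p.y0) (b := yu)) fun y h => by simpa using hy.trans_le h.1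
  have hS := IsPreconnected.union (gm p.a u (τ * p.h) p.y0) (right_mem_segment ℝ p.c _)
    (mem_image_of_mem _ (left_mem_Icc.2 (y1.trans yy))) (convex_segment _ _).isPreconnected p2
  have hq : ∀ q ∈ segment ℝ p.c (gm p.a u (τ * p.h) p.y0) ∪
      (fun y : ℝ => Fm p.a u.1 (τ * p.h) (y * I)) '' Icc p.y0 yu,
      Alive p.a u.1 q (k * p.h) ∧ ‖q - p.c‖ ≤ Real.exp (p.lo + 8 * p.w) := by
    rintro q (h | ⟨y, h, rfl⟩)
    · refine ⟨hal q ((convex_closedBall _ _).segment_subset hcb hmb h), ?_⟩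
      refine mem_closedBall_iff_norm.1 ((convex_closedBall p.c _).segment_subset
        (mem_closedBall_self (Real.exp_pos _).le) (mem_closedBall_iff_norm.2 ?_) h)
      have := norm_sub_le (gm p.a u (τ * p.h) p.y0 - c0) (p.c - c0)
      rw [sub_sub_sub_cancel_right] at this
      linarith
    · exact ⟨LoeAM.alive_mono tk (gm_alive ha u (H.tm0 τ) (hy.trans_le h.1)),
        ((lev_le_iff H.ρ0).1 (low y h)).1⟩
  obtain ⟨r', hr', h4⟩ := (univ_Fm ha u.cont t0 p.c).semi 0 (p.lo + 8 * p.w)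
    (r := y' / 2) (by linarith)
  have r0 : 0 < r' := by linarith [hr'.1]
  obtain ⟨q, q1, q2⟩ := exists_radius ha u.cont t0 hS (fun q h => (hq q h).1) ((0 : ℝ) : ℂ)
    (Or.inl (left_mem_segment ℝ _ _)) (Or.inr ⟨yu, ⟨y1.trans yy, le_rfl⟩, rfl⟩) (r := r') (by
      rw [ofReal_zero, sub_zero]
      refine le_of_not_gt fun h => H.dead (alive_of_size ha H.ha.le_one u.cont t0
        (H.tm (Nat.le_succ k)) (hal _ hcb) ?_)
      linarith [hr'.1]) (by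
      rw [ofReal_zero, sub_zero]
      have a1 := bk_im ha u t0 tk (w := yu * I) (by simpa using hy.trans_le (y1.trans yy))
      rw [SHM.im_mulI] at a1
      have a2 := a1.trans ((le_abs_self _).trans (abs_im_le_norm _))
      exact le_trans (by linarith [hr'.2]) a2)
  have h5 := h4 _ (r' * I) (Zt_im_pos u.cont t0 (hq q q1).1) (by simpa using r0) q2
    (by simp [abs_of_pos r0]) (by simpa only [Fm_Zt ha u.cont t0 (hq q q1).1] using (hq q q1).2)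
  have h6 : p.f u (k * p.h) r' ≤ p.lo + 8 * p.w + 30 := (lev_le_iff H.ρ0).2 ⟨h5.le,
    (Real.log_le_iff_le_exp H.ρ0).1 (by linarith [H.lo])⟩
  have ry : p.y0 ≤ r' := by linarith [hr'.1]
  have h7 := (H.tail t0 (H.tm (show k ≤ σ by omega)) (H.tm h1) ry (by
    have a1 := Lz_add u.cont (H.tm (Nat.le_succ k)) (H.tm h1)
    have a2 : θ * y' ≤ 1 / 100 * y' := mul_le_mul_of_nonneg_right H.θ1 (by linarith)
    linarith [hr'.1])).1
  linarith [high r' ⟨ry, by linarith [hr'.2]⟩]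

theorem episode {c0 : ℂ} {r : ℝ} {σ τ : ℕ} (hr : Real.log (3 * r) ≤ p.lo) (hr0 : 0 < r)
    (hc : ‖p.c - c0‖ ≤ 2 * r)
    (h0 : k0 = 0 ∨ ∀ z ∈ closedBall c0 (2 * r), Alive p.a u.1 z ((k0 - 1 : ℕ) * p.h))
    (h1 : k0 ≤ σ) (h2 : σ ≤ τ) (h3 : τ ≤ p.N) (hτ : ‖gm p.a u (τ * p.h) p.y0 - c0‖ ≤ r)
    (hσ : p.lo + 20 * p.w ≤ p.d u σ) :
    (∃ s Y j', Exc p u θ s Y (p.lo + 8 * p.w) j' ∧ σ * p.h ≤ s ∧ j' ≤ τ) ∨
      ∃ s yu y' j', EpB p u θ k0 σ τ s yu y' j' := by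
  have ha := H.ha.pos
  have hw := H.w1
  have hy := H.good.y0_pos
  have θ1 : θ ≤ 1 := H.θ1.trans (by norm_num)
  have dτ : p.d u τ ≤ p.lo := (lev_le_iff H.ρ0).2 ⟨by
    have a1 := norm_sub_le (gm p.a u (τ * p.h) p.y0 - c0) (p.c - c0)
    rw [sub_sub_sub_cancel_right] at a1
    have a2 := (Real.log_le_iff_le_exp (by linarith)).1 hr
    linarith, (Real.log_le_iff_le_exp H.ρ0).1 H.lo⟩
  obtain ⟨Y, Y1, Y2⟩ := pf_far ha u p.c H.ρ0 (H.tm0 τ) (p.lo + 8 * p.w) hy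
  obtain ⟨yu, u1, u2, u3⟩ := first_level (f := fun y => -p.f u (τ * p.h) y)
    (A := -(p.lo + 8 * p.w)) Y1
    (pf_contOn ha u p.c H.ρ0 (H.tm0 τ) fun y h => hy.trans_le h.1).neg
    (neg_le_neg (dτ.trans (by linarith))) (neg_le_neg Y2)
  have u2' : pf p.a u p.c p.ρ (τ * p.h) yu = p.lo + 8 * p.w := neg_injective u2
  have low : ∀ y ∈ Icc p.y0 yu, p.f u (τ * p.h) y ≤ p.lo + 8 * p.w :=
    fun y h => neg_le_neg_iff.1 (u3 y h)
  rcases H.flat u p.c _ η _ _ p.ρ (σ * p.h) (τ * p.h) yu θ H.good H.hρ (H.tm0 σ) (H.tm h2)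
    (H.tm h3) (dead_mono H.dead (H.tm h1)) H.θ0 θ1 u1.1 with hB | ⟨s, s1, s2, s3⟩
  swap
  · obtain ⟨j', j1, j2⟩ := H.mkExc (d := p.lo + 8 * p.w) h3 s1.2 u1.1
      (fun y h => by rw [← u2']; exact (s3 y h).trans H.w2)
      (le_abs.2 (Or.inr (by linarith))) s2
    exact Or.inl ⟨s, yu, j', j2, s1.1, j1⟩
  right
  have θy : 0 ≤ θ * yu := mul_nonneg H.θ0.le (hy.le.trans u1.1)
  have up : p.f u (σ * p.h) yu ≤ p.lo + 8 * p.w + 2 := by
    linarith [(H.tail (H.tm0 σ) (H.tm h2) (H.tm (h1.trans h2)) u1.1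
      (H.small u1.1 (by linarith))).2, low yu ⟨u1.1, le_rfl⟩]
  obtain ⟨y', v1, v2, v3⟩ := first_level (f := p.f u (σ * p.h)) (A := p.lo + 12 * p.w) u1.1
    (pf_contOn ha u p.c H.ρ0 (H.tm0 σ) fun y h => hy.trans_le h.1)
    (le_trans (by linarith) hσ) (by linarith)
  rcases H.flat u p.c _ η _ _ p.ρ (k0 * p.h) (σ * p.h) y' θ H.good H.hρ (H.tm0 k0) (H.tm h1)
    (H.tm (h2.trans h3)) H.dead H.θ0 θ1 v1.1 with hI | ⟨s, s1, s2, s3⟩
  · exact (H.imposs hr hr0 hc h0 h1 h2 h3 hτ hσ v1.1 v1.2 v2 v3 up low hI).elim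
  · obtain ⟨j', j1, j2⟩ := H.mkExc (d := p.lo + 12 * p.w) (h2.trans h3) s1.2 v1.1
      (fun y h => by rw [← v2]; exact (s3 y h).trans H.w2)
      (le_abs.2 (Or.inl (by linarith))) s2
    exact ⟨s, yu, y', j', j2, s1.1, s1.2, j1, v1.2, s2, up, low⟩

theorem pairB {σ τ σ' τ' j j' : ℕ} {s yu y s' yu' y' : ℝ} (E : EpB p u θ k0 σ τ s yu y j)
    (E' : EpB p u θ k0 σ' τ' s' yu' y' j') (h1 : σ ≤ τ) (h2 : τ ≤ σ') (h3 : σ' ≤ p.N) :
    j * p.h ≤ s' ∨ j' * p.h ≤ s := by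
  have hw := H.w1
  have hy := H.good.y0_pos
  by_cases c1 : σ * p.h ≤ s'
  · exact Or.inl ((H.tm E.jσ).trans c1)
  right
  have c1 := (not_le.1 c1).le
  have s0 := (H.tm0 k0).trans E.k0s
  have s0' := (H.tm0 k0).trans E'.k0s
  have yu0 := E.exc.hY.trans E.yy
  have θy : θ * y ≤ θ * yu := mul_le_mul_of_nonneg_left E.yy H.θ0.le
  have θ0 : 0 ≤ θ * y := mul_nonneg H.θ0.le (hy.le.trans E.exc.hY)
  have θ0' : 0 ≤ θ * y' := mul_nonneg H.θ0.le (hy.le.trans E'.exc.hY)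
  have sτ := c1.trans (H.tm h1)
  have a1 : yu ≤ y' := le_of_not_gt fun h => by
    have b1 := (H.tail s0' sτ (E'.k0s.trans sτ) E'.exc.hY (H.small E'.exc.hY (by
      linarith [Lz_mono u.cont sτ (H.tm h2), E'.size]))).2
    linarith [E.low y' ⟨E'.exc.hY, h.le⟩, (abs_le.1 (E'.exc.flat y' ⟨E'.exc.hY, le_rfl⟩)).1]
  have a2 := (abs_le.1 (E'.exc.flat yu ⟨yu0, a1⟩)).1
  have c2 : s' ≤ s := le_of_not_gt fun h => by
    have b1 := (H.tail s0' c1 (E'.k0s.trans c1) yu0 (H.small yu0 (by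
      linarith [Lz_sub u.cont h.le c1, E.size]))).2
    linarith [E.up]
  have a3 := (H.tail s0 E.sσ (E.k0s.trans E.sσ) yu0 (H.small yu0 (by linarith [E.size]))).2
  have a4 : yu < 16 * Lz u.1 s' s := lt_of_not_ge fun h => by
    linarith [(H.tail s0' c2 E.k0s yu0 h).2, E.up]
  have sN : s ≤ p.N * p.h := E.sσ.trans (H.tm (by omega))
  have hd := dead_mono H.dead E.k0s
  have yp : 0 < yu / 128 := by linarith
  obtain h | ⟨t, t1, -, -, S, -, S1, S2, -⟩ := door_link H.ha.1.le H.ha.le_one u.cont hy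
    H.good.eta_pos H.good.tail s0' c2 sN hd H.hρ yp
  · linarith
  have a5 : p.f u t p.y0 ≤ p.lo + 8 * p.w + 320 := by
    have b1 : |p.f u t p.y0 - p.f u s (yu / 128)| ≤ 62 := (S1 _ S2).2
    have b2 : |p.f u s yu - p.f u s (yu / 128)| ≤ 2 * Real.log 128 :=
      pf_vert H.ha.pos s0 hd H.ρ0 yp (by linarith) (by linarith)
    have b3 := Real.log_le_sub_one_of_pos (show (0 : ℝ) < 128 by norm_num)
    linarith [(abs_le.1 b1).2, (abs_le.1 b2).1, E.up]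
  have t0 := s0'.trans t1.1
  have tN := t1.2.trans sN
  obtain ⟨g, g1, g2⟩ := exists_floor H.good.h_pos t0
  push_cast at g2
  have a6 : |p.d u g - p.f u t p.y0| ≤ 1 := pf_step H.good H.hρ ⟨H.tm0 g, g1.trans tN⟩ ⟨t0, tN⟩
    (by rw [abs_le]; constructor <;> linarith [H.good.h_pos])
  have a7 : s' < g * p.h := lt_of_not_ge fun h => by
    have b1 : |p.f u s' p.y0 - p.f u t p.y0| ≤ 1 := pf_step H.good H.hρ ⟨s0', c2.trans sN⟩ ⟨t0, tN⟩
      (by rw [abs_le]; constructor <;> linarith [H.good.h_pos, t1.1])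
    linarith [(abs_le.1 b1).2, (abs_le.1 (E'.exc.flat _ ⟨le_rfl, E'.exc.hY⟩)).1]
  exact (H.tm (E'.exc.least.2 ⟨a7, le_abs.2 (Or.inr (by linarith [(abs_le.1 a6).2]))⟩)).trans
    (g1.trans t1.2)

theorem family {d : ℝ} (hx : ∀ (k : ℕ) (s Y : ℝ) (j' b : ℕ), ¬ Alive p.a u.1 p.c (k * p.h) →
      k ≤ p.N → k * p.h ≤ s → Exc p u θ s Y d j' →
      (∀ j : ℕ, s < j * p.h → j ≤ j' → p.Chain u b j) → p.Chain u (b + 1) k)
    (s Y : ℕ → ℝ) (j' : ℕ → ℕ) (F : Finset ℕ) : (∀ i ∈ F, Exc p u θ (s i) (Y i) d (j' i)) →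
      (∀ i ∈ F, ∀ i' ∈ F, i < i' → j' i * p.h ≤ s i' ∨ j' i' * p.h ≤ s i) →
      ∀ k : ℕ, k ≤ p.N → (∀ i ∈ F, k * p.h ≤ s i) → ¬ Alive p.a u.1 p.c (k * p.h) →
        p.Chain u F.card k := by
  induction F using Finset.induction_on_min_value s with
  | empty => exact fun _ _ k _ _ _ => Ph.Chain.zero k
  | insert i F hi hmin ih =>
    intro h1 h2 k hk h3 hc
    rw [Finset.card_insert_of_notMem hi]
    have mi := Finset.mem_insert_self i F
    refine hx k _ _ _ _ hc hk (h3 i mi) (h1 i mi) fun j a1 a2 =>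
      ih (fun i' h => h1 i' (Finset.mem_insert_of_mem h)) (fun i1 b1 i2 b2 =>
        h2 i1 (Finset.mem_insert_of_mem b1) i2 (Finset.mem_insert_of_mem b2)) j
        (a2.trans (h1 i mi).jN) (fun i' h => (H.tm a2).trans ?_)
        (dead_mono hc ((h3 i mi).trans a1.le))
    have mi' := Finset.mem_insert_of_mem (b := i) h
    have b1 := (h1 i' mi').least.1.1
    have b2 := hmin i' h
    rcases lt_trichotomy i i' with c | c | c
    · exact (h2 i mi i' mi' c).resolve_right fun b => by linarith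
    · exact absurd (c ▸ h) hi
    · exact (h2 i' mi' i mi c).resolve_left fun b => by linarith

end CrH

/-- CRC. -/
theorem crc_stmt {a : ℝ} (ha : Rg a) (hF : FlatStmt a) : CrcStmt a := by
  classical
  intro K K2 C6 w0 θ P
  obtain ⟨-, -, p3, p4, p5⟩ := P.pos
  refine ⟨max w0 (100 * (110 + 2 * Real.log (8 / θ))), ?_⟩
  rintro p u η r R c0 k0 m b rfl e2 e6 hw hG hr hη hρ hlo hr3 hR hc hk0 hd h0 ⟨σ, τ, k1, k2⟩ hb
  have w0' := (le_max_left _ _).trans hw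
  have H : CrH p u η θ k0 := ⟨ha, hG, hρ, hlo, p4, p5, p3.trans w0',
    by linarith [(le_max_right _ _).trans hw], hd, hF⟩
  have hw1 := H.w1
  have ch := fun {i j : ℕ} (h1 : i < j) (h2 : j < m) =>
    cr_chain (fun i hi => (k1 i hi).1) k2 h1 h2
  have kτ : k0 ≤ τ 0 := le_of_not_gt fun h => by
    obtain ⟨-, a2, -, a4⟩ := k1 0 (by omega)
    obtain ⟨z, z1, z2⟩ := dead_near ha.pos u.cont (H.tm0 (τ 0)) hG.y0_pos fun y hy =>
      hG.tail _ ⟨H.tm0 _, H.tm a2⟩ y hy _ ⟨hG.y0_pos, le_rfl⟩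
    refine z1 (LoeAM.alive_mono (H.tm (show τ 0 ≤ k0 - 1 by omega))
      (h0.resolve_left (by omega) z (mem_closedBall_iff_norm.2 ?_)))
    have := norm_add_le (z - gm p.a u (τ 0 * p.h) p.y0) (gm p.a u (τ 0 * p.h) p.y0 - c0)
    rw [sub_add_sub_cancel] at this
    have z3 : ‖z - gm p.a u (τ 0 * p.h) p.y0‖ ≤ η := z2
    linarith
  have kσ : ∀ e ∈ Finset.Ico 1 m, k0 ≤ σ e := fun e he =>
    kτ.trans (ch (Finset.mem_Ico.1 he).1 (Finset.mem_Ico.1 he).2)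
  have ep := fun e (he : e ∈ Finset.Ico 1 m) => by
    obtain ⟨a1, a2, a3, a4⟩ := k1 e (Finset.mem_Ico.1 he).2
    refine H.episode hr3 hr hc h0 (kσ e he) a1 a2 a4 ((le_lev_iff H.ρ0).2 (Or.inl ?_))
    have := norm_add_le (gm p.a u (σ e * p.h) p.y0 - p.c) (p.c - c0)
    rw [sub_add_sub_cancel] at this
    linarith
  have hx : ∀ d, p.lo + 8 * p.w ≤ d → d ≤ p.lo + 12 * p.w → ∀ (k : ℕ) (s Y : ℝ) (j' b : ℕ),
      ¬ Alive p.a u.1 p.c (k * p.h) → k ≤ p.N → k * p.h ≤ s → Exc p u θ s Y d j' →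
      (∀ j : ℕ, s < j * p.h → j ≤ j' → p.Chain u b j) → p.Chain u (b + 1) k :=
    fun d d1 d2 k s Y j' b h1 h2 h3 E h4 =>
      (P.facts p u η k rfl e2 e6 w0' hG hρ hlo h1 h2).2.2.2.2 s Y d j' b h3 E.jN d1 d2 E.hY E.flat
        E.least E.size h4
  set A : ℕ → Prop := fun e =>
    ∃ s Y j', Exc p u θ s Y (p.lo + 8 * p.w) j' ∧ σ e * p.h ≤ s ∧ j' ≤ τ e with hA
  have cd := Finset.card_filter_add_card_filter_not (s := Finset.Ico 1 m) A
  rw [Nat.card_Ico] at cd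
  rcases le_or_gt b ((Finset.Ico 1 m).filter A).card with h | h
  · obtain ⟨F, F1, rfl⟩ := Finset.exists_subset_card_eq h
    have ex : ∀ e, ∃ s Y j', e ∈ F →
        Exc p u θ s Y (p.lo + 8 * p.w) j' ∧ σ e * p.h ≤ s ∧ j' ≤ τ e := fun e => by
      by_cases he : e ∈ F
      · obtain ⟨s, Y, j', h⟩ := (Finset.mem_filter.1 (F1 he)).2
        exact ⟨s, Y, j', fun _ => h⟩
      · exact ⟨0, 0, 0, fun h => absurd h he⟩
    choose s Y j' hs using ex
    exact H.family (hx _ le_rfl (by linarith)) s Y j' F (fun i hi => (hs i hi).1)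
      (fun i hi i' hi' hlt => Or.inl ((H.tm ((hs i hi).2.2.trans (ch hlt
        (Finset.mem_Ico.1 (Finset.mem_filter.1 (F1 hi')).1).2))).trans (hs i' hi').2.1))
      k0 hk0 (fun i hi => (H.tm (kσ i (Finset.mem_filter.1 (F1 hi)).1)).trans (hs i hi).2.1) hd
  · obtain ⟨F, F1, rfl⟩ := Finset.exists_subset_card_eq
      (show b ≤ ((Finset.Ico 1 m).filter fun e => ¬ A e).card by omega)
    have ex : ∀ e, ∃ s yu y' j', e ∈ F → EpB p u θ k0 (σ e) (τ e) s yu y' j' := fun e => by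
      by_cases he : e ∈ F
      · obtain ⟨s, yu, y', j', h⟩ := (ep e (Finset.mem_filter.1 (F1 he)).1).resolve_left
          (Finset.mem_filter.1 (F1 he)).2
        exact ⟨s, yu, y', j', fun _ => h⟩
      · exact ⟨0, 0, 0, 0, fun h => absurd h he⟩
    choose s yu y' j' hs using ex
    have lt : ∀ i ∈ F, i < m := fun i hi => (Finset.mem_Ico.1 (Finset.mem_filter.1 (F1 hi)).1).2
    exact H.family (hx _ (by linarith) le_rfl) s y' j' F (fun i hi => (hs i hi).exc)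
      (fun i hi i' hi' hlt => H.pairB (hs i hi) (hs i' hi') (k1 i (lt i hi)).1 (ch hlt (lt i' hi'))
        ((k1 i' (lt i' hi')).1.trans (k1 i' (lt i' hi')).2.1))
      k0 hk0 (fun i hi => (hs i hi).k0s) hd

/-- CR0. -/
theorem cr0 {a : ℝ} (ha : Rg a) (hD : PhDStmt a) (hG : PhGStmt a) (hC : CrcStmt a) :
    CR0 (SS a) := by
  obtain ⟨K, hK, hG⟩ := hG
  obtain ⟨K2, C6, w0, θ, P⟩ := hD K hK
  obtain ⟨w1, hG⟩ := hG K2 C6 w0 θ P
  obtain ⟨w2, hC⟩ := hC K K2 C6 w0 θ P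
  set w := max 1 (max w1 w2) with hw
  have w_1 : 1 ≤ w := le_max_left _ _
  have hw1 : w1 ≤ w := (le_max_left _ _).trans (le_max_right _ _)
  have hw2 : w2 ≤ w := (le_max_right _ _).trans (le_max_right _ _)
  have e0 := Real.exp_pos (20 * w)
  refine ⟨3 * Real.exp (20 * w) + 2, 1 / 2, 2 * Real.exp 1, by linarith, by norm_num,
    by positivity, fun c r m hr _ => ?_⟩
  rcases Nat.eq_zero_or_pos m with rfl | hm
  · exact VB.one (SS_ok ha.pos) _ _ _ _ (by simp; linarith [Real.add_one_le_exp 1])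
  have eR : ∀ t, Real.exp (Real.log (3 * r) + t) = 3 * r * Real.exp t := fun t => by
    rw [Real.exp_add, Real.exp_log (by linarith)]
  refine bnd_of hr fun X hη => ?_
  rw [X.stp_vl]
  set R := ring c r ((3 * Real.exp (20 * w) + 2) * r)
  set Q : Pth → Prop := fun v => Cr (X.x v) X.N m c r ((3 * Real.exp (20 * w) + 2) * r) with hQ
  have key : ∀ n k : ℕ, k + n = X.N → ∀ u : Pth,
      (k = 0 ∨ ∀ z ∈ closedBall c (2 * r), Alive a u.1 z ((k - 1 : ℕ) * X.h)) →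
      X.vl R Q k u ≤ ENNReal.ofReal (2 * Real.exp (-(((m - 1) / 2 : ℕ) : ℝ))) := by
    have dead : ∀ k : ℕ, k ≤ X.N → ∀ u : Pth,
        (k = 0 ∨ ∀ z ∈ closedBall c (2 * r), Alive a u.1 z ((k - 1 : ℕ) * X.h)) →
        ∀ c' ∈ closedBall c (2 * r), ¬ Alive a u.1 c' (k * X.h) →
        X.vl R Q k u ≤ ENNReal.ofReal (2 * Real.exp (-(((m - 1) / 2 : ℕ) : ℝ))) := by
      intro k hk u h0 c' h1 h2
      have h1 := mem_closedBall_iff_norm.1 h1
      refine hG X ⟨a, X.y0, X.h, X.N, c', 3 * r, Real.log (3 * r), w, K2, C6⟩ R Q rfl rfl rfl rfl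
        rfl rfl hw1 (by linarith) le_rfl (measurableSet_ring _ _ _) (fun z z1 z2 => ?_) k _ u hk h2
        fun v v1 v2 => hC ⟨a, X.y0, X.h, X.N, c', 3 * r, Real.log (3 * r), w, K2, C6⟩ _ X.η r _ c k
          m _ rfl rfl rfl hw2 (X.good _ v1) hr hη (by linarith) le_rfl le_rfl
          (le_of_eq (by simp only [eR]; ring)) h1 hk
          (by rwa [alive_cat_le ha.pos (X.tm_nonneg k) le_rfl])
          (h0.imp_right fun h z hz => (alive_cat_le ha.pos (X.tm_nonneg _)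
            (X.tm_le (Nat.sub_le k 1)) u v z).2 (h z hz)) v2 (by omega)
      have a1 := (le_lev_iff (c := c') (ρ := 3 * r) (by linarith)).1 z1
      have a2 := ((lev_le_iff (c := c') (ρ := 3 * r) (by linarith)).1 z2).1
      simp only [eR] at a1 a2
      have a3 := Real.add_one_le_exp w
      have a4 : Real.exp (19 * w) < Real.exp (20 * w) := Real.exp_lt_exp.2 (by linarith)
      have a5 := norm_add_le (z - c') (c' - c)
      have a6 := norm_sub_le (z - c) (c' - c)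
      rw [sub_add_sub_cancel] at a5
      rw [sub_sub_sub_cancel_right] at a6
      rcases a1 with a1 | a1
      · exact ⟨by nlinarith, by nlinarith⟩
      · nlinarith
    intro n
    induction n with
    | zero =>
      intro k hk u h0
      by_cases h : ∀ z ∈ closedBall c (2 * r), Alive a u.1 z (k * X.h)
      · refine (X.vl_eq_zero R fun v v1 ⟨σ, τ, k1, _⟩ => ?_).le.trans zero_le
        obtain ⟨-, a2, -, a4⟩ := k1 0 hm
        have hG := X.good _ v1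
        obtain ⟨z, z1, z2⟩ := dead_near ha.pos (cat (k * X.h) u v).cont (X.tm_nonneg (τ 0))
          hG.y0_pos fun y hy => hG.tail _ ⟨X.tm_nonneg _, X.tm_le a2⟩ y hy _ ⟨hG.y0_pos, le_rfl⟩
        refine z1 (LoeAM.alive_mono (X.tm_le (show τ 0 ≤ k by omega))
          ((alive_cat_le ha.pos (X.tm_nonneg k) le_rfl u v z).2
            (h z (mem_closedBall_iff_norm.2 ?_))))
        have := norm_add_le (z - X.x (cat (k * X.h) u v) (τ 0)) (X.x (cat (k * X.h) u v) (τ 0) - c)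
        rw [sub_add_sub_cancel] at this
        have z3 : ‖z - X.x (cat (k * X.h) u v) (τ 0)‖ ≤ X.η := z2
        linarith
      · push Not at h
        obtain ⟨c', h1, h2⟩ := h
        exact dead k (by omega) u h0 c' h1 h2
    | succ n ih =>
      intro k hk u h0
      by_cases h : ∀ z ∈ closedBall c (2 * r), Alive a u.1 z (k * X.h)
      · exact val_succ_le X.isW (by omega) (Filter.Eventually.of_forall fun v =>
          ih (k + 1) (by omega) _ (Or.inr fun z hz =>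
            (alive_cat_le ha.pos (X.tm_nonneg k) le_rfl u v z).2 (h z hz)))
      · push Not at h
        obtain ⟨c', h1, h2⟩ := h
        exact dead k (by omega) u h0 c' h1 h2
  refine (key X.N 0 (by omega) default (Or.inl rfl)).trans (ENNReal.ofReal_le_ofReal ?_)
  rw [mul_assoc, ← Real.exp_add]
  refine mul_le_mul_of_nonneg_left (Real.exp_le_exp.2 ?_) zero_le_two
  have : (m : ℝ) ≤ 2 * ((m - 1) / 2 : ℕ) + 2 := by
    exact_mod_cast (show m ≤ 2 * ((m - 1) / 2) + 2 by omega)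
  linarith

end Pool.Agent.MP_990230_pr.K8
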