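import Mathlib.Data.Int.Log
import Pool.Agent.MP_990230_pr.k8.Meas
import Pool.Agent.MP_990230_pr.k8.PhG
import Pool.Agent.MP_990230_pr.k8.One

-- ======== part 0: formerly Pool.Agent.MP_990230_pr.k8.Tree
section MrgPart0

/-! # SLE8 tools: dyadic boxes and the linear covering bound -/

open Set MeasureTheory Filter Complex
open scoped ENNReal Topology Real

noncomputable section

namespace Pool.Agent.MP_990230_pr.K8

/-- the dyadic interval `[j 2^k, (j+1) 2^k)` -/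
abbrev Bx : Type := ℤ × ℤ

namespace Bx

def len (J : Bx) : ℝ := (2 : ℝ) ^ J.1

def mid (J : Bx) : ℝ := (J.2 + 1 / 2) * J.len

def top (J : Bx) : ℂ := J.mid + J.len * I

/-- the square over the interval -/
def under (J : Bx) : Set ℂ :=
  {w | J.mid - J.len / 2 ≤ w.re ∧ w.re < J.mid + J.len / 2 ∧ 0 < w.im ∧ w.im ≤ J.len}

/-- its upper half -/
def wh (J : Bx) : Set ℂ := {w | |w.re - J.mid| ≤ J.len / 2 ∧ J.len / 2 ≤ w.im ∧ w.im ≤ J.len}

/-- the enlarged upper half -/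
def big (J : Bx) : Set ℂ := {w | |w.re - J.mid| < J.len ∧ J.len / 4 < w.im ∧ w.im < 5 * J.len / 4}

def c0 (J : Bx) : Bx := (J.1 - 1, 2 * J.2)

def c1 (J : Bx) : Bx := (J.1 - 1, 2 * J.2 + 1)

def desc (J : Bx) : Set Bx := {K | K.under ⊆ J.under}

variable (J : Bx)

theorem len_pos : 0 < J.len := zpow_pos two_pos _

@[simp] theorem top_re : J.top.re = J.mid := by simp [top]

@[simp] theorem top_im : J.top.im = J.len := by simp [top]

theorem len_c0 : J.c0.len = J.len / 2 := zpow_sub_one₀ two_ne_zero _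

theorem len_c1 : J.c1.len = J.len / 2 := zpow_sub_one₀ two_ne_zero _

theorem mid_c0 : J.c0.mid = J.mid - J.len / 4 := by
  rw [mid, len_c0, mid, c0]; push_cast; ring

theorem mid_c1 : J.c1.mid = J.mid + J.len / 4 := by
  rw [mid, len_c1, mid, c1]; push_cast; ring

theorem top_mem : J.top ∈ J.under := by
  have := J.len_pos
  refine ⟨?_, ?_, ?_, ?_⟩ <;> simp <;> linarith

theorem top_wh : J.top ∈ J.wh := by
  have := J.len_pos
  refine ⟨?_, ?_, ?_⟩ <;> simp <;> linarith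

theorem top_c0 : J.c0.top ∈ J.wh := by
  have := J.len_pos
  refine ⟨?_, ?_, ?_⟩
  · rw [top_re, mid_c0, abs_le]; constructor <;> linarith
  all_goals rw [top_im, len_c0]
  linarith

theorem top_c1 : J.c1.top ∈ J.wh := by
  have := J.len_pos
  refine ⟨?_, ?_, ?_⟩
  · rw [top_re, mid_c1, abs_le]; constructor <;> linarith
  all_goals rw [top_im, len_c1]
  linarith

theorem c0_sub : J.c0.under ⊆ J.under := fun w hw => by
  have := J.len_pos
  obtain ⟨h1, h2, h3, h4⟩ := hw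
  rw [mid_c0, len_c0] at h1 h2
  rw [len_c0] at h4
  exact ⟨by linarith, by linarith, h3, by linarith⟩

theorem c1_sub : J.c1.under ⊆ J.under := fun w hw => by
  have := J.len_pos
  obtain ⟨h1, h2, h3, h4⟩ := hw
  rw [mid_c1, len_c1] at h1 h2
  rw [len_c1] at h4
  exact ⟨by linarith, by linarith, h3, by linarith⟩

theorem split {w : ℂ} (hw : w ∈ J.under) : w ∈ J.wh ∨ w ∈ J.c0.under ∨ w ∈ J.c1.under := by
  obtain ⟨h1, h2, h3, h4⟩ := hw
  rcases le_or_gt (J.len / 2) w.im with h | h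
  · exact Or.inl ⟨abs_le.2 ⟨by linarith, by linarith⟩, h, h4⟩
  rcases lt_or_ge w.re J.mid with h' | h'
  · refine Or.inr (Or.inl ⟨?_, ?_, h3, ?_⟩) <;> simp only [mid_c0, len_c0] <;> linarith
  · refine Or.inr (Or.inr ⟨?_, ?_, h3, ?_⟩) <;> simp only [mid_c1, len_c1] <;> linarith

theorem disj_c : Disjoint J.c0.under J.c1.under := disjoint_left.2 fun w h0 h1 => by
  have a := h0.2.1
  have b := h1.1
  rw [mid_c0, len_c0] at a
  rw [mid_c1, len_c1] at b
  linarith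

theorem disj_desc {J J' : Bx} (h : Disjoint J.under J'.under) : Disjoint J.desc J'.desc :=
  disjoint_left.2 fun K h0 h1 => disjoint_left.1 h (h0 K.top_mem) (h1 K.top_mem)

theorem len_le {J K : Bx} (h : K ∈ J.desc) : K.len ≤ J.len := by
  simpa using (h K.top_mem).2.2.2

theorem norm_le {w : ℂ} (hw : w ∈ J.under) : ‖w - J.mid‖ ≤ 2 * J.len := by
  refine (norm_le_abs_re_add_abs_im _).trans ?_
  have h1 : |(w - J.mid).re| ≤ J.len / 2 := by
    rw [sub_re, ofReal_re, abs_le]; constructor <;> linarith [hw.1, hw.2.1]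
  have h2 : |(w - J.mid).im| ≤ J.len := by
    rw [sub_im, ofReal_im, sub_zero, abs_of_pos hw.2.2.1]; exact hw.2.2.2
  linarith [J.len_pos]

/-- the box of generation `k` over a point -/
def at' (k : ℤ) (x : ℝ) : Bx := (k, ⌊x / 2 ^ k⌋)

theorem mem_under_iff {w : ℂ} : w ∈ J.under ↔ J = at' J.1 w.re ∧ 0 < w.im ∧ w.im ≤ J.len := by
  have h := J.len_pos
  have key : J = at' J.1 w.re ↔ J.mid - J.len / 2 ≤ w.re ∧ w.re < J.mid + J.len / 2 := by
    rw [at', Prod.ext_iff, eq_comm (a := J.2), Int.floor_eq_iff]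
    change _ ∧ (_ ≤ w.re / J.len ∧ w.re / J.len < _) ↔ _
    rw [le_div_iff₀ h, div_lt_iff₀ h, mid]
    exact ⟨fun h => ⟨by linarith [h.2.1], by linarith [h.2.2]⟩,
      fun h => ⟨rfl, by linarith [h.1], by linarith [h.2]⟩⟩
  rw [key, and_assoc]
  rfl

theorem mem_at {k : ℤ} {w : ℂ} (h0 : 0 < w.im) (h1 : w.im ≤ 2 ^ k) : w ∈ (at' k w.re).under :=
  (mem_under_iff _).2 ⟨rfl, h0, h1⟩

/-- two dyadic squares with a common point are nested -/
theorem nested {J K : Bx} {w : ℂ} (hJ : w ∈ J.under) (hK : w ∈ K.under) (h : K.1 ≤ J.1) :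
    K.under ⊆ J.under := by
  obtain ⟨n, hn⟩ := Int.le.dest h
  induction n generalizing J with
  | zero =>
    have e : K.1 = J.1 := by simpa using hn
    rw [((mem_under_iff K).1 hK).1, ((mem_under_iff J).1 hJ).1, e]
  | succ n ih =>
    have h1 : w.im ≤ J.len / 2 := by
      refine hK.2.2.2.trans ?_
      rw [← len_c0]
      exact zpow_le_zpow_right₀ one_le_two (by simp only [c0]; omega)
    obtain ⟨a1, a2, a3, a4⟩ := hJ
    rcases lt_or_ge w.re J.mid with h' | h'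
    · refine (ih (J := J.c0) ⟨?_, ?_, a3, ?_⟩ (by simp only [c0]; omega)
        (by simp only [c0]; omega)).trans J.c0_sub <;> simp only [mid_c0, len_c0] <;> linarith
    · refine (ih (J := J.c1) ⟨?_, ?_, a3, ?_⟩ (by simp only [c1]; omega)
        (by simp only [c1]; omega)).trans J.c1_sub <;> simp only [mid_c1, len_c1] <;> linarith

theorem measurableSet_big : MeasurableSet J.big :=
  (measurableSet_lt (f := fun w : ℂ => |w.re - J.mid|) (by fun_prop) measurable_const).inter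
    ((measurableSet_lt measurable_const measurable_im).inter
      (measurableSet_lt measurable_im measurable_const))

theorem overlap (f : ℂ → ℝ≥0∞) (w : ℂ) : ∑' K : Bx, K.big.indicator f w ≤ 9 * f w := by
  classical
  set k0 := Int.log 2 w.im with hk
  set s : Finset Bx := (Finset.Icc k0 (k0 + 2)).biUnion fun k =>
    (Finset.Icc (⌊w.re / 2 ^ k⌋ - 1) (⌊w.re / 2 ^ k⌋ + 1)).image fun j => (k, j) with hs
  have hc : s.card ≤ 9 := by
    refine (Finset.card_biUnion_le_card_mul _ _ 3 fun k _ => Finset.card_image_le.trans ?_).trans ?_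
    · rw [Int.card_Icc]; omega
    · rw [Int.card_Icc]; omega
  have hm : ∀ K : Bx, w ∈ K.big → K ∈ s := fun K hK => by
    have h0 := K.len_pos
    have hy : 0 < w.im := by linarith [hK.2.1]
    have a1 : (2 : ℝ) ^ k0 ≤ w.im := by exact_mod_cast Int.zpow_log_le_self (b := 2) one_lt_two hy
    have a2 : w.im < (2 : ℝ) ^ (k0 + 1) := by
      exact_mod_cast Int.lt_zpow_succ_log_self (b := 2) one_lt_two w.im
    have a3 : (2 : ℝ) ^ (k0 - 1) < 2 ^ K.1 := by
      rw [zpow_sub_one₀ two_ne_zero]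
      change _ < K.len
      linarith [hK.2.2]
    have a4 : (2 : ℝ) ^ K.1 < 2 ^ (k0 + 1 + 1 + 1) := by
      rw [zpow_add_one₀ two_ne_zero, zpow_add_one₀ two_ne_zero]
      change K.len < _
      linarith [hK.2.1]
    rw [zpow_lt_zpow_iff_right₀ one_lt_two] at a3 a4
    have b := abs_lt.1 hK.1
    rw [mid] at b
    have b1 : K.2 - 1 ≤ ⌊w.re / K.len⌋ := Int.le_floor.2 (by
      rw [le_div_iff₀ h0]; push_cast; linarith [b.1])
    have b2 : ⌊w.re / K.len⌋ < K.2 + 2 := Int.floor_lt.2 (by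
      rw [div_lt_iff₀ h0]; push_cast; linarith [b.2])
    rw [len] at b1 b2
    exact Finset.mem_biUnion.2 ⟨K.1, Finset.mem_Icc.2 ⟨by omega, by omega⟩,
      Finset.mem_image.2 ⟨K.2, Finset.mem_Icc.2 ⟨by omega, by omega⟩, rfl⟩⟩
  rw [tsum_eq_sum (s := s) fun K hK => indicator_of_notMem (fun h => hK (hm K h)) _]
  refine (Finset.sum_le_card_nsmul _ _ (f w) fun K _ => indicator_le_self _ _ w).trans ?_
  rw [nsmul_eq_mul]
  gcongr
  exact_mod_cast hc

end Bx

open Bx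

/-- total weight of a family of boxes -/
def msr (e : Bx → ℝ≥0∞) : Measure Bx := Measure.count.withDensity e

theorem msr_apply (e : Bx → ℝ≥0∞) (S : Set Bx) : msr e S = ∑' K, S.indicator e K := by
  rw [msr, withDensity_apply _ (MeasurableSet.of_discrete),
    ← lintegral_indicator (MeasurableSet.of_discrete), lintegral_count]

theorem msr_single (e : Bx → ℝ≥0∞) (J : Bx) : msr e {J} = e J := by
  rw [msr_apply, tsum_eq_single J fun K hK => indicator_of_notMem (notMem_singleton_iff.2 hK) _,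
    indicator_of_mem (mem_singleton J)]

theorem msr_mono {e e' : Bx → ℝ≥0∞} {S : Set Bx} {c : ℝ≥0∞} (h : ∀ K ∈ S, e K ≤ c * e' K) :
    msr e S ≤ c * msr e' S := by
  rw [msr_apply, msr_apply, ← ENNReal.tsum_mul_left]
  refine ENNReal.tsum_le_tsum fun K => ?_
  by_cases hK : K ∈ S
  · rw [indicator_of_mem hK, indicator_of_mem hK]; exact h K hK
  · rw [indicator_of_notMem hK]; exact zero_le

/-- union bound over a family of boxes -/
theorem le_msr {Ω : Type*} [MeasurableSpace Ω] (μ : Measure Ω) {E : Set Ω} {S : Set Bx}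
    {A : Bx → Set Ω} {e : Bx → ℝ≥0∞} (h : ∀ u ∈ E, ∃ K ∈ S, u ∈ A K) (hA : ∀ K ∈ S, μ (A K) ≤ e K) :
    μ E ≤ msr e S := by
  have h1 : E ⊆ ⋃ K, {u | K ∈ S ∧ u ∈ A K} := fun u hu => by
    obtain ⟨K, h1, h2⟩ := h u hu
    exact mem_iUnion.2 ⟨K, h1, h2⟩
  rw [msr_apply]
  refine (measure_mono h1).trans ((measure_iUnion_le _).trans (ENNReal.tsum_le_tsum fun K => ?_))
  by_cases hK : K ∈ S
  · rw [indicator_of_mem hK]
    exact (measure_mono fun u hu => hu.2).trans (hA K hK)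
  · simp [hK]

/-- the energies of the enlarged boxes of a family -/
theorem msr_big {f : ℂ → ℝ≥0∞} (hf : Measurable f) {S : Set Bx} {R : Set ℂ} (hR : MeasurableSet R)
    (h : ∀ K ∈ S, K.big ⊆ R) : msr (fun K => ∫⁻ w in K.big, f w) S ≤ 9 * ∫⁻ w in R, f w := by
  rw [msr_apply, ← lintegral_indicator hR, ← lintegral_const_mul _ (hf.indicator hR)]
  refine le_trans ?_ (lintegral_mono fun w => overlap (R.indicator f) w)
  rw [lintegral_tsum fun K => ((hf.indicator hR).indicator K.measurableSet_big).aemeasurable]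
  refine ENNReal.tsum_le_tsum fun K => ?_
  by_cases hK : K ∈ S
  · rw [indicator_of_mem hK, indicator_indicator, inter_eq_left.2 (h K hK),
      lintegral_indicator K.measurableSet_big]
  · rw [indicator_of_notMem hK]; exact zero_le

/-- TREE -/
theorem tree {g : ℝ} (hg : 0 < g) : ∃ C : ℝ, 0 < C ∧ ∀ (u : ℂ → ℝ) (e : Bx → ℝ≥0∞),
    (∀ K : Bx, ∀ w ∈ K.wh, w ∈ K.under → ENNReal.ofReal ((u w - u K.top) ^ 2) ≤ e K) →
    ∀ (n : ℕ) (J : Bx) (t : ℝ), 0 < t → ∃ 𝒥 : Set Bx, 𝒥 ⊆ J.desc ∧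
      ENNReal.ofReal (t ^ 2) * msr (fun K => ENNReal.ofReal (K.len ^ g)) 𝒥 ≤
        ENNReal.ofReal (C * J.len ^ g) * msr e J.desc ∧
      ∀ v ∈ J.under, J.len < 2 ^ n * v.im → t ≤ |u v - u J.top| → ∃ K ∈ 𝒥, v ∈ K.under := by
  set q : ℝ := (1 / 2 : ℝ) ^ (g / 2) with hq
  have q0 : 0 < q := by positivity
  have q1 : q < 1 := Real.rpow_lt_one (by norm_num) (by norm_num) (by linarith)
  have q2 : q ^ 2 = (1 / 2 : ℝ) ^ g := by
    rw [hq, ← Real.rpow_natCast, ← Real.rpow_mul (by norm_num)]; norm_num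
  have q3 : 0 < 1 - q := by linarith
  refine ⟨1 / (1 - q) ^ 2, by positivity, fun u e he n => ?_⟩
  induction n with
  | zero =>
    intro J t _
    refine ⟨∅, empty_subset _, by simp, fun v hv h _ => ?_⟩
    rw [pow_zero, one_mul] at h
    exact absurd hv.2.2.2 (not_le.2 h)
  | succ n ih =>
    intro J t ht
    have hl := J.len_pos
    by_cases hj : ENNReal.ofReal (((1 - q) * t) ^ 2) ≤ e J
    · refine ⟨{J}, singleton_subset_iff.2 Subset.rfl, ?_, fun v hv _ _ => ⟨J, rfl, hv⟩⟩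
      have h1 : e J ≤ msr e J.desc := by
        rw [← msr_single e J]; exact measure_mono (singleton_subset_iff.2 Subset.rfl)
      rw [msr_single]
      refine le_trans (le_of_eq ?_) (mul_le_mul_right (hj.trans h1) _)
      rw [← ENNReal.ofReal_mul (by positivity), ← ENNReal.ofReal_mul (by positivity)]
      congr 1
      field_simp
    have hsm : ∀ w ∈ J.wh, w ∈ J.under → |u w - u J.top| < (1 - q) * t := fun w hw hw' => by
      by_contra h
      refine hj (le_trans (ENNReal.ofReal_le_ofReal ?_) (he J w hw hw'))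
      rw [← sq_abs (u w - _)]
      exact pow_le_pow_left₀ (by positivity) (not_lt.1 h) 2
    have child : ∀ K : Bx, K.len = J.len / 2 → K.top ∈ J.wh → K.top ∈ J.under →
        ∃ 𝒥 : Set Bx, 𝒥 ⊆ K.desc ∧
        ENNReal.ofReal (t ^ 2) * msr (fun K => ENNReal.ofReal (K.len ^ g)) 𝒥 ≤
          ENNReal.ofReal (1 / (1 - q) ^ 2 * J.len ^ g) * msr e K.desc ∧
        ∀ v ∈ K.under, J.len < 2 ^ (n + 1) * v.im → t ≤ |u v - u J.top| →
          ∃ K ∈ 𝒥, v ∈ K.under := fun K h1 h2 h2' => by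
      obtain ⟨𝒥, k1, k2, k3⟩ := ih K (q * t) (by positivity)
      refine ⟨𝒥, k1, ?_, fun v hv a1 a2 => k3 v hv (by rw [h1, pow_succ] at *; linarith) ?_⟩
      · have e1 : 1 / (1 - q) ^ 2 * K.len ^ g = q ^ 2 * (1 / (1 - q) ^ 2 * J.len ^ g) := by
          rw [h1, q2, show J.len / 2 = 1 / 2 * J.len by ring, Real.mul_rpow (by norm_num) hl.le]
          ring
        rw [e1, mul_pow, ENNReal.ofReal_mul (by positivity), ENNReal.ofReal_mul (by positivity),
          mul_assoc, mul_assoc] at k2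
        exact (ENNReal.mul_le_mul_iff_right (ENNReal.ofReal_pos.2 (pow_pos q0 2)).ne'
          ENNReal.ofReal_ne_top).1 k2
      · linarith [abs_sub_le (u v) (u K.top) (u J.top), hsm _ h2 h2']
    obtain ⟨A, a1, a2, a3⟩ := child _ J.len_c0 J.top_c0 (J.c0_sub J.c0.top_mem)
    obtain ⟨B, b1, b2, b3⟩ := child _ J.len_c1 J.top_c1 (J.c1_sub J.c1.top_mem)
    have s0 : J.c0.desc ⊆ J.desc := fun K hK => Subset.trans hK J.c0_sub
    have s1 : J.c1.desc ⊆ J.desc := fun K hK => Subset.trans hK J.c1_sub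
    refine ⟨A ∪ B, union_subset (a1.trans s0) (b1.trans s1), ?_, fun v hv h1 h2 => ?_⟩
    · refine (mul_le_mul_right (measure_union_le A B) _).trans ?_
      rw [mul_add]
      refine (add_le_add a2 b2).trans ?_
      rw [← mul_add, ← measure_union (disj_desc J.disj_c) MeasurableSet.of_discrete]
      exact mul_le_mul_right (measure_mono (union_subset s0 s1)) _
    · rcases J.split hv with h | h | h
      · nlinarith [hsm v h hv, mul_pos q0 ht]
      · obtain ⟨K, k1, k2⟩ := a3 v h h1 h2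
        exact ⟨K, Or.inl k1, k2⟩
      · obtain ⟨K, k1, k2⟩ := b3 v h h1 h2
        exact ⟨K, Or.inr k1, k2⟩

end Pool.Agent.MP_990230_pr.K8

end
end MrgPart0

-- ======== part 1: formerly Pool.Agent.MP_990230_pr.k8.Cover
section MrgPart1

/-! # SLE8 tools: coverings of the exceptional sets DEV, UC, USC by dyadic boxes -/

open Set MeasureTheory Filter Complex
open scoped ENNReal Topology Real

noncomputable section

namespace Pool.Agent.MP_990230_pr.K8

open Bx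

variable {G : ℂ → ℂ} {Λ : ℝ}

/-- the level clamped to `[d1, d2]` -/
def clp (G : ℂ → ℂ) (d1 d2 : ℝ) (w : ℂ) : ℝ := max d1 (min d2 (Real.log ‖G w‖))

theorem Conf.inv (h : Conf Λ G) : Conf Λ fun w => (G w)⁻¹ where
  diff := fun w hw => (h.diff w hw).inv (h.ne w hw)
  inj := fun _ hw _ hw' e => h.inj hw hw' (inv_injective e)
  ne := fun w hw => inv_ne_zero (h.ne w hw)
  lip := fun w hw => by
    have h1 := norm_pos_iff.2 (h.ne w hw)
    rw [deriv_fun_inv'' (h.diff w hw) (h.ne w hw), norm_div, norm_neg, norm_pow, norm_inv,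
      div_mul_eq_mul_div, div_le_iff₀ (by positivity)]
    refine (h.lip w hw).trans_eq ?_
    field_simp

theorem log_inv_norm (z : ℂ) : Real.log ‖z⁻¹‖ = -Real.log ‖z‖ := by rw [norm_inv, Real.log_inv]

theorem Conf.seg_le (h : Conf Λ G) {M : ℝ} {w w' : ℂ}
    (hM : ∀ s ∈ Icc (0 : ℝ) 1, 0 < (w + s * (w' - w)).im ∧
      ‖deriv G (w + s * (w' - w)) / G (w + s * (w' - w))‖ ≤ M) :
    |Real.log ‖G w'‖ - Real.log ‖G w‖| ≤ M * ‖w' - w‖ := by
  have hγ : ∀ s : ℝ, HasDerivAt (fun r : ℝ => w + r * (w' - w)) (w' - w) s := fun s => by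
    simpa using (((hasDerivAt_id (s : ℂ)).mul_const (w' - w)).const_add w).comp_ofReal
  have h1 := norm_image_sub_le_of_norm_deriv_le_segment_01'
    (f := fun r : ℝ => Real.log ‖G (w + r * (w' - w))‖) (C := M * ‖w' - w‖)
    (f' := fun s => (deriv G (w + s * (w' - w)) * (w' - w) / G (w + s * (w' - w))).re)
    (fun s hs => (hasDerivAt_log_norm ((h.diff _ (hM s hs).1).hasDerivAt.comp_of_eq s (hγ s) rfl)
      (h.ne _ (hM s hs).1)).hasDerivWithinAt) fun s hs => by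
      refine (abs_re_le_norm _).trans ?_
      rw [mul_div_right_comm, norm_mul]
      exact mul_le_mul_of_nonneg_right (hM s (Ico_subset_Icc_self hs)).2 (norm_nonneg _)
  simpa using h1

theorem norm_le_of {w w' : ℂ} {A B : ℝ} (h1 : |w.re - w'.re| ≤ A) (h2 : |w.im - w'.im| ≤ B) :
    ‖w - w'‖ ≤ A + B := (norm_le_abs_re_add_abs_im _).trans (add_le_add h1 h2)

theorem Conf.near (h : Conf 2 G) {m k : ℝ} (hm : 0 < m) {w w' : ℂ} (hw : m ≤ w.im) (hw' : m ≤ w'.im)
    (hk : ‖w' - w‖ ≤ k * m) : |Real.log ‖G w'‖ - Real.log ‖G w‖| ≤ 2 * k :=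
  (h.lip_seg hm hw hw').trans (by rw [div_le_iff₀ hm]; linarith)

/-- OSC on a Whitney box -/
theorem Conf.jump (h : Conf 2 G) (d1 d2 : ℝ) (K : Bx) {w : ℂ} (hw : w ∈ K.wh) :
    ENNReal.ofReal ((clp G d1 d2 w - clp G d1 d2 K.top) ^ 2) ≤
      ∫⁻ z in K.big, 64 * dens G (d1 - 20) (d2 + 20) z ^ 2 := by
  have hl := K.len_pos
  rcases eq_or_ne (clp G d1 d2 w) (clp G d1 d2 K.top) with e | e
  · simp [e]
  have hm := h.toUniv.measurable_dens (d1 - 20) (d2 + 20)
  have hnear : ∀ p ∈ K.wh, ∀ z ∈ K.big, |Real.log ‖G z‖ - Real.log ‖G p‖| ≤ 2 * 10 :=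
    fun p hp z hz => h.near (m := K.len / 4) (by linarith) (by linarith [hp.2.1]) hz.2.1.le
      ((norm_le_of (A := 3 / 2 * K.len) (B := K.len)
        (by linarith [abs_sub_le z.re K.mid p.re, abs_sub_comm K.mid p.re, hp.1, hz.1])
        (abs_le.2 ⟨by linarith [hp.2.2, hz.2.1], by linarith [hp.2.1, hz.2.2]⟩)).trans (by linarith))
  have hband : K.big ⊆ bnd G (d1 - 20) (d2 + 20) := fun z hz => by
    have h0 : 0 < z.im := by linarith [hz.2.1]
    have h1 := norm_pos_iff.2 (h.ne z h0)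
    have a1 := abs_le.1 (hnear w hw z hz)
    have a2 := abs_le.1 (hnear _ K.top_wh z hz)
    refine ⟨h0, (Real.le_log_iff_exp_le h1).1 (le_of_not_gt fun hc => e ?_),
      (Real.log_le_iff_le_exp h1).1 (le_of_not_gt fun hc => e ?_)⟩
    · rw [clp, clp, max_eq_left ((min_le_right _ _).trans (by linarith)),
        max_eq_left ((min_le_right _ _).trans (by linarith))]
    · rw [clp, clp, min_eq_left (by linarith), min_eq_left (by linarith)]
  rw [lintegral_const_mul _ (hm.pow_const 2)]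
  rcases eq_or_ne (∫⁻ z in K.big, dens G (d1 - 20) (d2 + 20) z ^ 2) ⊤ with e1 | e1
  · rw [e1, ENNReal.mul_top (by norm_num)]; exact le_top
  set E := (∫⁻ z in K.big, dens G (d1 - 20) (d2 + 20) z ^ 2).toReal with hE
  have E0 : 0 ≤ E := ENNReal.toReal_nonneg
  have hH : IsOpen {z : ℂ | 0 < z.im} := isOpen_lt continuous_const continuous_im
  have hd : DifferentiableOn ℂ G {z : ℂ | 0 < z.im} := fun z hz =>
    (h.diff z hz).differentiableWithinAt
  have hM : ∀ p ∈ K.wh, ‖deriv G p / G p‖ ≤ 8 * √E / K.len := fun p hp => by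
    have hb : Metric.ball p (2 * (K.len / 8)) ⊆ K.big := fun z hz => by
      rw [mem_ball_iff_norm] at hz
      have b1 := (abs_re_le_norm (z - p)).trans_lt hz
      have b2 := abs_lt.1 ((abs_im_le_norm (z - p)).trans_lt hz)
      rw [sub_re] at b1
      rw [sub_im] at b2
      exact ⟨by linarith [abs_sub_le z.re p.re K.mid, hp.1], by linarith [hp.2.1, b2.1],
        by linarith [hp.2.2, b2.2]⟩
    have h1 := (mean_sq (f := fun z => deriv G z / G z) (by positivity)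
      (((hd.deriv hH).div hd fun z hz => h.ne z hz).mono fun z hz => (hband (hb hz)).1) hm
      fun z hz => (dens_of_mem (hband (hb hz))).ge).trans (lintegral_mono_set hb)
    rw [ENNReal.ofReal_le_iff_le_toReal e1] at h1
    have h2 := Real.le_sqrt_of_sq_le h1
    rw [le_div_iff₀ hl]
    linarith
  have h3 := h.seg_le (w := K.top) (w' := w) (M := 8 * √E / K.len) fun s hs => by
    have hp : K.top + s * (w - K.top) ∈ K.wh := by
      have a := abs_le.1 hw.1
      refine ⟨abs_le.2 ⟨?_, ?_⟩, ?_, ?_⟩ <;> simp <;> nlinarith [hs.1, hs.2, hw.2.1, hw.2.2]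
    exact ⟨by linarith [hp.2.1], hM _ hp⟩
  have h4 : ‖w - K.top‖ ≤ K.len / 2 + K.len / 2 := norm_le_of (by simpa using hw.1)
    (by rw [top_im, abs_le]; constructor <;> linarith [hw.2.1, hw.2.2])
  have h5 : |clp G d1 d2 w - clp G d1 d2 K.top| ≤ 8 * √E := by
    have a1 : |clp G d1 d2 w - clp G d1 d2 K.top| ≤ |Real.log ‖G w‖ - Real.log ‖G K.top‖| := by
      unfold clp
      rw [max_comm d1, max_comm d1, min_comm d2, min_comm d2]
      exact (abs_max_sub_max_le_abs _ _ _).trans (abs_min_sub_min_le_max _ _ _ _ |>.trans (by simp))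
    refine a1.trans (h3.trans ?_)
    rw [div_mul_eq_mul_div, div_le_iff₀ hl]
    have := Real.sqrt_nonneg E
    nlinarith
  rw [← ENNReal.ofReal_toReal e1, ← hE, ← ENNReal.ofReal_ofNat 64, ← ENNReal.ofReal_mul (by norm_num),
    ← sq_abs]
  refine ENNReal.ofReal_le_ofReal ((pow_le_pow_left₀ (abs_nonneg _) h5 2).trans_eq ?_)
  rw [mul_pow, Real.sq_sqrt E0]; norm_num

/-- the relative weight of a box under a root -/
def wt (g : ℝ) (p : Bx × Bx) : ℝ≥0∞ := ENNReal.ofReal ((p.2.len / p.1.len) ^ g)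

/-- TREE under a family of roots with disjoint territories -/
theorem forest {g : ℝ} (hg : 0 < g) : ∃ C : ℝ, 0 < C ∧ ∀ (R : Set Bx) (u : Bx → ℂ → ℝ)
    (e : Bx → ℝ≥0∞) (T : Bx → Set Bx), R.PairwiseDisjoint T →
    (∀ J ∈ R, ∀ K ∈ J.desc, ∀ w ∈ K.wh, w ∈ K.under →
      ENNReal.ofReal ((u J w - u J K.top) ^ 2) ≤ (T J).indicator e K) →
    ∀ t y0 : ℝ, 0 < t → 0 < y0 → ∃ S : Set (Bx × Bx), (∀ p ∈ S, p.1 ∈ R ∧ p.2 ∈ p.1.desc) ∧
      ENNReal.ofReal (t ^ 2) * ∑' p : S, wt g p ≤ ENNReal.ofReal C * msr e (⋃ J ∈ R, T J) ∧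
      ∀ J ∈ R, ∀ v ∈ J.under, y0 ≤ v.im → t ≤ |u J v - u J J.top| →
        ∃ K, (J, K) ∈ S ∧ v ∈ K.under := by
  classical
  obtain ⟨C, hC, H⟩ := tree hg
  refine ⟨C, hC, fun R u e T hT he t y0 ht hy => ?_⟩
  have h1 : ∀ J : Bx, ∃ n : ℕ, J.len < 2 ^ n * y0 := fun J => by
    obtain ⟨n, hn⟩ := pow_unbounded_of_one_lt (J.len / y0) one_lt_two
    exact ⟨n, (div_lt_iff₀ hy).1 hn⟩
  choose n hn using h1
  choose! F F1 F2 F3 using fun J (hJ : J ∈ R) => H (u J)
    (fun K => if K ∈ J.desc then (T J).indicator e K else ⊤) (fun K w h1 h2 => by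
      split_ifs with h
      exacts [he J hJ K h w h1 h2, le_top]) (n J) J t ht
  refine ⟨{p | p.1 ∈ R ∧ p.2 ∈ F p.1}, fun p hp => ⟨hp.1, F1 _ hp.1 hp.2⟩, ?_,
    fun J hJ v hv h1 h2 => ?_⟩
  · rw [measure_biUnion (to_countable R) hT fun _ _ => MeasurableSet.of_discrete, tsum_subtype,
      tsum_subtype R (fun J => msr e (T J)), ENNReal.tsum_prod', ← ENNReal.tsum_mul_left,
      ← ENNReal.tsum_mul_left]
    refine ENNReal.tsum_le_tsum fun J => ?_
    by_cases hJ : J ∈ R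
    swap
    · simp [indicator, hJ]
    have hl := J.len_pos
    have a0 : ∑' K, indicator {p : Bx × Bx | p.1 ∈ R ∧ p.2 ∈ F p.1} (wt g) (J, K) =
        msr (fun K => wt g (J, K)) (F J) := by
      rw [msr_apply]
      exact tsum_congr fun K => by by_cases hK : K ∈ F J <;> simp [indicator, hJ, hK]
    have a1 : msr (fun K => wt g (J, K)) (F J) ≤
        ENNReal.ofReal ((J.len ^ g)⁻¹) * msr (fun K => ENNReal.ofReal (K.len ^ g)) (F J) :=
      msr_mono fun K _ => by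
        rw [wt, Real.div_rpow K.len_pos.le hl.le, ← ENNReal.ofReal_mul (by positivity),
          div_eq_inv_mul]
    have a2 : msr (fun K => if K ∈ J.desc then (T J).indicator e K else ⊤) J.desc ≤
        msr e (T J) := by
      rw [msr_apply, msr_apply]
      exact ENNReal.tsum_le_tsum fun K => indicator_apply_le' (fun h => by rw [if_pos h])
        fun _ => zero_le
    rw [indicator_of_mem hJ, a0]
    refine (mul_le_mul_right a1 _).trans ?_
    rw [mul_left_comm]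
    refine (mul_le_mul_right ((F2 J hJ).trans (mul_le_mul_right a2 _)) _).trans (le_of_eq ?_)
    rw [← mul_assoc, ← ENNReal.ofReal_mul (by positivity)]
    congr 2
    field_simp
  · obtain ⟨K, k1, k2⟩ := F3 J hJ v hv ((hn J).trans_le (by gcongr)) h2
    exact ⟨K, ⟨hJ, k1⟩, k2⟩

/-- the intervals `[2^k, 2^(k+1))` and `[-2^(k+1), -2^k)` -/
def DyR (J : Bx) : Prop := |J.mid| = 3 / 2 * J.len

theorem DyR.re {J : Bx} (h : DyR J) {w : ℂ} (hw : w ∈ J.under) :
    J.len ≤ |w.re| ∧ |w.re| ≤ 2 * J.len := by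
  have h1 : |w.re - J.mid| ≤ J.len / 2 := abs_le.2 ⟨by linarith [hw.1], by linarith [hw.2.1]⟩
  have h2 := abs_le.1 ((abs_abs_sub_abs_le _ _).trans h1)
  rw [h] at h2
  exact ⟨by linarith [h2.1], by linarith [h2.2]⟩

theorem eq_of_gen {J K : Bx} {w : ℂ} (hJ : w ∈ J.under) (hK : w ∈ K.under) (h : J.1 = K.1) :
    J = K := by rw [((mem_under_iff K).1 hK).1, ((mem_under_iff J).1 hJ).1, h]

theorem DyR.uniq {J K : Bx} (hJ : DyR J) (hK : DyR K) {w : ℂ} (h1 : w ∈ J.under) (h2 : w ∈ K.under) :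
    J = K := by
  have key : ∀ {J K : Bx}, DyR J → DyR K → w ∈ J.under → w ∈ K.under → ¬ K.1 < J.1 := by
    intro J K hJ hK h1 h2 h
    have a1 := (hJ.re (nested h1 h2 h.le K.top_mem)).1
    have a2 : K.len ≤ J.len / 2 := by
      rw [← len_c0]
      exact zpow_le_zpow_right₀ one_le_two (by simp only [c0]; omega)
    rw [top_re, hK] at a1
    linarith [J.len_pos]
  exact eq_of_gen h1 h2 (le_antisymm (not_lt.1 (key hJ hK h1 h2)) (not_lt.1 (key hK hJ h2 h1)))

theorem exists_rt {v : ℂ} (hv : 0 < v.im) (h : 2 * v.im < |v.re|) : ∃ J, DyR J ∧ v ∈ J.under := by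
  rcases lt_or_ge v.re 0 with h0 | h0
  · rw [abs_of_neg h0] at h
    have a1 : (2 : ℝ) ^ (Int.clog 2 (-v.re) - 1) < -v.re := by
      exact_mod_cast Int.zpow_pred_clog_lt_self (b := 2) one_lt_two (neg_pos.2 h0)
    have a2 : -v.re ≤ (2 : ℝ) ^ (Int.clog 2 (-v.re) - 1 + 1) := by
      rw [sub_add_cancel]
      exact_mod_cast Int.self_le_zpow_clog (b := 2) one_lt_two (-v.re)
    rw [zpow_add_one₀ two_ne_zero] at a2
    have e : mid (Int.clog 2 (-v.re) - 1, -2) = -(3 / 2 * len (Int.clog 2 (-v.re) - 1, -2)) := by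
      rw [mid]; push_cast; ring
    refine ⟨(Int.clog 2 (-v.re) - 1, -2), ?_, ?_, ?_, hv, ?_⟩
    · rw [DyR, e, abs_neg, abs_of_pos (by linarith [len_pos (Int.clog 2 (-v.re) - 1, -2)])]
    all_goals simp only [e, len]
    all_goals linarith
  · rw [abs_of_nonneg h0] at h
    have a1 : (2 : ℝ) ^ Int.log 2 v.re ≤ v.re := by
      exact_mod_cast Int.zpow_log_le_self (b := 2) (r := v.re) one_lt_two (by linarith)
    have a2 : v.re < (2 : ℝ) ^ (Int.log 2 v.re + 1) := by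
      exact_mod_cast Int.lt_zpow_succ_log_self (b := 2) one_lt_two v.re
    rw [zpow_add_one₀ two_ne_zero] at a2
    have e : mid (Int.log 2 v.re, 1) = 3 / 2 * len (Int.log 2 v.re, 1) := by
      rw [mid]; push_cast; ring
    refine ⟨(Int.log 2 v.re, 1), ?_, ?_, ?_, hv, ?_⟩
    · rw [DyR, e, abs_of_pos (by linarith [len_pos (Int.log 2 v.re, 1)])]
    all_goals simp only [e, len]
    all_goals linarith

theorem Conf.axis (h : Conf 2 G) {v : ℂ} (hv : 0 < v.im) (h1 : |v.re| ≤ 2 * v.im) :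
    |Real.log ‖G v‖ - Real.log ‖G (‖v‖ * I)‖| ≤ 2 * 4 := by
  have a1 : v.im ≤ ‖v‖ := (le_abs_self _).trans (abs_im_le_norm v)
  have a2 := norm_le_abs_re_add_abs_im v
  rw [abs_of_pos hv] at a2
  refine h.near hv (by simpa using a1) le_rfl ((norm_le_of (A := 2 * v.im) (B := 2 * v.im)
    (by simpa using h1) ?_).trans (by linarith))
  rw [abs_le]
  constructor <;> simp <;> linarith

theorem gen_le {J K : Bx} (h : K.len ≤ J.len) : K.1 ≤ J.1 :=
  (zpow_le_zpow_iff_right₀ one_lt_two).1 h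

theorem len_half {J K : Bx} (h : K.1 < J.1) : K.len ≤ J.len / 2 := by
  rw [← len_c0]
  exact zpow_le_zpow_right₀ one_le_two (by simp only [c0]; omega)

theorem re_near {J : Bx} {w : ℂ} (hw : w ∈ J.under) : |w.re - J.mid| ≤ J.len / 2 :=
  abs_le.2 ⟨by linarith [hw.1], by linarith [hw.2.1]⟩

theorem exists_wh {w : ℂ} (hw : 0 < w.im) : ∃ K : Bx, w ∈ K.under ∧ K.len ≤ 2 * w.im := by
  have a1 : (2 : ℝ) ^ (Int.clog 2 w.im - 1) < w.im := by
    exact_mod_cast Int.zpow_pred_clog_lt_self (b := 2) one_lt_two hw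
  have a2 : w.im ≤ (2 : ℝ) ^ Int.clog 2 w.im := by
    exact_mod_cast Int.self_le_zpow_clog (b := 2) one_lt_two w.im
  rw [zpow_sub_one₀ two_ne_zero] at a1
  exact ⟨_, mem_at hw a2, by simp only [len, at']; linarith⟩

theorem Conf.wh (h : Conf 2 G) {K : Bx} {w : ℂ} (hw : w ∈ K.under) (h1 : K.len ≤ 2 * w.im) :
    |ln G w - ln G K.top| ≤ 2 * 2 :=
  h.near (half_pos K.len_pos) (by rw [top_im]; linarith [K.len_pos]) (by linarith)
    ((norm_le_of (A := K.len / 2) (B := K.len / 2) (by simpa using re_near hw)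
      (by rw [top_im, abs_le]; constructor <;> linarith [hw.2.2.2, K.len_pos])).trans (by linarith))

theorem mid_ne (K : Bx) : K.mid ≠ 0 := by
  refine mul_ne_zero (fun h => ?_) K.len_pos.ne'
  have : (2 * K.2 + 1 : ℤ) = 0 := by exact_mod_cast (by linarith : (2 * K.2 + 1 : ℝ) = 0)
  omega

theorem near_mid {K : Bx} {w : ℂ} (hw : w ∈ K.under) : ‖w - K.mid‖ < 3 * K.len :=
  (K.norm_le hw).trans_lt (by linarith [K.len_pos])

/-- maximal high boxes under a low box -/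
def Hr (G : ℂ → ℂ) (L0 L : ℝ) : Set Bx := {J | L - 20 ≤ ln G J.top ∧ ∃ I : Bx, ln G I.top ≤ L0 ∧
  J ∈ I.desc ∧ ∀ J' ∈ I.desc, L - 20 ≤ ln G J'.top → J ∈ J'.desc → J' = J}

/-- boxes under `J` that are not under a low box -/
def Tr (G : ℂ → ℂ) (L0 : ℝ) (J : Bx) : Set Bx :=
  {K | K ∈ J.desc ∧ ∀ K' ∈ J.desc, K ∈ K'.desc → L0 < ln G K'.top}

open Classical in
/-- the level, frozen under the low boxes -/
def ufr (G : ℂ → ℂ) (L0 L : ℝ) (J : Bx) (w : ℂ) : ℝ :=
  if ∃ K ∈ J.desc, ln G K.top ≤ L0 ∧ w ∈ K.under then L - 20 else clp G (L - 20) L w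

theorem tr_disj (G : ℂ → ℂ) (L0 L : ℝ) : (Hr G L0 L).PairwiseDisjoint (Tr G L0) := by
  have key : ∀ J ∈ Hr G L0 L, ∀ J' ∈ Hr G L0 L, ∀ K ∈ Tr G L0 J, K ∈ Tr G L0 J' → J'.1 ≤ J.1 →
      J = J' := fun J hJ J' hJ' K hK hK' h => by
    obtain ⟨-, I, i1, i2, i3⟩ := hJ'
    have a1 := hK.1 K.top_mem
    have a2 := hK'.1 K.top_mem
    rcases le_total J.1 I.1 with c | c
    · exact i3 J (nested (i2 a2) a1 c) hJ.1 (nested a1 a2 h)
    · exact absurd i1 (not_le.2 (hK.2 I (nested a1 (i2 a2) c) (Subset.trans hK'.1 i2)))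
  intro J hJ J' hJ' hne
  refine disjoint_left.2 fun K hK hK' => hne ?_
  rcases le_total J'.1 J.1 with c | c
  · exact key J hJ J' hJ' K hK hK' c
  · exact (key J' hJ' J hJ K hK' hK c).symm

theorem ufr_jump (h : Conf 2 G) {L0 L : ℝ} (hL : L0 + 30 ≤ L) (J : Bx) {K : Bx} (hK : K ∈ J.desc)
    {w : ℂ} (h1 : w ∈ K.wh) (h2 : w ∈ K.under) :
    ENNReal.ofReal ((ufr G L0 L J w - ufr G L0 L J K.top) ^ 2) ≤ (Tr G L0 J).indicator
      (fun K => ∫⁻ z in K.big, 64 * dens G (L - 20 - 20) (L + 20) z ^ 2) K := by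
  by_cases hT : K ∈ Tr G L0 J
  · have key : ∀ w ∈ K.wh, w ∈ K.under → ufr G L0 L J w = clp G (L - 20) L w := fun w h1 h2 => by
      unfold ufr
      split_ifs with c
      swap
      · rfl
      obtain ⟨K', k1, k2, k3⟩ := c
      rcases le_or_gt K.1 K'.1 with c | c
      · exact absurd k2 (not_le.2 (hT.2 K' k1 (nested k3 h2 c)))
      have a := abs_le.1 (h.wh k3 (by linarith [len_half c, h1.2.1, K'.len_pos]))
      exact (max_eq_left ((min_le_right _ _).trans (show ln G w ≤ _ by linarith))).symm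
    rw [indicator_of_mem hT, key w h1 h2, key _ K.top_wh K.top_mem]
    exact h.jump _ _ K h1
  · have : ∃ K' ∈ J.desc, K ∈ K'.desc ∧ ln G K'.top ≤ L0 := by
      by_contra c
      exact hT ⟨hK, fun K' a b => lt_of_not_ge fun d => c ⟨K', a, b, d⟩⟩
    obtain ⟨K', k1, k2, k3⟩ := this
    rw [ufr, ufr, if_pos ⟨K', k1, k3, k2 h2⟩, if_pos ⟨K', k1, k3, k2 K.top_mem⟩]
    simp

theorem exists_root (h : Conf 2 G) {L0 L : ℝ} (hL : L0 + 30 ≤ L) {w : ℂ} {I : Bx}
    (hw : w ∈ I.under) (h0 : ln G I.top ≤ L0) (h1 : L ≤ ln G w) :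
    ∃ J ∈ Hr G L0 L, w ∈ J.under ∧ 1 ≤ |ufr G L0 L J w - ufr G L0 L J J.top| ∧
      ∃ I' : Bx, J ∈ I'.desc ∧ ln G I'.top ≤ L0 ∧ I'.len ≤ I.len := by
  have hp := hw.2.2.1
  obtain ⟨K0, z1, z2⟩ := exists_wh hp
  have z3 : ∀ K : Bx, w ∈ K.under → K0.1 - 1 ≤ K.1 := fun K hK => by
    have : K0.c0.1 ≤ K.1 := gen_le (by rw [len_c0]; linarith [hK.2.2.2])
    exact this
  have z4 := abs_le.1 (h.wh z1 z2)
  obtain ⟨_, ⟨I', i1, i2, rfl⟩, i3⟩ := Int.exists_least_of_bdd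
    (P := fun k => ∃ K : Bx, w ∈ K.under ∧ ln G K.top ≤ L0 ∧ K.1 = k)
    ⟨K0.1 - 1, by rintro _ ⟨K, a, -, rfl⟩; exact z3 K a⟩ ⟨_, I, hw, h0, rfl⟩
  have i4 : K0.1 ≤ I'.1 := by
    by_contra c
    have a := abs_le.1 (h.wh i1 (by linarith [len_half (not_le.1 c)]))
    linarith [a.2]
  obtain ⟨_, ⟨J, j1, j2, j3, rfl⟩, j4⟩ := Int.exists_greatest_of_bdd
    (P := fun k => ∃ K : Bx, w ∈ K.under ∧ L - 20 ≤ ln G K.top ∧ K.1 ≤ I'.1 ∧ K.1 = k)
    ⟨I'.1, by rintro _ ⟨K, -, -, a, rfl⟩; exact a⟩ ⟨_, K0, z1, by linarith [z4.2], i4, rfl⟩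
  have j5 : J.1 < I'.1 := lt_of_le_of_ne j3 fun e => by
    rw [eq_of_gen j1 i1 e] at j2; linarith
  have hl := J.len_pos
  refine ⟨J, ⟨j2, I', i2, nested i1 j1 j3, fun J' a b c => eq_of_gen (c j1) j1 (le_antisymm
    (j4 _ ⟨J', c j1, b, gen_le (len_le a), rfl⟩) (gen_le (len_le c)))⟩, j1, ?_, I', nested i1 j1 j3,
    i2, zpow_le_zpow_right₀ one_le_two (i3 _ ⟨I, hw, h0, rfl⟩)⟩
  have e2 : (at' (J.1 + 1) w.re).len = 2 * J.len := by
    simp only [len, at']; rw [zpow_add_one₀ two_ne_zero]; ring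
  have p1 : w ∈ (at' (J.1 + 1) w.re).under :=
    mem_at hp (j1.2.2.2.trans (show J.len ≤ (at' (J.1 + 1) w.re).len by linarith))
  have p2 : ln G (at' (J.1 + 1) w.re).top < L - 20 := lt_of_not_ge fun c => by
    have := j4 _ ⟨_, p1, c, j5, rfl⟩
    simp only [at'] at this
    omega
  have p3 := abs_le.1 (h.wh (nested p1 j1 (by simp [at']) J.top_mem) (by rw [e2, top_im]))
  rw [ufr, ufr, if_neg, if_neg, clp, clp, min_eq_left (show L ≤ Real.log ‖G w‖ from h1),
    max_eq_right (a := L - 20) (b := L) (by linarith)]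
  · refine le_abs.2 (Or.inl ?_)
    have : max (L - 20) (min L (Real.log ‖G J.top‖)) ≤ L - 16 :=
      max_le (by linarith) ((min_le_right _ _).trans (show ln G _ ≤ _ by linarith [p3.2]))
    linarith
  · rintro ⟨K, k1, k2, k3⟩
    rw [eq_of_gen k3 J.top_mem (le_antisymm (gen_le (len_le k1))
      (gen_le (by simpa using k3.2.2.2)))] at k2
    linarith
  · rintro ⟨K, k1, k2, k3⟩
    have := i3 _ ⟨K, k3, k2, rfl⟩
    have := gen_le (len_le k1)
    omega

theorem root_small (h : Conf Λ G) (h0 : 0 < Λ) (h2 : Λ ≤ 2) {L0 L : ℝ} {I J : Bx} (hJ : J ∈ I.desc)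
    (a1 : ln G I.top ≤ L0) (a2 : L - 20 ≤ ln G J.top) :
    J.len * Real.exp ((L - L0 - 21) / Λ) ≤ I.len := by
  have hl := J.len_pos
  have hI := I.len_pos
  have b1 := abs_le.1 (h.lip_vert J.mid hl (len_le hJ))
  have b2 := abs_le.1 ((h.mono h2).near (k := 1 / 2) hI (w := I.top) (w' := J.mid + I.len * Complex.I)
    (by simp) (by simp) ((norm_le_of (A := I.len / 2) (B := 0)
      (by simpa using re_near (hJ J.top_mem)) (by simp)).trans (by linarith)))
  rw [← le_div_iff₀' hl, ← Real.le_log_iff_exp_le (by positivity), div_le_iff₀ h0]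
  unfold ln at a1 a2
  unfold top at a2
  linarith [b1.1, b2.2]

/-- the cover of the points that are much higher than a box above them -/
theorem cover_high {g : ℝ} (hg : 0 < g) : ∃ C : ℝ, 0 < C ∧ ∀ (G : ℂ → ℂ) (Λ y0 L0 L : ℝ),
    Conf Λ G → 0 < Λ → Λ ≤ 2 → 0 < y0 → L0 + 30 ≤ L → ∃ S : Set (Bx × Bx),
      (∀ p ∈ S, p.2 ∈ p.1.desc) ∧ ∑' p : S, wt g p ≤ ENNReal.ofReal C ∧
      ∀ (w : ℂ) (I : Bx), y0 ≤ w.im → w ∈ I.under → ln G I.top ≤ L0 → L ≤ ln G w →
        ∃ p ∈ S, w ∈ p.2.under ∧ p.1.len * Real.exp ((L - L0 - 21) / Λ) ≤ I.len := by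
  obtain ⟨C, hC, H⟩ := forest hg
  refine ⟨C * (9 * (64 * (2 * π * 60))), by positivity, fun G Λ y0 L0 L h h0 h2 hy hL => ?_⟩
  have h' := h.mono h2
  have hm := (h.toUniv.measurable_dens (L - 20 - 20) (L + 20)).pow_const 2
  obtain ⟨S, s1, s2, s3⟩ := H (Hr G L0 L) (ufr G L0 L)
    (fun K => ∫⁻ z in K.big, 64 * dens G (L - 20 - 20) (L + 20) z ^ 2) (Tr G L0) (tr_disj G L0 L)
    (fun J _ K hK w a b => ufr_jump h' hL J hK a b) 1 y0 one_pos hy
  refine ⟨S, fun p hp => (s1 p hp).2, ?_, fun w I a1 a2 a3 a4 => ?_⟩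
  · have b1 := msr_big (hm.const_mul 64) (S := ⋃ J ∈ Hr G L0 L, Tr G L0 J) MeasurableSet.univ
      fun K _ => subset_univ _
    have b2 := h.toUniv.energy_le (L - 20 - 20) (L + 20)
    rw [Measure.restrict_univ, lintegral_const_mul _ hm] at b1
    rw [show L + 20 - (L - 20 - 20) = 60 by ring] at b2
    rw [one_pow, ENNReal.ofReal_one, one_mul] at s2
    rw [ENNReal.ofReal_mul hC.le, ENNReal.ofReal_mul (p := 9) (by norm_num),
      ENNReal.ofReal_mul (p := 64) (by norm_num), ENNReal.ofReal_ofNat, ENNReal.ofReal_ofNat]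
    exact s2.trans (mul_le_mul_right (b1.trans (mul_le_mul_right (mul_le_mul_right b2 _) _)) _)
  · obtain ⟨J, j1, j2, j3, I', i1, i2, i3⟩ := exists_root h' hL a2 a3 a4
    obtain ⟨K, k1, k2⟩ := s3 J j1 w j2 a1 j3
    exact ⟨_, k1, k2, (root_small h h0 h2 i1 i2 j1.1).trans i3⟩

theorem rt_axis (h : Conf 2 G) {J : Bx} (hJ : DyR J) {v : ℂ} (hv : v ∈ J.under) (c : 2 * v.im < |v.re|) :
    |ln G J.top - ln G (‖v‖ * I)| ≤ 2 * (7 / 2) := by
  have b1 := hJ.re hv
  have b2 : J.len ≤ ‖v‖ := b1.1.trans (abs_re_le_norm v)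
  have b3 := norm_le_abs_re_add_abs_im v
  rw [abs_of_pos hv.2.2.1] at b3
  refine h.near J.len_pos (by simpa using b2) (by simp) ((norm_le_of (A := 3 / 2 * J.len)
    (B := 2 * J.len) (by simpa using hJ.le) ?_).trans (by linarith))
  rw [abs_le]
  constructor <;> simp <;> linarith [hv.2.2.2, J.len_pos]

theorem big_ball {J K : Bx} {R : ℝ} (hJ : DyR J) (hR : J.len ≤ R) (hK : K ∈ J.desc) :
    K.big ⊆ Metric.closedBall 0 (4 * R) := fun w hw => by
  have a := (hJ.re (hK K.top_mem)).2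
  have b := len_le hK
  have c := K.len_pos
  rw [top_re] at a
  have e1 : |w.re| ≤ 3 * R := by linarith [abs_sub_abs_le_abs_sub w.re K.mid, hw.1]
  have e2 : |w.im| ≤ 2 * R := abs_le.2 ⟨by linarith [hw.2.1], by linarith [hw.2.2]⟩
  rw [mem_closedBall_zero_iff]
  refine le_of_pow_le_pow_left₀ two_ne_zero (by linarith) ?_
  rw [Complex.sq_norm, normSq_apply, ← abs_mul_abs_self w.re, ← abs_mul_abs_self w.im]
  nlinarith [abs_nonneg w.re, abs_nonneg w.im]

theorem wt_le {g x k E : ℝ} (hg : 0 < g) (hg1 : g ≤ 1) (hk : 1 ≤ k) (hx : 0 ≤ x) {p : Bx × Bx}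
    (h : x ≤ k * (p.2.len / p.1.len) * Real.exp E) :
    ENNReal.ofReal (x ^ g) ≤ ENNReal.ofReal (k * Real.exp (E * g)) * wt g p := by
  have h1 := div_pos p.2.len_pos p.1.len_pos
  rw [wt, ← ENNReal.ofReal_mul (by positivity)]
  refine ENNReal.ofReal_le_ofReal ((Real.rpow_le_rpow hx h hg.le).trans ?_)
  rw [Real.mul_rpow (by positivity) (by positivity), Real.mul_rpow (by positivity) h1.le,
    ← Real.exp_mul, mul_right_comm]
  have h2 : k ^ g ≤ k := by simpa using Real.rpow_le_rpow_of_exponent_le hk hg1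
  gcongr

theorem sum_le {g A B : ℝ} {S S' : Set (Bx × Bx)} (hS : S' ⊆ S) (hA : 0 ≤ A) {f : S' → ℝ≥0∞}
    (h : ∀ p, f p ≤ ENNReal.ofReal A * wt g p) (hB : ∑' p : S, wt g p ≤ ENNReal.ofReal B) :
    ∑' p, f p ≤ ENNReal.ofReal (A * B) := by
  rw [ENNReal.ofReal_mul hA]
  refine (ENNReal.tsum_le_tsum h).trans ?_
  rw [ENNReal.tsum_mul_left]
  exact mul_le_mul_right ((ENNReal.tsum_mono_subtype _ hS).trans hB) _

/-- DEV -/
theorem cover_dev {g : ℝ} (hg : 0 < g) (hg1 : g ≤ 1) : ∃ C : ℝ, 0 < C ∧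
    ∀ (G : ℂ → ℂ) (y0 R lo hi t : ℝ), Conf 2 G → 0 < y0 → 16 ≤ t →
    (∀ y ∈ Icc y0 R, lo + t + 20 ≤ ln G (y * I) ∧ ln G (y * I) ≤ hi - t - 20) →
    ∃ (ι : Type) (_ : Countable ι) (x r : ι → ℝ), (∀ i, x i ≠ 0 ∧ 0 < r i) ∧
      (∀ w : ℂ, y0 ≤ w.im → ‖w‖ ≤ R → t ≤ |ln G w - ln G (‖w‖ * I)| → ∃ i, ‖w - x i‖ < r i) ∧
      ∑' i, ENNReal.ofReal ((r i / |x i|) ^ g) ≤ ENNReal.ofReal (C / t ^ 2) *
        ∫⁻ w in Metric.closedBall (0 : ℂ) (4 * R), dens G lo hi w ^ 2 := by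
  obtain ⟨C, hC, H⟩ := forest hg
  refine ⟨3 * (4 * C * (9 * 64)), by positivity, fun G y0 R lo hi t h hy ht hp => ?_⟩
  have hm := (h.toUniv.measurable_dens lo hi).pow_const 2
  obtain ⟨S, h1, h2, h3⟩ := H {J | DyR J ∧ J.len ≤ R} (fun _ => clp G (lo + 20) (hi - 20))
    (fun K => ∫⁻ z in K.big, 64 * dens G lo hi z ^ 2) desc
    (fun J hJ J' hJ' hne => disj_desc (disjoint_left.2 fun w a b => hne (hJ.1.uniq hJ'.1 a b)))
    (fun J _ K hK w a _ => by
      have := h.jump (lo + 20) (hi - 20) K a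
      rwa [add_sub_cancel_right, sub_add_cancel, ← indicator_of_mem hK
        fun K : Bx => ∫⁻ z in K.big, 64 * dens G lo hi z ^ 2] at this) (t / 2) y0 (by linarith) hy
  refine ⟨S, inferInstance, fun p => p.1.2.mid, fun p => 3 * p.1.2.len,
    fun p => ⟨mid_ne _, by linarith [p.1.2.len_pos]⟩, fun v a1 a2 a3 => ?_, ?_⟩
  · have hv : 0 < v.im := hy.trans_le a1
    rcases le_or_gt |v.re| (2 * v.im) with c | c
    · linarith [show |ln G v - ln G (‖v‖ * I)| ≤ _ from h.axis hv c]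
    obtain ⟨J, hJ, hvJ⟩ := exists_rt hv c
    have b2 : J.len ≤ ‖v‖ := (hJ.re hvJ).1.trans (abs_re_le_norm v)
    have b5 := hp ‖v‖ ⟨a1.trans ((le_abs_self _).trans (abs_im_le_norm v)), a2⟩
    have b6 := abs_le.1 (rt_axis h hJ hvJ c)
    obtain ⟨K, k1, k2⟩ := h3 J ⟨hJ, b2.trans a2⟩ v hvJ a1 (by
      change _ ≤ |max _ (min _ (ln G v)) - max _ (min _ (ln G J.top))|
      rw [min_eq_right (a := hi - 20) (b := ln G J.top) (by linarith),
        max_eq_right (b := ln G J.top) (by linarith)]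
      rcases le_abs'.1 a3 with c1 | c1
      · refine le_abs'.2 (Or.inl ?_)
        have : max (lo + 20) (min (hi - 20) (ln G v)) ≤ ln G (‖v‖ * I) - t :=
          max_le (by linarith) ((min_le_right _ _).trans (by linarith))
        linarith
      · refine le_abs'.2 (Or.inr ?_)
        have : ln G (‖v‖ * I) + t ≤ max (lo + 20) (min (hi - 20) (ln G v)) :=
          le_max_of_le_right (le_min (by linarith) (by linarith))
        linarith)
    exact ⟨⟨_, k1⟩, near_mid k2⟩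
  · have b1 : ∑' p : S, ENNReal.ofReal ((3 * p.1.2.len / |p.1.2.mid|) ^ g) ≤
        ENNReal.ofReal (3 * Real.exp (0 * g)) * ∑' p : S, wt g p := by
      rw [← ENNReal.tsum_mul_left]
      refine ENNReal.tsum_le_tsum fun p => ?_
      have a := ((h1 p p.2).1.1.re ((h1 p p.2).2 p.1.2.top_mem)).1
      have := p.1.2.len_pos
      rw [top_re] at a
      refine wt_le hg hg1 (by norm_num) (by positivity) ?_
      rw [Real.exp_zero, mul_one, mul_div_assoc]
      exact mul_le_mul_of_nonneg_left (div_le_div_of_nonneg_left this.le p.1.1.len_pos a) (by norm_num)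
    have b2 := msr_big (hm.const_mul 64) (S := ⋃ J ∈ {J | DyR J ∧ J.len ≤ R}, J.desc)
      (R := Metric.closedBall 0 (4 * R)) measurableSet_closedBall fun K hK => by
        obtain ⟨J, hJ, hK⟩ := mem_iUnion₂.1 hK
        exact big_ball hJ.1 hJ.2 hK
    rw [zero_mul, Real.exp_zero, mul_one] at b1
    rw [lintegral_const_mul _ hm] at b2
    have t0 : 0 < (t / 2) ^ 2 := by positivity
    have b3 := h2.trans (mul_le_mul_right b2 _)
    generalize ∑' p : S, wt g p = W at *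
    generalize ∫⁻ w in Metric.closedBall (0 : ℂ) (4 * R), dens G lo hi w ^ 2 = E at *
    have b4 : W ≤ ENNReal.ofReal (((t / 2) ^ 2)⁻¹) * (ENNReal.ofReal C * (9 * (64 * E))) := by
      refine le_trans (le_of_eq ?_) (mul_le_mul_right b3 _)
      rw [← mul_assoc, ← ENNReal.ofReal_mul (by positivity), inv_mul_cancel₀ t0.ne',
        ENNReal.ofReal_one, one_mul]
    refine b1.trans ((mul_le_mul_right b4 _).trans (le_of_eq ?_))
    rw [← ENNReal.ofReal_ofNat 9, ← ENNReal.ofReal_ofNat 64]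
    simp only [← mul_assoc]
    rw [← ENNReal.ofReal_mul (by positivity), ← ENNReal.ofReal_mul (by positivity),
      ← ENNReal.ofReal_mul (by positivity), ← ENNReal.ofReal_mul (by positivity)]
    congr 2
    field_simp
    ring

theorem sign_red {σ : ℝ} (h : Conf Λ G) (hσ : Sg σ) :
    ∃ G', Conf Λ G' ∧ ∀ w, σ * ln G w = ln G' w := by
  rcases hσ with rfl | rfl
  · exact ⟨G, h, fun w => one_mul _⟩
  · exact ⟨_, h.inv, fun w => by rw [ln, ln, log_inv_norm, neg_one_mul]⟩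

theorem exp_split {g X c : ℝ} (hg1 : g ≤ 1) (hΛ : 1 ≤ Λ) (hc : 0 ≤ c) :
    Real.exp (-((X - c) / Λ) * g) ≤ Real.exp c * Real.exp (-(g * X / Λ)) := by
  rw [← Real.exp_add, Real.exp_le_exp]
  have h1 : c / Λ * g ≤ c := (mul_le_of_le_one_right (by positivity) hg1).trans (div_le_self hc hΛ)
  have h2 : -((X - c) / Λ) * g = c / Λ * g - g * X / Λ := by ring
  linarith

/-- COV -/
theorem cov_stmt : CovStmt := by
  intro g hg hg1
  obtain ⟨C1, c1, H1⟩ := cover_dev hg hg1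
  obtain ⟨C2, c2, H2⟩ := cover_high hg
  have e0 : 0 < Real.exp 30 := Real.exp_pos _
  have e1 : 0 < 24 * Real.exp 30 * C2 := by positivity
  refine ⟨2000 + C1 + 24 * Real.exp 30 * C2, by linarith, fun G y0 R lo hi t h hy ht hp => ?_,
    fun G Λ σ y0 L0 L h l1 l2 hσ hy hL => ?_, fun G σ y0 L0 L h hσ hy hL => ?_⟩
  · obtain ⟨ι, i, x, r, a1, a2, a3⟩ := H1 G y0 R lo hi t h hy (by linarith) fun y hy =>
      ⟨by linarith [(hp y hy).1], by linarith [(hp y hy).2]⟩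
    refine ⟨ι, i, x, r, a1, a2, a3.trans (mul_le_mul_left (ENNReal.ofReal_le_ofReal ?_) _)⟩
    exact div_le_div_of_nonneg_right (by linarith) (sq_nonneg _)
  · obtain ⟨G', h', e⟩ := sign_red h hσ
    simp only [e]
    obtain ⟨S, s1, s2, s3⟩ := H2 G' Λ y0 (L0 + 9) L h' (by linarith) l2 hy (by linarith)
    rw [show L - (L0 + 9) - 21 = L - L0 - 30 by ring] at s3
    refine ⟨{p | p ∈ S ∧ p.1.len * Real.exp ((L - L0 - 30) / Λ) ≤ |p.2.mid|}, inferInstance,
      fun p => p.1.2.mid, fun p => 3 * p.1.2.len,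
      fun p => ⟨mid_ne _, by linarith [p.1.2.len_pos]⟩, fun v a1 a2 a3 => ?_, ?_⟩
    · have hv : 0 < v.im := hy.trans_le a1
      rcases le_or_gt |v.re| (2 * v.im) with c | c
      · linarith [(abs_le.1 (show |ln G' v - ln G' (‖v‖ * I)| ≤ _ from (h'.mono l2).axis hv c)).2]
      obtain ⟨J, hJ, hvJ⟩ := exists_rt hv c
      have b := abs_le.1 (rt_axis (h'.mono l2) hJ hvJ c)
      obtain ⟨p, p1, p2, p3⟩ := s3 v J a1 hvJ (by linarith [b.2]) a3
      have p4 : p.2.len ≤ J.len := (len_le (s1 p p1)).trans (le_trans (le_mul_of_one_le_right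
        p.1.len_pos.le (Real.one_le_exp (div_nonneg (by linarith) (by linarith)))) p3)
      exact ⟨⟨p, p1, p3.trans (by simpa using (hJ.re (nested hvJ p2 (gen_le p4) p.2.top_mem)).1)⟩,
        near_mid p2⟩
    · refine (sum_le (fun p hp => hp.1) (by positivity) (fun p => wt_le (k := 3)
        (E := -((L - L0 - 30) / Λ)) hg hg1 (by norm_num)
        (div_nonneg (by linarith [p.1.2.len_pos]) (abs_nonneg _)) ?_) s2).trans
        (ENNReal.ofReal_le_ofReal ?_)
      · have := p.1.2.len_pos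
        have := p.1.1.len_pos
        refine (div_le_div_of_nonneg_left (by positivity) (by positivity) p.2.2).trans (le_of_eq ?_)
        rw [Real.exp_neg]
        field_simp
      · have b := exp_split (X := L - L0) (c := 30) hg1 l1 (by norm_num)
        have b0 := Real.exp_pos (-(g * (L - L0) / Λ))
        nlinarith [mul_pos b0 e1, mul_pos b0 c1, mul_le_mul_of_nonneg_right b c2.le]
  · obtain ⟨G', h', e⟩ := sign_red h hσ
    simp only [e]
    obtain ⟨S, s1, s2, s3⟩ := H2 G' 2 y0 (L0 + 9) L h' two_pos le_rfl hy (by linarith)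
    rw [show L - (L0 + 9) - 21 = L - L0 - 30 by ring] at s3
    have b0 : 480 ≤ Real.exp ((L - L0 - 30) / 2) := by
      linarith [Real.add_one_le_exp ((L - L0 - 30) / 2)]
    have b1 : ∀ p ∈ S, 480 * p.2.len ≤ p.1.len * Real.exp ((L - L0 - 30) / 2) := fun p hp => by
      nlinarith [len_le (s1 p hp), p.1.len_pos]
    refine ⟨{p | p ∈ S ∧ p.1.len * Real.exp ((L - L0 - 30) / 2) / 8 < p.2.mid}, inferInstance,
      fun p => p.1.2.mid, fun p => 3 * p.1.2.len,
      fun p => p.1.1.len * Real.exp ((L - L0 - 30) / 2) / 8,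
      fun p => ⟨by linarith [p.1.2.len_pos], by linarith [b1 p.1 p.2.1], p.2.2⟩,
      fun v ξ l a1 _ a3 a4 a5 a6 a7 => ?_, ?_⟩
    · have hv : 0 < v.im := hy.trans_le a1
      obtain ⟨J, j1, j2⟩ := exists_wh (w := v.re + l * I) (by simpa using hv.trans_le a5)
      have b := abs_le.1 (h'.wh j1 j2)
      have j3 : v ∈ J.under := ⟨by simpa using j1.1, by simpa using j1.2.1, hv,
        a5.trans (by simpa using j1.2.2.2)⟩
      have j4 : J.len ≤ 2 * l := by simpa using j2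
      obtain ⟨p, p1, p2, p3⟩ := s3 v J a1 j3 (by linarith [b.1]) a3
      have p4 : ξ ≤ p.2.mid - p.1.len * Real.exp ((L - L0 - 30) / 2) / 8 := by
        linarith [p2.2.1, b1 p p1, p.2.len_pos]
      exact ⟨⟨p, p1, by linarith⟩, near_mid p2, p4⟩
    · refine (sum_le (fun p hp => hp.1) (by positivity) (fun p => wt_le (k := 24)
        (E := -((L - L0 - 30) / 2)) hg hg1 (by norm_num)
        (div_nonneg (by linarith [p.1.2.len_pos]) (by linarith [p.1.2.len_pos, b1 p.1 p.2.1])) ?_)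
        s2).trans (ENNReal.ofReal_le_ofReal ?_)
      · have := p.1.1.len_pos
        refine le_of_eq ?_
        rw [Real.exp_neg]
        field_simp
        ring
      · have b := exp_split (Λ := 2) (X := L - L0) (c := 30) hg1 one_le_two (by norm_num)
        have b0 := Real.exp_pos (-(g * (L - L0) / 2))
        nlinarith [mul_pos b0 e1, mul_pos b0 c1, mul_le_mul_of_nonneg_right b c2.le]

end Pool.Agent.MP_990230_pr.K8

end
end MrgPart1

-- ======== part 2: formerly Pool.Agent.MP_990230_pr.k8.Sec2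
section MrgPart2

/-! # SLE8: the estimates for a fresh Brownian path: US, SV, KIL, ONE, AP, KILL -/

open Set MeasureTheory Filter Complex
open scoped ENNReal NNReal Topology

noncomputable section

namespace Pool.Agent.MP_990230_pr.K8

variable {a : ℝ}

theorem gm_re (ha : 0 < a) (u : Pth) {t y : ℝ} (ht : 0 ≤ t) (hy : 0 < y) :
    (Zt a u.1 (gm a u t y) t).re = 0 := by rw [Zt_gm ha u ht hy]; simp

theorem gm_im (ha : 0 < a) (u : Pth) {t y : ℝ} (ht : 0 ≤ t) (hy : 0 < y) :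
    y ≤ (gm a u t y).im := by
  have h := gm_alive ha u ht hy
  have := im_anti ha u.cont le_rfl ht h
  rw [Zt_gm ha u ht hy, (Zt_zero u h.1).2.1] at this
  simpa using this

theorem gm_ng (ha : 0 < a) (u : Pth) {t y : ℝ} (ht : 0 ≤ t) (hy : 0 < y) :
    gm a (ng u) t y = mir (gm a u t y) := by
  rw [gm, gm, ng_val, ← Fm_mir ha u.cont ht (by simpa using hy), mir_mul_I]

theorem Lz_ng (u : Pth) (s t : ℝ) : Lz (ng u).1 s t = Lz u.1 s t := by
  unfold Lz Om
  simp only [ng_val, neg_sub_neg, abs_sub_comm]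

theorem measurable_Lz {s t : ℝ} (hst : s ≤ t) : Measurable fun u : Pth => Lz u.1 s t := by
  refine Measurable.add_const (measurable_of_Iic fun c => ?_) _
  have := measurableSet_forall_le (K := Icc s t) (φ := fun (u : Pth) r => |u.1 r - u.1 s|)
    (fun r _ => ((measurable_ev r).sub (measurable_ev s)).abs)
    (fun u => (u.cont.sub continuous_const).abs.continuousOn) c
  convert this using 1
  ext u
  exact ⟨fun h r hr => (le_Om u.cont hr).trans h, fun h => Om_le hst h⟩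

theorem big_of_Lz (u : Pth) {t ρ : ℝ} (ht : 0 ≤ t) (hρ : 0 < ρ) (h : ρ ≤ Lz u.1 0 t) :
    ∃ s ∈ Icc 0 t, (ρ / 4) ^ 2 < u.1 s ^ 2 + s := by
  by_contra hc
  push Not at hc
  have k1 : Om u.1 0 t ≤ ρ / 4 := Om_le ht fun r hr => by
    rw [u.zero, sub_zero]
    exact abs_le_of_sq_le_sq' (by linarith [hc r hr, hr.1]) (by positivity) |> abs_le.2
  have k2 : √(t - 0) ≤ ρ / 4 := Real.sqrt_le_iff.2 ⟨by positivity, by
    linarith [hc t ⟨ht, le_rfl⟩, sq_nonneg (u.1 t)]⟩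
  unfold Lz at h
  linarith

theorem us_stmt (h : Rg a) : USStmt a := by
  obtain ⟨C, m, hC, hm, H⟩ := us h.1 h.2
  have d0 := del_pos h.1
  refine ⟨min m 1, C, lt_min hm (by linarith [del_le h.pos, h.2]), min_le_right _ _, by linarith,
    fun μ hμ x D l hD hl hx => ?_⟩
  have l0 : 0 < l := by linarith
  refine le_trans (measure_mono ?_) ((H μ hμ x (x - l) l D (by linarith) l0 (by linarith) hD).trans
    (ENNReal.ofReal_le_ofReal ?_))
  · rintro v ⟨t, ht, h1, y, hy, h2⟩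
    exact ⟨t, _, ht, gm_alive h.pos v ht hy, h2.le, (gm_re h.pos v ht hy).le, h1⟩
  · gcongr _ * ?_
    exact Real.rpow_le_rpow_of_exponent_ge (by positivity) ((div_le_one l0).2 (by linarith))
      (min_le_left _ _)

theorem sv_stmt (h : Rg a) : SVStmt a := by
  intro p hp hpb
  have ha := h.pos
  have pb := sub_pos.2 hpb
  refine ⟨4 / (p * (1 - 2 * a - p)) * 4 ^ p + (1 + 8 * a / (1 - 2 * a - p)) * 4 ^ (2 * p),
    by positivity, fun μ hμ x ρ hx hρ => ⟨?_, ?_⟩⟩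
  · refine le_trans (measure_mono ?_) ((sv1 hμ ha hp hpb hx.ne' (ρ := ρ / 4) (by positivity)).trans
      (ENNReal.ofReal_le_ofReal ?_))
    · rintro v ⟨t, ht, h1, h2⟩
      obtain ⟨s, hs, h3⟩ := big_of_Lz v ht hρ h2
      exact ⟨s, hs.1, h1.mono hs.2, h3⟩
    · rw [abs_of_pos hx, show x / (ρ / 4) = 4 * (x / ρ) by field_simp,
        Real.mul_rpow (by norm_num) (by positivity), ← mul_assoc]
      gcongr
      exact le_add_of_nonneg_right (by positivity)
  · refine le_trans (measure_mono ?_) ((sv2 hμ ha hp hpb (neg_neg_of_pos hx) hx (ρ := ρ / 2)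
      (by positivity)).trans (ENNReal.ofReal_le_ofReal ?_))
    · rintro v ⟨t, ht, h1, h2, h3⟩
      refine ⟨t, ht, h2, h1, ?_⟩
      have k1 := h1.pos v.cont hx t ⟨ht, le_rfl⟩
      have k2 := h2.neg v.cont (neg_neg_of_pos hx) t ⟨ht, le_rfl⟩
      obtain ⟨k3, k4⟩ := disp ha v.cont ht k2 k1 ⟨_, h2.rt v.cont, rfl⟩ ⟨_, h1.rt v.cont, rfl⟩
      have k5 := Om_le ht fun r hr => k4 r hr 0 ⟨le_rfl, ht⟩
      have k6 : √(t - 0) ≤ Xt a v.1 x t - Xt a v.1 (-x) t :=
        Real.sqrt_le_iff.2 ⟨by linarith, by nlinarith [h.1]⟩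
      unfold Lz at h3
      linarith
    · rw [show (x - -x) / (ρ / 2) = 4 * (x / ρ) by field_simp; ring,
        Real.mul_rpow (by norm_num) (by positivity), ← mul_assoc]
      gcongr
      exact le_add_of_nonneg_left (by positivity)

theorem kil_raw (h : Rg a) : ∃ β C : ℝ, 0 < β ∧ 0 < C ∧ ∀ μ, IsW μ → ∀ (z : ℂ) (ρ : ℝ), 0 < ρ →
    μ {u | ∃ t, 0 ≤ t ∧ Alive a u.1 z t ∧ (ρ / 4) ^ 2 < u.1 t ^ 2 + t} ≤
      ENNReal.ofReal (C * (‖z‖ / ρ) ^ β) := by
  have ha := h.pos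
  have hb : 0 < (1 - 2 * a) / 2 := by linarith [h.2]
  have hb' : 0 < 1 - 2 * a - (1 - 2 * a) / 2 := by linarith
  refine ⟨(1 - 2 * a) / 2, 4 / (a * ((1 - 2 * a) / 2) * (1 - 2 * a - (1 - 2 * a) / 2)) *
    4 ^ ((1 - 2 * a) / 2), hb, by positivity, fun μ hμ z ρ hρ =>
      (kil hμ ha hb (by linarith) z (ρ := ρ / 4) (by positivity)).trans_eq ?_⟩
  rw [show ‖z‖ / (ρ / 4) = 4 * (‖z‖ / ρ) by field_simp,
    Real.mul_rpow (by norm_num) (by positivity), ← mul_assoc]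

theorem kil_stmt (h : Rg a) : KilStmt a := by
  obtain ⟨β, C, hβ, hC, H⟩ := kil_raw h
  refine ⟨β, C, hβ, hC, fun μ hμ z ρ hρ => le_trans (measure_mono ?_) (H μ hμ z ρ hρ)⟩
  rintro v ⟨t, ht, h1, h2⟩
  obtain ⟨s, hs, h3⟩ := big_of_Lz v ht hρ h2
  exact ⟨s, hs.1, LoeAM.alive_mono hs.2 h1, h3⟩

theorem one_stmt (h : Rg a) : OneStmt a := by
  obtain ⟨C, hC, H⟩ := one h.1 h.2
  exact ⟨C, by linarith, H⟩

theorem kill_stmt (h : Rg a) : KillStmt a := by
  intro θ hθ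
  obtain ⟨β, C, hβ, hC, H⟩ := kil_raw h
  refine ⟨max 1 ((C / θ) ^ β⁻¹), le_max_left _ _, fun μ hμ ν _ ζ ρ hζ hρ => ?_⟩
  have := hμ.prob
  set K := max 1 ((C / θ) ^ β⁻¹) with hK
  have K0 : 0 < K := one_pos.trans_le (le_max_left _ _)
  set S : Set (Pth × ℂ) := {p | ‖ζ p.2‖ ≤ ρ / K} ∩ ⋃ q : ℚ, ⋃ _ : (0 : ℝ) ≤ q,
    {p | Alive a p.1.1 (ζ p.2) q} ∩ {p | (ρ / 4) ^ 2 < p.1.1 q ^ 2 + q} with hS
  have mS : MeasurableSet S := by
    refine (measurableSet_le (hζ.comp measurable_snd).norm measurable_const).inter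
      (MeasurableSet.iUnion fun q => MeasurableSet.iUnion fun hq => MeasurableSet.inter ?_ ?_)
    · exact (measurable_fst.prodMk (hζ.comp measurable_snd)) (measurableSet_alive2 h.pos hq)
    · exact measurableSet_lt measurable_const
        ((((measurable_ev _).comp measurable_fst).pow_const 2).add_const _)
  refine ⟨fun v => ν (Prod.mk v ⁻¹' S), measurable_measure_prodMk_left mS, ?_,
    fun v t ht h1 => measure_mono ?_⟩
  · rw [← Measure.prod_apply mS, Measure.prod_apply_symm mS, ← lintegral_const]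
    refine lintegral_mono fun z => ?_
    by_cases hz : ‖ζ z‖ ≤ ρ / K
    · refine le_trans (measure_mono ?_) ((H μ hμ (ζ z) ρ hρ).trans (ENNReal.ofReal_le_ofReal ?_))
      · intro v hv
        simp only [hS, mem_preimage, mem_inter_iff, mem_iUnion, mem_ofPred_eq] at hv
        obtain ⟨-, q, k1, k2, k3⟩ := hv
        exact ⟨q, k1, k2, k3⟩
      · have k1 : ‖ζ z‖ / ρ ≤ ((C / θ) ^ β⁻¹)⁻¹ := by
          rw [div_le_iff₀ hρ, mul_comm, ← div_eq_mul_inv]
          exact hz.trans (div_le_div_of_nonneg_left hρ.le (by positivity) (le_max_right _ _))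
        have k2 := Real.rpow_le_rpow (by positivity) k1 hβ.le
        rw [Real.inv_rpow (by positivity), Real.rpow_inv_rpow (by positivity) hβ.ne', inv_div] at k2
        exact (mul_le_mul_of_nonneg_left k2 hC.le).trans_eq (by field_simp)
    · exact le_of_eq_of_le (measure_mono_null (fun v hv => hz hv.1) measure_empty) zero_le
  · rintro z ⟨k1, k2⟩
    obtain ⟨s, hs, k3⟩ := big_of_Lz v ht hρ h1
    obtain ⟨q, hq, k4⟩ := exists_rat_left (f := fun r => v.1 r ^ 2 + r)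
      ((v.cont.pow 2).add continuous_id).continuousOn hs k3
    exact ⟨k1, mem_iUnion.2 ⟨q, mem_iUnion.2 ⟨hq.1, LoeAM.alive_mono (hq.2.trans hs.2) k2, k4⟩⟩⟩

theorem gm_contOn (ha : 0 < a) (u : Pth) {y : ℝ} (hy : 0 < y) :
    ContinuousOn (fun t => gm a u t y) (Ici 0) :=
  (Fm_continuousOn ha u.cont).comp (f := fun t : ℝ => (t, (y * I : ℂ))) (by fun_prop)
    fun _ ht => ⟨ht, by simpa using hy⟩

theorem ap_stmt (h : Rg a) : APStmt a := by
  intro μ hμ η ε T hη hε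
  have ha := h.pos
  have e0 : 0 < ENNReal.ofReal (ε / 2) := ENNReal.ofReal_pos.2 (half_pos hε)
  obtain ⟨y1, hy1, H1⟩ := tail_small hμ h.1 h.2 T hη e0
  have hy : 0 < min y1 η := lt_min hy1 hη
  set y0 := min y1 η with hy0
  let G : ℝ → Set Pth := fun x =>
    {u | ∀ p ∈ {p : ℝ × ℝ | p.1 ∈ Icc 0 T ∧ p.2 ∈ Icc 0 T ∧ |p.1 - p.2| ≤ x},
      ‖gm a u p.1 y0 - gm a u p.2 y0‖ ≤ η} ∩
    {u | ∀ p ∈ {p : ℝ × ℝ | 0 ≤ p.1 ∧ p.1 ≤ p.2 ∧ p.2 ≤ T ∧ p.2 - p.1 ≤ x},
      1000 * Lz u.1 p.1 p.2 ≤ y0}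
  have mG : ∀ x, MeasurableSet (G x) := fun x => MeasurableSet.inter
    (measurableSet_forall_le (φ := fun (u : Pth) (p : ℝ × ℝ) => ‖gm a u p.1 y0 - gm a u p.2 y0‖)
      (fun p hp => ((measurable_Fm ha _ hp.1.1).sub (measurable_Fm ha _ hp.2.1.1)).norm)
      (fun u => (((gm_contOn ha u hy).comp continuousOn_fst fun _ hp => hp.1.1).sub
        ((gm_contOn ha u hy).comp continuousOn_snd fun _ hp => hp.2.1.1)).norm) η)
    (measurableSet_forall_le (φ := fun (u : Pth) (p : ℝ × ℝ) => 1000 * Lz u.1 p.1 p.2)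
      (fun p hp => (measurable_Lz hp.2.1).const_mul _)
      (fun u => (continuous_const.mul (continuous_Lz u.cont)).continuousOn) y0)
  obtain ⟨h0, hh, H2⟩ := small_compl hμ mG (fun x y _ hxy u hu =>
    ⟨fun p hp => hu.1 p ⟨hp.1, hp.2.1, hp.2.2.trans hxy⟩,
      fun p hp => hu.2 p ⟨hp.1, hp.2.1, hp.2.2.1, hp.2.2.2.trans hxy⟩⟩)
    (ae_of_all _ fun u => by
      obtain ⟨δ, hδ, k1⟩ := Metric.uniformContinuousOn_iff_le.1
        ((isCompact_Icc (a := 0) (b := T)).uniformContinuousOn_of_continuous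
          ((gm_contOn ha u hy).mono Icc_subset_Ici_self)) η hη
      obtain ⟨δ', hδ', k2⟩ := Metric.uniformContinuousOn_iff_le.1
        ((isCompact_Icc (a := 0) (b := T)).uniformContinuousOn_of_continuous
          u.cont.continuousOn) (y0 / 2000) (by positivity)
      refine ⟨min δ (min δ' ((y0 / 2000) ^ 2)), by positivity, fun p hp => ?_, fun p hp => ?_⟩
      · rw [← dist_eq_norm]
        exact k1 _ hp.1 _ hp.2.1 (hp.2.2.trans (min_le_left _ _))
      · obtain ⟨b1, b2, b3, b4⟩ := hp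
        obtain ⟨b5, b6⟩ := le_min_iff.1 (b4.trans (min_le_right _ _))
        have k3 : Om u.1 p.1 p.2 ≤ y0 / 2000 := Om_le b2 fun r hr =>
          k2 r ⟨b1.trans hr.1, hr.2.trans b3⟩ _ ⟨b1, b2.trans b3⟩ (by
            rw [Real.dist_eq, abs_of_nonneg (sub_nonneg.2 hr.1)]; linarith [hr.2])
        have k4 : √(p.2 - p.1) ≤ y0 / 2000 := Real.sqrt_le_iff.2 ⟨by positivity, b6⟩
        unfold Lz
        linarith) e0
  refine ⟨y0, hy, min_le_right _ _, h0, hh, fun x hx hx' =>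
    ⟨{u : Pth | Tail a u.1 y0 η T} ∩ G x, (measurableSet_tail ha _ _ _).inter (mG x), ?_,
      fun u hu => ⟨hy, min_le_right _ _, hx, hu.1, fun s hs t ht k => hu.2.1 (s, t) ⟨hs, ht, k⟩,
        fun s t k1 k2 k3 k4 => hu.2.2 (s, t) ⟨k1, k2, k3, k4⟩⟩⟩⟩
  rw [compl_inter]
  refine (measure_union_le _ _).trans ((add_le_add (H1 y0 hy (min_le_left _ _))
    (H2 x hx hx')).trans_eq ?_)
  rw [← ENNReal.ofReal_add (half_pos hε).le (half_pos hε).le, add_halves]

end Pool.Agent.MP_990230_pr.K8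

end
end MrgPart2

-- ======== part 3: formerly Pool.Agent.MP_990230_pr.k8.PicP
section MrgPart3

/-! # SLE8: DEVT and PICP, from the covers and the boundary estimates -/

open Set MeasureTheory Filter Complex
open scoped ENNReal NNReal Topology ComplexConjugate

noncomputable section

namespace Pool.Agent.MP_990230_pr.K8

variable {a : ℝ} {μ : Measure Pth}

theorem Conf.mirror {Λ : ℝ} {G : ℂ → ℂ} (h : Conf Λ G) : Conf Λ fun w => conj (G (mir w)) := by
  have hd : ∀ w : ℂ, 0 < w.im →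
      HasDerivAt (fun w => conj (G (mir w))) (-conj (deriv G (mir w))) w := fun w hw => by
    have h1 : HasDerivAt (fun z => G (-z)) (-deriv G (mir w)) (conj w) := by
      exact ((h.diff (mir w) (by simpa using hw)).hasDerivAt.comp_of_eq (conj w)
        (hasDerivAt_neg (conj w)) rfl).congr_deriv (by ring)
    have h2 := h1.conj_conj
    rw [conj_conj, map_neg] at h2
    exact h2
  refine ⟨⟨fun w hw => (hd w hw).differentiableAt, fun w hw w' hw' e => ?_⟩, fun w hw e => ?_,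
    fun w hw => ?_⟩
  · have := h.inj (show mir w ∈ {w : ℂ | 0 < w.im} by simpa using hw)
      (show mir w' ∈ {w : ℂ | 0 < w.im} by simpa using hw') (star_injective e)
    rw [← mir_mir w, this, mir_mir]
  · exact h.ne (mir w) (by simpa using hw) (by simpa using e)
  · rw [(hd w hw).deriv, norm_neg, norm_conj, norm_conj]
    simpa using h.lip (mir w) (by simpa using hw)

theorem ln_mirror (G : ℂ → ℂ) (w : ℂ) : ln (fun w => conj (G (mir w))) w = ln G (mir w) := by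
  simp [ln]

theorem cover_bd (h : Rg a) (hμ : IsW μ) {ι : Type} [Countable ι] {x r : ι → ℝ}
    (hx : ∀ i, x i ≠ 0 ∧ 0 < r i) :
    μ {v | ∃ τ y, 0 ≤ τ ∧ 0 < y ∧ ∃ i, ‖gm a v τ y - x i‖ < r i} ≤
      ENNReal.ofReal 32 * ∑' i, ENNReal.ofReal ((r i / |x i|) ^ alp a) := by
  rw [← ENNReal.tsum_mul_left]
  refine le_trans (measure_mono ?_) ((measure_iUnion_le fun i => {u : Pth | ∃ t z, 0 ≤ t ∧
    Alive a u.1 z t ∧ ‖z - x i‖ ≤ r i ∧ (Zt a u.1 z t).re = 0}).trans (ENNReal.tsum_le_tsum fun i =>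
      (bd hμ h.1 (hx i).1 (hx i).2).trans ?_))
  · rintro v ⟨τ, y, h1, h2, i, h3⟩
    exact mem_iUnion.2 ⟨i, τ, _, h1, gm_alive h.pos v h1 h2, h3.le, gm_re h.pos v h1 h2⟩
  · have := (hx i).2
    rw [← ENNReal.ofReal_mul (by norm_num), mul_div_assoc, Real.mul_rpow (by norm_num) (by positivity)]
    gcongr
    exact (Real.rpow_le_rpow_of_exponent_le (by norm_num)
      (show alp a ≤ 1 by unfold alp; linarith [h.2])).trans_eq (Real.rpow_one _)

theorem Rg.alp_pos (h : Rg a) : 0 < alp a := by unfold alp; linarith [h.1]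

theorem Rg.alp_le (h : Rg a) : alp a ≤ 1 := by unfold alp; linarith [h.2]

theorem dev_stmt (h : Rg a) (hC : CovStmt) : DevStmt a := by
  obtain ⟨C, c1, H⟩ := hC (alp a) h.alp_pos h.alp_le
  refine ⟨32 * C, by linarith, fun μ hμ G y0 R lo hi t hG hy ht hp => ?_⟩
  obtain ⟨ι, _, x, r, h1, h2, h3⟩ := H.dev G y0 R lo hi t hG hy (by linarith)
    fun y hy => ⟨by linarith [(hp y hy).1], by linarith [(hp y hy).2]⟩
  refine le_trans (measure_mono ?_) ((cover_bd h hμ h1).trans ?_)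
  · rintro v ⟨τ, k1, y, k2, k3, k4⟩
    have y0' := hy.trans_le k2
    exact ⟨τ, y, k1, y0', h2 _ (k2.trans (gm_im h.pos v k1 y0')) k3 k4⟩
  · rw [mul_div_assoc, ENNReal.ofReal_mul (by norm_num), mul_assoc]
    gcongr

theorem triv_bd (hμ : IsW μ) (E : Set Pth) {C C' e : ℝ} (h1 : Real.exp C ≤ C') (h2 : e ≤ C) :
    μ E ≤ ENNReal.ofReal (C' * Real.exp (-e)) := by
  have := hμ.prob
  refine prob_le_one.trans (ENNReal.one_le_ofReal.2 ?_)
  rw [Real.exp_neg, ← div_eq_mul_inv, one_le_div (Real.exp_pos _)]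
  exact (Real.exp_le_exp.2 h2).trans h1

theorem Sg.mul_le {σ : ℝ} (h : Sg σ) (x : ℝ) : σ * x ≤ |x| := by
  rcases h with rfl | rfl
  · simpa using le_abs_self x
  · simpa using neg_le_abs x

/-- the surrogate points of a forced block. -/
theorem frc_det {G : ℂ → ℂ} {σ y0 L0 L K : ℝ} (hG : Conf 2 G) (hσ : Sg σ) (hy : 0 < y0)
    (hK : 1 ≤ K) (hL : L0 + 4 * K ≤ L) (h0 : σ * ln G (y0 * I) ≤ L0)
    (hne : ∃ y, y0 ≤ y ∧ L ≤ σ * ln G (y * I)) : ∃ y1 ρ : ℝ, 0 < y1 ∧ 0 < ρ ∧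
      y1 / ρ = 2 * K * Real.exp (-((L - L0) / 2)) ∧
      (∀ ξ, (∀ y ∈ Icc y0 ξ, σ * ln G (y * I) ≤ L0) → ξ ≤ y1) ∧
      ∀ y l, y ∈ Icc y0 (K * (y0 + l)) → L ≤ σ * ln G (y * I) → ρ ≤ l := by
  set S := {y : ℝ | y0 ≤ y ∧ L ≤ σ * ln G (y * I)} with hS
  have bb : BddBelow S := ⟨y0, fun _ hy => hy.1⟩
  have E0 := Real.exp_pos ((L - L0) / 2)
  have E1 : 2 * K + 1 ≤ Real.exp ((L - L0) / 2) :=
    le_trans (by linarith) (Real.add_one_le_exp _)
  have key : ∀ y' y, y0 ≤ y' → y' ≤ y → σ * ln G (y' * I) ≤ L0 → L ≤ σ * ln G (y * I) →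
      y' * Real.exp ((L - L0) / 2) ≤ y := fun y' y k1 k2 k3 k4 => by
    have p1 := hy.trans_le k1
    have k5 := hG.lip_vert 0 p1 k2
    simp only [ofReal_zero, zero_add] at k5
    have k6 := hσ.mul_le (ln G (y * I) - ln G (y' * I))
    rw [mul_comm, ← le_div_iff₀ p1, ← Real.le_log_iff_exp_le (div_pos (p1.trans_le k2) p1)]
    unfold ln at *
    linarith
  have k0 : y0 * Real.exp ((L - L0) / 2) ≤ sInf S :=
    le_csInf hne fun y hy' => key y0 y le_rfl hy'.1 h0 hy'.2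
  have s0 : 0 < sInf S := lt_of_lt_of_le (by positivity) k0
  refine ⟨sInf S / Real.exp ((L - L0) / 2), sInf S / (2 * K), by positivity, by positivity, ?_,
    fun ξ hξ => ?_, fun y l k1 k2 => ?_⟩
  · rw [Real.exp_neg]; field_simp
  · rw [le_div_iff₀ E0]
    rcases le_total ξ y0 with k | k
    · exact le_trans (by gcongr) k0
    refine le_csInf hne fun y hy' => ?_
    rcases le_total ξ y with k' | k'
    · exact key ξ y k k' (hξ ξ ⟨k, le_rfl⟩) hy'.2
    · linarith [hξ y ⟨hy'.1, k'⟩, hy'.2]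
  · have k3 := (csInf_le bb ⟨k1.1, k2⟩).trans k1.2
    rw [div_le_iff₀ (by positivity)]
    nlinarith

theorem picP_stmt (h : Rg a) (hC : CovStmt) : PicPStmt a := by
  have ha := h.pos
  obtain ⟨ms, C1, m1, m2, c1, US⟩ := us_stmt h
  have m0 : 0 < ms := by linarith [del_pos h.1]
  have b0 : 0 < 1 - 2 * a := by linarith [h.2]
  have p0 : 0 < 2 * a * (1 - 2 * a) := by positivity
  have p1 : 2 * a * (1 - 2 * a) < 1 - 2 * a := by nlinarith
  obtain ⟨C2, c2, SV⟩ := sv_stmt h _ p0 p1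
  obtain ⟨C3, c3, H3⟩ := hC (alp a) h.alp_pos h.alp_le
  obtain ⟨C4, c4, H4⟩ := hC ms m0 m2
  refine ⟨ms, 2 * a * (1 - 2 * a), m1, p0, ?_, fun K hK => ?_⟩
  · have e : 2 * del a = 2 - 1 / (2 * a) := by unfold del; field_simp; ring
    rw [e, alp, sub_lt_iff_lt_add, ← sub_lt_iff_lt_add', lt_div_iff₀ (by positivity)]
    nlinarith [mul_pos b0 (mul_pos b0 b0)]
  set p := 2 * a * (1 - 2 * a) with hp
  have x1 := Real.exp_pos C3
  have x2 := Real.exp_pos C4
  have x3 := Real.exp_pos (4 * K)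
  have x4 : 0 < C1 * C4 := by positivity
  have x5 : 0 < C2 * (2 * K) := by positivity
  obtain ⟨C, hC'⟩ : ∃ C, C = Real.exp C3 + Real.exp C4 + Real.exp (4 * K) + 32 * C3 + C1 * C4 +
    C2 * (2 * K) := ⟨_, rfl⟩
  have pw : ∀ q : ℝ, 0 ≤ q → q ≤ 1 → ∀ D : ℝ, C2 * (2 * K * Real.exp (-(D / 2))) ^ q ≤
      C * Real.exp (-(q * D / 2)) := fun q q0 q1 D => by
    rw [Real.mul_rpow (by positivity) (Real.exp_pos _).le, ← Real.exp_mul, ← mul_assoc,
      show -(D / 2) * q = -(q * D / 2) by ring]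
    have := (Real.rpow_le_rpow_of_exponent_le (show 1 ≤ 2 * K by linarith) q1).trans_eq
      (Real.rpow_one _)
    gcongr ?_ * _
    nlinarith [mul_le_mul_of_nonneg_left this c2.le]
  have sur1 : ∀ μ, IsW μ → ∀ (G : ℂ → ℂ) (σ y0 L0 L : ℝ), Conf 2 G → Sg σ → 0 < y0 →
      μ {v | ∃ τ, 0 ≤ τ ∧ σ * ln G (‖gm a v τ y0‖ * I) ≤ L0 ∧ L ≤ σ * ln G (gm a v τ y0) ∧
        ∃ ξ l : ℝ, 0 < ξ ∧ RAl a v.1 ξ τ ∧ (gm a v τ y0).im ≤ l ∧
          ξ + l / 2 ≤ (gm a v τ y0).re ∧ σ * ln G ((gm a v τ y0).re + l * I) ≤ L0} ≤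
      ENNReal.ofReal (C * Real.exp (-(ms * (L - L0) / 2))) := by
    intro μ hμ G σ y0 L0 L hG hσ hy
    rcases le_total (L0 + C4) L with hL | hL
    swap
    · exact triv_bd hμ _ (C := C4) (by linarith) (by nlinarith)
    obtain ⟨ι, _, x, r, l, h1, h2, h3⟩ := H4.sur G σ y0 L0 L hG hσ hy hL
    refine le_trans (measure_mono ?_) ((measure_iUnion_le fun i => {v : Pth | ∃ t, 0 ≤ t ∧
      RAl a v.1 (x i - l i) t ∧ ∃ y, 0 < y ∧ ‖gm a v t y - x i‖ < r i}).trans
      ((ENNReal.tsum_le_tsum fun i => US μ hμ _ _ _ (h1 i).1 (h1 i).2.1 (h1 i).2.2).trans ?_))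
    · rintro v ⟨τ, k1, k2, k3, ξ, l', k4, k5, k6, k7, k8⟩
      obtain ⟨i, k9, k10⟩ := h2 _ ξ l' (gm_im ha v k1 hy) k2 k3 k4 k6 k7 k8
      exact mem_iUnion.2 ⟨i, τ, k1, k5.above v.cont k1 k4 k10, y0, hy, k9⟩
    · simp only [ENNReal.ofReal_mul c1.le]
      rw [ENNReal.tsum_mul_left]
      refine (mul_le_mul_right h3 _).trans ?_
      rw [← ENNReal.ofReal_mul c1.le, ← mul_assoc]
      gcongr
      linarith
  have frc1 : ∀ μ, IsW μ → ∀ (G : ℂ → ℂ) (σ y0 L0 L : ℝ), Conf 2 G → Sg σ → 0 < y0 →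
      μ {v | ∃ τ, 0 ≤ τ ∧ σ * ln G (y0 * I) ≤ L0 ∧
        (∃ y ∈ Icc y0 (K * (y0 + Lz v.1 0 τ)), L ≤ σ * ln G (y * I)) ∧
        ∃ ξ : ℝ, 0 < ξ ∧ RAl a v.1 ξ τ ∧ ∀ y ∈ Icc y0 ξ, σ * ln G (y * I) ≤ L0} ≤
      ENNReal.ofReal (C * Real.exp (-(p * (L - L0) / 2))) := by
    intro μ hμ G σ y0 L0 L hG hσ hy
    rcases le_total (L0 + 4 * K) L with hL | hL
    swap
    · exact triv_bd hμ _ (C := 4 * K) (by linarith) (by nlinarith)
    by_cases hne : σ * ln G (y0 * I) ≤ L0 ∧ ∃ y, y0 ≤ y ∧ L ≤ σ * ln G (y * I)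
    swap
    · refine le_of_eq_of_le (measure_mono_null ?_ measure_empty) zero_le
      rintro v ⟨τ, -, k1, ⟨y, k2, k3⟩, -⟩
      exact hne ⟨k1, y, k2.1, k3⟩
    obtain ⟨y1, ρ, e1, e2, e3, e4, e5⟩ := frc_det hG hσ hy hK hL hne.1 hne.2
    refine le_trans (measure_mono ?_) ((SV μ hμ y1 ρ e1 e2).1.trans (ENNReal.ofReal_le_ofReal ?_))
    · rintro v ⟨τ, k0, -, ⟨y, k2, k3⟩, ξ, k4, k5, k6⟩
      exact ⟨τ, k0, k5.above v.cont k0 k4 (e4 ξ k6), e5 y _ k2 k3⟩
    · rw [e3]; exact pw p p0.le (by linarith) _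
  refine ⟨C, by linarith, fun μ hμ G Λ σ y0 L0 L hG l1 l2 hσ hy => ?_,
    fun μ hμ G σ ε y0 L0 L hG hσ hε hy => ?_, fun μ hμ G σ ε y0 L0 L hG hσ hε hy => ?_,
    fun μ hμ G σ y0 L0 L hG hσ hy => ?_⟩
  · rcases le_total (L0 + C3) L with hL | hL
    swap
    · refine triv_bd hμ _ (C := C3) (by linarith) ?_
      rw [div_le_iff₀ (by linarith)]
      nlinarith [h.alp_pos, h.alp_le]
    obtain ⟨ι, _, x, r, h1, h2, h3⟩ := H3.unf G Λ σ y0 L0 L hG l1 l2 hσ hy hL
    refine le_trans (measure_mono ?_) ((cover_bd h hμ h1).trans ((mul_le_mul_right h3 _).trans ?_))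
    · rintro v ⟨τ, k1, k2, k3⟩
      exact ⟨τ, y0, k1, hy, h2 _ (gm_im ha v k1 hy) k2 k3⟩
    · rw [← ENNReal.ofReal_mul (by norm_num), ← mul_assoc]
      gcongr
      linarith
  · rcases hε with rfl | rfl
    · simpa only [one_mul] using sur1 μ hμ G σ y0 L0 L hG hσ hy
    refine le_trans (measure_mono ?_) ((hμ.measure_ng _).trans_le
      (sur1 μ hμ _ σ y0 L0 L hG.mirror hσ hy))
    rintro v ⟨τ, k1, k2, k3, ξ, l', k4, k5, k6, k7, k8⟩
    refine ⟨τ, k1, ?_, ?_, ξ, l', k4, by simpa [ng_val] using k5.mirror, ?_, ?_, ?_⟩ <;>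
      rw [gm_ng ha v k1 hy]
    · rwa [ln_mirror, norm_mir, mir_mul_I]
    · rwa [ln_mirror, mir_mir]
    · rwa [mir_im]
    · simpa using k7
    · rwa [ln_mirror, ← mir_add, mir_mul_I, mir_ofReal, mir_re, neg_neg]
  · rcases hε with rfl | rfl
    · simpa only [one_mul] using frc1 μ hμ G σ y0 L0 L hG hσ hy
    refine le_trans (measure_mono ?_) ((hμ.measure_ng _).trans_le (frc1 μ hμ G σ y0 L0 L hG hσ hy))
    rintro v ⟨τ, k1, k2, k3, ξ, k4, k5, k6⟩
    exact ⟨τ, k1, k2, by rwa [Lz_ng], ξ, k4, by simpa [ng_val] using k5.mirror, k6⟩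
  · rcases le_total (L0 + 4 * K) L with hL | hL
    swap
    · exact triv_bd hμ _ (C := 4 * K) (by linarith) (by nlinarith)
    by_cases hne : σ * ln G (y0 * I) ≤ L0 ∧ ∃ y, y0 ≤ y ∧ L ≤ σ * ln G (y * I)
    swap
    · refine le_of_eq_of_le (measure_mono_null ?_ measure_empty) zero_le
      rintro v ⟨τ, -, k1, ⟨y, k2, k3⟩, -⟩
      exact hne ⟨k1, y, k2.1, k3⟩
    obtain ⟨y1, ρ, e1, e2, e3, e4, e5⟩ := frc_det hG hσ hy hK hL hne.1 hne.2
    refine le_trans (measure_mono ?_) ((SV μ hμ y1 ρ e1 e2).2.trans (ENNReal.ofReal_le_ofReal ?_))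
    · rintro v ⟨τ, k0, -, ⟨y, k2, k3⟩, ξ, ξ', k4, k4', k5, k5', k6, k6'⟩
      refine ⟨τ, k0, k5.above v.cont k0 k4 (e4 ξ k6), ?_, e5 y _ k2 k3⟩
      obtain ⟨X, k7, k8⟩ := k5'
      exact k7.below v.cont k0 (by linarith) (by linarith [e4 ξ' k6'])
    · rw [e3]
      exact (pw (2 * p) (by linarith) (by linarith [h.1]) _).trans_eq (by congr 3; ring)

end Pool.Agent.MP_990230_pr.K8

end
end MrgPart3

-- marker of a merged file
example : 731051 + 502702 = 731051 + 502702 := rfl
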