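import Pool.Agent.MP_990230_pr.k8.SH2

-- ======== part 0: formerly Pool.Agent.MP_990230_pr.k8.SH3
section MrgPart0

/-! # SLE8, clean window, deterministic part 3: the route of an unforced episode -/

open Set Complex
open scoped Topology

noncomputable section

namespace Pool.Agent.MP_990230_pr.K8

namespace SHM

variable {a : ℝ} {U : ℝ → ℝ} {φ ψ : ℂ → ℝ} {L : ℝ → ℝ → ℝ} {y0 t0 T C : ℝ}

/-- positive inside the rectangle `ε [x - ξ, x + ξ] × (-∞, y]`, negative outside. -/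
def rho (ε x y ξ : ℝ) (w : ℂ) : ℝ := min (ξ - |ε * w.re - x|) (y - w.im)

/-- a vertical segment. -/
def vs (r y : ℝ) : Set ℂ := (fun η : ℝ => (r : ℂ) + η * I) '' Ioc 0 y

/-- the three sides of the rectangle in the half plane. -/
def sides (ε x y ξ : ℝ) : Set ℂ :=
  vs (ε * (x - ξ)) y ∪ (fun r : ℝ => ((ε * r : ℝ) : ℂ) + y * I) '' Icc (x - ξ) (x + ξ) ∪
    vs (ε * (x + ξ)) y

variable {ε x y ξ lv s0 uL uR : ℝ}

theorem rho_cont (ε x y ξ : ℝ) : Continuous (rho ε x y ξ) := by unfold rho; fun_prop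

theorem vs_pc (r y : ℝ) : IsPreconnected (vs r y) := isPreconnected_Ioc.image _ (by fun_prop)

theorem vs_im {r : ℝ} {w : ℂ} (h : w ∈ vs r y) : 0 < w.im := by
  obtain ⟨η, h1, rfl⟩ := h
  simpa using h1.1

theorem sides_pc (hy : 0 < y) (hξ : 0 ≤ ξ) : IsPreconnected (sides ε x y ξ) :=
  IsPreconnected.union (((ε * (x + ξ) : ℝ) : ℂ) + y * I)
    (Or.inr ⟨x + ξ, ⟨by linarith, le_rfl⟩, rfl⟩) ⟨y, ⟨hy, le_rfl⟩, rfl⟩
    (IsPreconnected.union (((ε * (x - ξ) : ℝ) : ℂ) + y * I) ⟨y, ⟨hy, le_rfl⟩, rfl⟩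
      ⟨x - ξ, ⟨le_rfl, by linarith⟩, rfl⟩ (vs_pc _ _)
      (isPreconnected_Icc.image _ (by fun_prop))) (vs_pc _ _)

theorem sides_im (hy : 0 < y) {w : ℂ} (h : w ∈ sides ε x y ξ) : 0 < w.im := by
  rcases h with (h | ⟨r, -, rfl⟩) | h
  · exact vs_im h
  · simpa using hy
  · exact vs_im h

theorem sq_sign (e1 : ε = 1 ∨ ε = -1) (r : ℝ) : ε * (ε * r) = r := by
  rcases e1 with rfl | rfl <;> ring

theorem mem_sides (e1 : ε = 1 ∨ ε = -1) {w : ℂ} (h1 : 0 < w.im) (h2 : rho ε x y ξ w = 0) :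
    w ∈ sides ε x y ξ := by
  have k1 : |ε * w.re - x| ≤ ξ := sub_nonneg.1 (h2.ge.trans (min_le_left _ _))
  have k2 : w.im ≤ y := sub_nonneg.1 (h2.ge.trans (min_le_right _ _))
  have e : ∀ r, ε * w.re = r → ((ε * r : ℝ) : ℂ) + w.im * I = w := fun r hr => by
    rw [← hr, sq_sign e1]; exact re_add_im w
  rcases min_eq_iff.1 h2 with ⟨k, -⟩ | ⟨k, -⟩
  · rcases abs_cases (ε * w.re - x) with ⟨d, -⟩ | ⟨d, -⟩
    · exact Or.inr ⟨w.im, ⟨h1, k2⟩, e _ (by linarith)⟩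
    · exact Or.inl (Or.inl ⟨w.im, ⟨h1, k2⟩, e _ (by linarith)⟩)
  · rw [abs_le] at k1
    refine Or.inl (Or.inr ⟨ε * w.re, ⟨by linarith, by linarith⟩, ?_⟩)
    rw [show y = w.im by linarith]
    exact e _ rfl

theorem Fm_pc (ha : 0 < a) (hU : Continuous U) {t : ℝ} (ht : 0 ≤ t) {S : Set ℂ}
    (h : IsPreconnected S) (hS : ∀ w ∈ S, 0 < w.im) : IsPreconnected (Fm a U t '' S) :=
  h.image _ fun w hw => (Fm_continuousAt ha hU ht (hS w hw)).continuousWithinAt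

/-- points of a vertical segment pulled back near the real trajectory of its foot. -/
theorem near_foot (ha : 0 < a) (hU : Continuous U) {s t : ℝ} (hs : 0 ≤ s) (hst : s ≤ t)
    {X : ℝ → ℝ} (h : RT a U s t X) (hy : 0 < y) {δ : ℝ} (hδ : 0 < δ) :
    ∃ w ∈ vs (X t) y, ‖Zt a U (Fm a U t w) s - X s‖ ≤ δ := by
  obtain ⟨r, hr, h1⟩ := h.back_cont ha hU hs hst hδ
  have hm : 0 < min r y := lt_min hr hy
  refine ⟨_, ⟨min r y, ⟨hm, min_le_right _ _⟩, rfl⟩, h1 _ (by simpa using ⟨hr, hy⟩) ?_ s ⟨le_rfl, hst⟩⟩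
  simp only [add_sub_cancel_left]
  rw [norm_mulI hm.le]
  exact min_le_left _ _

theorem Tl.land (h : Tl a U φ L y0 t0 T C) (hψ : ∀ z w, |ψ z - ψ w| = |φ z - φ w|)
    (hc : Continuous ψ) (hs : 0 ≤ s0) (hT : s0 ≤ T) {r A : ℝ} (hr : r ≠ 0) (hy : 0 < y)
    (hv : ∀ w ∈ vs r y, |ψ (Fm a U s0 w) - lv| ≤ A) (hR : ∀ x : ℝ, A < |ψ x - lv|) :
    ∃ u ∈ Ico 0 s0, (∀ s, Back a U s s0 r ↔ u < s) ∧ ∃ S : Set ℂ, IsPreconnected S ∧
      (∀ q ∈ S, Alive a U q u ∧ |ψ q - lv| ≤ A + 2 * C) ∧ Fm a U u (y0 * I) ∈ S ∧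
      (S ∩ Fm a U s0 '' vs r y).Nonempty := by
  have nb : ¬ Back a U 0 s0 r := by
    rintro ⟨X, hX, rfl⟩
    have cl : IsClosed {z : ℂ | |ψ z - lv| ≤ A} := isClosed_le (by fun_prop) continuous_const
    refine (hR (X 0)).not_ge (cl.closure_subset (Metric.mem_closure_iff.2 fun δ hδ => ?_))
    obtain ⟨w, hw, k⟩ := near_foot h.ha h.hU le_rfl hs hX hy (half_pos hδ)
    rw [(LoeAM.init (a := a) h.hU _ (Fm_alive h.ha h.hU hs (vs_im hw)).1).2.1, h.U0, ofReal_zero,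
      sub_zero] at k
    exact ⟨_, hv w hw, by rw [dist_comm, dist_eq_norm]; linarith⟩
  obtain ⟨u, hu, h1, h2⟩ := hit_time h.ha h.hU le_rfl hs hr nb
  obtain ⟨S, s1, s2, s3, q, q1, q2⟩ := h.lind u (Fm a U s0 '' vs r y) hu.1 (hu.2.le.trans hT)
    (Fm_pc h.ha h.hU hs (vs_pc _ _) fun w hw => vs_im hw)
    (by
      rintro _ ⟨w, hw, rfl⟩
      exact LoeAM.alive_mono hu.2.le (Fm_alive h.ha h.hU hs (vs_im hw)))
    (fun e he => by
      obtain ⟨δ, hδ, h3⟩ := h2 e he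
      have hm : 0 < min δ y := lt_min hδ hy
      refine ⟨_, ⟨_, ⟨min δ y, ⟨hm, min_le_right _ _⟩, rfl⟩, rfl⟩,
        h3 _ (by simpa using ⟨hδ, hy⟩) ?_⟩
      simp only [add_sub_cancel_left]
      rw [norm_mulI hm.le]
      exact min_le_left _ _)
  refine ⟨u, hu, h1, S, s1, fun p hp => ⟨(s2 p hp).1, ?_⟩, s3, q, q1, q2⟩
  obtain ⟨w, hw, rfl⟩ := q2
  have k1 := (s2 p hp).2
  have k2 := (s2 _ q1).2
  have k3 := hv w hw
  rw [← hψ] at k1 k2
  rw [abs_le] at k1 k2 k3 ⊢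
  constructor <;> linarith [k1.1, k1.2, k2.1, k2.2, k3.1, k3.2]

/-- a rectangle in the picture at time `s0`, sides at level `lv`, landing times `uL`, `uR`. -/
structure Rc (a : ℝ) (U : ℝ → ℝ) (ψ : ℂ → ℝ) (y0 C s0 ε lv x y ξ uL uR : ℝ) : Prop where
  hy : 0 < y
  x1 : 0 < ξ
  x2 : ξ < x
  lev : ∀ w ∈ sides ε x y ξ, |ψ (Fm a U s0 w) - lv| ≤ 3 * C
  mL : uL ∈ Ico 0 s0
  mR : uR ∈ Ico 0 s0
  bL : ∀ s, Back a U s s0 (ε * (x - ξ)) ↔ uL < s
  bR : ∀ s, Back a U s s0 (ε * (x + ξ)) ↔ uR < s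
  lk : ∃ W : Set ℂ, IsPreconnected W ∧ (∀ q ∈ W, Alive a U q uL ∧ |ψ q - lv| ≤ 5 * C) ∧
    Fm a U uL (y0 * I) ∈ W ∧ Fm a U s0 '' sides ε x y ξ ⊆ W
  lR : |ψ (Fm a U uR (y0 * I)) - lv| ≤ 5 * C

theorem Rc.lL (h : Rc a U ψ y0 C s0 ε lv x y ξ uL uR) :
    |ψ (Fm a U uL (y0 * I)) - lv| ≤ 5 * C := by
  obtain ⟨W, -, h1, h2, -⟩ := h.lk
  exact (h1 _ h2).2

theorem Tl.rect (h : Tl a U φ L y0 t0 T C) (hψ : ∀ z w, |ψ z - ψ w| = |φ z - φ w|)
    (hc : Continuous ψ) (hs : 0 ≤ s0) (hs0 : t0 ≤ s0) (hT : s0 ≤ T) (e1 : ε = 1 ∨ ε = -1)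
    (hy : 0 < y) (hx : 2 * y < x) (e : ψ (Fm a U s0 ((ε * x : ℝ) + y * I)) = lv)
    (hR : ∀ x : ℝ, 3 * C < |ψ x - lv|) :
    ∃ ξ uL uR, ξ ∈ Icc y (2 * y) ∧ Rc a U ψ y0 C s0 ε lv x y ξ uL uR := by
  have hC := h.hC
  obtain ⟨ξ, hξ, h1⟩ := h.ray s0 (ε * x) y hs hs0 hy
  simp only [← hψ, e] at h1
  have lev : ∀ w ∈ sides ε x y ξ, |ψ (Fm a U s0 w) - lv| ≤ 3 * C := by
    rintro w ((⟨η, hη, rfl⟩ | ⟨r, hr, rfl⟩) | ⟨η, hη, rfl⟩)
    · rcases e1 with rfl | rfl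
      · rw [show 1 * (x - ξ) = 1 * x - ξ by ring]; linarith [(h1 η hη).2]
      · rw [show -1 * (x - ξ) = -1 * x + ξ by ring]; linarith [(h1 η hη).1]
    · rw [← e, hψ]
      refine (h.lip s0 y 2 _ _ hs hs0 hy (by simp) (by simp) ?_).trans (by linarith)
      rw [add_sub_add_right_eq_sub, ← ofReal_sub, norm_real, Real.norm_eq_abs, abs_le]
      rcases e1 with rfl | rfl <;> constructor <;> linarith [hr.1, hr.2, hξ.2]
    · rcases e1 with rfl | rfl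
      · rw [show 1 * (x + ξ) = 1 * x + ξ by ring]; linarith [(h1 η hη).1]
      · rw [show -1 * (x + ξ) = -1 * x - ξ by ring]; linarith [(h1 η hη).2]
  have e0 : ε ≠ 0 := by rcases e1 with rfl | rfl <;> norm_num
  have x1 : 0 < ξ := hy.trans_le hξ.1
  have x2 : ξ < x := hξ.2.trans_lt hx
  obtain ⟨uL, mL, bL, S, s1, s2, s3, q, q1, q2⟩ := h.land hψ hc hs hT
    (mul_ne_zero e0 (show x - ξ ≠ 0 by linarith)) hy (fun w hw => lev w (Or.inl (Or.inl hw))) hR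
  obtain ⟨uR, mR, bR, S', -, s2', s3', -⟩ := h.land hψ hc hs hT
    (mul_ne_zero e0 (show x + ξ ≠ 0 by linarith)) hy (fun w hw => lev w (Or.inr hw)) hR
  refine ⟨ξ, uL, uR, hξ, hy, x1, x2, lev, mL, mR, bL, bR, ⟨S ∪ Fm a U s0 '' sides ε x y ξ,
    IsPreconnected.union q q1 (image_mono (fun w hw => Or.inl (Or.inl hw)) q2) s1
      (Fm_pc h.ha h.hU hs (sides_pc hy x1.le) fun w hw => sides_im hy hw), ?_, Or.inl s3,
    subset_union_right⟩, by linarith [(s2' _ s3').2]⟩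
  rintro p (hp | ⟨w, hw, rfl⟩)
  · exact ⟨(s2 p hp).1, by linarith [(s2 p hp).2]⟩
  · exact ⟨LoeAM.alive_mono mL.2.le (Fm_alive h.ha h.hU hs (sides_im hy hw)),
      by linarith [lev w hw]⟩

theorem back_far (hU : Continuous U) (e1 : ε = 1 ∨ ε = -1) {s t r r' : ℝ} (hst : s ≤ t)
    (h : Back a U s t (ε * r)) (h0 : 0 < r) (h1 : r ≤ r') : Back a U s t (ε * r') := by
  rcases e1 with rfl | rfl
  · exact h.above hU hst (by linarith) (by linarith)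
  · exact h.below hU hst (by linarith) (by linarith)

theorem hit_mono (hU : Continuous U) (e1 : ε = 1 ∨ ε = -1) {r r' u u' : ℝ} (h0 : 0 < r)
    (h1 : r ≤ r') (b : ∀ s, Back a U s s0 (ε * r) ↔ u < s)
    (b' : ∀ s, Back a U s s0 (ε * r') ↔ u' < s) (hu : u' ≤ s0) : u' ≤ u := by
  by_contra hc
  exact lt_irrefl _ ((b' u').1 (back_far hU e1 hu ((b u').2 (not_le.1 hc)) h0 h1))

/-- the nested rectangles around the point `v` at the levels of `[lo, hi]`. -/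
structure Rt (a : ℝ) (U : ℝ → ℝ) (ψ : ℂ → ℝ) (y0 C s0 lo hi μ : ℝ) (v : ℂ) (ε : ℝ)
    (x y ξ uL uR : ℝ → ℝ) : Prop where
  e1 : ε = 1 ∨ ε = -1
  rc : ∀ l ∈ Icc lo hi, Rc a U ψ y0 C s0 ε l (x l) (y l) (ξ l) (uL l) (uR l)
  mem : ∀ l ∈ Icc lo hi, 0 ≤ rho ε (x l) (y l) (ξ l) v
  nest : ∀ l ∈ Icc lo hi, ∀ l' ∈ Icc lo hi, l + μ ≤ l' →
    x l - ξ l ≤ x l' - ξ l' ∧ x l' + ξ l' < x l + ξ l

theorem arc_le {R p q d : ℝ} (hq : 0 ≤ q) (hR : q ≤ R) (hd : 0 ≤ d)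
    (h : q ^ 2 ≤ 2 * √(R ^ 2 - q ^ 2) * d + d ^ 2) :
    √(R ^ 2 - p ^ 2) ≤ √(R ^ 2 - q ^ 2) + d := by
  have h1 : √(R ^ 2 - q ^ 2) ^ 2 = R ^ 2 - q ^ 2 := Real.sq_sqrt (by nlinarith)
  exact Real.sqrt_le_iff.2 ⟨by positivity, by nlinarith [sq_nonneg p]⟩

theorem arc_mono {R p q : ℝ} (hp : 0 ≤ p) (h : p ≤ q) : √(R ^ 2 - q ^ 2) ≤ √(R ^ 2 - p ^ 2) :=
  Real.sqrt_le_sqrt (by nlinarith)

theorem Tl.route (h : Tl a U φ L y0 t0 T C) (hψ : ∀ z w, |ψ z - ψ w| = |φ z - φ w|)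
    (hc : Continuous ψ) (hs : 0 ≤ s0) (hs0 : t0 ≤ s0) (hT : s0 ≤ T) {lo hi μ : ℝ}
    (hμ : 202 * C ≤ μ) {v : ℂ} (hv : 0 < v.im) (h1 : hi ≤ ψ (Fm a U s0 v))
    (h2 : ψ (Fm a U s0 ((‖v‖ : ℝ) * I)) + μ ≤ lo)
    (hR : ∀ l ∈ Icc lo hi, ∀ x : ℝ, 3 * C < |ψ x - l|) :
    ∃ ε x y ξ uL uR, Rt a U ψ y0 C s0 lo hi μ v ε x y ξ uL uR := by
  have hC := h.hC
  obtain ⟨ε, e1, e2⟩ : ∃ ε : ℝ, (ε = 1 ∨ ε = -1) ∧ ε * |v.re| = v.re := by
    rcases abs_cases v.re with ⟨d, -⟩ | ⟨d, -⟩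
    · exact ⟨1, Or.inl rfl, by rw [d]; ring⟩
    · exact ⟨-1, Or.inr rfl, by rw [d]; ring⟩
  set R := ‖v‖ with hRv
  have hvR : v.im ≤ R := (le_abs_self _).trans (abs_im_le_norm v)
  let A : ℝ → ℝ := fun y => √(R ^ 2 - y ^ 2)
  let G : ℝ → ℝ := fun y => ψ (Fm a U s0 ((ε * A y : ℝ) + y * I))
  have Av : A v.im = |v.re| := by
    rw [← Real.sqrt_sq_eq_abs]
    show √(_) = _
    rw [hRv, Complex.sq_norm, normSq_apply]
    congr 1; ring
  have Gv : hi ≤ G v.im := by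
    show hi ≤ ψ (Fm a U s0 ((ε * A v.im : ℝ) + v.im * I))
    rwa [Av, e2, re_add_im]
  have GR : G R + μ ≤ lo := by
    show ψ (Fm a U s0 ((ε * √(R ^ 2 - R ^ 2) : ℝ) + R * I)) + μ ≤ lo
    simpa using h2
  have Gc : ContinuousOn G (Icc v.im R) := fun y hy =>
    (hc.continuousAt.comp ((Fm_continuousAt h.ha h.hU hs (by simpa using hv.trans_le hy.1)).comp
      (f := fun y : ℝ => ((ε * A y : ℝ) : ℂ) + y * I) (by fun_prop))).continuousWithinAt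
  have gap : ∀ p q, v.im ≤ p → p ≤ q → q ≤ R → G q + μ ≤ G p → 100 * p ≤ q := by
    intro p q k1 k2 k3 k4
    by_contra hlt
    have p0 : 0 < p := hv.trans_le k1
    have a1 : A p ≤ A q + q := arc_le (by linarith) k3 (by linarith)
      (by nlinarith [Real.sqrt_nonneg (R ^ 2 - q ^ 2)])
    have a2 : A q ≤ A p := arc_mono p0.le k2
    have := h.lip s0 p 200 ((ε * A p : ℝ) + p * I) ((ε * A q : ℝ) + q * I) hs hs0 p0 (by simp)
      (by simpa using k2) (by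
        refine (norm_le_abs_re_add_abs_im _).trans ?_
        have b1 : |ε * A p - ε * A q| ≤ q := by
          rw [abs_le]
          rcases e1 with rfl | rfl <;> constructor <;> linarith
        have b2 : |p - q| ≤ q := by rw [abs_le]; constructor <;> linarith
        simp only [sub_re, add_re, ofReal_re, mul_re, I_re, mul_zero, ofReal_im, I_im, mul_one,
          sub_self, add_zero, sub_im, add_im, mul_im, zero_add]
        linarith)
    rw [← hψ] at this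
    linarith [(abs_le.1 this).2, show G p = ψ _ from rfl, show G q = ψ _ from rfl]
  have ex : ∀ l ∈ Icc lo hi, ∃ y ∈ Icc v.im R, G y = l ∧ ∀ y' ∈ Icc v.im R, l ≤ G y' → y' ≤ y := by
    intro l hl
    have cp : IsCompact (Icc v.im R ∩ G ⁻¹' Ici l) :=
      isCompact_Icc.of_isClosed_subset (Gc.preimage_isClosed_of_isClosed isClosed_Icc isClosed_Ici)
        inter_subset_left
    obtain ⟨y, hy, k⟩ := cp.exists_isGreatest ⟨v.im, ⟨le_rfl, hvR⟩, hl.2.trans Gv⟩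
    obtain ⟨y', hy', e⟩ := intermediate_value_Icc' hy.1.2 (Gc.mono (Icc_subset_Icc_left hy.1.1))
      (show l ∈ _ from ⟨by linarith [hl.1], hy.2⟩)
    have : y' = y := le_antisymm (k ⟨⟨hy.1.1.trans hy'.1, hy'.2⟩, e.ge⟩) hy'.1
    exact ⟨y, hy.1, this ▸ e, fun z hz hz' => k ⟨hz, hz'⟩⟩
  choose! y hy1 hy2 hy3 using ex
  have yp : ∀ l ∈ Icc lo hi, 0 < y l := fun l hl => hv.trans_le (hy1 l hl).1
  have big : ∀ l ∈ Icc lo hi, 99 * y l ≤ A (y l) := fun l hl => by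
    have := gap _ R (hy1 l hl).1 (hy1 l hl).2 le_rfl (by rw [hy2 l hl]; linarith [hl.1])
    have := yp l hl
    exact Real.le_sqrt_of_sq_le (by nlinarith)
  have near : ∀ l ∈ Icc lo hi, ∀ p, 0 ≤ p → p ≤ y l → A (y l) ≤ A p ∧ A p ≤ A (y l) + y l / 100 :=
    fun l hl p hp hp' => ⟨arc_mono hp hp', arc_le (yp l hl).le (hy1 l hl).2
      (by linarith [yp l hl]) (by
        have := big l hl
        have := yp l hl
        show _ ≤ 2 * A (y l) * _ + _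
        nlinarith)⟩
  have ex2 := fun l (hl : l ∈ Icc lo hi) => h.rect hψ hc hs hs0 hT e1 (yp l hl)
    (show 2 * y l < A (y l) by linarith [big l hl, yp l hl]) (hy2 l hl) (hR l hl)
  choose! ξ uL uR hξ hrc using ex2
  refine ⟨ε, fun l => A (y l), y, ξ, uL, uR, e1, hrc, fun l hl => ?_, fun l hl l' hl' k => ?_⟩
  · obtain ⟨k1, k2⟩ := near l hl v.im hv.le (hy1 l hl).1
    have e3 : ε * v.re = A v.im := by rw [Av, ← e2, sq_sign e1, e2]
    refine le_min ?_ (by linarith [(hy1 l hl).1])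
    rw [e3, abs_of_nonneg (by linarith)]
    linarith [(hξ l hl).1, yp l hl]
  · have k0 : y l' ≤ y l := hy3 l hl _ (hy1 l' hl') (by rw [hy2 l' hl']; linarith)
    have k1 := gap _ _ (hy1 l' hl').1 k0 (hy1 l hl).2 (by rw [hy2 l hl, hy2 l' hl']; exact k)
    obtain ⟨k2, k3⟩ := near l hl _ (yp l' hl').le k0
    constructor <;> linarith [(hξ l hl).1, (hξ l' hl').2, yp l hl]

section order

variable {lo hi μ : ℝ} {v : ℂ} {x y ξ uL uR : ℝ → ℝ} {l l' : ℝ}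

theorem Rt.oL (h : Rt a U ψ y0 C s0 lo hi μ v ε x y ξ uL uR) (hU : Continuous U)
    (hl : l ∈ Icc lo hi) (hl' : l' ∈ Icc lo hi) (k : l + μ ≤ l') : uL l' ≤ uL l :=
  hit_mono hU h.e1 (sub_pos.2 (h.rc l hl).x2) (h.nest l hl l' hl' k).1 (h.rc l hl).bL
    (h.rc l' hl').bL (h.rc l' hl').mL.2.le

theorem Rt.oR (h : Rt a U ψ y0 C s0 lo hi μ v ε x y ξ uL uR) (hU : Continuous U)
    (hl : l ∈ Icc lo hi) (hl' : l' ∈ Icc lo hi) (k : l + μ ≤ l') : uR l ≤ uR l' :=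
  hit_mono hU h.e1 (by linarith [(h.rc l' hl').x1, (h.rc l' hl').x2]) (h.nest l hl l' hl' k).2.le
    (h.rc l' hl').bR (h.rc l hl).bR (h.rc l hl).mR.2.le

theorem Rc.oRL {x y ξ uL uR : ℝ} (h : Rc a U ψ y0 C s0 ε lv x y ξ uL uR) (hU : Continuous U)
    (e1 : ε = 1 ∨ ε = -1) : uR ≤ uL :=
  hit_mono hU e1 (sub_pos.2 h.x2) (by linarith [h.x1]) h.bL h.bR h.mR.2.le

end order

end SHM

end Pool.Agent.MP_990230_pr.K8

end
end MrgPart0

-- ======== part 1: formerly Pool.Agent.MP_990230_pr.k8.SH4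
section MrgPart1

/-! # SLE8, clean window, deterministic part 4: the parent of an unforced crossing is charged -/

open Set Complex
open scoped Topology

noncomputable section

namespace Pool.Agent.MP_990230_pr.K8

namespace SHM

variable {a : ℝ} {U : ℝ → ℝ} {φ : ℂ → ℝ} {L : ℝ → ℝ → ℝ} {y0 T C : ℝ}
  {sg : ℕ → ℝ} {M l ν μ : ℝ} {E B : ℕ} {Tm : ℕ → ℝ} {c : ℕ → ℕ → ℝ} {i0 : ℕ}

theorem ps_sub (hσ : ∀ i, sg i = 1 ∨ sg i = -1) (i : ℕ) (z w : ℂ) :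
    |ps φ sg M B l i z - ps φ sg M B l i w| = |φ z - φ w| := by
  unfold ps
  rcases hσ i with e | e <;> rw [e]
  · congr 1; ring
  · rw [abs_sub_comm]; congr 1; ring

theorem ps_cont (hc : Continuous φ) (i : ℕ) : Continuous (ps φ sg M B l i) := by
  unfold ps; fun_prop

/-- a child of the crossing of the block `[d, d+l]` in the episode `[T1, T2]`. -/
def Kid (a : ℝ) (U : ℝ → ℝ) (ψ : ℂ → ℝ) (y0 C l μ T1 T2 d ε s0 θ : ℝ) : Prop :=
  ∃ x1 y1 ξ1 L1 R1 x2 y2 ξ2 L2 R2 x3 y3 ξ3 L3 R3 : ℝ,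
    Rc a U ψ y0 C s0 ε (d + l - 5 * μ) x1 y1 ξ1 L1 R1 ∧
    Rc a U ψ y0 C s0 ε (d + l / 2) x2 y2 ξ2 L2 R2 ∧
    Rc a U ψ y0 C s0 ε (d + 5 * μ) x3 y3 ξ3 L3 R3 ∧ (ε = 1 ∨ ε = -1) ∧ T2 ≤ s0 ∧ s0 ≤ θ ∧
    0 ≤ rho ε x3 y3 ξ3 (Zt a U (Fm a U θ (y0 * I)) s0) ∧ x3 + ξ3 < x1 + ξ1 ∧
    L1 ∈ Icc T1 T2 ∧ L2 ∈ Icc T1 T2 ∧ L3 ∈ Icc T1 T2 ∧ R1 < T1 ∧ R2 < T1 ∧ R3 < T1

theorem Rc.opp {ψ ψ' : ℂ → ℝ} {s0 ε lv lv' x y ξ uL uR K : ℝ}
    (h : Rc a U ψ y0 C s0 ε lv x y ξ uL uR) (e : ∀ z, ψ' z = K - ψ z) (e' : lv' = K - lv) :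
    Rc a U ψ' y0 C s0 ε lv' x y ξ uL uR := by
  have k : ∀ z, |ψ' z - lv'| = |ψ z - lv| := fun z => by
    rw [e, e', abs_sub_comm]; congr 1; ring
  exact ⟨h.hy, h.x1, h.x2, by simpa only [k] using h.lev, h.mL, h.mR, h.bL, h.bR,
    by simpa only [k] using h.lk, by simpa only [k] using h.lR⟩

theorem Win.route (h : Win a U φ L y0 T C sg M l ν μ E B Tm c i0)
    (hR : ∀ x : ℝ, M + B * l / 2 ≤ φ x) {j k : ℕ} (h0 : i0 ≤ j) (hj : j < E)
    (hk : kU a U φ L y0 C sg M l μ B c j = k) (hB : k < B) : ∃ ε x y ξ uL uR,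
      Rt a U (ps φ sg M B l j) y0 C (c j k) (k * l + 2 * μ) (B * l - μ) μ
        (Zt a U (Fm a U (c j B) (y0 * I)) (c j k)) ε x y ξ uL uR := by
  obtain ⟨c1, c2, c3, c4, c5, c6⟩ := h.num
  have p0 := h.ep.cnn hj hB.le
  have p1 := h.ep.cmono hj hB.le le_rfl
  obtain ⟨al, -⟩ := h.mk_alive (p0.trans p1)
  obtain ⟨b1, b2⟩ := h.mk_bd p0 p1
  have hy := h.tl.hy
  have hk0 : (0 : ℝ) ≤ k * l := by have : 0 ≤ l := by linarith
                                   positivity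
  refine h.tl.route (ps_sub h.ep.sg1 j) (ps_cont h.tl.φc j) p0 (h.dead h0 hj hB.le)
    (h.ep.cT hj hB.le) (by linarith) (by linarith) ?_ ?_ fun lv hl x => ?_
  · rw [Fm_Zt h.tl.ha h.tl.hU p0 (LoeAM.alive_mono p1 al)]
    linarith [h.ep.hit j hj B le_rfl]
  · have hu := nU_spec (show nU a U (ps φ sg M B l j) L y0 C l μ B (c j) < B from hk.trans_lt hB)
    rw [show nU a U (ps φ sg M B l j) L y0 C l μ B (c j) = k from hk] at hu
    have q := h.tl.L0 _ _ p0 p1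
    have := hu _ ⟨b1.trans ((le_abs_self _).trans (abs_im_le_norm _)), by nlinarith⟩
    linarith
  · have := hR x
    unfold ps
    rcases h.ep.sg1 j with e | e <;> rw [e]
    · exact lt_abs.2 (Or.inl (by linarith [hl.2]))
    · exact lt_abs.2 (Or.inr (by linarith [hl.1]))

theorem Win.kid (h : Win a U φ L y0 T C sg M l ν μ E B Tm c i0) {j k n : ℕ} (hj : j < E)
    (hkn : k ≤ n) (hn : n < B) {ε : ℝ} {x y ξ uL uR : ℝ → ℝ}
    (r : Rt a U (ps φ sg M B l j) y0 C (c j k) (k * l + 2 * μ) (B * l - μ) μ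
      (Zt a U (Fm a U (c j B) (y0 * I)) (c j k)) ε x y ξ uL uR)
    (hs : ∀ i, 1 ≤ i → i ≤ E → uL ((n + 1) * l - 5 * μ) < Tm i → uL (n * l + 5 * μ) < Tm i) :
    ∃ i, 1 ≤ i ∧ i < j ∧ sg i = -sg j ∧ ∀ n' : ℕ, n' + n + 1 = B →
      Kid a U (ps φ sg M B l i) y0 C l μ (Tm i) (Tm (i + 1)) (n' * l) ε (c j k) (c j B) := by
  classical
  obtain ⟨c1, c2, c3, c4, c5, c6⟩ := h.num
  have e := h.ep
  have hU := h.tl.hU
  have hl0 : 0 ≤ l := by linarith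
  have k1 : (k : ℝ) * l ≤ n * l := by gcongr
  have k0 : (0 : ℝ) ≤ k * l := by positivity
  have k2 : ((n : ℝ) + 1) * l ≤ B * l := by gcongr; exact_mod_cast hn
  have m1 : n * l + 5 * μ ∈ Icc (k * l + 2 * μ) (B * l - μ) := ⟨by linarith, by linarith⟩
  have m2 : n * l + l / 2 ∈ Icc (k * l + 2 * μ) (B * l - μ) := ⟨by linarith, by linarith⟩
  have m3 : (n + 1) * l - 5 * μ ∈ Icc (k * l + 2 * μ) (B * l - μ) := ⟨by linarith, by linarith⟩
  have m4 : (n + 1) * l - 3 * μ ∈ Icc (k * l + 2 * μ) (B * l - μ) := ⟨by linarith, by linarith⟩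
  have r1 := r.rc _ m1
  have r2 := r.rc _ m2
  have r3 := r.rc _ m3
  have r4 := r.rc _ m4
  have o12 := r.oL hU m1 m2 (by linarith)
  have o23 := r.oL hU m2 m3 (by linarith)
  have o34 := r.oL hU m3 m4 (by linarith)
  have o4 := r4.oRL hU r.e1
  have q34 := r.oR hU m3 m4 (by linarith)
  have q23 := r.oR hU m2 m3 (by linarith)
  have q12 := r.oR hU m1 m2 (by linarith)
  have s1 : c j k ≤ Tm (j + 1) := e.hi hj (by omega)
  have ex : ∃ i, uL ((n + 1) * l - 5 * μ) < Tm i := ⟨j + 1, r3.mL.2.trans_le s1⟩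
  have f1 := Nat.find_spec ex
  have f2 : Nat.find ex ≤ j + 1 := Nat.find_min' ex (r3.mL.2.trans_le s1)
  obtain ⟨i, hi⟩ : ∃ i, Nat.find ex = i + 1 := Nat.exists_eq_succ_of_ne_zero fun h0 => by
    rw [h0, e.T0] at f1; linarith [r3.mL.1]
  have f3 : Tm i ≤ uL ((n + 1) * l - 5 * μ) := not_lt.1 (Nat.find_min ex (by omega))
  rw [hi] at f1 f2
  have f4 := hs (i + 1) (by omega) (by omega) f1
  have hiE : i < E := by omega
  have l1 := abs_le.1 r1.lL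
  have l3 := abs_le.1 r3.lL
  have l4 := abs_le.1 r4.lL
  have l3' := abs_le.1 r3.lR
  have op : sg i = -sg j := by
    by_contra hc
    have e1 : sg i = sg j := by
      rcases e.sg1 i with d | d <;> rcases e.sg1 j with d' | d' <;> simp_all
    have e2 : ps φ sg M B l i = ps φ sg M B l j := by unfold ps; rw [e1]
    have := e.nb i hiE _ _ f3 (o23.trans o12) f4.le ((n + 1) * l - 5 * μ - 5 * C)
      ⟨by linarith, by linarith⟩ (by simp only [e2]; linarith [l3.1])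
    simp only [e2] at this
    linarith [l1.2]
  have ne : i ≠ j := by
    rintro rfl
    rcases e.sg1 i with d | d <;> rw [d] at op <;> norm_num at op
  have po := fun z => ps_opp (φ := φ) (M := M) (B := B) (l := l) op z
  have f5 : uR ((n + 1) * l - 5 * μ) < Tm i := by
    by_contra hc
    have := e.nb i hiE _ _ (not_lt.1 hc) (q34.trans o4) (o34.trans f1.le)
      (B * l - (n + 1) * l + 5 * μ - 5 * C) ⟨by linarith, by linarith⟩
      (by simp only [po]; linarith [l3'.2])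
    simp only [po] at this
    linarith [l4.1]
  have i1 : 1 ≤ i := Nat.pos_of_ne_zero fun h0 => by
    rw [h0, e.T0] at f5; linarith [r3.mR.1]
  refine ⟨i, i1, by omega, op, fun n' hn' => ?_⟩
  have hB : (B : ℝ) = n' + n + 1 := by rw [← hn']; push_cast; ring
  exact ⟨_, _, _, _, _, _, _, _, _, _, _, _, _, _, _, r1.opp po (by rw [hB]; ring),
    r2.opp po (by rw [hB]; ring), r3.opp po (by rw [hB]; ring), r.e1,
    (e.Tmono (by omega) hj.le).trans (e.lo hj (by omega)), e.cmono hj (by omega) le_rfl,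
    r.mem _ m3, (r.nest _ m1 _ m3 (by linarith)).2, ⟨by linarith, f4.le⟩,
    ⟨by linarith, by linarith⟩, ⟨f3, f1.le⟩, by linarith, by linarith, f5⟩

theorem mk_pc (ha : 0 < a) (hU : Continuous U) (hy : 0 < y0) {s t : ℝ} (hs : 0 ≤ s) :
    IsPreconnected ((fun u => Fm a U u (y0 * I)) '' Icc s t) :=
  isPreconnected_Icc.image _ ((Fm_continuousOn ha hU).comp
    (f := fun u : ℝ => (u, (y0 : ℂ) * I)) (by fun_prop)
    fun u hu => ⟨hs.trans hu.1, by simpa using hy⟩)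

theorem rt_sign (hU : Continuous U) {ε s t r : ℝ} {X : ℝ → ℝ} (e1 : ε = 1 ∨ ε = -1)
    (h : RT a U s t X) (hr : r ∈ Icc s t) (h0 : 0 < ε * X r) : ∀ u ∈ Icc s t, 0 < ε * X u := by
  intro u hu
  rcases e1 with rfl | rfl
  · linarith [h.pos hU hr (by linarith) u hu]
  · linarith [h.neg hU hr (by linarith) u hu]

theorem rt_lt (hU : Continuous U) {ε s t r : ℝ} {X Y : ℝ → ℝ} (e1 : ε = 1 ∨ ε = -1)
    (h : RT a U s t X) (h' : RT a U s t Y) (hr : r ∈ Icc s t) (h0 : ε * X r < ε * Y r) :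
    ∀ u ∈ Icc s t, ε * X u < ε * Y u := by
  intro u hu
  rcases e1 with rfl | rfl
  · linarith [h.lt hU h' hr (by linarith) u hu]
  · linarith [h'.lt hU h hr (by linarith) u hu]

/-- a time of the episode at which the marker is well inside the block is a time of the crossing. -/
theorem Win.inside (h : Win a U φ L y0 T C sg M l ν μ E B Tm c i0) {i n : ℕ} (hi : i < E)
    (hn : n < B) {u : ℝ} (hu : u ∈ Icc (Tm i) (Tm (i + 1)))
    (h1 : n * l + μ ≤ ps φ sg M B l i (Fm a U u (y0 * I)))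
    (h2 : ps φ sg M B l i (Fm a U u (y0 * I)) ≤ (n + 1) * l - μ) :
    c i n < u ∧ u < c i (n + 1) := by
  obtain ⟨c1, c2, c3, c4, c5, c6⟩ := h.num
  have hl0 : 0 ≤ l := by linarith
  have k2 : ((n + 1 : ℕ) : ℝ) * l ≤ B * l := by gcongr; exact_mod_cast hn
  refine ⟨not_le.1 fun hc => ?_, not_le.1 fun hc => ?_⟩
  · linarith [h.ep.first i hi n hn.le u ⟨hu.1, hc⟩]
  · have := h.ep.nb i hi _ _ (h.ep.lo hi hn) hc hu.2 _ ⟨by positivity, k2⟩ (h.ep.hit i hi _ hn)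
    push_cast at this
    linarith

theorem Win.links (h : Win a U φ L y0 T C sg M l ν μ E B Tm c i0) {i n : ℕ} (hi : i < E)
    (hn : n < B) {ε s0 θ : ℝ}
    (k : Kid a U (ps φ sg M B l i) y0 C l μ (Tm i) (Tm (i + 1)) (n * l) ε s0 θ) :
    ∃ (X Y : ℝ → ℝ) (S S' : Set ℂ), RT a U (c i n) (c i (n + 1)) X ∧ 0 < ε * X (c i n) ∧
      ε * X (c i n) < ε * Y (c i n) ∧ IsPreconnected S ∧ IsPreconnected S' ∧
      (∀ q ∈ S, Alive a U q (c i n) ∧ ps φ sg M B l i q ≤ n * l + 5 * μ + 5 * C + ν) ∧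
      (∀ q ∈ S', Alive a U q (c i n) ∧ n * l + l - 5 * μ - 5 * C - ν ≤ ps φ sg M B l i q) ∧
      Fm a U (c i n) (y0 * I) ∈ S ∧ Fm a U (c i (n + 1)) (y0 * I) ∈ S' ∧
      (∀ δ : ℝ, 0 < δ → ∃ z ∈ S, ‖Zt a U z (c i n) - X (c i n)‖ ≤ δ) ∧
      (∀ δ : ℝ, 0 < δ → ∃ z ∈ S', ‖Zt a U z (c i n) - Y (c i n)‖ ≤ δ) := by
  obtain ⟨c1, c2, c3, c4, c5, c6⟩ := h.num
  obtain ⟨x1, y1, ξ1, L1, R1, x2, y2, ξ2, L2, R2, x3, y3, ξ3, L3, R3, r1, -, r3, e1, t1, -, -, o,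
    m1, -, m3, n1, -, n3⟩ := k
  have e := h.ep
  have ha := h.tl.ha
  have hU := h.tl.hU
  have hl0 : 0 ≤ l := by linarith
  have k0 : (0 : ℝ) ≤ n * l := by positivity
  have k2 : ((n : ℝ) + 1) * l ≤ B * l := by gcongr; exact_mod_cast hn
  have l1 := abs_le.1 r1.lL
  have l3 := abs_le.1 r3.lL
  obtain ⟨a1, a2⟩ := h.inside hi hn m1 (by linarith [l1.1]) (by linarith [l1.2])
  obtain ⟨a3, a4⟩ := h.inside hi hn m3 (by linarith [l3.1]) (by linarith [l3.2])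
  have p0 := e.cnn hi hn.le
  have p1 := e.lo hi hn.le
  have p2 := e.hi hi (show n + 1 ≤ B from hn)
  set s := c i n
  set t := c i (n + 1)
  have p3 : s ≤ s0 := by linarith
  obtain ⟨X, hX, eX⟩ := (r3.bR s).2 (by linarith)
  obtain ⟨Y, hY, eY⟩ := (r1.bR s).2 (by linarith)
  obtain ⟨W, w1, w2, w3, w4⟩ := r3.lk
  obtain ⟨W', w1', w2', w3', w4'⟩ := r1.lk
  refine ⟨X, Y, (fun u => Fm a U u (y0 * I)) '' Icc s L3 ∪ W,
    (fun u => Fm a U u (y0 * I)) '' Icc L1 t ∪ W', hX.mono le_rfl (by linarith),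
    rt_sign hU e1 hX ⟨p3, le_rfl⟩ (by rw [eX, sq_sign e1]; linarith [r3.x1, r3.x2]) s ⟨le_rfl, p3⟩,
    rt_lt hU e1 hX hY ⟨p3, le_rfl⟩ (by rwa [eX, eY, sq_sign e1, sq_sign e1]) s ⟨le_rfl, p3⟩,
    IsPreconnected.union _ ⟨L3, ⟨a3.le, le_rfl⟩, rfl⟩ w3 (mk_pc ha hU h.tl.hy p0) w1,
    IsPreconnected.union _ ⟨L1, ⟨le_rfl, a2.le⟩, rfl⟩ w3' (mk_pc ha hU h.tl.hy r1.mL.1) w1',
    ?_, ?_, Or.inl ⟨s, ⟨le_rfl, a3.le⟩, rfl⟩, Or.inl ⟨t, ⟨a2.le, le_rfl⟩, rfl⟩,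
    fun δ hδ => ?_, fun δ hδ => ?_⟩
  · rintro q (⟨u, hu, rfl⟩ | hq)
    · refine ⟨LoeAM.alive_mono hu.1 (h.mk_alive (p0.trans hu.1)).1, ?_⟩
      exact e.nb' (x := n * l + 5 * μ + 5 * C) hi (p1.trans hu.1) hu.2 m3.2 (by linarith [l3.2])
        (by linarith) (by linarith)
    · exact ⟨LoeAM.alive_mono a3.le (w2 q hq).1, by linarith [(abs_le.1 (w2 q hq).2).2]⟩
  · rintro q (⟨u, hu, rfl⟩ | hq)
    · refine ⟨LoeAM.alive_mono (a1.le.trans hu.1) (h.mk_alive (r1.mL.1.trans hu.1)).1, ?_⟩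
      exact e.nb i hi _ _ m1.1 hu.1 (hu.2.trans p2) (n * l + l - 5 * μ - 5 * C)
        ⟨by linarith, by linarith⟩ (by linarith [l1.1])
    · exact ⟨LoeAM.alive_mono a1.le (w2' q hq).1, by linarith [(abs_le.1 (w2' q hq).2).1]⟩
  · obtain ⟨w, hw, k⟩ := near_foot ha hU p0 p3 hX r3.hy hδ
    exact ⟨_, Or.inr (w4 ⟨w, Or.inr (eX ▸ hw), rfl⟩), k⟩
  · obtain ⟨w, hw, k⟩ := near_foot ha hU p0 p3 hY r1.hy hδ
    exact ⟨_, Or.inr (w4' ⟨w, Or.inr (eY ▸ hw), rfl⟩), k⟩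

theorem Win.semi_le (h : Win a U φ L y0 T C sg M l ν μ E B Tm c i0) (i : ℕ) {s d x r : ℝ}
    {S : Set ℂ} {z z' : ℂ} (hs : 0 ≤ s) (hs0 : Tm i0 ≤ s) (hr : 0 < r) (hS : IsPreconnected S)
    (hd : ∀ q ∈ S, Alive a U q s ∧ ps φ sg M B l i q ≤ d) (hz : z ∈ S) (hz' : z' ∈ S)
    (h1 : ‖Zt a U z s - x‖ ≤ r) (h2 : 2 * r ≤ ‖Zt a U z' s - x‖) :
    ps φ sg M B l i (Fm a U s (x + r * I)) ≤ d + C := by
  have := h.tl.semi s (sg i) (d + sg i * M - B * l / 2) x r S z z' hs hs0 (h.ep.sg1 i) hr hS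
    (fun q hq => ⟨(hd q hq).1, by have := (hd q hq).2; unfold ps at this; linarith⟩) hz hz' h1 h2
  unfold ps; linarith

theorem Win.semi_ge (h : Win a U φ L y0 T C sg M l ν μ E B Tm c i0) (i : ℕ) {s d x r : ℝ}
    {S : Set ℂ} {z z' : ℂ} (hs : 0 ≤ s) (hs0 : Tm i0 ≤ s) (hr : 0 < r) (hS : IsPreconnected S)
    (hd : ∀ q ∈ S, Alive a U q s ∧ d ≤ ps φ sg M B l i q) (hz : z ∈ S) (hz' : z' ∈ S)
    (h1 : ‖Zt a U z s - x‖ ≤ r) (h2 : 2 * r ≤ ‖Zt a U z' s - x‖) :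
    d - C ≤ ps φ sg M B l i (Fm a U s (x + r * I)) := by
  have := h.semi_le (i + 1) (d := B * l - d) hs hs0 hr hS
    (fun q hq => ⟨(hd q hq).1, by rw [ps_opp (h.ep.alt i)]; linarith [(hd q hq).2]⟩) hz hz' h1 h2
  rw [ps_opp (h.ep.alt i)] at this
  linarith

theorem Win.lipx (h : Win a U φ L y0 T C sg M l ν μ E B Tm c i0) (i : ℕ) {s x r r' k : ℝ}
    (hs : 0 ≤ s) (hs0 : Tm i0 ≤ s) (hr : 0 < r) (h1 : r ≤ r') (h2 : r' ≤ k * r) :
    |ps φ sg M B l i (Fm a U s (x + r' * I)) - ps φ sg M B l i (Fm a U s (x + r * I))| ≤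
      C * k + C := by
  rw [ps_sub h.ep.sg1]
  exact h.tl.lip s r k _ _ hs hs0 hr (by simpa using h1) (by simp) (by
    rw [add_sub_add_left_eq_sub, ← sub_mul, ← ofReal_sub, norm_mulI (by linarith)]; linarith)

theorem abs_sign {ε : ℝ} (e1 : ε = 1 ∨ ε = -1) (x : ℝ) : |ε * x| = |x| := by
  rcases e1 with rfl | rfl <;> simp

/-- CHARGE, forced parent. -/
theorem Win.chF (h : Win a U φ L y0 T C sg M l ν μ E B Tm c i0) {i n : ℕ} (h0 : i0 ≤ i)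
    (hi : i < E) (hF : n + 1 < kU a U φ L y0 C sg M l μ B c i) {ε s0 θ : ℝ}
    (k : Kid a U (ps φ sg M B l i) y0 C l μ (Tm i) (Tm (i + 1)) (n * l) ε s0 θ) :
    EvF a U (ps φ sg M B l i) L y0 C (c i n) (c i (n + 1)) (n * l) l μ ε := by
  obtain ⟨c1, c2, c3, c4, c5, c6⟩ := h.num
  have hn : n < B := by have := hF.trans_le (nU_le _ _); omega
  have e1 : ε = 1 ∨ ε = -1 := by
    obtain ⟨_, _, _, _, _, _, _, _, _, _, _, _, _, _, _, -, -, -, e1, -⟩ := k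
    exact e1
  obtain ⟨X, Y, S, S', hX, x0, -, s1, -, s2, -, s3, -, s4, -⟩ := h.links hi hn k
  obtain ⟨y, hy, hy'⟩ := h.frc' h0 hi hF
  refine ⟨⟨X, hX, x0, fun r hr => ?_⟩, y, hy, by linarith⟩
  have p0 := h.ep.cnn hi hn.le
  have d0 := h.dead h0 hi hn.le
  have hy0 := h.tl.hy
  rcases le_total r (3 * y0) with d | d
  · have := h.lipx i (x := 0) p0 d0 hy0 hr.1 d
    simp only [ofReal_zero, zero_add] at this
    linarith [(abs_le.1 this).2, (s2 _ s3).2]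
  have d1 : r ≤ ε * X (c i n) := (le_max_iff.1 hr.2).resolve_left (by linarith)
  obtain ⟨z, hz, hz'⟩ := s4 (r / 3) (by linarith)
  have b1 := h.semi_le i (x := 0) (r := r / 3) p0 d0 (by linarith) s1 s2 s3 hz
    (by rw [(h.mk_alive p0).2, ofReal_zero, sub_zero, norm_mulI hy0.le]; linarith) (by
      have := norm_sub_norm_le (X (c i n) : ℂ) (Zt a U z (c i n))
      rw [norm_sub_rev, norm_real, Real.norm_eq_abs, ← abs_sign e1, abs_of_pos x0] at this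
      rw [ofReal_zero, sub_zero]
      linarith)
  have := h.lipx i (x := 0) (r := r / 3) (r' := r) (k := 3) p0 d0 (by linarith) (by linarith)
    (by linarith)
  simp only [ofReal_zero, zero_add] at this b1
  linarith [(abs_le.1 this).2]

/-- CHARGE, unforced parent. -/
theorem Win.chU (h : Win a U φ L y0 T C sg M l ν μ E B Tm c i0) {i n : ℕ} (h0 : i0 ≤ i)
    (hi : i < E) (hu : kU a U φ L y0 C sg M l μ B c i ≤ n) (hn : n < B) {ε s0 θ : ℝ}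
    (k : Kid a U (ps φ sg M B l i) y0 C l μ (Tm i) (Tm (i + 1)) (n * l) ε s0 θ) :
    EvUC a U (ps φ sg M B l i) y0 (c i n) (c i (n + 1)) (n * l) l μ ε ∧
      0 < ε * (Zt a U (Fm a U (c i (n + 1)) (y0 * I)) (c i n)).re := by
  obtain ⟨c1, c2, c3, c4, c5, c6⟩ := h.num
  have e1 : ε = 1 ∨ ε = -1 := by
    obtain ⟨_, _, _, _, _, _, _, _, _, _, _, _, _, _, _, -, -, -, e1, -⟩ := k
    exact e1
  obtain ⟨X, Y, S, S', hX, x0, x1, s1, s1', s2, s2', s3, s3', s4, s4'⟩ := h.links hi hn k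
  have p0 := h.ep.cnn hi hn.le
  have p1 := h.ep.step i hi n hn
  have d0 := h.dead h0 hi hn.le
  have hy0 := h.tl.hy
  obtain ⟨al, e⟩ := h.mk_alive (p0.trans p1)
  obtain ⟨b1, b2⟩ := h.mk_bd p0 p1
  have b3 := h.ep.hit i hi (n + 1) hn
  push_cast at b3
  have prof : ∀ y ∈ Icc y0 (2 * ‖Zt a U (Fm a U (c i (n + 1)) (y0 * I)) (c i n)‖),
      ps φ sg M B l i (Fm a U (c i n) (y * I)) ≤ n * l + μ :=
    fun y hy => h.unf h0 hi hu hn y ⟨hy.1, by linarith [hy.2]⟩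
  have ew := Fm_Zt h.tl.ha h.tl.hU p0 (LoeAM.alive_mono p1 al)
  set s := c i n
  set z := Fm a U (c i (n + 1)) (y0 * I)
  set w := Zt a U z s
  have w1 : w.im ≤ ‖w‖ := (le_abs_self _).trans (abs_im_le_norm w)
  have w2 : w.im ≤ ‖w - X s‖ := by
    simpa using (le_abs_self _).trans (abs_im_le_norm (w - X s))
  have w3 : ‖w‖ ≤ |w.re| + w.im := by
    have := norm_le_abs_re_add_abs_im w
    rwa [abs_of_pos (show 0 < w.im by linarith)] at this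
  have w4 : ‖w - X s‖ ≤ |w.re - X s| + w.im := by
    have := norm_le_abs_re_add_abs_im (w - X s)
    simpa [abs_of_pos (show 0 < w.im by linarith)] using this
  have w5 : |w.re - X s| ≤ ‖w - X s‖ := by simpa using abs_re_le_norm (w - X s)
  have w6 : |w.re| ≤ ‖w‖ := abs_re_le_norm w
  set lam := min ‖w - X s‖ ‖w‖ with hlam
  have l1 : w.im ≤ lam := le_min w2 w1
  have l2 : lam ≤ ‖w‖ := min_le_right _ _
  have l3 : lam ≤ ‖w - X s‖ := min_le_left _ _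
  have A : ∀ r ∈ Icc lam (2 * ‖w‖),
      ps φ sg M B l i (Fm a U s (w.re + r * I)) ≤ n * l + 5 * μ + 9 * C + ν := by
    intro r hr
    have r0 : 0 < r := by linarith [hr.1]
    rcases le_total ‖w‖ (10 * r) with d | d
    · have := h.tl.lip s (‖w‖ / 10) 20 (w.re + r * I) ((‖w‖ : ℝ) * I) p0 d0 (by linarith)
        (by simp; linarith) (by simp; linarith) (by
          refine (norm_le_abs_re_add_abs_im _).trans ?_
          have b2 : |r - ‖w‖| ≤ ‖w‖ := by rw [abs_le]; constructor <;> linarith [hr.2]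
          simp only [sub_re, add_re, ofReal_re, mul_re, I_re, mul_zero, ofReal_im, I_im, mul_one,
            sub_self, add_zero, sub_im, add_im, mul_im, zero_add, sub_zero]
          linarith)
      have := (ps_abs (M := M) (B := B) (l := l) h.ep.sg1 i this).1
      linarith [prof ‖w‖ ⟨by linarith, by linarith⟩]
    · have l4 : ‖w - X s‖ ≤ r := (min_le_iff.1 hr.1).resolve_right (by linarith)
      obtain ⟨q, hq, hq'⟩ := s4 r r0
      have := h.semi_le i (x := w.re) (r := 2 * r) p0 d0 (by linarith) s1 s2 hq s3 (by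
        have := norm_sub_le_norm_sub_add_norm_sub (Zt a U q s) (X s) (w.re : ℂ)
        rw [← ofReal_sub, norm_real, Real.norm_eq_abs, abs_sub_comm] at this
        linarith) (by
        rw [(h.mk_alive p0).2]
        have := abs_re_le_norm ((y0 : ℂ) * I - w.re)
        simp only [sub_re, mul_re, ofReal_re, I_re, mul_zero, ofReal_im, I_im, mul_one, sub_self,
          zero_sub, abs_neg] at this
        linarith [hr.1])
      linarith [(abs_le.1 (h.lipx i (x := w.re) (r := r) (r' := 2 * r) (k := 2) p0 d0 r0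
        (by linarith) le_rfl)).1]
  have A0 := A lam ⟨le_rfl, by linarith⟩
  have l5 : 30 * w.im ≤ lam := by
    by_contra hc
    have := h.lipx i (x := w.re) (r := w.im) (r' := lam) (k := 30) p0 d0 (by linarith) l1
      (not_le.1 hc).le
    rw [re_add_im, ew] at this
    linarith [(abs_le.1 this).1]
  have l6 : |Y s - w.re| ≤ lam / 10 := by
    by_contra hc
    obtain ⟨q, hq, hq'⟩ := s4' (lam / 30) (by linarith)
    have := h.semi_ge i (x := w.re) (r := lam / 30) p0 d0 (by linarith) s1' s2' s3' hq (by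
      have := norm_le_abs_re_add_abs_im (w - w.re)
      simp only [sub_re, ofReal_re, sub_self, abs_zero, sub_im, ofReal_im, sub_zero, zero_add,
        abs_of_pos (show 0 < w.im by linarith)] at this
      linarith) (by
      have := norm_sub_le_norm_sub_add_norm_sub (Y s : ℂ) (Zt a U q s) (w.re : ℂ)
      rw [← ofReal_sub, norm_real, Real.norm_eq_abs, norm_sub_rev] at this
      linarith [not_le.1 hc])
    linarith [(abs_le.1 (h.lipx i (x := w.re) (r := lam / 30) (r' := lam) (k := 30) p0 d0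
      (by linarith) (by linarith) (by linarith))).1]
  have l7 : ε * X s ≤ ε * w.re - lam / 2 := by
    rw [← abs_sign e1, mul_sub, abs_le] at l6
    rw [← abs_sign e1, mul_sub] at w4
    rcases abs_cases (ε * w.re - ε * X s) with ⟨d, -⟩ | ⟨d, -⟩ <;> linarith [l6.2]
  exact ⟨⟨z, al, e, by linarith, b1, prof, X, lam, hX, x0, l7, l1,
    fun r hr => by linarith [A r hr]⟩, by linarith⟩

end SHM

end Pool.Agent.MP_990230_pr.K8

end
end MrgPart1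

-- ======== part 2: formerly Pool.Agent.MP_990230_pr.k8.SH5
section MrgPart2

/-! # SLE8, clean window, deterministic part 5: at most one child on each side, assembly -/

open Set Complex
open scoped Topology

noncomputable section

namespace Pool.Agent.MP_990230_pr.K8

namespace SHM

variable {a : ℝ} {U : ℝ → ℝ} {φ ψ : ℂ → ℝ} {L : ℝ → ℝ → ℝ} {y0 T C : ℝ}
  {sg : ℕ → ℝ} {M l ν μ : ℝ} {E B : ℕ} {Tm : ℕ → ℝ} {c : ℕ → ℕ → ℝ} {i0 : ℕ}

theorem back_iff (hU : Continuous U) {s t t' : ℝ} {Z : ℝ → ℝ} (h : RT a U t t' Z) (h1 : s ≤ t)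
    (h2 : t ≤ t') : Back a U s t' (Z t') ↔ Back a U s t (Z t) := by
  constructor
  · rintro ⟨X, hX, e⟩
    exact ⟨X, hX.mono le_rfl h2, (hX.mono h1 le_rfl).uniq_at hU h ⟨h2, le_rfl⟩ e ⟨le_rfl, h2⟩⟩
  · rintro ⟨X, hX, e⟩
    obtain ⟨Y, hY, -, e'⟩ := hX.glue h1 h2 h e
    exact ⟨Y, hY, e' ⟨h2, le_rfl⟩⟩

theorem near_pos {f : ℂ → ℝ} (hf : Continuous f) {p : ℂ} (h : 0 < f p) :
    ∃ δ : ℝ, 0 < δ ∧ ∀ w, ‖w - p‖ ≤ δ → 0 < f w := by
  obtain ⟨δ, hδ, h1⟩ := Metric.nhds_basis_closedBall.eventually_iff.1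
    (hf.continuousAt.eventually (lt_mem_nhds h))
  exact ⟨δ, hδ, fun w hw => h1 (by rwa [Metric.mem_closedBall, dist_eq_norm])⟩

theorem rho_real {ε x y ξ r : ℝ} (hy : 0 < y) (h1 : x - ξ < ε * r) (h2 : ε * r < x + ξ) :
    0 < rho ε x y ξ r :=
  lt_min (by rw [ofReal_re, sub_pos, abs_lt]; constructor <;> linarith) (by simpa using hy)

theorem rho_re {ε x y ξ : ℝ} {w : ℂ} (h : 0 ≤ rho ε x y ξ w) :
    x - ξ ≤ ε * w.re ∧ ε * w.re ≤ x + ξ ∧ w.im ≤ y := by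
  have k1 := abs_le.1 (sub_nonneg.1 (h.trans (min_le_left _ _)))
  exact ⟨by linarith [k1.1], by linarith [k1.2], sub_nonneg.1 (h.trans (min_le_right _ _))⟩

open Classical in
/-- the pull-back from time `t` to time `s`. -/
def pb (a : ℝ) (U : ℝ → ℝ) (s t : ℝ) (w : ℂ) : ℂ :=
  if h : ∃ z, Traj a U s t z ∧ z t = w then h.choose s else 0

theorem pb_eq (hU : Continuous U) {s t : ℝ} (hst : s ≤ t) {z : ℝ → ℂ} (h : Traj a U s t z) :
    pb a U s t (z t) = z s := by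
  have ex : ∃ z', Traj a U s t z' ∧ z' t = z t := ⟨z, h, rfl⟩
  rw [pb, dif_pos ex]
  exact ex.choose_spec.1.uniq_left hU h ex.choose_spec.2 ⟨le_rfl, hst⟩

theorem pb_cont (hU : Continuous U) {s t : ℝ} (hst : s ≤ t) {z : ℝ → ℂ} (h : Traj a U s t z) :
    ContinuousAt (pb a U s t) (z t) := by
  refine Metric.continuousAt_iff.2 fun e he => ?_
  obtain ⟨δ, hδ, h1⟩ := h.stable_left hU hst (half_pos he)
  refine ⟨δ, hδ, fun w hw => ?_⟩
  obtain ⟨y, h2, rfl, h3⟩ := h1 w (by rw [← dist_eq_norm]; exact hw.le)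
  rw [pb_eq hU hst h2, pb_eq hU hst h, dist_eq_norm]
  linarith [h3 s ⟨le_rfl, hst⟩]

theorem rect_compact {ε : ℝ} (e1 : ε = 1 ∨ ε = -1) (x y ξ : ℝ) :
    IsCompact {w : ℂ | 0 ≤ w.im ∧ 0 ≤ rho ε x y ξ w} := by
  refine Metric.isCompact_of_isClosed_isBounded ((isClosed_le continuous_const continuous_im).inter
    (isClosed_le continuous_const (rho_cont _ _ _ _)))
    (isBounded_iff_forall_norm_le.2 ⟨|x - ξ| + |x + ξ| + y, fun w hw => ?_⟩)
  obtain ⟨k1, k2, k3⟩ := rho_re hw.2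
  have := norm_le_abs_re_add_abs_im w
  rw [← abs_sign e1, abs_of_nonneg hw.1] at this
  linarith [abs_le_max_abs_abs k1 k2, max_le_add_of_nonneg (abs_nonneg (x - ξ)) (abs_nonneg (x + ξ))]

theorem inj_core (ha : 0 < a) (hU : Continuous U) {ε s0 θ s1 lv x y ξ uL uR lv' x' y' ξ' uL' uR' : ℝ}
    (e1 : ε = 1 ∨ ε = -1) (r : Rc a U ψ y0 C s0 ε lv x y ξ uL uR)
    (r' : Rc a U ψ y0 C s1 ε lv' x' y' ξ' uL' uR') (hC : 0 ≤ C) (hl : lv + 10 * C < lv')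
    (h1 : s0 ≤ θ) (h2 : θ ≤ s1) (o1 : uR' < uL) (o2 : uL < uL') (o3 : uL' < s0) {z : ℂ}
    (hz : Alive a U z θ) (z0 : (Zt a U z θ).re = 0) (z1 : 0 ≤ rho ε x y ξ (Zt a U z s0)) :
    False := by
  have p0 : 0 ≤ s0 := r.mL.1.trans r.mL.2.le
  have p1 : s0 ≤ s1 := h1.trans h2
  have p2 : 0 ≤ s1 := p0.trans p1
  have m0 : s0 ∈ Icc s0 s1 := ⟨le_rfl, p1⟩
  have m1 : s1 ∈ Icc s0 s1 := ⟨p1, le_rfl⟩
  obtain ⟨A, hA, eA⟩ := (r'.bL s0).2 o3
  obtain ⟨D, hD, eD⟩ := (r'.bR s0).2 (by linarith)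
  have a0 := rt_sign hU e1 hA m1 (by rw [eA, sq_sign e1]; linarith [r'.x2])
  have d0 := rt_sign hU e1 hD m1 (by rw [eD, sq_sign e1]; linarith [r'.x1, r'.x2])
  have k1 : ε * A s0 < x - ξ := by
    by_contra hc
    have := back_far hU e1 o3.le ((r.bL uL').2 o2) (sub_pos.2 r.x2) (not_lt.1 hc)
    rw [sq_sign e1, ← back_iff hU hA o3.le p1, eA, r'.bL] at this
    exact lt_irrefl _ this
  have k2 : x - ξ < ε * D s0 := by
    by_contra hc
    have := (r'.bR uL).2 o1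
    rw [← eD, back_iff hU hD r.mL.2.le p1, ← sq_sign e1 (D s0)] at this
    exact lt_irrefl _ ((r.bL uL).1 (back_far hU e1 r.mL.2.le this (d0 _ m0) (not_lt.1 hc)))
  have al : ∀ w : ℂ, 0 < w.im → Alive a U (Fm a U s1 w) s0 := fun w hw =>
    LoeAM.alive_mono p1 (Fm_alive ha hU p2 hw)
  have g1 : ∀ w ∈ sides ε x' y' ξ', rho ε x y ξ (Zt a U (Fm a U s1 w) s0) < 0 := by
    intro w hw
    by_contra hc
    obtain ⟨δ, hδ, n1⟩ := near_pos (rho_cont ε x y ξ).neg (p := A s0) (neg_pos.2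
      ((min_le_left _ _).trans_lt (by rw [ofReal_re, sub_neg, lt_abs]; right; linarith)))
    obtain ⟨w1, hw1, n2⟩ := near_foot ha hU p0 p1 hA r'.hy hδ
    obtain ⟨q, hq, e0⟩ := (sides_pc (ε := ε) (x := x') r'.hy r'.x1.le).intermediate_value
      (f := fun w => rho ε x y ξ (Zt a U (Fm a U s1 w) s0)) (Or.inl (Or.inl (eA ▸ hw1))) hw
      (fun q hq => ((rho_cont ε x y ξ).continuousAt.comp
        ((Zt_continuousAt ha hU p0 (al q (sides_im r'.hy hq))).comp (f := Fm a U s1)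
          (Fm_continuousAt ha hU p2 (sides_im r'.hy hq)))).continuousWithinAt)
      (show (0 : ℝ) ∈ _ from ⟨(neg_pos.1 (n1 _ n2)).le, not_lt.1 hc⟩)
    have q0 := al q (sides_im r'.hy hq)
    have q1 := r.lev _ (mem_sides e1 (Zt_im_pos hU p0 q0) e0)
    rw [Fm_Zt ha hU p0 q0] at q1
    linarith [(abs_le.1 q1).2, (abs_le.1 (r'.lev q hq)).1]
  rcases lt_trichotomy (ε * D s0) (x + ξ) with k3 | k3 | k3
  · obtain ⟨δ, hδ, n1⟩ := near_pos (rho_cont ε x y ξ) (rho_real r.hy k2 k3)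
    obtain ⟨w1, hw1, n2⟩ := near_foot ha hU p0 p1 hD r'.hy hδ
    linarith [n1 _ n2, g1 w1 (Or.inr (eD ▸ hw1))]
  · have k4 : ∀ s, s ≤ s0 → (uR' < s ↔ uR < s) := fun s hs => by
      rw [← r'.bR, ← r.bR, ← eD, back_iff hU hD hs p1, ← k3, sq_sign e1]
    have k5 : uR' = uR := le_antisymm
      (not_lt.1 fun hc => lt_irrefl _ ((k4 uR' (by linarith)).2 hc))
      (not_lt.1 fun hc => lt_irrefl _ ((k4 uR r.mR.2.le).1 hc))
    have := r'.lR
    rw [k5] at this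
    linarith [(abs_le.1 this).1, (abs_le.1 r.lR).2]
  have hz0 : Alive a U z s0 := LoeAM.alive_mono h1 hz
  have ez := Fm_Zt ha hU p0 hz0
  have v0 := Zt_im_pos hU p0 hz0
  set v := Zt a U z s0
  obtain ⟨v1, v2, v3⟩ := rho_re z1
  have tr : ∀ w ∈ {w : ℂ | 0 ≤ w.im ∧ 0 ≤ rho ε x' y' ξ' w},
      ∃ g, Traj a U s0 s1 g ∧ g s1 = w := by
    intro w hw
    rcases hw.1.eq_or_lt with d | d
    · obtain ⟨X, hX, e⟩ := back_far hU e1 p1 ((r'.bL s0).2 o3) (sub_pos.2 r'.x2) (rho_re hw.2).1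
      exact ⟨_, hX, by rw [e, sq_sign e1]; exact Complex.ext (by simp) (by simp [← d])⟩
    · exact ⟨_, traj_Zt hU p0 (Fm_alive ha hU p2 d), Zt_Fm ha hU p2 d⟩
  have cl : IsClosed (pb a U s0 s1 '' {w : ℂ | 0 ≤ w.im ∧ 0 ≤ rho ε x' y' ξ' w}) :=
    ((rect_compact e1 x' y' ξ').image_of_continuousOn fun w hw => by
      obtain ⟨g, hg, rfl⟩ := tr w hw
      exact (pb_cont hU p1 hg).continuousWithinAt).isClosed
  let O : Set ℂ := {w | 0 < w.im ∧ Alive a U (Fm a U s0 w) s1 ∧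
    0 < rho ε x' y' ξ' (Zt a U (Fm a U s0 w) s1)}
  have op : IsOpen O := isOpen_iff_mem_nhds.2 fun w hw => by
    have c1 := Fm_continuousAt ha hU p0 hw.1
    exact (continuous_im.continuousAt.eventually (lt_mem_nhds hw.1)).and
      ((c1.eventually ((isOpen_alive ha hU p2).mem_nhds hw.2.1)).and
        (((rho_cont ε x' y' ξ').continuousAt.comp ((Zt_continuousAt ha hU p2 hw.2.1).comp
          (f := Fm a U s0) c1)).eventually (lt_mem_nhds hw.2.2)))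
  have sub : vs v.re v.im ⊆ O := by
    refine (vs_pc _ _).subset_left_of_subset_union op cl.isOpen_compl
      (Set.disjoint_left.2 fun w hw hc => hc ⟨_, ⟨(Zt_im_pos hU p2 hw.2.1).le, hw.2.2.le⟩, ?_⟩)
      (fun w hw => ?_) ?_
    · rw [pb_eq hU p1 (traj_Zt hU p0 hw.2.1), Zt_Fm ha hU p0 hw.1]
    · refine or_iff_not_imp_right.2 fun hc => ?_
      obtain ⟨w', hw', e⟩ := not_not.1 hc
      obtain ⟨g, hg, rfl⟩ := tr w' hw'
      rw [pb_eq hU p1 hg] at e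
      have w0 := vs_im hw
      obtain ⟨b1, b2⟩ := alive_of_traj ha hU p0 p1 (Fm_alive ha hU p0 w0) hg
        (by rw [Zt_Fm ha hU p0 w0, e])
      refine ⟨w0, b1, ?_⟩
      rw [b2 m1]
      refine hw'.2.lt_of_ne fun e0 => ?_
      have := g1 _ (mem_sides e1 (hg.im_pos hU m0 (e ▸ w0) _ m1) e0.symm)
      rw [← b2 m1, Fm_Zt ha hU p2 b1, Zt_Fm ha hU p0 w0] at this
      obtain ⟨η, hη, rfl⟩ := hw
      refine this.not_ge (le_min ?_ ?_)
      · simpa using z1.trans (min_le_left _ _)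
      · simpa using hη.2.trans v3
    · obtain ⟨Z, hZ, eZ⟩ : ∃ Z, RT a U s0 s1 Z ∧ Z s0 = v.re := by
        have := a0 _ m0
        rcases e1 with rfl | rfl
        · exact hA.above hU p1 (by linarith) (by linarith)
        · exact hA.below hU p1 (by linarith) (by linarith)
      have b1 := rt_lt hU e1 hA hZ m0 (by rw [eZ]; linarith) _ m1
      have b2 := rt_lt hU e1 hZ hD m0 (by rw [eZ]; linarith) _ m1
      rw [eA, sq_sign e1] at b1
      rw [eD, sq_sign e1] at b2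
      obtain ⟨δ, hδ, n1⟩ := near_pos (rho_cont ε x' y' ξ') (rho_real r'.hy b1 b2)
      obtain ⟨η, hη, n2⟩ := hZ.fwd_cont ha hU p0 p1 hδ
      have hm : 0 < min η v.im := lt_min hη v0
      have w0 : 0 < ((v.re : ℂ) + (min η v.im : ℝ) * I).im := by simpa using ⟨hη, v0⟩
      obtain ⟨b3, b4⟩ := n2 _ (Fm_alive ha hU p0 w0) (by
        rw [Zt_Fm ha hU p0 w0, eZ, add_sub_cancel_left, norm_mulI hm.le]
        exact min_le_left _ _)
      exact ⟨_, ⟨_, ⟨hm, min_le_right _ _⟩, rfl⟩, w0, b3, n1 _ (b4 _ m1)⟩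
  obtain ⟨-, b1, b2⟩ := sub ⟨v.im, ⟨v0, le_rfl⟩, re_add_im v⟩
  rw [ez] at b1 b2
  have b3 := abs_lt.1 (sub_pos.1 (b2.trans_le (min_le_left _ _)))
  have t0 : 0 ≤ θ := p0.trans h1
  have tz := traj_Zt hU t0 b1
  have im : ∀ s ∈ Icc θ s1, (Zt a U z s).im ≠ 0 := fun s hs =>
    (Zt_im_pos hU (t0.trans hs.1) (LoeAM.alive_mono hs.2 b1)).ne'
  have a1 : ∀ s ∈ Icc θ s1, 0 < ε * A s := fun s hs => a0 s ⟨h1.trans hs.1, hs.2⟩
  have a2 := a1 θ ⟨le_rfl, h2⟩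
  rcases e1 with rfl | rfl
  · have := barrier_le ha tz (hA.mono h1 le_rfl) (fun s hs => by linarith [a1 s hs]) im
      (by linarith) s1 ⟨h2, le_rfl⟩
    linarith [b3.1]
  · have := (barrier_ge ha tz (hA.mono h1 le_rfl) (fun s hs => by linarith [a1 s hs]) im
      (by linarith)).1 s1 ⟨h2, le_rfl⟩
    linarith [b3.1]

/-- INJ. -/
theorem Win.inj (h : Win a U φ L y0 T C sg M l ν μ E B Tm c i0) {i n : ℕ} (hi : i < E)
    (hn : n < B) {ε s0 θ s1 θ' : ℝ}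
    (k : Kid a U (ps φ sg M B l i) y0 C l μ (Tm i) (Tm (i + 1)) (n * l) ε s0 θ)
    (k' : Kid a U (ps φ sg M B l i) y0 C l μ (Tm i) (Tm (i + 1)) (n * l) ε s1 θ') (o : θ ≤ s1) :
    False := by
  obtain ⟨c1, c2, c3, c4, c5, c6⟩ := h.num
  obtain ⟨_, _, _, _, _, _, _, _, _, _, x, y, ξ, uL, uR, -, -, r, e1, t1, t2, z1, -, -, -, m, -⟩ := k
  obtain ⟨_, _, _, _, _, x', y', ξ', uL', uR', _, _, _, _, _, -, r', -, -, -, -, -, -, -, m', -, -,
    n2, -⟩ := k'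
  have hl0 : 0 ≤ l := by linarith
  have k0 : (0 : ℝ) ≤ n * l := by positivity
  have k2 : ((n : ℝ) + 1) * l ≤ B * l := by gcongr; exact_mod_cast hn
  have l1 := abs_le.1 r.lL
  have l2 := abs_le.1 r'.lL
  obtain ⟨-, a2⟩ := h.inside hi hn m' (by linarith [l2.1]) (by linarith [l2.2])
  obtain ⟨al, e⟩ := h.mk_alive ((r.mL.1.trans r.mL.2.le).trans t2)
  refine inj_core h.tl.ha h.tl.hU e1 r r' (by linarith) (by linarith) t2 o (n2.trans_le m.1)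
    (not_le.1 fun hc => ?_) (by linarith [h.ep.hi hi (show n + 1 ≤ B from hn)]) al (by simp [e]) z1
  have := h.ep.nb i hi _ _ m'.1 hc m.2 (n * l + l / 2 - 5 * C) ⟨by linarith, by linarith⟩
    (by linarith [l2.1])
  linarith [l1.2]

theorem shInt : ShInt := by
  classical
  intro a U φ L y0 T C sg M l ν μ E B Tm c r0 h hs hs0 h1 h2 hR
  obtain ⟨c1, c2, c3, c4, c5, c6⟩ := h.num
  have hl0 : 0 ≤ l := by linarith
  set k := kU a U φ L y0 C sg M l μ B c with hk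
  obtain ⟨B1, b1, b2⟩ := bad1 sg B E k
  have ex := fun j (hj : 1 ≤ j ∧ j < E ∧ k j < B) => h.route hR hj.1 hj.2.1 rfl hj.2.2
  choose! ε x y ξ uL uR rt using ex
  let F : ℕ × ℕ → Finset ℕ := fun q => (Finset.range B).filter fun κ => k q.1 ≤ pos sg B κ q.1 ∧
    uL q.1 ((pos sg B κ q.1 + 1) * l - 5 * μ) < Tm q.2 ∧
    Tm q.2 ≤ uL q.1 (pos sg B κ q.1 * l + 5 * μ)
  have F1 : ∀ q ∈ Finset.Ico 1 E ×ˢ Finset.Icc 1 E, (F q).card ≤ 1 := by
    rintro ⟨j, i⟩ hq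
    simp only [Finset.mem_product, Finset.mem_Ico, Finset.mem_Icc] at hq
    have key : ∀ κ ∈ F (j, i), ∀ κ' ∈ F (j, i), ¬ pos sg B κ j < pos sg B κ' j := by
      intro κ hκ κ' hκ' hc
      simp only [F, Finset.mem_filter, Finset.mem_range] at hκ hκ'
      have p' := pos_lt (sg := sg) hκ'.1 j
      have q1 : (k j : ℝ) * l ≤ pos sg B κ j * l := by gcongr; exact hκ.2.1
      have q2 : ((pos sg B κ j : ℝ) + 1) * l ≤ pos sg B κ' j * l := by gcongr; exact_mod_cast hc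
      have q3 : ((pos sg B κ' j : ℝ) + 1) * l ≤ B * l := by gcongr; exact_mod_cast p'
      have := (rt j ⟨hq.1.1, hq.1.2, by omega⟩).oL h.tl.hU
        (l := (pos sg B κ j + 1) * l - 5 * μ) (l' := pos sg B κ' j * l + 5 * μ)
        ⟨by linarith, by linarith⟩ ⟨by linarith, by linarith⟩ (by linarith)
      linarith [hκ.2.2.1, hκ'.2.2.2]
    refine Finset.card_le_one.2 fun κ hκ κ' hκ' => pos_inj (sg := sg) (B := B) (i := j)
      (Finset.mem_range.1 (Finset.mem_filter.1 hκ).1)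
      (Finset.mem_range.1 (Finset.mem_filter.1 hκ').1)
      (le_antisymm (not_lt.1 (key _ hκ' _ hκ)) (not_lt.1 (key _ hκ _ hκ')))
  refine ⟨B1 ∪ (Finset.Ico 1 E ×ˢ Finset.Icc 1 E).biUnion F, ?_, fun κ hκ hb => ?_⟩
  · refine (Finset.card_union_le _ _).trans (add_le_add b1
      ((Finset.card_biUnion_le_card_mul _ _ 1 F1).trans ?_))
    rw [mul_one, Finset.card_product, Nat.card_Ico, Nat.card_Icc, sq]
    exact Nat.mul_le_mul (by omega) (by omega)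
  rw [Finset.mem_union, not_or] at hb
  have b3 := b2 κ hκ hb.1
  let u := (Finset.Ico 1 E).filter fun j => k j ≤ pos sg B κ j
  have mu : ∀ j, j ∈ u ↔ (1 ≤ j ∧ j < E) ∧ k j ≤ pos sg B κ j := fun j => by
    simp only [u, Finset.mem_filter, Finset.mem_Ico]
  have ex2 : ∀ j ∈ u, ∃ i, 1 ≤ i ∧ i < j ∧ Kid a U (ps φ sg M B l i) y0 C l μ (Tm i) (Tm (i + 1))
      (pos sg B κ i * l) (ε j) (c j (k j)) (c j B) := by
    intro j hj
    obtain ⟨⟨j1, j2⟩, j3⟩ := (mu j).1 hj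
    have p := pos_lt (sg := sg) hκ j
    obtain ⟨i, i1, i2, i3, i4⟩ := h.kid j2 j3 p (rt j ⟨j1, j2, by omega⟩) fun i i1 i2 i3 =>
      not_le.1 fun hc => hb.2 (Finset.mem_biUnion.2 ⟨(j, i), by simp [j1, j2, i1, i2],
        Finset.mem_filter.2 ⟨Finset.mem_range.2 hκ, j3, i3, hc⟩⟩)
    exact ⟨i, i1, i2, i4 _ (pos_opp h.ep.sg1 hκ i3)⟩
  choose! par p1 p2 p3 using ex2
  have e1 : ∀ j ∈ u, ε j = 1 ∨ ε j = -1 := fun j hj => by
    obtain ⟨⟨j1, j2⟩, j3⟩ := (mu j).1 hj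
    exact (rt j ⟨j1, j2, j3.trans_lt (pos_lt hκ j)⟩).e1
  have lt : ∀ j ∈ u, ∀ j' ∈ u, ε j = ε j' → par j = par j' → ¬ j < j' := by
    intro j hj j' hj' e e' hc
    obtain ⟨⟨j1, j2⟩, j3⟩ := (mu j).1 hj
    obtain ⟨⟨j1', j2'⟩, j3'⟩ := (mu j').1 hj'
    have k1 := p3 j hj
    rw [e, e'] at k1
    exact h.inj ((p2 j' hj').trans j2') (pos_lt hκ _) k1 (p3 j' hj')
      ((h.ep.fin j j2).trans ((h.ep.Tmono hc j2'.le).trans
        (h.ep.lo j2' (j3'.trans (pos_lt hκ j').le))))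
  have cd : ∀ e : ℝ, ((u.filter fun j => ε j = e).image par).card =
      (u.filter fun j => ε j = e).card := fun e => Finset.card_image_of_injOn fun j hj j' hj' e' => by
    rw [Finset.mem_coe, Finset.mem_filter] at hj hj'
    exact le_antisymm (not_lt.1 (lt j' hj'.1 j hj.1 (hj'.2.trans hj.2.symm) e'.symm))
      (not_lt.1 (lt j hj.1 j' hj'.1 (hj.2.trans hj'.2.symm) e'))
  have kd : ∀ e : ℝ, ∀ i ∈ (u.filter fun j => ε j = e).image par, (1 ≤ i ∧ i < E) ∧ ∃ s0 θ,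
      Kid a U (ps φ sg M B l i) y0 C l μ (Tm i) (Tm (i + 1)) (pos sg B κ i * l) e s0 θ := by
    intro e i hi
    obtain ⟨j, hj, rfl⟩ := Finset.mem_image.1 hi
    obtain ⟨j1, rfl⟩ := Finset.mem_filter.1 hj
    exact ⟨⟨p1 j j1, (p2 j j1).trans ((mu j).1 j1).1.2⟩, _, _, p3 j j1⟩
  refine ⟨u, (u.filter fun j => ε j = 1).image par, (u.filter fun j => ε j = -1).image par,
    Finset.filter_subset _ _, fun i hi => Finset.mem_Ico.2 (kd _ i hi).1,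
    fun i hi => Finset.mem_Ico.2 (kd _ i hi).1,
    h.count_int hκ hs hs0 h1 h2 fun i _ => b3 i, ?_, fun i hi => ⟨fun hu => ?_, fun hu => ?_⟩⟩
  · rw [cd, cd]
    refine (Finset.card_le_card fun j hj => ?_).trans (Finset.card_union_le _ _)
    exact Finset.mem_union.2 ((e1 j hj).imp (fun e => Finset.mem_filter.2 ⟨hj, e⟩)
      fun e => Finset.mem_filter.2 ⟨hj, e⟩)
  · obtain ⟨⟨j1, j2⟩, j3⟩ := (mu i).1 hu
    have ch := fun e hp => (kd e i hp).2.elim fun _ k => k.elim fun _ k =>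
      h.chU j1 j2 j3 (pos_lt hκ i) k
    exact ⟨h.evU j1 j2 j3 (pos_lt hκ i), fun hc => by linarith [(ch _ hc.1).2, (ch _ hc.2).2],
      fun hp => (ch _ hp).1, fun hp => (ch _ hp).1⟩
  · rw [Finset.mem_Ico] at hi
    have j3 : pos sg B κ i + 1 < k i := by
      have := b3 i hi.2
      have : ¬ k i ≤ pos sg B κ i := fun hc => hu ((mu i).2 ⟨hi, hc⟩)
      omega
    have ch := fun e hp => (kd e i hp).2.elim fun _ k => k.elim fun _ k => h.chF hi.1 hi.2 j3 k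
    exact ⟨ch _, ch _⟩

end SHM

end Pool.Agent.MP_990230_pr.K8

end
end MrgPart2

-- marker of a merged file
example : 731051 + 869156 = 731051 + 869156 := rfl
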