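import Mathlib

/-! # SLE8: the winding lemma. A loop crossing a crosscut once separates its two halves. -/

open Set Complex Filter
open scoped Topology

noncomputable section

namespace Pool.Agent.MP_990230_pr.K8

namespace WindM

theorem lift {A : Type*} [TopologicalSpace A] (G : unitInterval × A → ℂ) (hG : Continuous G)
    (h0 : ∀ z, G z ≠ 0) (h1 : ∀ p, G (0, p) = 1) :
    ∃ L : unitInterval × A → ℂ, Continuous L ∧ (∀ z, exp (L z) = G z) ∧ ∀ p, L (0, p) = 0 := by
  let H : C(unitInterval × A, {z : ℂ // z ≠ 0}) := ⟨fun z => ⟨G z, h0 z⟩, hG.subtype_mk _⟩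
  have e : ∀ p, H (0, p) = (fun z : ℂ => (⟨_, z.exp_ne_zero⟩ : {z : ℂ // z ≠ 0}))
      ((ContinuousMap.const A (0 : ℂ)) p) := fun p => Subtype.ext (by simp [H, h1])
  refine ⟨isCoveringMap_exp.liftHomotopy H _ e, ContinuousMap.continuous _, fun z => ?_,
    fun p => isCoveringMap_exp.liftHomotopy_zero H _ e p⟩
  exact congrArg Subtype.val (congrFun (isCoveringMap_exp.liftHomotopy_lifts H _ e) z)

theorem const_of_exp {A : Type*} [TopologicalSpace A] {S : Set A} (hS : IsPreconnected S)
    {φ : A → ℂ} (hφ : ContinuousOn φ S) {c : ℂ} (h : ∀ p ∈ S, exp (φ p) = c) {p q : A}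
    (hp : p ∈ S) (hq : q ∈ S) : φ p = φ q :=
  isCoveringMap_exp.constOn_of_comp hS hφ
    (fun x hx y hy => Subtype.ext (by simp only [h x hx, h y hy])) hp hq

/-- the total variation of `log (κ s - p)` along a path, continuous in `p`. -/
theorem exists_var (κ : unitInterval → ℂ) (hκ : Continuous κ) :
    ∃ Δ : ℂ → ℂ, ContinuousOn Δ (range κ)ᶜ ∧
      (∀ p ∉ range κ, exp (Δ p) = (κ 1 - p) / (κ 0 - p)) ∧
      ∀ p ∉ range κ, ∀ l : unitInterval → ℂ, Continuous l → (∀ s, exp (l s) = (κ s - p) / (κ 0 - p)) →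
        l 0 = 0 → l 1 = Δ p := by
  classical
  have ne : ∀ (s : unitInterval) (p : ↥(range κ)ᶜ), κ s - p.1 ≠ 0 := fun s p h =>
    p.2 ⟨s, sub_eq_zero.1 h⟩
  obtain ⟨L, cL, eL, zL⟩ := lift (A := ↥(range κ)ᶜ) (fun z => (κ z.1 - z.2.1) / (κ 0 - z.2.1))
    (Continuous.div (by fun_prop) (by fun_prop) fun z => ne 0 z.2)
    (fun z => div_ne_zero (ne _ _) (ne _ _)) (fun p => div_self (ne 0 p))
  refine ⟨fun p => if h : p ∈ (range κ)ᶜ then L (1, ⟨p, h⟩) else 0, ?_, fun p hp => ?_,
    fun p hp l cl el zl => ?_⟩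
  · rw [continuousOn_iff_continuous_domRestrict]
    have : (range κ)ᶜ.domRestrict (fun p => if h : p ∈ (range κ)ᶜ then L (1, ⟨p, h⟩) else 0) =
        fun p => L (1, p) := funext fun p => dif_pos p.2
    rw [this]; fun_prop
  · simp only [dif_pos (show p ∈ (range κ)ᶜ from hp), eL]
  · simp only [dif_pos (show p ∈ (range κ)ᶜ from hp)]
    have := const_of_exp (A := unitInterval) isPreconnected_univ
      (φ := fun s => l s - L (s, ⟨p, hp⟩)) (Continuous.continuousOn (by fun_prop)) (c := 1)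
      (fun s _ => by
        rw [exp_sub, el, eL, div_self (div_ne_zero (ne s ⟨p, hp⟩) (ne 0 ⟨p, hp⟩))])
      (mem_univ 1) (mem_univ 0)
    rw [zl, zL, sub_zero] at this
    exact sub_eq_zero.1 this

open Classical in
/-- the divided difference. -/
def dd (F : ℂ → ℂ) (z : ℂ × ℂ) : ℂ :=
  if z.1 = z.2 then deriv F z.2 else (F z.1 - F z.2) / (z.1 - z.2)

theorem dd_mul (F : ℂ → ℂ) (u q : ℂ) : dd F (u, q) * (u - q) = F u - F q := by
  unfold dd
  split_ifs with h
  · simp only at h; simp [h]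
  · exact div_mul_cancel₀ _ (sub_ne_zero.2 h)

theorem dd_cont {F : ℂ → ℂ} {O : Set ℂ} (hO : IsOpen O) (hF : DifferentiableOn ℂ F O) {u q : ℂ}
    (hu : u ∈ O) (hq : q ∈ O) : ContinuousAt (dd F) (u, q) := by
  have an : ∀ w ∈ O, AnalyticAt ℂ F w := fun w hw => hF.analyticAt (hO.mem_nhds hw)
  by_cases h : u = q
  · subst h
    have e : dd F (u, u) = deriv F u := if_pos rfl
    rw [Metric.continuousAt_iff']
    intro ε hε
    have h1 := ((an u hu).hasStrictDerivAt.hasStrictFDerivAt.isLittleO).def (half_pos hε)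
    have h2 : ∀ᶠ z : ℂ × ℂ in 𝓝 (u, u), dist (deriv F z.2) (deriv F u) < ε :=
      (continuous_snd.tendsto (u, u)).eventually
        (Metric.continuousAt_iff'.1 (an u hu).deriv.continuousAt ε hε)
    filter_upwards [h1, h2] with z z1 z2
    rw [e]
    by_cases hz : z.1 = z.2
    · rw [dd, if_pos hz]; exact z2
    · have hn : 0 < ‖z.1 - z.2‖ := norm_pos_iff.2 (sub_ne_zero.2 hz)
      rw [dd, if_neg hz, dist_eq_norm]
      have : (F z.1 - F z.2) / (z.1 - z.2) - deriv F u =
          (F z.1 - F z.2 - (z.1 - z.2) * deriv F u) / (z.1 - z.2) := by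
        field_simp [sub_ne_zero.2 hz]
      rw [this, norm_div, div_lt_iff₀ hn]
      simp only [ContinuousLinearMap.toSpanSingleton_apply, smul_eq_mul] at z1
      nlinarith
  · have hne : ∀ᶠ z : ℂ × ℂ in 𝓝 (u, q), z.1 ≠ z.2 :=
      (isOpen_ne_fun continuous_fst continuous_snd).mem_nhds h
    have c : ContinuousAt (fun z : ℂ × ℂ => (F z.1 - F z.2) / (z.1 - z.2)) (u, q) :=
      ContinuousAt.div (((an u hu).continuousAt.comp_of_eq continuousAt_fst rfl).sub
        ((an q hq).continuousAt.comp_of_eq continuousAt_snd rfl)) (by fun_prop) (sub_ne_zero.2 h)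
    exact c.congr (hne.mono fun z hz => (if_neg hz).symm)

theorem arc_preconn (x r : ℝ) (hr : 0 < r) :
    IsPreconnected {q : ℂ | 0 < q.im ∧ ‖q - x‖ = r} := by
  have : {q : ℂ | 0 < q.im ∧ ‖q - x‖ = r} =
      (fun θ : ℝ => (x : ℂ) + r * exp (θ * I)) '' Ioo 0 Real.pi := by
    ext q
    constructor
    · rintro ⟨h1, h2⟩
      have h3 : 0 < (q - x).im := by simpa using h1
      refine ⟨arg (q - x), ⟨?_, ?_⟩, ?_⟩
      · exact lt_of_le_of_ne (arg_nonneg_iff.2 h3.le) fun h =>
          h3.ne' (arg_eq_zero_iff.1 h.symm).2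
      · exact arg_lt_pi_iff.2 (Or.inr h3.ne')
      · have := norm_mul_exp_arg_mul_I (q - x)
        rw [h2] at this
        simp only [this]; ring
    · rintro ⟨θ, hθ, rfl⟩
      refine ⟨?_, ?_⟩
      · have := Real.sin_pos_of_pos_of_lt_pi hθ.1 hθ.2
        simp only [add_im, ofReal_im, mul_im, ofReal_re, exp_ofReal_mul_I_im, zero_mul]
        nlinarith
      · simp [abs_of_pos hr]
  rw [this]
  exact isPreconnected_Ioo.image _ (Continuous.continuousOn (by fun_prop))

end WindM

open WindM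

/-- WIND. `F` is univalent on the half-plane. The image of the vertical segment
`x + i [y1, y2]`, closed up by a path that misses the image of the semicircle of radius
`r ∈ (y1, y2)` about `x`, separates the image of the left half of the semicircle from the image
of the right half. -/
theorem wind {F : ℂ → ℂ} (hF : DifferentiableOn ℂ F {z | 0 < z.im})
    (hi : InjOn F {z | 0 < z.im}) (hd : ∀ w : ℂ, 0 < w.im → deriv F w ≠ 0)
    {x y1 y2 r : ℝ} (h1 : 0 < y1) (h2 : y1 < r) (h3 : r < y2) {S : Set ℂ}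
    (hS : IsPreconnected S)
    (hκ : JoinedIn (F '' {q | 0 < q.im ∧ ‖q - x‖ = r} ∪ S)ᶜ (F (x + y2 * I)) (F (x + y1 * I)))
    (hseg : ∀ y ∈ Icc y1 y2, F (x + y * I) ∉ S) {qL qR : ℂ}
    (hL : 0 < qL.im ∧ ‖qL - x‖ = r) (hR : 0 < qR.im ∧ ‖qR - x‖ = r) (hL' : qL.re < x)
    (hR' : x < qR.re) (hLS : F qL ∈ S) (hRS : F qR ∈ S) : False := by
  set C : Set ℂ := {q | 0 < q.im ∧ ‖q - x‖ = r} with hC
  have oH : IsOpen {z : ℂ | 0 < z.im} := isOpen_lt continuous_const continuous_im
  obtain ⟨κ, hκ⟩ := hκ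
  let yy : unitInterval → ℝ := fun s => y1 + s * (y2 - y1)
  have yI : ∀ s, yy s ∈ Icc y1 y2 := fun s =>
    ⟨by simp only [yy]; nlinarith [s.2.1], by simp only [yy]; nlinarith [s.2.2]⟩
  let u : unitInterval → ℂ := fun s => x + yy s * I
  have u0 : u 0 = x + y1 * I := by simp [u, yy]
  have u1 : u 1 = x + y2 * I := by simp [u, yy]
  have uH : ∀ s, 0 < (u s).im := fun s => by
    simp only [u, add_im, ofReal_im, mul_im, ofReal_re, I_im, I_re]; linarith [(yI s).1]
  have uc : Continuous u := by simp only [u, yy]; fun_prop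
  have ρc : Continuous (fun s => F (u s)) :=
    hF.continuousOn.comp_continuous uc uH
  obtain ⟨Dκ, cκ, eκ, -⟩ := exists_var κ κ.continuous
  obtain ⟨Dρ, cρ, eρ, uρ⟩ := exists_var (fun s => F (u s)) ρc
  have Sκ : S ⊆ (range κ)ᶜ := by
    rintro p hp ⟨s, rfl⟩; exact hκ s (Or.inr hp)
  have Sρ : S ⊆ (range fun s => F (u s))ᶜ := by
    rintro p hp ⟨s, rfl⟩; exact hseg _ (yI s) hp
  have Cκ : ∀ q ∈ C, F q ∈ (range κ)ᶜ := by
    rintro q hq ⟨s, hs⟩; exact hκ s (Or.inl ⟨q, hq, hs.symm⟩)
  -- the index is the same at both points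
  have idx : Dρ (F qL) + Dκ (F qL) = Dρ (F qR) + Dκ (F qR) := by
    refine const_of_exp hS (φ := fun p => Dρ p + Dκ p) ((cρ.mono Sρ).add (cκ.mono Sκ)) (c := 1)
      (fun p hp => ?_) hLS hRS
    have n0 : F (u 0) - p ≠ 0 := fun h => Sρ hp ⟨0, sub_eq_zero.1 h⟩
    have n1 : F (u 1) - p ≠ 0 := fun h => Sρ hp ⟨1, sub_eq_zero.1 h⟩
    rw [exp_add, eρ p (Sρ hp), eκ p (Sκ hp), κ.source, κ.target, ← u0, ← u1]
    field_simp
  -- the logarithm of the divided difference
  have dne : ∀ v q : ℂ, 0 < v.im → 0 < q.im → dd F (v, q) ≠ 0 := fun v q hv hq => by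
    unfold dd
    split_ifs with h
    · exact hd q hq
    · exact div_ne_zero (sub_ne_zero.2 fun e => h (hi hv hq e)) (sub_ne_zero.2 h)
  have dc : Continuous (fun z : unitInterval × C => dd F (u z.1, z.2.1)) :=
    continuous_iff_continuousAt.2 fun z =>
      (dd_cont oH hF (uH z.1) z.2.2.1).comp_of_eq (f := fun z : unitInterval × C => (u z.1, z.2.1))
        (Continuous.continuousAt (by fun_prop)) rfl
  obtain ⟨L, cL, eL, zL⟩ := lift (A := C) (fun z => dd F (u z.1, z.2.1) / dd F (u 0, z.2.1))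
    (dc.div (dc.comp (f := fun z : unitInterval × C => ((0 : unitInterval), z.2)) (by fun_prop))
      fun z => dne _ _ (uH 0) z.2.2.1)
    (fun z => div_ne_zero (dne _ _ (uH _) z.2.2.1) (dne _ _ (uH 0) z.2.2.1))
    (fun p => div_self (dne _ _ (uH 0) p.2.1))
  have une : ∀ (y : ℝ) (q : ℂ), q ∈ C → 0 < y → y ≠ r → (x : ℂ) + y * I - q ≠ 0 := by
    intro y q hq hy hr h
    have : q - x = y * I := by linear_combination -h
    have h' := hq.2
    rw [this] at h'
    simp only [norm_mul, norm_real, norm_I, mul_one, Real.norm_eq_abs, abs_of_pos hy] at h'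
    exact hr h'
  have u0ne : ∀ q ∈ C, u 0 - q ≠ 0 := fun q hq => by rw [u0]; exact une _ q hq h1 h2.ne
  have u1ne : ∀ q ∈ C, u 1 - q ≠ 0 := fun q hq => by rw [u1]; exact une _ q hq (by linarith) h3.ne'
  -- real and imaginary parts of the quotient
  have wim : ∀ (s : unitInterval) (q : ℂ), ((u s - q) / (u 0 - q)).im * normSq (u 0 - q) =
      (x - q.re) * (yy s - y1) := fun s q => by
    by_cases h : normSq (u 0 - q) = 0
    · have h' : u 0 - q = 0 := normSq_eq_zero.1 h
      have : x - q.re = 0 := by simpa [u0] using congrArg re h'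
      simp [h, this]
    · rw [div_im]
      field_simp
      simp [u, yy]; ring
  have wre : ∀ (s : unitInterval) (q : ℂ), u 0 - q ≠ 0 → ((u s - q) / (u 0 - q)).re * normSq (u 0 - q) =
      (x - q.re) ^ 2 + (yy s - q.im) * (y1 - q.im) := fun s q h => by
    have h : normSq (u 0 - q) ≠ 0 := fun e => h (normSq_eq_zero.1 e)
    rw [div_re]
    field_simp
    simp [u, yy]; ring
  have yy1 : yy 1 = y2 := by simp [yy]
  -- off the axis the variation along the segment is explicit
  have key : ∀ q (hq : q ∈ C), q.re ≠ x →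
      Dρ (F q) = L (1, ⟨q, hq⟩) + log ((u 1 - q) / (u 0 - q)) := by
    intro q hq hx
    have hx' : x - q.re ≠ 0 := sub_ne_zero.2 hx.symm
    have une' : ∀ s, u s - q ≠ 0 := fun s h => hx' (by simpa [u] using congrArg re h)
    have pos : 0 < normSq (u 0 - q) := normSq_pos.2 (une' 0)
    have sl : ∀ s, (u s - q) / (u 0 - q) ∈ slitPlane := fun s => by
      rcases eq_or_lt_of_le (yI s).1 with e | e
      · left
        have := wre s q (une' 0)
        rw [← e] at this
        have h5 : 0 < (x - q.re) ^ 2 := by positivity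
        nlinarith [sq_nonneg (y1 - q.im)]
      · right
        intro h
        have := wim s q
        rw [h, zero_mul] at this
        exact mul_ne_zero hx' (sub_pos.2 e).ne' this.symm
    refine (uρ (F q) ?_ (fun s => L (s, ⟨q, hq⟩) + log ((u s - q) / (u 0 - q))) ?_ ?_ ?_).symm
    · rintro ⟨s, hs⟩
      exact une' s (sub_eq_zero.2 (hi (uH s) hq.1 hs))
    · exact Continuous.add (by fun_prop) (Continuous.clog (by fun_prop) sl)
    · intro s
      rw [exp_add, eL, exp_log (div_ne_zero (une' s) (une' 0)), ← dd_mul F (u s) q,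
        ← dd_mul F (u 0) q]
      field_simp
    · simp [zL, div_self (une' 0)]
  -- the continuous invariant on the semicircle
  have sl2 : ∀ q ∈ C, -((u 1 - q) / (u 0 - q)) ∈ slitPlane := fun q hq => by
    have pos : 0 < normSq (u 0 - q) := normSq_pos.2 (u0ne q hq)
    by_cases hx : q.re = x
    · left
      have e := wre 1 q (u0ne q hq)
      have hr : q.im = r := by
        have : q - x = q.im * I := by apply Complex.ext <;> simp [hx]
        have h' := hq.2
        rw [this] at h'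
        simpa [abs_of_pos hq.1] using h'
      rw [yy1, hx, hr] at e
      rw [neg_re]
      nlinarith [mul_pos (sub_pos.2 h3) (sub_pos.2 h2)]
    · right
      intro h
      have e := wim 1 q
      rw [neg_im, neg_eq_zero] at h
      rw [h, zero_mul, yy1] at e
      exact mul_ne_zero (sub_ne_zero.2 (Ne.symm hx)) (by linarith) e.symm
  have pc : IsPreconnected (univ : Set C) := by
    have := (isPreconnected_iff_preconnectedSpace.1 (arc_preconn x r (by linarith)))
    exact isPreconnected_univ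
  have FC : Continuous (fun q : C => Dκ (F q.1)) :=
    cκ.comp_continuous (hF.continuousOn.comp_continuous continuous_subtype_val fun q => q.2.1)
      fun q => Cκ _ q.2
  have inv := const_of_exp pc
    (φ := fun q : C => L (1, q) + Dκ (F q.1) + log (-((u 1 - q.1) / (u 0 - q.1))))
    (Continuous.continuousOn (Continuous.add (Continuous.add (by fun_prop) FC)
      (Continuous.clog (Continuous.neg (Continuous.div (by fun_prop) (by fun_prop)
        fun q => u0ne _ q.2)) fun q => sl2 _ q.2))) (c := -1) (fun q _ => by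
      have n0 := u0ne _ q.2
      have n1 := u1ne _ q.2
      have d0 := dne _ _ (uH 0) q.2.1
      have d1 := dne _ _ (uH 1) q.2.1
      rw [exp_add, exp_add, eL, eκ _ (Cκ _ q.2), exp_log (neg_ne_zero.2 (div_ne_zero n1 n0)),
        κ.source, κ.target, ← u0, ← u1, ← dd_mul F (u 0) q, ← dd_mul F (u 1) q]
      field_simp) (mem_univ (⟨qL, hL⟩ : C)) (mem_univ (⟨qR, hR⟩ : C))
  rw [key qL hL hL'.ne, key qR hR hR'.ne'] at idx
  have iL : 0 < ((u 1 - qL) / (u 0 - qL)).im := by
    have e := wim 1 qL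
    rw [yy1] at e
    have pos : 0 < normSq (u 0 - qL) := normSq_pos.2 (u0ne qL hL)
    nlinarith [mul_pos (sub_pos.2 hL') (show 0 < y2 - y1 by linarith)]
  have iR : ((u 1 - qR) / (u 0 - qR)).im < 0 := by
    have e := wim 1 qR
    rw [yy1] at e
    have pos : 0 < normSq (u 0 - qR) := normSq_pos.2 (u0ne qR hR)
    nlinarith [mul_pos (sub_pos.2 hR') (show 0 < y2 - y1 by linarith)]
  have e1 := congrArg im idx
  have e2 := congrArg im inv
  simp only [add_im, log_im] at e1 e2
  rw [arg_neg_eq_arg_sub_pi_of_im_pos iL, arg_neg_eq_arg_add_pi_of_im_neg iR] at e2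
  linarith [Real.pi_pos]

end Pool.Agent.MP_990230_pr.K8
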